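import Mathlib
import Pool.Agent.Lib.MP_cd509c_nt.DN.Defs4

/-!
# Piece Da: from dyadic blocks to the absolute form for the derivatives
(zeros which are not real or not simple)
-/

set_option autoImplicit false

namespace Pool.Agent.Lib.MP_cd509c_nt.DN

open Complex ComplexConjugate MeasureTheory

lemma dn_Da_diff (n : ℕ) : Differentiable ℂ (iteratedDeriv n Xi) := by
  have h : Differentiable ℂ Xi := by
    unfold Xi
    exact Lam_differentiable.comp (by fun_prop)
  have h2 : ContDiff ℂ (⊤ : ℕ∞) Xi := h.contDiff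
  exact h2.differentiable_iteratedDeriv n (by exact_mod_cast WithTop.coe_lt_top n)

lemma dn_Da_neg (n : ℕ) (z : ℂ) :
    iteratedDeriv n Xi z = (-1) ^ n * iteratedDeriv n Xi (-z) := by
  have h : (fun z : ℂ => Xi (-z)) = Xi := by
    funext z
    unfold Xi
    rw [← Lam_symm']
    congr 1
    ring
  have h2 := iteratedDeriv_comp_neg n Xi z
  rw [h] at h2
  rw [h2, smul_eq_mul]

lemma dn_Da_dneg (n : ℕ) (z : ℂ) (hz : deriv (iteratedDeriv n Xi) z = 0) :
    deriv (iteratedDeriv n Xi) (-z) = 0 := by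
  rw [← iteratedDeriv_succ] at hz ⊢
  have h := dn_Da_neg (n + 1) (-z)
  rw [neg_neg, hz, mul_zero] at h
  exact h

lemma dn_Da_ord (n : ℕ) (z : ℂ) : analyticOrderNatAt (iteratedDeriv n Xi) (-z) =
    analyticOrderNatAt (iteratedDeriv n Xi) z := by
  have hd := dn_Da_diff n
  have h1 : iteratedDeriv n Xi = (fun _ => (-1 : ℂ) ^ n) * (iteratedDeriv n Xi ∘ fun z => -z) := by
    funext z
    simp only [Pi.mul_apply, Function.comp]
    exact dn_Da_neg n z
  have h2 : analyticOrderAt (iteratedDeriv n Xi) z = analyticOrderAt (iteratedDeriv n Xi) (-z) := by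
    conv_lhs => rw [h1]
    rw [analyticOrderAt_mul analyticAt_const
      ((hd.comp differentiable_neg).analyticAt z)]
    rw [analyticOrderAt_comp_of_deriv_ne_zero (g := fun z : ℂ => -z) (by fun_prop)
      (by simp)]
    have h3 : analyticOrderAt (fun _ : ℂ => (-1 : ℂ) ^ n) z = 0 := by
      rw [analyticOrderAt_eq_zero]
      right
      simp
    rw [h3, zero_add]
  unfold analyticOrderNatAt
  rw [h2]

lemma dn_Da_half (h : S_blockDs) (hw : S_winD) : ∃ C c : ℝ, 0 < C ∧ 0 < c ∧ ∀ n : ℕ, C ≤ n →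
    ∀ T : ℝ, 2 ≤ T →
      ∀ S : Finset ℂ, (∀ z ∈ S, iteratedDeriv n Xi z = 0 ∧
        (z.im ≠ 0 ∨ deriv (iteratedDeriv n Xi) z = 0) ∧ 0 ≤ z.re ∧ z.re ≤ T) →
        ∑ z ∈ S, (analyticOrderNatAt (iteratedDeriv n Xi) z : ℝ) ≤
          C * T * Real.log T * Real.exp (-(c * n)) := by
  obtain ⟨C₀, hC₀, hreal⟩ := hw
  obtain ⟨C₁, c, T₀, hC₁, hc, hT₀, hblock⟩ := h (max 1 (2 * C₀)) (le_max_left _ _)
  have hlT₀ : 0 < Real.log T₀ := Real.log_pos (by linarith)
  refine ⟨C₀ + C₁ + 2 * C₀ * Real.log 2 + 2 * C₀ * Real.log T₀, c, by positivity, hc,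
    fun n hn T hT S hS => ?_⟩
  have hl2 : 0 < Real.log 2 := Real.log_pos (by norm_num)
  have hn0 : C₀ ≤ n := by
    have : 0 < C₁ + 2 * C₀ * Real.log 2 + 2 * C₀ * Real.log T₀ := by positivity
    linarith
  have hn1 : C₁ ≤ n := by
    have : 0 < C₀ + 2 * C₀ * Real.log 2 + 2 * C₀ * Real.log T₀ := by positivity
    linarith
  have hn2 : 2 * C₀ * Real.log 2 ≤ n := by
    have : 0 < C₀ + C₁ + 2 * C₀ * Real.log T₀ := by positivity
    linarith
  have hn3 : 2 * C₀ * Real.log T₀ ≤ n := by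
    have : 0 < C₀ + C₁ + 2 * C₀ * Real.log 2 := by positivity
    linarith
  have hn4 : Real.log T₀ ≤ n / (2 * C₀) := by
    rw [le_div_iff₀ (by positivity)]
    linarith
  have hn5 : Real.log 2 ≤ n / (2 * C₀) := by
    rw [le_div_iff₀ (by positivity)]
    linarith
  have hT0 : 0 < T := by linarith
  have hlog : 0 ≤ Real.log T := Real.log_nonneg (by linarith)
  have hlow : ∀ z ∈ S, 2 * Real.exp (n / (2 * C₀)) ≤ z.re := by
    intro z hz
    obtain ⟨h1, h2, h3, h4⟩ := hS z hz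
    by_contra hlt
    push Not at hlt
    have hwin : |z.re| ≤ Real.exp (n / C₀) := by
      rw [abs_of_nonneg h3]
      refine hlt.le.trans ?_
      have e : (n : ℝ) / C₀ = n / (2 * C₀) + n / (2 * C₀) := by field_simp; ring
      rw [e, Real.exp_add]
      apply mul_le_mul_of_nonneg_right _ (Real.exp_pos _).le
      calc (2 : ℝ) = Real.exp (Real.log 2) := (Real.exp_log (by norm_num)).symm
        _ ≤ _ := Real.exp_le_exp.mpr hn5
    obtain ⟨g1, g2⟩ := hreal n hn0 z h1 hwin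
    rcases h2 with h2 | h2
    · exact h2 g1
    · exact g2 h2
  have hex : ∀ z ∈ S, ∃ j : ℕ, T / 2 ^ (j + 1) ≤ z.re ∧ z.re ≤ 2 * (T / 2 ^ (j + 1)) := by
    intro z hz
    obtain ⟨h1, h2, h3, h4⟩ := hS z hz
    have hz0 : 0 < z.re := lt_of_lt_of_le (by positivity) (hlow z hz)
    obtain ⟨j, hj1, hj2⟩ := exists_nat_pow_near (x := T / z.re) (y := (2 : ℝ))
      (by rw [le_div_iff₀ hz0]; linarith) (by norm_num)
    refine ⟨j, ?_, ?_⟩
    · rw [div_lt_iff₀ hz0] at hj2
      rw [div_le_iff₀ (by positivity)]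
      linarith
    · rw [le_div_iff₀ hz0] at hj1
      rw [pow_succ, ← div_div, mul_div_cancel₀ _ (by norm_num : (2 : ℝ) ≠ 0)]
      rw [le_div_iff₀ (by positivity)]
      linarith
  choose! jf hjf using hex
  rw [← Finset.sum_fiberwise_of_maps_to (fun z hz => Finset.mem_image_of_mem jf hz)]
  set D : ℝ := C₁ * T * Real.log T * Real.exp (-(c * n)) with hD
  have hD0 : 0 ≤ D := by positivity
  have hj : ∀ j ∈ Finset.image jf S, ∑ z ∈ S with jf z = j,
      (analyticOrderNatAt (iteratedDeriv n Xi) z : ℝ) ≤ D * (1 / 2 * (1 / 2) ^ j) := by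
    intro j hj
    obtain ⟨z₀, hz₀, hz₀j⟩ := Finset.mem_image.mp hj
    set Tj : ℝ := T / 2 ^ (j + 1) with hTj
    have hp1 : (1 : ℝ) ≤ 2 ^ (j + 1) := one_le_pow₀ (by norm_num)
    have hTjT : Tj ≤ T := div_le_self hT0.le hp1
    have h1 := (hjf z₀ hz₀).2
    rw [hz₀j] at h1
    have h2 := hlow z₀ hz₀
    have h3 : Real.exp (n / (2 * C₀)) ≤ Tj := by linarith
    have h4 : T₀ ≤ Tj := by
      refine le_trans ?_ h3
      calc T₀ = Real.exp (Real.log T₀) := (Real.exp_log (by linarith)).symm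
        _ ≤ _ := Real.exp_le_exp.mpr hn4
    have hTj2 : 2 ≤ Tj := hT₀.trans h4
    have h5 : (n : ℝ) ≤ max 1 (2 * C₀) * Real.log Tj := by
      have h6 : (n : ℝ) / (2 * C₀) ≤ Real.log Tj := by
        rw [Real.le_log_iff_exp_le (by linarith)]
        exact h3
      rw [div_le_iff₀ (by positivity)] at h6
      have h7 : 0 ≤ Real.log Tj := Real.log_nonneg (by linarith)
      have h8 : 2 * C₀ ≤ max 1 (2 * C₀) := le_max_right _ _
      nlinarith
    have h6 := hblock n Tj h4 hn1 h5 (S.filter fun z => jf z = j) (by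
      intro z hz
      obtain ⟨hz1, hz2⟩ := Finset.mem_filter.mp hz
      obtain ⟨a1, a2, a3, a4⟩ := hS z hz1
      have := hjf z hz1
      rw [hz2] at this
      exact ⟨a1, a2, this.1, this.2⟩)
    refine h6.trans ?_
    have h7 : Real.log Tj ≤ Real.log T := Real.log_le_log (by linarith) hTjT
    have h10 : 0 ≤ Real.log Tj := Real.log_nonneg (by linarith)
    have e : D * (1 / 2 * (1 / 2) ^ j) = C₁ * Tj * Real.log T * Real.exp (-(c * n)) := by
      rw [hD, hTj, pow_succ]
      have : (1 / 2 : ℝ) ^ j = 1 / 2 ^ j := by rw [one_div_pow]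
      rw [this]
      field_simp
    rw [e]
    apply mul_le_mul_of_nonneg_right _ (Real.exp_pos _).le
    apply mul_le_mul_of_nonneg_left h7
    positivity
  refine (Finset.sum_le_sum hj).trans ?_
  rw [← Finset.mul_sum, ← Finset.mul_sum]
  have h11 : ∑ j ∈ Finset.image jf S, (1 / 2 : ℝ) ^ j ≤ 2 := by
    have := summable_geometric_two.sum_le_tsum (Finset.image jf S) (fun i _ => by positivity)
    rw [tsum_geometric_two] at this
    exact this
  have h12 : D * (1 / 2 * ∑ j ∈ Finset.image jf S, (1 / 2 : ℝ) ^ j) ≤ D * 1 := by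
    apply mul_le_mul_of_nonneg_left _ hD0
    linarith
  refine h12.trans ?_
  rw [mul_one, hD]
  have h13 : 0 ≤ Real.exp (-(c * (n : ℝ))) := (Real.exp_pos _).le
  apply mul_le_mul_of_nonneg_right _ h13
  apply mul_le_mul_of_nonneg_right _ hlog
  apply mul_le_mul_of_nonneg_right _ hT0.le
  have : 0 < C₀ + 2 * C₀ * Real.log 2 + 2 * C₀ * Real.log T₀ := by positivity
  linarith

theorem p_Da (hb : S_blockDs) (hw : S_winD) : S_Da := by
  obtain ⟨C, c, hC, hc, hh⟩ := dn_Da_half hb hw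
  refine ⟨2 * C, c, by positivity, hc, fun n hn T hT S hS => ?_⟩
  have hn' : C ≤ n := by linarith
  rw [← Finset.sum_filter_add_sum_filter_not S (fun z => 0 ≤ z.re)]
  have h1 := hh n hn' T hT (S.filter fun z => 0 ≤ z.re) (by
    intro z hz
    obtain ⟨hz1, hz2⟩ := Finset.mem_filter.mp hz
    obtain ⟨a1, a2, a3⟩ := hS z hz1
    exact ⟨a1, a2, hz2, (le_abs_self _).trans a3⟩)
  have h2 := hh n hn' T hT ((S.filter fun z => ¬ 0 ≤ z.re).image fun z => -z) (by
    intro w hw
    obtain ⟨z, hz, rfl⟩ := Finset.mem_image.mp hw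
    obtain ⟨hz1, hz2⟩ := Finset.mem_filter.mp hz
    obtain ⟨a1, a2, a3⟩ := hS z hz1
    have h3 := dn_Da_neg n (-z)
    rw [neg_neg, a1, mul_zero] at h3
    push Not at hz2
    refine ⟨h3, ?_, ?_, ?_⟩
    · rcases a2 with a2 | a2
      · left; simpa using a2
      · right; exact dn_Da_dneg n z a2
    · simp only [neg_re]
      linarith
    · simp only [neg_re]
      exact (neg_le_abs _).trans a3)
  rw [Finset.sum_image (fun a _ b _ hab => neg_injective hab)] at h2
  simp_rw [dn_Da_ord] at h2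
  linarith

end Pool.Agent.Lib.MP_cd509c_nt.DN
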