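import Pool.Agent.Lib.MP_cd509c_nt.DN.Defs4

/-!
Project DN, piece Ds: proportion of the simple real zeros, derivatives.
-/

set_option autoImplicit false

namespace Pool.Agent.Lib.MP_cd509c_nt.DN

open Complex ComplexConjugate MeasureTheory

lemma dn_Ds_diff (n : ℕ) : Differentiable ℂ (iteratedDeriv n Xi) := by
  have h : Differentiable ℂ Xi := by
    unfold Xi
    exact Lam_differentiable.comp (by fun_prop)
  have h2 : ContDiff ℂ (⊤ : ℕ∞) Xi := h.contDiff
  exact h2.differentiable_iteratedDeriv n (by exact_mod_cast WithTop.coe_lt_top n)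

theorem p_Ds (hD : S_Da) (hr : S_realD) (hw : S_winD) : S_Ds := by
  obtain ⟨C₁, c₁, hC₁, hc₁, hD⟩ := hD
  obtain ⟨C₀, hC₀, hreal⟩ := hw
  obtain ⟨C₂, c₂, T₀, hC₂, hc₂, hT₀, hr⟩ := hr (max 1 (2 * C₀)) (le_max_left _ _)
  obtain ⟨K, hK⟩ : ∃ K : ℝ, K = C₁ + C₀ + C₂ + C₀ * Real.log (2 * T₀) + C₀ * Real.log 4 +
      C₁ * (8 / c₂) + 8 * C₁ / (c₂ * c₁) := ⟨_, rfl⟩
  have hl1 : 0 ≤ Real.log (2 * T₀) := Real.log_nonneg (by linarith)
  have hl4 : 0 ≤ Real.log 4 := Real.log_nonneg (by norm_num)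
  have hp1 : 0 ≤ C₀ * Real.log (2 * T₀) := by positivity
  have hp2 : 0 ≤ C₀ * Real.log 4 := by positivity
  have hp3 : 0 < C₁ * (8 / c₂) := by positivity
  have hp4 : 0 < 8 * C₁ / (c₂ * c₁) := by positivity
  have hK0 : 0 < K := by rw [hK]; linarith
  refine ⟨K, c₁, hK0, hc₁, fun n hn T hT => ?_⟩
  have hnC₀ : C₀ ≤ n := by rw [hK] at hn; linarith
  rcases le_or_gt T (Real.exp (n / C₀)) with hle | hexp
  · refine ⟨∅, by simp, fun S hS => ?_⟩
    have hS0 : S = ∅ := by
      rw [Finset.eq_empty_iff_forall_notMem]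
      intro z hz
      obtain ⟨hz0, hzi, hzr⟩ := hS z hz
      obtain ⟨h1, h2⟩ := hreal n hnC₀ z hz0 (hzr.trans hle)
      rcases hzi with h | h
      · exact h h1
      · exact h2 h
    rw [hS0]
    simp
  have hT0 : 0 < T := by linarith
  have hlog : (n : ℝ) / C₀ < Real.log T := (Real.lt_log_iff_exp_lt hT0).2 hexp
  rw [div_lt_iff₀ hC₀] at hlog
  have hT1 : 2 * T₀ ≤ T := by
    have h1 : C₀ * Real.log (2 * T₀) < C₀ * Real.log T := by
      rw [hK] at hn
      linarith
    have h2 := lt_of_mul_lt_mul_left h1 hC₀.le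
    exact ((Real.log_lt_log_iff (by linarith) hT0).1 h2).le
  have hT4 : 4 ≤ T := by linarith
  have hlog2 : Real.log T / 2 ≤ Real.log (T / 2) := by
    have h1 : Real.log T = Real.log (T / 2) + Real.log 2 := by
      rw [← Real.log_mul (by positivity) (by norm_num), div_mul_cancel₀ _ (by norm_num)]
    have h2 : Real.log 2 ≤ Real.log (T / 2) := Real.log_le_log (by norm_num) (by linarith)
    linarith
  have hlT : 0 < Real.log T := Real.log_pos (by linarith)
  have hnA : (n : ℝ) ≤ max 1 (2 * C₀) * Real.log (T / 2) := by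
    calc (n : ℝ) ≤ (2 * C₀) * (Real.log T / 2) := by linarith
      _ ≤ max 1 (2 * C₀) * Real.log (T / 2) :=
        mul_le_mul (le_max_right _ _) hlog2 (by positivity) (le_trans zero_le_one (le_max_left _ _))
  obtain ⟨R, hR, hcard⟩ := hr n (T / 2) (by linarith) (by rw [hK] at hn; linarith) hnA
  have hf : ∀ z : ℂ, AnalyticAt ℂ (iteratedDeriv n Xi) z := fun z => (dn_Ds_diff n).analyticAt z
  have hne : iteratedDeriv n Xi I ≠ 0 := by
    intro h
    have h1 := (hreal n hnC₀ I h (by simp; positivity)).1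
    simp at h1
  have hord : ∀ z : ℂ, iteratedDeriv n Xi z = 0 →
      1 ≤ analyticOrderNatAt (iteratedDeriv n Xi) z := by
    intro z hz
    have h1 : analyticOrderAt (iteratedDeriv n Xi) z ≠ ⊤ := by
      intro h
      rw [analyticOrderAt_eq_top] at h
      have h2 : iteratedDeriv n Xi = 0 := by
        have h3 : AnalyticOnNhd ℂ (iteratedDeriv n Xi) Set.univ := fun w _ => hf w
        exact h3.eq_of_eventuallyEq (fun w _ => analyticAt_const) h
      exact hne (by rw [h2]; rfl)
    have h2 : analyticOrderAt (iteratedDeriv n Xi) z ≠ 0 := by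
      rw [Ne, (hf z).analyticOrderAt_eq_zero]
      exact fun h => h hz
    rw [Nat.one_le_iff_ne_zero]
    intro h
    rw [analyticOrderNatAt, ENat.toNat_eq_zero] at h
    rcases h with h | h
    · exact h2 h
    · exact h1 h
  classical
  refine ⟨R.filter (fun x => deriv (iteratedDeriv n Xi) x ≠ 0), fun x hx => ?_, ?_⟩
  · rw [Finset.mem_filter] at hx
    obtain ⟨h1, h2, h3⟩ := hR x hx.1
    exact ⟨by rw [abs_le]; constructor <;> linarith, h3, hx.2⟩
  · have hhalf : T * Real.log T ≤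
        8 / c₂ * ((R.filter (fun x => deriv (iteratedDeriv n Xi) (x : ℝ) ≠ 0)).card : ℝ) := by
      have hsum : (R.card : ℝ) =
          ((R.filter (fun x : ℝ => deriv (iteratedDeriv n Xi) (x : ℂ) ≠ 0)).card : ℝ) +
          ((R.filter (fun x : ℝ => ¬ deriv (iteratedDeriv n Xi) (x : ℂ) ≠ 0)).card : ℝ) := by
        rw [← Nat.cast_add, Finset.card_filter_add_card_filter_not]
      set B := R.filter (fun x : ℝ => ¬ deriv (iteratedDeriv n Xi) (x : ℂ) ≠ 0) with hB
      have hbad := hD n (by rw [hK] at hn; linarith) T hT (B.image (fun x : ℝ => (x : ℂ)))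
        (fun z hz => by
          rw [Finset.mem_image] at hz
          obtain ⟨x, hx, rfl⟩ := hz
          rw [hB, Finset.mem_filter, not_not] at hx
          obtain ⟨h1, h2, h3⟩ := hR x hx.1
          refine ⟨h3, Or.inr hx.2, ?_⟩
          rw [ofReal_re, abs_le]
          constructor <;> linarith)
      have hcB : (B.card : ℝ) ≤ ∑ z ∈ B.image (fun x : ℝ => (x : ℂ)),
          (analyticOrderNatAt (iteratedDeriv n Xi) z : ℝ) := by
        rw [Finset.sum_image (fun x _ y _ h => ofReal_injective h), Finset.cast_card]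
        refine Finset.sum_le_sum fun x hx => ?_
        rw [hB, Finset.mem_filter] at hx
        exact_mod_cast hord x (hR x hx.1).2.2
      have h3 : c₂ * (T * Real.log T) / 4 ≤ R.card := by
        calc c₂ * (T * Real.log T) / 4 = c₂ * (T / 2) * (Real.log T / 2) := by ring
          _ ≤ c₂ * (T / 2) * Real.log (T / 2) := mul_le_mul_of_nonneg_left hlog2 (by positivity)
          _ ≤ _ := hcard
      have h4 : C₁ * Real.exp (-(c₁ * n)) ≤ c₂ / 8 := by
        have h5 : 8 * C₁ / (c₂ * c₁) ≤ n := by rw [hK] at hn; linarith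
        rw [div_le_iff₀ (by positivity)] at h5
        have h6 : c₁ * n ≤ Real.exp (c₁ * n) := by
          linarith [Real.add_one_le_exp (c₁ * (n : ℝ))]
        rw [Real.exp_neg, ← div_eq_mul_inv, div_le_iff₀ (Real.exp_pos _)]
        calc C₁ = (8 * C₁) / 8 := by ring
          _ ≤ (n * (c₂ * c₁)) / 8 := by gcongr
          _ = c₂ / 8 * (c₁ * n) := by ring
          _ ≤ c₂ / 8 * Real.exp (c₁ * n) := by gcongr
      have h7 : (B.card : ℝ) ≤ c₂ * (T * Real.log T) / 8 := by
        calc (B.card : ℝ) ≤ C₁ * T * Real.log T * Real.exp (-(c₁ * n)) := hcB.trans hbad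
          _ = C₁ * Real.exp (-(c₁ * n)) * (T * Real.log T) := by ring
          _ ≤ c₂ / 8 * (T * Real.log T) := by gcongr
          _ = _ := by ring
      rw [div_mul_eq_mul_div, le_div_iff₀ hc₂]
      linarith
    intro S hS
    have h1 := hD n (by rw [hK] at hn; linarith) T hT S hS
    refine h1.trans ?_
    have h5 : C₁ * (8 / c₂) ≤ K := by rw [hK]; linarith
    have hx : 0 < Real.exp (-(c₁ * n)) := Real.exp_pos _
    set M : ℝ := ((R.filter (fun x : ℝ => deriv (iteratedDeriv n Xi) (x : ℂ) ≠ 0)).card : ℝ)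
      with hM
    have hM0 : 0 ≤ M := by rw [hM]; positivity
    calc C₁ * T * Real.log T * Real.exp (-(c₁ * n))
        = C₁ * (T * Real.log T) * Real.exp (-(c₁ * n)) := by ring
      _ ≤ C₁ * (8 / c₂ * M) * Real.exp (-(c₁ * n)) := by gcongr
      _ = (C₁ * (8 / c₂)) * Real.exp (-(c₁ * n)) * M := by ring
      _ ≤ K * Real.exp (-(c₁ * n)) * M := by gcongr

end Pool.Agent.Lib.MP_cd509c_nt.DN
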