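import Pool.Agent.Lib.MP_cd509c_nt.DN.Defs4

/-!
Project DN, piece HB4: positive logarithmic derivative at the centre.
-/

set_option autoImplicit false

namespace Pool.Agent.Lib.MP_cd509c_nt.DN

open Complex ComplexConjugate MeasureTheory

/-- A zero-free function on a disc has a logarithm. -/
private lemma dn_HB4_log {B : ℂ → ℂ} {ρ : ℝ} (hρ : 0 < ρ)
    (hB : DifferentiableOn ℂ B (Metric.ball 0 ρ)) (hne : ∀ w ∈ Metric.ball (0 : ℂ) ρ, B w ≠ 0) :
    ∃ h : ℂ → ℂ, h 0 = 0 ∧ (∀ w ∈ Metric.ball (0 : ℂ) ρ, HasDerivAt h (deriv B w / B w) w) ∧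
      ∀ w ∈ Metric.ball (0 : ℂ) ρ, B w = B 0 * cexp (h w) := by
  have hL : DifferentiableOn ℂ (fun w => deriv B w / B w) (Metric.ball 0 ρ) :=
    (hB.deriv Metric.isOpen_ball).div hB hne
  obtain ⟨h, hh0, hh⟩ := hL.isExactOn_ball.with_val_at 0 0
  refine ⟨h, hh0, hh, ?_⟩
  have hder : ∀ w ∈ Metric.ball (0 : ℂ) ρ, HasDerivAt (fun w => B w * cexp (-h w)) 0 w := by
    intro w hw
    have e0 : HasDerivAt B (deriv B w) w :=
      (hB.differentiableAt (Metric.isOpen_ball.mem_nhds hw)).hasDerivAt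
    have e1 := e0.fun_mul ((hh w hw).fun_neg.cexp)
    have : deriv B w * cexp (-h w) + B w * (cexp (-h w) * -(deriv B w / B w)) = 0 := by
      have := hne w hw
      field_simp
      ring
    rw [this] at e1
    exact e1
  intro w hw
  have h0mem : (0 : ℂ) ∈ Metric.ball (0 : ℂ) ρ := Metric.mem_ball_self hρ
  have hc := (convex_ball (0 : ℂ) ρ).is_const_of_fderivWithin_eq_zero (𝕜 := ℂ)
    (f := fun w => B w * cexp (-h w))
    (fun x hx => (hder x hx).differentiableAt.differentiableWithinAt) (fun x hx => by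
      rw [fderivWithin_of_isOpen Metric.isOpen_ball hx]
      have := (hder x hx).hasFDerivAt.fderiv
      rw [this]
      ext
      simp) hw h0mem
  simp only [hh0, neg_zero, Complex.exp_zero, mul_one] at hc
  rw [← hc, mul_assoc, ← Complex.exp_add]
  simp

/-- The logarithmic derivative has real part at least `N / 2`. -/
private lemma dn_HB4_der {ρ η N c₀ : ℝ} {B h : ℂ → ℂ} (hρ : 0 < ρ) (hN : 0 < N)
    (hηρ : η < ρ / 32)
    (hhd : ∀ w ∈ Metric.ball (0 : ℂ) ρ, HasDerivAt h (deriv B w / B w) w)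
    (hhe : ∀ w ∈ Metric.ball (0 : ℂ) ρ, B w = B 0 * cexp (h w))
    (hw : ∀ w ∈ Metric.ball (0 : ℂ) ρ, B w ≠ 0 ∧ |Real.log ‖B w‖ - c₀ - N * w.re| ≤ η * N)
    (p : ℂ) (hp : ‖p‖ ≤ ρ / 2) : N / 2 ≤ (deriv B p / B p).re := by
  have h0mem : (0 : ℂ) ∈ Metric.ball (0 : ℂ) ρ := Metric.mem_ball_self hρ
  have hB0 : B 0 ≠ 0 := (hw 0 h0mem).1
  have hlog : ∀ w ∈ Metric.ball (0 : ℂ) ρ, Real.log ‖B w‖ = Real.log ‖B 0‖ + (h w).re := by
    intro w hw'
    rw [hhe w hw', norm_mul, Complex.norm_exp,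
      Real.log_mul (norm_ne_zero_iff.2 hB0) (Real.exp_pos _).ne', Real.log_exp]
  have hmem : ∀ z ∈ Metric.ball (0 : ℂ) (ρ / 2), p + z ∈ Metric.ball (0 : ℂ) ρ := by
    intro z hz
    rw [mem_ball_zero_iff] at hz ⊢
    calc ‖p + z‖ ≤ ‖p‖ + ‖z‖ := norm_add_le _ _
      _ < ρ := by linarith
  have hpm : p ∈ Metric.ball (0 : ℂ) ρ := by
    rw [mem_ball_zero_iff]
    linarith
  set g : ℂ → ℂ := fun z => h (p + z) - N * z - h p with hg
  have hgd : ∀ z ∈ Metric.ball (0 : ℂ) (ρ / 2),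
      HasDerivAt g (deriv B (p + z) / B (p + z) - N) z := by
    intro z hz
    have e1 : HasDerivAt (fun z : ℂ => h (p + z)) (deriv B (p + z) / B (p + z)) z := by
      have e2 := (hhd _ (hmem z hz)).comp_const_add p z
      exact e2
    have e3 : HasDerivAt (fun z : ℂ => (N : ℂ) * z) N z := by
      simpa using (hasDerivAt_id z).const_mul (N : ℂ)
    exact (e1.sub e3).sub_const _
  have hg0 : g 0 = 0 := by simp [hg]
  have hM : 0 < ρ * N / 16 := by positivity
  have hre : Set.MapsTo g (Metric.ball 0 (ρ / 2)) {z | z.re ≤ ρ * N / 16} := by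
    intro z hz
    have h1 := abs_le.1 (hw _ (hmem z hz)).2
    have h2 := abs_le.1 (hw _ hpm).2
    rw [hlog _ (hmem z hz)] at h1
    rw [hlog _ hpm] at h2
    have h3 : (g z).re = (h (p + z)).re - N * z.re - (h p).re := by
      simp [hg]
    show (g z).re ≤ ρ * N / 16
    rw [h3]
    have h4 : (p + z).re = p.re + z.re := by simp
    rw [h4] at h1
    have h6 : 2 * (η * N) ≤ ρ * N / 16 := by nlinarith
    linarith [h1.2, h2.1]
  have hb : ∀ z ∈ Metric.ball (0 : ℂ) (ρ / 4), ‖g z‖ ≤ N / 2 * ‖z‖ := by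
    intro z hz
    rw [mem_ball_zero_iff] at hz
    have h1 := Complex.borelCaratheodory_zero hM
      (fun z hz => (hgd z hz).differentiableAt.differentiableWithinAt) hre (by linarith)
      (z := z) (by rw [mem_ball_zero_iff]; linarith) hg0
    refine h1.trans ?_
    have h2 : 0 < ρ / 2 - ‖z‖ := by linarith
    rw [div_le_iff₀ h2]
    have h3 : ρ / 4 ≤ ρ / 2 - ‖z‖ := by linarith
    have h4 : 0 ≤ N / 2 * ‖z‖ := by positivity
    calc 2 * (ρ * N / 16) * ‖z‖ = N / 2 * ‖z‖ * (ρ / 4) := by ring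
      _ ≤ N / 2 * ‖z‖ * (ρ / 2 - ‖z‖) := mul_le_mul_of_nonneg_left h3 h4
  have hgd0 := hgd 0 (Metric.mem_ball_self (by linarith))
  rw [add_zero] at hgd0
  have hle : ‖(deriv B p / B p - N : ℂ)‖ ≤ N / 2 := by
    have h1 := hgd0.hasFDerivAt.le_of_lip' (C := N / 2) (by positivity) (by
      filter_upwards [Metric.ball_mem_nhds (0 : ℂ) (show 0 < ρ / 4 by linarith)] with z hz
      rw [hg0, sub_zero, sub_zero]
      exact hb z hz)
    simpa using h1
  have h2 := (abs_le.1 ((Complex.abs_re_le_norm _).trans hle)).1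
  rw [Complex.sub_re, Complex.ofReal_re] at h2
  linarith

theorem p_HB4 : S_HB4 := by
  intro ρ η N c B hρ hN _ hηρ hB hw
  obtain ⟨h, _, hhd, hhe⟩ := dn_HB4_log hρ hB (fun w hw' => (hw w hw').1)
  have h1 := dn_HB4_der hρ hN hηρ hhd hhe hw 0 (by rw [norm_zero]; linarith)
  linarith

end Pool.Agent.Lib.MP_cd509c_nt.DN
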