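import Pool.Agent.Lib.MP_cd509c_nt.DN.Defs4

/-!
# Heat flow: the final statement, proportion of the simple real zeros
-/

set_option autoImplicit false

namespace Pool.Agent.Lib.MP_cd509c_nt.DN

open Complex ComplexConjugate MeasureTheory

lemma dn_Hs_diff (t : ℝ) : Differentiable ℂ (Ht t) := by
  have h := (Ker_PhiT t).FT_differentiable
  have e : FT (PhiT t) = Ht t := funext (FT_PhiT t)
  rwa [e] at h

/-- Zeros have order at least one, in the sense of natural numbers. -/
lemma dn_Hs_ord {C : ℝ} (hw : ∀ t : ℝ, 0 < t → t ≤ 1 → ∀ z : ℂ,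
    Real.exp (C / t) ≤ |z.re| → Ht t z = 0 → z.im = 0 ∧ deriv (Ht t) z ≠ 0)
    {t : ℝ} (ht : 0 < t) (ht1 : t ≤ 1) (z : ℂ) (hz : Ht t z = 0) :
    1 ≤ analyticOrderNatAt (Ht t) z := by
  have han : AnalyticOnNhd ℂ (Ht t) Set.univ :=
    fun w _ => (dn_Hs_diff t).analyticAt w
  have hne : analyticOrderAt (Ht t) z ≠ ⊤ := by
    intro htop
    have hev : ∀ᶠ w in nhds z, Ht t w = 0 := analyticOrderAt_eq_top.1 htop
    have hzero : Set.EqOn (Ht t) 0 Set.univ :=
      han.eqOn_zero_of_preconnected_of_eventuallyEq_zero isPreconnected_univ (Set.mem_univ z) hev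
    have hfun : Ht t = fun _ => 0 := by
      funext w
      exact hzero (Set.mem_univ w)
    have h1 := hw t ht ht1 ((Real.exp (C / t) : ℝ) : ℂ) (by
      rw [Complex.ofReal_re]
      exact le_abs_self _) (by rw [hfun])
    apply h1.2
    rw [hfun]
    simp
  have h0 : analyticOrderAt (Ht t) z ≠ 0 := by
    intro h0
    exact ((han z (Set.mem_univ z)).analyticOrderAt_eq_zero.1 h0) hz
  unfold analyticOrderNatAt
  rw [Nat.one_le_iff_ne_zero]
  intro h
  rcases ENat.toNat_eq_zero.1 h with h | h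
  · exact h0 h
  · exact hne h

theorem p_Hs (hH : S_Ha) (hr : S_realH) (hw : S_winH) : S_Hs := by
  classical
  obtain ⟨C0, hC0, hwin⟩ := hw
  obtain ⟨C1, c1, hC1, hc1, h1⟩ := hH
  obtain ⟨C2, c2, T0, hC2, hc2, hT0, h2⟩ := hr C0 hC0
  refine ⟨C1 + C2 + Real.log T0 ^ 2 + 2 * C1 / c2 + 2 * C1 / (c1 * c2), c1, by positivity, hc1, ?_⟩
  intro t T ht1 hT hC
  have hlT0 : 0 ≤ Real.log T0 := Real.log_nonneg (by linarith)
  have hlT : 0 < Real.log T := Real.log_pos (by linarith)
  have hC12 : 0 < 2 * C1 / c2 := by positivity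
  have hC123 : 0 < 2 * C1 / (c1 * c2) := by positivity
  have hsq : 0 ≤ Real.log T0 ^ 2 := sq_nonneg _
  have ht0 : 0 < t := by
    by_contra hcon
    push Not at hcon
    have : t * Real.log T ^ 2 ≤ 0 := mul_nonpos_of_nonpos_of_nonneg hcon (sq_nonneg _)
    linarith
  rcases le_or_gt (Real.exp (C0 / t)) T with hbig | hlt
  · refine ⟨∅, by simp, fun S hS => ?_⟩
    have hSe : S = ∅ := by
      rw [Finset.eq_empty_iff_forall_notMem]
      intro z hz
      obtain ⟨hz1, hz2, hz3, hz4⟩ := hS z hz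
      obtain ⟨h3, h4⟩ := hwin t ht0 ht1 z (hbig.trans hz3) hz1
      rcases hz2 with h5 | h5
      · exact h5 h3
      · exact h4 h5
    rw [hSe]
    simp
  have hTlt : Real.log T < C0 / t := (Real.log_lt_iff_lt_exp (by linarith)).2 hlt
  have hA : t * Real.log T ≤ C0 := by
    rw [lt_div_iff₀ ht0] at hTlt
    linarith
  have hTT : T0 ≤ T := by
    have h3 : Real.log T0 ^ 2 ≤ Real.log T ^ 2 := by
      have : t * Real.log T ^ 2 ≤ 1 * Real.log T ^ 2 :=
        mul_le_mul_of_nonneg_right ht1 (sq_nonneg _)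
      linarith
    have h4 : Real.log T0 ≤ Real.log T := (pow_le_pow_iff_left₀ hlT0 hlT.le (by norm_num)).1 h3
    exact (Real.log_le_log_iff (by linarith) (by linarith)).1 h4
  obtain ⟨R, hR, hcard⟩ := h2 t T hTT ht0 (by linarith) hA
  have hTl : 0 < T * Real.log T := by positivity
  -- the bad real zeros
  have hbad : ((R.filter fun x : ℝ => deriv (Ht t) (x : ℂ) = 0).card : ℝ) ≤
      C1 * T * Real.log T * Real.exp (-(c1 * t * Real.log T ^ 2)) := by
    have h3 := h1 t T ht1 hT (by linarith)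
      ((R.filter fun x : ℝ => deriv (Ht t) (x : ℂ) = 0).image fun x : ℝ => (x : ℂ)) (by
        intro z hz
        obtain ⟨x, hx, rfl⟩ := Finset.mem_image.1 hz
        obtain ⟨hx1, hx2⟩ := Finset.mem_filter.1 hx
        obtain ⟨h5, h6, h7⟩ := hR x hx1
        have hx0 : 0 ≤ x := by linarith
        refine ⟨h7, Or.inr hx2, ?_, ?_⟩
        · rw [Complex.ofReal_re, abs_of_nonneg hx0]
          exact h5
        · rw [Complex.ofReal_re, abs_of_nonneg hx0]
          exact h6)
    rw [Finset.sum_image (fun a _ b _ hab => Complex.ofReal_injective hab)] at h3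
    refine le_trans ?_ h3
    rw [← nsmul_one, ← Finset.sum_const]
    refine Finset.sum_le_sum fun x hx => ?_
    obtain ⟨hx1, hx2⟩ := Finset.mem_filter.1 hx
    have := dn_Hs_ord hwin ht0 ht1 (x : ℂ) (hR x hx1).2.2
    exact_mod_cast this
  have hexp : C1 * Real.exp (-(c1 * t * Real.log T ^ 2)) ≤ c2 / 2 := by
    have hy : 2 * C1 / (c1 * c2) ≤ t * Real.log T ^ 2 := by linarith
    have hy0 : 0 < t * Real.log T ^ 2 := by positivity
    have hx0 : 0 < c1 * t * Real.log T ^ 2 := by positivity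
    have h3 : c1 * t * Real.log T ^ 2 ≤ Real.exp (c1 * t * Real.log T ^ 2) := by
      have := Real.add_one_le_exp (c1 * t * Real.log T ^ 2)
      linarith
    rw [Real.exp_neg, ← div_eq_mul_inv, div_le_iff₀ (Real.exp_pos _)]
    rw [div_le_iff₀ (by positivity)] at hy
    have h4 : C1 ≤ c2 / 2 * (c1 * t * Real.log T ^ 2) := by nlinarith
    refine h4.trans ?_
    exact mul_le_mul_of_nonneg_left h3 (by positivity)
  have hsplit : (R.filter fun x : ℝ => deriv (Ht t) (x : ℂ) = 0).card +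
      (R.filter fun x : ℝ => ¬ deriv (Ht t) (x : ℂ) = 0).card = R.card :=
    Finset.card_filter_add_card_filter_not _
  have hsplit' : ((R.filter fun x : ℝ => deriv (Ht t) (x : ℂ) = 0).card : ℝ) +
      ((R.filter fun x : ℝ => ¬ deriv (Ht t) (x : ℂ) = 0).card : ℝ) = (R.card : ℝ) := by
    exact_mod_cast hsplit
  refine ⟨R.filter fun x : ℝ => ¬ deriv (Ht t) (x : ℂ) = 0, ?_, fun S hS => ?_⟩
  · intro x hx
    obtain ⟨hx1, hx2⟩ := Finset.mem_filter.1 hx
    obtain ⟨h5, h6, h7⟩ := hR x hx1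
    exact ⟨h5, h6, h7, hx2⟩
  have hE : 0 < Real.exp (-(c1 * t * Real.log T ^ 2)) := Real.exp_pos _
  have hgood : T * Real.log T ≤
      2 / c2 * ((R.filter fun x : ℝ => ¬ deriv (Ht t) (x : ℂ) = 0).card : ℝ) := by
    have h3 : C1 * T * Real.log T * Real.exp (-(c1 * t * Real.log T ^ 2)) ≤
        c2 / 2 * (T * Real.log T) := by
      calc C1 * T * Real.log T * Real.exp (-(c1 * t * Real.log T ^ 2))
          = C1 * Real.exp (-(c1 * t * Real.log T ^ 2)) * (T * Real.log T) := by ring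
        _ ≤ c2 / 2 * (T * Real.log T) := mul_le_mul_of_nonneg_right hexp hTl.le
    rw [div_mul_eq_mul_div, le_div_iff₀ hc2]
    linarith
  refine (h1 t T ht1 hT (by linarith) S hS).trans ?_
  have hcd : (0 : ℝ) ≤ ((R.filter fun x : ℝ => ¬ deriv (Ht t) (x : ℂ) = 0).card : ℝ) :=
    Nat.cast_nonneg _
  calc C1 * T * Real.log T * Real.exp (-(c1 * t * Real.log T ^ 2))
      = C1 * Real.exp (-(c1 * t * Real.log T ^ 2)) * (T * Real.log T) := by ring
    _ ≤ C1 * Real.exp (-(c1 * t * Real.log T ^ 2)) *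
        (2 / c2 * ((R.filter fun x : ℝ => ¬ deriv (Ht t) (x : ℂ) = 0).card : ℝ)) := by gcongr
    _ = 2 * C1 / c2 * Real.exp (-(c1 * t * Real.log T ^ 2)) *
        ((R.filter fun x : ℝ => ¬ deriv (Ht t) (x : ℂ) = 0).card : ℝ) := by ring
    _ ≤ _ := by
      refine mul_le_mul_of_nonneg_right (mul_le_mul_of_nonneg_right ?_ hE.le) hcd
      linarith

end Pool.Agent.Lib.MP_cd509c_nt.DN
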