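import Pool.Agent.Lib.MP_cd509c_nt.DN.Defs4

/-!
Project DN, piece PDs: derivatives, the zero at the centre is simple.
-/

set_option autoImplicit false

namespace Pool.Agent.Lib.MP_cd509c_nt.DN

open Complex ComplexConjugate MeasureTheory

private lemma dn_PDs_la {N : ℝ} {R : ℂ → ℂ} (hR : Differentiable ℂ R) :
    Differentiable ℂ (la N R) := by
  unfold la
  fun_prop

/-- the integrand of the arc integral -/
private noncomputable def dn_PDs_g (f : ℂ → ℂ) (N : ℝ) (w : ℂ) (φ : ℝ) : ℂ :=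
  f (w + cexp (φ * I)) * cexp (-((N : ℂ) * φ) * I)

private lemma dn_PDs_cont {f : ℂ → ℂ} (hf : Continuous f) (N : ℝ) (w : ℂ) :
    Continuous (dn_PDs_g f N w) := by
  unfold dn_PDs_g
  fun_prop

/-- Cauchy formula -/
private lemma dn_PDs_cauchy {f : ℂ → ℂ} (hf : Differentiable ℂ f) (n : ℕ) (c : ℂ) :
    iteratedDeriv n f c = ((n.factorial : ℝ) / (2 * Real.pi) : ℝ) *
      ∫ φ in (-Real.pi)..Real.pi, dn_PDs_g f (n : ℝ) c φ := by
  rw [iteratedDeriv_circle hf c one_pos n]
  congr 1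
  apply intervalIntegral.integral_congr
  intro θ _
  simp only [dn_PDs_g, ofReal_one, one_mul]
  rw [mul_comm I (θ : ℂ), ← Complex.exp_nat_mul, ← Complex.exp_neg]
  congr 2
  push_cast
  ring

/-- the arc integral is an entire function of the centre -/
private lemma dn_PDs_diff {f : ℂ → ℂ} (hf : Differentiable ℂ f) (N θ : ℝ) :
    Differentiable ℂ (fun w => ∫ φ in (-θ)..θ, dn_PDs_g f N w φ) := by
  intro w₀
  have hdf : Continuous (deriv f) := (hf.contDiff (n := 1)).continuous_deriv le_rfl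
  obtain ⟨M, hM⟩ := (isCompact_closedBall (0 : ℂ) (‖w₀‖ + 2)).exists_bound_of_continuousOn
    hdf.continuousOn
  have h := (intervalIntegral.hasDerivAt_integral_of_dominated_loc_of_deriv_le
    (μ := volume) (a := -θ) (b := θ) (F := fun w φ => dn_PDs_g f N w φ)
    (F' := fun w φ => dn_PDs_g (deriv f) N w φ) (x₀ := w₀) (s := Metric.ball w₀ 1)
    (bound := fun _ => M) (Metric.ball_mem_nhds w₀ one_pos)
    (Filter.Eventually.of_forall fun w => (dn_PDs_cont hf.continuous N w).aestronglyMeasurable)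
    ((dn_PDs_cont hf.continuous N w₀).intervalIntegrable _ _)
    ((dn_PDs_cont hdf N w₀).aestronglyMeasurable) (by
      refine Filter.Eventually.of_forall fun φ _ w hw => ?_
      rw [dn_PDs_g, norm_mul, Complex.norm_exp]
      have h1 : ((-((N : ℂ) * φ) * I)).re = 0 := by simp
      rw [h1, Real.exp_zero, mul_one]
      apply hM
      rw [mem_closedBall_zero_iff]
      rw [mem_ball_iff_norm] at hw
      have h2 : ‖cexp (φ * I)‖ = 1 := Complex.norm_exp_ofReal_mul_I φ
      calc ‖w + cexp (φ * I)‖ ≤ ‖w‖ + ‖cexp (φ * I)‖ := norm_add_le _ _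
        _ ≤ (‖w₀‖ + ‖w - w₀‖) + 1 := by
          rw [h2]
          have : ‖w‖ ≤ ‖w₀‖ + ‖w - w₀‖ := by
            calc ‖w‖ = ‖w₀ + (w - w₀)‖ := by rw [add_sub_cancel]
              _ ≤ _ := norm_add_le _ _
          linarith
        _ ≤ ‖w₀‖ + 2 := by linarith)
    (by simp) (by
      refine Filter.Eventually.of_forall fun φ _ w _ => ?_
      unfold dn_PDs_g
      have h1 : HasDerivAt (fun w : ℂ => f (w + cexp (φ * I))) (deriv f (w + cexp (φ * I))) w :=
        (hf _).hasDerivAt.comp_add_const w (cexp (φ * I))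
      exact h1.mul_const _)).2
  exact h.differentiableAt

/-- splitting of the circle -/
private lemma dn_PDs_split {f : ℂ → ℂ} (hf : Continuous f) (n : ℕ) {c : ℂ}
    (hs : ∀ z, f (-conj z) = c * conj (f z)) (y : ℝ) :
    ∫ φ in (-Real.pi)..Real.pi, dn_PDs_g f (n : ℝ) y φ =
      (∫ φ in (-(Real.pi / 2))..(Real.pi / 2), dn_PDs_g f (n : ℝ) y φ) +
        c * (-1) ^ n * conj (∫ φ in (-(Real.pi / 2))..(Real.pi / 2),
          dn_PDs_g f (n : ℝ) (-(y : ℂ)) φ) := by
  have hper : Function.Periodic (dn_PDs_g f (n : ℝ) y) (2 * Real.pi) := by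
    intro φ
    simp only [dn_PDs_g]
    have e1 : cexp (((φ + 2 * Real.pi : ℝ) : ℂ) * I) = cexp (φ * I) := by
      push_cast
      rw [show ((φ : ℂ) + 2 * Real.pi) * I = φ * I + 2 * Real.pi * I by ring, Complex.exp_add,
        Complex.exp_two_pi_mul_I, mul_one]
    have e2 : cexp (-(((n : ℝ) : ℂ) * ((φ + 2 * Real.pi : ℝ) : ℂ)) * I) =
        cexp (-(((n : ℝ) : ℂ) * φ) * I) := by
      have e3 : -(((n : ℝ) : ℂ) * ((φ + 2 * Real.pi : ℝ) : ℂ)) * I =
          -(((n : ℝ) : ℂ) * φ) * I + ((-(n : ℤ) : ℤ) : ℂ) * (2 * Real.pi * I) := by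
        push_cast
        ring
      rw [e3, Complex.exp_add, Complex.exp_int_mul_two_pi_mul_I, mul_one]
    rw [e1, e2]
  have hc := dn_PDs_cont hf (n : ℝ) y
  have h1 : ∫ φ in (-Real.pi)..Real.pi, dn_PDs_g f (n : ℝ) y φ =
      ∫ φ in (-(Real.pi / 2))..(3 * Real.pi / 2), dn_PDs_g f (n : ℝ) y φ := by
    have h2 := hper.intervalIntegral_add_eq (-Real.pi) (-(Real.pi / 2))
    have e1 : -Real.pi + 2 * Real.pi = Real.pi := by ring
    have e2 : -(Real.pi / 2) + 2 * Real.pi = 3 * Real.pi / 2 := by ring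
    rw [e1, e2] at h2
    exact h2
  rw [h1, ← intervalIntegral.integral_add_adjacent_intervals (b := Real.pi / 2)
    (hc.intervalIntegrable _ _) (hc.intervalIntegrable _ _)]
  congr 1
  have h3 := intervalIntegral.integral_comp_sub_left (a := -(Real.pi / 2)) (b := Real.pi / 2)
    (fun φ => dn_PDs_g f (n : ℝ) y φ) Real.pi
  have e1 : Real.pi - Real.pi / 2 = Real.pi / 2 := by ring
  have e2 : Real.pi - -(Real.pi / 2) = 3 * Real.pi / 2 := by ring
  rw [e1, e2] at h3
  rw [← h3]
  have h4 : ∀ φ : ℝ, dn_PDs_g f (n : ℝ) y (Real.pi - φ) =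
      c * (-1) ^ n * conj (dn_PDs_g f (n : ℝ) (-(y : ℂ)) φ) := by
    intro φ
    simp only [dn_PDs_g]
    have e1 : cexp (((Real.pi - φ : ℝ) : ℂ) * I) = -conj (cexp (φ * I)) := by
      rw [← Complex.exp_conj]
      push_cast
      rw [show ((Real.pi : ℂ) - φ) * I = Real.pi * I + -(φ * I) by ring, Complex.exp_add,
        Complex.exp_pi_mul_I, map_mul, Complex.conj_ofReal, Complex.conj_I]
      rw [show (φ : ℂ) * -I = -(φ * I) by ring]
      ring
    have e2 : (y : ℂ) + -conj (cexp (φ * I)) = -conj (-(y : ℂ) + cexp (φ * I)) := by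
      rw [map_add, map_neg, Complex.conj_ofReal]
      ring
    have e3 : cexp (-(((n : ℝ) : ℂ) * ((Real.pi - φ : ℝ) : ℂ)) * I) =
        (-1) ^ n * conj (cexp (-(((n : ℝ) : ℂ) * φ) * I)) := by
      rw [← Complex.exp_conj]
      have e4 : -(((n : ℝ) : ℂ) * ((Real.pi - φ : ℝ) : ℂ)) * I =
          (n : ℂ) * -(Real.pi * I) + (n : ℂ) * (φ * I) := by
        push_cast
        ring
      rw [e4, Complex.exp_add, Complex.exp_nat_mul, Complex.exp_neg, Complex.exp_pi_mul_I]
      have e5 : ((-1 : ℂ))⁻¹ = -1 := by norm_num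
      rw [e5]
      congr 2
      rw [map_mul, map_neg, map_mul, Complex.conj_ofReal, Complex.conj_ofReal, Complex.conj_I]
      push_cast
      ring
    rw [e1, e2, hs, e3, map_mul]
    ring
  rw [intervalIntegral.integral_congr (g := fun φ => c * (-1) ^ n *
    conj (dn_PDs_g f (n : ℝ) (-(y : ℂ)) φ)) (fun φ _ => h4 φ)]
  rw [intervalIntegral.integral_const_mul]
  congr 1
  simp only [intervalIntegral, integral_conj, map_sub]

private lemma dn_PDs_BD (n : ℝ) (R : ℂ → ℂ) (θ : ℝ) (w : ℂ) :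
    BD n R θ w = ∫ φ in (-θ)..θ, dn_PDs_g (la n R) n w φ := rfl

/-- upper bound for the integrand -/
private lemma dn_PDs_up {ε N Y : ℝ} {R : ℂ → ℂ} (hε : 0 < ε) (hε1 : ε ≤ 1 / 100) (hN : 0 < N)
    (hY : 40 ≤ Y) (hR : Reg ε N 1 Y R) (hs : Sym (la N R)) {w : ℂ} (h1 : |w.re| ≤ 1 / 8)
    (h2 : |w.im| ≤ 1 / 8) {φ : ℝ} (hφ : |φ| ≤ Real.pi / 2) :
    ‖la N R (w + cexp (φ * I))‖ ≤ Real.exp (N * (w.re + 1) + 3 * ε * N) * ‖R (w + 1)‖ := by
  set v := cexp (φ * I) with hv
  have hvre : v.re = Real.cos φ := Complex.exp_ofReal_mul_I_re φ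
  have hvim : v.im = Real.sin φ := Complex.exp_ofReal_mul_I_im φ
  have hvn : ‖v‖ = 1 := Complex.norm_exp_ofReal_mul_I φ
  have hc0 : 0 ≤ v.re := by
    rw [hvre]
    exact Real.cos_nonneg_of_mem_Icc ⟨by linarith [(abs_le.1 hφ).1], (abs_le.1 hφ).2⟩
  have hc1 : v.re ≤ 1 := by rw [hvre]; exact Real.cos_le_one φ
  have hi : |v.im| ≤ 1 := by rw [hvim]; exact Real.abs_sin_le_one φ
  have a1 := abs_le.1 h1
  have a2 := abs_le.1 h2
  have a3 := abs_le.1 hi
  have hnorm : ∀ z : ℂ, ‖la N R z‖ = Real.exp (N * z.re) * ‖R z‖ := by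
    intro z
    rw [la, norm_mul, Complex.norm_exp]
    congr 2
    simp
  have hlin : ∀ z : ℂ, 0 ≤ z.re → z.re ≤ 2 → |z.im| ≤ 2 →
      ‖R z‖ ≤ Real.exp (ε * N * ‖z - (w + 1)‖) * ‖R (w + 1)‖ := by
    intro z hz1 hz2 hz3
    apply hR.lin (w + 1) z
    · simp only [add_re, one_re]; linarith [a1.1]
    · simp only [add_re, one_re]; linarith [a1.2]
    · simp only [add_im, one_im, add_zero]; linarith
    · exact hz1
    · linarith
    · linarith
  have hwn : ‖w‖ ≤ 1 / 4 := by
    have := Complex.norm_le_abs_re_add_abs_im w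
    linarith
  have hεN : 0 < ε * N := by positivity
  rcases le_or_gt 0 (w + v).re with hre | hre
  · rw [hnorm]
    have h3 := hlin (w + v) hre (by simp only [add_re]; linarith [a1.2]) (by
      simp only [add_im]
      exact abs_le.2 ⟨by linarith [a2.1, a3.1], by linarith [a2.2, a3.2]⟩)
    have h4 : ‖w + v - (w + 1)‖ ≤ 3 := by
      have : w + v - (w + 1) = v - 1 := by ring
      rw [this]
      calc ‖v - 1‖ ≤ ‖v‖ + ‖(1 : ℂ)‖ := norm_sub_le _ _
        _ ≤ 3 := by rw [hvn, norm_one]; norm_num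
    calc Real.exp (N * (w + v).re) * ‖R (w + v)‖ ≤
          Real.exp (N * (w + v).re) * (Real.exp (ε * N * ‖w + v - (w + 1)‖) * ‖R (w + 1)‖) :=
          mul_le_mul_of_nonneg_left h3 (Real.exp_pos _).le
      _ = Real.exp (N * (w + v).re + ε * N * ‖w + v - (w + 1)‖) * ‖R (w + 1)‖ := by
          rw [Real.exp_add]; ring
      _ ≤ _ := by
          apply mul_le_mul_of_nonneg_right _ (norm_nonneg _)
          apply Real.exp_le_exp.2
          have h5 : N * (w + v).re ≤ N * (w.re + 1) := by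
            apply mul_le_mul_of_nonneg_left _ hN.le
            simp only [add_re]
            linarith
          have h6 : ε * N * ‖w + v - (w + 1)‖ ≤ ε * N * 3 :=
            mul_le_mul_of_nonneg_left h4 hεN.le
          linarith
  · obtain ⟨c, hc, hsym⟩ := hs
    have h3 : ‖la N R (w + v)‖ = ‖la N R (-conj (w + v))‖ := by
      rw [hsym, norm_mul, hc, one_mul, Complex.norm_conj]
    rw [h3, hnorm]
    have hz1 : (-conj (w + v)).re = -(w + v).re := by simp
    have hz2 : (-conj (w + v)).im = (w + v).im := by simp [add_comm]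
    have h5 := hlin (-conj (w + v)) (by rw [hz1]; linarith) (by
      rw [hz1]
      simp only [add_re]
      linarith [a1.1]) (by
      rw [hz2]
      simp only [add_im]
      exact abs_le.2 ⟨by linarith [a2.1, a3.1], by linarith [a2.2, a3.2]⟩)
    have h6 : ‖-conj (w + v) - (w + 1)‖ ≤ 3 := by
      calc ‖-conj (w + v) - (w + 1)‖ ≤ ‖-conj (w + v)‖ + ‖w + 1‖ := norm_sub_le _ _
        _ ≤ (‖w‖ + ‖v‖) + (‖w‖ + ‖(1 : ℂ)‖) := by
            rw [norm_neg, Complex.norm_conj]
            exact add_le_add (norm_add_le _ _) (norm_add_le _ _)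
        _ ≤ 3 := by rw [hvn, norm_one]; linarith
    calc Real.exp (N * (-conj (w + v)).re) * ‖R (-conj (w + v))‖ ≤
          Real.exp (N * (-conj (w + v)).re) *
            (Real.exp (ε * N * ‖-conj (w + v) - (w + 1)‖) * ‖R (w + 1)‖) :=
          mul_le_mul_of_nonneg_left h5 (Real.exp_pos _).le
      _ = Real.exp (N * (-conj (w + v)).re + ε * N * ‖-conj (w + v) - (w + 1)‖) *
            ‖R (w + 1)‖ := by
          rw [Real.exp_add]; ring
      _ ≤ _ := by
          apply mul_le_mul_of_nonneg_right _ (norm_nonneg _)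
          apply Real.exp_le_exp.2
          have h7 : N * (-conj (w + v)).re ≤ N * (w.re + 1) := by
            apply mul_le_mul_of_nonneg_left _ hN.le
            rw [hz1]
            simp only [add_re]
            linarith [a1.1]
          have h8 : ε * N * ‖-conj (w + v) - (w + 1)‖ ≤ ε * N * 3 :=
            mul_le_mul_of_nonneg_left h6 hεN.le
          linarith

/-- `log (2 pi sqrt N)` is small -/
private lemma dn_PDs_N : ∃ N₀ : ℝ, 1 ≤ N₀ ∧ ∀ N : ℝ, N₀ ≤ N →
    Real.log (2 * Real.sqrt N) ≤ N / 1000 ∧ Real.log Real.pi ≤ N / 1000 := by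
  refine ⟨10 ^ 8, by norm_num, fun N hN => ?_⟩
  have hN0 : (0 : ℝ) < N := by linarith
  constructor
  · have h1 : Real.log (2 * Real.sqrt N) ≤ 2 * Real.sqrt N := by
      have := Real.log_le_sub_one_of_pos (show 0 < 2 * Real.sqrt N by positivity)
      linarith
    have h2 : Real.sqrt N * Real.sqrt N = N := Real.mul_self_sqrt hN0.le
    have h3 : 10 ^ 4 ≤ Real.sqrt N := by
      rw [Real.le_sqrt (by norm_num) hN0.le]
      linarith
    nlinarith
  · have h1 : Real.log Real.pi ≤ Real.pi := by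
      have := Real.log_le_sub_one_of_pos Real.pi_pos
      linarith
    have := Real.pi_le_four
    linarith

theorem p_PDs (hfar : S_farD) (hlo : S_loD) (hHB : S_HB4) : S_PDs := by
  obtain ⟨ε₁, hε₁, hfar⟩ := hfar
  obtain ⟨ε₂, N₂, hε₂, hN₂, hlo⟩ := hlo
  obtain ⟨N₃, hN₃, hlogN⟩ := dn_PDs_N
  refine ⟨min ε₁ (min ε₂ (1 / 10000)), max N₂ N₃, by positivity,
    hN₂.trans (le_max_left _ _), ?_⟩
  intro n ε Y R hε hε0 hn hY hR hs hz
  have hεa : ε ≤ ε₁ := hε0.trans (min_le_left _ _)
  have hεb : ε ≤ ε₂ := hε0.trans ((min_le_right _ _).trans (min_le_left _ _))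
  have hεc : ε ≤ 1 / 10000 := hε0.trans ((min_le_right _ _).trans (min_le_right _ _))
  have hn2 : N₂ ≤ n := (le_max_left _ _).trans hn
  have hn3 : N₃ ≤ n := (le_max_right _ _).trans hn
  have hn0 : (0 : ℝ) < n := by linarith
  have hpi := Real.pi_pos
  have hb : (1 : ℝ) ≤ 1 := le_rfl
  have hY' : 40 * (1 : ℝ) ≤ Y := by linarith
  obtain ⟨far1, far2, far3⟩ := hfar ε n 1 Y R hε hεa hn0 hb hY' hR
  have hlad : Differentiable ℂ (la n R) := dn_PDs_la hR.diff
  have hfac : (((n.factorial : ℝ) / (2 * Real.pi) : ℝ) : ℂ) ≠ 0 := by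
    have : ((n.factorial : ℝ) / (2 * Real.pi) : ℝ) ≠ 0 := by positivity
    exact_mod_cast this
  have hbd : ∀ w ∈ Metric.ball (0 : ℂ) (1 / 8),
      (∫ φ in (-(Real.pi / 2))..(Real.pi / 2), dn_PDs_g (la n R) n w φ) ≠ 0 ∧
      |Real.log ‖∫ φ in (-(Real.pi / 2))..(Real.pi / 2), dn_PDs_g (la n R) n w φ‖ -
        (n + Real.log ‖R 1‖) - n * w.re| ≤ 1 / 500 * n := by
    obtain ⟨hlog1, hlog2⟩ := hlogN n hn3
    have hne1 : R 1 ≠ 0 := by
      apply hR.ne
      · norm_num
      · simp only [one_re]; linarith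
      · norm_num
    have hR1 := norm_pos_iff.2 hne1
    intro w hw
    rw [mem_ball_zero_iff] at hw
    have w1 : |w.re| ≤ 1 / 8 := (Complex.abs_re_le_norm w).trans hw.le
    have w2 : |w.im| ≤ 1 / 8 := (Complex.abs_im_le_norm w).trans hw.le
    have a1 := abs_le.1 w1
    have hF := far1 rfl hs w w1 w2
    have hlow := hlo ε n 1 Y (Real.pi / 2) R w hε hεb hn2 hb hY' hR (by linarith [a1.1])
      (by linarith [a1.2]) (by linarith) le_rfl (by linarith) hF
    rw [dn_PDs_BD] at hlow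
    have hup : ‖∫ φ in (-(Real.pi / 2))..(Real.pi / 2), dn_PDs_g (la n R) n w φ‖ ≤
        Real.exp (n * (w.re + 1) + 3 * ε * n) * ‖R (w + 1)‖ * Real.pi := by
      have h1 := intervalIntegral.norm_integral_le_of_norm_le_const (a := -(Real.pi / 2))
        (b := Real.pi / 2) (f := dn_PDs_g (la n R) n w)
        (C := Real.exp (n * (w.re + 1) + 3 * ε * n) * ‖R (w + 1)‖) (by
          intro φ hφ
          rw [Set.uIoc_of_le (by linarith)] at hφ
          have h2 : |φ| ≤ Real.pi / 2 := abs_le.2 ⟨hφ.1.le, hφ.2⟩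
          rw [dn_PDs_g, norm_mul, Complex.norm_exp]
          have h3 : (-(((n : ℝ) : ℂ) * φ) * I).re = 0 := by simp
          rw [h3, Real.exp_zero, mul_one]
          exact dn_PDs_up hε (by linarith) hn0 (by linarith) hR hs w1 w2 h2)
      have h4 : |Real.pi / 2 - -(Real.pi / 2)| = Real.pi := by
        rw [abs_of_pos (by linarith)]
        ring
      rw [h4] at h1
      exact h1
    have hnw : R (w + 1) ≠ 0 := by
      apply hR.ne
      · simp only [add_re, one_re]; linarith [a1.1]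
      · simp only [add_re, one_re]; linarith [a1.2]
      · simp only [add_im, one_im, add_zero]; linarith
    have hRw := norm_pos_iff.2 hnw
    set Bw := ∫ φ in (-(Real.pi / 2))..(Real.pi / 2), dn_PDs_g (la n R) n w φ with hBw
    have hBpos : 0 < ‖Bw‖ := by
      refine lt_of_lt_of_le ?_ hlow
      positivity
    refine ⟨norm_pos_iff.1 hBpos, ?_⟩
    -- comparison of `R (w + 1)` and `R 1`
    have hr1 : Real.log ‖R 1‖ ≤ ε * n / 8 + Real.log ‖R (w + 1)‖ := by
      have h1 := hR.lin (w + 1) 1 (by simp only [add_re, one_re]; linarith [a1.1])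
        (by simp only [add_re, one_re]; linarith [a1.2])
        (by simp only [add_im, one_im, add_zero]; linarith)
        (by norm_num) (by simp only [one_re]; linarith) (by norm_num)
      have h2 := Real.log_le_log hR1 h1
      rw [Real.log_mul (Real.exp_pos _).ne' hRw.ne', Real.log_exp] at h2
      have h3 : ‖(1 : ℂ) - (w + 1)‖ ≤ 1 / 8 := by
        have : (1 : ℂ) - (w + 1) = -w := by ring
        rw [this, norm_neg]
        exact hw.le
      have h4 : ε * n * ‖(1 : ℂ) - (w + 1)‖ ≤ ε * n * (1 / 8) :=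
        mul_le_mul_of_nonneg_left h3 (by positivity)
      linarith
    have hr2 : Real.log ‖R (w + 1)‖ ≤ ε * n / 8 + Real.log ‖R 1‖ := by
      have h1 := hR.lin 1 (w + 1) (by norm_num) (by simp only [one_re]; linarith)
        (by norm_num) (by simp only [add_re, one_re]; linarith [a1.1])
        (by simp only [add_re, one_re]; linarith [a1.2])
        (by simp only [add_im, one_im, add_zero]; linarith)
      have h2 := Real.log_le_log hRw h1
      rw [Real.log_mul (Real.exp_pos _).ne' hR1.ne', Real.log_exp] at h2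
      have h3 : ‖w + 1 - (1 : ℂ)‖ ≤ 1 / 8 := by
        have : w + 1 - (1 : ℂ) = w := by ring
        rw [this]
        exact hw.le
      have h4 : ε * n * ‖w + 1 - (1 : ℂ)‖ ≤ ε * n * (1 / 8) :=
        mul_le_mul_of_nonneg_left h3 (by positivity)
      linarith
    have hu := Real.log_le_log hBpos hup
    rw [Real.log_mul (by positivity) hpi.ne', Real.log_mul (Real.exp_pos _).ne' hRw.ne',
      Real.log_exp] at hu
    have hsq : 0 < 2 * Real.sqrt n := by positivity
    have hl := Real.log_le_log (by positivity) hlow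
    rw [Real.log_div (by positivity) hsq.ne', Real.log_mul (Real.exp_pos _).ne' hRw.ne',
      Real.log_exp] at hl
    have hεn : ε * n ≤ n / 10000 := by nlinarith
    rw [abs_le]
    constructor
    · linarith
    · linarith
  obtain ⟨c, hc, hsym⟩ := hs
  set B : ℂ → ℂ := fun w => ∫ φ in (-(Real.pi / 2))..(Real.pi / 2), dn_PDs_g (la n R) n w φ
    with hB
  have hBd : Differentiable ℂ B := dn_PDs_diff hlad n (Real.pi / 2)
  have hpos := hHB (1 / 8) (1 / 500) n (n + Real.log ‖R 1‖) B (by norm_num) hn0 (by norm_num)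
    (by norm_num) hBd.differentiableOn hbd
  have hB0 : B 0 ≠ 0 := (hbd 0 (by simp)).1
  set s : ℂ := c * (-1) ^ n with hs
  set fac : ℂ := (((n.factorial : ℝ) / (2 * Real.pi) : ℝ) : ℂ) with hfacdef
  have hF : ∀ y : ℝ, iteratedDeriv n (la n R) (y : ℂ) =
      fac * (B y + s * conj (B (-(y : ℂ)))) := by
    intro y
    rw [dn_PDs_cauchy hlad, dn_PDs_split hlad.continuous n hsym y]
  have hFd : Differentiable ℂ (iteratedDeriv n (la n R)) :=
    (hlad.contDiff (n := n + 1)).differentiable_iteratedDeriv n (by exact_mod_cast Nat.lt_succ_self n)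
  have hD1 : HasDerivAt (fun y : ℝ => iteratedDeriv n (la n R) (y : ℂ))
      (deriv (iteratedDeriv n (la n R)) 0) 0 := by
    have h := (hFd ((0 : ℝ) : ℂ)).hasDerivAt.comp_ofReal
    simpa using h
  have hB1 : HasDerivAt (fun y : ℝ => B (y : ℂ)) (deriv B 0) 0 := by
    have h := (hBd ((0 : ℝ) : ℂ)).hasDerivAt.comp_ofReal
    simpa using h
  have hB2 : HasDerivAt (fun y : ℝ => B (-(y : ℂ))) (-deriv B 0) 0 := by
    have h1 : HasDerivAt (fun w : ℂ => B (-w)) (-deriv B 0) ((0 : ℝ) : ℂ) := by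
      have h2 : HasDerivAt B (deriv B 0) (-((0 : ℝ) : ℂ)) := by
        simpa using (hBd 0).hasDerivAt
      have h3 := h2.comp ((0 : ℝ) : ℂ) (hasDerivAt_neg ((0 : ℝ) : ℂ))
      simpa [Function.comp_def] using h3
    exact h1.comp_ofReal
  have hB3 : HasDerivAt (fun y : ℝ => conj (B (-(y : ℂ)))) (conj (-deriv B 0)) 0 := hB2.star
  have hD2 : HasDerivAt (fun y : ℝ => iteratedDeriv n (la n R) (y : ℂ))
      (fac * (deriv B 0 + s * conj (-deriv B 0))) 0 := by
    have h := (hB1.add (hB3.const_mul s)).const_mul fac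
    have e : (fun y : ℝ => iteratedDeriv n (la n R) (y : ℂ)) =
        fun y : ℝ => fac * (B y + s * conj (B (-(y : ℂ)))) := funext hF
    rw [e]
    exact h
  have hderiv : deriv (iteratedDeriv n (la n R)) 0 =
      fac * (deriv B 0 + s * conj (-deriv B 0)) := hD1.unique hD2
  intro h0
  rw [hderiv] at h0
  have h1 := (mul_eq_zero.1 h0).resolve_left hfac
  have h2 : B 0 + s * conj (B 0) = 0 := by
    have h3 := hF 0
    rw [ofReal_zero, neg_zero, hz] at h3
    exact (mul_eq_zero.1 h3.symm).resolve_left hfac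
  have hcB : conj (B 0) ≠ 0 := by
    intro h
    exact hB0 ((map_eq_zero _).1 h)
  have h4 : deriv B 0 / B 0 + conj (deriv B 0 / B 0) = 0 := by
    have h5 : s = -B 0 / conj (B 0) := by
      rw [eq_div_iff hcB]
      linear_combination h2
    rw [h5, map_neg] at h1
    rw [map_div₀]
    field_simp at h1 ⊢
    linear_combination h1
  have h6 := congrArg Complex.re h4
  rw [add_re, conj_re, zero_re] at h6
  linarith

end Pool.Agent.Lib.MP_cd509c_nt.DN
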