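import Pool.Agent.Lib.MP_cd509c_nt.DN.Defs4

set_option autoImplicit false

/-!
Project DN, section K: the combinatorial assembly for a general predicate.
-/

namespace Pool.Agent.Lib.MP_cd509c_nt.DN

open Complex ComplexConjugate MeasureTheory

/-- the sum over the levels -/
lemma dn_asms_geo {c N : ℝ} (hc : 0 < c) (hN : 1 ≤ N) (J : ℕ) :
    ∑ j ∈ Finset.range J, Real.exp (-(c * 2 ^ j * N)) ≤
      Real.exp (-(c * N)) / (1 - Real.exp (-c)) := by
  have hr0 : 0 ≤ Real.exp (-c) := (Real.exp_pos _).le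
  have hr1 : Real.exp (-c) < 1 := Real.exp_lt_one_iff.2 (by linarith)
  have h1 : ∀ j ∈ Finset.range J, Real.exp (-(c * 2 ^ j * N)) ≤
      Real.exp (-(c * N)) * Real.exp (-c) ^ j := by
    intro j _
    rw [← Real.exp_nat_mul, ← Real.exp_add]
    apply Real.exp_le_exp.2
    have h2 : (j : ℝ) + 1 ≤ 2 ^ j := by
      have : j + 1 ≤ 2 ^ j := Nat.lt_two_pow_self
      exact_mod_cast this
    have h3 : (j : ℝ) ≤ (2 ^ j - 1) * N := by
      have h4 : (0 : ℝ) ≤ j := Nat.cast_nonneg j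
      nlinarith
    nlinarith
  refine (Finset.sum_le_sum h1).trans ?_
  rw [← Finset.mul_sum, div_eq_mul_inv]
  apply mul_le_mul_of_nonneg_left _ (Real.exp_pos _).le
  have h2 := (hasSum_geometric_of_lt_one hr0 hr1)
  exact sum_le_hasSum _ (fun i _ => by positivity) h2

theorem p_asms : S_asms := by
  classical
  intro C₁ C₂ c hC₁ hC₂ hc
  have hr1 : Real.exp (-c) < 1 := Real.exp_lt_one_iff.2 (by linarith)
  refine ⟨2 * C₁ * C₂ / (1 - Real.exp (-c)), div_pos (by positivity) (by linarith), ?_⟩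
  intro f P T l a N Fv J G hN ha hl hNal hFv hT H1 H2 H3 H4 H5 S hS
  -- the level of a zero
  have hlev : ∀ z ∈ S, ∃ j, j < J ∧ ¬ G z.re j ∧ ∀ i, j + 1 ≤ i → i ≤ J → G z.re i := by
    intro z hz
    obtain ⟨hz0, hzim, hz1, hz2⟩ := hS z hz
    have hne : ((Finset.range (J + 1)).filter (fun j => ¬ G z.re j)).Nonempty := by
      by_contra hcon
      rw [Finset.not_nonempty_iff_eq_empty, Finset.filter_eq_empty_iff] at hcon
      refine H1 z.re hz1 hz2 ?_ z hz0 rfl hzim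
      intro j hj
      have := hcon (Finset.mem_range.2 (Nat.lt_succ_of_le hj))
      exact not_not.1 this
    obtain ⟨j, hj⟩ : ∃ j, j = ((Finset.range (J + 1)).filter (fun j => ¬ G z.re j)).max' hne :=
      ⟨_, rfl⟩
    have hjm := Finset.max'_mem _ hne
    rw [← hj, Finset.mem_filter, Finset.mem_range] at hjm
    have hjJ : j ≠ J := by
      rintro rfl
      exact hjm.2 (H4 z.re hz1 hz2)
    refine ⟨j, by omega, hjm.2, ?_⟩
    intro i hi1 hi2
    by_contra hcon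
    have h1 : i ≤ j := by
      rw [hj]
      apply Finset.le_max'
      rw [Finset.mem_filter, Finset.mem_range]
      exact ⟨by omega, hcon⟩
    omega
  have hlev' : ∀ z : ℂ, ∃ j, z ∈ S → (j < J ∧ ¬ G z.re j ∧ ∀ i, j + 1 ≤ i → i ≤ J → G z.re i) := by
    intro z
    by_cases hz : z ∈ S
    · obtain ⟨j, hj⟩ := hlev z hz
      exact ⟨j, fun _ => hj⟩
    · exact ⟨0, fun h => absurd h hz⟩
  choose lv hlv using hlev'
  set m : ℂ → ℝ := fun z => (analyticOrderNatAt f z : ℝ) with hm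
  have hm0 : ∀ z, 0 ≤ m z := fun z => Nat.cast_nonneg _
  rw [← Finset.sum_fiberwise_of_maps_to (g := lv) (t := Finset.range J)
    (fun z hz => Finset.mem_range.2 (hlv z hz).1)]
  -- one level
  have hone : ∀ j ∈ Finset.range J, ∑ z ∈ S.filter (fun z => lv z = j), m z ≤
      2 * C₁ * C₂ * (T * l * Fv) * Real.exp (-(c * 2 ^ j * N)) := by
    intro j hj
    rw [Finset.mem_range] at hj
    have h2a : 0 < 2 ^ j * a := by positivity
    set kf : ℂ → ℤ := fun z => ⌊z.re / (2 ^ j * a)⌋ with hkf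
    set Sj := S.filter (fun z => lv z = j) with hSj
    set Kj := Sj.image kf with hKj
    have hk : ∀ z : ℂ, (kf z : ℝ) * (2 ^ j * a) ≤ z.re ∧ z.re ≤ ((kf z : ℝ) + 1) * (2 ^ j * a) := by
      intro z
      have h1 := Int.floor_le (z.re / (2 ^ j * a))
      have h2 := (Int.lt_floor_add_one (z.re / (2 ^ j * a))).le
      rw [le_div_iff₀ h2a] at h1
      rw [div_le_iff₀ h2a] at h2
      exact ⟨h1, h2⟩
    have hcard : (Kj.card : ℝ) ≤ C₂ * Fv * (T / (2 ^ j * a)) * Real.exp (-(c * 2 ^ j * N)) := by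
      apply H5 j hj
      intro k hkK
      rw [hKj, Finset.mem_image] at hkK
      obtain ⟨z, hz, rfl⟩ := hkK
      rw [hSj, Finset.mem_filter] at hz
      obtain ⟨hz0, hzim, hz1, hz2⟩ := hS z hz.1
      obtain ⟨l1, l2, l3⟩ := hlv z hz.1
      rw [hz.2] at l2
      obtain ⟨k1, k2⟩ := hk z
      exact ⟨hz1.trans k2, k1.trans hz2, z.re, ⟨k1, k2⟩, l2⟩
    have hfib : ∀ k ∈ Kj, ∑ z ∈ Sj.filter (fun z => kf z = k), m z ≤ C₁ * 2 ^ (j + 1) * N := by
      intro k hkK
      rw [hKj, Finset.mem_image] at hkK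
      obtain ⟨z₀, hz₀, rfl⟩ := hkK
      have hz₀' := hz₀
      rw [hSj, Finset.mem_filter] at hz₀'
      obtain ⟨-, -, hz1, hz2⟩ := hS z₀ hz₀'.1
      obtain ⟨-, -, l3⟩ := hlv z₀ hz₀'.1
      rw [hz₀'.2] at l3
      apply H3 z₀.re hz1 hz2 (j + 1) (by omega) (by omega) l3
      intro z hz
      rw [Finset.mem_filter, hSj, Finset.mem_filter] at hz
      obtain ⟨⟨hzS, hzl⟩, hzk⟩ := hz
      obtain ⟨hw0, -, hw1, hw2⟩ := hS z hzS
      obtain ⟨-, -, q3⟩ := hlv z hzS
      rw [hzl] at q3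
      constructor
      · obtain ⟨k1, k2⟩ := hk z
        obtain ⟨k3, k4⟩ := hk z₀
        rw [hzk] at k1 k2
        rw [abs_le, pow_succ]
        constructor <;> nlinarith
      · exact H2 z.re hw1 hw2 (j + 1) (by omega) (by omega) q3 z hw0 rfl
    rw [← Finset.sum_fiberwise_of_maps_to (g := kf) (t := Kj)
      (fun z hz => Finset.mem_image_of_mem _ hz)]
    calc ∑ k ∈ Kj, ∑ z ∈ Sj.filter (fun z => kf z = k), m z
        ≤ ∑ _k ∈ Kj, C₁ * 2 ^ (j + 1) * N := Finset.sum_le_sum hfib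
      _ = Kj.card * (C₁ * 2 ^ (j + 1) * N) := by rw [Finset.sum_const, nsmul_eq_mul]
      _ ≤ (C₂ * Fv * (T / (2 ^ j * a)) * Real.exp (-(c * 2 ^ j * N))) *
          (C₁ * 2 ^ (j + 1) * N) := mul_le_mul_of_nonneg_right hcard (by positivity)
      _ = 2 * C₁ * C₂ * (T * l * Fv) * Real.exp (-(c * 2 ^ j * N)) := by
          rw [hNal, pow_succ]
          field_simp
  calc ∑ j ∈ Finset.range J, ∑ z ∈ S.filter (fun z => lv z = j), m z
      ≤ ∑ j ∈ Finset.range J, 2 * C₁ * C₂ * (T * l * Fv) * Real.exp (-(c * 2 ^ j * N)) :=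
        Finset.sum_le_sum hone
    _ = 2 * C₁ * C₂ * (T * l * Fv) * ∑ j ∈ Finset.range J, Real.exp (-(c * 2 ^ j * N)) := by
        rw [Finset.mul_sum]
    _ ≤ 2 * C₁ * C₂ * (T * l * Fv) * (Real.exp (-(c * N)) / (1 - Real.exp (-c))) := by
        apply mul_le_mul_of_nonneg_left (dn_asms_geo hc hN J)
        have : 0 ≤ T := by linarith
        positivity
    _ = 2 * C₁ * C₂ / (1 - Real.exp (-c)) * T * l * Fv * Real.exp (-(c * N)) := by ring

end Pool.Agent.Lib.MP_cd509c_nt.DN
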