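import Pool.Agent.Lib.MP_cd509c_nt.DN.Defs4

/-!
Piece regT: regularity of the normalised function at every point, for large scales.
-/

set_option autoImplicit false

namespace Pool.Agent.Lib.MP_cd509c_nt.DN

open Complex ComplexConjugate MeasureTheory

/-- quotient of the leading factors -/
theorem dn_regT_G0 {s v : ℂ} (hs : 1 ≤ s.re) (hsv : 0 < (s + v).re) (h4 : ‖s‖ ≤ 4 * ‖s + v‖) :
    ∃ g : ℂ, ‖g‖ ≤ 4 * (‖v‖ + 30 * ‖v‖ ^ 2) / ‖s‖ ∧
      G0 (s + v) = G0 s * cexp (rc s * v + g) := by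
  obtain ⟨g, hg, hG⟩ := Gamma_quot' hs hsv h4
  refine ⟨g, hg, ?_⟩
  have h2pi : (2 * Real.pi : ℂ) ≠ 0 := by
    have := Real.pi_pos
    exact_mod_cast (by positivity : (2 * Real.pi : ℝ) ≠ 0)
  have e1 : (2 * Real.pi : ℂ) ^ (-(s + v)) = (2 * Real.pi : ℂ) ^ (-s) *
      cexp (-(v * (Real.log (2 * Real.pi) : ℝ))) := by
    rw [neg_add, cpow_add _ _ h2pi]
    congr 1
    rw [cpow_def_of_ne_zero h2pi]
    congr 1
    rw [ofReal_log (by have := Real.pi_pos; positivity)]
    push_cast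
    ring
  rw [G0, hG, e1, G0, rc]
  have e2 : cexp ((Complex.log s - (Real.log (2 * Real.pi) : ℝ)) * v + g) =
      cexp (-(v * (Real.log (2 * Real.pi) : ℝ))) * cexp (v * Complex.log s) * cexp g := by
    rw [← Complex.exp_add, ← Complex.exp_add]
    congr 1
    ring
  rw [e2]
  ring

theorem dn_regT_cmp {s t : ℂ} {l : ℝ} (hs : 1 ≤ s.re) (hst : 0 < (s + t).re)
    (h4 : ‖s‖ ≤ 4 * ‖s + t‖) (hrc : ‖rc s - l‖ ≤ 15) :
    ‖G0 (s + t)‖ ≤ Real.exp (l * t.re + (15 * ‖t‖ + 4 * (‖t‖ + 30 * ‖t‖ ^ 2) / ‖s‖)) * ‖G0 s‖ ∧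
    ‖G0 s‖ ≤ Real.exp (-(l * t.re) + (15 * ‖t‖ + 4 * (‖t‖ + 30 * ‖t‖ ^ 2) / ‖s‖)) *
      ‖G0 (s + t)‖ := by
  obtain ⟨g, hg, hq⟩ := dn_regT_G0 hs hst h4
  set E := 15 * ‖t‖ + 4 * (‖t‖ + 30 * ‖t‖ ^ 2) / ‖s‖ with hE
  have h1 : ‖(rc s - l) * t + g‖ ≤ E := by
    calc ‖(rc s - l) * t + g‖ ≤ ‖(rc s - l) * t‖ + ‖g‖ := norm_add_le _ _
      _ ≤ E := by
        rw [norm_mul]
        exact add_le_add (mul_le_mul_of_nonneg_right hrc (norm_nonneg _)) hg
  have h2 := abs_le.1 ((Complex.abs_re_le_norm ((rc s - l) * t + g)).trans h1)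
  have h3 : (rc s * t + g).re = l * t.re + ((rc s - l) * t + g).re := by
    have : rc s * t + g = (l : ℂ) * t + ((rc s - l) * t + g) := by ring
    rw [this, Complex.add_re, Complex.re_ofReal_mul]
  have h5 : ‖G0 (s + t)‖ = ‖G0 s‖ * Real.exp (l * t.re + ((rc s - l) * t + g).re) := by
    rw [hq, norm_mul, Complex.norm_exp, h3]
  constructor
  · rw [h5, mul_comm]
    exact mul_le_mul_of_nonneg_right (Real.exp_le_exp.2 (by linarith [h2.2])) (norm_nonneg _)
  · rw [h5, mul_left_comm, ← Real.exp_add]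
    have h6 : 1 ≤ Real.exp (-(l * t.re) + E + (l * t.re + ((rc s - l) * t + g).re)) :=
      Real.one_le_exp (by linarith [h2.1])
    calc ‖G0 s‖ = ‖G0 s‖ * 1 := (mul_one _).symm
      _ ≤ _ := mul_le_mul_of_nonneg_left h6 (norm_nonneg _)

/-- size of `rc` -/
theorem dn_regT_rc {S l : ℝ} {s : ℂ} (hS : 0 < S) (hl : |Real.log S - l| ≤ 1)
    (h1 : S / 1000 ≤ ‖s‖) (h2 : ‖s‖ ≤ 1000 * S) : ‖rc s - l‖ ≤ 15 := by
  have hs : 0 < ‖s‖ := lt_of_lt_of_le (by positivity) h1
  have h1000 : Real.log 1000 ≤ 7 := by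
    rw [Real.log_le_iff_le_exp (by norm_num)]
    have h7 : Real.exp 7 = Real.exp 1 ^ 7 := by rw [← Real.exp_nat_mul]; norm_num
    rw [h7]
    have h8 := Real.exp_one_gt_d9
    have h9 : (2.7 : ℝ) ≤ Real.exp 1 := by linarith
    calc (1000 : ℝ) ≤ 2.7 ^ 7 := by norm_num
      _ ≤ _ := pow_le_pow_left₀ (by norm_num) h9 7
  have e1 : Real.log ‖s‖ ≤ Real.log S + Real.log 1000 := by
    rw [← Real.log_mul hS.ne' (by norm_num)]
    exact Real.log_le_log hs (by linarith)
  have e2 : Real.log S - Real.log 1000 ≤ Real.log ‖s‖ := by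
    rw [← Real.log_div hS.ne' (by norm_num)]
    exact Real.log_le_log (by positivity) h1
  have hpi1 := Real.pi_gt_three
  have hpi2 := Real.pi_lt_d2
  have e3 : 0 ≤ Real.log (2 * Real.pi) := Real.log_nonneg (by linarith)
  have e4 : Real.log (2 * Real.pi) ≤ 2 := by
    rw [Real.log_le_iff_le_exp (by positivity)]
    have h := Real.sum_le_exp_of_nonneg (by norm_num : (0 : ℝ) ≤ 2) 6
    simp only [Finset.sum_range_succ, Finset.sum_range_zero, Nat.factorial] at h
    norm_num at h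
    linarith
  have hre : (rc s - l).re = Real.log ‖s‖ - Real.log (2 * Real.pi) - l := by
    rw [rc, Complex.sub_re, Complex.sub_re, Complex.log_re, Complex.ofReal_re, Complex.ofReal_re]
  have him : (rc s - l).im = arg s := by
    rw [rc, Complex.sub_im, Complex.sub_im, Complex.log_im, Complex.ofReal_im, Complex.ofReal_im]
    ring
  have hl' := abs_le.1 hl
  have harg := Complex.abs_arg_le_pi s
  calc ‖rc s - l‖ ≤ |(rc s - l).re| + |(rc s - l).im| := Complex.norm_le_abs_re_add_abs_im _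
    _ ≤ (2 + 1 + 7) + Real.pi := by
      rw [hre, him]
      apply add_le_add _ harg
      rw [abs_le]
      constructor <;> linarith [hl'.1, hl'.2]
    _ ≤ 15 := by linarith

/-- the leading factor of the normalised function -/
noncomputable def dn_regT_pp (x a l : ℝ) (z : ℂ) : ℝ :=
  ‖G0 (s0 x + a * z)‖ * Real.exp (-(a * l * z.re))

theorem dn_regT_pp_nonneg (x a l : ℝ) (z : ℂ) : 0 ≤ dn_regT_pp x a l z :=
  mul_nonneg (norm_nonneg _) (Real.exp_pos _).le

theorem dn_regT_norm {x a l : ℝ} {z : ℂ} (h : 0 < (s0 x + a * z).re) :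
    ‖Rx x a l z‖ = dn_regT_pp x a l z * ‖Lf (s0 x + a * z)‖ / ‖m0 x‖ := by
  have e1 : Lam (s0 x + a * z) = G0 (s0 x + a * z) * Lf (s0 x + a * z) := by
    rw [Lam_eq_Lf h, G0]
  have e2 : (-((a * l : ℝ) : ℂ) * z).re = -(a * l * z.re) := by
    rw [← Complex.ofReal_neg, Complex.re_ofReal_mul]
    ring
  rw [Rx, e1, norm_mul, norm_div, norm_mul, Complex.norm_exp, e2, dn_regT_pp]
  ring

theorem dn_regT_sre (x a : ℝ) (w : ℂ) : (s0 x + a * w).re = 6 + a * w.re := by
  simp [s0_re]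

theorem dn_regT_sim (x a : ℝ) (w : ℂ) : (s0 x + a * w).im = x + a * w.im := by
  simp [s0_im]

theorem dn_regT_E {a T δ n : ℝ} (ha : 1 ≤ a) (hδ : 0 ≤ δ) (hT : T = a * δ) (hn : a / 1000 ≤ n) :
    15 * T + 4 * (T + 30 * T ^ 2) / n ≤ a * (4015 * δ + 120000 * δ ^ 2) := by
  have ha0 : 0 < a := by linarith
  have hn0 : 0 < n := lt_of_lt_of_le (by positivity) hn
  have hT0 : 0 ≤ T := by rw [hT]; positivity
  have h1 : 4 * (T + 30 * T ^ 2) / n ≤ 4 * (T + 30 * T ^ 2) / (a / 1000) :=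
    div_le_div_of_nonneg_left (by positivity) (by positivity) hn
  have h2 : 4 * (T + 30 * T ^ 2) / (a / 1000) = 4000 * δ + 120000 * (a * δ ^ 2) := by
    rw [hT]
    field_simp
    ring
  have h3 : δ ≤ a * δ := by nlinarith
  rw [h2] at h1
  rw [hT] at h1 ⊢
  nlinarith

/-- comparison, base `w` -/
theorem dn_regT_A {x a l S : ℝ} {w v : ℂ} (ha : 1 ≤ a) (hS : a ≤ S)
    (hl : |Real.log S - l| ≤ 1) (hw : 0 ≤ w.re) (hv : 0 ≤ v.re)
    (h1 : S / 1000 ≤ ‖s0 x + a * w‖) (h2 : ‖s0 x + a * w‖ ≤ 1000 * S)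
    (h4 : ‖s0 x + a * w‖ ≤ 4 * ‖s0 x + a * v‖) :
    dn_regT_pp x a l v ≤ Real.exp (a * (4015 * ‖v - w‖ + 120000 * ‖v - w‖ ^ 2)) *
      dn_regT_pp x a l w := by
  have ha0 : 0 < a := by linarith
  have hS0 : 0 < S := by linarith
  set t : ℂ := (a : ℂ) * (v - w) with ht
  have hst : s0 x + a * w + t = s0 x + a * v := by rw [ht]; ring
  have hsre := dn_regT_sre x a w
  have hvre := dn_regT_sre x a v
  have haw : 0 ≤ a * w.re := by positivity
  have hav : 0 ≤ a * v.re := by positivity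
  have h5 := (dn_regT_cmp (s := s0 x + a * w) (t := t) (l := l) (by rw [hsre]; linarith)
    (by rw [hst, hvre]; linarith) (by rw [hst]; exact h4) (dn_regT_rc hS0 hl h1 h2)).1
  rw [hst] at h5
  have htn : ‖t‖ = a * ‖v - w‖ := by
    rw [ht, norm_mul, Complex.norm_real, Real.norm_of_nonneg ha0.le]
  have htre : t.re = a * v.re - a * w.re := by
    rw [ht, Complex.re_ofReal_mul, Complex.sub_re]; ring
  have h6 := dn_regT_E (n := ‖s0 x + a * w‖) ha (norm_nonneg (v - w)) htn (by linarith)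
  rw [dn_regT_pp, dn_regT_pp]
  calc ‖G0 (s0 x + a * v)‖ * Real.exp (-(a * l * v.re))
      ≤ (Real.exp (l * t.re + a * (4015 * ‖v - w‖ + 120000 * ‖v - w‖ ^ 2)) *
        ‖G0 (s0 x + a * w)‖) * Real.exp (-(a * l * v.re)) := by
        apply mul_le_mul_of_nonneg_right _ (Real.exp_pos _).le
        refine h5.trans (mul_le_mul_of_nonneg_right ?_ (norm_nonneg _))
        exact Real.exp_le_exp.2 (by linarith)
    _ = (Real.exp (l * t.re + a * (4015 * ‖v - w‖ + 120000 * ‖v - w‖ ^ 2)) *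
        Real.exp (-(a * l * v.re))) * ‖G0 (s0 x + a * w)‖ := by ring
    _ = (Real.exp (a * (4015 * ‖v - w‖ + 120000 * ‖v - w‖ ^ 2)) *
        Real.exp (-(a * l * w.re))) * ‖G0 (s0 x + a * w)‖ := by
        rw [← Real.exp_add, ← Real.exp_add, htre]
        congr 2
        ring
    _ = _ := by ring

/-- comparison, base `v` -/
theorem dn_regT_B {x a l S : ℝ} {w v : ℂ} (ha : 1 ≤ a) (hS : a ≤ S)
    (hl : |Real.log S - l| ≤ 1) (hw : 0 ≤ w.re) (hv : 0 ≤ v.re)
    (h1 : S / 1000 ≤ ‖s0 x + a * v‖) (h2 : ‖s0 x + a * v‖ ≤ 1000 * S)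
    (h4 : ‖s0 x + a * v‖ ≤ 4 * ‖s0 x + a * w‖) :
    dn_regT_pp x a l v ≤ Real.exp (a * (4015 * ‖v - w‖ + 120000 * ‖v - w‖ ^ 2)) *
      dn_regT_pp x a l w := by
  have ha0 : 0 < a := by linarith
  have hS0 : 0 < S := by linarith
  set t : ℂ := (a : ℂ) * (w - v) with ht
  have hst : s0 x + a * v + t = s0 x + a * w := by rw [ht]; ring
  have hsre := dn_regT_sre x a v
  have hvre := dn_regT_sre x a w
  have haw : 0 ≤ a * w.re := by positivity
  have hav : 0 ≤ a * v.re := by positivity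
  have h5 := (dn_regT_cmp (s := s0 x + a * v) (t := t) (l := l) (by rw [hsre]; linarith)
    (by rw [hst, hvre]; linarith) (by rw [hst]; exact h4) (dn_regT_rc hS0 hl h1 h2)).2
  rw [hst] at h5
  have htn : ‖t‖ = a * ‖v - w‖ := by
    rw [ht, norm_mul, Complex.norm_real, Real.norm_of_nonneg ha0.le, norm_sub_rev]
  have htre : t.re = a * w.re - a * v.re := by
    rw [ht, Complex.re_ofReal_mul, Complex.sub_re]; ring
  have h6 := dn_regT_E (n := ‖s0 x + a * v‖) ha (norm_nonneg (v - w)) htn (by linarith)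
  rw [dn_regT_pp, dn_regT_pp]
  calc ‖G0 (s0 x + a * v)‖ * Real.exp (-(a * l * v.re))
      ≤ (Real.exp (-(l * t.re) + a * (4015 * ‖v - w‖ + 120000 * ‖v - w‖ ^ 2)) *
        ‖G0 (s0 x + a * w)‖) * Real.exp (-(a * l * v.re)) := by
        apply mul_le_mul_of_nonneg_right _ (Real.exp_pos _).le
        refine h5.trans (mul_le_mul_of_nonneg_right ?_ (norm_nonneg _))
        exact Real.exp_le_exp.2 (by linarith)
    _ = (Real.exp (-(l * t.re) + a * (4015 * ‖v - w‖ + 120000 * ‖v - w‖ ^ 2)) *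
        Real.exp (-(a * l * v.re))) * ‖G0 (s0 x + a * w)‖ := by ring
    _ = (Real.exp (a * (4015 * ‖v - w‖ + 120000 * ‖v - w‖ ^ 2)) *
        Real.exp (-(a * l * w.re))) * ‖G0 (s0 x + a * w)‖ := by
        rw [← Real.exp_add, ← Real.exp_add, htre]
        congr 2
        ring
    _ = _ := by ring

/-- both arguments large -/
theorem dn_regT_AB {x a l S : ℝ} {w v : ℂ} (ha : 1 ≤ a) (hS : a ≤ S)
    (hl : |Real.log S - l| ≤ 1) (hw : 0 ≤ w.re) (hv : 0 ≤ v.re)
    (h1 : S / 1000 ≤ ‖s0 x + a * w‖) (h2 : ‖s0 x + a * w‖ ≤ 1000 * S)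
    (h3 : S / 1000 ≤ ‖s0 x + a * v‖) (h4 : ‖s0 x + a * v‖ ≤ 1000 * S) :
    dn_regT_pp x a l v ≤ Real.exp (a * (4015 * ‖v - w‖ + 120000 * ‖v - w‖ ^ 2)) *
      dn_regT_pp x a l w := by
  by_cases h5 : ‖s0 x + a * w‖ ≤ 4 * ‖s0 x + a * v‖
  · exact dn_regT_A ha hS hl hw hv h1 h2 h5
  · push Not at h5
    exact dn_regT_B ha hS hl hw hv h3 h4 (by linarith [norm_nonneg (s0 x + a * v)])

theorem dn_regT_G0_succ {s : ℂ} (hs : s ≠ 0) : G0 (s + 1) = G0 s * (s / (2 * Real.pi : ℂ)) := by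
  have h2pi : (2 * Real.pi : ℂ) ≠ 0 := by
    have := Real.pi_pos
    exact_mod_cast (by positivity : (2 * Real.pi : ℝ) ≠ 0)
  rw [G0, G0, Complex.Gamma_add_one s hs, neg_add, cpow_add _ _ h2pi, cpow_neg_one]
  ring

/-- shift by a natural number -/
theorem dn_regT_shift {s : ℂ} (hs : 1 ≤ s.re) (k : ℕ) :
    (k.factorial : ℝ) * ‖G0 s‖ ≤ (2 * Real.pi) ^ k * ‖G0 (s + k)‖ := by
  have hpi := Real.pi_pos
  induction k with
  | zero => simp
  | succ k ih =>
    have hk : (0 : ℝ) ≤ k := Nat.cast_nonneg k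
    have hre : (s + k).re = s.re + k := by simp
    have h1 : (k : ℝ) + 1 ≤ ‖s + k‖ := by
      have := Complex.re_le_norm (s + k)
      rw [hre] at this
      linarith
    have hne : s + k ≠ 0 := by
      intro h
      rw [h, norm_zero] at h1
      linarith
    have e1 : G0 (s + ((k + 1 : ℕ) : ℂ)) = G0 (s + k) * ((s + k) / (2 * Real.pi : ℂ)) := by
      rw [← dn_regT_G0_succ hne]
      congr 1
      push_cast
      ring
    have e2 : ‖(2 * Real.pi : ℂ)‖ = 2 * Real.pi := by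
      rw [norm_mul, Complex.norm_real, Real.norm_of_nonneg hpi.le]
      simp
    rw [e1, norm_mul, norm_div, e2, Nat.factorial_succ, Nat.cast_mul, pow_succ]
    have e3 : (2 * Real.pi) ^ k * (2 * Real.pi) * (‖G0 (s + k)‖ * (‖s + k‖ / (2 * Real.pi))) =
        ‖s + k‖ * ((2 * Real.pi) ^ k * ‖G0 (s + k)‖) := by
      field_simp
    rw [e3, mul_assoc]
    refine mul_le_mul ?_ ih (by positivity) (norm_nonneg _)
    push_cast
    exact h1

/-- the argument close to the real axis of small size -/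
theorem dn_regT_small {x a l S : ℝ} {v : ℂ} (ha : 100 ≤ a) (hS0 : 0 < S)
    (hS : S ≤ 42 * a) (hl : |Real.log S - l| ≤ 1) (hv : 0 ≤ v.re) :
    ∃ v' : ℂ, ‖v' - v‖ ≤ 1 / 4 ∧ v.re + 1 / 8 ≤ v'.re ∧
      dn_regT_pp x a l v ≤ Real.exp (3 * a) * dn_regT_pp x a l v' := by
  have ha0 : 0 < a := by linarith
  set k : ℕ := ⌊a / 4⌋₊ with hk
  have hk1 : (k : ℝ) ≤ a / 4 := Nat.floor_le (by positivity)
  have hk2 : a / 8 ≤ k := by
    have := Nat.lt_floor_add_one (a / 4)
    rw [← hk] at this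
    linarith
  have hk0 : (0 : ℝ) < k := by linarith
  refine ⟨v + ((k / a : ℝ) : ℂ), ?_, ?_, ?_⟩
  · rw [add_sub_cancel_left, Complex.norm_real, Real.norm_of_nonneg (by positivity),
      div_le_iff₀ ha0]
    linarith
  · rw [Complex.add_re, Complex.ofReal_re]
    have : 1 / 8 ≤ (k : ℝ) / a := by
      rw [le_div_iff₀ ha0]; linarith
    linarith
  · have hs1 : s0 x + a * (v + ((k / a : ℝ) : ℂ)) = s0 x + a * v + k := by
      have ha' : (a : ℂ) ≠ 0 := by exact_mod_cast ha0.ne'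
      push_cast
      field_simp
      ring
    have hre := dn_regT_sre x a v
    have hav : 0 ≤ a * v.re := by positivity
    have h1 := dn_regT_shift (s := s0 x + a * v) (by rw [hre]; linarith) k
    have hX : 2 * Real.pi * Real.exp l ≤ Real.exp 9 * k := by
      have h2 : Real.exp l ≤ Real.exp 1 * S := by
        have h3 : l ≤ 1 + Real.log S := by linarith [(abs_le.1 hl).1]
        have h4 := Real.exp_le_exp.2 h3
        rwa [Real.exp_add, Real.exp_log hS0] at h4
      have h3 := Real.exp_one_lt_d9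
      have h4 := Real.exp_one_gt_d9
      have h5 := Real.pi_lt_d2
      have h6 := Real.pi_pos
      have h7 : (7000 : ℝ) ≤ Real.exp 9 := by
        have h7 : Real.exp 9 = Real.exp 1 ^ 9 := by rw [← Real.exp_nat_mul]; norm_num
        rw [h7]
        have h9 : (2.7 : ℝ) ≤ Real.exp 1 := by linarith
        calc (7000 : ℝ) ≤ 2.7 ^ 9 := by norm_num
          _ ≤ _ := pow_le_pow_left₀ (by norm_num) h9 9
      have h8 : Real.exp l ≤ 2.72 * (42 * a) := by
        refine h2.trans (mul_le_mul (by linarith) hS hS0.le (by norm_num))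
      calc 2 * Real.pi * Real.exp l ≤ 2 * 3.15 * (2.72 * (42 * a)) := by
            refine mul_le_mul (by linarith) h8 (Real.exp_pos _).le (by norm_num)
        _ ≤ 7000 * k := by linarith
        _ ≤ _ := mul_le_mul_of_nonneg_right h7 hk0.le
    have hF : (0 : ℝ) < (k.factorial : ℝ) := by exact_mod_cast Nat.factorial_pos k
    have hkk : (k : ℝ) ^ k ≤ Real.exp k * k.factorial := by
      have h2 := Real.pow_div_factorial_le_exp (k : ℝ) hk0.le k
      rwa [div_le_iff₀ hF] at h2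
    have hXk : (2 * Real.pi * Real.exp l) ^ k ≤ Real.exp (3 * a) * k.factorial := by
      have hpi := Real.pi_pos
      calc (2 * Real.pi * Real.exp l) ^ k ≤ (Real.exp 9 * k) ^ k :=
            pow_le_pow_left₀ (by positivity) hX k
        _ = Real.exp (k * 9) * (k : ℝ) ^ k := by rw [mul_pow, ← Real.exp_nat_mul]
        _ ≤ Real.exp (k * 9) * (Real.exp k * k.factorial) :=
            mul_le_mul_of_nonneg_left hkk (Real.exp_pos _).le
        _ = Real.exp (k * 9 + k) * k.factorial := by rw [Real.exp_add]; ring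
        _ ≤ _ := by
            apply mul_le_mul_of_nonneg_right _ hF.le
            exact Real.exp_le_exp.2 (by linarith)
    have hsre : (v + ((k / a : ℝ) : ℂ)).re = v.re + k / a := by simp
    have e4 : Real.exp l ^ k * Real.exp (-(a * l * (v.re + k / a))) =
        Real.exp (-(a * l * v.re)) := by
      rw [← Real.exp_nat_mul, ← Real.exp_add]
      congr 1
      field_simp
      ring
    have h9 : (k.factorial : ℝ) * dn_regT_pp x a l v ≤
        (k.factorial : ℝ) * (Real.exp (3 * a) * dn_regT_pp x a l (v + ((k / a : ℝ) : ℂ))) := by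
      rw [dn_regT_pp, dn_regT_pp, hs1, hsre]
      calc (k.factorial : ℝ) * (‖G0 (s0 x + a * v)‖ * Real.exp (-(a * l * v.re)))
          = ((k.factorial : ℝ) * ‖G0 (s0 x + a * v)‖) * Real.exp (-(a * l * v.re)) := by ring
        _ ≤ ((2 * Real.pi) ^ k * ‖G0 (s0 x + a * v + k)‖) * Real.exp (-(a * l * v.re)) :=
            mul_le_mul_of_nonneg_right h1 (Real.exp_pos _).le
        _ = (2 * Real.pi * Real.exp l) ^ k * (‖G0 (s0 x + a * v + k)‖ *
            Real.exp (-(a * l * (v.re + k / a)))) := by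
            rw [← e4, mul_pow]; ring
        _ ≤ (Real.exp (3 * a) * k.factorial) * (‖G0 (s0 x + a * v + k)‖ *
            Real.exp (-(a * l * (v.re + k / a)))) :=
            mul_le_mul_of_nonneg_right hXk (by positivity)
        _ = _ := by ring
    exact le_of_mul_le_mul_left h9 hF

theorem dn_regT_S {x a : ℝ} (hx : 0 ≤ x) (ha : 0 ≤ a) :
    6 + a ≤ ‖s0 x + a‖ ∧ x ≤ ‖s0 x + a‖ ∧ ‖s0 x + a‖ ≤ 6 + a + x := by
  have h1 : (s0 x + a).re = 6 + a := by simp [s0_re]
  have h2 : (s0 x + a).im = x := by simp [s0_im]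
  have h3 := Complex.abs_re_le_norm (s0 x + a)
  have h4 := Complex.abs_im_le_norm (s0 x + a)
  have h5 := Complex.norm_le_abs_re_add_abs_im (s0 x + a)
  rw [h1, abs_of_nonneg (by linarith : 0 ≤ 6 + a)] at h3 h5
  rw [h2, abs_of_nonneg hx] at h4 h5
  exact ⟨h3, h4, h5⟩

theorem dn_regT_im {a : ℝ} {z : ℂ} (ha : 0 ≤ a) (h3 : |z.im| ≤ 20) : |a * z.im| ≤ 20 * a := by
  rw [abs_mul, abs_of_nonneg ha]
  nlinarith

theorem dn_regT_up {x a : ℝ} {z : ℂ} (hx : 0 ≤ x) (ha : 0 ≤ a) (h1 : 0 ≤ z.re)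
    (h2 : z.re ≤ 100) (h3 : |z.im| ≤ 20) : ‖s0 x + a * z‖ ≤ 6 + 120 * a + x := by
  have h5 := Complex.norm_le_abs_re_add_abs_im (s0 x + a * z)
  rw [dn_regT_sre, dn_regT_sim] at h5
  have h6 : 0 ≤ a * z.re := by positivity
  have h7 : a * z.re ≤ 100 * a := by nlinarith
  have h8 := abs_add_le x (a * z.im)
  rw [abs_of_nonneg hx] at h8
  rw [abs_of_nonneg (by linarith : 0 ≤ 6 + a * z.re)] at h5
  linarith [dn_regT_im ha h3]

theorem dn_regT_lo {x a S : ℝ} {z : ℂ} (ha : 100 ≤ a) (hS : S ≤ 6 + a + x)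
    (h3 : |z.im| ≤ 20) (h : 1 / 8 ≤ z.re ∨ 40 * a ≤ x) : S / 1000 ≤ ‖s0 x + a * z‖ := by
  have ha0 : 0 ≤ a := by linarith
  rcases le_total x (40 * a) with h5 | h5
  · have h6 : 6 + a * z.re ≤ ‖s0 x + a * z‖ := by
      have := Complex.re_le_norm (s0 x + a * z)
      rwa [dn_regT_sre] at this
    have h8 : x + a * z.im ≤ ‖s0 x + a * z‖ := by
      have := (le_abs_self _).trans (Complex.abs_im_le_norm (s0 x + a * z))
      rwa [dn_regT_sim] at this
    have h9 := (abs_le.1 (dn_regT_im ha0 h3)).1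
    rcases h with h7 | h7
    · have h10 : a * (1 / 8) ≤ a * z.re := mul_le_mul_of_nonneg_left h7 ha0
      linarith
    · linarith
  · have h8 : x + a * z.im ≤ ‖s0 x + a * z‖ := by
      have := (le_abs_self _).trans (Complex.abs_im_le_norm (s0 x + a * z))
      rwa [dn_regT_sim] at this
    have h9 := (abs_le.1 (dn_regT_im ha0 h3)).1
    linarith

theorem dn_regT_exp {a δ : ℝ} (ha : 0 ≤ a) (h0 : 0 ≤ δ) (h1 : δ ≤ 141) :
    a * (4015 * δ + 120000 * δ ^ 2) ≤ a * (18000000 * δ) := by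
  apply mul_le_mul_of_nonneg_left _ ha
  nlinarith

/-- the leading factor -/
theorem dn_regT_P {x a l : ℝ} (hx : 0 ≤ x) (ha : 100 ≤ a)
    (hl : |Real.log ‖s0 x + a‖ - l| ≤ 1) {w v : ℂ} (hw1 : 1 / 4 ≤ w.re) (hw2 : w.re ≤ 100)
    (hw3 : |w.im| ≤ 20) (hv1 : 0 ≤ v.re) (hv2 : v.re ≤ 100) (hv3 : |v.im| ≤ 20) :
    dn_regT_pp x a l v ≤ Real.exp (a * (100000000 * ‖v - w‖)) * dn_regT_pp x a l w := by
  have ha0 : 0 ≤ a := by linarith
  obtain ⟨hSa, hSx, hSu⟩ := dn_regT_S hx ha0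
  set S := ‖s0 x + a‖ with hS
  have hδ0 := norm_nonneg (v - w)
  have hδ : ‖v - w‖ ≤ 140 := by
    have h1 := Complex.norm_le_abs_re_add_abs_im (v - w)
    rw [Complex.sub_re, Complex.sub_im] at h1
    have h2 : |v.re - w.re| ≤ 100 := by
      rw [abs_le]; constructor <;> linarith
    have h3 := abs_sub v.im w.im
    linarith
  have hwlo : S / 1000 ≤ ‖s0 x + a * w‖ := dn_regT_lo ha hSu hw3 (Or.inl (by linarith))
  have hwup : ‖s0 x + a * w‖ ≤ 1000 * S := by
    have := dn_regT_up hx ha0 (by linarith) hw2 hw3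
    linarith
  have hvup : ‖s0 x + a * v‖ ≤ 1000 * S := by
    have := dn_regT_up hx ha0 hv1 hv2 hv3
    linarith
  by_cases hvlo : S / 1000 ≤ ‖s0 x + a * v‖
  · refine (dn_regT_AB (by linarith) (by linarith) hl (by linarith) hv1 hwlo hwup hvlo
      hvup).trans (mul_le_mul_of_nonneg_right ?_ (dn_regT_pp_nonneg _ _ _ _))
    apply Real.exp_le_exp.2
    refine (dn_regT_exp ha0 hδ0 (by linarith)).trans ?_
    apply mul_le_mul_of_nonneg_left _ ha0
    linarith
  · have h1 : v.re < 1 / 8 := by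
      by_contra h
      push Not at h
      exact hvlo (dn_regT_lo ha hSu hv3 (Or.inl h))
    have h2 : x < 40 * a := by
      by_contra h
      push Not at h
      exact hvlo (dn_regT_lo ha hSu hv3 (Or.inr h))
    push Not at hvlo
    have hδ8 : 1 / 8 ≤ ‖v - w‖ := by
      have h3 := Complex.abs_re_le_norm (v - w)
      rw [Complex.sub_re] at h3
      have h4 := neg_abs_le (v.re - w.re)
      linarith
    obtain ⟨v', h3, h4, h5⟩ := dn_regT_small (x := x) (l := l) ha (by linarith : 0 < S)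
      (by linarith) hl hv1
    have h6 : ‖v' - w‖ ≤ 3 * ‖v - w‖ := by
      have : v' - w = (v' - v) + (v - w) := by ring
      rw [this]
      refine (norm_add_le _ _).trans ?_
      linarith
    have h6' : ‖v' - w‖ ≤ 141 := by
      have : v' - w = (v' - v) + (v - w) := by ring
      rw [this]
      refine (norm_add_le _ _).trans ?_
      linarith
    have h7 : ‖s0 x + a * v'‖ ≤ 1000 * S := by
      have e1 : s0 x + a * v' = (s0 x + a * v) + a * (v' - v) := by ring
      rw [e1]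
      refine (norm_add_le _ _).trans ?_
      rw [norm_mul, Complex.norm_real, Real.norm_of_nonneg ha0]
      have : a * ‖v' - v‖ ≤ a * (1 / 4) := mul_le_mul_of_nonneg_left h3 ha0
      linarith
    have h8 : S / 1000 ≤ ‖s0 x + a * v'‖ := by
      have h9 := Complex.re_le_norm (s0 x + a * v')
      rw [dn_regT_sre] at h9
      have h10 : a * (1 / 8) ≤ a * v'.re := mul_le_mul_of_nonneg_left (by linarith) ha0
      linarith
    have h9 := dn_regT_AB (by linarith) (by linarith : a ≤ S) hl (by linarith) (by linarith)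
      hwlo hwup h8 h7
    calc dn_regT_pp x a l v ≤ Real.exp (3 * a) * dn_regT_pp x a l v' := h5
      _ ≤ Real.exp (3 * a) * (Real.exp (a * (4015 * ‖v' - w‖ + 120000 * ‖v' - w‖ ^ 2)) *
          dn_regT_pp x a l w) := mul_le_mul_of_nonneg_left h9 (Real.exp_pos _).le
      _ = Real.exp (3 * a + a * (4015 * ‖v' - w‖ + 120000 * ‖v' - w‖ ^ 2)) *
          dn_regT_pp x a l w := by rw [Real.exp_add]; ring
      _ ≤ _ := by
          apply mul_le_mul_of_nonneg_right _ (dn_regT_pp_nonneg _ _ _ _)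
          apply Real.exp_le_exp.2
          have h10 := dn_regT_exp ha0 (norm_nonneg (v' - w)) h6'
          have h11 : a * (18000000 * ‖v' - w‖) ≤ a * (54000000 * ‖v - w‖) :=
            mul_le_mul_of_nonneg_left (by linarith) ha0
          have h12 : a * 1 ≤ a * (8 * ‖v - w‖) := mul_le_mul_of_nonneg_left (by linarith) ha0
          linarith

/-- the L-function far to the right -/
theorem dn_regT_Lf : ∃ A : ℝ, 0 ≤ A ∧
    (∀ s : ℂ, A ≤ s.re → ‖Lf s - 1‖ ≤ 1 / 4) ∧
    (∀ s t : ℂ, A ≤ s.re → A ≤ t.re → ‖Lf t - Lf s‖ ≤ 1 / 4 * ‖t - s‖) := by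
  obtain ⟨C, hC, hLf⟩ := Lf_sub_one
  have h1 : ∀ s : ℂ, 8 * C + 8 ≤ s.re → ‖Lf s - 1‖ ≤ 1 / 4 := by
    intro s hs
    have hs0 : 0 < s.re := by linarith
    refine (hLf s (by linarith)).trans ?_
    have h1 : (2 : ℝ) ^ (-s.re) ≤ (s.re / 2)⁻¹ := by
      rw [Real.rpow_neg (by norm_num)]
      apply inv_anti₀ (by positivity)
      rw [Real.rpow_def_of_pos (by norm_num)]
      have h3 := Real.add_one_le_exp (Real.log 2 * s.re)
      have h4 := Real.log_two_gt_d9
      nlinarith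
    calc C * (2 : ℝ) ^ (-s.re) ≤ C * (s.re / 2)⁻¹ := mul_le_mul_of_nonneg_left h1 hC.le
      _ = (2 * C) / s.re := by field_simp
      _ ≤ 1 / 4 := by
        rw [div_le_iff₀ hs0]; linarith
  have h2 : ∀ s : ℂ, 8 * C + 9 ≤ s.re → ‖deriv Lf s‖ ≤ 1 / 4 := by
    intro s hs
    have h3 : deriv (fun z => Lf z - 1) s = deriv Lf s := by rw [deriv_sub_const]
    rw [← h3]
    have h4 := Complex.norm_deriv_le_of_forall_mem_sphere_norm_le (c := s) (R := 1) (C := 1 / 4)
      (f := fun z => Lf z - 1) one_pos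
      ((Lf_differentiable.sub_const 1).diffContOnCl) (by
        intro z hz
        apply h1
        have h5 : ‖z - s‖ = 1 := by simpa using hz
        have h6 := Complex.abs_re_le_norm (z - s)
        rw [Complex.sub_re, h5] at h6
        linarith [(abs_le.1 h6).1])
    simpa using h4
  refine ⟨8 * C + 9, by linarith, fun s hs => h1 s (by linarith), fun s t hs ht => ?_⟩
  exact (convex_halfSpace_re_ge (8 * C + 9)).norm_image_sub_le_of_norm_deriv_le
    (fun z _ => Lf_differentiable z) (fun z hz => h2 z hz) hs ht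

theorem p_regT : S_regT := by
  obtain ⟨B, hB0, hB1, hB2⟩ := dn_regT_Lf
  obtain ⟨C₀, hC₀, hC⟩ := Lf_bound
  intro ε hε
  -- constants
  obtain ⟨c, hc0, hc⟩ : ∃ c : ℝ, 0 ≤ c ∧ 2 * C₀ * 21 ^ 4 ≤ Real.exp c := by
    refine ⟨2 * C₀ * 21 ^ 4, by positivity, ?_⟩
    have := Real.add_one_le_exp (2 * C₀ * 21 ^ 4)
    linarith
  have hM : (0 : ℝ) < 200000000 / ε := by positivity
  have hc8 : 0 < 16 * (c + 8) / ε := by positivity
  refine ⟨100 + 8 * B + Real.exp (2 + 200000000 / ε) + 16 * (c + 8) / ε, ?_, ?_⟩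
  · have := Real.exp_pos (2 + 200000000 / ε)
    linarith
  intro x a l hx haA hl
  have he0 := Real.exp_pos (2 + 200000000 / ε)
  have ha : 100 ≤ a := by linarith
  have haB : 8 * B ≤ a := by linarith
  have hae : Real.exp (2 + 200000000 / ε) ≤ a := by linarith
  have hac : 16 * (c + 8) ≤ ε * a := by
    have h1 : 16 * (c + 8) / ε ≤ a := by linarith
    rw [div_le_iff₀ hε] at h1
    linarith
  have ha0 : 0 < a := by linarith
  obtain ⟨hSa, hSx, hSu⟩ := dn_regT_S hx ha0.le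
  have hS0 : 0 < ‖s0 x + a‖ := by linarith
  have hll : 1 + 200000000 / ε ≤ l := by
    have h1 : 2 + 200000000 / ε ≤ Real.log ‖s0 x + a‖ := by
      rw [Real.le_log_iff_exp_le hS0]
      linarith
    linarith [(abs_le.1 hl).2]
  have hl1 : 1 ≤ l := by linarith
  have hεl : 200000000 ≤ ε * l := by
    have h3 : 200000000 / ε ≤ l := by linarith
    rw [div_le_iff₀ hε] at h3
    linarith
  have hSl : ‖s0 x + a‖ ≤ Real.exp (l + 1) := by
    rw [← Real.log_le_iff_le_exp hS0]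
    linarith [(abs_le.1 hl).2]
  have hre : ∀ z : ℂ, 1 / 8 ≤ z.re → B ≤ (s0 x + a * z).re := by
    intro z hz
    rw [dn_regT_sre]
    have : a * (1 / 8) ≤ a * z.re := mul_le_mul_of_nonneg_left hz ha0.le
    linarith
  have hpos : ∀ z : ℂ, 0 ≤ z.re → 4 ≤ (s0 x + a * z).re := by
    intro z hz
    rw [dn_regT_sre]
    have : 0 ≤ a * z.re := by positivity
    linarith
  have hLlo : ∀ z : ℂ, 1 / 8 ≤ z.re → 1 / 2 ≤ ‖Lf (s0 x + a * z)‖ := by
    intro z hz
    have h6 := hB1 _ (hre z hz)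
    have h7 := norm_sub_norm_le (1 : ℂ) (Lf (s0 x + a * z))
    rw [norm_one, norm_sub_rev] at h7
    linarith
  have hLup : ∀ z : ℂ, 1 / 8 ≤ z.re → ‖Lf (s0 x + a * z)‖ ≤ 3 / 2 := by
    intro z hz
    have h6 := hB1 _ (hre z hz)
    have h7 := norm_sub_norm_le (Lf (s0 x + a * z)) 1
    rw [norm_one] at h7
    linarith
  have hm : 0 < ‖m0 x‖ := norm_pos_iff.2 (m0_ne x)
  -- the combination of the two factors
  have hcomb : ∀ (w v : ℂ) (E F G : ℝ), 0 ≤ w.re → 0 ≤ v.re →
      dn_regT_pp x a l v ≤ Real.exp E * dn_regT_pp x a l w →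
      ‖Lf (s0 x + a * v)‖ ≤ Real.exp F * ‖Lf (s0 x + a * w)‖ → E + F ≤ G →
      ‖Rx x a l v‖ ≤ Real.exp G * ‖Rx x a l w‖ := by
    intro w v E F G hw hv h1 h2 h3
    rw [dn_regT_norm (by linarith [hpos v hv]), dn_regT_norm (by linarith [hpos w hw]),
      ← mul_div_assoc]
    apply div_le_div_of_nonneg_right _ hm.le
    calc dn_regT_pp x a l v * ‖Lf (s0 x + a * v)‖
        ≤ (Real.exp E * dn_regT_pp x a l w) * (Real.exp F * ‖Lf (s0 x + a * w)‖) :=
          mul_le_mul h1 h2 (norm_nonneg _)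
            (mul_nonneg (Real.exp_pos _).le (dn_regT_pp_nonneg _ _ _ _))
      _ = Real.exp (E + F) * (dn_regT_pp x a l w * ‖Lf (s0 x + a * w)‖) := by
          rw [Real.exp_add]; ring
      _ ≤ _ := mul_le_mul_of_nonneg_right (Real.exp_le_exp.2 h3)
          (mul_nonneg (dn_regT_pp_nonneg _ _ _ _) (norm_nonneg _))
  refine ⟨?_, ?_, ?_, ?_⟩
  · -- differentiable
    have h3 : Differentiable ℂ fun z : ℂ => Lam (s0 x + a * z) :=
      Lam_differentiable.comp (by fun_prop)
    have h4 : Differentiable ℂ fun z : ℂ => cexp (-((a * l : ℝ) : ℂ) * z) := by fun_prop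
    exact (h3.div_const _).mul h4
  · -- no zeros
    intro w hw1 hw2 hw3
    have h3 : Lf (s0 x + a * w) ≠ 0 := by
      intro h
      have h4 := hLlo w (by linarith)
      rw [h, norm_zero] at h4
      linarith
    have h4 : 0 < (s0 x + a * w).re := by linarith [hpos w (by linarith)]
    rw [Rx, Lam_eq_Lf h4]
    exact mul_ne_zero (div_ne_zero (mul_ne_zero (mul_ne_zero (two_pi_cpow_ne _)
      (Gamma_ne_zero_of_re_pos h4)) h3) (m0_ne x)) (Complex.exp_ne_zero _)
  · -- the Lipschitz bound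
    intro w v hw1 hw2 hw3 hv1 hv2 hv3
    have hw3' : |w.im| ≤ 20 := by linarith
    have hv3' : |v.im| ≤ 20 := by linarith
    have hP := dn_regT_P hx ha hl hw1 hw2 hw3' hv1 hv2 hv3'
    have hδ0 := norm_nonneg (v - w)
    set δ := ‖v - w‖ with hδ
    rcases le_or_gt (1 / 8) v.re with hv8 | hv8
    · have hL : ‖Lf (s0 x + a * v)‖ ≤ Real.exp (a * δ) * ‖Lf (s0 x + a * w)‖ := by
        have h1 := hB2 (s0 x + a * w) (s0 x + a * v) (hre w (by linarith)) (hre v hv8)
        have e1 : (s0 x + a * v) - (s0 x + a * w) = (a : ℂ) * (v - w) := by ring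
        rw [e1, norm_mul, Complex.norm_real, Real.norm_of_nonneg ha0.le, ← hδ] at h1
        have h2 := norm_sub_norm_le (Lf (s0 x + a * v)) (Lf (s0 x + a * w))
        have h3 := hLlo w (by linarith)
        have h4 := Real.add_one_le_exp (a * δ)
        have h5 : 0 ≤ a * δ := by positivity
        calc ‖Lf (s0 x + a * v)‖ ≤ ‖Lf (s0 x + a * w)‖ + 1 / 4 * (a * δ) := by linarith
          _ ≤ (a * δ + 1) * ‖Lf (s0 x + a * w)‖ := by nlinarith
          _ ≤ _ := mul_le_mul_of_nonneg_right h4 (norm_nonneg _)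
      refine hcomb w v _ _ _ (by linarith) hv1 hP hL ?_
      have h6 : a * (100000000 * δ) + a * δ = 100000001 * (a * δ) := by ring
      have h7 : ε * (a * l) * δ = (ε * l) * (a * δ) := by ring
      rw [h6, h7]
      exact mul_le_mul_of_nonneg_right (by linarith) (by positivity)
    · have hδ8 : 1 / 8 ≤ δ := by
        have h3 := Complex.abs_re_le_norm (v - w)
        rw [Complex.sub_re] at h3
        have h4 := neg_abs_le (v.re - w.re)
        linarith
      have hL : ‖Lf (s0 x + a * v)‖ ≤ Real.exp (c + 4 * (l + 1)) * ‖Lf (s0 x + a * w)‖ := by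
        have h1 := hC (s0 x + a * v) (hpos v hv1)
        have h2 : 9 + |(s0 x + a * v).im| ≤ 21 * Real.exp (l + 1) := by
          rw [dn_regT_sim]
          have h8 := abs_add_le x (a * v.im)
          rw [abs_of_nonneg hx] at h8
          linarith [dn_regT_im ha0.le hv3']
        have h3 : (9 + |(s0 x + a * v).im|) ^ 4 ≤ (21 * Real.exp (l + 1)) ^ 4 :=
          pow_le_pow_left₀ (by positivity) h2 4
        have h4 : Real.exp (l + 1) ^ 4 = Real.exp (4 * (l + 1)) := by
          rw [← Real.exp_nat_mul]; norm_num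
        have h5 := hLlo w (by linarith)
        calc ‖Lf (s0 x + a * v)‖ ≤ C₀ * (21 * Real.exp (l + 1)) ^ 4 :=
              h1.trans (mul_le_mul_of_nonneg_left h3 hC₀.le)
          _ = (2 * C₀ * 21 ^ 4) * Real.exp (4 * (l + 1)) * (1 / 2) := by
              rw [mul_pow, h4]; ring
          _ ≤ Real.exp c * Real.exp (4 * (l + 1)) * ‖Lf (s0 x + a * w)‖ := by
              refine mul_le_mul (mul_le_mul_of_nonneg_right hc (Real.exp_pos _).le) h5
                (by norm_num) (by positivity)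
          _ = _ := by rw [← Real.exp_add]
      refine hcomb w v _ _ _ (by linarith) hv1 hP hL ?_
      have h6 : a * (100000000 * δ) ≤ 1 / 2 * (ε * (a * l) * δ) := by
        have h7 : a * (100000000 * δ) = 1 / 2 * (200000000 * (a * δ)) := by ring
        have h8 : ε * (a * l) * δ = (ε * l) * (a * δ) := by ring
        rw [h7, h8]
        have := mul_le_mul_of_nonneg_right hεl (by positivity : 0 ≤ a * δ)
        linarith
      have h7 : c + 4 * (l + 1) ≤ 1 / 2 * (ε * (a * l) * δ) := by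
        have h8 : c + 4 * (l + 1) ≤ (c + 8) * l := by nlinarith
        have h9 : (c + 8) * l ≤ 1 / 16 * (ε * a * l) := by nlinarith
        have h10 : ε * a * l * (1 / 8) ≤ ε * a * l * δ :=
          mul_le_mul_of_nonneg_left hδ8 (by positivity)
        have h11 : ε * (a * l) * δ = ε * a * l * δ := by ring
        rw [h11]
        linarith
      linarith
  · -- the tail
    intro w v hw1 hw2 hw3 hv1 hv3
    have hw3' : |w.im| ≤ 20 := by linarith
    have hv3' : |v.im| ≤ 20 := by linarith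
    have hw2' : w.re ≤ 50 := by linarith
    have hδ50 : 50 ≤ ‖v - w‖ := by
      have h7 := Complex.abs_re_le_norm (v - w)
      rw [Complex.sub_re] at h7
      have h8 := le_abs_self (v.re - w.re)
      linarith
    have hwlo : ‖s0 x + a‖ / 1000 ≤ ‖s0 x + a * w‖ :=
      dn_regT_lo ha hSu hw3' (Or.inl (by linarith))
    have hwup : ‖s0 x + a * w‖ ≤ 1000 * ‖s0 x + a‖ := by
      have := dn_regT_up hx ha0.le (by linarith) (by linarith) hw3'
      linarith
    have h4 : ‖s0 x + a * w‖ ≤ 4 * ‖s0 x + a * v‖ := by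
      have h5 := Complex.norm_le_abs_re_add_abs_im (s0 x + a * w)
      rw [dn_regT_sre, dn_regT_sim] at h5
      have h6 : 0 ≤ a * w.re := by
        have : 0 ≤ w.re := by linarith
        positivity
      have h7 : a * w.re ≤ a * 50 := mul_le_mul_of_nonneg_left hw2' ha0.le
      have h8 := abs_add_le x (a * w.im)
      rw [abs_of_nonneg hx] at h8
      rw [abs_of_nonneg (by linarith : 0 ≤ 6 + a * w.re)] at h5
      have h9 := dn_regT_im ha0.le hw3'
      have h10 := dn_regT_im ha0.le hv3'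
      have h11 := Complex.re_le_norm (s0 x + a * v)
      rw [dn_regT_sre] at h11
      have h12 := (le_abs_self _).trans (Complex.abs_im_le_norm (s0 x + a * v))
      rw [dn_regT_sim] at h12
      have h13 : a * 100 ≤ a * v.re := mul_le_mul_of_nonneg_left hv1 ha0.le
      have h14 := (abs_le.1 h10).1
      linarith
    have hP := dn_regT_A (v := v) (by linarith : 1 ≤ a) (by linarith : a ≤ ‖s0 x + a‖) hl
      (by linarith : 0 ≤ w.re) (by linarith) hwlo hwup h4
    set δ := ‖v - w‖ with hδ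
    have hL : ‖Lf (s0 x + a * v)‖ ≤ Real.exp 2 * ‖Lf (s0 x + a * w)‖ := by
      have h5 := hLup v (by linarith)
      have h6 := hLlo w (by linarith)
      have h9 : (3 : ℝ) ≤ Real.exp 2 := by
        have := Real.add_one_le_exp (2 : ℝ)
        linarith
      calc ‖Lf (s0 x + a * v)‖ ≤ 3 * (1 / 2) := by linarith
        _ ≤ _ := mul_le_mul h9 h6 (by norm_num) (Real.exp_pos _).le
    refine hcomb w v _ _ _ (by linarith) (by linarith) hP hL ?_
    have h6 : 4015 * δ ≤ 81 * δ ^ 2 := by nlinarith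
    have h7 : (2 : ℝ) ≤ a * δ ^ 2 := by
      have : (2500 : ℝ) ≤ δ ^ 2 := by nlinarith
      nlinarith
    have h8 : a * (4015 * δ + 120000 * δ ^ 2) ≤ a * (120081 * δ ^ 2) :=
      mul_le_mul_of_nonneg_left (by linarith) ha0.le
    have h9 : 200000000 * (a * δ ^ 2) ≤ ε * l * (a * δ ^ 2) :=
      mul_le_mul_of_nonneg_right hεl (by positivity)
    have h10 : ε * (a * l) * δ ^ 2 = ε * l * (a * δ ^ 2) := by ring
    rw [h10]
    linarith

end Pool.Agent.Lib.MP_cd509c_nt.DN
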