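import Pool.Agent.Lib.MP_cd509c_nt.DN.Defs4

/-!
# Piece winD: zeros of the derivatives in an exponential window are real and simple
-/

set_option autoImplicit false

namespace Pool.Agent.Lib.MP_cd509c_nt.DN

open Complex ComplexConjugate MeasureTheory

lemma dn_winD_affine (n : ℕ) (c a : ℂ) : iteratedDeriv n (fun z : ℂ => Lam (c + a * z)) =
    fun z => a ^ n * iteratedDeriv n Lam (c + a * z) := by
  induction n with
  | zero => funext z; simp
  | succ n ih =>
    rw [iteratedDeriv_succ, ih]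
    funext z
    have hcd : ContDiff ℂ ⊤ Lam := Lam_differentiable.contDiff
    have hgd : Differentiable ℂ (iteratedDeriv n Lam) :=
      hcd.differentiable_iteratedDeriv n (by exact_mod_cast WithTop.coe_lt_top _)
    have h1 : HasDerivAt (fun z : ℂ => c + a * z) (a * 1) z :=
      ((hasDerivAt_id z).const_mul a).const_add c
    have h2 := ((hgd (c + a * z)).hasDerivAt.comp z h1).const_mul (a ^ n)
    rw [iteratedDeriv_succ]
    refine h2.deriv.trans ?_
    ring

theorem dn_winD_link (n : ℕ) (x a l : ℝ) (w : ℂ) (ha : 0 < a) (hn : (n : ℝ) = a * l) :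
    iteratedDeriv n Xi ((x : ℂ) - I * (a * w)) =
    I ^ n * m0 x / (a : ℂ) ^ n * iteratedDeriv n (la n (Rx x a l)) w := by
  have hla : la n (Rx x a l) = fun z : ℂ => (m0 x)⁻¹ * Lam (s0 x + (a : ℂ) * z) := by
    funext z
    unfold la Rx
    have e : ((n : ℝ) : ℂ) * z = ((a * l : ℝ) : ℂ) * z := by rw [hn]
    have h1 : cexp (((n : ℝ) : ℂ) * z) * cexp (-((a * l : ℝ) : ℂ) * z) = 1 := by
      rw [e, ← Complex.exp_add]
      have : ((a * l : ℝ) : ℂ) * z + -((a * l : ℝ) : ℂ) * z = 0 := by ring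
      rw [this, Complex.exp_zero]
    calc cexp (((n : ℝ) : ℂ) * z) * (Lam (s0 x + a * z) / m0 x * cexp (-((a * l : ℝ) : ℂ) * z))
        = (cexp (((n : ℝ) : ℂ) * z) * cexp (-((a * l : ℝ) : ℂ) * z)) *
          (Lam (s0 x + a * z) / m0 x) := by ring
      _ = _ := by rw [h1, one_mul, div_eq_inv_mul]
  have hXi : Xi = fun z : ℂ => Lam (6 + Complex.I * z) := rfl
  have ha0 : (a : ℂ) ≠ 0 := by exact_mod_cast ha.ne'
  have hm := m0_ne x
  rw [hla, hXi, iteratedDeriv_Xi, iteratedDeriv_const_mul_field, dn_winD_affine]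
  have e : (6 : ℂ) + Complex.I * ((x : ℂ) - I * (a * w)) = s0 x + (a : ℂ) * w := by
    unfold s0
    have : Complex.I * Complex.I = -1 := Complex.I_mul_I
    linear_combination (-(a * w)) * this
  simp only [e]
  field_simp

theorem dn_winD_ivt (A x : ℝ) (n : ℕ) (hA : 1 ≤ A) (hx : 0 ≤ x) (h1 : 2 * A * Real.log (7 + A) ≤ n)
    (h2 : A ≤ n) (C : ℝ) (hC : 2 * A ≤ C) (hxe : x ≤ Real.exp (n / C)) :
    ∃ a : ℝ, A ≤ a ∧ a * Real.log ‖s0 x + a‖ = n := by
  have hC0 : 0 < C := by linarith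
  have hre : ∀ a : ℝ, 0 ≤ a → 6 + a ≤ ‖s0 x + a‖ := by
    intro a ha
    have h := Complex.abs_re_le_norm (s0 x + a)
    have e : (s0 x + a).re = 6 + a := by simp [s0]
    rw [e, abs_of_nonneg (by linarith)] at h
    exact h
  have hcont : ContinuousOn (fun a : ℝ => a * Real.log ‖s0 x + a‖) (Set.Icc A n) := by
    refine continuousOn_id.mul (ContinuousOn.log ?_ ?_)
    · exact (continuous_norm.comp (by fun_prop)).continuousOn
    · intro a ha
      have := hre a (by linarith [ha.1])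
      have h3 : (0 : ℝ) < 6 + a := by linarith [ha.1]
      exact (lt_of_lt_of_le h3 this).ne'
  have hlo : A * Real.log ‖s0 x + A‖ ≤ n := by
    have h3 : ‖s0 x + A‖ ≤ (7 + A) * Real.exp (n / C) := by
      have e : s0 x + A = ((6 + A : ℝ) : ℂ) + (x : ℂ) * I := by
        rw [s0]; push_cast; ring
      rw [e]
      refine (norm_add_le _ _).trans ?_
      rw [norm_mul, Complex.norm_I, mul_one, Complex.norm_real, Complex.norm_real,
        Real.norm_eq_abs, Real.norm_eq_abs, abs_of_nonneg (by linarith), abs_of_nonneg hx]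
      have h4 : 1 ≤ Real.exp (n / C) := Real.one_le_exp (by positivity)
      have h5 : (6 + A) * 1 ≤ (6 + A) * Real.exp (n / C) :=
        mul_le_mul_of_nonneg_left h4 (by linarith)
      linarith
    have hpos : 0 < ‖s0 x + A‖ := by
      have := hre A (by linarith)
      linarith
    have h6 : Real.log ‖s0 x + A‖ ≤ Real.log (7 + A) + n / C := by
      have h7 := Real.log_le_log hpos h3
      rwa [Real.log_mul (by linarith) (Real.exp_pos _).ne', Real.log_exp] at h7
    have h8 : A * Real.log ‖s0 x + A‖ ≤ A * (Real.log (7 + A) + n / C) :=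
      mul_le_mul_of_nonneg_left h6 (by linarith)
    have h9 : A * (n / C) ≤ n / 2 := by
      rw [← mul_div_assoc, div_le_iff₀ hC0]
      have : (0 : ℝ) ≤ n := by positivity
      nlinarith
    have h10 : A * (Real.log (7 + A) + n / C) ≤ n := by
      rw [mul_add]
      linarith
    linarith
  have hhi : (n : ℝ) ≤ n * Real.log ‖s0 x + (n : ℝ)‖ := by
    have h3 : 1 ≤ Real.log ‖s0 x + (n : ℝ)‖ := by
      have h4 := hre n (by positivity)
      have h5 : (0 : ℝ) ≤ n := by positivity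
      have h6 : Real.exp 1 ≤ ‖s0 x + (n : ℝ)‖ := by
        have := Real.exp_one_lt_d9
        linarith
      have h7 : 0 < ‖s0 x + (n : ℝ)‖ := by linarith
      exact (Real.le_log_iff_exp_le h7).mpr h6
    have h5 : (0 : ℝ) ≤ n := by positivity
    nlinarith
  obtain ⟨a, ha, hav⟩ := intermediate_value_Icc h2 hcont ⟨hlo, hhi⟩
  exact ⟨a, ha.1, hav⟩

theorem p_winD (hreg : S_regT) (hsym : S_symR) (hPD : S_PDs) (_hlink : S_linkD) : S_winD := by
  obtain ⟨C₀, hC₀, hreal⟩ := deriv_zeros_real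
  obtain ⟨ε, N₀, hε, hN₀, hPD⟩ := hPD
  obtain ⟨A, hA, hreg⟩ := hreg ε hε
  have hlogA : 0 ≤ Real.log (7 + A) := Real.log_nonneg (by linarith)
  obtain ⟨C, hCd⟩ : ∃ C : ℝ, C = C₀ + 2 * A + N₀ + 2 * A * Real.log (7 + A) := ⟨_, rfl⟩
  have hAl : 0 ≤ 2 * A * Real.log (7 + A) := by positivity
  have hC1 : C₀ ≤ C := by rw [hCd]; linarith
  have hC2 : 2 * A ≤ C := by rw [hCd]; linarith
  have hC3 : N₀ ≤ C := by rw [hCd]; linarith
  have hC4 : 2 * A * Real.log (7 + A) ≤ C := by rw [hCd]; linarith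
  have hC0 : 0 < C := by linarith
  have hXid : Differentiable ℂ Xi := by
    have hXi : Xi = fun z : ℂ => Lam (6 + Complex.I * z) := rfl
    rw [hXi]
    exact Lam_differentiable.comp (by fun_prop)
  have hdiff : ∀ n : ℕ, Differentiable ℂ (iteratedDeriv n Xi) := by
    intro n
    have hcd : ContDiff ℂ ⊤ Xi := hXid.contDiff
    exact hcd.differentiable_iteratedDeriv n (by exact_mod_cast WithTop.coe_lt_top _)
  -- the main case: nonnegative real points
  have key : ∀ n : ℕ, C ≤ n → ∀ x : ℝ, 0 ≤ x → x ≤ Real.exp (n / C) →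
      iteratedDeriv n Xi x = 0 → deriv (iteratedDeriv n Xi) x ≠ 0 := by
    intro n hn x hx hxe h0 hd
    obtain ⟨a, haA, hal⟩ := dn_winD_ivt A x n hA hx (by linarith) (by linarith) C hC2 hxe
    have ha0 : 0 < a := by linarith
    obtain ⟨l, hld⟩ : ∃ l : ℝ, l = Real.log ‖s0 x + a‖ := ⟨_, rfl⟩
    rw [← hld] at hal
    have hR := hreg x a l hx haA (by rw [hld]; simp)
    have hS := hsym x a l
    rw [hal] at hR hS
    have hlink' : ∀ w : ℂ, iteratedDeriv n Xi ((x : ℂ) - I * ((a : ℂ) * w)) =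
        I ^ n * m0 x / (a : ℂ) ^ n * iteratedDeriv n (la n (Rx x a l)) w := fun w =>
      dn_winD_link n x a l w ha0 hal.symm
    have hK : I ^ n * m0 x / (a : ℂ) ^ n ≠ 0 := by
      refine div_ne_zero (mul_ne_zero (pow_ne_zero _ I_ne_zero) (m0_ne x)) (pow_ne_zero _ ?_)
      exact_mod_cast ha0.ne'
    have hF : iteratedDeriv n (la n (Rx x a l)) = fun w =>
        (I ^ n * m0 x / (a : ℂ) ^ n)⁻¹ * iteratedDeriv n Xi ((x : ℂ) - I * ((a : ℂ) * w)) := by
      funext w
      rw [hlink' w, inv_mul_cancel_left₀ hK]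
    have hF0 : iteratedDeriv n (la n (Rx x a l)) 0 = 0 := by
      rw [hF]
      simp only [mul_zero, sub_zero]
      rw [h0, mul_zero]
    refine hPD n ε 100 (Rx x a l) hε le_rfl (by linarith) (by norm_num) hR hS hF0 ?_
    have hin : HasDerivAt (fun w : ℂ => (x : ℂ) - I * ((a : ℂ) * w)) (0 - I * ((a : ℂ) * 1)) 0 :=
      (hasDerivAt_const (0 : ℂ) (x : ℂ)).sub
        (((hasDerivAt_id (0 : ℂ)).const_mul (a : ℂ)).const_mul I)
    have hout : HasDerivAt (iteratedDeriv n Xi) (deriv (iteratedDeriv n Xi) x)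
        ((x : ℂ) - I * ((a : ℂ) * 0)) := by
      rw [mul_zero, mul_zero, sub_zero]
      exact (hdiff n x).hasDerivAt
    have hcomp := (hout.comp (0 : ℂ) hin).const_mul (I ^ n * m0 x / (a : ℂ) ^ n)⁻¹
    rw [hF]
    have h2 := hcomp.deriv
    rw [hd, zero_mul, mul_zero] at h2
    exact h2
  have heven : ∀ z : ℂ, Xi (-z) = Xi z := by
    intro z
    show Lam (6 + Complex.I * (-z)) = Lam (6 + Complex.I * z)
    rw [← Lam_symm']
    congr 1
    ring
  have hneg : ∀ (n : ℕ) (z : ℂ), iteratedDeriv n Xi z = (-1 : ℂ) ^ n * iteratedDeriv n Xi (-z) := by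
    intro n z
    have h := iteratedDeriv_comp_neg n Xi z
    have h4 : (fun w => Xi (-w)) = Xi := funext heven
    rw [h4, smul_eq_mul] at h
    exact h
  have hm1 : ∀ n : ℕ, ((-1 : ℂ) ^ n) ≠ 0 := fun n => pow_ne_zero _ (by norm_num)
  refine ⟨C, hC0, ?_⟩
  intro n hn z h0 hz
  have him : z.im = 0 := by
    refine hreal n (by linarith) z h0 (le_trans hz (Real.exp_le_exp.mpr ?_))
    exact div_le_div_of_nonneg_left (by positivity) hC₀ hC1
  refine ⟨him, ?_⟩
  have hzr : z = ((z.re : ℝ) : ℂ) := by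
    apply Complex.ext
    · simp
    · simp [him]
  rcases le_total 0 z.re with hr | hr
  · rw [abs_of_nonneg hr] at hz
    rw [hzr] at h0 ⊢
    exact key n hn z.re hr hz h0
  · rw [abs_of_nonpos hr] at hz
    have h5 : ((-z.re : ℝ) : ℂ) = -z := by
      push_cast
      rw [← hzr]
    have h1 : iteratedDeriv n Xi ((-z.re : ℝ) : ℂ) = 0 := by
      rw [h5]
      have h6 := hneg n z
      rw [h0] at h6
      exact (mul_eq_zero.mp h6.symm).resolve_left (hm1 n)
    have h2 := key n hn (-z.re) (by linarith) hz h1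
    rw [h5] at h2
    have h3 : (iteratedDeriv n Xi) = fun w => (-1 : ℂ) ^ n * iteratedDeriv n Xi (-w) :=
      funext (hneg n)
    have h7 : HasDerivAt (fun w => (-1 : ℂ) ^ n * iteratedDeriv n Xi (-w))
        ((-1 : ℂ) ^ n * (deriv (iteratedDeriv n Xi) (-z) * (-1))) z := by
      have h8 : HasDerivAt (fun w : ℂ => -w) (-1) z := (hasDerivAt_id z).neg
      exact (((hdiff n (-z)).hasDerivAt).comp z h8).const_mul _
    rw [h3, h7.deriv]
    exact mul_ne_zero (hm1 n) (mul_ne_zero h2 (by norm_num))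

end Pool.Agent.Lib.MP_cd509c_nt.DN
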