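import Pool.Agent.Lib.MP_cd509c_nt.DN.Defs4

/-!
# Piece winH: zeros of the heat flow outside an exponential window are real and simple
-/

set_option autoImplicit false

namespace Pool.Agent.Lib.MP_cd509c_nt.DN

open Complex ComplexConjugate MeasureTheory

theorem dn_winH_log (x : ℝ) (hx : 20 ≤ x) : Real.log x ≤ x / Real.exp 1 := by
  have h0 : 0 < x := by linarith
  have h1 := Real.add_one_le_exp (Real.log x - 1)
  rw [sub_add_cancel, Real.exp_sub, Real.exp_log h0] at h1
  exact h1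

theorem dn_winH_norm (x a : ℝ) (hx : 20 ≤ x) (ha0 : 0 ≤ a) (ha : a ≤ 2 * Real.log x) :
    |Real.log ‖s0 x + a‖ - Real.log x| ≤ 1 := by
  have h0 : 0 < x := by linarith
  have h1 : x ≤ ‖s0 x + a‖ := by
    have h := Complex.abs_im_le_norm (s0 x + a)
    have e : (s0 x + a).im = x := by simp [s0]
    rw [e, abs_of_pos h0] at h
    exact h
  have hn : 0 < ‖s0 x + a‖ := by linarith
  have h2 : ‖s0 x + a‖ ≤ 6 + a + x := by
    have e : s0 x + a = ((6 + a : ℝ) : ℂ) + (x : ℂ) * I := by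
      rw [s0]; push_cast; ring
    rw [e]
    refine (norm_add_le _ _).trans ?_
    rw [norm_mul, Complex.norm_I, mul_one, Complex.norm_real, Complex.norm_real,
      Real.norm_eq_abs, Real.norm_eq_abs, abs_of_nonneg (by linarith), abs_of_pos h0]
  have h3 := dn_winH_log x hx
  have h4 := Real.exp_one_gt_d9
  have h5 : x / Real.exp 1 ≤ x / 2.7 :=
    div_le_div_of_nonneg_left h0.le (by norm_num) (by linarith)
  have h6 : 6 + a + x ≤ Real.exp 1 * x := by
    have h7 : (2.7 : ℝ) * x ≤ Real.exp 1 * x := mul_le_mul_of_nonneg_right (by linarith) h0.le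
    have h8 : 6 + a + x ≤ 2.7 * x := by
      have h9 : x / 2.7 ≤ 0.38 * x := by
        rw [div_le_iff₀ (by norm_num)]
        linarith
      linarith
    linarith
  have h7 : Real.log ‖s0 x + a‖ ≤ 1 + Real.log x := by
    have h8 := Real.log_le_log hn (h2.trans h6)
    rw [Real.log_mul (Real.exp_pos 1).ne' h0.ne', Real.log_exp] at h8
    exact h8
  have h8 : Real.log x ≤ Real.log ‖s0 x + a‖ := Real.log_le_log h0 h1
  rw [abs_le]
  constructor <;> linarith

theorem p_winH (hreg : S_regT) (hsym : S_symR) (hPH : S_PHs) (hlink : S_linkH) : S_winH := by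
  obtain ⟨C₀, hC₀, hreal⟩ := Ht_real
  obtain ⟨ε, N₀, hε, hN₀, hPH⟩ := hPH
  obtain ⟨A, hA, hreg⟩ := hreg ε hε
  obtain ⟨C, hCd⟩ : ∃ C : ℝ, C = C₀ + A + N₀ + 3 := ⟨_, rfl⟩
  have hC1 : C₀ ≤ C := by rw [hCd]; linarith
  have hC2 : A ≤ C := by rw [hCd]; linarith
  have hC3 : N₀ ≤ C := by rw [hCd]; linarith
  have hC4 : 3 ≤ C := by rw [hCd]; linarith
  have hdiff : ∀ t : ℝ, Differentiable ℂ (Ht t) := by
    intro t
    have h := (Ker_PhiT t).FT_differentiable
    have e : FT (PhiT t) = Ht t := funext (FT_PhiT t)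
    rwa [e] at h
  -- the main case: positive real points
  have key : ∀ t : ℝ, 0 < t → t ≤ 1 → ∀ x : ℝ, Real.exp (C / t) ≤ x → Ht t x = 0 →
      deriv (Ht t) x ≠ 0 := by
    intro t ht ht1 x hx h0 hd
    have hCt : C ≤ C / t := by
      rw [le_div_iff₀ ht]
      nlinarith
    have hx0 : 0 < x := lt_of_lt_of_le (Real.exp_pos _) hx
    have hl : C / t ≤ Real.log x := (Real.le_log_iff_exp_le hx0).mpr hx
    have hl3 : 3 ≤ Real.log x := by linarith
    have hx20 : 20 ≤ x := by
      have h1 : Real.exp 3 ≤ x := by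
        refine le_trans ?_ hx
        exact Real.exp_le_exp.mpr (by linarith)
      have h2 : (20 : ℝ) ≤ Real.exp 3 := by
        have h3 := Real.exp_one_gt_d9
        have h4 : Real.exp 3 = Real.exp 1 ^ 3 := by
          rw [← Real.exp_nat_mul]; norm_num
        rw [h4]
        have h5 : (2.718 : ℝ) ^ 3 ≤ Real.exp 1 ^ 3 :=
          pow_le_pow_left₀ (by norm_num) (by linarith) 3
        have h6 : (20 : ℝ) ≤ 2.718 ^ 3 := by norm_num
        linarith
      linarith
    obtain ⟨l, hld⟩ : ∃ l : ℝ, l = Real.log x := ⟨_, rfl⟩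
    rw [← hld] at hl hl3
    have hl0 : 0 < l := by linarith
    obtain ⟨a, had⟩ : ∃ a : ℝ, a = 2 * t * l := ⟨_, rfl⟩
    have htl : C ≤ t * l := by
      rw [div_le_iff₀ ht] at hl
      linarith
    have ha2C : 2 * C ≤ a := by rw [had]; linarith
    have ha0 : 0 < a := by linarith
    have haA : A ≤ a := by linarith
    have haN : N₀ ≤ a * l := by
      have h1 : a * 1 ≤ a * l := mul_le_mul_of_nonneg_left (by linarith) ha0.le
      linarith
    have hal : a ≤ 2 * Real.log x := by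
      rw [had, ← hld]
      nlinarith
    have hlog : |Real.log ‖s0 x + a‖ - l| ≤ 1 := by
      rw [hld]
      exact dn_winH_norm x a hx20 ha0.le hal
    have hR := hreg x a l hx0.le haA hlog
    have hlink' : ∀ w : ℂ, Ht t ((x : ℂ) - I * ((a : ℂ) * w)) =
        ((Nt t : ℂ) * (a : ℂ) * m0 x) * FH (a * l) (Rx x a l) w := by
      intro w
      have h := hlink t x l w hx0 ht hl0
      rw [← had] at h
      rw [h, had]
      push_cast
      ring
    have hK : ((Nt t : ℂ) * (a : ℂ) * m0 x) ≠ 0 := by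
      refine mul_ne_zero (mul_ne_zero ?_ ?_) (m0_ne x)
      · exact_mod_cast (Nt_pos ht).ne'
      · exact_mod_cast ha0.ne'
    have hF : FH (a * l) (Rx x a l) = fun w =>
        ((Nt t : ℂ) * (a : ℂ) * m0 x)⁻¹ * Ht t ((x : ℂ) - I * ((a : ℂ) * w)) := by
      funext w
      rw [hlink' w, inv_mul_cancel_left₀ hK]
    have hF0 : FH (a * l) (Rx x a l) 0 = 0 := by
      rw [hF]
      simp only [mul_zero, sub_zero]
      rw [h0, mul_zero]
    refine hPH (a * l) ε 100 (Rx x a l) hε le_rfl haN (by norm_num) hR (hsym x a l) hF0 ?_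
    have hin : HasDerivAt (fun w : ℂ => (x : ℂ) - I * ((a : ℂ) * w)) (0 - I * ((a : ℂ) * 1)) 0 :=
      (hasDerivAt_const (0 : ℂ) (x : ℂ)).sub
        (((hasDerivAt_id (0 : ℂ)).const_mul (a : ℂ)).const_mul I)
    have hout : HasDerivAt (Ht t) (deriv (Ht t) x) ((x : ℂ) - I * ((a : ℂ) * 0)) := by
      rw [mul_zero, mul_zero, sub_zero]
      exact (hdiff t x).hasDerivAt
    have hcomp := (hout.comp (0 : ℂ) hin).const_mul ((Nt t : ℂ) * (a : ℂ) * m0 x)⁻¹
    rw [hF]
    have h2 := hcomp.deriv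
    rw [hd, zero_mul, mul_zero] at h2
    exact h2
  refine ⟨C, by linarith, ?_⟩
  intro t ht ht1 z hz h0
  have him : z.im = 0 := by
    refine hreal t ht ht1 z (le_trans (Real.exp_le_exp.mpr ?_) hz) h0
    exact div_le_div_of_nonneg_right hC1 ht.le
  refine ⟨him, ?_⟩
  have hzr : z = ((z.re : ℝ) : ℂ) := by
    apply Complex.ext
    · simp
    · simp [him]
  rcases le_total 0 z.re with hr | hr
  · rw [abs_of_nonneg hr] at hz
    rw [hzr] at h0 ⊢
    exact key t ht ht1 z.re hz h0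
  · rw [abs_of_nonpos hr] at hz
    have h1 : Ht t ((-z.re : ℝ) : ℂ) = 0 := by
      push_cast
      rw [Ht_even, ← hzr]
      exact h0
    have h2 := key t ht ht1 (-z.re) hz h1
    have h3 : deriv (fun w => Ht t (-w)) z = -deriv (Ht t) (-z) := deriv_comp_neg (Ht t) z
    have h4 : (fun w => Ht t (-w)) = Ht t := funext (Ht_even t)
    rw [h4] at h3
    rw [h3, neg_ne_zero]
    have h5 : ((-z.re : ℝ) : ℂ) = -z := by
      push_cast
      rw [← hzr]
    rw [h5] at h2
    exact h2

end Pool.Agent.Lib.MP_cd509c_nt.DN
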