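import Pool.Agent.Lib.MP_cd509c_nt.DN.Defs

/-!
# MP_cd509c_nt, project DN, piece gamLo: lower bound for the Gamma function
-/

set_option autoImplicit false

namespace Pool.Agent.Lib.MP_cd509c_nt.DN

open Complex ComplexConjugate MeasureTheory

/-- `|Γ(1+it)|² = π t / sinh (π t)`. -/
theorem dn_gamLo_one (t : ℝ) (ht : t ≠ 0) :
    ‖Gamma (1 + t * I)‖ ^ 2 * Real.sinh (Real.pi * t) = Real.pi * t := by
  have h1 : Gamma (1 + t * I) = (t * I) * Gamma (t * I) := by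
    rw [add_comm]
    exact Gamma_add_one _ (mul_ne_zero (by exact_mod_cast ht) I_ne_zero)
  have h2 : Gamma (t * I) * Gamma (1 - t * I) = Real.pi / Complex.sin (Real.pi * (t * I)) :=
    Complex.Gamma_mul_Gamma_one_sub _
  have h3 : Complex.sin (Real.pi * (t * I)) = Real.sinh (Real.pi * t) * I := by
    rw [← mul_assoc, Complex.sin_mul_I]
    push_cast; rfl
  have hs : Real.sinh (Real.pi * t) ≠ 0 := by
    rw [Ne, Real.sinh_eq_zero]
    exact mul_ne_zero Real.pi_ne_zero ht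
  have h4 : Gamma (1 - t * I) = conj (Gamma (1 + t * I)) := by
    rw [← Gamma_conj]
    congr 1
    simp
    ring
  have h5 : (‖Gamma (1 + t * I)‖ ^ 2 : ℂ) = Gamma (1 + t * I) * Gamma (1 - t * I) := by
    rw [h4, Complex.mul_conj, Complex.normSq_eq_norm_sq]
    push_cast; rfl
  have h6 : (‖Gamma (1 + t * I)‖ ^ 2 : ℂ) = (t * I) * (Real.pi / (Real.sinh (Real.pi * t) * I)) := by
    rw [h5, ← h3, ← h2]
    nth_rewrite 1 [h1]
    ring
  have h7 : ((‖Gamma (1 + t * I)‖ ^ 2 * Real.sinh (Real.pi * t) : ℝ) : ℂ) = ((Real.pi * t : ℝ) : ℂ) := by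
    push_cast
    rw [h6]
    have hs' : (Complex.sinh (Real.pi * t)) ≠ 0 := by
      have := hs
      intro h
      apply this
      have h' : ((Real.sinh (Real.pi * t) : ℝ) : ℂ) = 0 := by push_cast; exact h
      exact_mod_cast h'
    push_cast
    generalize Complex.sinh (Real.pi * t) = S at hs'
    have hI := I_ne_zero
    field_simp
  exact_mod_cast h7

theorem dn_gamLo_one' (t : ℝ) (ht : 1 ≤ |t|) :
    |t| ^ (1 / 2 : ℝ) * Real.exp (-(Real.pi * |t| / 2)) ≤ ‖Gamma (1 + t * I)‖ := by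
  have ht0 : 0 < |t| := by linarith
  have h := dn_gamLo_one t (abs_pos.1 ht0)
  -- even in `t`
  have h' : ‖Gamma (1 + t * I)‖ ^ 2 * Real.sinh (Real.pi * |t|) = Real.pi * |t| := by
    rcases le_total 0 t with h0 | h0
    · rw [abs_of_nonneg h0]; exact h
    · rw [abs_of_nonpos h0, mul_neg, Real.sinh_neg]
      linarith
  have hsinh : Real.sinh (Real.pi * |t|) ≤ Real.exp (Real.pi * |t|) := by
    rw [Real.sinh_eq]
    have h1 := Real.exp_pos (Real.pi * |t|)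
    have h2 := Real.exp_pos (-(Real.pi * |t|))
    linarith
  have hn := sq_nonneg (‖Gamma (1 + t * I)‖)
  have h1 : |t| ≤ ‖Gamma (1 + t * I)‖ ^ 2 * Real.exp (Real.pi * |t|) := by
    calc |t| ≤ Real.pi * |t| := by nlinarith [Real.pi_gt_three]
      _ = ‖Gamma (1 + t * I)‖ ^ 2 * Real.sinh (Real.pi * |t|) := h'.symm
      _ ≤ _ := mul_le_mul_of_nonneg_left hsinh hn
  have h2 : (|t| ^ (1 / 2 : ℝ) * Real.exp (-(Real.pi * |t| / 2))) ^ 2 ≤
      ‖Gamma (1 + t * I)‖ ^ 2 := by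
    have e1 : (|t| ^ (1 / 2 : ℝ)) ^ 2 = |t| := by
      rw [← Real.rpow_natCast, ← Real.rpow_mul ht0.le]; norm_num
    have e2 : Real.exp (-(Real.pi * |t| / 2)) ^ 2 = Real.exp (-(Real.pi * |t|)) := by
      rw [← Real.exp_nat_mul]; congr 1; push_cast; ring
    rw [mul_pow, e1, e2]
    calc |t| * Real.exp (-(Real.pi * |t|)) ≤
        (‖Gamma (1 + t * I)‖ ^ 2 * Real.exp (Real.pi * |t|)) * Real.exp (-(Real.pi * |t|)) :=
          mul_le_mul_of_nonneg_right h1 (Real.exp_pos _).le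
      _ = ‖Gamma (1 + t * I)‖ ^ 2 := by
          rw [mul_assoc, ← Real.exp_add]; simp
  exact (sq_le_sq₀ (by positivity) (norm_nonneg _)).1 h2

lemma dn_gamLo_step (k : ℝ) (hk : 0 < k) (t : ℝ) :
    |t| * ‖Gamma (k + t * I)‖ ≤ ‖Gamma ((k + 1 : ℝ) + t * I)‖ := by
  have h0 : (k + t * I : ℂ) ≠ 0 := by
    intro h
    have := congrArg Complex.re h
    simp at this
    linarith
  have h1 : ((k + 1 : ℝ) + t * I : ℂ) = (k + t * I) + 1 := by push_cast; ring
  rw [h1, Gamma_add_one _ h0, norm_mul]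
  refine mul_le_mul_of_nonneg_right ?_ (norm_nonneg _)
  have := Complex.abs_im_le_norm (k + t * I)
  simpa using this

theorem dn_gamLo_six (t : ℝ) (ht : 1 ≤ |t|) :
    |t| ^ (11 / 2 : ℝ) * Real.exp (-(Real.pi * |t| / 2)) ≤ ‖Gamma (6 + t * I)‖ := by
  have ht0 : 0 < |t| := by linarith
  have h := dn_gamLo_one' t ht
  have s1 := dn_gamLo_step 1 (by norm_num) t
  have s2 := dn_gamLo_step 2 (by norm_num) t
  have s3 := dn_gamLo_step 3 (by norm_num) t
  have s4 := dn_gamLo_step 4 (by norm_num) t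
  have s5 := dn_gamLo_step 5 (by norm_num) t
  norm_num at s1 s2 s3 s4 s5
  have e : |t| ^ (11 / 2 : ℝ) = |t| ^ 5 * |t| ^ (1 / 2 : ℝ) := by
    rw [← Real.rpow_natCast, ← Real.rpow_add ht0]; norm_num
  rw [e]
  calc |t| ^ 5 * |t| ^ (1 / 2 : ℝ) * Real.exp (-(Real.pi * |t| / 2))
      = |t| ^ 5 * (|t| ^ (1 / 2 : ℝ) * Real.exp (-(Real.pi * |t| / 2))) := by ring
    _ ≤ |t| ^ 5 * ‖Gamma (1 + t * I)‖ := mul_le_mul_of_nonneg_left h (by positivity)
    _ = |t| * (|t| * (|t| * (|t| * (|t| * ‖Gamma (1 + t * I)‖)))) := by ring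
    _ ≤ |t| * (|t| * (|t| * (|t| * ‖Gamma (2 + t * I)‖))) := by gcongr
    _ ≤ |t| * (|t| * (|t| * ‖Gamma (3 + t * I)‖)) := by gcongr
    _ ≤ |t| * (|t| * ‖Gamma (4 + t * I)‖) := by gcongr
    _ ≤ |t| * ‖Gamma (5 + t * I)‖ := by gcongr
    _ ≤ ‖Gamma (6 + t * I)‖ := s5

theorem dn_gamLo_main : ∃ c : ℝ, 0 < c ∧ ∀ σ t : ℝ, 0 ≤ σ → σ ≤ 1 → 1 ≤ |t| →
    c * |t| ^ (11 / 2 + σ) * Real.exp (-(Real.pi * |t| / 2)) ≤ ‖Gamma (6 + σ + t * I)‖ := by
  refine ⟨Real.exp (-21), Real.exp_pos _, fun σ t h0 h1 ht => ?_⟩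
  have ht0 : 0 < |t| := by linarith
  set s : ℂ := 6 + t * I with hs
  have hre : s.re = 6 := by simp [hs]
  have him : s.im = t := by simp [hs]
  have hsn : 6 ≤ ‖s‖ := by
    have := Complex.re_le_norm s
    rw [hre] at this; exact this
  have hst : |t| ≤ ‖s‖ := by
    have := Complex.abs_im_le_norm s
    rw [him] at this; exact this
  have hs0 : s ≠ 0 := by
    intro h; rw [h] at hre; simp at hre
  have hmono : ‖s‖ ≤ ‖s + (σ : ℂ)‖ := by
    rw [← sq_le_sq₀ (norm_nonneg _) (norm_nonneg _), ← Complex.normSq_eq_norm_sq,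
      ← Complex.normSq_eq_norm_sq, Complex.normSq_apply, Complex.normSq_apply]
    simp only [add_re, add_im, ofReal_re, ofReal_im, hre, him]
    nlinarith
  obtain ⟨g, hg, hG⟩ := Gamma_quot' (s := s) (v := (σ : ℂ)) (by rw [hre]; norm_num)
    (by simp only [add_re, hre, ofReal_re]; linarith) (by nlinarith [norm_nonneg s])
  have hσ : ‖(σ : ℂ)‖ = σ := by rw [Complex.norm_real, Real.norm_eq_abs, abs_of_nonneg h0]
  rw [hσ] at hg
  have hg21 : ‖g‖ ≤ 21 := by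
    refine hg.trans ?_
    rw [div_le_iff₀ (by linarith)]
    nlinarith
  have e1 : (6 + σ + t * I : ℂ) = s + σ := by rw [hs]; ring
  rw [e1, hG, norm_mul, norm_mul]
  have e2 : ‖cexp (σ * log s)‖ = ‖s‖ ^ σ := by
    rw [Complex.norm_exp]
    simp only [mul_re, ofReal_re, ofReal_im, zero_mul, sub_zero, log_re]
    rw [Real.rpow_def_of_pos (by linarith), mul_comm]
  have e3 : Real.exp (-21) ≤ ‖cexp g‖ := by
    rw [Complex.norm_exp]
    apply Real.exp_le_exp.2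
    have := Complex.abs_re_le_norm g
    have := (abs_le.1 this).1
    linarith
  have e4 : |t| ^ σ ≤ ‖s‖ ^ σ := Real.rpow_le_rpow ht0.le hst h0
  have e5 : |t| ^ (11 / 2 + σ) = |t| ^ (11 / 2 : ℝ) * |t| ^ σ := Real.rpow_add ht0 _ _
  rw [e2, e5]
  calc Real.exp (-21) * (|t| ^ (11 / 2 : ℝ) * |t| ^ σ) * Real.exp (-(Real.pi * |t| / 2))
      = (|t| ^ (11 / 2 : ℝ) * Real.exp (-(Real.pi * |t| / 2))) * |t| ^ σ * Real.exp (-21) := by ring
    _ ≤ ‖Gamma s‖ * ‖s‖ ^ σ * ‖cexp g‖ := by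
        gcongr
        exact dn_gamLo_six t ht

/-- Lower bound for the Gamma function. -/
theorem p_gamLo : S_gamLo := dn_gamLo_main

end Pool.Agent.Lib.MP_cd509c_nt.DN
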