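import Pool.Agent.Lib.MP_cd509c_nt.DN.Defs

/-!
# The Dirichlet inverse of `tau`
-/

set_option autoImplicit false

namespace Pool.Agent.Lib.MP_cd509c_nt.DN

open Finset

theorem dn_mufInv_pp {p : ℕ} (hp : p.Prime) {m : ℕ} (hm : ¬ p ∣ m) (k : ℕ) :
    tau (p ^ k * m) = tau (p ^ k) * tau m := by
  induction k using Nat.strong_induction_on with
  | _ k ih =>
    rcases k with _ | _ | k
    · simp [tau_one]
    · have h := hecke' hp m
      rw [if_neg hm, add_zero] at h
      simpa using h
    · have h1 := hecke' hp (p ^ (k + 1) * m)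
      have h2 := hecke' hp (p ^ (k + 1))
      have hd : p ∣ p ^ (k + 1) := dvd_pow_self p (Nat.succ_ne_zero k)
      rw [if_pos (Dvd.dvd.mul_right hd m)] at h1
      rw [if_pos hd] at h2
      have e1 : p * (p ^ (k + 1) * m) = p ^ (k + 1 + 1) * m := by ring
      have e2 : p * p ^ (k + 1) = p ^ (k + 1 + 1) := by ring
      have e3 : p ^ (k + 1) / p = p ^ k := by
        rw [pow_succ]; exact Nat.mul_div_cancel _ hp.pos
      have e4 : p ^ (k + 1) * m / p = p ^ k * m := by
        rw [pow_succ, show p ^ k * p * m = p ^ k * m * p by ring]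
        exact Nat.mul_div_cancel _ hp.pos
      rw [e1, e4] at h1
      rw [e2, e3] at h2
      rw [ih (k + 1) (by omega)] at h1
      rw [ih k (by omega)] at h1
      linear_combination h1 - tau m * h2

theorem dn_mufInv_mul (m : ℕ) : ∀ n : ℕ, m.Coprime n → tau (m * n) = tau m * tau n := by
  induction m using Nat.recOnPosPrimePosCoprime with
  | zero =>
    intro n _
    simp [tau_zero]
  | one =>
    intro n _
    simp [tau_one]
  | prime_pow p k hp hk =>
    intro n hn
    apply dn_mufInv_pp hp
    intro hd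
    have h1 : p ∣ p ^ k := dvd_pow_self p (by omega)
    have h2 : p ∣ Nat.gcd (p ^ k) n := Nat.dvd_gcd h1 hd
    rw [hn] at h2
    exact hp.one_lt.ne' (Nat.dvd_one.mp h2)
  | coprime a b ha hb hab iha ihb =>
    intro n hn
    have h1 : a.Coprime n := Nat.Coprime.coprime_mul_right hn
    have h2 : b.Coprime n := Nat.Coprime.coprime_mul_left hn
    rw [mul_assoc, iha (b * n) (Nat.Coprime.mul_right hab h1), ihb n h2, iha b hab, mul_assoc]

noncomputable def dn_mufInv_g : ArithmeticFunction ℂ := ⟨tau, tau_zero⟩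

noncomputable def dn_mufInv_h : ArithmeticFunction ℂ := ⟨muf, by simp [muf]⟩

theorem dn_mufInv_gm : dn_mufInv_g.IsMultiplicative :=
  ⟨tau_one, fun {m n} h => dn_mufInv_mul m n h⟩

theorem dn_mufInv_hm : dn_mufInv_h.IsMultiplicative := by
  rw [ArithmeticFunction.IsMultiplicative.iff_ne_zero]
  refine ⟨by simp [dn_mufInv_h, muf], ?_⟩
  intro m n hm hn h
  have hmn : m * n ≠ 0 := mul_ne_zero hm hn
  change muf (m * n) = muf m * muf n
  unfold muf
  rw [if_neg hm, if_neg hn, if_neg hmn, h.primeFactors_mul,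
    Finset.prod_union h.disjoint_primeFactors]
  congr 1
  · refine Finset.prod_congr rfl fun p hp => ?_
    rw [Nat.factorization_eq_of_coprime_left h (by simpa using hp)]
  · refine Finset.prod_congr rfl fun p hp => ?_
    rw [Nat.factorization_eq_of_coprime_right h (by simpa using hp)]

theorem dn_mufInv_hpp {p : ℕ} (hp : p.Prime) (k : ℕ) : muf (p ^ k) = cf p k := by
  unfold muf
  rw [if_neg (pow_ne_zero _ hp.ne_zero)]
  rcases Nat.eq_zero_or_pos k with h | h
  · subst h; simp [cf]
  · rw [Nat.primeFactors_prime_pow h.ne' hp, Finset.prod_singleton, hp.factorization_pow]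
    simp

theorem dn_mufInv_gpp {p : ℕ} (hp : p.Prime) (k : ℕ) :
    (dn_mufInv_h * dn_mufInv_g) (p ^ k) = (1 : ArithmeticFunction ℂ) (p ^ k) := by
  rw [ArithmeticFunction.mul_apply, Nat.sum_divisorsAntidiagonal
    (f := fun x y => dn_mufInv_h x * dn_mufInv_g y), Nat.sum_divisors_prime_pow hp]
  have hs : ∀ i ∈ range (k + 1), dn_mufInv_h (p ^ i) * dn_mufInv_g (p ^ k / p ^ i) =
      cf p i * tau (p ^ (k - i)) := by
    intro i hi
    rw [Nat.pow_div (by rw [mem_range] at hi; omega) hp.pos]
    change muf (p ^ i) * tau (p ^ (k - i)) = _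
    rw [dn_mufInv_hpp hp]
  rw [Finset.sum_congr rfl hs]
  rcases k with _ | _ | k
  · simp [cf, tau_one]
  · rw [Finset.sum_range_succ, Finset.sum_range_succ, Finset.sum_range_zero]
    rw [ArithmeticFunction.one_apply_ne (by simpa using hp.one_lt.ne')]
    simp [cf, tau_one]
  · rw [ArithmeticFunction.one_apply_ne (by
      intro h
      have := Nat.one_lt_pow (n := k + 1 + 1) (by omega) hp.one_lt
      omega)]
    rw [← Finset.sum_subset (s₁ := range 3) (by
      intro x hx; rw [mem_range] at hx ⊢; omega)]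
    · rw [Finset.sum_range_succ, Finset.sum_range_succ, Finset.sum_range_succ,
        Finset.sum_range_zero]
      have h2 := hecke' hp (p ^ (k + 1))
      have hd : p ∣ p ^ (k + 1) := dvd_pow_self p (Nat.succ_ne_zero k)
      rw [if_pos hd] at h2
      have e2 : p * p ^ (k + 1) = p ^ (k + 1 + 1) := by ring
      have e3 : p ^ (k + 1) / p = p ^ k := by
        rw [pow_succ]; exact Nat.mul_div_cancel _ hp.pos
      rw [e2, e3] at h2
      have e4 : k + 1 + 1 - 1 = k + 1 := by omega
      have e5 : k + 1 + 1 - 2 = k := by omega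
      rw [e4, e5, Nat.sub_zero]
      simp only [cf]
      norm_num
      linear_combination h2
    · intro x _ hx
      rw [mem_range] at hx
      have h1 : x ≠ 0 := by omega
      have h2 : x ≠ 1 := by omega
      have h3 : x ≠ 2 := by omega
      simp [cf, h1, h2, h3]

theorem p_mufInv : S_mufInv := by
  intro n hn
  have h : dn_mufInv_h * dn_mufInv_g = 1 := by
    rw [ArithmeticFunction.IsMultiplicative.eq_iff_eq_on_prime_powers _
      (dn_mufInv_hm.mul dn_mufInv_gm) _ ArithmeticFunction.isMultiplicative_one]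
    intro p k hp
    exact dn_mufInv_gpp hp k
  have h1 := congrArg (fun F : ArithmeticFunction ℂ => F n) h
  change (dn_mufInv_h * dn_mufInv_g) n = (1 : ArithmeticFunction ℂ) n at h1
  rw [ArithmeticFunction.mul_apply, Nat.sum_divisorsAntidiagonal
    (f := fun x y => dn_mufInv_h x * dn_mufInv_g y), ArithmeticFunction.one_apply] at h1
  exact h1

end Pool.Agent.Lib.MP_cd509c_nt.DN
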