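import Pool.Agent.Lib.MP_cd509c_nt.DN.Defs
import Pool.Agent.Lib.MP_cd509c_nt.Hecke

set_option autoImplicit false

/-!
Project DN, piece `mufSum`: absolute convergence of the Dirichlet series of the inverse of `tau`.
-/

namespace Pool.Agent.Lib.MP_cd509c_nt.DN

open Complex Finset

/-- `tau` is multiplicative on squarefree numbers. -/
private lemma dn_mufSum_tau_prod (S : Finset ℕ) (hS : ∀ p ∈ S, p.Prime) :
    tau (∏ p ∈ S, p) = ∏ p ∈ S, tau p := by
  classical
  induction S using Finset.induction_on with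
  | empty => simp [tau_one]
  | insert a S ha ih =>
    rw [Finset.prod_insert ha, Finset.prod_insert ha, ← ih fun p hp => hS p (mem_insert_of_mem hp)]
    have hap : a.Prime := hS a (mem_insert_self a S)
    have h1 := hecke' hap (∏ p ∈ S, p)
    rw [if_neg, add_zero] at h1
    · exact h1
    · intro h
      obtain ⟨q, hq, hq2⟩ := (Prime.dvd_finsetProd_iff hap.prime _).1 h
      have h3 := (Nat.prime_dvd_prime_iff_eq hap (hS q (mem_insert_of_mem hq))).1 hq2
      exact ha (h3 ▸ hq)

private noncomputable def dn_mufSum_b1 (n : ℕ) : ℕ :=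
  ∏ p ∈ n.primeFactors.filter (fun p => n.factorization p = 1), p

private noncomputable def dn_mufSum_b2 (n : ℕ) : ℕ :=
  ∏ p ∈ n.primeFactors.filter (fun p => ¬ n.factorization p = 1), p

private lemma dn_mufSum_ne {n : ℕ} (h : muf n ≠ 0) :
    n ≠ 0 ∧ ∀ p ∈ n.primeFactors, n.factorization p = 1 ∨ n.factorization p = 2 := by
  unfold muf at h
  split_ifs at h with h0
  · exact absurd rfl h
  refine ⟨h0, fun p hp => ?_⟩
  have h1 := Finset.prod_ne_zero_iff.1 h p hp
  unfold cf at h1
  have h2 : n.factorization p ≠ 0 := by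
    have h3 := Nat.mem_primeFactors.1 hp
    have h4 := h3.1.factorization_pos_of_dvd h3.2.2 h3.2.1
    omega
  rw [if_neg h2] at h1
  by_contra hc
  push Not at hc
  rw [if_neg hc.1, if_neg hc.2] at h1
  exact h1 rfl

private lemma dn_mufSum_eq {n : ℕ} (h : muf n ≠ 0) :
    dn_mufSum_b1 n * dn_mufSum_b2 n ^ 2 = n ∧
      ‖muf n‖ = ‖tau (dn_mufSum_b1 n)‖ * (dn_mufSum_b2 n : ℝ) ^ 11 := by
  obtain ⟨h0, h1⟩ := dn_mufSum_ne h
  constructor
  · conv_rhs => rw [← Nat.prod_factorization_pow_eq_self h0]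
    rw [Finsupp.prod, Nat.support_factorization,
      ← Finset.prod_filter_mul_prod_filter_not n.primeFactors (fun p => n.factorization p = 1)]
    unfold dn_mufSum_b1 dn_mufSum_b2
    rw [← Finset.prod_pow]
    congr 1
    · apply Finset.prod_congr rfl
      intro p hp
      rw [(Finset.mem_filter.1 hp).2, pow_one]
    · apply Finset.prod_congr rfl
      intro p hp
      have h2 := Finset.mem_filter.1 hp
      rcases h1 p h2.1 with h3 | h3
      · exact absurd h3 h2.2
      · rw [h3]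
  · have e1 : ‖muf n‖ = ∏ p ∈ n.primeFactors, ‖cf p (n.factorization p)‖ := by
      unfold muf
      rw [if_neg h0, norm_prod]
    rw [e1, ← Finset.prod_filter_mul_prod_filter_not n.primeFactors
      (fun p => n.factorization p = 1)]
    unfold dn_mufSum_b1 dn_mufSum_b2
    rw [dn_mufSum_tau_prod _ fun p hp => Nat.prime_of_mem_primeFactors (Finset.mem_filter.1 hp).1,
      norm_prod]
    push_cast
    rw [← Finset.prod_pow]
    congr 1
    · apply Finset.prod_congr rfl
      intro p hp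
      rw [(Finset.mem_filter.1 hp).2]
      simp [cf]
    · apply Finset.prod_congr rfl
      intro p hp
      have h2 := Finset.mem_filter.1 hp
      rcases h1 p h2.1 with h3 | h3
      · exact absurd h3 h2.2
      · rw [h3]
        simp [cf]

theorem p_mufSum : S_mufSum := by
  intro σ hσ
  have hs1 := tau_summable hσ
  have hs2 : Summable fun b : ℕ => (b : ℝ) ^ 11 / ((b : ℝ) ^ σ) ^ 2 := by
    have h1 : Summable fun b : ℕ => (b : ℝ) ^ (11 - 2 * σ) :=
      Real.summable_nat_rpow.2 (by linarith only [hσ])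
    refine h1.congr fun b => ?_
    rcases Nat.eq_zero_or_pos b with hb | hb
    · rw [hb, Nat.cast_zero, Real.zero_rpow (by linarith only [hσ])]
      simp
    · have hb0 : (0 : ℝ) < b := by exact_mod_cast hb
      rw [Real.rpow_sub hb0, ← Real.rpow_natCast ((b : ℝ) ^ σ) 2, ← Real.rpow_mul hb0.le,
        ← Real.rpow_natCast (b : ℝ) 11]
      norm_num
      ring_nf
  have hs : Summable fun x : ℕ × ℕ =>
      ‖tau x.1‖ / (x.1 : ℝ) ^ σ * ((x.2 : ℝ) ^ 11 / ((x.2 : ℝ) ^ σ) ^ 2) :=
    hs1.mul_of_nonneg hs2 (fun a => by positivity) (fun b => by positivity)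
  let U : Set ℕ := {n | muf n ≠ 0}
  let i : U → ℕ × ℕ := fun n => (dn_mufSum_b1 n, dn_mufSum_b2 n)
  have hi : Function.Injective i := by
    intro a b hab
    have h1 := (dn_mufSum_eq a.2).1
    have h2 := (dn_mufSum_eq b.2).1
    have h3 : dn_mufSum_b1 a = dn_mufSum_b1 b := congrArg Prod.fst hab
    have h4 : dn_mufSum_b2 a = dn_mufSum_b2 b := congrArg Prod.snd hab
    apply Subtype.ext
    rw [← h1, ← h2, h3, h4]
  have h5 := hs.comp_injective hi
  have h6 : Summable (U.indicator fun n : ℕ => ‖muf n‖ / (n : ℝ) ^ σ) := by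
    rw [← summable_subtype_iff_indicator]
    refine h5.congr fun n => ?_
    obtain ⟨e1, e2⟩ := dn_mufSum_eq n.2
    show ‖tau (dn_mufSum_b1 n)‖ / (dn_mufSum_b1 n : ℝ) ^ σ *
      ((dn_mufSum_b2 n : ℝ) ^ 11 / ((dn_mufSum_b2 n : ℝ) ^ σ) ^ 2) =
      ‖muf n‖ / ((n : ℕ) : ℝ) ^ σ
    have e3 : (((n : ℕ)) : ℝ) ^ σ = (dn_mufSum_b1 n : ℝ) ^ σ * ((dn_mufSum_b2 n : ℝ) ^ σ) ^ 2 := by
      conv_lhs => rw [← e1]
      push_cast
      rw [Real.mul_rpow (Nat.cast_nonneg _) (by positivity), ← Real.rpow_natCast, ← Real.rpow_mul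
        (Nat.cast_nonneg _), ← Real.rpow_natCast, ← Real.rpow_mul (Nat.cast_nonneg _)]
      ring_nf
    rw [e2, e3, div_mul_div_comm]
  refine h6.congr fun n => ?_
  by_cases hn : muf n = 0
  · rw [Set.indicator_of_notMem (by simpa [U] using hn), hn, norm_zero, zero_div]
  · rw [Set.indicator_of_mem (show n ∈ U from hn)]

end Pool.Agent.Lib.MP_cd509c_nt.DN
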