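import Pool.Agent.Lib.MP_cd509c_nt.DN.Defs3

/-!
Project DN, piece Dr: the proportion form of the final statement for the derivatives.
-/

set_option autoImplicit false

namespace Pool.Agent.Lib.MP_cd509c_nt.DN

open Complex ComplexConjugate MeasureTheory

theorem p_Dr (hD : S_D (fun _ => 1)) (hr : S_realD) : S_Dr := by
  obtain ⟨C₁, c₁, hC₁, hc₁, hD⟩ := hD
  obtain ⟨C₀, hC₀, hreal⟩ := deriv_zeros_real
  obtain ⟨C₂, c₂, T₀, hC₂, hc₂, hT₀, hr⟩ := hr (max 1 (2 * C₀)) (le_max_left _ _)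
  obtain ⟨K, hK⟩ : ∃ K : ℝ, K = C₁ + C₀ + C₂ + C₀ * Real.log (2 * T₀) + C₀ * Real.log 4 +
      C₁ * (4 / c₂) := ⟨_, rfl⟩
  have hl1 : 0 ≤ Real.log (2 * T₀) := Real.log_nonneg (by linarith)
  have hl4 : 0 ≤ Real.log 4 := Real.log_nonneg (by norm_num)
  have hp1 : 0 ≤ C₀ * Real.log (2 * T₀) := by positivity
  have hp2 : 0 ≤ C₀ * Real.log 4 := by positivity
  have hp3 : 0 < C₁ * (4 / c₂) := by positivity
  have hK0 : 0 < K := by rw [hK]; linarith
  refine ⟨K, c₁, hK0, hc₁, fun n hn T hT S hS => ?_⟩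
  rcases S.eq_empty_or_nonempty with rfl | ⟨z, hz⟩
  · refine ⟨∅, by simp, by simp⟩
  obtain ⟨hz0, hzi, hzr⟩ := hS z hz
  have hexp : Real.exp (n / C₀) < T := by
    by_contra h
    rw [not_lt] at h
    exact hzi (hreal n (by rw [hK] at hn; linarith) z hz0 (hzr.trans h))
  have hT0 : 0 < T := by linarith
  have hlog : (n : ℝ) / C₀ < Real.log T := (Real.lt_log_iff_exp_lt hT0).2 hexp
  rw [div_lt_iff₀ hC₀] at hlog
  have hT1 : 2 * T₀ ≤ T := by
    have h1 : C₀ * Real.log (2 * T₀) < C₀ * Real.log T := by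
      rw [hK] at hn
      linarith
    have h2 := lt_of_mul_lt_mul_left h1 hC₀.le
    exact ((Real.log_lt_log_iff (by linarith) hT0).1 h2).le
  have hT4 : 4 ≤ T := by linarith
  have hlog2 : Real.log T / 2 ≤ Real.log (T / 2) := by
    have h1 : Real.log T = Real.log (T / 2) + Real.log 2 := by
      rw [← Real.log_mul (by positivity) (by norm_num)]
      congr 1
      ring
    have h2 : Real.log 2 ≤ Real.log (T / 2) := Real.log_le_log (by norm_num) (by linarith)
    linarith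
  have hlT : 0 < Real.log T := Real.log_pos (by linarith)
  have hnA : (n : ℝ) ≤ max 1 (2 * C₀) * Real.log (T / 2) := by
    calc (n : ℝ) ≤ (2 * C₀) * (Real.log T / 2) := by linarith
      _ ≤ max 1 (2 * C₀) * Real.log (T / 2) :=
        mul_le_mul (le_max_right _ _) hlog2 (by positivity) (le_trans zero_le_one (le_max_left _ _))
  obtain ⟨S', hS', hcard⟩ := hr n (T / 2) (by linarith) (by rw [hK] at hn; linarith) hnA
  refine ⟨S', fun x hx => ?_, ?_⟩
  · obtain ⟨h1, h2, h3⟩ := hS' x hx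
    exact ⟨by rw [abs_le]; constructor <;> linarith, h3⟩
  · have h1 := hD n (by rw [hK] at hn; linarith) T hT S hS
    refine h1.trans ?_
    have h2 : T * Real.log T ≤ 4 / c₂ * (S'.card : ℝ) := by
      have h3 : c₂ * (T * Real.log T) / 4 ≤ c₂ * (T / 2) * Real.log (T / 2) := by
        calc c₂ * (T * Real.log T) / 4 = c₂ * (T / 2) * (Real.log T / 2) := by ring
          _ ≤ _ := mul_le_mul_of_nonneg_left hlog2 (by positivity)
      have h4 := h3.trans hcard
      rw [div_mul_eq_mul_div, le_div_iff₀ hc₂]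
      linarith
    have h5 : C₁ * (4 / c₂) ≤ K := by rw [hK]; linarith
    have hx : 0 < Real.exp (-(c₁ * n)) := Real.exp_pos _
    calc C₁ * T * Real.log T * 1 * Real.exp (-(c₁ * n))
        = C₁ * (T * Real.log T) * Real.exp (-(c₁ * n)) := by ring
      _ ≤ C₁ * (4 / c₂ * (S'.card : ℝ)) * Real.exp (-(c₁ * n)) := by gcongr
      _ = (C₁ * (4 / c₂)) * Real.exp (-(c₁ * n)) * (S'.card : ℝ) := by ring
      _ ≤ K * Real.exp (-(c₁ * n)) * (S'.card : ℝ) := by gcongr

end Pool.Agent.Lib.MP_cd509c_nt.DN
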