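import Pool.Agent.Lib.MP_cd509c_nt.DN.Defs2

/-!
# Stage 2, piece E1: the basic bound for `L(w) / L(w + s)`
-/

set_option autoImplicit false

namespace Pool.Agent.Lib.MP_cd509c_nt.DN

open Finset

/-! ### Arithmetic functions -/

noncomputable def dn_E1_g : ArithmeticFunction ℂ := ⟨tau, tau_zero⟩

noncomputable def dn_E1_h (s : ℂ) : ArithmeticFunction ℂ :=
  ⟨fun n => muf n * (n : ℂ) ^ (-s), by simp [muf]⟩

theorem dn_E1_gm (htm : S_tm) : dn_E1_g.IsMultiplicative :=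
  ⟨tau_one, fun {m n} h => htm.1 m n h⟩

theorem dn_E1_muf {m n : ℕ} (hm : m ≠ 0) (hn : n ≠ 0) (h : m.Coprime n) :
    muf (m * n) = muf m * muf n := by
  have hmn : m * n ≠ 0 := mul_ne_zero hm hn
  unfold muf
  rw [if_neg hm, if_neg hn, if_neg hmn, h.primeFactors_mul,
    Finset.prod_union h.disjoint_primeFactors]
  congr 1
  · refine Finset.prod_congr rfl fun p hp => ?_
    rw [Nat.factorization_eq_of_coprime_left h (by simpa using hp)]
  · refine Finset.prod_congr rfl fun p hp => ?_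
    rw [Nat.factorization_eq_of_coprime_right h (by simpa using hp)]

theorem dn_E1_hm (s : ℂ) : (dn_E1_h s).IsMultiplicative := by
  rw [ArithmeticFunction.IsMultiplicative.iff_ne_zero]
  refine ⟨by simp [dn_E1_h, muf], ?_⟩
  intro m n hm hn h
  change muf (m * n) * ((m * n : ℕ) : ℂ) ^ (-s) = muf m * (m : ℂ) ^ (-s) * (muf n * (n : ℂ) ^ (-s))
  rw [dn_E1_muf hm hn h, Nat.cast_mul, Complex.natCast_mul_natCast_cpow]
  ring

theorem dn_E1_mpp {p : ℕ} (hp : p.Prime) (k : ℕ) : muf (p ^ k) = cf p k := by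
  unfold muf
  rw [if_neg (pow_ne_zero _ hp.ne_zero)]
  rcases Nat.eq_zero_or_pos k with h | h
  · subst h; simp [cf]
  · rw [Nat.primeFactors_prime_pow h.ne' hp, Finset.prod_singleton, hp.factorization_pow]
    simp

theorem dn_E1_ad (s : ℂ) (k : ℕ) : ad s k = (dn_E1_h s * dn_E1_g) k := by
  rw [ArithmeticFunction.mul_apply, Nat.sum_divisorsAntidiagonal
    (f := fun x y => dn_E1_h s x * dn_E1_g y)]
  rfl

theorem dn_E1_ad_mul (htm : S_tm) (s : ℂ) {m n : ℕ} (h : m.Coprime n) :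
    ad s (m * n) = ad s m * ad s n := by
  rw [dn_E1_ad, dn_E1_ad, dn_E1_ad]
  exact ((dn_E1_hm s).mul (dn_E1_gm htm)).map_mul_of_coprime h

theorem dn_E1_ad_one (htm : S_tm) (s : ℂ) : ad s 1 = 1 := by
  rw [dn_E1_ad]
  exact ((dn_E1_hm s).mul (dn_E1_gm htm)).map_one

theorem dn_E1_ad_zero (s : ℂ) : ad s 0 = 0 := by
  simp [ad]

theorem dn_E1_ad_p {p : ℕ} (hp : p.Prime) (s : ℂ) :
    ad s p = (1 - (p : ℂ) ^ (-s)) * tau p := by
  unfold ad
  rw [hp.divisors, Finset.sum_pair hp.one_lt.ne, Nat.div_one, Nat.div_self hp.pos, tau_one]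
  have h1 : muf 1 = 1 := by simp [muf]
  have h2 : muf p = -tau p := by
    have := dn_E1_mpp hp 1
    rw [pow_one] at this
    rw [this]
    simp [cf]
  rw [h1, h2]
  simp
  ring

theorem dn_E1_ad_pp (htm : S_tm) {p : ℕ} (hp : p.Prime) (s : ℂ) (j : ℕ) :
    ad s (p ^ (j + 2)) = (1 - (p : ℂ) ^ (-s)) * (tau p * tau (p ^ (j + 1)) -
      (p : ℂ) ^ 11 * (1 + (p : ℂ) ^ (-s)) * tau (p ^ j)) := by
  unfold ad
  rw [Nat.sum_divisors_prime_pow hp]
  have hs : ∀ i ∈ range (j + 2 + 1), muf (p ^ i) * ((p ^ i : ℕ) : ℂ) ^ (-s) *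
      tau (p ^ (j + 2) / p ^ i) = cf p i * ((p ^ i : ℕ) : ℂ) ^ (-s) * tau (p ^ (j + 2 - i)) := by
    intro i hi
    rw [Nat.pow_div (by rw [mem_range] at hi; omega) hp.pos, dn_E1_mpp hp]
  rw [Finset.sum_congr rfl hs, ← Finset.sum_subset (s₁ := range 3) (by
      intro x hx; rw [mem_range] at hx ⊢; omega)]
  · rw [Finset.sum_range_succ, Finset.sum_range_succ, Finset.sum_range_succ,
      Finset.sum_range_zero]
    have h2 := htm.2.1 p hp j
    have e4 : j + 2 - 1 = j + 1 := by omega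
    have e5 : j + 2 - 2 = j := by omega
    have e6 : ((p ^ 2 : ℕ) : ℂ) ^ (-s) = (p : ℂ) ^ (-s) * (p : ℂ) ^ (-s) := by
      rw [pow_two, Nat.cast_mul, Complex.natCast_mul_natCast_cpow]
    rw [e4, e5, Nat.sub_zero, e6, h2]
    simp only [cf]
    norm_num
    ring
  · intro x _ hx
    rw [mem_range] at hx
    have h1 : x ≠ 0 := by omega
    have h2 : x ≠ 1 := by omega
    have h3 : x ≠ 2 := by omega
    simp [cf, h1, h2, h3]

/-! ### The local factors -/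

/-- the terms of the series -/
noncomputable def dn_E1_f (s : ℂ) (η : ℝ) (k : ℕ) : ℝ := ‖ad s k‖ ^ 2 * (k : ℝ) ^ (-(12 + η))

theorem dn_E1_f_nonneg (s : ℂ) (η : ℝ) (k : ℕ) : 0 ≤ dn_E1_f s η k := by
  unfold dn_E1_f
  positivity

theorem dn_E1_rp {p : ℕ} (hp : p.Prime) {η : ℝ} (hη : 0 ≤ η) {m : ℕ} (hm : 1 ≤ m) :
    ((p ^ m : ℕ) : ℝ) ^ (-(12 + η)) ≤ (p : ℝ) ^ (-η) / (p : ℝ) ^ (12 * m) := by
  have hq : (1 : ℝ) ≤ p := by exact_mod_cast hp.one_lt.le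
  have hq0 : (0 : ℝ) < p := by linarith
  have hpm : (0 : ℝ) < (p : ℝ) ^ m := by positivity
  rw [Nat.cast_pow, neg_add, Real.rpow_add hpm]
  have e1 : ((p : ℝ) ^ m) ^ (-12 : ℝ) = 1 / (p : ℝ) ^ (12 * m) := by
    have e0 : ((p : ℝ) ^ m) ^ (12 : ℝ) = ((p : ℝ) ^ m) ^ (12 : ℕ) := by
      rw [← Real.rpow_natCast]
      norm_num
    rw [Real.rpow_neg hpm.le, e0, ← pow_mul, mul_comm m 12, one_div]
  have e2 : ((p : ℝ) ^ m) ^ (-η) ≤ (p : ℝ) ^ (-η) := by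
    refine Real.rpow_le_rpow_of_nonpos hq0 ?_ (by linarith)
    calc (p : ℝ) = (p : ℝ) ^ 1 := (pow_one _).symm
      _ ≤ (p : ℝ) ^ m := pow_le_pow_right₀ hq hm
  rw [e1]
  calc 1 / (p : ℝ) ^ (12 * m) * ((p : ℝ) ^ m) ^ (-η) ≤ 1 / (p : ℝ) ^ (12 * m) * (p : ℝ) ^ (-η) :=
        mul_le_mul_of_nonneg_left e2 (by positivity)
    _ = _ := by ring

theorem dn_E1_loc (htm : S_tm) {p : ℕ} (hp : p.Prime) {s : ℂ} (hs : 0 ≤ s.re) {η C1 : ℝ}
    (hη : 0 ≤ η) (hsum : Summable fun j : ℕ => ‖tau (p ^ j)‖ ^ 2 / (p : ℝ) ^ (12 * j))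
    (hC : ∑' j : ℕ, ‖tau (p ^ j)‖ ^ 2 / (p : ℝ) ^ (12 * j) ≤ C1) :
    Summable (fun j : ℕ => dn_E1_f s η (p ^ j)) ∧
    ∑' j : ℕ, dn_E1_f s η (p ^ j) ≤ 1 + (1 + 8 * C1) * (‖1 - (p : ℂ) ^ (-s)‖ ^ 2 *
      (p : ℝ) ^ (-η) * (‖tau p‖ ^ 2 / (p : ℝ) ^ 12 + 1 / (p : ℝ) ^ 2)) := by
  have hq : (1 : ℝ) ≤ p := by exact_mod_cast hp.one_lt.le
  have hq0 : (0 : ℝ) < p := by linarith
  obtain ⟨t, ht⟩ : ∃ t : ℕ → ℝ, ∀ j, t j = ‖tau (p ^ j)‖ ^ 2 / (p : ℝ) ^ (12 * j) :=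
    ⟨fun j => ‖tau (p ^ j)‖ ^ 2 / (p : ℝ) ^ (12 * j), fun _ => rfl⟩
  have ht0 : ∀ j, 0 ≤ t j := fun j => by rw [ht]; positivity
  have hts : Summable t := by
    refine hsum.congr fun j => ?_
    rw [ht]
  have htC : ∑' j, t j ≤ C1 := by
    rw [tsum_congr ht]
    exact hC
  obtain ⟨D, hD⟩ : ∃ D : ℝ, D = ‖1 - (p : ℂ) ^ (-s)‖ ^ 2 * (p : ℝ) ^ (-η) := ⟨_, rfl⟩
  have hD0 : 0 ≤ D := by rw [hD]; positivity
  have hu : ‖(p : ℂ) ^ (-s)‖ ≤ 1 := by
    rw [Complex.norm_natCast_cpow_of_pos hp.pos, Complex.neg_re]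
    exact Real.rpow_le_one_of_one_le_of_nonpos hq (by linarith)
  have hu2 : ‖1 + (p : ℂ) ^ (-s)‖ ≤ 2 := by
    refine (norm_add_le _ _).trans ?_
    rw [norm_one]
    linarith
  -- the terms
  have h2 : ∀ j, dn_E1_f s η (p ^ (j + 2)) ≤
      D * (2 * t 1 * t (j + 1) + 8 * (1 / (p : ℝ) ^ 2) * t j) := by
    intro j
    unfold dn_E1_f
    have h3 : ‖ad s (p ^ (j + 2))‖ ^ 2 ≤ ‖1 - (p : ℂ) ^ (-s)‖ ^ 2 *
        (2 * (‖tau p‖ ^ 2 * ‖tau (p ^ (j + 1))‖ ^ 2) +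
          8 * ((p : ℝ) ^ 22 * ‖tau (p ^ j)‖ ^ 2)) := by
      rw [dn_E1_ad_pp htm hp, norm_mul, mul_pow]
      refine mul_le_mul_of_nonneg_left ?_ (by positivity)
      have h4 : ‖tau p * tau (p ^ (j + 1)) - (p : ℂ) ^ 11 * (1 + (p : ℂ) ^ (-s)) * tau (p ^ j)‖ ≤
          ‖tau p‖ * ‖tau (p ^ (j + 1))‖ + (p : ℝ) ^ 11 * 2 * ‖tau (p ^ j)‖ := by
        refine (norm_sub_le _ _).trans ?_
        rw [norm_mul, norm_mul, norm_mul, norm_pow, Complex.norm_natCast]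
        have := mul_le_mul_of_nonneg_left hu2 (show (0 : ℝ) ≤ (p : ℝ) ^ 11 by positivity)
        have := mul_le_mul_of_nonneg_right this (norm_nonneg (tau (p ^ j)))
        linarith
      refine (pow_le_pow_left₀ (norm_nonneg _) h4 2).trans ?_
      nlinarith [sq_nonneg (‖tau p‖ * ‖tau (p ^ (j + 1))‖ - (p : ℝ) ^ 11 * 2 * ‖tau (p ^ j)‖)]
    have h5 := dn_E1_rp hp hη (m := j + 2) (by omega)
    refine (mul_le_mul h3 h5 (by positivity) (by positivity)).trans (le_of_eq ?_)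
    rw [hD, ht, ht, ht]
    have e1 : (p : ℝ) ^ (12 * (j + 2)) = (p : ℝ) ^ (12 * 1) * (p : ℝ) ^ (12 * (j + 1)) := by
      rw [← pow_add]; congr 1; ring
    have e2 : (p : ℝ) ^ (12 * (j + 2)) = (p : ℝ) ^ 22 * ((p : ℝ) ^ 2 * (p : ℝ) ^ (12 * j)) := by
      rw [← pow_add, ← pow_add]; congr 1; ring
    have e3 : ‖tau p‖ ^ 2 * ‖tau (p ^ (j + 1))‖ ^ 2 / (p : ℝ) ^ (12 * (j + 2)) =
        ‖tau (p ^ 1)‖ ^ 2 / (p : ℝ) ^ (12 * 1) * (‖tau (p ^ (j + 1))‖ ^ 2 /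
          (p : ℝ) ^ (12 * (j + 1))) := by
      rw [e1, pow_one p]
      ring
    have e4 : (p : ℝ) ^ 22 * ‖tau (p ^ j)‖ ^ 2 / (p : ℝ) ^ (12 * (j + 2)) =
        1 / (p : ℝ) ^ 2 * (‖tau (p ^ j)‖ ^ 2 / (p : ℝ) ^ (12 * j)) := by
      rw [e2]
      field_simp
    calc ‖1 - (p : ℂ) ^ (-s)‖ ^ 2 * (2 * (‖tau p‖ ^ 2 * ‖tau (p ^ (j + 1))‖ ^ 2) +
          8 * ((p : ℝ) ^ 22 * ‖tau (p ^ j)‖ ^ 2)) * ((p : ℝ) ^ (-η) / (p : ℝ) ^ (12 * (j + 2)))
        = ‖1 - (p : ℂ) ^ (-s)‖ ^ 2 * (p : ℝ) ^ (-η) *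
          (2 * (‖tau p‖ ^ 2 * ‖tau (p ^ (j + 1))‖ ^ 2 / (p : ℝ) ^ (12 * (j + 2))) +
          8 * ((p : ℝ) ^ 22 * ‖tau (p ^ j)‖ ^ 2 / (p : ℝ) ^ (12 * (j + 2)))) := by ring
      _ = _ := by rw [e3, e4]; ring
  have hts1 : Summable fun j => t (j + 1) := (summable_nat_add_iff 1).mpr hts
  have hbs : Summable fun j => D * (2 * t 1 * t (j + 1) + 8 * (1 / (p : ℝ) ^ 2) * t j) :=
    ((hts1.mul_left _).add (hts.mul_left _)).mul_left _
  have hs2 : Summable fun j => dn_E1_f s η (p ^ (j + 2)) :=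
    Summable.of_nonneg_of_le (fun j => dn_E1_f_nonneg _ _ _) h2 hbs
  have hs0 : Summable (fun j : ℕ => dn_E1_f s η (p ^ j)) := (summable_nat_add_iff 2).mp hs2
  refine ⟨hs0, ?_⟩
  rw [← hs0.sum_add_tsum_nat_add 2, Finset.sum_range_succ, Finset.sum_range_succ,
    Finset.sum_range_zero, zero_add]
  have f0 : dn_E1_f s η (p ^ 0) = 1 := by
    unfold dn_E1_f
    rw [pow_zero, dn_E1_ad_one htm]
    simp
  have f1 : dn_E1_f s η (p ^ 1) ≤ D * t 1 := by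
    unfold dn_E1_f
    have h5 := dn_E1_rp hp hη (m := 1) le_rfl
    rw [pow_one] at h5 ⊢
    rw [dn_E1_ad_p hp, norm_mul, mul_pow]
    refine (mul_le_mul_of_nonneg_left h5 (by positivity)).trans (le_of_eq ?_)
    rw [hD, ht, pow_one]
    ring
  have f2 : ∑' j, dn_E1_f s η (p ^ (j + 2)) ≤ D * (2 * t 1 * C1 + 8 * (1 / (p : ℝ) ^ 2) * C1) := by
    refine (Summable.tsum_le_tsum h2 hs2 hbs).trans ?_
    rw [tsum_mul_left, Summable.tsum_add (hts1.mul_left _) (hts.mul_left _), tsum_mul_left,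
      tsum_mul_left]
    refine mul_le_mul_of_nonneg_left ?_ hD0
    have h6 : ∑' j, t (j + 1) ≤ C1 := by
      have := hts.sum_add_tsum_nat_add 1
      rw [Finset.sum_range_one] at this
      have := ht0 0
      linarith
    have h7 := mul_le_mul_of_nonneg_left h6 (show 0 ≤ 2 * t 1 by have := ht0 1; positivity)
    have h8 := mul_le_mul_of_nonneg_left htC (show 0 ≤ 8 * (1 / (p : ℝ) ^ 2) by positivity)
    linarith
  have hC10 : 0 ≤ C1 := (tsum_nonneg ht0).trans htC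
  have t1 : ‖tau p‖ ^ 2 / (p : ℝ) ^ 12 = t 1 := by rw [ht, pow_one, mul_one]
  rw [f0, t1, ← hD]
  have ht1 := ht0 1
  have h9 : D * t 1 + D * (2 * t 1 * C1 + 8 * (1 / (p : ℝ) ^ 2) * C1) ≤
      (1 + 8 * C1) * (D * (t 1 + 1 / (p : ℝ) ^ 2)) := by
    have i1 : 0 ≤ D * t 1 * C1 := by positivity
    have i2 : 0 ≤ D * (1 / (p : ℝ) ^ 2) := by positivity
    nlinarith
  linarith

/-! ### From the local factors to partial sums -/

theorem dn_E1_part (htm : S_tm) {s : ℂ} {η : ℝ}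
    (hsum : ∀ p : ℕ, p.Prime → Summable (fun j : ℕ => dn_E1_f s η (p ^ j))) {E : ℕ → ℝ}
    (hE : ∀ p : ℕ, p.Prime → ∑' j : ℕ, dn_E1_f s η (p ^ j) ≤ 1 + E p) (N : ℕ) :
    ∑ k ∈ range N, dn_E1_f s η k ≤ Real.exp (∑ p ∈ N.primesBelow, E p) := by
  have hf1 : dn_E1_f s η 1 = 1 := by
    unfold dn_E1_f
    rw [dn_E1_ad_one htm]
    simp
  have hmul : ∀ {m n : ℕ}, m.Coprime n → dn_E1_f s η (m * n) = dn_E1_f s η m * dn_E1_f s η n := by
    intro m n h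
    unfold dn_E1_f
    rw [dn_E1_ad_mul htm s h, norm_mul, Nat.cast_mul,
      Real.mul_rpow (Nat.cast_nonneg _) (Nat.cast_nonneg _)]
    ring
  obtain ⟨-, h⟩ := EulerProduct.summable_and_hasSum_smoothNumbers_prod_primesBelow_tsum hf1
    (fun {m n} => hmul) (fun {p} hp => by
      refine (hsum p hp).congr fun j => ?_
      rw [Real.norm_of_nonneg (dn_E1_f_nonneg _ _ _)]) N
  have h' := (hasSum_subtype_iff_indicator (f := dn_E1_f s η) (s := N.smoothNumbers)).mp h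
  have h1 : ∑ k ∈ range N, dn_E1_f s η k ≤
      ∏ p ∈ N.primesBelow, ∑' j : ℕ, dn_E1_f s η (p ^ j) := by
    have h2 : ∑ k ∈ range N, dn_E1_f s η k =
        ∑ k ∈ range N, (N.smoothNumbers).indicator (dn_E1_f s η) k := by
      refine Finset.sum_congr rfl fun k hk => ?_
      rcases Nat.eq_zero_or_pos k with h0 | h0
      · subst h0
        have : dn_E1_f s η 0 = 0 := by
          unfold dn_E1_f
          rw [dn_E1_ad_zero]
          simp
        rw [this]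
        by_cases h3 : (0 : ℕ) ∈ N.smoothNumbers
        · rw [Set.indicator_of_mem h3, this]
        · rw [Set.indicator_of_notMem h3]
      · rw [Set.indicator_of_mem (Nat.mem_smoothNumbers_of_lt h0 (mem_range.mp hk))]
    rw [h2]
    refine sum_le_hasSum _ (fun k _ => ?_) h'
    exact Set.indicator_nonneg (fun k _ => dn_E1_f_nonneg _ _ _) _
  refine h1.trans ?_
  rw [Real.exp_sum]
  refine Finset.prod_le_prod (fun p _ => tsum_nonneg fun j => dn_E1_f_nonneg _ _ _)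
    fun p hp => ?_
  refine (hE p (Nat.prime_of_mem_primesBelow hp)).trans ?_
  have := Real.add_one_le_exp (E p)
  linarith

/-! ### The sum over the primes -/

/-- the Mertens bound for finite sets of primes -/
theorem dn_E1_mert {C2 : ℝ} (hC2 : 0 < C2) (hm : ∀ x : ℝ, 2 ≤ x →
    ∑ p ∈ (Finset.Icc 1 ⌊x⌋₊).filter Nat.Prime, ‖tau p‖ ^ 2 * Real.log p / (p : ℝ) ^ 12 ≤
      C2 * Real.log x) {y : ℝ} (hy : 0 < y) (S : Finset ℕ)
    (hS : ∀ p ∈ S, p.Prime ∧ Real.log p ≤ y) :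
    ∑ p ∈ S, ‖tau p‖ ^ 2 / (p : ℝ) ^ 12 * Real.log p ≤ C2 * y := by
  rcases S.eq_empty_or_nonempty with h | ⟨q, hq⟩
  · rw [h, Finset.sum_empty]
    positivity
  have hle : ∀ p ∈ S, (p : ℝ) ≤ Real.exp y := by
    intro p hp
    have hp0 : (0 : ℝ) < p := by exact_mod_cast (hS p hp).1.pos
    rw [← Real.log_le_iff_le_exp hp0]
    exact (hS p hp).2
  have hx : 2 ≤ Real.exp y := by
    have : (2 : ℝ) ≤ q := by exact_mod_cast (hS q hq).1.two_le
    exact this.trans (hle q hq)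
  have h1 := hm _ hx
  rw [Real.log_exp] at h1
  refine le_trans ?_ h1
  have h2 : S ⊆ (Finset.Icc 1 ⌊Real.exp y⌋₊).filter Nat.Prime := by
    intro p hp
    rw [mem_filter, mem_Icc]
    exact ⟨⟨(hS p hp).1.one_lt.le, Nat.le_floor (hle p hp)⟩, (hS p hp).1⟩
  calc ∑ p ∈ S, ‖tau p‖ ^ 2 / (p : ℝ) ^ 12 * Real.log p
      = ∑ p ∈ S, ‖tau p‖ ^ 2 * Real.log p / (p : ℝ) ^ 12 := by
        refine Finset.sum_congr rfl fun p _ => ?_
        ring
    _ ≤ _ := by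
        refine Finset.sum_le_sum_of_subset_of_nonneg h2 fun p hp _ => ?_
        have : 0 ≤ Real.log (p : ℝ) := Real.log_natCast_nonneg p
        positivity

/-- the exponential sum over the dyadic ranges -/
theorem dn_E1_dy {θ R : ℝ} (hθ : 0 < θ) (hR : 1 ≤ R) (M : ℕ) :
    ∑ i ∈ range M, Real.exp (-(θ * 2 ^ i / R)) ≤
      Real.log (1 + R) / Real.log 2 + 1 + ∑' k : ℕ, Real.exp (-θ) ^ k := by
  have hR0 : 0 < R := by linarith
  have hsm : Summable fun k : ℕ => Real.exp (-θ) ^ k :=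
    summable_geometric_of_lt_one (Real.exp_pos _).le (by rw [Real.exp_lt_one_iff]; linarith)
  have hl2 : 0 < Real.log 2 := Real.log_pos (by norm_num)
  obtain ⟨i0, hi0⟩ : ∃ i0 : ℕ, i0 = Nat.clog 2 ⌈R⌉₊ := ⟨_, rfl⟩
  have h1 : R ≤ 2 ^ i0 := by
    have h2 := Nat.le_pow_clog (b := 2) (by norm_num) ⌈R⌉₊
    have h3 : (⌈R⌉₊ : ℝ) ≤ ((2 ^ Nat.clog 2 ⌈R⌉₊ : ℕ) : ℝ) := by exact_mod_cast h2
    rw [hi0]
    push_cast at h3
    exact (Nat.le_ceil R).trans h3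
  have h2 : (i0 : ℝ) ≤ Real.log (1 + R) / Real.log 2 + 1 := by
    rcases Nat.eq_zero_or_pos i0 with h0 | h0
    · rw [h0, Nat.cast_zero]
      have : 0 ≤ Real.log (1 + R) := Real.log_nonneg (by linarith)
      positivity
    · have h3 : 1 < ⌈R⌉₊ := by
        by_contra h4
        have h5 : ⌈R⌉₊ ≤ 1 := by omega
        have h6 : Nat.clog 2 ⌈R⌉₊ = 0 := Nat.clog_of_right_le_one h5 2
        omega
      have h4 := Nat.pow_pred_clog_lt_self (b := 2) (by norm_num) h3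
      rw [← hi0] at h4
      have h5 : ((2 : ℝ)) ^ i0.pred < 1 + R := by
        have h6 : ((2 ^ i0.pred : ℕ) : ℝ) < (⌈R⌉₊ : ℝ) := by exact_mod_cast h4
        push_cast at h6
        have := Nat.ceil_lt_add_one hR0.le
        linarith
      have h6 : (i0.pred : ℝ) * Real.log 2 ≤ Real.log (1 + R) := by
        rw [← Real.log_pow]
        exact Real.log_le_log (by positivity) h5.le
      have h7 : (i0.pred : ℝ) = i0 - 1 := by
        rw [Nat.pred_eq_sub_one, Nat.cast_sub h0, Nat.cast_one]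
      rw [h7] at h6
      have : (i0 : ℝ) - 1 ≤ Real.log (1 + R) / Real.log 2 := by
        rw [le_div_iff₀ hl2]
        exact h6
      linarith
  have h3 : ∑ i ∈ range M, Real.exp (-(θ * 2 ^ i / R)) ≤
      ∑ i ∈ range (i0 + M), Real.exp (-(θ * 2 ^ i / R)) :=
    Finset.sum_le_sum_of_subset_of_nonneg (by
      intro i hi; rw [mem_range] at hi ⊢; omega) fun i _ _ => (Real.exp_pos _).le
  refine h3.trans ?_
  rw [Finset.sum_range_add]
  have h4 : ∑ i ∈ range i0, Real.exp (-(θ * 2 ^ i / R)) ≤ i0 := by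
    calc ∑ i ∈ range i0, Real.exp (-(θ * 2 ^ i / R)) ≤ ∑ i ∈ range i0, (1 : ℝ) := by
          refine Finset.sum_le_sum fun i _ => ?_
          rw [Real.exp_le_one_iff]
          have : 0 ≤ θ * 2 ^ i / R := by positivity
          linarith
      _ = i0 := by simp
  have h5 : ∑ k ∈ range M, Real.exp (-(θ * 2 ^ (i0 + k) / R)) ≤ ∑' k : ℕ, Real.exp (-θ) ^ k := by
    refine le_trans (Finset.sum_le_sum fun k _ => ?_) (hsm.sum_le_tsum (range M)
      fun k _ => by positivity)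
    rw [← Real.exp_nat_mul]
    apply Real.exp_le_exp.mpr
    have h6 : (k : ℝ) ≤ 2 ^ (i0 + k) / R := by
      rw [le_div_iff₀ hR0, pow_add]
      have h7 : (k : ℝ) ≤ 2 ^ k := by exact_mod_cast Nat.lt_two_pow_self.le
      have h8 : (0 : ℝ) ≤ k := Nat.cast_nonneg k
      calc (k : ℝ) * R ≤ 2 ^ k * 2 ^ i0 := mul_le_mul h7 h1 hR0.le (by positivity)
        _ = _ := by ring
    have h7 : θ * k ≤ θ * 2 ^ (i0 + k) / R := by
      rw [mul_div_assoc]
      exact mul_le_mul_of_nonneg_left h6 hθ.le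
    linarith
  linarith

/-- the size of `1 - p^(-s)` -/
theorem dn_E1_u {L ξ : ℝ} (hL : 0 < L) {p : ℕ} (hp : p.Prime) :
    ‖1 - (p : ℂ) ^ (-((1 + ξ * Complex.I) / (L : ℂ)))‖ ^ 2 ≤ 4 ∧
    ((1 + |ξ|) / L * Real.log p ≤ 1 →
      ‖1 - (p : ℂ) ^ (-((1 + ξ * Complex.I) / (L : ℂ)))‖ ^ 2 ≤
        4 * ((1 + |ξ|) / L * Real.log p) ^ 2) := by
  have hq : (1 : ℝ) ≤ p := by exact_mod_cast hp.one_lt.le
  have hlog : 0 ≤ Real.log (p : ℝ) := Real.log_natCast_nonneg p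
  obtain ⟨s, hs⟩ : ∃ s : ℂ, s = (1 + ξ * Complex.I) / (L : ℂ) := ⟨_, rfl⟩
  have hre : s.re = 1 / L := by
    rw [hs, Complex.div_ofReal_re]
    simp
  have hn : ‖s‖ ≤ (1 + |ξ|) / L := by
    rw [hs, norm_div, Complex.norm_real, Real.norm_of_nonneg hL.le]
    refine div_le_div_of_nonneg_right ?_ hL.le
    refine (norm_add_le _ _).trans ?_
    rw [norm_one, norm_mul, Complex.norm_I, mul_one, Complex.norm_real, Real.norm_eq_abs]
  rw [← hs]
  constructor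
  · have hu : ‖(p : ℂ) ^ (-s)‖ ≤ 1 := by
      rw [Complex.norm_natCast_cpow_of_pos hp.pos, Complex.neg_re, hre]
      exact Real.rpow_le_one_of_one_le_of_nonpos hq (by
        have : 0 ≤ 1 / L := by positivity
        linarith)
    have h1 : ‖1 - (p : ℂ) ^ (-s)‖ ≤ 2 := by
      refine (norm_sub_le _ _).trans ?_
      rw [norm_one]
      linarith
    calc ‖1 - (p : ℂ) ^ (-s)‖ ^ 2 ≤ 2 ^ 2 := pow_le_pow_left₀ (norm_nonneg _) h1 2
      _ = 4 := by norm_num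
  · intro hT
    have hp0 : (p : ℂ) ≠ 0 := by exact_mod_cast hp.ne_zero
    have e1 : (p : ℂ) ^ (-s) = Complex.exp (-(Real.log p * s)) := by
      rw [Complex.cpow_def_of_ne_zero hp0, ← Complex.natCast_log]
      congr 1
      ring
    have hz : ‖-((Real.log p : ℂ) * s)‖ ≤ (1 + |ξ|) / L * Real.log p := by
      rw [norm_neg, norm_mul, Complex.norm_real, Real.norm_of_nonneg hlog, mul_comm]
      exact mul_le_mul_of_nonneg_right hn hlog
    have h1 : ‖1 - (p : ℂ) ^ (-s)‖ ≤ 2 * ((1 + |ξ|) / L * Real.log p) := by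
      rw [norm_sub_rev, e1]
      refine (Complex.norm_exp_sub_one_le (hz.trans hT)).trans ?_
      linarith
    calc ‖1 - (p : ℂ) ^ (-s)‖ ^ 2 ≤ (2 * ((1 + |ξ|) / L * Real.log p)) ^ 2 :=
          pow_le_pow_left₀ (norm_nonneg _) h1 2
      _ = _ := by ring

/-- the sum over the primes -/
theorem dn_E1_sum {C2 : ℝ} (hC2 : 0 < C2) (hm : ∀ x : ℝ, 2 ≤ x →
    ∑ p ∈ (Finset.Icc 1 ⌊x⌋₊).filter Nat.Prime, ‖tau p‖ ^ 2 * Real.log p / (p : ℝ) ^ 12 ≤
      C2 * Real.log x) {L ξ θ : ℝ} (hL : 0 < L) (hθ : 0 < θ) (S : Finset ℕ)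
    (hS : ∀ p ∈ S, p.Prime) :
    ∑ p ∈ S, ‖1 - (p : ℂ) ^ (-((1 + ξ * Complex.I) / (L : ℂ)))‖ ^ 2 * (p : ℝ) ^ (-(θ / L)) *
      (‖tau p‖ ^ 2 / (p : ℝ) ^ 12) ≤
    4 * C2 + 8 * C2 * (Real.log (2 + |ξ|) / Real.log 2 + 1 + ∑' k : ℕ, Real.exp (-θ) ^ k) := by
  classical
  obtain ⟨R, hR⟩ : ∃ R : ℝ, R = 1 + |ξ| := ⟨_, rfl⟩
  have hR1 : 1 ≤ R := by rw [hR]; have := abs_nonneg ξ; linarith
  have hR0 : 0 < R := by linarith
  obtain ⟨a, ha⟩ : ∃ a : ℕ → ℝ, ∀ p : ℕ, a p = ‖tau p‖ ^ 2 / (p : ℝ) ^ 12 :=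
    ⟨fun p => ‖tau p‖ ^ 2 / (p : ℝ) ^ 12, fun _ => rfl⟩
  have ha0 : ∀ p, 0 ≤ a p := fun p => by rw [ha]; positivity
  obtain ⟨T, hT⟩ : ∃ T : ℕ → ℝ, ∀ p : ℕ, T p = R / L * Real.log p :=
    ⟨fun p => R / L * Real.log p, fun _ => rfl⟩
  obtain ⟨F, hF⟩ : ∃ F : ℕ → ℝ, ∀ p : ℕ, F p =
      ‖1 - (p : ℂ) ^ (-((1 + ξ * Complex.I) / (L : ℂ)))‖ ^ 2 * (p : ℝ) ^ (-(θ / L)) *
      (‖tau p‖ ^ 2 / (p : ℝ) ^ 12) := ⟨_, fun _ => rfl⟩
  rw [Finset.sum_congr rfl fun p _ => (hF p).symm]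
  have hpl : ∀ p : ℕ, 0 ≤ Real.log (p : ℝ) := fun p => Real.log_natCast_nonneg p
  have hT0 : ∀ p, 0 ≤ T p := fun p => by rw [hT]; have := hpl p; positivity
  have hmert : ∀ {y : ℝ}, 0 < y → ∀ S' : Finset ℕ, (∀ p ∈ S', p.Prime ∧ Real.log p ≤ y) →
      ∑ p ∈ S', a p * Real.log p ≤ C2 * y := by
    intro y hy S' hS'
    have := dn_E1_mert hC2 hm hy S' hS'
    rw [Finset.sum_congr rfl fun p _ => by rw [ha p]]
    exact this
  rw [← Finset.sum_filter_add_sum_filter_not S (fun p => T p ≤ 1)]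
  -- the small primes
  have h1 : ∑ p ∈ S.filter (fun p => T p ≤ 1), F p ≤ 4 * C2 := by
    calc ∑ p ∈ S.filter (fun p => T p ≤ 1), F p
        ≤ ∑ p ∈ S.filter (fun p => T p ≤ 1), 4 * (R / L) * (a p * Real.log p) := by
          refine Finset.sum_le_sum fun p hp => ?_
          rw [mem_filter] at hp
          have hpp := hS p hp.1
          have hq : (1 : ℝ) ≤ p := by exact_mod_cast hpp.one_lt.le
          have hle := (dn_E1_u (ξ := ξ) hL hpp).2 (by rw [← hR, ← hT]; exact hp.2)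
          rw [← hR, ← hT] at hle
          have h2 : (p : ℝ) ^ (-(θ / L)) ≤ 1 :=
            Real.rpow_le_one_of_one_le_of_nonpos hq (by
              have : 0 ≤ θ / L := by positivity
              linarith)
          have h3 : T p ^ 2 ≤ T p := by
            have := mul_le_mul_of_nonneg_left hp.2 (hT0 p)
            nlinarith
          rw [hF, ← ha]
          have hTp := hT0 p
          calc ‖1 - (p : ℂ) ^ (-((1 + ξ * Complex.I) / (L : ℂ)))‖ ^ 2 * (p : ℝ) ^ (-(θ / L)) * a p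
              ≤ 4 * T p * 1 * a p := by
                refine mul_le_mul_of_nonneg_right ?_ (ha0 p)
                exact mul_le_mul (by linarith) h2 (by positivity) (by positivity)
            _ = _ := by rw [hT]; ring
      _ = 4 * (R / L) * ∑ p ∈ S.filter (fun p => T p ≤ 1), a p * Real.log p := by
          rw [Finset.mul_sum]
      _ ≤ 4 * (R / L) * (C2 * (L / R)) := by
          refine mul_le_mul_of_nonneg_left (hmert (by positivity) _ fun p hp => ?_) (by positivity)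
          rw [mem_filter] at hp
          refine ⟨hS p hp.1, ?_⟩
          have := hp.2
          rw [hT, div_mul_eq_mul_div, div_le_one hL] at this
          rw [le_div_iff₀ hR0]
          linarith
      _ = 4 * C2 := by
          field_simp
  -- the large primes
  obtain ⟨S2, hS2⟩ : ∃ S2 : Finset ℕ, S2 = S.filter (fun p => ¬ T p ≤ 1) := ⟨_, rfl⟩
  obtain ⟨ix, hix⟩ : ∃ ix : ℕ → ℕ, ∀ p, ix p = Nat.log 2 ⌊T p⌋₊ := ⟨_, fun _ => rfl⟩
  have hS2p : ∀ p ∈ S2, p.Prime ∧ 1 < T p ∧ 2 ^ ix p ≤ T p ∧ T p ≤ 2 ^ (ix p + 1) := by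
    intro p hp
    rw [hS2, mem_filter, not_le] at hp
    have h3 : 1 ≤ ⌊T p⌋₊ := Nat.le_floor (by exact_mod_cast hp.2.le)
    have h4 : 2 ^ ix p ≤ ⌊T p⌋₊ := by
      rw [hix]
      exact Nat.pow_log_le_self 2 (by omega)
    have h5 : ⌊T p⌋₊ < 2 ^ (ix p + 1) := by
      rw [hix]
      exact Nat.lt_pow_succ_log_self (by norm_num) _
    refine ⟨hS p hp.1, hp.2, ?_, ?_⟩
    · have h6 : ((2 ^ ix p : ℕ) : ℝ) ≤ (⌊T p⌋₊ : ℝ) := by exact_mod_cast h4
      push_cast at h6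
      exact h6.trans (Nat.floor_le (hT0 p))
    · have h6 : ((⌊T p⌋₊ + 1 : ℕ) : ℝ) ≤ ((2 ^ (ix p + 1) : ℕ) : ℝ) := by exact_mod_cast h5
      push_cast at h6
      have := Nat.lt_floor_add_one (T p)
      linarith
  have h2 : ∑ p ∈ S2, F p ≤
      8 * C2 * ∑ i ∈ range (S2.sup ix + 1), Real.exp (-(θ * 2 ^ i / R)) := by
    rw [← Finset.sum_fiberwise_of_maps_to (s := S2) (t := range (S2.sup ix + 1)) (g := ix)
      (fun p hp => mem_range.mpr (Nat.lt_succ_of_le (Finset.le_sup hp))), Finset.mul_sum]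
    refine Finset.sum_le_sum fun i _ => ?_
    calc ∑ p ∈ S2.filter (fun p => ix p = i), F p
        ≤ ∑ p ∈ S2.filter (fun p => ix p = i),
          4 * Real.exp (-(θ * 2 ^ i / R)) / 2 ^ i * (R / L) * (a p * Real.log p) := by
          refine Finset.sum_le_sum fun p hp => ?_
          rw [mem_filter] at hp
          obtain ⟨hpp, -, h3, -⟩ := hS2p p hp.1
          rw [hp.2] at h3
          have hp0 : (0 : ℝ) < p := by exact_mod_cast hpp.pos
          have hle := (dn_E1_u (ξ := ξ) hL hpp).1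
          have h4 : (p : ℝ) ^ (-(θ / L)) ≤ Real.exp (-(θ * 2 ^ i / R)) := by
            rw [Real.rpow_def_of_pos hp0]
            apply Real.exp_le_exp.mpr
            have h5 : θ * 2 ^ i / R ≤ θ * T p / R := by
              refine div_le_div_of_nonneg_right ?_ hR0.le
              exact mul_le_mul_of_nonneg_left h3 hθ.le
            have h6 : θ * T p / R = Real.log p * (θ / L) := by
              rw [hT]
              field_simp
            rw [h6] at h5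
            linarith
          have h5 : 1 ≤ T p / 2 ^ i := by
            rw [le_div_iff₀ (by positivity)]
            linarith
          have hap := ha0 p
          rw [hF, ← ha]
          calc ‖1 - (p : ℂ) ^ (-((1 + ξ * Complex.I) / (L : ℂ)))‖ ^ 2 * (p : ℝ) ^ (-(θ / L)) * a p
              ≤ 4 * Real.exp (-(θ * 2 ^ i / R)) * a p := by
                refine mul_le_mul_of_nonneg_right ?_ (ha0 p)
                exact mul_le_mul hle h4 (by positivity) (by positivity)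
            _ ≤ 4 * Real.exp (-(θ * 2 ^ i / R)) * a p * (T p / 2 ^ i) :=
                le_mul_of_one_le_right (by positivity) h5
            _ = _ := by rw [hT]; ring
      _ = 4 * Real.exp (-(θ * 2 ^ i / R)) / 2 ^ i * (R / L) *
          ∑ p ∈ S2.filter (fun p => ix p = i), a p * Real.log p := by rw [Finset.mul_sum]
      _ ≤ 4 * Real.exp (-(θ * 2 ^ i / R)) / 2 ^ i * (R / L) * (C2 * (2 ^ (i + 1) * (L / R))) := by
          refine mul_le_mul_of_nonneg_left (hmert (by positivity) _ fun p hp => ?_) (by positivity)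
          rw [mem_filter] at hp
          obtain ⟨hpp, -, -, h3⟩ := hS2p p hp.1
          rw [hp.2, hT] at h3
          refine ⟨hpp, ?_⟩
          calc Real.log (p : ℝ) = (R / L * Real.log p) * (L / R) := by field_simp
            _ ≤ 2 ^ (i + 1) * (L / R) := mul_le_mul_of_nonneg_right h3 (by positivity)
      _ = 8 * C2 * Real.exp (-(θ * 2 ^ i / R)) := by
          rw [pow_succ]
          field_simp
          ring
  have h3 := dn_E1_dy hθ hR1 (S2.sup ix + 1)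
  have h4 : 1 + R = 2 + |ξ| := by rw [hR]; ring
  rw [h4] at h3
  have h5 := mul_le_mul_of_nonneg_left h3 (show 0 ≤ 8 * C2 by positivity)
  rw [← hS2]
  linarith

/-- **piece E1** -/
theorem p_E1 (htm : S_tm) (hloc : S_locF) (hmert : S_mert) : S_E1 := by
  obtain ⟨C1, hC1, hloc⟩ := hloc
  obtain ⟨C2, hC2, hm⟩ := hmert
  have hl2 : 0 < Real.log 2 := Real.log_pos (by norm_num)
  obtain ⟨K, hK⟩ : ∃ K : ℝ, K = 1 + 8 * C1 := ⟨_, rfl⟩
  have hK0 : 0 < K := by rw [hK]; positivity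
  obtain ⟨C3, hC3⟩ : ∃ C3 : ℝ, C3 = ∑' n : ℕ, 1 / (n : ℝ) ^ 2 := ⟨_, rfl⟩
  have hsq : Summable fun n : ℕ => 1 / (n : ℝ) ^ 2 := Real.summable_one_div_nat_pow.mpr (by norm_num)
  refine ⟨max 1 (8 * K * C2 / Real.log 2), le_max_left _ _, ?_⟩
  intro θ hθ hθ1
  obtain ⟨Ct, hCt⟩ : ∃ Ct : ℝ, Ct = ∑' k : ℕ, Real.exp (-θ) ^ k := ⟨_, rfl⟩
  refine ⟨Real.exp (K * (4 * C3 + 4 * C2 + 8 * C2 * (1 + Ct))), Real.exp_pos _, ?_⟩
  intro X ξ hX
  obtain ⟨L, hL⟩ : ∃ L : ℝ, L = Real.log X := ⟨_, rfl⟩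
  have hL0 : 0 < L := by rw [hL]; exact Real.log_pos (by linarith)
  rw [← hL]
  obtain ⟨s, hs⟩ : ∃ s : ℂ, s = (1 + ξ * Complex.I) / (L : ℂ) := ⟨_, rfl⟩
  have hre : 0 ≤ s.re := by
    rw [hs, Complex.div_ofReal_re]
    simp
    exact hL0.le
  have hη : 0 ≤ θ / L := by positivity
  obtain ⟨E, hE⟩ : ∃ E : ℕ → ℝ, ∀ p : ℕ, E p = K * (‖1 - (p : ℂ) ^ (-s)‖ ^ 2 *
      (p : ℝ) ^ (-(θ / L)) * (‖tau p‖ ^ 2 / (p : ℝ) ^ 12 + 1 / (p : ℝ) ^ 2)) := ⟨_, fun _ => rfl⟩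
  have hlocal : ∀ p : ℕ, p.Prime → Summable (fun j : ℕ => dn_E1_f s (θ / L) (p ^ j)) ∧
      ∑' j : ℕ, dn_E1_f s (θ / L) (p ^ j) ≤ 1 + E p := by
    intro p hp
    obtain ⟨h1, h2⟩ := hloc p hp
    have := dn_E1_loc htm hp hre hη h1 h2
    rw [hE, hK]
    exact this
  have hx : (0 : ℝ) < 2 + |ξ| := by have := abs_nonneg ξ; linarith
  -- the bound for the partial sums
  have hpart : ∀ N : ℕ, ∑ k ∈ range N, dn_E1_f s (θ / L) k ≤
      Real.exp (K * (4 * C3 + 4 * C2 + 8 * C2 * (1 + Ct))) *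
        (2 + |ξ|) ^ (max 1 (8 * K * C2 / Real.log 2)) := by
    intro N
    refine (dn_E1_part htm (fun p hp => (hlocal p hp).1) (fun p hp => (hlocal p hp).2) N).trans ?_
    have h1 := dn_E1_sum hC2 hm (ξ := ξ) hL0 hθ N.primesBelow
      (fun p hp => Nat.prime_of_mem_primesBelow hp)
    rw [← hs, ← hCt] at h1
    have h2 : ∑ p ∈ N.primesBelow, ‖1 - (p : ℂ) ^ (-s)‖ ^ 2 * (p : ℝ) ^ (-(θ / L)) *
        (1 / (p : ℝ) ^ 2) ≤ 4 * C3 := by
      calc ∑ p ∈ N.primesBelow, ‖1 - (p : ℂ) ^ (-s)‖ ^ 2 * (p : ℝ) ^ (-(θ / L)) *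
          (1 / (p : ℝ) ^ 2) ≤ ∑ p ∈ N.primesBelow, 4 * (1 / (p : ℝ) ^ 2) := by
            refine Finset.sum_le_sum fun p hp => ?_
            have hpp := Nat.prime_of_mem_primesBelow hp
            have hq : (1 : ℝ) ≤ p := by exact_mod_cast hpp.one_lt.le
            have h3 := (dn_E1_u (ξ := ξ) hL0 hpp).1
            rw [← hs] at h3
            have h4 : (p : ℝ) ^ (-(θ / L)) ≤ 1 :=
              Real.rpow_le_one_of_one_le_of_nonpos hq (by linarith)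
            refine mul_le_mul_of_nonneg_right ?_ (by positivity)
            calc ‖1 - (p : ℂ) ^ (-s)‖ ^ 2 * (p : ℝ) ^ (-(θ / L)) ≤ 4 * 1 :=
                  mul_le_mul h3 h4 (by positivity) (by norm_num)
              _ = 4 := by norm_num
        _ = 4 * ∑ p ∈ N.primesBelow, 1 / (p : ℝ) ^ 2 := by rw [Finset.mul_sum]
        _ ≤ 4 * C3 := by
            rw [hC3]
            refine mul_le_mul_of_nonneg_left ?_ (by norm_num)
            exact hsq.sum_le_tsum _ fun n _ => by positivity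
    have h3 : ∑ p ∈ N.primesBelow, E p ≤ K * (4 * C3 + (4 * C2 + 8 * C2 *
        (Real.log (2 + |ξ|) / Real.log 2 + 1 + Ct))) := by
      have e1 : ∑ p ∈ N.primesBelow, E p = K * (∑ p ∈ N.primesBelow, ‖1 - (p : ℂ) ^ (-s)‖ ^ 2 *
          (p : ℝ) ^ (-(θ / L)) * (1 / (p : ℝ) ^ 2) + ∑ p ∈ N.primesBelow,
          ‖1 - (p : ℂ) ^ (-s)‖ ^ 2 * (p : ℝ) ^ (-(θ / L)) * (‖tau p‖ ^ 2 / (p : ℝ) ^ 12)) := by
        rw [← Finset.sum_add_distrib, Finset.mul_sum]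
        refine Finset.sum_congr rfl fun p _ => ?_
        rw [hE]
        ring
      rw [e1]
      exact mul_le_mul_of_nonneg_left (add_le_add h2 h1) hK0.le
    calc Real.exp (∑ p ∈ N.primesBelow, E p)
        ≤ Real.exp (K * (4 * C3 + (4 * C2 + 8 * C2 *
          (Real.log (2 + |ξ|) / Real.log 2 + 1 + Ct)))) := Real.exp_le_exp.mpr h3
      _ = Real.exp (K * (4 * C3 + 4 * C2 + 8 * C2 * (1 + Ct))) *
          (2 + |ξ|) ^ (8 * K * C2 / Real.log 2) := by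
          rw [Real.rpow_def_of_pos hx, ← Real.exp_add]
          congr 1
          ring
      _ ≤ _ := by
          refine mul_le_mul_of_nonneg_left ?_ (Real.exp_pos _).le
          exact Real.rpow_le_rpow_of_exponent_le (by have := abs_nonneg ξ; linarith)
            (le_max_right _ _)
  have hfe : (fun k : ℕ => ‖ad ((1 + ξ * Complex.I) / (L : ℂ)) k‖ ^ 2 *
      (k : ℝ) ^ (-(12 + θ / L))) = dn_E1_f s (θ / L) := by
    funext k
    rw [← hs]
    rfl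
  have hfin := fun n => dn_E1_f_nonneg s (θ / L) n
  refine ⟨?_, ?_⟩
  · have h1 := summable_of_sum_range_le hfin hpart
    rw [← hfe] at h1
    exact h1
  · have h1 := Real.tsum_le_of_sum_range_le hfin hpart
    rw [← hfe] at h1
    exact h1

end Pool.Agent.Lib.MP_cd509c_nt.DN
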