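import Pool.Agent.Lib.MP_cd509c_nt.DN.Defs2

/-!
# Piece `EQ`: equidistribution on short segments with a power saving
-/

set_option autoImplicit false

namespace Pool.Agent.Lib.MP_cd509c_nt.DN

open Complex ComplexConjugate MeasureTheory

private lemma dn_EQ_norm_ee (x : ℝ) : ‖ee x‖ = 1 := by
  unfold ee
  have : (2 * Real.pi * x * I : ℂ) = ((2 * Real.pi * x : ℝ) : ℂ) * I := by push_cast; ring
  rw [this, Complex.norm_exp_ofReal_mul_I]

private lemma dn_EQ_ee_add (x y : ℝ) : ee (x + y) = ee x * ee y := by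
  unfold ee
  rw [← Complex.exp_add]
  congr 1
  push_cast
  ring

private lemma dn_EQ_ee_int (n : ℤ) : ee n = 1 := by
  unfold ee
  rw [Complex.exp_eq_one_iff]
  exact ⟨n, by push_cast; ring⟩

private lemma dn_EQ_ee_sub (x y : ℝ) : ‖ee x - ee y‖ ≤ 2 * Real.pi * |x - y| := by
  have h : ee x - ee y = ee y * (ee (x - y) - 1) := by
    have := dn_EQ_ee_add y (x - y)
    rw [add_sub_cancel] at this
    rw [this]
    ring
  rw [h, norm_mul, dn_EQ_norm_ee, one_mul]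
  have h2 : ee (x - y) = cexp (I * ((2 * Real.pi * (x - y) : ℝ) : ℂ)) := by
    unfold ee
    congr 1
    push_cast
    ring
  rw [h2]
  refine (Real.norm_exp_I_mul_ofReal_sub_one_le).trans ?_
  rw [Real.norm_eq_abs, abs_mul, abs_of_pos (by positivity : (0 : ℝ) < 2 * Real.pi)]

private lemma dn_EQ_sum2 : Summable fun j : ℤ => 1 / (1 + |(j : ℝ)|) ^ 2 := by
  have h : Summable fun n : ℕ => 1 / ((n : ℝ) + 1) ^ 2 := by
    have := (summable_nat_add_iff 1).mpr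
      (Real.summable_one_div_nat_pow (p := 2) |>.mpr (by norm_num))
    refine this.congr fun n => ?_
    push_cast
    rfl
  apply Summable.of_nat_of_neg
  · refine h.congr fun n => ?_
    simp [add_comm]
  · refine h.congr fun n => ?_
    simp [add_comm]

private lemma dn_EQ_w (co : ℤ → ℂ) (W : ℝ) (hW : 0 ≤ W)
    (hco : ∀ j : ℤ, ‖co j‖ ≤ W / (1 + |(j : ℝ)|) ^ 3) :
    Continuous (fun x : ℝ => ∑' j : ℤ, co j * ee (j * x)) ∧
    (∀ x : ℝ, (∑' j : ℤ, co j * ee (j * (x + 1))) = ∑' j : ℤ, co j * ee (j * x)) ∧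
    (∀ x : ℝ, ‖∑' j : ℤ, co j * ee (j * x)‖ ≤ W * ∑' j : ℤ, 1 / (1 + |(j : ℝ)|) ^ 2) ∧
    (∀ x y : ℝ, ‖(∑' j : ℤ, co j * ee (j * x)) - ∑' j : ℤ, co j * ee (j * y)‖ ≤
      2 * Real.pi * (W * ∑' j : ℤ, 1 / (1 + |(j : ℝ)|) ^ 2) * |x - y|) := by
  have hsum := dn_EQ_sum2.mul_left W
  have hb : ∀ (j : ℤ) (x : ℝ), ‖co j * ee (j * x)‖ ≤ W * (1 / (1 + |(j : ℝ)|) ^ 2) := by
    intro j x
    rw [norm_mul, dn_EQ_norm_ee, mul_one]
    refine (hco j).trans ?_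
    have h1 : 1 ≤ 1 + |(j : ℝ)| := by
      have := abs_nonneg (j : ℝ)
      linarith
    rw [mul_one_div]
    gcongr
    · norm_num
  have hs : ∀ x : ℝ, Summable fun j : ℤ => co j * ee (j * x) := fun x =>
    Summable.of_norm_bounded hsum (fun j => hb j x)
  refine ⟨?_, ?_, ?_, ?_⟩
  · apply continuous_tsum _ hsum (fun j x => hb j x)
    intro j
    unfold ee
    fun_prop
  · intro x
    congr 1
    funext j
    have : (j : ℝ) * (x + 1) = (j : ℝ) * x + ((j : ℤ) : ℝ) := by ring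
    rw [this, dn_EQ_ee_add, dn_EQ_ee_int, mul_one]
  · intro x
    rw [← tsum_mul_left]
    exact tsum_of_norm_bounded hsum.hasSum (fun j => hb j x)
  · intro x y
    rw [← (hs x).tsum_sub (hs y)]
    have h2 := hsum.mul_left (2 * Real.pi * |x - y|)
    have e : 2 * Real.pi * (W * ∑' j : ℤ, 1 / (1 + |(j : ℝ)|) ^ 2) * |x - y| =
        ∑' j : ℤ, 2 * Real.pi * |x - y| * (W * (1 / (1 + |(j : ℝ)|) ^ 2)) := by
      rw [tsum_mul_left, tsum_mul_left]
      ring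
    rw [e]
    refine tsum_of_norm_bounded h2.hasSum ?_
    intro j
    rw [← mul_sub, norm_mul]
    have h3 := dn_EQ_ee_sub (j * x) (j * y)
    rw [← mul_sub, abs_mul] at h3
    have h1 : 0 < 1 + |(j : ℝ)| := by positivity
    have hj : |(j : ℝ)| ≤ 1 + |(j : ℝ)| := by linarith
    calc ‖co j‖ * ‖ee (j * x) - ee (j * y)‖
        ≤ W / (1 + |(j : ℝ)|) ^ 3 * (2 * Real.pi * (|(j : ℝ)| * |x - y|)) := by
          gcongr
          exact hco j
      _ ≤ W / (1 + |(j : ℝ)|) ^ 3 * (2 * Real.pi * ((1 + |(j : ℝ)|) * |x - y|)) := by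
          gcongr
      _ = 2 * Real.pi * |x - y| * (W * (1 / (1 + |(j : ℝ)|) ^ 2)) := by
          field_simp

private lemma dn_EQ_G0 {C : ℝ} (hC : 0 < C) (hb : ∀ w : ℂ, 0 < w.im → ‖Dc w‖ * w.im ^ 6 ≤ C)
    {h : ℝ} (hh : 0 < h) {b : ℕ} (hb1 : 1 ≤ b) :
    Continuous (fun x : ℝ => Dc (b * (x + h * I))) ∧
    (∀ x : ℝ, Dc (b * (((x + 1 : ℝ) : ℂ) + h * I)) = Dc (b * (x + h * I))) ∧
    ∀ x : ℝ, ‖Dc (b * (x + h * I))‖ ≤ C / h ^ 6 := by
  have hb0 : (0 : ℝ) < b := by exact_mod_cast hb1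
  have him : ∀ x : ℝ, ((b : ℂ) * (x + h * I)).im = b * h := by
    intro x
    simp
  refine ⟨?_, ?_, ?_⟩
  · rw [continuous_iff_continuousAt]
    intro x
    have h1 : ContinuousAt Dc ((b : ℂ) * (x + h * I)) := by
      apply (Dc_differentiableAt _).continuousAt
      rw [him]
      positivity
    have h2 : ContinuousAt (fun x : ℝ => (b : ℂ) * (x + h * I)) x := by fun_prop
    exact ContinuousAt.comp (g := Dc) h1 h2
  · intro x
    have e : (b : ℂ) * (((x + 1 : ℝ) : ℂ) + h * I) = (b : ℂ) * (x + h * I) + (b : ℕ) := by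
      push_cast
      ring
    rw [e, Dc_add_nat]
    rw [him]
    positivity
  · intro x
    have h1 := hb ((b : ℂ) * (x + h * I)) (by rw [him]; positivity)
    rw [him] at h1
    rw [le_div_iff₀ (by positivity)]
    refine le_trans ?_ h1
    have : h ≤ b * h := by
      have : (1 : ℝ) ≤ b := by exact_mod_cast hb1
      nlinarith
    gcongr

/-- The main case. -/
private lemma dn_EQ_main {cP CJ Cd CD S : ℝ} (hcP : 0 < cP) (hCJ : 0 < CJ) (hCd : 0 < Cd)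
    (hCD : 0 < CD) (hS0 : 0 ≤ S)
    (hP : ∀ Q : ℝ, 2 ≤ Q → cP * Q ^ (1 - 1 / 128 : ℝ) ≤ ((PQ Q).card : ℝ))
    (hJ : ∀ (Q B δ : ℝ) (P : Finset ℕ)
      (G : ℝ → ℂ), 1 ≤ Q → 0 ≤ B → 0 < δ → δ ≤ 1 / 2 → P.Nonempty →
      (∀ q ∈ P, 1 ≤ q ∧ (q : ℝ) ≤ 4 * Q) → Continuous G → Function.Periodic G 1 →
      (∀ x, ‖G x‖ ≤ B) →
      ‖(∫ x in (0 : ℝ)..1, G x) - 1 / (2 * δ * (∑ q ∈ P, (q.totient : ℝ)) : ℝ) *
          ∑ q ∈ P, ∑ a ∈ (Finset.range q).filter (fun a => a.Coprime q),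
            ∫ β in (-δ)..δ, G ((a : ℝ) / q + β)‖ ≤
        CJ * B * Q / ((∑ q ∈ P, (q.totient : ℝ)) * δ ^ ((1 + 1 / 128 : ℝ) / 2)))
    (hdual : ∀ (X W : ℝ) (b c p : ℕ) (co : ℤ → ℂ) (ζ : ℂ), 2 ≤ X →
      0 ≤ W → 1 ≤ b → (b : ℝ) ≤ X → 1 ≤ c → (c : ℝ) ≤ X → p.Prime → X < p → 0 < ζ.im →
      ζ.im ≤ 1 → co 0 = 0 → (∀ j : ℤ, ‖co j‖ ≤ W / (1 + |(j : ℝ)|) ^ 3) →
      ‖∑ a ∈ (Finset.range p).filter (fun a => a.Coprime p),
          (∑' j : ℤ, co j * ee (j * ((a : ℝ) / p))) *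
            (Dc (b * ((a : ℂ) / p + ζ)) * conj (Dc (c * ((a : ℂ) / p + ζ))))‖ ≤
        Cd * W * (p : ℝ) ^ (3 / 4 : ℝ) * ζ.im ^ (-12 : ℝ) *
          (1 + (p : ℝ) ^ 2 * X * ‖ζ‖ ^ 2 / ζ.im))
    (w G0 : ℝ → ℂ) {X W h Q : ℝ} {b c : ℕ} (co : ℤ → ℂ) (hX : 2 ≤ X) (hW : 0 ≤ W)
    (hh : 0 < h) (hh1 : h ≤ 1) (hb1 : 1 ≤ b) (hbX : (b : ℝ) ≤ X) (hc1 : 1 ≤ c) (hcX : (c : ℝ) ≤ X)
    (hXQ : X < Q) (hQh : Q ^ 2 * h = 1)
    (hco0 : co 0 = 0) (hco : ∀ j : ℤ, ‖co j‖ ≤ W / (1 + |(j : ℝ)|) ^ 3)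
    (hw : ∀ x : ℝ, w x = ∑' j : ℤ, co j * ee (j * x))
    (hG0 : ∀ x : ℝ, G0 x = Dc (b * (x + h * I)) * conj (Dc (c * (x + h * I))))
    (hwc : Continuous w) (hwp : ∀ x, w (x + 1) = w x) (hwb : ∀ x, ‖w x‖ ≤ W * S)
    (hwl : ∀ x y, ‖w x - w y‖ ≤ 2 * Real.pi * (W * S) * |x - y|)
    (hGc : Continuous G0) (hGp : ∀ x, G0 (x + 1) = G0 x)
    (hGb : ∀ x, ‖G0 x‖ ≤ CD ^ 2 * (1 / h ^ 12)) :
    ‖∫ x in (0 : ℝ)..1, w x * G0 x‖ ≤
      ((2 * CJ / cP + 2 * Real.pi) * (W * S) * CD ^ 2 + 264 * Cd * W * X) * (1 / h ^ 12) *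
        Q ^ (-(1 / 64) : ℝ) := by
  have hQ2 : 2 ≤ Q := by linarith
  have hQ0 : 0 < Q := by linarith
  have hQ1 : 1 ≤ Q := by linarith
  have hP0 := hP Q hQ2
  set P : Finset ℕ := PQ Q with hPdef
  set δ : ℝ := Q ^ (-2 + 1 / 16 : ℝ) with hδdef
  have hδ0 : 0 < δ := by positivity
  have hPc : 0 < (P.card : ℝ) := lt_of_lt_of_le (by positivity) hP0
  have hPne : P.Nonempty := by
    rw [← Finset.card_pos]
    exact_mod_cast hPc
  have hmem : ∀ q ∈ P, q.Prime ∧ Q < q ∧ (q : ℝ) ≤ 4 * Q := by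
    intro q hq
    rw [hPdef, PQ, Finset.mem_filter, Finset.mem_Ioc] at hq
    exact ⟨hq.2, (Nat.floor_lt hQ0.le).mp hq.1.1,
      (Nat.le_floor_iff (by positivity)).mp hq.1.2⟩
  set L : ℝ := ∑ q ∈ P, (q.totient : ℝ) with hLdef
  have hL : (P.card : ℝ) * (Q / 2) ≤ L := by
    rw [hLdef, ← nsmul_eq_mul]
    apply Finset.card_nsmul_le_sum
    intro q hq
    obtain ⟨hp, h1, h2⟩ := hmem q hq
    rw [Nat.totient_prime hp, Nat.cast_sub hp.one_lt.le, Nat.cast_one]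
    linarith
  have hL0 : 0 < L := lt_of_lt_of_le (by positivity) hL
  set B0 : ℝ := CD ^ 2 * (1 / h ^ 12) with hB0
  have hB00 : 0 ≤ B0 := by positivity
  have hδh : δ ≤ 1 / 2 := by
    have : δ ≤ Q ^ (-1 : ℝ) := Real.rpow_le_rpow_of_exponent_le hQ1 (by norm_num)
    rw [Real.rpow_neg_one] at this
    refine this.trans ?_
    rw [inv_eq_one_div]
    exact one_div_le_one_div_of_le (by norm_num) hQ2
  have hGc' : Continuous fun x => w x * G0 x := hwc.mul hGc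
  have hJ1 := hJ Q (W * S * B0) δ P (fun x => w x * G0 x) hQ1 (by positivity) hδ0 hδh hPne
    (fun q hq => ⟨(hmem q hq).1.one_lt.le, (hmem q hq).2.2⟩) hGc'
    (fun x => by simp only [hwp, hGp]) (fun x => by
      rw [norm_mul]
      exact mul_le_mul (hwb x) (hGb x) (norm_nonneg _) (by positivity))
  -- the dual bound
  set Du : ℝ := Cd * W * (4 * Q ^ (3 / 4 : ℝ)) * (1 / h ^ 12) * (33 * X * Q ^ (1 / 8 : ℝ)) with hDu
  set Li : ℝ := 2 * Real.pi * (W * S) * δ * B0 with hLi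
  have hLi0 : 0 ≤ Li := by positivity
  have hDu0 : 0 ≤ Du := by positivity
  have hq8 : 1 ≤ Q ^ (1 / 8 : ℝ) := Real.one_le_rpow hQ1 (by norm_num)
  have hδ2 : δ ^ 2 * Q ^ 4 = Q ^ (1 / 8 : ℝ) := by
    rw [hδdef, ← Real.rpow_natCast, ← Real.rpow_mul hQ0.le, ← Real.rpow_natCast Q 4,
      ← Real.rpow_add hQ0]
    norm_num
  have hone : ∀ q ∈ P, ∀ β : ℝ, |β| ≤ δ →
      ‖∑ a ∈ (Finset.range q).filter (fun a => a.Coprime q),
        w ((a : ℝ) / q + β) * G0 ((a : ℝ) / q + β)‖ ≤ Du + (q.totient : ℝ) * Li := by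
    intro q hq β hβ
    obtain ⟨hp, h1, h2⟩ := hmem q hq
    have hq0 : (0 : ℝ) < q := by linarith
    set ζ : ℂ := (β : ℂ) + h * I with hζ
    have him : ζ.im = h := by simp [hζ]
    have hre : ζ.re = β := by simp [hζ]
    have hD := hdual X W b c q co ζ hX hW hb1 hbX hc1 hcX hp (by linarith) (by rw [him]; exact hh)
      (by rw [him]; exact hh1) hco0 hco
    rw [him] at hD
    have hz2 : ‖ζ‖ ^ 2 ≤ δ ^ 2 + h ^ 2 := by
      rw [Complex.sq_norm, Complex.normSq_apply, him, hre]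
      have : β ^ 2 ≤ δ ^ 2 := sq_le_sq' (by linarith [(abs_le.mp hβ).1]) (abs_le.mp hβ).2
      nlinarith
    have hinv : 1 / h = Q ^ 2 := by
      field_simp
      linarith
    have hA : 1 + (q : ℝ) ^ 2 * X * ‖ζ‖ ^ 2 / h ≤ 33 * X * Q ^ (1 / 8 : ℝ) := by
      have e1 : (q : ℝ) ^ 2 * X * ‖ζ‖ ^ 2 / h ≤ (4 * Q) ^ 2 * X * (δ ^ 2 + h ^ 2) / h := by
        gcongr
      have e2 : (4 * Q) ^ 2 * X * (δ ^ 2 + h ^ 2) / h = 16 * X * (δ ^ 2 * Q ^ 4 + (Q ^ 2 * h) ^ 2) := by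
        rw [div_eq_mul_one_div, hinv]
        ring
      rw [e2, hδ2, hQh] at e1
      have hX8 : 1 ≤ X * Q ^ (1 / 8 : ℝ) := by nlinarith
      nlinarith
    have hpow : (q : ℝ) ^ (3 / 4 : ℝ) ≤ 4 * Q ^ (3 / 4 : ℝ) := by
      calc (q : ℝ) ^ (3 / 4 : ℝ) ≤ (4 * Q) ^ (3 / 4 : ℝ) := by gcongr
        _ = 4 ^ (3 / 4 : ℝ) * Q ^ (3 / 4 : ℝ) := Real.mul_rpow (by norm_num) hQ0.le
        _ ≤ 4 * Q ^ (3 / 4 : ℝ) := by
            gcongr
            calc (4 : ℝ) ^ (3 / 4 : ℝ) ≤ 4 ^ (1 : ℝ) :=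
                  Real.rpow_le_rpow_of_exponent_le (by norm_num) (by norm_num)
              _ = 4 := Real.rpow_one 4
    have hh12 : h ^ (-12 : ℝ) = 1 / h ^ 12 := by
      rw [Real.rpow_neg hh.le, one_div]
      congr 1
      exact_mod_cast Real.rpow_natCast h 12
    have hD2 : ‖∑ a ∈ (Finset.range q).filter (fun a => a.Coprime q),
        w ((a : ℝ) / q) * G0 ((a : ℝ) / q + β)‖ ≤ Du := by
      have e : ∑ a ∈ (Finset.range q).filter (fun a => a.Coprime q),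
          w ((a : ℝ) / q) * G0 ((a : ℝ) / q + β) =
          ∑ a ∈ (Finset.range q).filter (fun a => a.Coprime q),
          (∑' j : ℤ, co j * ee (j * ((a : ℝ) / q))) *
            (Dc (b * ((a : ℂ) / q + ζ)) * conj (Dc (c * ((a : ℂ) / q + ζ)))) := by
        apply Finset.sum_congr rfl
        intro a ha
        rw [hw, hG0]
        have e3 : (((a : ℝ) / q + β : ℝ) : ℂ) + h * I = (a : ℂ) / q + ζ := by
          rw [hζ]
          push_cast
          ring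
        rw [e3]
      rw [e]
      refine hD.trans ?_
      rw [hh12, hDu]
      gcongr
    have hE : ‖∑ a ∈ (Finset.range q).filter (fun a => a.Coprime q),
        (w ((a : ℝ) / q + β) - w ((a : ℝ) / q)) * G0 ((a : ℝ) / q + β)‖ ≤
        (q.totient : ℝ) * Li := by
      have hcard : ((Finset.range q).filter (fun a => a.Coprime q)).card = q.totient := by
        rw [Nat.totient_eq_card_coprime]
        congr 1
        apply Finset.filter_congr
        intro a _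
        exact Nat.coprime_comm
      rw [← hcard, ← nsmul_eq_mul]
      refine norm_sum_le_of_le _ (f := fun a : ℕ => (w ((a : ℝ) / q + β) - w ((a : ℝ) / q)) *
        G0 ((a : ℝ) / q + β)) (n := fun _ => Li) ?_ |>.trans ?_
      · intro a _
        rw [norm_mul, hLi]
        have h3 := hwl ((a : ℝ) / q + β) ((a : ℝ) / q)
        rw [add_sub_cancel_left] at h3
        have h4 : 2 * Real.pi * (W * S) * |β| ≤ 2 * Real.pi * (W * S) * δ := by gcongr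
        exact mul_le_mul (h3.trans h4) (hGb _) (norm_nonneg _) (by positivity)
      · rw [Finset.sum_const]
    have e : ∑ a ∈ (Finset.range q).filter (fun a => a.Coprime q),
        w ((a : ℝ) / q + β) * G0 ((a : ℝ) / q + β) =
        (∑ a ∈ (Finset.range q).filter (fun a => a.Coprime q),
          w ((a : ℝ) / q) * G0 ((a : ℝ) / q + β)) +
        ∑ a ∈ (Finset.range q).filter (fun a => a.Coprime q),
          (w ((a : ℝ) / q + β) - w ((a : ℝ) / q)) * G0 ((a : ℝ) / q + β) := by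
      rw [← Finset.sum_add_distrib]
      apply Finset.sum_congr rfl
      intro a _
      ring
    rw [e]
    exact (norm_add_le _ _).trans (add_le_add hD2 hE)
  have htwo : ∀ q ∈ P, ‖∑ a ∈ (Finset.range q).filter (fun a => a.Coprime q),
      ∫ β in (-δ)..δ, w ((a : ℝ) / q + β) * G0 ((a : ℝ) / q + β)‖ ≤
      (Du + (q.totient : ℝ) * Li) * (2 * δ) := by
    intro q hq
    rw [← intervalIntegral.integral_finset_sum]
    · have h3 := intervalIntegral.norm_integral_le_of_norm_le_const (a := -δ) (b := δ)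
        (C := Du + (q.totient : ℝ) * Li)
        (f := fun β => ∑ a ∈ (Finset.range q).filter (fun a => a.Coprime q),
          w ((a : ℝ) / q + β) * G0 ((a : ℝ) / q + β)) (by
          intro β hβ
          apply hone q hq β
          rw [Set.uIoc_of_le (by linarith)] at hβ
          exact abs_le.mpr ⟨hβ.1.le, hβ.2⟩)
      have e : |δ - -δ| = 2 * δ := by
        rw [sub_neg_eq_add, ← two_mul, abs_of_pos (by positivity)]
      rw [e] at h3
      exact h3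
    · intro a _
      apply Continuous.intervalIntegrable
      exact hGc'.comp (by fun_prop : Continuous fun β : ℝ => (a : ℝ) / q + β)
  have hthree : ‖∑ q ∈ P, ∑ a ∈ (Finset.range q).filter (fun a => a.Coprime q),
      ∫ β in (-δ)..δ, w ((a : ℝ) / q + β) * G0 ((a : ℝ) / q + β)‖ ≤
      ((P.card : ℝ) * Du + L * Li) * (2 * δ) := by
    refine (norm_sum_le_of_le _ htwo).trans ?_
    rw [← Finset.sum_mul, Finset.sum_add_distrib, Finset.sum_const, nsmul_eq_mul,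
      ← Finset.sum_mul]
  have hfour : ‖1 / ((2 * δ * L : ℝ) : ℂ) *
      ∑ q ∈ P, ∑ a ∈ (Finset.range q).filter (fun a => a.Coprime q),
        ∫ β in (-δ)..δ, w ((a : ℝ) / q + β) * G0 ((a : ℝ) / q + β)‖ ≤ 2 / Q * Du + Li := by
    rw [norm_mul, norm_div, norm_one, Complex.norm_real, Real.norm_eq_abs,
      abs_of_pos (by positivity)]
    calc 1 / (2 * δ * L) * ‖∑ q ∈ P, ∑ a ∈ (Finset.range q).filter (fun a => a.Coprime q),
          ∫ β in (-δ)..δ, w ((a : ℝ) / q + β) * G0 ((a : ℝ) / q + β)‖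
        ≤ 1 / (2 * δ * L) * (((P.card : ℝ) * Du + L * Li) * (2 * δ)) := by gcongr
      _ = (P.card : ℝ) / L * Du + Li := by
          field_simp
      _ ≤ 2 / Q * Du + Li := by
          have hPL : (P.card : ℝ) / L ≤ 2 / Q := by
            rw [div_le_div_iff₀ hL0 hQ0]
            linarith
          have := mul_le_mul_of_nonneg_right hPL hDu0
          linarith
  have hfive : CJ * (W * S * B0) * Q / (L * δ ^ ((1 + 1 / 128 : ℝ) / 2)) ≤
      2 * CJ / cP * (W * S * B0) * Q ^ (-(1 / 64) : ℝ) := by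
    have h1 : cP / 2 * Q ^ (2 - 1 / 128 : ℝ) ≤ L := by
      refine le_trans ?_ hL
      have e : Q ^ (2 - 1 / 128 : ℝ) = Q ^ (1 - 1 / 128 : ℝ) * Q := by
        nth_rw 3 [← Real.rpow_one Q]
        rw [← Real.rpow_add hQ0]
        norm_num
      rw [e]
      nlinarith
    have h2 : δ ^ ((1 + 1 / 128 : ℝ) / 2) = Q ^ (-(3999 / 4096) : ℝ) := by
      rw [hδdef, ← Real.rpow_mul hQ0.le]
      norm_num
    have h3 : Q / (Q ^ (2 - 1 / 128 : ℝ) * Q ^ (-(3999 / 4096) : ℝ)) ≤ Q ^ (-(1 / 64) : ℝ) := by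
      nth_rw 1 [← Real.rpow_one Q]
      rw [← Real.rpow_add hQ0, ← Real.rpow_sub hQ0]
      apply Real.rpow_le_rpow_of_exponent_le hQ1
      norm_num
    rw [h2]
    calc CJ * (W * S * B0) * Q / (L * Q ^ (-(3999 / 4096) : ℝ))
        ≤ CJ * (W * S * B0) * Q / (cP / 2 * Q ^ (2 - 1 / 128 : ℝ) * Q ^ (-(3999 / 4096) : ℝ)) := by
          gcongr
      _ = 2 * CJ / cP * (W * S * B0) *
          (Q / (Q ^ (2 - 1 / 128 : ℝ) * Q ^ (-(3999 / 4096) : ℝ))) := by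
          field_simp
      _ ≤ 2 * CJ / cP * (W * S * B0) * Q ^ (-(1 / 64) : ℝ) := by gcongr
  have hsix : Li ≤ 2 * Real.pi * (W * S) * B0 * Q ^ (-(1 / 64) : ℝ) := by
    have : δ ≤ Q ^ (-(1 / 64) : ℝ) := Real.rpow_le_rpow_of_exponent_le hQ1 (by norm_num)
    calc Li = 2 * Real.pi * (W * S) * B0 * δ := by rw [hLi]; ring
      _ ≤ _ := by gcongr
  have hseven : 2 / Q * Du ≤ 264 * Cd * W * X * (1 / h ^ 12) * Q ^ (-(1 / 64) : ℝ) := by
    have h1 : Q ^ (3 / 4 : ℝ) * Q ^ (1 / 8 : ℝ) / Q ≤ Q ^ (-(1 / 64) : ℝ) := by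
      nth_rw 3 [← Real.rpow_one Q]
      rw [← Real.rpow_add hQ0, ← Real.rpow_sub hQ0]
      apply Real.rpow_le_rpow_of_exponent_le hQ1
      norm_num
    calc 2 / Q * Du = 264 * Cd * W * X * (1 / h ^ 12) *
          (Q ^ (3 / 4 : ℝ) * Q ^ (1 / 8 : ℝ) / Q) := by rw [hDu]; ring
      _ ≤ _ := by gcongr
  have hfin : ‖∫ x in (0 : ℝ)..1, w x * G0 x‖ ≤
      CJ * (W * S * B0) * Q / (L * δ ^ ((1 + 1 / 128 : ℝ) / 2)) + (2 / Q * Du + Li) := by
    have e : (∫ x in (0 : ℝ)..1, w x * G0 x) = ((∫ x in (0 : ℝ)..1, w x * G0 x) -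
        1 / ((2 * δ * L : ℝ) : ℂ) *
        ∑ q ∈ P, ∑ a ∈ (Finset.range q).filter (fun a => a.Coprime q),
          ∫ β in (-δ)..δ, w ((a : ℝ) / q + β) * G0 ((a : ℝ) / q + β)) +
        1 / ((2 * δ * L : ℝ) : ℂ) *
        ∑ q ∈ P, ∑ a ∈ (Finset.range q).filter (fun a => a.Coprime q),
          ∫ β in (-δ)..δ, w ((a : ℝ) / q + β) * G0 ((a : ℝ) / q + β) := by ring
    rw [e]
    exact (norm_add_le _ _).trans (add_le_add hJ1 hfour)
  refine hfin.trans ?_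
  refine (add_le_add hfive (add_le_add hseven hsix)).trans (le_of_eq ?_)
  rw [hB0]
  ring

theorem p_EQ (hpr : S_pr) (hJ : S_J1) (hper : S_per) (hdual : S_dual) : S_EQ := by
  obtain ⟨cP, hcP, hP⟩ := hpr (1 / 128) (by norm_num)
  obtain ⟨CJ, hCJ, hJ⟩ := hJ (1 / 128) (by norm_num) (by norm_num)
  obtain ⟨Cp, hCp, hper⟩ := hper
  obtain ⟨Cd, hCd, hdual⟩ := hdual
  obtain ⟨CD, hCD, hDb⟩ := Dc_bound
  set S : ℝ := ∑' j : ℤ, 1 / (1 + |(j : ℝ)|) ^ 2 with hS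
  have hS0 : 0 ≤ S := tsum_nonneg fun j => by positivity
  refine ⟨(2 * CJ / cP + 2 * Real.pi + 1) * (Cp * S) * CD ^ 2 + 264 * Cd * Cp, 5, 1 / 128,
    by positivity, by norm_num, by norm_num, by norm_num, ?_⟩
  intro X U h b c hX hU1 hU2 hh hh1 hb1 hbX hc1 hcX
  obtain ⟨co, hco0, hco, hint⟩ := hper X U hX hU1 hU2
  have hX0 : 0 < X := by linarith
  have hX1 : 1 ≤ X := by linarith
  set W : ℝ := Cp * X ^ 4 with hWdef
  have hW : 0 ≤ W := by positivity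
  obtain ⟨hwc, hwp, hwb, hwl⟩ := dn_EQ_w co W hW hco
  obtain ⟨hbc, hbp, hbb⟩ := dn_EQ_G0 hCD hDb hh hb1
  obtain ⟨hcc, hcp, hcb⟩ := dn_EQ_G0 hCD hDb hh hc1
  have hGc : Continuous (fun x : ℝ => Dc (b * (x + h * I)) * conj (Dc (c * (x + h * I)))) :=
    hbc.mul (Complex.continuous_conj.comp hcc)
  have hGp : ∀ x : ℝ, Dc (b * (((x + 1 : ℝ) : ℂ) + h * I)) *
      conj (Dc (c * (((x + 1 : ℝ) : ℂ) + h * I))) =
      Dc (b * (x + h * I)) * conj (Dc (c * (x + h * I))) := by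
    intro x
    rw [hbp, hcp]
  have hGb : ∀ x : ℝ, ‖Dc (b * (x + h * I)) * conj (Dc (c * (x + h * I)))‖ ≤
      CD ^ 2 * (1 / h ^ 12) := by
    intro x
    rw [norm_mul, Complex.norm_conj]
    calc ‖Dc (b * (x + h * I))‖ * ‖Dc (c * (x + h * I))‖ ≤ (CD / h ^ 6) * (CD / h ^ 6) :=
          mul_le_mul (hbb x) (hcb x) (norm_nonneg _) (by positivity)
      _ = CD ^ 2 * (1 / h ^ 12) := by field_simp
  have hI := hint (fun x : ℝ => Dc (b * (x + h * I)) * conj (Dc (c * (x + h * I)))) hGc hGp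
  rw [hI]
  set Q : ℝ := h ^ (-(1 / 2) : ℝ) with hQdef
  have hQ0 : 0 < Q := by positivity
  have hQh : Q ^ 2 * h = 1 := by
    rw [hQdef, ← Real.rpow_natCast, ← Real.rpow_mul hh.le]
    nth_rw 2 [← Real.rpow_one h]
    rw [← Real.rpow_add hh]
    norm_num
  have hQe : Q ^ (-(1 / 64) : ℝ) = h ^ (1 / 128 : ℝ) := by
    rw [hQdef, ← Real.rpow_mul hh.le]
    norm_num
  have hhe : h ^ (-12 + 1 / 128 : ℝ) = 1 / h ^ 12 * h ^ (1 / 128 : ℝ) := by
    have hh12 : h ^ (-12 : ℝ) = 1 / h ^ 12 := by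
      rw [Real.rpow_neg hh.le, one_div]
      congr 1
      exact_mod_cast Real.rpow_natCast h 12
    rw [Real.rpow_add hh, hh12]
  have hX5 : X ^ (5 : ℝ) = X ^ 5 := by exact_mod_cast Real.rpow_natCast X 5
  rw [hhe, hX5]
  have hh128 : 0 < h ^ (1 / 128 : ℝ) := by positivity
  by_cases hcase : X < Q
  · have h1 := dn_EQ_main hcP hCJ hCd hCD hS0 hP hJ hdual
      (fun x : ℝ => ∑' j : ℤ, co j * ee (j * x))
      (fun x : ℝ => Dc (b * (x + h * I)) * conj (Dc (c * (x + h * I)))) co hX hW hh hh1 hb1 hbX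
      hc1 hcX hcase hQh hco0 hco (fun x => rfl) (fun x => rfl) hwc hwp hwb hwl hGc hGp hGb
    refine h1.trans ?_
    rw [hQe]
    have hX45 : X ^ 4 ≤ X ^ 5 := pow_le_pow_right₀ hX1 (by norm_num)
    have hW5 : W ≤ Cp * X ^ 5 := by
      rw [hWdef]
      gcongr
    have hWX : W * X = Cp * X ^ 5 := by
      rw [hWdef]
      ring
    have hpi := Real.pi_pos
    calc ((2 * CJ / cP + 2 * Real.pi) * (W * S) * CD ^ 2 + 264 * Cd * W * X) * (1 / h ^ 12) *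
          h ^ (1 / 128 : ℝ)
        = ((2 * CJ / cP + 2 * Real.pi) * (W * S) * CD ^ 2 + 264 * Cd * (W * X)) * (1 / h ^ 12) *
          h ^ (1 / 128 : ℝ) := by ring
      _ ≤ ((2 * CJ / cP + 2 * Real.pi) * ((Cp * X ^ 5) * S) * CD ^ 2 +
          264 * Cd * (Cp * X ^ 5)) * (1 / h ^ 12) * h ^ (1 / 128 : ℝ) := by
          rw [hWX]
          gcongr
      _ = ((2 * CJ / cP + 2 * Real.pi) * (Cp * S) * CD ^ 2 + 264 * Cd * Cp) * X ^ 5 *
          (1 / h ^ 12 * h ^ (1 / 128 : ℝ)) := by ring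
      _ ≤ ((2 * CJ / cP + 2 * Real.pi + 1) * (Cp * S) * CD ^ 2 + 264 * Cd * Cp) * X ^ 5 *
          (1 / h ^ 12 * h ^ (1 / 128 : ℝ)) := by
          have : (2 * CJ / cP + 2 * Real.pi) * (Cp * S) * CD ^ 2 + 264 * Cd * Cp ≤
              (2 * CJ / cP + 2 * Real.pi + 1) * (Cp * S) * CD ^ 2 + 264 * Cd * Cp := by
            have h6 : 0 ≤ 1 * (Cp * S) * CD ^ 2 := by positivity
            linarith
          gcongr
  · rw [not_lt] at hcase
    have h1 : ‖∫ x in (0 : ℝ)..1, (∑' j : ℤ, co j * ee (j * x)) *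
        (Dc (b * (x + h * I)) * conj (Dc (c * (x + h * I))))‖ ≤
        W * S * (CD ^ 2 * (1 / h ^ 12)) * |1 - 0| := by
      apply intervalIntegral.norm_integral_le_of_norm_le_const
      intro x _
      rw [norm_mul]
      exact mul_le_mul (hwb x) (hGb x) (norm_nonneg _) (by positivity)
    refine h1.trans ?_
    have h2 : 1 ≤ X * h ^ (1 / 128 : ℝ) := by
      have h3 : Q ^ (1 / 64 : ℝ) ≤ X := by
        calc Q ^ (1 / 64 : ℝ) ≤ X ^ (1 / 64 : ℝ) := by gcongr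
          _ ≤ X ^ (1 : ℝ) := Real.rpow_le_rpow_of_exponent_le hX1 (by norm_num)
          _ = X := Real.rpow_one X
      rw [← hQe]
      have h4 : Q ^ (1 / 64 : ℝ) * Q ^ (-(1 / 64) : ℝ) = 1 := by
        rw [← Real.rpow_add hQ0]
        norm_num
      calc (1 : ℝ) = Q ^ (1 / 64 : ℝ) * Q ^ (-(1 / 64) : ℝ) := h4.symm
        _ ≤ X * Q ^ (-(1 / 64) : ℝ) := by gcongr
    have h5 : 0 ≤ Cp * S * CD ^ 2 * X ^ 4 * (1 / h ^ 12) := by positivity
    calc W * S * (CD ^ 2 * (1 / h ^ 12)) * |1 - 0|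
        = Cp * S * CD ^ 2 * X ^ 4 * (1 / h ^ 12) * 1 := by
          rw [hWdef]
          norm_num
          ring
      _ ≤ Cp * S * CD ^ 2 * X ^ 4 * (1 / h ^ 12) * (X * h ^ (1 / 128 : ℝ)) := by gcongr
      _ = (1 * (Cp * S) * CD ^ 2) * X ^ 5 * (1 / h ^ 12 * h ^ (1 / 128 : ℝ)) := by ring
      _ ≤ ((2 * CJ / cP + 2 * Real.pi + 1) * (Cp * S) * CD ^ 2 + 264 * Cd * Cp) * X ^ 5 *
          (1 / h ^ 12 * h ^ (1 / 128 : ℝ)) := by
          have hpi := Real.pi_pos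
          have : 1 * (Cp * S) * CD ^ 2 ≤
              (2 * CJ / cP + 2 * Real.pi + 1) * (Cp * S) * CD ^ 2 + 264 * Cd * Cp := by
            have h6 : 0 ≤ (2 * CJ / cP + 2 * Real.pi) * (Cp * S) * CD ^ 2 := by positivity
            have h7 : 0 ≤ 264 * Cd * Cp := by positivity
            linarith
          gcongr

end Pool.Agent.Lib.MP_cd509c_nt.DN
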