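import Mathlib
import Pool.Agent.Lib.MP_cd509c_nt.DN.Defs

/-!
# Piece H: from blocks to the final statement for the heat flow
-/

set_option autoImplicit false

namespace Pool.Agent.Lib.MP_cd509c_nt.DN

open Complex ComplexConjugate MeasureTheory

lemma dn_H_diff (t : ℝ) : Differentiable ℂ (Ht t) := by
  have h := (Ker_PhiT t).FT_differentiable
  have e : FT (PhiT t) = Ht t := funext (FT_PhiT t)
  rwa [e] at h

lemma dn_H_ord (t : ℝ) (z : ℂ) : analyticOrderNatAt (Ht t) (-z) = analyticOrderNatAt (Ht t) z := by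
  have hd := dn_H_diff t
  have h1 : Ht t = Ht t ∘ fun z => -z := by
    funext z
    simp only [Function.comp]
    exact (Ht_even t z).symm
  have h2 : analyticOrderAt (Ht t) z = analyticOrderAt (Ht t) (-z) := by
    conv_lhs => rw [h1]
    rw [analyticOrderAt_comp_of_deriv_ne_zero (g := fun z : ℂ => -z) (by fun_prop)
      (by simp)]
  unfold analyticOrderNatAt
  rw [h2]

theorem p_H (F : ℝ → ℝ) (hF : ∀ T : ℝ, 2 ≤ T → 0 ≤ F T) (h : S_blockH F) : S_H F := by
  classical
  obtain ⟨C₀, hC₀, hreal⟩ := Ht_real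
  obtain ⟨C₁, c, T₀, hC₁, hc, hT₀, hblock⟩ := h C₀ hC₀
  refine ⟨2 * C₁ + Real.log T₀ ^ 2, c, by positivity, hc, fun t T ht1 hT htT S hS => ?_⟩
  have hT0 : 0 < T := by linarith
  have hlog : 0 < Real.log T := Real.log_pos (by linarith)
  have hlog2 : 0 < Real.log T ^ 2 := by positivity
  have hC0 : 0 < 2 * C₁ + Real.log T₀ ^ 2 := by positivity
  have ht : 0 < t := by
    by_contra hcon
    push Not at hcon
    nlinarith
  have hFT := hF T hT
  rcases le_or_gt C₀ (t * Real.log T) with hbig | hsmall
  · -- no non-real zeros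
    have hSe : S = ∅ := by
      rw [Finset.eq_empty_iff_forall_notMem]
      intro z hz
      obtain ⟨h1, h2, h3, h4⟩ := hS z hz
      apply h2
      apply hreal t ht ht1 z _ h1
      refine le_trans ?_ h3
      rw [← Real.le_log_iff_exp_le hT0, div_le_iff₀ ht]
      linarith
    rw [hSe, Finset.sum_empty]
    positivity
  · have hTT₀ : T₀ ≤ T := by
      have h1 : Real.log T₀ ^ 2 ≤ Real.log T ^ 2 := by
        have : t * Real.log T ^ 2 ≤ 1 * Real.log T ^ 2 :=
          mul_le_mul_of_nonneg_right ht1 hlog2.le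
        linarith
      have h2 : Real.log T₀ ≤ Real.log T := by
        have := sq_le_sq.1 h1
        rw [abs_of_nonneg hlog.le] at this
        exact (le_abs_self _).trans this
      exact (Real.log_le_log_iff (by linarith) hT0).1 h2
    have hC₁t : C₁ ≤ t * Real.log T ^ 2 := by
      have : 0 ≤ Real.log T₀ ^ 2 := by positivity
      linarith
    have hb := hblock t T hTT₀ ht hC₁t hsmall.le
    have hsplit : S = (S.filter fun z => T ≤ z.re) ∪ (S.filter fun z => T ≤ -z.re) := by
      ext z
      simp only [Finset.mem_union, Finset.mem_filter]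
      constructor
      · intro hz
        obtain ⟨h1, h2, h3, h4⟩ := hS z hz
        rcases le_abs.1 h3 with h5 | h5
        · exact Or.inl ⟨hz, h5⟩
        · exact Or.inr ⟨hz, h5⟩
      · rintro (h | h) <;> exact h.1
    have hdisj : Disjoint (S.filter fun z => T ≤ z.re) (S.filter fun z => T ≤ -z.re) := by
      rw [Finset.disjoint_left]
      intro z hz hz'
      have h1 := (Finset.mem_filter.1 hz).2
      have h2 := (Finset.mem_filter.1 hz').2
      linarith
    have hp := hb (S.filter fun z => T ≤ z.re) (by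
      intro z hz
      obtain ⟨hz1, hz2⟩ := Finset.mem_filter.1 hz
      obtain ⟨h1, h2, h3, h4⟩ := hS z hz1
      exact ⟨h1, h2, hz2, (le_abs_self _).trans h4⟩)
    have hn := hb ((S.filter fun z => T ≤ -z.re).image fun z => -z) (by
      intro w hw
      obtain ⟨z, hz, rfl⟩ := Finset.mem_image.1 hw
      obtain ⟨hz1, hz2⟩ := Finset.mem_filter.1 hz
      obtain ⟨h1, h2, h3, h4⟩ := hS z hz1
      refine ⟨?_, ?_, ?_, ?_⟩
      · rw [Ht_even]; exact h1
      · simpa using h2
      · simpa using hz2
      · rw [Complex.neg_re]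
        exact (neg_le_abs _).trans h4)
    rw [Finset.sum_image (fun a _ b _ hab => neg_injective hab)] at hn
    simp_rw [dn_H_ord] at hn
    rw [hsplit, Finset.sum_union hdisj]
    have hE : 0 ≤ T * Real.log T * F T * Real.exp (-(c * t * Real.log T ^ 2)) := by positivity
    have hE2 : 0 ≤ Real.log T₀ ^ 2 *
        (T * Real.log T * F T * Real.exp (-(c * t * Real.log T ^ 2))) := by positivity
    nlinarith

end Pool.Agent.Lib.MP_cd509c_nt.DN
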