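import Pool.Agent.Lib.MP_cd509c_nt.DN.Defs

/-!
Project DN, piece HB: Hermite-Biehler type monotonicity.
-/

set_option autoImplicit false

namespace Pool.Agent.Lib.MP_cd509c_nt.DN

open Complex ComplexConjugate MeasureTheory

/-- A zero-free function on a disc has a logarithm. -/
private lemma dn_HB_log {B : ℂ → ℂ} {ρ : ℝ} (hρ : 0 < ρ)
    (hB : DifferentiableOn ℂ B (Metric.ball 0 ρ)) (hne : ∀ w ∈ Metric.ball (0 : ℂ) ρ, B w ≠ 0) :
    ∃ h : ℂ → ℂ, h 0 = 0 ∧ (∀ w ∈ Metric.ball (0 : ℂ) ρ, HasDerivAt h (deriv B w / B w) w) ∧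
      ∀ w ∈ Metric.ball (0 : ℂ) ρ, B w = B 0 * cexp (h w) := by
  have hL : DifferentiableOn ℂ (fun w => deriv B w / B w) (Metric.ball 0 ρ) :=
    (hB.deriv Metric.isOpen_ball).div hB hne
  obtain ⟨h, hh0, hh⟩ := hL.isExactOn_ball.with_val_at 0 0
  refine ⟨h, hh0, hh, ?_⟩
  have hder : ∀ w ∈ Metric.ball (0 : ℂ) ρ, HasDerivAt (fun w => B w * cexp (-h w)) 0 w := by
    intro w hw
    have e0 : HasDerivAt B (deriv B w) w :=
      (hB.differentiableAt (Metric.isOpen_ball.mem_nhds hw)).hasDerivAt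
    have e1 := e0.fun_mul ((hh w hw).fun_neg.cexp)
    have : deriv B w * cexp (-h w) + B w * (cexp (-h w) * -(deriv B w / B w)) = 0 := by
      have := hne w hw
      field_simp
      ring
    rw [this] at e1
    exact e1
  intro w hw
  have h0mem : (0 : ℂ) ∈ Metric.ball (0 : ℂ) ρ := Metric.mem_ball_self hρ
  have hc := (convex_ball (0 : ℂ) ρ).is_const_of_fderivWithin_eq_zero (𝕜 := ℂ)
    (f := fun w => B w * cexp (-h w))
    (fun x hx => (hder x hx).differentiableAt.differentiableWithinAt) (fun x hx => by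
      rw [fderivWithin_of_isOpen Metric.isOpen_ball hx]
      have := (hder x hx).hasFDerivAt.fderiv
      rw [this]
      ext
      simp) hw h0mem
  simp only [hh0, neg_zero, Complex.exp_zero, mul_one] at hc
  rw [← hc, mul_assoc, ← Complex.exp_add]
  simp

theorem p_HB : S_HB := by
  intro ρ η N c B hρ hN hη hηρ hB hw y hy hy2
  obtain ⟨h, hh0, hhd, hhe⟩ := dn_HB_log hρ hB (fun w hw' => (hw w hw').1)
  have h0mem : (0 : ℂ) ∈ Metric.ball (0 : ℂ) ρ := Metric.mem_ball_self hρ
  have hB0 : B 0 ≠ 0 := (hw 0 h0mem).1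
  have hlog : ∀ w ∈ Metric.ball (0 : ℂ) ρ, Real.log ‖B w‖ = Real.log ‖B 0‖ + (h w).re := by
    intro w hw'
    rw [hhe w hw', norm_mul, Complex.norm_exp,
      Real.log_mul (norm_ne_zero_iff.2 hB0) (Real.exp_pos _).ne', Real.log_exp]
  have hmem : ∀ t : ℝ, |t| ≤ ρ / 2 → ∀ z ∈ Metric.ball (0 : ℂ) (ρ / 2),
      (t : ℂ) + z ∈ Metric.ball (0 : ℂ) ρ := by
    intro t ht z hz
    rw [mem_ball_zero_iff] at hz ⊢
    calc ‖(t : ℂ) + z‖ ≤ ‖(t : ℂ)‖ + ‖z‖ := norm_add_le _ _
      _ < ρ := by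
        rw [Complex.norm_real, Real.norm_eq_abs]
        linarith
  have hpos : ∀ t : ℝ, |t| ≤ ρ / 2 → 0 < (deriv B t / B t).re := by
    intro t ht
    have htm : (t : ℂ) ∈ Metric.ball (0 : ℂ) ρ := by
      have := hmem t ht 0 (Metric.mem_ball_self (by linarith))
      rwa [add_zero] at this
    set g : ℂ → ℂ := fun z => h (t + z) - N * z - h t with hg
    have hgd : ∀ z ∈ Metric.ball (0 : ℂ) (ρ / 2),
        HasDerivAt g (deriv B (t + z) / B (t + z) - N) z := by
      intro z hz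
      have e1 : HasDerivAt (fun z : ℂ => h (t + z)) (deriv B (t + z) / B (t + z)) z := by
        have e2 := (hhd _ (hmem t ht z hz)).comp_const_add (t : ℂ) z
        exact e2
      have e3 : HasDerivAt (fun z : ℂ => (N : ℂ) * z) N z := by
        simpa using (hasDerivAt_id z).const_mul (N : ℂ)
      exact (e1.sub e3).sub_const _
    have hg0 : g 0 = 0 := by simp [hg]
    have hM : 0 < ρ * N / 16 := by positivity
    have hre : Set.MapsTo g (Metric.ball 0 (ρ / 2)) {z | z.re ≤ ρ * N / 16} := by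
      intro z hz
      have h1 := abs_le.1 (hw _ (hmem t ht z hz)).2
      have h2 := abs_le.1 (hw _ htm).2
      rw [hlog _ (hmem t ht z hz)] at h1
      rw [hlog _ htm] at h2
      have h3 : (g z).re = (h (t + z)).re - N * z.re - (h t).re := by
        simp [hg]
      show (g z).re ≤ ρ * N / 16
      rw [h3]
      have h4 : ((t : ℂ) + z).re = t + z.re := by simp
      rw [h4] at h1
      have h5 : (t : ℂ).re = t := by simp
      rw [h5] at h2
      have h6 : 2 * (η * N) ≤ ρ * N / 16 := by nlinarith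
      linarith [h1.2, h2.1]
    have hb : ∀ z ∈ Metric.ball (0 : ℂ) (ρ / 4), ‖g z‖ ≤ N / 2 * ‖z‖ := by
      intro z hz
      rw [mem_ball_zero_iff] at hz
      have h1 := Complex.borelCaratheodory_zero hM
        (fun z hz => (hgd z hz).differentiableAt.differentiableWithinAt) hre (by linarith)
        (z := z) (by rw [mem_ball_zero_iff]; linarith) hg0
      refine h1.trans ?_
      have h2 : 0 < ρ / 2 - ‖z‖ := by linarith
      rw [div_le_iff₀ h2]
      have h3 : ρ / 4 ≤ ρ / 2 - ‖z‖ := by linarith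
      have h4 : 0 ≤ N / 2 * ‖z‖ := by positivity
      calc 2 * (ρ * N / 16) * ‖z‖ = N / 2 * ‖z‖ * (ρ / 4) := by ring
        _ ≤ N / 2 * ‖z‖ * (ρ / 2 - ‖z‖) := mul_le_mul_of_nonneg_left h3 h4
    have hgd0 := hgd 0 (Metric.mem_ball_self (by linarith))
    rw [add_zero] at hgd0
    have hle : ‖(deriv B t / B t - N : ℂ)‖ ≤ N / 2 := by
      have h1 := hgd0.hasFDerivAt.le_of_lip' (C := N / 2) (by positivity) (by
        filter_upwards [Metric.ball_mem_nhds (0 : ℂ) (show 0 < ρ / 4 by linarith)] with z hz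
        rw [hg0, sub_zero, sub_zero]
        exact hb z hz)
      simpa using h1
    have h2 := (abs_le.1 ((Complex.abs_re_le_norm _).trans hle)).1
    rw [Complex.sub_re, Complex.ofReal_re] at h2
    linarith
  have hball : ∀ t : ℝ, |t| ≤ ρ / 2 → (t : ℂ) ∈ Metric.ball (0 : ℂ) ρ := by
    intro t ht
    have := hmem t ht 0 (Metric.mem_ball_self (by linarith))
    rwa [add_zero] at this
  have hder : ∀ t : ℝ, |t| ≤ ρ / 2 →
      HasDerivAt (fun t : ℝ => (h t).re) (deriv B t / B t).re t := fun t ht =>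
    (hhd _ (hball t ht)).real_of_complex
  have hmono : StrictMonoOn (fun t : ℝ => (h t).re) (Set.Icc (-(ρ / 2)) (ρ / 2)) := by
    apply strictMonoOn_of_deriv_pos (convex_Icc _ _)
    · intro t ht
      exact (hder t (abs_le.2 ht)).continuousAt.continuousWithinAt
    · intro t ht
      rw [interior_Icc] at ht
      have ht' : |t| ≤ ρ / 2 := abs_le.2 ⟨ht.1.le, ht.2.le⟩
      rw [(hder t ht').deriv]
      exact hpos t ht'
  have h1 := hmono (a := -y) (b := y) ⟨by linarith, by linarith⟩ ⟨by linarith, by linarith⟩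
    (by linarith)
  have hym : |y| ≤ ρ / 2 := by rw [abs_of_pos hy]; exact hy2
  have hym' : |-y| ≤ ρ / 2 := by rw [abs_neg]; exact hym
  have h2 := hlog _ (hball y hym)
  have h3 := hlog _ (hball (-y) hym')
  have h4 : Real.log ‖B ((-y : ℝ) : ℂ)‖ < Real.log ‖B y‖ := by
    rw [h2, h3]
    have : (h ((-y : ℝ) : ℂ)).re < (h (y : ℂ)).re := h1
    linarith
  have h5 := (Real.log_lt_log_iff (norm_pos_iff.2 (hw _ (hball (-y) hym')).1)
    (norm_pos_iff.2 (hw _ (hball y hym)).1)).1 h4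
  rwa [Complex.ofReal_neg] at h5

end Pool.Agent.Lib.MP_cd509c_nt.DN
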