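import Pool.Agent.Lib.MP_cd509c_nt.DN.Defs3

/-!
Project DN, piece HB2: argument monotonicity and zeros on the imaginary axis.
-/

set_option autoImplicit false

namespace Pool.Agent.Lib.MP_cd509c_nt.DN

open Complex ComplexConjugate MeasureTheory

/-- A zero-free function on a disc has a logarithm. -/
private lemma dn_HB2_log {B : ℂ → ℂ} {ρ : ℝ} (hρ : 0 < ρ)
    (hB : DifferentiableOn ℂ B (Metric.ball 0 ρ)) (hne : ∀ w ∈ Metric.ball (0 : ℂ) ρ, B w ≠ 0) :
    ∃ h : ℂ → ℂ, h 0 = 0 ∧ (∀ w ∈ Metric.ball (0 : ℂ) ρ, HasDerivAt h (deriv B w / B w) w) ∧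
      ∀ w ∈ Metric.ball (0 : ℂ) ρ, B w = B 0 * cexp (h w) := by
  have hL : DifferentiableOn ℂ (fun w => deriv B w / B w) (Metric.ball 0 ρ) :=
    (hB.deriv Metric.isOpen_ball).div hB hne
  obtain ⟨h, hh0, hh⟩ := hL.isExactOn_ball.with_val_at 0 0
  refine ⟨h, hh0, hh, ?_⟩
  have hder : ∀ w ∈ Metric.ball (0 : ℂ) ρ, HasDerivAt (fun w => B w * cexp (-h w)) 0 w := by
    intro w hw
    have e0 : HasDerivAt B (deriv B w) w :=
      (hB.differentiableAt (Metric.isOpen_ball.mem_nhds hw)).hasDerivAt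
    have e1 := e0.fun_mul ((hh w hw).fun_neg.cexp)
    have : deriv B w * cexp (-h w) + B w * (cexp (-h w) * -(deriv B w / B w)) = 0 := by
      have := hne w hw
      field_simp
      ring
    rw [this] at e1
    exact e1
  intro w hw
  have h0mem : (0 : ℂ) ∈ Metric.ball (0 : ℂ) ρ := Metric.mem_ball_self hρ
  have hc := (convex_ball (0 : ℂ) ρ).is_const_of_fderivWithin_eq_zero (𝕜 := ℂ)
    (f := fun w => B w * cexp (-h w))
    (fun x hx => (hder x hx).differentiableAt.differentiableWithinAt) (fun x hx => by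
      rw [fderivWithin_of_isOpen Metric.isOpen_ball hx]
      have := (hder x hx).hasFDerivAt.fderiv
      rw [this]
      ext
      simp) hw h0mem
  simp only [hh0, neg_zero, Complex.exp_zero, mul_one] at hc
  rw [← hc, mul_assoc, ← Complex.exp_add]
  simp

/-- The logarithmic derivative has real part at least `N / 2`. -/
private lemma dn_HB2_der {ρ η N c₀ : ℝ} {B h : ℂ → ℂ} (hρ : 0 < ρ) (hN : 0 < N)
    (hηρ : η < ρ / 32)
    (hhd : ∀ w ∈ Metric.ball (0 : ℂ) ρ, HasDerivAt h (deriv B w / B w) w)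
    (hhe : ∀ w ∈ Metric.ball (0 : ℂ) ρ, B w = B 0 * cexp (h w))
    (hw : ∀ w ∈ Metric.ball (0 : ℂ) ρ, B w ≠ 0 ∧ |Real.log ‖B w‖ - c₀ - N * w.re| ≤ η * N)
    (p : ℂ) (hp : ‖p‖ ≤ ρ / 2) : N / 2 ≤ (deriv B p / B p).re := by
  have h0mem : (0 : ℂ) ∈ Metric.ball (0 : ℂ) ρ := Metric.mem_ball_self hρ
  have hB0 : B 0 ≠ 0 := (hw 0 h0mem).1
  have hlog : ∀ w ∈ Metric.ball (0 : ℂ) ρ, Real.log ‖B w‖ = Real.log ‖B 0‖ + (h w).re := by
    intro w hw'
    rw [hhe w hw', norm_mul, Complex.norm_exp,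
      Real.log_mul (norm_ne_zero_iff.2 hB0) (Real.exp_pos _).ne', Real.log_exp]
  have hmem : ∀ z ∈ Metric.ball (0 : ℂ) (ρ / 2), p + z ∈ Metric.ball (0 : ℂ) ρ := by
    intro z hz
    rw [mem_ball_zero_iff] at hz ⊢
    calc ‖p + z‖ ≤ ‖p‖ + ‖z‖ := norm_add_le _ _
      _ < ρ := by linarith
  have hpm : p ∈ Metric.ball (0 : ℂ) ρ := by
    rw [mem_ball_zero_iff]
    linarith
  set g : ℂ → ℂ := fun z => h (p + z) - N * z - h p with hg
  have hgd : ∀ z ∈ Metric.ball (0 : ℂ) (ρ / 2),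
      HasDerivAt g (deriv B (p + z) / B (p + z) - N) z := by
    intro z hz
    have e1 : HasDerivAt (fun z : ℂ => h (p + z)) (deriv B (p + z) / B (p + z)) z := by
      have e2 := (hhd _ (hmem z hz)).comp_const_add p z
      exact e2
    have e3 : HasDerivAt (fun z : ℂ => (N : ℂ) * z) N z := by
      simpa using (hasDerivAt_id z).const_mul (N : ℂ)
    exact (e1.sub e3).sub_const _
  have hg0 : g 0 = 0 := by simp [hg]
  have hM : 0 < ρ * N / 16 := by positivity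
  have hre : Set.MapsTo g (Metric.ball 0 (ρ / 2)) {z | z.re ≤ ρ * N / 16} := by
    intro z hz
    have h1 := abs_le.1 (hw _ (hmem z hz)).2
    have h2 := abs_le.1 (hw _ hpm).2
    rw [hlog _ (hmem z hz)] at h1
    rw [hlog _ hpm] at h2
    have h3 : (g z).re = (h (p + z)).re - N * z.re - (h p).re := by
      simp [hg]
    show (g z).re ≤ ρ * N / 16
    rw [h3]
    have h4 : (p + z).re = p.re + z.re := by simp
    rw [h4] at h1
    have h6 : 2 * (η * N) ≤ ρ * N / 16 := by nlinarith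
    linarith [h1.2, h2.1]
  have hb : ∀ z ∈ Metric.ball (0 : ℂ) (ρ / 4), ‖g z‖ ≤ N / 2 * ‖z‖ := by
    intro z hz
    rw [mem_ball_zero_iff] at hz
    have h1 := Complex.borelCaratheodory_zero hM
      (fun z hz => (hgd z hz).differentiableAt.differentiableWithinAt) hre (by linarith)
      (z := z) (by rw [mem_ball_zero_iff]; linarith) hg0
    refine h1.trans ?_
    have h2 : 0 < ρ / 2 - ‖z‖ := by linarith
    rw [div_le_iff₀ h2]
    have h3 : ρ / 4 ≤ ρ / 2 - ‖z‖ := by linarith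
    have h4 : 0 ≤ N / 2 * ‖z‖ := by positivity
    calc 2 * (ρ * N / 16) * ‖z‖ = N / 2 * ‖z‖ * (ρ / 4) := by ring
      _ ≤ N / 2 * ‖z‖ * (ρ / 2 - ‖z‖) := mul_le_mul_of_nonneg_left h3 h4
  have hgd0 := hgd 0 (Metric.mem_ball_self (by linarith))
  rw [add_zero] at hgd0
  have hle : ‖(deriv B p / B p - N : ℂ)‖ ≤ N / 2 := by
    have h1 := hgd0.hasFDerivAt.le_of_lip' (C := N / 2) (by positivity) (by
      filter_upwards [Metric.ball_mem_nhds (0 : ℂ) (show 0 < ρ / 4 by linarith)] with z hz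
      rw [hg0, sub_zero, sub_zero]
      exact hb z hz)
    simpa using h1
  have h2 := (abs_le.1 ((Complex.abs_re_le_norm _).trans hle)).1
  rw [Complex.sub_re, Complex.ofReal_re] at h2
  linarith

/-- If the argument is `g / 2` modulo `pi` then `b + c conj b` vanishes. -/
private lemma dn_HB2_zero {r ψ g : ℝ} {b c : ℂ} (hb : b = r * cexp (ψ * I))
    (hc : -c = cexp (g * I)) (k : ℤ) (hk : ψ = g / 2 + Real.pi * k) : b + c * conj b = 0 := by
  have h1 : conj b = r * cexp (-(ψ * I)) := by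
    rw [hb, map_mul, Complex.conj_ofReal, ← Complex.exp_conj, map_mul, Complex.conj_ofReal,
      Complex.conj_I, mul_neg]
  have h2 : cexp (g * I) = cexp (ψ * I) * cexp (ψ * I) := by
    rw [← Complex.exp_add]
    have : (ψ : ℂ) * I + ψ * I = g * I + k * (2 * Real.pi * I) := by
      rw [hk]
      push_cast
      ring
    rw [this, Complex.exp_periodic.int_mul]
  have h3 : c = -(cexp (ψ * I) * cexp (ψ * I)) := by
    rw [← h2, ← hc, neg_neg]
  have h4 : cexp (ψ * I) * cexp (-(ψ * I)) = 1 := by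
    rw [← Complex.exp_add]
    simp
  rw [h1, h3, hb]
  linear_combination (-(r : ℂ)) * cexp (ψ * I) * h4

theorem p_HB2 : S_HB2 := by
  intro ρ η N c₀ B c hρ hN hη hηρ hc hB hw
  obtain ⟨h, hh0, hhd, hhe⟩ := dn_HB2_log hρ hB (fun w hw' => (hw w hw').1)
  have hmem : ∀ τ : ℝ, |τ| ≤ ρ / 2 → ‖(τ * I : ℂ)‖ ≤ ρ / 2 := by
    intro τ hτ
    rw [norm_mul, Complex.norm_I, mul_one, Complex.norm_real, Real.norm_eq_abs]
    exact hτ
  have hball : ∀ τ : ℝ, |τ| ≤ ρ / 2 → (τ * I : ℂ) ∈ Metric.ball (0 : ℂ) ρ := by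
    intro τ hτ
    rw [mem_ball_zero_iff]
    linarith [hmem τ hτ]
  obtain ⟨ψ, hψ⟩ : ∃ ψ : ℝ → ℝ, ψ = fun τ : ℝ => (h ((τ : ℂ) * I)).im + arg (B 0) := ⟨_, rfl⟩
  have hder : ∀ τ : ℝ, |τ| ≤ ρ / 2 → HasDerivAt ψ (deriv B (τ * I) / B (τ * I)).re τ := by
    intro τ hτ
    have e1 : HasDerivAt (fun z : ℂ => z * I) I (τ : ℂ) := by
      simpa using (hasDerivAt_id (τ : ℂ)).mul_const I
    have e2 := ((hhd _ (hball τ hτ)).comp (τ : ℂ) e1).comp_ofReal
    have e3 := Complex.imCLM.hasFDerivAt.comp_hasDerivAt τ e2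
    have e4 := e3.add_const (arg (B 0))
    have e5 : (deriv B (τ * I) / B (τ * I)).re =
        Complex.imCLM (deriv B (τ * I) / B (τ * I) * I) := by
      rw [Complex.imCLM_apply, Complex.mul_I_im]
    rw [hψ, e5]
    exact e4
  have hinc : N / 2 * (ρ / 2 - -(ρ / 2)) ≤ ψ (ρ / 2) - ψ (-(ρ / 2)) := by
    apply (convex_Icc (-(ρ / 2)) (ρ / 2)).mul_sub_le_image_sub_of_le_deriv
    · intro τ hτ
      exact (hder τ (abs_le.2 hτ)).continuousAt.continuousWithinAt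
    · intro τ hτ
      rw [interior_Icc] at hτ
      exact (hder τ (abs_le.2 ⟨hτ.1.le, hτ.2.le⟩)).differentiableAt.differentiableWithinAt
    · intro τ hτ
      rw [interior_Icc] at hτ
      have hτ' : |τ| ≤ ρ / 2 := abs_le.2 ⟨hτ.1.le, hτ.2.le⟩
      rw [(hder τ hτ').deriv]
      exact dn_HB2_der hρ hN hηρ hhd hhe hw _ (hmem τ hτ')
    · exact ⟨le_refl _, by linarith⟩
    · exact ⟨by linarith, le_refl _⟩
    · linarith
  have hcont : ContinuousOn ψ (Set.Icc (-(ρ / 2)) (ρ / 2)) := fun τ hτ =>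
    (hder τ (abs_le.2 hτ)).continuousAt.continuousWithinAt
  obtain ⟨g, hg⟩ : ∃ g : ℝ, -c = cexp (g * I) := by
    refine ⟨arg (-c), ?_⟩
    have h1 := Complex.norm_mul_exp_arg_mul_I (-c)
    rw [norm_neg, hc, Complex.ofReal_one, one_mul] at h1
    exact h1.symm
  have hB' : ∀ τ : ℝ, |τ| ≤ ρ / 2 → ∃ r : ℝ, B (τ * I) = r * cexp (ψ τ * I) := by
    intro τ hτ
    refine ⟨‖B 0‖ * Real.exp (h (τ * I)).re, ?_⟩
    rw [hhe _ (hball τ hτ)]
    conv_lhs => rw [← Complex.norm_mul_exp_arg_mul_I (B 0), ← Complex.re_add_im (h (τ * I))]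
    rw [hψ]
    push_cast
    rw [Complex.exp_add, add_mul, Complex.exp_add]
    ring
  set A : ℤ := ⌈(ψ (-(ρ / 2)) - g / 2) / Real.pi⌉ with hA
  set D : ℤ := ⌊(ψ (ρ / 2) - g / 2) / Real.pi⌋ with hD
  have hpi := Real.pi_pos
  have hex : ∀ k : ℤ, ∃ τ : ℝ, k ∈ Finset.Icc A D → |τ| ≤ ρ / 2 ∧ ψ τ = g / 2 + Real.pi * k := by
    intro k
    by_cases hk : k ∈ Finset.Icc A D
    · rw [Finset.mem_Icc] at hk
      have h1 : (ψ (-(ρ / 2)) - g / 2) / Real.pi ≤ k :=
        (Int.le_ceil _).trans (by exact_mod_cast hk.1)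
      have h2 : (k : ℝ) ≤ (ψ (ρ / 2) - g / 2) / Real.pi :=
        le_trans (by exact_mod_cast hk.2) (Int.floor_le _)
      rw [div_le_iff₀ hpi] at h1
      rw [le_div_iff₀ hpi] at h2
      have h3 := intermediate_value_Icc (by linarith : -(ρ / 2) ≤ ρ / 2) hcont
      obtain ⟨τ, hτ, hτ2⟩ := h3 (show g / 2 + Real.pi * k ∈ _ from
        ⟨by linarith, by linarith⟩)
      exact ⟨τ, fun _ => ⟨abs_le.2 hτ, hτ2⟩⟩
    · exact ⟨0, fun h => absurd h hk⟩
  choose t ht using hex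
  refine ⟨(Finset.Icc A D).image t, ?_, ?_⟩
  · intro τ hτ
    rw [Finset.mem_image] at hτ
    obtain ⟨k, hk, rfl⟩ := hτ
    obtain ⟨h1, h2⟩ := ht k hk
    obtain ⟨r, hr⟩ := hB' _ h1
    exact ⟨h1, dn_HB2_zero hr hg k h2⟩
  · rw [Finset.card_image_of_injOn, Int.card_Icc]
    · have h1 : ((D + 1 - A : ℤ) : ℝ) ≤ ((D + 1 - A).toNat : ℝ) := by
        exact_mod_cast Int.self_le_toNat _
      have h2 : (ψ (ρ / 2) - g / 2) / Real.pi < D + 1 := Int.lt_floor_add_one _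
      have h3 : (A : ℝ) < (ψ (-(ρ / 2)) - g / 2) / Real.pi + 1 := Int.ceil_lt_add_one _
      have h4 : (ψ (ρ / 2) - g / 2) / Real.pi - (ψ (-(ρ / 2)) - g / 2) / Real.pi =
          (ψ (ρ / 2) - ψ (-(ρ / 2))) / Real.pi := by ring
      have h5 : ρ * N / 8 ≤ (ψ (ρ / 2) - ψ (-(ρ / 2))) / Real.pi := by
        rw [le_div_iff₀ hpi]
        have h6 : ρ * N / 8 * Real.pi ≤ ρ * N / 8 * 4 :=
          mul_le_mul_of_nonneg_left Real.pi_le_four (by positivity)
        linarith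
      refine le_trans ?_ h1
      push_cast
      linarith
    · intro k hk l hl hkl
      have h1 := (ht k hk).2
      have h2 := (ht l hl).2
      rw [hkl, h2] at h1
      have h3 : Real.pi * (l : ℝ) = Real.pi * k := by linarith
      have h4 := mul_left_cancel₀ hpi.ne' h3
      exact_mod_cast h4.symm

end Pool.Agent.Lib.MP_cd509c_nt.DN
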