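import Mathlib
import Pool.Agent.Lib.MP_cd509c_nt.DN.Defs2

/-!
# Piece HWsq: square norm of `HW`
-/

set_option autoImplicit false

namespace Pool.Agent.Lib.MP_cd509c_nt.DN

open Complex ComplexConjugate MeasureTheory

/-! ### elementary estimates -/

theorem dn_HWsq_pt (t : ℝ) (ht : 0 < t) :
    t ^ 12 * Real.exp (-(2 * t)) ≤
      ((Nat.factorial 11 : ℝ) + 3 * (Nat.factorial 12 : ℝ) + 2 * (Nat.factorial 13 : ℝ)) *
        (2 * t / (1 + 2 * t) - t / (1 + t)) := by
  have e1 : 2 * t / (1 + 2 * t) - t / (1 + t) = t / ((1 + t) * (1 + 2 * t)) := by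
    field_simp
    ring
  have hf : ∀ n : ℕ, t ^ n ≤ (Nat.factorial n : ℝ) * Real.exp t := by
    intro n
    have h := Real.pow_div_factorial_le_exp t ht.le n
    rw [div_le_iff₀ (by positivity)] at h
    linarith
  have h2 : Real.exp t ≤ Real.exp (2 * t) := Real.exp_le_exp.2 (by linarith)
  rw [e1, Real.exp_neg, ← div_eq_mul_inv, mul_div_assoc',
    div_le_div_iff₀ (Real.exp_pos _) (by positivity)]
  have h11 := hf 11
  have h12 := hf 12
  have h13 := hf 13
  calc t ^ 12 * ((1 + t) * (1 + 2 * t)) = t * (t ^ 11 + 3 * t ^ 12 + 2 * t ^ 13) := by ring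
    _ ≤ t * ((Nat.factorial 11 : ℝ) * Real.exp t + 3 * ((Nat.factorial 12 : ℝ) * Real.exp t) +
        2 * ((Nat.factorial 13 : ℝ) * Real.exp t)) := by gcongr
    _ = ((Nat.factorial 11 : ℝ) + 3 * (Nat.factorial 12 : ℝ) + 2 * (Nat.factorial 13 : ℝ)) * t *
        Real.exp t := by ring
    _ ≤ _ := by gcongr

/-- geometric sum -/
theorem dn_HWsq_geo : ∃ C : ℝ, 0 < C ∧ ∀ (a u : ℝ) (J : ℕ), 0 < a → 0 < u →
    ∑ j ∈ Finset.range J, (2 ^ j * u) ^ 12 * Real.exp (-(3 * a * (2 ^ j * u))) ≤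
      C / a ^ 12 * Real.exp (-(a * u)) := by
  set C : ℝ := (Nat.factorial 11 : ℝ) + 3 * (Nat.factorial 12 : ℝ) +
    2 * (Nat.factorial 13 : ℝ) with hC
  have hC0 : 0 < C := by positivity
  refine ⟨C, hC0, ?_⟩
  intro a u J ha hu
  set h : ℕ → ℝ := fun j => a * (2 ^ j * u) / (1 + a * (2 ^ j * u)) with hh
  have hstep : ∀ j : ℕ, (2 ^ j * u) ^ 12 * Real.exp (-(3 * a * (2 ^ j * u))) ≤
      C / a ^ 12 * Real.exp (-(a * u)) * (h (j + 1) - h j) := by
    intro j
    have hp : (1 : ℝ) ≤ 2 ^ j := one_le_pow₀ (by norm_num)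
    have ht : 0 < a * (2 ^ j * u) := by positivity
    have h1 := dn_HWsq_pt _ ht
    have h2 : h (j + 1) = 2 * (a * (2 ^ j * u)) / (1 + 2 * (a * (2 ^ j * u))) := by
      rw [hh]
      simp only
      rw [pow_succ]
      congr 1 <;> ring
    have h3 : Real.exp (-(a * (2 ^ j * u))) ≤ Real.exp (-(a * u)) := by
      apply Real.exp_le_exp.2
      rw [neg_le_neg_iff]
      apply mul_le_mul_of_nonneg_left _ ha.le
      nlinarith
    rw [h2]
    calc (2 ^ j * u) ^ 12 * Real.exp (-(3 * a * (2 ^ j * u)))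
        = 1 / a ^ 12 * ((a * (2 ^ j * u)) ^ 12 * Real.exp (-(2 * (a * (2 ^ j * u))))) *
          Real.exp (-(a * (2 ^ j * u))) := by
          have e2 : Real.exp (-(3 * a * (2 ^ j * u))) = Real.exp (-(2 * (a * (2 ^ j * u)))) *
              Real.exp (-(a * (2 ^ j * u))) := by
            rw [← Real.exp_add]
            congr 1
            ring
          rw [e2]
          field_simp
      _ ≤ 1 / a ^ 12 * (C * (2 * (a * (2 ^ j * u)) / (1 + 2 * (a * (2 ^ j * u))) -
          a * (2 ^ j * u) / (1 + a * (2 ^ j * u)))) * Real.exp (-(a * u)) := by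
          apply mul_le_mul _ h3 (Real.exp_pos _).le
          · apply mul_nonneg (by positivity)
            refine le_trans ?_ h1
            positivity
          · exact mul_le_mul_of_nonneg_left h1 (by positivity)
      _ = _ := by rw [hh]; ring
  calc ∑ j ∈ Finset.range J, (2 ^ j * u) ^ 12 * Real.exp (-(3 * a * (2 ^ j * u)))
      ≤ ∑ j ∈ Finset.range J, C / a ^ 12 * Real.exp (-(a * u)) * (h (j + 1) - h j) :=
        Finset.sum_le_sum fun j _ => hstep j
    _ = C / a ^ 12 * Real.exp (-(a * u)) * (h J - h 0) := by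
        rw [← Finset.mul_sum, Finset.sum_range_sub h]
    _ ≤ C / a ^ 12 * Real.exp (-(a * u)) * 1 := by
        apply mul_le_mul_of_nonneg_left _ (by positivity)
        have hJ : h J ≤ 1 := by
          rw [hh]
          simp only
          rw [div_le_one (by positivity)]
          linarith
        have h0 : 0 ≤ h 0 := by
          rw [hh]
          simp only
          positivity
        linarith
    _ = _ := by ring

theorem dn_HWsq_geo2 (u : ℝ) (J : ℕ) (hu : 0 < u) :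
    ∑ j ∈ Finset.range J, 1 / (2 ^ j * u) ≤ 2 / u := by
  have h : ∀ j : ℕ, 1 / (2 ^ j * u) = 1 / u * ((1 / 2 : ℝ) ^ j) := by
    intro j
    rw [one_div_pow]
    field_simp
  simp_rw [h]
  rw [← Finset.mul_sum]
  have h2 : ∑ j ∈ Finset.range J, (1 / 2 : ℝ) ^ j ≤ 2 := by
    rw [geom_sum_eq (by norm_num)]
    have : (0 : ℝ) ≤ (1 / 2) ^ J := by positivity
    have h3 : ((1 / 2 : ℝ) ^ J - 1) / (1 / 2 - 1) = 2 - 2 * (1 / 2) ^ J := by ring
    rw [h3]
    linarith
  calc 1 / u * ∑ j ∈ Finset.range J, (1 / 2 : ℝ) ^ j ≤ 1 / u * 2 := by gcongr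
    _ = 2 / u := by ring

theorem dn_HWsq_kpow (k P lT : ℝ) (hk : 0 < k) (hP : 0 < P) (hl : 1 ≤ lT)
    (hPl : Real.log P ≤ 3 * lT) :
    k ^ (1 / lT) * Real.exp (-(k / P)) ≤ Real.exp 3 := by
  have hs : 0 < k / P := by positivity
  have h1 : Real.log (k / P) = Real.log k - Real.log P := Real.log_div hk.ne' hP.ne'
  have h2 : Real.log (k / P) ≤ lT * (k / P) := by
    have h3 : Real.log (k / P) ≤ k / P - 1 := Real.log_le_sub_one_of_pos hs
    have h4 : k / P ≤ lT * (k / P) := by nlinarith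
    linarith
  rw [Real.rpow_def_of_pos hk, ← Real.exp_add]
  apply Real.exp_le_exp.2
  have h5 : Real.log k ≤ (3 + k / P) * lT := by nlinarith
  have h6 : Real.log k * (1 / lT) ≤ 3 + k / P := by
    rw [mul_one_div, div_le_iff₀ (by linarith)]
    exact h5
  linarith

/-! ### properties of `HW` -/

theorem dn_HWsq_Pw_zero (u : ℝ) (hu : 1 ≤ u) : Pw u = 0 := by
  rw [Pw]
  apply Real.smoothTransition.zero_of_nonpos
  linarith

theorem dn_HWsq_WV_zero (i : ℕ) (v : ℝ) (c : ℂ) (u : ℝ) (hu : 1 ≤ u) : WV i v c u = 0 := by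
  rw [WV, dn_HWsq_Pw_zero u hu]
  simp

theorem dn_HWsq_HWzero (X δ y : ℝ) (d : ℂ) (hX : 2 ≤ X) (hy : 0 < y)
    (hyX : y ≤ X ^ (-2 : ℝ)) : HW X d δ y = 0 := by
  have hL : 0 < Real.log X := Real.log_pos (by linarith)
  have hly : Real.log y ≤ -2 * Real.log X := by
    rw [← Real.log_rpow (by linarith)]
    exact Real.log_le_log hy hyX
  rw [HW]
  apply Finset.sum_eq_zero
  intro b hb
  rw [Finset.mem_Icc] at hb
  have hb1 : (1 : ℝ) ≤ b := by exact_mod_cast hb.1
  have hbX : (b : ℝ) ≤ X := (Nat.le_floor_iff (by linarith)).1 hb.2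
  have hlb : Real.log b ≤ Real.log X := Real.log_le_log (by linarith) hbX
  have hV : Vs ((Real.log b + Real.log y) / Real.log X) = 0 := by
    rw [Vs]
    apply Real.smoothTransition.zero_of_nonpos
    have : (Real.log b + Real.log y) / Real.log X ≤ -1 := by
      rw [div_le_iff₀ hL]
      linarith
    linarith
  rw [hV]
  simp

theorem dn_HWsq_im (b : ℕ) (hb : 1 ≤ b) (δ y : ℝ) (hδ : 0 < δ) (hδ1 : δ ≤ 1 / 4) (hy : 0 < y) :
    0 < ((b : ℂ) * ((y : ℂ) * cexp (δ * I))).im := by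
  have hb1 : (0 : ℝ) < b := by exact_mod_cast hb
  have hs : 0 < Real.sin δ := Real.sin_pos_of_pos_of_lt_pi hδ (by linarith [Real.pi_gt_three])
  have h1 : (b : ℂ) * ((y : ℂ) * cexp (δ * I)) = ((b * y : ℝ) : ℂ) * cexp (δ * I) := by
    push_cast
    ring
  rw [h1, Complex.im_ofReal_mul, Complex.exp_ofReal_mul_I_im]
  positivity

theorem dn_HWsq_Dc_cont (b : ℕ) (hb : 1 ≤ b) (δ : ℝ) (hδ : 0 < δ) (hδ1 : δ ≤ 1 / 4) :
    ContinuousOn (fun y : ℝ => Dc (b * (y * cexp (δ * I)))) (Set.Ioi 0) := by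
  intro y hy
  have h := (Dc_differentiableAt (dn_HWsq_im b hb δ y hδ hδ1 hy)).continuousAt
  apply ContinuousAt.continuousWithinAt
  exact ContinuousAt.comp (f := fun y : ℝ => (b : ℂ) * (y * cexp (δ * I))) h (by fun_prop)

theorem dn_HWsq_HWcont (X δ : ℝ) (d : ℂ) (hδ : 0 < δ) (hδ1 : δ ≤ 1 / 4) :
    ContinuousOn (HW X d δ) (Set.Ioi 0) := by
  have hV : Continuous Vs := by
    have := Real.smoothTransition.continuous
    show Continuous fun u => Real.smoothTransition ((1 + u) / 2)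
    fun_prop
  have h : ContinuousOn (fun y : ℝ => ∑ b ∈ Finset.Icc 1 ⌊X⌋₊,
      muf b * Pw (Real.log b / Real.log X) * (b : ℂ) ^ (-d) *
      Vs ((Real.log b + Real.log y) / Real.log X) * Dc (b * (y * cexp (δ * I)))) (Set.Ioi 0) := by
    apply continuousOn_finsetSum
    intro b hb
    rw [Finset.mem_Icc] at hb
    apply ContinuousOn.mul _ (dn_HWsq_Dc_cont b hb.1 δ hδ hδ1)
    apply ContinuousOn.mul continuousOn_const
    apply Complex.continuous_ofReal.comp_continuousOn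
    apply hV.comp_continuousOn
    apply ContinuousOn.div_const
    apply ContinuousOn.add continuousOn_const
    exact Real.continuousOn_log.mono fun y hy => (ne_of_gt hy : y ≠ 0)
  exact h

theorem dn_HWsq_Phicont (X δ v : ℝ) (c : ℂ) (i : ℕ) (hδ : 0 < δ) (hδ1 : δ ≤ 1 / 4) :
    ContinuousOn (Function.uncurry fun (r y : ℝ) =>
      ‖PhiW (WV i (v + r) c) X (y * cexp (δ * I))‖ ^ 2) (Set.univ ×ˢ Set.Ioi 0) := by
  have hV : Continuous (iteratedDeriv i Vs) := by
    have h1 : ContDiff ℝ (⊤ : ℕ∞) Vs := by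
      have h2 : ContDiff ℝ (⊤ : ℕ∞) Real.smoothTransition := Real.smoothTransition.contDiff
      show ContDiff ℝ (⊤ : ℕ∞) fun u => Real.smoothTransition ((1 + u) / 2)
      exact h2.comp (by fun_prop)
    exact h1.continuous_iteratedDeriv i (by exact_mod_cast le_top)
  have h : ContinuousOn (fun p : ℝ × ℝ => ∑ b ∈ Finset.Icc 1 ⌊X⌋₊,
      muf b * WV i (v + p.1) c (Real.log b / Real.log X) * Dc (b * (p.2 * cexp (δ * I))))
      (Set.univ ×ˢ Set.Ioi 0) := by
    apply continuousOn_finsetSum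
    intro b hb
    rw [Finset.mem_Icc] at hb
    apply ContinuousOn.mul
    · apply ContinuousOn.mul continuousOn_const
      apply Continuous.continuousOn
      show Continuous fun p : ℝ × ℝ => (Pw (Real.log b / Real.log X) : ℂ) *
        ((iteratedDeriv i Vs (Real.log b / Real.log X + (v + p.1)) : ℝ) : ℂ) *
        cexp (-(c * (Real.log b / Real.log X : ℝ)))
      fun_prop
    · exact (dn_HWsq_Dc_cont b hb.1 δ hδ hδ1).comp continuousOn_snd fun p hp => hp.2
  exact (h.norm).pow 2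

/-- the block bound for `HW` -/
theorem dn_HWsq_block (hfrz : S_frz) (X U δ M : ℝ) (d : ℂ) (hX : 2 ≤ X) (hU : 0 < U)
    (hδ : 0 < δ) (hδ1 : δ ≤ 1 / 4)
    (h0 : ∀ (i : ℕ) (v : ℝ), i ≤ 1 → ∫ y in U..(2 * U),
      ‖PhiW (WV i v (d * Real.log X)) X (y * cexp (δ * I))‖ ^ 2 ≤ M) :
    ∫ y in U..(2 * U), ‖HW X d δ y‖ ^ 2 ≤ (2 + 2 / Real.log X ^ 2) * M := by
  have hL : 0 < Real.log X := Real.log_pos (by linarith)
  set v : ℝ := Real.log U / Real.log X with hv
  set c : ℂ := d * Real.log X with hc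
  set G : ℝ → ℝ → ℝ := fun r y => ‖PhiW (WV 1 (v + r) c) X (y * cexp (δ * I))‖ ^ 2 with hG
  have hsub : ∀ a b : ℝ, Set.uIcc a b ×ˢ Set.uIcc U (2 * U) ⊆ Set.univ ×ˢ Set.Ioi (0 : ℝ) := by
    intro a b p hp
    refine ⟨Set.mem_univ _, ?_⟩
    have h1 := hp.2
    rw [Set.uIcc_of_le (by linarith)] at h1
    exact lt_of_lt_of_le hU h1.1
  have hint : IntegrableOn (Function.uncurry G)
      (Set.uIoc 0 (1 / Real.log X) ×ˢ Set.uIoc U (2 * U)) := by
    apply IntegrableOn.mono_set (t := Set.uIcc 0 (1 / Real.log X) ×ˢ Set.uIcc U (2 * U))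
    · exact ((dn_HWsq_Phicont X δ v c 1 hδ hδ1).mono (hsub _ _)).integrableOn_compact
        (isCompact_uIcc.prod isCompact_uIcc)
    · exact Set.prod_mono Set.uIoc_subset_uIcc Set.uIoc_subset_uIcc
  have hint' : Integrable (Function.uncurry G) ((volume.restrict (Set.uIoc 0 (1 / Real.log X))).prod
      (volume.restrict (Set.uIoc U (2 * U)))) := by
    rw [Measure.prod_restrict, ← Measure.volume_eq_prod]
    exact hint
  have hGy : IntervalIntegrable (fun y => ∫ r in (0 : ℝ)..(1 / Real.log X), G r y)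
      volume U (2 * U) := by
    have h1 := hint'.integral_prod_right
    rw [intervalIntegrable_iff]
    have h2 : (fun y => ∫ r in (0 : ℝ)..(1 / Real.log X), G r y) =
        fun y => ∫ r in Set.uIoc 0 (1 / Real.log X), Function.uncurry G (r, y) := by
      funext y
      rw [intervalIntegral.integral_of_le (by positivity), Set.uIoc_of_le (by positivity)]
      rfl
    rw [h2]
    exact h1
  have hGr : IntervalIntegrable (fun r => ∫ y in U..(2 * U), G r y)
      volume 0 (1 / Real.log X) := by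
    have h1 := hint'.integral_prod_left
    rw [intervalIntegrable_iff]
    have h2 : (fun r => ∫ y in U..(2 * U), G r y) =
        fun r => ∫ y in Set.uIoc U (2 * U), Function.uncurry G (r, y) := by
      funext y
      rw [intervalIntegral.integral_of_le (by linarith), Set.uIoc_of_le (by linarith)]
      rfl
    rw [h2]
    exact h1
  have hP0 : IntervalIntegrable (fun y => ‖PhiW (WV 0 v c) X (y * cexp (δ * I))‖ ^ 2)
      volume U (2 * U) := by
    apply ContinuousOn.intervalIntegrable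
    have h1 := (dn_HWsq_Phicont X δ v c 0 hδ hδ1)
    have h2 : ContinuousOn (fun y : ℝ => ((0 : ℝ), y)) (Set.uIcc U (2 * U)) := by fun_prop
    have h3 := h1.comp h2 (fun y hy => hsub 0 0 ⟨by simp, hy⟩)
    refine h3.congr ?_
    intro y _
    simp [Function.uncurry]
  have hH : IntervalIntegrable (fun y => ‖HW X d δ y‖ ^ 2) volume U (2 * U) := by
    apply ContinuousOn.intervalIntegrable
    apply ((dn_HWsq_HWcont X δ d hδ hδ1).norm.pow 2).mono
    intro y hy
    rw [Set.uIcc_of_le (by linarith)] at hy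
    exact lt_of_lt_of_le hU hy.1
  have hM2 : ∫ y in U..(2 * U), ∫ r in (0 : ℝ)..(1 / Real.log X), G r y ≤ M / Real.log X := by
    rw [← intervalIntegral_intervalIntegral_swap hint]
    calc ∫ r in (0 : ℝ)..(1 / Real.log X), ∫ y in U..(2 * U), G r y
        ≤ ∫ _r in (0 : ℝ)..(1 / Real.log X), M :=
          intervalIntegral.integral_mono_on (by positivity) hGr
            (continuous_const.intervalIntegrable _ _) (fun r _ => h0 1 (v + r) le_rfl)
      _ = M / Real.log X := by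
          rw [intervalIntegral.integral_const, smul_eq_mul]
          ring
  calc ∫ y in U..(2 * U), ‖HW X d δ y‖ ^ 2
      ≤ ∫ y in U..(2 * U), (2 * ‖PhiW (WV 0 v c) X (y * cexp (δ * I))‖ ^ 2 +
        2 / Real.log X * ∫ r in (0 : ℝ)..(1 / Real.log X), G r y) := by
        apply intervalIntegral.integral_mono_on (by linarith) hH
          ((hP0.const_mul 2).add (hGy.const_mul _))
        intro y hy
        exact hfrz X U y δ d hX hU hy.1 hy.2 hδ hδ1
    _ = 2 * (∫ y in U..(2 * U), ‖PhiW (WV 0 v c) X (y * cexp (δ * I))‖ ^ 2) +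
        2 / Real.log X * ∫ y in U..(2 * U), ∫ r in (0 : ℝ)..(1 / Real.log X), G r y := by
        rw [intervalIntegral.integral_add (hP0.const_mul 2) (hGy.const_mul _),
          intervalIntegral.integral_const_mul, intervalIntegral.integral_const_mul]
    _ ≤ 2 * M + 2 / Real.log X * (M / Real.log X) := by
        have h1 := h0 0 v (by norm_num)
        gcongr
    _ = _ := by
        field_simp

/-! ### sums over the blocks -/

theorem dn_HWsq_main (Cg : ℝ) (hCg : 0 < Cg)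
    (hgeo : ∀ (a u : ℝ) (J : ℕ), 0 < a → 0 < u →
      ∑ j ∈ Finset.range J, (2 ^ j * u) ^ 12 * Real.exp (-(3 * a * (2 ^ j * u))) ≤
      Cg / a ^ 12 * Real.exp (-(a * u)))
    (D : ℕ → ℝ) (δ u P lT Cm : ℝ) (J : ℕ) (hD : ∀ k, 0 ≤ D k) (hD0 : D 0 = 0) (hδ : 0 < δ)
    (hu : 0 < u) (hP : 0 < P) (hPu : δ * u = 1 / P) (hl : 1 ≤ lT)
    (hPl : Real.log P ≤ 3 * lT)
    (hs : Summable fun k : ℕ => D k * (k : ℝ) ^ (-(12 + 1 / lT)))
    (hm : ∑' k : ℕ, D k * (k : ℝ) ^ (-(12 + 1 / lT)) ≤ Cm)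
    (hsum : ∀ h : ℝ, 0 < h → Summable fun k : ℕ => D k * Real.exp (-(h * k))) :
    ∑ j ∈ Finset.range J,
      (2 ^ j * u) ^ 12 * ∑' k : ℕ, D k * Real.exp (-(3 * k * (2 ^ j * u) * δ)) ≤
        Cg * Real.exp 3 / δ ^ 12 * Cm := by
  have hsj : ∀ j : ℕ, Summable fun k : ℕ =>
      D k * ((2 ^ j * u) ^ 12 * Real.exp (-(3 * (k * δ) * (2 ^ j * u)))) := by
    intro j
    have h1 := (hsum (3 * (2 ^ j * u) * δ) (by positivity)).mul_left ((2 ^ j * u) ^ 12)
    refine h1.congr ?_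
    intro k
    have h2 : -(3 * (2 ^ j * u) * δ * (k : ℝ)) = -(3 * (k * δ) * (2 ^ j * u)) := by ring
    rw [h2]
    ring
  have hle : ∀ k : ℕ, D k * ∑ j ∈ Finset.range J,
      ((2 ^ j * u) ^ 12 * Real.exp (-(3 * (k * δ) * (2 ^ j * u)))) ≤
      Cg * Real.exp 3 / δ ^ 12 * (D k * (k : ℝ) ^ (-(12 + 1 / lT))) := by
    intro k
    rcases Nat.eq_zero_or_pos k with hk | hk
    · rw [hk, hD0]
      simp
    · have hk0 : (0 : ℝ) < k := by exact_mod_cast hk
      have h1 := hgeo (k * δ) u J (by positivity) hu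
      have h2 := dn_HWsq_kpow k P lT hk0 hP hl hPl
      have h3 : (k : ℝ) * δ * u = k / P := by
        rw [mul_assoc, hPu]
        ring
      rw [h3] at h1
      have hkp : 0 < (k : ℝ) ^ (1 / lT) := Real.rpow_pos_of_pos hk0 _
      have h4 : Real.exp (-(k / P)) ≤ Real.exp 3 / (k : ℝ) ^ (1 / lT) := by
        rw [le_div_iff₀ hkp]
        linarith
      have h5 : (k : ℝ) ^ (-(12 + 1 / lT)) = 1 / ((k : ℝ) ^ 12 * (k : ℝ) ^ (1 / lT)) := by
        have h12 : (k : ℝ) ^ (12 : ℝ) = (k : ℝ) ^ 12 := by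
          exact_mod_cast Real.rpow_natCast (k : ℝ) 12
        rw [Real.rpow_neg hk0.le, Real.rpow_add hk0, h12, inv_eq_one_div]
      calc D k * ∑ j ∈ Finset.range J,
          ((2 ^ j * u) ^ 12 * Real.exp (-(3 * (k * δ) * (2 ^ j * u))))
          ≤ D k * (Cg / (k * δ) ^ 12 * (Real.exp 3 / (k : ℝ) ^ (1 / lT))) := by
            apply mul_le_mul_of_nonneg_left _ (hD k)
            refine h1.trans ?_
            apply mul_le_mul_of_nonneg_left h4 (by positivity)
        _ = Cg * Real.exp 3 / δ ^ 12 * (D k * (k : ℝ) ^ (-(12 + 1 / lT))) := by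
            rw [h5]
            field_simp
  have hsl : Summable fun k : ℕ => D k * ∑ j ∈ Finset.range J,
      ((2 ^ j * u) ^ 12 * Real.exp (-(3 * (k * δ) * (2 ^ j * u)))) := by
    have h1 := summable_sum (s := Finset.range J) (fun j _ => hsj j)
    refine h1.congr ?_
    intro k
    rw [Finset.mul_sum]
  calc ∑ j ∈ Finset.range J,
      (2 ^ j * u) ^ 12 * ∑' k : ℕ, D k * Real.exp (-(3 * k * (2 ^ j * u) * δ))
      = ∑ j ∈ Finset.range J, ∑' k : ℕ,
        D k * ((2 ^ j * u) ^ 12 * Real.exp (-(3 * (k * δ) * (2 ^ j * u)))) := by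
        apply Finset.sum_congr rfl
        intro j _
        rw [← tsum_mul_left]
        apply tsum_congr
        intro k
        have h2 : -(3 * (k : ℝ) * (2 ^ j * u) * δ) = -(3 * (k * δ) * (2 ^ j * u)) := by ring
        rw [h2]
        ring
    _ = ∑' k : ℕ, ∑ j ∈ Finset.range J,
        D k * ((2 ^ j * u) ^ 12 * Real.exp (-(3 * (k * δ) * (2 ^ j * u)))) :=
        (Summable.tsum_finsetSum fun j _ => hsj j).symm
    _ = ∑' k : ℕ, D k * ∑ j ∈ Finset.range J,
        ((2 ^ j * u) ^ 12 * Real.exp (-(3 * (k * δ) * (2 ^ j * u)))) := by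
        apply tsum_congr
        intro k
        rw [Finset.mul_sum]
    _ ≤ ∑' k : ℕ, Cg * Real.exp 3 / δ ^ 12 * (D k * (k : ℝ) ^ (-(12 + 1 / lT))) :=
        Summable.tsum_le_tsum hle hsl (hs.mul_left _)
    _ = Cg * Real.exp 3 / δ ^ 12 * ∑' k : ℕ, (D k * (k : ℝ) ^ (-(12 + 1 / lT))) :=
        tsum_mul_left
    _ ≤ _ := by
        apply mul_le_mul_of_nonneg_left hm
        positivity

theorem dn_HWsq_sumD (D : ℕ → ℝ) (s h : ℝ) (hD : ∀ k, 0 ≤ D k) (hD0 : D 0 = 0) (hs : s ≤ 14)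
    (h0 : 0 < h) (hsum : Summable fun k : ℕ => D k * (k : ℝ) ^ (-s)) :
    Summable fun k : ℕ => D k * Real.exp (-(h * k)) := by
  have h1 := hsum.mul_left ((Nat.factorial 14 : ℝ) / h ^ 14)
  refine Summable.of_nonneg_of_le (fun k => mul_nonneg (hD k) (Real.exp_pos _).le) ?_ h1
  intro k
  rcases Nat.eq_zero_or_pos k with hk | hk
  · rw [hk, hD0]
    simp
  · have hk1 : (1 : ℝ) ≤ k := by exact_mod_cast hk
    have hk0 : (0 : ℝ) < k := by linarith
    have h2 := Real.pow_div_factorial_le_exp (h * k) (by positivity) 14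
    rw [div_le_iff₀ (by positivity)] at h2
    have h3 : Real.exp (-(h * k)) ≤ (Nat.factorial 14 : ℝ) / (h * k) ^ 14 := by
      rw [Real.exp_neg, le_div_iff₀ (by positivity), inv_mul_le_iff₀ (Real.exp_pos _)]
      exact h2
    have h4 : ((k : ℝ) ^ 14)⁻¹ ≤ (k : ℝ) ^ (-s) := by
      rw [← Real.rpow_natCast, ← Real.rpow_neg hk0.le]
      apply Real.rpow_le_rpow_of_exponent_le hk1
      push_cast
      linarith
    calc D k * Real.exp (-(h * k)) ≤ D k * ((Nat.factorial 14 : ℝ) / (h * k) ^ 14) :=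
          mul_le_mul_of_nonneg_left h3 (hD k)
      _ = (Nat.factorial 14 : ℝ) / h ^ 14 * (D k * ((k : ℝ) ^ 14)⁻¹) := by
          rw [mul_pow]
          field_simp
      _ ≤ (Nat.factorial 14 : ℝ) / h ^ 14 * (D k * (k : ℝ) ^ (-s)) := by
          apply mul_le_mul_of_nonneg_left _ (by positivity)
          exact mul_le_mul_of_nonneg_left h4 (hD k)

theorem dn_HWsq_WOK {A A' K : ℝ} {W : ℝ → ℂ} (hAA : A ≤ A') (hK : 0 < K) (h : WOK A' K W) :
    WOK A K W := by
  obtain ⟨w, hw, hb, hu⟩ := h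
  refine ⟨w, hw, ?_, hu⟩
  intro ξ
  refine (hb ξ).trans ?_
  apply mul_le_mul_of_nonneg_left _ hK.le
  apply Real.rpow_le_rpow_of_exponent_le
  · have := abs_nonneg ξ
    linarith
  · linarith

/-- passage to the half line -/
theorem dn_HWsq_half (f : ℝ → ℝ) (u I : ℝ) (hu : 0 < u) (hf : ContinuousOn f (Set.Ioi 0))
    (hf0 : ∀ y, 0 < y → 0 ≤ f y) (hz : ∀ y, 0 < y → y ≤ u → f y = 0)
    (hJ : ∀ J : ℕ, ∫ y in u..(2 ^ J * u), f y ≤ I) :
    IntegrableOn f (Set.Ioi 0) ∧ ∫ y in Set.Ioi 0, f y ≤ I := by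
  have hb : Filter.Tendsto (fun J : ℕ => (2 : ℝ) ^ J * u) Filter.atTop Filter.atTop :=
    (tendsto_pow_atTop_atTop_of_one_lt (by norm_num)).atTop_mul_const hu
  have hle : ∀ J : ℕ, u ≤ 2 ^ J * u := by
    intro J
    have : (1 : ℝ) ≤ 2 ^ J := one_le_pow₀ (by norm_num)
    nlinarith
  have hint : ∀ J : ℕ, IntegrableOn f (Set.Ioc u (2 ^ J * u)) := by
    intro J
    apply IntegrableOn.mono_set (t := Set.Icc u (2 ^ J * u)) _ Set.Ioc_subset_Icc_self
    apply ContinuousOn.integrableOn_compact isCompact_Icc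
    exact hf.mono fun y hy => lt_of_lt_of_le hu hy.1
  have h1 : IntegrableOn f (Set.Ioi u) := by
    apply integrableOn_Ioi_of_intervalIntegral_norm_bounded I u hint hb
    apply Filter.Eventually.of_forall
    intro J
    refine le_trans (le_of_eq ?_) (hJ J)
    apply intervalIntegral.integral_congr
    intro y hy
    rw [Set.uIcc_of_le (hle J)] at hy
    exact Real.norm_of_nonneg (hf0 y (lt_of_lt_of_le hu hy.1))
  have h2 : ∫ y in Set.Ioi u, f y ≤ I :=
    le_of_tendsto' (intervalIntegral_tendsto_integral_Ioi u h1 hb) hJ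
  have h3 : IntegrableOn f (Set.Ioc 0 u) := by
    have h5 : IntegrableOn (fun _ : ℝ => (0 : ℝ)) (Set.Ioc 0 u) := integrableOn_zero
    exact h5.congr_fun (fun y hy => (hz y hy.1 hy.2).symm) measurableSet_Ioc
  have h4 : ∫ y in Set.Ioc 0 u, f y = 0 := by
    rw [setIntegral_congr_fun measurableSet_Ioc (g := fun _ => (0 : ℝ))
      (fun y hy => hz y hy.1 hy.2)]
    simp
  rw [← Set.Ioc_union_Ioi_eq_Ioi hu.le]
  refine ⟨h3.union h1, ?_⟩
  rw [setIntegral_union (Set.Ioc_disjoint_Ioi le_rfl) measurableSet_Ioi h3 h1, h4, zero_add]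
  exact h2

theorem dn_HWsq_alg (C1 C2 K S U X T A κ I0 : ℝ) (hC1 : 0 < C1) (hC2 : 0 < C2) (hS : 0 ≤ S)
    (hU : 0 < U) (hX : 0 < X) (hT : 0 < T) (hκ : 0 < κ)
    (h1 : 1 ≤ U → I0 ≤ C1 * K ^ 2 * U * S)
    (h2 : U ≤ 1 → I0 ≤ C2 * K ^ 2 * (U * S + X ^ A * (U * (1 / T)) ^ (-12 + κ))) :
    I0 ≤ (C1 + C2) * K ^ 2 * (U * S + X ^ A * T ^ (12 - κ) / U ^ 12) := by
  have hXA : 0 < X ^ A := Real.rpow_pos_of_pos hX _
  have hTk : 0 < T ^ (12 - κ) := Real.rpow_pos_of_pos hT _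
  rcases le_total U 1 with hU1 | hU1
  · have h3 : (U * (1 / T)) ^ (-12 + κ) ≤ T ^ (12 - κ) / U ^ 12 := by
      rw [Real.mul_rpow hU.le (by positivity)]
      have e1 : (1 / T) ^ (-12 + κ) = T ^ (12 - κ) := by
        rw [one_div, Real.inv_rpow hT.le, ← Real.rpow_neg hT.le]
        congr 1
        ring
      have e2 : U ^ (-12 + κ) ≤ 1 / U ^ 12 := by
        have e3 : U ^ (-12 + κ) ≤ U ^ (-12 : ℝ) :=
          Real.rpow_le_rpow_of_exponent_ge hU hU1 (by linarith)
        have e4 : U ^ (-12 : ℝ) = 1 / U ^ 12 := by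
          rw [Real.rpow_neg hU.le, one_div]
          congr 1
          exact_mod_cast Real.rpow_natCast U 12
        rwa [e4] at e3
      rw [e1]
      calc U ^ (-12 + κ) * T ^ (12 - κ) ≤ 1 / U ^ 12 * T ^ (12 - κ) := by gcongr
        _ = _ := by ring
    calc I0 ≤ C2 * K ^ 2 * (U * S + X ^ A * (U * (1 / T)) ^ (-12 + κ)) := h2 hU1
      _ ≤ C2 * K ^ 2 * (U * S + X ^ A * (T ^ (12 - κ) / U ^ 12)) := by gcongr
      _ ≤ (C1 + C2) * K ^ 2 * (U * S + X ^ A * (T ^ (12 - κ) / U ^ 12)) := by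
          gcongr
          linarith
      _ = _ := by ring
  · calc I0 ≤ C1 * K ^ 2 * U * S := h1 hU1
      _ = C1 * K ^ 2 * (U * S + 0) := by ring
      _ ≤ (C1 + C2) * K ^ 2 * (U * S + X ^ A * T ^ (12 - κ) / U ^ 12) := by
          have : 0 ≤ X ^ A * T ^ (12 - κ) / U ^ 12 := by positivity
          gcongr
          linarith

theorem dn_HWsq_fin (F a b : ℕ → ℝ) (Q E α β Z : ℝ) (J : ℕ) (hQ : 0 ≤ Q) (hE : 0 ≤ E)
    (h1 : ∀ j, F j ≤ Q * (a j + E * b j)) (h2 : ∑ j ∈ Finset.range J, a j ≤ α)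
    (h3 : ∑ j ∈ Finset.range J, b j ≤ β) (h4 : α + E * β ≤ Z) :
    ∑ j ∈ Finset.range J, F j ≤ Q * Z := by
  calc ∑ j ∈ Finset.range J, F j ≤ ∑ j ∈ Finset.range J, Q * (a j + E * b j) :=
        Finset.sum_le_sum fun j _ => h1 j
    _ = Q * (∑ j ∈ Finset.range J, a j + E * ∑ j ∈ Finset.range J, b j) := by
        rw [← Finset.mul_sum, Finset.sum_add_distrib, Finset.mul_sum]
    _ ≤ Q * (α + E * β) := by gcongr
    _ ≤ Q * Z := mul_le_mul_of_nonneg_left h4 hQ

/-- one block of the integral -/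
theorem dn_HWsq_oneblock (hfrz : S_frz) (X U δ M : ℝ) (d : ℂ) (hX : 2 ≤ X) (hU : 0 < U)
    (hδ : 0 < δ) (hδ1 : δ ≤ 1 / 4) (hM : 0 ≤ M)
    (h0 : ∀ (i : ℕ) (v : ℝ), i ≤ 1 → ∫ y in U..(2 * U),
      ‖PhiW (WV i v (d * Real.log X)) X (y * cexp (δ * I))‖ ^ 2 ≤ M) :
    ∫ y in U..(2 * U), ‖HW X d δ y‖ ^ 2 * y ^ (2 * (6 : ℝ) - 1) ≤
      (2 * U) ^ 11 * ((2 + 2 / Real.log 2 ^ 2) * M) := by
  have hl2 : 0 < Real.log 2 := Real.log_pos (by norm_num)
  have hlX : Real.log 2 ≤ Real.log X := Real.log_le_log (by norm_num) hX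
  have hc : ContinuousOn (fun y => ‖HW X d δ y‖ ^ 2) (Set.uIcc U (2 * U)) := by
    apply ((dn_HWsq_HWcont X δ d hδ hδ1).norm.pow 2).mono
    intro y hy
    rw [Set.uIcc_of_le (by linarith)] at hy
    exact lt_of_lt_of_le hU hy.1
  have hc2 : ContinuousOn (fun y : ℝ => y ^ (2 * (6 : ℝ) - 1)) (Set.uIcc U (2 * U)) := by
    apply ContinuousOn.rpow_const continuousOn_id
    intro y hy
    right
    norm_num
  calc ∫ y in U..(2 * U), ‖HW X d δ y‖ ^ 2 * y ^ (2 * (6 : ℝ) - 1)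
      ≤ ∫ y in U..(2 * U), (2 * U) ^ 11 * ‖HW X d δ y‖ ^ 2 := by
        apply intervalIntegral.integral_mono_on (by linarith) (hc.mul hc2).intervalIntegrable
          (hc.intervalIntegrable.const_mul _)
        intro y hy
        have hy0 : 0 < y := lt_of_lt_of_le hU hy.1
        have e1 : y ^ (2 * (6 : ℝ) - 1) = y ^ 11 := by
          rw [show (2 * (6 : ℝ) - 1) = ((11 : ℕ) : ℝ) by norm_num]
          exact Real.rpow_natCast y 11
        have e2 : y ^ 11 ≤ (2 * U) ^ 11 := pow_le_pow_left₀ hy0.le hy.2 11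
        show ‖HW X d δ y‖ ^ 2 * y ^ (2 * (6 : ℝ) - 1) ≤ (2 * U) ^ 11 * ‖HW X d δ y‖ ^ 2
        rw [e1, mul_comm]
        exact mul_le_mul_of_nonneg_right e2 (by positivity)
    _ = (2 * U) ^ 11 * ∫ y in U..(2 * U), ‖HW X d δ y‖ ^ 2 :=
        intervalIntegral.integral_const_mul _ _
    _ ≤ (2 * U) ^ 11 * ((2 + 2 / Real.log X ^ 2) * M) := by
        have h1 := dn_HWsq_block hfrz X U δ M d hX hU hδ hδ1 h0
        gcongr
    _ ≤ (2 * U) ^ 11 * ((2 + 2 / Real.log 2 ^ 2) * M) := by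
        gcongr

theorem p_HWsq (hmaj : S_maj) (hwt : S_wt) (hb1 : S_blk1) (hb2 : S_blk2) (hfrz : S_frz) :
    S_HWsq := by
  obtain ⟨A, D, hA, hD0, hDm, hDs⟩ := hmaj
  obtain ⟨Cg, hCg, hgeo⟩ := dn_HWsq_geo
  have hl2 : 0 < Real.log 2 := Real.log_pos (by norm_num)
  have hl2' : 1 / 2 ≤ Real.log 2 := by linarith [Real.log_two_gt_d9]
  set D2 : ℝ → ℕ → ℝ := fun X k => if k = 0 then 0 else D X k with hD2
  have hD20 : ∀ X k, 0 ≤ D2 X k := by
    intro X k
    rw [hD2]
    simp only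
    split_ifs
    · exact le_rfl
    · exact hD0 X k
  have hD2z : ∀ X, D2 X 0 = 0 := fun X => by simp [hD2]
  have hD2m : ∀ (X K : ℝ) (W : ℝ → ℂ), 2 ≤ X → 0 < K → WOK (A + 1) K W → ∀ k : ℕ, 1 ≤ k →
      ‖gW W X k‖ ^ 2 ≤ K ^ 2 * D2 X k := by
    intro X K W hX hK hW k hk
    have h1 := hDm X K W hX hK (dn_HWsq_WOK (by linarith) hK hW) k hk
    rw [hD2]
    simp only
    rw [if_neg (by omega)]
    exact h1
  have hD2r : ∀ (X s : ℝ), 0 < s →
      (fun k : ℕ => D2 X k * (k : ℝ) ^ (-s)) = fun k : ℕ => D X k * (k : ℝ) ^ (-s) := by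
    intro X s hs
    funext k
    rw [hD2]
    simp only
    split_ifs with hk
    · rw [hk]
      simp only [Nat.cast_zero]
      rw [Real.zero_rpow (by linarith)]
      simp
    · rfl
  have hsum : ∀ X : ℝ, 2 ≤ X → ∀ h : ℝ, 0 < h →
      Summable fun k : ℕ => D2 X k * Real.exp (-(h * k)) := by
    intro X hX h hh
    obtain ⟨C, hC, hs⟩ := hDs 1 one_pos le_rfl
    have hlX : Real.log 2 ≤ Real.log X := Real.log_le_log (by norm_num) hX
    have hlX0 : 0 < Real.log X := lt_of_lt_of_le hl2 hlX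
    have h1 := (hs X hX).1
    have h2 : 0 < 1 / Real.log X := by positivity
    rw [← hD2r X (12 + 1 / Real.log X) (by linarith)] at h1
    apply dn_HWsq_sumD (D2 X) (12 + 1 / Real.log X) h (hD20 X) (hD2z X) _ hh h1
    have h3 : 1 / Real.log X ≤ 2 := by
      rw [div_le_iff₀ hlX0]
      linarith
    linarith
  obtain ⟨Cw, hCw, hwt⟩ := hwt (A + 1) (by linarith)
  obtain ⟨C1, hC1, hb1⟩ := hb1 (A + 1) D2 hD20 hsum hD2m
  obtain ⟨C2, A', κ, hC2, hA', hκ, hκ1, hb2⟩ := hb2 (A + 1) D2 (by linarith) hD20 hsum hD2m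
  have hA2 : 0 < A' + 2 := by linarith
  refine ⟨min 1 (κ / (A' + 2)), lt_min one_pos (by positivity), ?_⟩
  intro θ hθ hθ0
  have hθ1 : θ ≤ 1 := hθ0.trans (min_le_left _ _)
  have hθ2 : θ * (A' + 2) ≤ κ := by
    have h1 := hθ0.trans (min_le_right _ _)
    rwa [le_div_iff₀ hA2] at h1
  obtain ⟨Cm, hCm, hDs⟩ := hDs θ hθ hθ1
  refine ⟨2 ^ 11 * ((2 + 2 / Real.log 2 ^ 2) * ((C1 + C2) * Cw ^ 2 *
    (Cg * Real.exp 3 * Cm + 2))), max 4 (2 ^ (1 / θ)), by positivity,
    le_max_of_le_left (by norm_num), ?_⟩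
  intro T d hT
  have hT4 : 4 ≤ T := (le_max_left _ _).trans hT
  have hT0 : 0 < T := by linarith
  have hTθ : (2 : ℝ) ^ (1 / θ) ≤ T := (le_max_right _ _).trans hT
  have hlT : 1 ≤ Real.log T := by
    have h1 : Real.log 4 ≤ Real.log T := Real.log_le_log (by norm_num) hT4
    have h2 : Real.log 4 = 2 * Real.log 2 := by
      rw [show (4 : ℝ) = 2 ^ 2 by norm_num, Real.log_pow]
      push_cast
      ring
    linarith
  have hlT0 : 0 < Real.log T := by linarith
  set X : ℝ := T ^ θ with hX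
  have hX2 : 2 ≤ X := by
    have h1 : ((2 : ℝ) ^ (1 / θ)) ^ θ ≤ T ^ θ :=
      Real.rpow_le_rpow (by positivity) hTθ hθ.le
    rwa [← Real.rpow_mul (by norm_num), one_div_mul_cancel hθ.ne', Real.rpow_one] at h1
  have hX0 : 0 < X := by linarith
  have hlX : Real.log X = θ * Real.log T := by rw [hX, Real.log_rpow hT0]
  have hθX : θ / Real.log X = 1 / Real.log T := by
    rw [hlX]
    field_simp
  set δ : ℝ := 1 / T with hδdef
  have hδ : 0 < δ := by positivity
  have hδ1 : δ ≤ 1 / 4 := by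
    rw [hδdef]
    exact one_div_le_one_div_of_le (by norm_num) hT4
  set u : ℝ := X ^ (-2 : ℝ) with hudef
  have hu : 0 < u := Real.rpow_pos_of_pos hX0 _
  have hu2 : u = 1 / X ^ 2 := by
    rw [hudef, Real.rpow_neg hX0.le, one_div]
    congr 1
    exact_mod_cast Real.rpow_natCast X 2
  set K : ℝ := Cw * Real.exp (2 * ‖d * (Real.log X : ℂ)‖) with hK
  have hK0 : 0 < K := by positivity
  have hK2 : K ^ 2 = Cw ^ 2 * Real.exp (4 * θ * Real.log T * ‖d‖) := by
    have h1 : ‖d * (Real.log X : ℂ)‖ = θ * Real.log T * ‖d‖ := by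
      rw [norm_mul, Complex.norm_real, Real.norm_of_nonneg (by rw [hlX]; positivity), hlX]
      ring
    rw [hK, h1, mul_pow, ← Real.exp_nat_mul]
    congr 2
    push_cast
    ring
  set E : ℝ := X ^ A' * T ^ (12 - κ) with hE
  have hE0 : 0 < E := by positivity
  set S : ℝ → ℝ := fun U => ∑' k : ℕ, D2 X k * Real.exp (-(3 * k * U * δ)) with hS
  have hS0 : ∀ U, 0 ≤ S U := fun U =>
    tsum_nonneg fun k => mul_nonneg (hD20 X k) (Real.exp_pos _).le
  have hle1 : ∀ j : ℕ, (1 : ℝ) ≤ 2 ^ j := fun j => one_le_pow₀ (by norm_num)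
  have hUj : ∀ j : ℕ, u ≤ 2 ^ j * u := by
    intro j
    nlinarith [hle1 j]
  -- the bound for the blocks of `PhiW`
  have hphi : ∀ (j : ℕ) (i : ℕ) (v : ℝ), i ≤ 1 →
      ∫ y in (2 ^ j * u)..(2 * (2 ^ j * u)),
        ‖PhiW (WV i v (d * (Real.log X : ℂ))) X (y * cexp (δ * I))‖ ^ 2 ≤
      (C1 + C2) * K ^ 2 * ((2 ^ j * u) * S (2 ^ j * u) + E / (2 ^ j * u) ^ 12) := by
    intro j i v hi
    have hU : 0 < 2 ^ j * u := by positivity
    apply dn_HWsq_alg C1 C2 K (S (2 ^ j * u)) (2 ^ j * u) X T A' κ _ hC1 hC2 (hS0 _) hU hX0 hT0 hκ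
    · intro h1
      exact hb1 X K (2 ^ j * u) δ _ hX2 hK0 (hwt i v _ hi)
        (fun w hw => dn_HWsq_WV_zero i v _ w hw) h1 hδ hδ1
    · intro h1
      refine hb2 X K (2 ^ j * u) δ _ hX2 hK0 (hwt i v _ hi)
        (fun w hw => dn_HWsq_WV_zero i v _ w hw) (hUj j) (by linarith) hδ hδ1 ?_
      nlinarith
  set f : ℝ → ℝ := fun y => ‖HW X d δ y‖ ^ 2 * y ^ (2 * (6 : ℝ) - 1) with hf
  have hfc : ContinuousOn f (Set.Ioi 0) := by
    apply ((dn_HWsq_HWcont X δ d hδ hδ1).norm.pow 2).mul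
    apply ContinuousOn.rpow_const continuousOn_id
    intro y hy
    right
    norm_num
  apply dn_HWsq_half f u _ hu hfc
  · intro y hy
    positivity
  · intro y hy hyu
    rw [hf]
    simp only
    rw [dn_HWsq_HWzero X δ y d hX2 hy hyu]
    simp
  · intro J
    have e0 : ∫ y in u..(2 ^ J * u), f y =
        ∑ j ∈ Finset.range J, ∫ y in (2 ^ j * u)..(2 ^ (j + 1) * u), f y := by
      rw [intervalIntegral.sum_integral_adjacent_intervals (a := fun j : ℕ => 2 ^ j * u)]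
      · simp
      · intro j _
        apply ContinuousOn.intervalIntegrable
        apply hfc.mono
        intro y hy
        have h1 := hy.1
        have h2 : 0 < 2 ^ j * u := by positivity
        have h3 : 0 < 2 ^ (j + 1) * u := by positivity
        exact lt_of_lt_of_le (lt_min h2 h3) h1
    rw [e0]
    have hblk : ∀ j : ℕ, ∫ y in (2 ^ j * u)..(2 ^ (j + 1) * u), f y ≤
        2 ^ 11 * ((2 + 2 / Real.log 2 ^ 2) * ((C1 + C2) * K ^ 2)) *
          ((2 ^ j * u) ^ 12 * S (2 ^ j * u) + E * (1 / (2 ^ j * u))) := by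
      intro j
      have hU : 0 < 2 ^ j * u := by positivity
      have h1 := dn_HWsq_oneblock hfrz X (2 ^ j * u) δ _ d hX2 hU hδ hδ1
        (by have := hS0 (2 ^ j * u); positivity) (hphi j)
      have h2 : (2 : ℝ) ^ (j + 1) * u = 2 * (2 ^ j * u) := by ring
      rw [h2]
      refine h1.trans (le_of_eq ?_)
      generalize (2 : ℝ) ^ j * u = U at hU
      field_simp
    have hgeo2 := dn_HWsq_geo2 u J hu
    have hP : 0 < T * X ^ 2 := by positivity
    have hmain := dn_HWsq_main Cg hCg hgeo (D2 X) δ u (T * X ^ 2) (Real.log T) Cm J (hD20 X)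
      (hD2z X) hδ hu hP (by rw [hδdef, hu2]; field_simp) hlT ?_ ?_ ?_ (hsum X hX2)
    · have hEX : E * (2 / u) ≤ 2 * T ^ 12 := by
        have h1 : E * X ^ 2 ≤ T ^ 12 := by
          have h2 : X ^ A' = T ^ (θ * A') := by rw [hX, ← Real.rpow_mul hT0.le]
          have h3 : X ^ 2 = T ^ (θ * 2) := by
            rw [Real.rpow_mul hT0.le]
            exact_mod_cast (Real.rpow_natCast (T ^ θ) 2).symm
          have h4 : (T : ℝ) ^ 12 = T ^ (12 : ℝ) := by
            exact_mod_cast (Real.rpow_natCast T 12).symm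
          rw [hE, h2, h3, h4, ← Real.rpow_add hT0, ← Real.rpow_add hT0]
          apply Real.rpow_le_rpow_of_exponent_le (by linarith)
          nlinarith
        have h5 : E * (2 / u) = 2 * (E * X ^ 2) := by
          rw [hu2]
          field_simp
        rw [h5]
        linarith
      have hδ12 : Cg * Real.exp 3 / δ ^ 12 * Cm = Cg * Real.exp 3 * Cm * T ^ 12 := by
        rw [hδdef]
        field_simp
      have hQ : 0 ≤ 2 ^ 11 * ((2 + 2 / Real.log 2 ^ 2) * ((C1 + C2) * K ^ 2)) := by positivity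
      have hZ : Cg * Real.exp 3 / δ ^ 12 * Cm + E * (2 / u) ≤
          Cg * Real.exp 3 * Cm * T ^ 12 + 2 * T ^ 12 := by
        rw [hδ12]
        linarith only [hEX]
      have hfin := dn_HWsq_fin _ _ _ _ E _ _ _ J hQ hE0.le hblk hmain hgeo2 hZ
      refine hfin.trans (le_of_eq ?_)
      rw [hK2]
      ring
    · have h1 : Real.log (T * X ^ 2) = Real.log T + 2 * (θ * Real.log T) := by
        rw [Real.log_mul hT0.ne' (by positivity), Real.log_pow, hlX]
        push_cast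
        ring
      rw [h1]
      nlinarith
    · have h1 := (hDs X hX2).1
      rw [hθX, ← hD2r X (12 + 1 / Real.log T) (by positivity)] at h1
      exact h1
    · have h1 := (hDs X hX2).2
      rw [hθX, ← hD2r X (12 + 1 / Real.log T) (by positivity)] at h1
      exact h1

end Pool.Agent.Lib.MP_cd509c_nt.DN
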