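import Pool.Agent.Lib.MP_cd509c_nt.DN.Defs3

/-!
# Heat flow: the final statement in proportion form
-/

set_option autoImplicit false

namespace Pool.Agent.Lib.MP_cd509c_nt.DN

open Complex ComplexConjugate MeasureTheory

theorem p_Hr (hH : S_H (fun _ => 1)) (hr : S_realH) : S_Hr := by
  obtain ⟨C0, hC0, hreal⟩ := Ht_real
  obtain ⟨C1, c1, hC1, hc1, h1⟩ := hH
  obtain ⟨C2, c2, T0, hC2, hc2, hT0, h2⟩ := hr C0 hC0
  refine ⟨C1 + C2 + Real.log T0 ^ 2 + C1 / c2, c1, by positivity, hc1, ?_⟩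
  intro t T ht1 hT hC S hS
  have hlT0 : 0 ≤ Real.log T0 := Real.log_nonneg (by linarith)
  have hlT : 0 < Real.log T := Real.log_pos (by linarith)
  have hC12 : 0 < C1 / c2 := by positivity
  have hsq : 0 ≤ Real.log T0 ^ 2 := sq_nonneg _
  have ht0 : 0 < t := by
    by_contra hcon
    push Not at hcon
    have : t * Real.log T ^ 2 ≤ 0 := mul_nonpos_of_nonpos_of_nonneg hcon (sq_nonneg _)
    linarith
  rcases S.eq_empty_or_nonempty with rfl | ⟨z, hz⟩
  · exact ⟨∅, by simp, by simp⟩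
  obtain ⟨hz1, hz2, hz3, hz4⟩ := hS z hz
  have hlt : |z.re| < Real.exp (C0 / t) := by
    by_contra hcon
    push Not at hcon
    exact hz2 (hreal t ht0 ht1 z hcon hz1)
  have hTlt : Real.log T < C0 / t := (Real.log_lt_iff_lt_exp (by linarith)).2 (hz3.trans_lt hlt)
  have hA : t * Real.log T ≤ C0 := by
    rw [lt_div_iff₀ ht0] at hTlt
    linarith
  have hTT : T0 ≤ T := by
    have h3 : Real.log T0 ^ 2 ≤ Real.log T ^ 2 := by
      have : t * Real.log T ^ 2 ≤ 1 * Real.log T ^ 2 :=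
        mul_le_mul_of_nonneg_right ht1 (sq_nonneg _)
      linarith
    have h4 : Real.log T0 ≤ Real.log T := (pow_le_pow_iff_left₀ hlT0 hlT.le (by norm_num)).1 h3
    exact (Real.log_le_log_iff (by linarith) (by linarith)).1 h4
  obtain ⟨S', hS', hcard⟩ := h2 t T hTT ht0 (by linarith) hA
  refine ⟨S', hS', ?_⟩
  have h5 := h1 t T ht1 hT (by linarith) S hS
  refine h5.trans ?_
  have h6 : T * Real.log T ≤ (S'.card : ℝ) / c2 := by
    rw [le_div_iff₀ hc2]
    linarith
  have hE : 0 < Real.exp (-(c1 * t * Real.log T ^ 2)) := Real.exp_pos _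
  have hcd : (0 : ℝ) ≤ (S'.card : ℝ) := Nat.cast_nonneg _
  calc C1 * T * Real.log T * 1 * Real.exp (-(c1 * t * Real.log T ^ 2))
      = C1 * Real.exp (-(c1 * t * Real.log T ^ 2)) * (T * Real.log T) := by ring
    _ ≤ C1 * Real.exp (-(c1 * t * Real.log T ^ 2)) * ((S'.card : ℝ) / c2) := by gcongr
    _ = C1 / c2 * Real.exp (-(c1 * t * Real.log T ^ 2)) * (S'.card : ℝ) := by ring
    _ ≤ _ := by
      refine mul_le_mul_of_nonneg_right (mul_le_mul_of_nonneg_right ?_ hE.le) hcd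
      linarith

end Pool.Agent.Lib.MP_cd509c_nt.DN
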