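import Mathlib
import Pool.Agent.Lib.MP_cd509c_nt.DN.Defs2

/-!
# Piece I1b: first interface without logarithmic loss, `L M - 1` in mean
-/

set_option autoImplicit false

namespace Pool.Agent.Lib.MP_cd509c_nt.DN

open Complex ComplexConjugate MeasureTheory

theorem dn_I1b_LLdiff : Differentiable ℂ LL := by
  intro w
  have h : DifferentiableAt ℂ (fun w : ℂ => Lf (6 + w)) w :=
    (Lf_differentiable (6 + w)).comp w (by fun_prop)
  exact h

theorem dn_I1b_Moldiff (X : ℝ) : Differentiable ℂ (Mol X) := by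
  intro w
  have h : DifferentiableAt ℂ (fun w : ℂ => ∑ b ∈ Finset.Icc 1 ⌊X⌋₊,
      muf b * Pw (Real.log b / Real.log X) * (b : ℂ) ^ (-(6 + w))) w := by
    apply DifferentiableAt.fun_sum
    intro b hb
    rw [Finset.mem_Icc] at hb
    have hb0 : (b : ℂ) ≠ 0 := by
      have : 0 < b := hb.1
      exact_mod_cast this.ne'
    apply DifferentiableAt.const_mul
    exact DifferentiableAt.const_cpow (by fun_prop) (Or.inl hb0)
  exact h

/-- the integral of the norm over a moved window -/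
theorem dn_I1b_window (f : ℂ → ℂ) (g : ℝ → ℝ) (T v D : ℝ) (hT : 2 ≤ T) (hv : |v| ≤ T / 8)
    (hf : Continuous f) (hg : Continuous g) (hfg : ∀ y : ℝ, ‖f ((y : ℝ) * I)‖ ≤ g y)
    (hD : ∫ y in (T / 4)..(8 * T), g y ≤ D) :
    ∫ y in (T / 2)..(4 * T), ‖f ((y + v : ℝ) * I)‖ ≤ D := by
  have hv' := abs_le.1 hv
  have hg0 : ∀ y, 0 ≤ g y := fun y => (norm_nonneg _).trans (hfg y)
  have hc : Continuous fun y : ℝ => ‖f ((y : ℝ) * I)‖ := by fun_prop
  have h1 : ∫ y in (T / 2)..(4 * T), ‖f ((y + v : ℝ) * I)‖ =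
      ∫ y in (T / 2 + v)..(4 * T + v), ‖f ((y : ℝ) * I)‖ := by
    rw [← intervalIntegral.integral_comp_add_right (fun y : ℝ => ‖f ((y : ℝ) * I)‖) v]
  rw [h1]
  calc ∫ y in (T / 2 + v)..(4 * T + v), ‖f ((y : ℝ) * I)‖
      ≤ ∫ y in (T / 2 + v)..(4 * T + v), g y :=
        intervalIntegral.integral_mono_on (by linarith) (hc.intervalIntegrable _ _)
          (hg.intervalIntegrable _ _) (fun y _ => hfg y)
    _ ≤ ∫ y in (T / 4)..(8 * T), g y := by
        apply intervalIntegral.integral_mono_interval (by linarith [hv'.1]) (by linarith)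
          (by linarith [hv'.2])
        · exact Filter.Eventually.of_forall hg0
        · exact hg.intervalIntegrable _ _
    _ ≤ D := hD

theorem dn_I1b_amgm (a b : ℝ) : a * b + 1 ≤ (a ^ 2 * b ^ 2) / 2 + 3 / 2 := by
  nlinarith [sq_nonneg (a * b - 1)]

theorem dn_I1b_crit (L M : ℂ → ℂ) (hL : Differentiable ℂ L) (hM : Differentiable ℂ M)
    (T v D : ℝ) (hT : 2 ≤ T) (hv : |v| ≤ T / 8)
    (h1 : ∫ y in (T / 4)..(8 * T), ‖L (y * I)‖ ^ 2 * ‖M (y * I + 0)‖ ^ 2 ≤ D) :
    ∫ y in (T / 2)..(4 * T), ‖L ((y + v : ℝ) * I) * M ((y + v : ℝ) * I) - 1‖ ≤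
      D / 2 + 12 * T := by
  have hc1 : Continuous fun y : ℝ => ‖L (y * I)‖ ^ 2 * ‖M (y * I + 0)‖ ^ 2 := by
    have := hL.continuous
    have := hM.continuous
    fun_prop
  have hc3 : Continuous fun w : ℂ => L w * M w - 1 := by
    have := hL.continuous
    have := hM.continuous
    fun_prop
  apply dn_I1b_window (fun w => L w * M w - 1)
    (fun y => (‖L (y * I)‖ ^ 2 * ‖M (y * I + 0)‖ ^ 2) / 2 + 3 / 2)
    T v _ hT hv hc3 ((hc1.div_const 2).add continuous_const)
  · intro y
    refine le_trans ?_ (dn_I1b_amgm _ _)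
    show ‖L (y * I) * M (y * I) - 1‖ ≤ ‖L (y * I)‖ * ‖M (y * I + 0)‖ + 1
    rw [add_zero]
    calc ‖L (y * I) * M (y * I) - 1‖ ≤ ‖L (y * I) * M (y * I)‖ + ‖(1 : ℂ)‖ := norm_sub_le _ _
      _ = _ := by rw [norm_mul, norm_one]
  · have e1 : ∫ y in (T / 4)..(8 * T),
        ((‖L (y * I)‖ ^ 2 * ‖M (y * I + 0)‖ ^ 2) / 2 + 3 / 2) =
        (∫ y in (T / 4)..(8 * T), ‖L (y * I)‖ ^ 2 * ‖M (y * I + 0)‖ ^ 2) / 2 +
          3 / 2 * (8 * T - T / 4) := by
      rw [intervalIntegral.integral_add ((hc1.div_const 2).intervalIntegrable _ _)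
        (continuous_const.intervalIntegrable _ _)]
      rw [intervalIntegral.integral_div, intervalIntegral.integral_const, smul_eq_mul]
      ring
    rw [e1]
    linarith only [h1, hT]

theorem p_I1b (h3 : S_3L) (he : S_edge) (hmc : S_molCrude) (hML : S_ML) :
    S_I1 (fun _ => 1) := by
  obtain ⟨θ₁, C₁, hθ₁, hC₁, hML⟩ := hML
  refine ⟨min θ₁ (1 / 4), lt_min hθ₁ (by norm_num), ?_⟩
  intro θ B hθ hθm hB
  have hθ1 : θ ≤ 1 / 4 := hθm.trans (min_le_right _ _)
  have hθ2 : θ ≤ θ₁ := hθm.trans (min_le_left _ _)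
  obtain ⟨C3, hC3, h3⟩ := h3
  obtain ⟨Ce, hCe, he⟩ := he θ hθ (by linarith)
  obtain ⟨Cm, hCm, hmc⟩ := hmc
  obtain ⟨Cs, hCs, hML⟩ := hML θ 1 hθ hθ2 le_rfl
  obtain ⟨Cb, hCb, hb⟩ := Lf_bound
  set K : ℝ := Cs / 2 + 12 + (625 * Cb * Cm + 1) + Ce with hK
  have hKpos : 0 < K := by positivity
  refine ⟨(C3 + 4) * K, θ / (8 * B), by positivity, by positivity, ?_⟩
  intro T hT σ hσ hσB
  have hT0 : 0 < T := by linarith
  have hlog0 : 0 < Real.log T := Real.log_pos (by linarith)
  set X : ℝ := T ^ θ with hX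
  have hX1 : 1 ≤ X := Real.one_le_rpow (by linarith) hθ.le
  set f : ℂ → ℂ := fun w => LL w * Mol X w - 1 with hf
  have hfd : Differentiable ℂ f := (dn_I1b_LLdiff.mul (dn_I1b_Moldiff X)).sub_const 1
  set P : ℝ := T ^ (-(θ / 8)) with hP
  have hP0 : 0 < P := Real.rpow_pos_of_pos hT0 _
  have hPexp : ∀ s : ℝ, P ^ s = Real.exp (-(θ / 8 * s * Real.log T)) := by
    intro s
    rw [hP, ← Real.rpow_mul hT0.le, Real.rpow_def_of_pos hT0]
    congr 1
    ring
  have hP1 : P = Real.exp (-(θ / 8 * 1 * Real.log T)) := by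
    rw [← hPexp 1, Real.rpow_one]
  -- the exponent
  have hexp : ∀ s : ℝ, σ ≤ s * B → Real.exp (-(θ / 8 * s * Real.log T)) ≤
      Real.exp (-(θ / (8 * B) * σ * Real.log T)) := by
    intro s hs
    apply Real.exp_le_exp.2
    rw [neg_le_neg_iff]
    apply mul_le_mul_of_nonneg_right _ hlog0.le
    rw [div_mul_eq_mul_div, div_mul_eq_mul_div, div_le_div_iff₀ (by positivity) (by norm_num)]
    nlinarith [mul_le_mul_of_nonneg_left hs hθ.le]
  have hZ : 0 < K * T := by positivity
  have hCeK : Ce ≤ K := by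
    rw [hK]
    have h5 : 0 ≤ 625 * Cb * Cm := by positivity
    linarith
  show ∫ y in (T / 2)..(4 * T), ‖f (σ + y * I)‖ ≤
    (C3 + 4) * K * T * 1 * Real.exp (-(θ / (8 * B) * σ * Real.log T))
  rcases le_total σ 1 with h1 | h1
  · -- inside the strip
    set G : ℝ := (625 * Cb * Cm + 1) * T with hG
    set A₀ : ℝ := (Cs / 2 + 12) * T with hA₀
    have hGpos : 0 < G := by positivity
    have hA₀pos : 0 < A₀ := by positivity
    have key := h3 f T G A₀ (Ce * P) hT hGpos hA₀pos (by positivity) hfd ?_ ?_ ?_ σ hσ h1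
    · -- conclusion
      have hAG : A₀ + G ≤ K * T := by
        have h5 : 0 ≤ Ce * T := by positivity
        calc A₀ + G ≤ A₀ + G + Ce * T := by linarith
          _ = K * T := by rw [hA₀, hG, hK]; ring
      have hTA : T * (Ce * P) ≤ K * T * P := by
        calc T * (Ce * P) = Ce * (T * P) := by ring
          _ ≤ K * (T * P) := mul_le_mul_of_nonneg_right hCeK (by positivity)
          _ = _ := by ring
      have hp1 : (A₀ + G) ^ (1 - σ) ≤ (K * T) ^ (1 - σ) :=
        Real.rpow_le_rpow (by positivity) hAG (by linarith)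
      have hp2 : (T * (Ce * P)) ^ σ ≤ (K * T) ^ σ * P ^ σ := by
        rw [← Real.mul_rpow hZ.le hP0.le]
        exact Real.rpow_le_rpow (by positivity) hTA hσ
      have hp3 : (K * T) ^ (1 - σ) * (K * T) ^ σ = K * T := by
        rw [← Real.rpow_add hZ]
        simp
      calc ∫ y in (T / 2)..(4 * T), ‖f (σ + y * I)‖
          ≤ C3 * (A₀ + G) ^ (1 - σ) * (T * (Ce * P)) ^ σ := key
        _ ≤ C3 * (K * T) ^ (1 - σ) * ((K * T) ^ σ * P ^ σ) := by
            gcongr
        _ = C3 * ((K * T) ^ (1 - σ) * (K * T) ^ σ) * P ^ σ := by ring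
        _ = C3 * (K * T) * Real.exp (-(θ / 8 * σ * Real.log T)) := by
            rw [hp3, hPexp]
        _ ≤ (C3 + 4) * (K * T) * Real.exp (-(θ / (8 * B) * σ * Real.log T)) := by
            have h6 := hexp σ (by nlinarith)
            gcongr
            linarith
        _ = _ := by ring
    · -- crude bound
      intro w hw0 hw1
      have hLLw : ‖LL w‖ ≤ 625 * Cb * (2 + |w.im|) ^ 4 := by
        have h5 := hb (6 + w) (by simp; linarith)
        have h6 : |(6 + w).im| = |w.im| := by simp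
        rw [h6] at h5
        have h7 : (9 + |w.im|) ^ 4 ≤ (5 * (2 + |w.im|)) ^ 4 := by
          apply pow_le_pow_left₀ (by positivity)
          have := abs_nonneg w.im
          linarith
        calc ‖LL w‖ = ‖Lf (6 + w)‖ := rfl
          _ ≤ Cb * (9 + |w.im|) ^ 4 := h5
          _ ≤ Cb * (5 * (2 + |w.im|)) ^ 4 := by gcongr
          _ = _ := by ring
      have hMw : ‖Mol X w‖ ≤ Cm * T := by
        have h5 := hmc X hX1 w (by linarith)
        have h6 : X ^ 3 ≤ T := by
          rw [hX, ← Real.rpow_natCast, ← Real.rpow_mul hT0.le]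
          calc T ^ (θ * ((3 : ℕ) : ℝ)) ≤ T ^ (1 : ℝ) := by
                apply Real.rpow_le_rpow_of_exponent_le (by linarith)
                push_cast
                linarith
            _ = T := Real.rpow_one T
        exact h5.trans (mul_le_mul_of_nonneg_left h6 hCm.le)
      have h2w : 1 ≤ 2 + |w.im| := by
        have := abs_nonneg w.im
        linarith
      have hpow : (2 + |w.im|) ^ 4 ≤ (2 + |w.im|) ^ 8 := pow_le_pow_right₀ h2w (by norm_num)
      have hpow1 : 1 ≤ (2 + |w.im|) ^ 8 := one_le_pow₀ h2w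
      calc ‖f w‖ ≤ ‖LL w * Mol X w‖ + ‖(1 : ℂ)‖ := norm_sub_le _ _
        _ = ‖LL w‖ * ‖Mol X w‖ + 1 := by rw [norm_mul, norm_one]
        _ ≤ 625 * Cb * (2 + |w.im|) ^ 4 * (Cm * T) + 1 := by gcongr
        _ ≤ 625 * Cb * (2 + |w.im|) ^ 8 * (Cm * T) + T * (2 + |w.im|) ^ 8 := by
            have h8 : 1 ≤ T * (2 + |w.im|) ^ 8 := by nlinarith
            gcongr
        _ = G * (2 + |w.im|) ^ 8 := by rw [hG]; ring
    · -- the critical line
      intro v hv
      have h5 := hML T 0 hT (by simp)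
      rw [norm_zero, mul_zero, Real.exp_zero, mul_one] at h5
      have h8 := dn_I1b_crit LL (Mol X) dn_I1b_LLdiff (dn_I1b_Moldiff X) T v _ hT hv h5
      refine h8.trans (le_of_eq ?_)
      rw [hA₀]
      ring
    · -- the right edge
      intro w hw
      exact he T hT w hw.ge
  · -- to the right of the strip
    have hpt : ∀ y : ℝ, ‖f (σ + y * I)‖ ≤ Ce * P := by
      intro y
      exact he T hT (σ + y * I) (by simpa using h1)
    have hc : Continuous fun y : ℝ => ‖f (σ + y * I)‖ := by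
      have := hfd.continuous
      fun_prop
    calc ∫ y in (T / 2)..(4 * T), ‖f (σ + y * I)‖
        ≤ ∫ _y in (T / 2)..(4 * T), Ce * P :=
          intervalIntegral.integral_mono_on (by linarith) (hc.intervalIntegrable _ _)
            (continuous_const.intervalIntegrable _ _) (fun y _ => hpt y)
      _ = (4 * T - T / 2) * (Ce * P) := by
          rw [intervalIntegral.integral_const, smul_eq_mul]
      _ ≤ 4 * T * (K * P) := by
          have h8 : Ce * P ≤ K * P := mul_le_mul_of_nonneg_right hCeK hP0.le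
          apply mul_le_mul (by linarith) h8 (by positivity) (by positivity)
      _ = 4 * (K * T) * Real.exp (-(θ / 8 * 1 * Real.log T)) := by
          rw [← hP1]
          ring
      _ ≤ (C3 + 4) * (K * T) * Real.exp (-(θ / (8 * B) * σ * Real.log T)) := by
          have h6 := hexp 1 (by linarith)
          gcongr
          linarith
      _ = _ := by ring

end Pool.Agent.Lib.MP_cd509c_nt.DN
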