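import Pool.Agent.Lib.MP_cd509c_nt.DN.Defs2
import Pool.Agent.Lib.MP_1e1427_nt.DivBound

/-!
# Piece J1: Jutila's approximation of the unit interval
-/

set_option autoImplicit false

namespace Pool.Agent.Lib.MP_cd509c_nt.DN

open Complex ComplexConjugate MeasureTheory

/-- full exponential sum -/
theorem dn_J1_full (m : ℕ) (hm : 1 ≤ m) (n : ℤ) :
    ‖∑ b ∈ Finset.range m, cexp (2 * Real.pi * I * (n * ((b : ℂ) / m)))‖ ≤
      if (m : ℤ) ∣ n then (m : ℝ) else 0 := by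
  have hm0 : (m : ℂ) ≠ 0 := by
    have : m ≠ 0 := by omega
    exact_mod_cast this
  obtain ⟨z, hz⟩ : ∃ z : ℂ, z = cexp (2 * Real.pi * I * (n / m)) := ⟨_, rfl⟩
  have hterm : ∀ b : ℕ, cexp (2 * Real.pi * I * (n * ((b : ℂ) / m))) = z ^ b := by
    intro b
    rw [hz, ← Complex.exp_nat_mul]
    congr 1
    ring
  rw [Finset.sum_congr rfl (fun b _ => hterm b)]
  have hz1 : ‖z‖ = 1 := by
    have e : 2 * Real.pi * I * ((n : ℂ) / m) = ((2 * Real.pi * (n / m) : ℝ) : ℂ) * I := by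
      push_cast
      ring
    rw [hz, e, Complex.norm_exp_ofReal_mul_I]
  split_ifs with h
  · calc ‖∑ b ∈ Finset.range m, z ^ b‖ ≤ ∑ b ∈ Finset.range m, ‖z ^ b‖ := norm_sum_le _ _
      _ = m := by simp [hz1]
  · have hz1 : z ≠ 1 := by
      intro h1
      rw [hz, Complex.exp_eq_one_iff] at h1
      obtain ⟨k, hk⟩ := h1
      apply h
      refine ⟨k, ?_⟩
      have h2 : (2 * Real.pi * I : ℂ) ≠ 0 := Complex.two_pi_I_ne_zero
      have h3 : (n : ℂ) / m = k := by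
        apply mul_left_cancel₀ h2
        rw [hk]
        ring
      have h4 : (n : ℂ) = m * k := by
        rw [← h3]
        field_simp
      exact_mod_cast h4
    have hzm : z ^ m = 1 := by
      rw [hz, ← Complex.exp_nat_mul, Complex.exp_eq_one_iff]
      exact ⟨n, by field_simp⟩
    rw [geom_sum_eq hz1, hzm, sub_self, zero_div, norm_zero]

/-- coprimality detected by the Moebius function -/
theorem dn_J1_moebius (q : ℕ) (hq : 1 ≤ q) (f : ℕ → ℂ) :
    ∑ a ∈ (Finset.range q).filter (fun a => a.Coprime q), f a =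
      ∑ d ∈ q.divisors, ((ArithmeticFunction.moebius d : ℤ) : ℂ) *
        ∑ b ∈ Finset.range (q / d), f (d * b) := by
  have h1 : ∀ a : ℕ, (if a.Coprime q then f a else 0) =
      ∑ d ∈ q.divisors, if d ∣ a then ((ArithmeticFunction.moebius d : ℤ) : ℂ) * f a else 0 := by
    intro a
    have hs : ∑ d ∈ (a.gcd q).divisors, (ArithmeticFunction.moebius d : ℤ) =
        if a.gcd q = 1 then 1 else 0 := by
      rw [← ArithmeticFunction.coe_mul_zeta_apply, ArithmeticFunction.moebius_mul_coe_zeta,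
        ArithmeticFunction.one_apply]
    have hd : (a.gcd q).divisors = q.divisors.filter (fun d => d ∣ a) := by
      ext d
      rw [Nat.mem_divisors, Finset.mem_filter, Nat.mem_divisors, Nat.dvd_gcd_iff]
      constructor
      · rintro ⟨⟨h1, h2⟩, h3⟩
        exact ⟨⟨h2, by omega⟩, h1⟩
      · rintro ⟨⟨h1, h2⟩, h3⟩
        exact ⟨⟨h3, h1⟩, Nat.gcd_ne_zero_right (by omega)⟩
    rw [← Finset.sum_filter, ← hd, ← Finset.sum_mul]
    have h2 : (∑ d ∈ (a.gcd q).divisors, ((ArithmeticFunction.moebius d : ℤ) : ℂ)) =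
        if a.gcd q = 1 then 1 else 0 := by
      rw [← Int.cast_sum, hs]
      split_ifs <;> simp
    rw [h2]
    by_cases hc : a.gcd q = 1
    · have hc' : a.Coprime q := hc
      rw [if_pos hc', if_pos hc, one_mul]
    · have hc' : ¬ a.Coprime q := hc
      rw [if_neg hc', if_neg hc, zero_mul]
  rw [Finset.sum_filter, Finset.sum_congr rfl (fun a _ => h1 a), Finset.sum_comm]
  apply Finset.sum_congr rfl
  intro d hd
  have hdq := Nat.dvd_of_mem_divisors hd
  have hd0 := Nat.pos_of_mem_divisors hd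
  rw [← Finset.sum_filter, ← Finset.mul_sum]
  congr 1
  symm
  apply Finset.sum_bij (fun b _ => d * b)
  · intro b hb
    rw [Finset.mem_range] at hb
    rw [Finset.mem_filter, Finset.mem_range]
    refine ⟨?_, dvd_mul_right _ _⟩
    calc d * b < d * (q / d) := Nat.mul_lt_mul_of_pos_left hb hd0
      _ = q := Nat.mul_div_cancel' hdq
  · intro b _ b' _ h
    exact Nat.eq_of_mul_eq_mul_left hd0 h
  · intro a ha
    rw [Finset.mem_filter, Finset.mem_range] at ha
    obtain ⟨b, hb⟩ := ha.2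
    refine ⟨b, ?_, hb.symm⟩
    rw [Finset.mem_range]
    rw [Nat.lt_div_iff_mul_lt' hdq]
    rw [← hb]
    exact ha.1
  · intro b _
    rfl

/-- Ramanujan sums -/
theorem dn_J1_cq (q : ℕ) (hq : 1 ≤ q) (n : ℤ) :
    ‖∑ a ∈ (Finset.range q).filter (fun a => a.Coprime q),
      cexp (2 * Real.pi * I * (n * ((a : ℂ) / q)))‖ ≤
      ∑ e ∈ q.divisors, if (e : ℤ) ∣ n then (e : ℝ) else 0 := by
  rw [dn_J1_moebius q hq (fun a => cexp (2 * Real.pi * I * (n * ((a : ℂ) / q))))]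
  rw [← Nat.sum_div_divisors q (fun e => if (e : ℤ) ∣ n then (e : ℝ) else 0)]
  refine (norm_sum_le _ _).trans ?_
  apply Finset.sum_le_sum
  intro d hd
  have hdq := Nat.dvd_of_mem_divisors hd
  have hd0 := Nat.pos_of_mem_divisors hd
  have hqd : 1 ≤ q / d := Nat.div_pos (Nat.le_of_dvd (by omega) hdq) hd0
  rw [norm_mul]
  have h1 : ‖((ArithmeticFunction.moebius d : ℤ) : ℂ)‖ ≤ 1 := by
    rw [Complex.norm_intCast]
    have := ArithmeticFunction.abs_moebius_le_one (n := d)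
    exact_mod_cast this
  have h2 := dn_J1_full (q / d) hqd n
  have h3 : ∀ b : ℕ, cexp (2 * Real.pi * I * (n * (((d * b : ℕ) : ℂ) / q))) =
      cexp (2 * Real.pi * I * (n * ((b : ℂ) / ((q / d : ℕ) : ℂ)))) := by
    intro b
    congr 3
    have hd0' : (d : ℂ) ≠ 0 := by exact_mod_cast hd0.ne'
    have hq0' : (q : ℂ) ≠ 0 := by
      have : q ≠ 0 := by omega
      exact_mod_cast this
    rw [Nat.cast_div hdq hd0']
    push_cast
    field_simp
  rw [Finset.sum_congr rfl (fun b _ => h3 b)]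
  calc _ ≤ 1 * (if ((q / d : ℕ) : ℤ) ∣ n then ((q / d : ℕ) : ℝ) else 0) :=
        mul_le_mul h1 h2 (norm_nonneg _) zero_le_one
    _ = _ := one_mul _

/-- sum of Ramanujan sums -/
theorem dn_J1_cP (Q : ℝ) (hQ : 0 ≤ Q) (P : Finset ℕ) (hP : ∀ q ∈ P, 1 ≤ q ∧ (q : ℝ) ≤ 4 * Q)
    (n : ℤ) (hn : n ≠ 0) :
    ‖∑ q ∈ P, ∑ a ∈ (Finset.range q).filter (fun a => a.Coprime q),
      cexp (2 * Real.pi * I * (n * ((a : ℂ) / q)))‖ ≤ 4 * Q * (n.natAbs.divisors.card : ℝ) := by
  refine (norm_sum_le _ _).trans ?_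
  calc _ ≤ ∑ q ∈ P, ∑ e ∈ q.divisors, (if (e : ℤ) ∣ n then (e : ℝ) else 0) :=
        Finset.sum_le_sum (fun q hq => dn_J1_cq q (hP q hq).1 n)
    _ = ∑ q ∈ P, ∑ e ∈ n.natAbs.divisors, (if e ∣ q then (e : ℝ) else 0) := by
        apply Finset.sum_congr rfl
        intro q hq
        rw [← Finset.sum_filter, ← Finset.sum_filter]
        apply Finset.sum_congr _ (fun _ _ => rfl)
        ext e
        rw [Finset.mem_filter, Finset.mem_filter, Nat.mem_divisors, Nat.mem_divisors,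
          Int.natCast_dvd]
        have h1 := (hP q hq).1
        constructor
        · rintro ⟨⟨h2, h3⟩, h4⟩
          exact ⟨⟨h4, by omega⟩, h2⟩
        · rintro ⟨⟨h2, h3⟩, h4⟩
          exact ⟨⟨h4, by omega⟩, h2⟩
    _ = ∑ e ∈ n.natAbs.divisors, ∑ q ∈ P, (if e ∣ q then (e : ℝ) else 0) := Finset.sum_comm
    _ ≤ ∑ _e ∈ n.natAbs.divisors, 4 * Q := by
        apply Finset.sum_le_sum
        intro e he
        have he0 := Nat.pos_of_mem_divisors he
        rw [← Finset.sum_filter, Finset.sum_const, nsmul_eq_mul]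
        have h1 : (P.filter (fun q => e ∣ q)).card ≤ ⌊4 * Q⌋₊ / e := by
          calc (P.filter (fun q => e ∣ q)).card ≤ ((Finset.Icc 1 (⌊4 * Q⌋₊ / e)).image
                (fun k => e * k)).card := by
                apply Finset.card_le_card
                intro q hq
                rw [Finset.mem_filter] at hq
                obtain ⟨hqP, k, hk⟩ := hq
                have h2 := hP q hqP
                have h3 : q ≤ ⌊4 * Q⌋₊ := Nat.le_floor h2.2
                rw [Finset.mem_image]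
                refine ⟨k, ?_, hk.symm⟩
                rw [Finset.mem_Icc]
                constructor
                · rcases Nat.eq_zero_or_pos k with h | h
                  · rw [h, mul_zero] at hk
                    omega
                  · exact h
                · rw [Nat.le_div_iff_mul_le he0, mul_comm, ← hk]
                  exact h3
            _ ≤ (Finset.Icc 1 (⌊4 * Q⌋₊ / e)).card := Finset.card_image_le
            _ = ⌊4 * Q⌋₊ / e := by simp
        have h2 : (P.filter (fun q => e ∣ q)).card * e ≤ ⌊4 * Q⌋₊ :=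
          (Nat.mul_le_mul_right e h1).trans (Nat.div_mul_le_self _ _)
        calc ((P.filter (fun q => e ∣ q)).card : ℝ) * e ≤ (⌊4 * Q⌋₊ : ℝ) := by exact_mod_cast h2
          _ ≤ 4 * Q := Nat.floor_le (by positivity)
    _ = _ := by
        rw [Finset.sum_const, nsmul_eq_mul]
        ring

/-- the functional -/
noncomputable def dn_J1_E (P : Finset ℕ) (δ : ℝ) (G : ℝ → ℂ) : ℂ :=
  (∫ x in (0 : ℝ)..1, G x) - 1 / (2 * δ * (∑ q ∈ P, (q.totient : ℝ)) : ℝ) *
      ∑ q ∈ P, ∑ a ∈ (Finset.range q).filter (fun a => a.Coprime q),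
        ∫ β in (-δ)..δ, G ((a : ℝ) / q + β)

/-- the exponentials -/
noncomputable def dn_J1_e (n : ℤ) (x : ℝ) : ℂ := cexp (2 * Real.pi * I * (n * x))

theorem dn_J1_e_cont (n : ℤ) : Continuous (dn_J1_e n) := by
  unfold dn_J1_e
  fun_prop

theorem dn_J1_e_norm (n : ℤ) (x : ℝ) : ‖dn_J1_e n x‖ = 1 := by
  unfold dn_J1_e
  have e : 2 * Real.pi * I * ((n : ℂ) * (x : ℂ)) = ((2 * Real.pi * (n * x) : ℝ) : ℂ) * I := by
    push_cast
    ring
  rw [e, Complex.norm_exp_ofReal_mul_I]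

theorem dn_J1_e_add (n : ℤ) (x y : ℝ) : dn_J1_e n (x + y) = dn_J1_e n x * dn_J1_e n y := by
  unfold dn_J1_e
  rw [← Complex.exp_add]
  congr 1
  push_cast
  ring

theorem dn_J1_e_int (n : ℤ) (hn : n ≠ 0) (u v : ℝ) :
    ∫ x in u..v, dn_J1_e n x = (dn_J1_e n v - dn_J1_e n u) / (2 * Real.pi * I * n) := by
  have hc : (2 * Real.pi * I * n : ℂ) ≠ 0 := by
    apply mul_ne_zero Complex.two_pi_I_ne_zero
    exact_mod_cast hn
  have h := integral_exp_mul_complex (a := u) (b := v) hc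
  unfold dn_J1_e
  have e : ∀ x : ℝ, cexp (2 * Real.pi * I * (n * x)) = cexp (2 * Real.pi * I * n * x) := by
    intro x
    congr 1
    ring
  rw [intervalIntegral.integral_congr (g := fun x : ℝ => cexp (2 * Real.pi * I * n * x))
    (fun x _ => e x), h, e, e]

theorem dn_J1_e_one (n : ℤ) (hn : n ≠ 0) : ∫ x in (0 : ℝ)..1, dn_J1_e n x = 0 := by
  rw [dn_J1_e_int n hn]
  have h1 : dn_J1_e n 1 = 1 := by
    unfold dn_J1_e
    rw [Complex.exp_eq_one_iff]
    exact ⟨n, by push_cast; ring⟩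
  have h0 : dn_J1_e n 0 = 1 := by
    unfold dn_J1_e
    simp
  rw [h1, h0, sub_self, zero_div]

theorem dn_J1_e_zero (x : ℝ) : dn_J1_e 0 x = 1 := by
  unfold dn_J1_e
  simp

theorem dn_J1_J (n : ℤ) (hn : n ≠ 0) (δ s : ℝ) (hδ : 0 < δ) (hs : 0 < s) (hs1 : s ≤ 1) :
    ‖∫ β in (-δ)..δ, dn_J1_e n β‖ ≤ 2 * δ * (δ * |(n : ℝ)|) ^ (-s) := by
  have hn0 : (0 : ℝ) < |(n : ℝ)| := by
    rw [abs_pos]
    exact_mod_cast hn
  have ht : 0 < δ * |(n : ℝ)| := by positivity
  rcases le_or_gt (δ * |(n : ℝ)|) 1 with h | h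
  · have h1 : ‖∫ β in (-δ)..δ, dn_J1_e n β‖ ≤ 1 * |δ - (-δ)| :=
      intervalIntegral.norm_integral_le_of_norm_le_const (fun x _ => (dn_J1_e_norm n x).le)
    have h2 : |δ - (-δ)| = 2 * δ := by
      rw [abs_of_pos (by linarith)]
      ring
    have h3 : 1 ≤ (δ * |(n : ℝ)|) ^ (-s) :=
      Real.one_le_rpow_of_pos_of_le_one_of_nonpos ht h (by linarith)
    rw [h2, one_mul] at h1
    calc _ ≤ 2 * δ := h1
      _ = 2 * δ * 1 := (mul_one _).symm
      _ ≤ _ := by
        apply mul_le_mul_of_nonneg_left h3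
        positivity
  · rw [dn_J1_e_int n hn, norm_div]
    have h1 : ‖dn_J1_e n δ - dn_J1_e n (-δ)‖ ≤ 2 := by
      refine (norm_sub_le _ _).trans ?_
      rw [dn_J1_e_norm, dn_J1_e_norm]
      norm_num
    have h2 : ‖(2 * Real.pi * I * n : ℂ)‖ = 2 * Real.pi * |(n : ℝ)| := by
      simp [Real.pi_pos.le, abs_of_pos Real.pi_pos]
    have h3 : (δ * |(n : ℝ)|) ^ (-1 : ℝ) ≤ (δ * |(n : ℝ)|) ^ (-s) :=
      Real.rpow_le_rpow_of_exponent_le h.le (by linarith)
    have h4 : 2 * δ * (δ * |(n : ℝ)|) ^ (-1 : ℝ) = 2 / |(n : ℝ)| := by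
      rw [Real.rpow_neg_one]
      field_simp
    rw [h2]
    have hpi := Real.pi_gt_three
    calc ‖dn_J1_e n δ - dn_J1_e n (-δ)‖ / (2 * Real.pi * |(n : ℝ)|) ≤
          2 / (2 * Real.pi * |(n : ℝ)|) := by
          apply div_le_div_of_nonneg_right h1
          positivity
      _ ≤ 2 / |(n : ℝ)| := by
          apply div_le_div_of_nonneg_left (by norm_num) hn0
          nlinarith
      _ = 2 * δ * (δ * |(n : ℝ)|) ^ (-1 : ℝ) := h4.symm
      _ ≤ _ := by
          apply mul_le_mul_of_nonneg_left h3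
          positivity

theorem dn_J1_L (P : Finset ℕ) (hP : P.Nonempty) (h1 : ∀ q ∈ P, 1 ≤ q) :
    0 < ∑ q ∈ P, (q.totient : ℝ) := by
  apply Finset.sum_pos _ hP
  intro q hq
  exact_mod_cast Nat.totient_pos.2 (h1 q hq)

theorem dn_J1_card (q : ℕ) :
    (((Finset.range q).filter (fun a => a.Coprime q)).card : ℝ) = q.totient := by
  have h : (Finset.range q).filter (fun a => a.Coprime q) =
      (Finset.range q).filter (fun a => q.Coprime a) := by
    apply Finset.filter_congr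
    intro a _
    exact Nat.coprime_comm
  rw [h, Nat.totient_eq_card_coprime]

/-- size of the functional -/
theorem dn_J1_E_norm (P : Finset ℕ) (δ : ℝ) (hδ : 0 < δ) (hP : P.Nonempty) (h1 : ∀ q ∈ P, 1 ≤ q)
    (F : ℝ → ℂ) (η : ℝ) (hF : ∀ x, ‖F x‖ ≤ η) : ‖dn_J1_E P δ F‖ ≤ 2 * η := by
  have hL := dn_J1_L P hP h1
  unfold dn_J1_E
  have h2 : ‖∫ x in (0 : ℝ)..1, F x‖ ≤ η := by
    have := intervalIntegral.norm_integral_le_of_norm_le_const (a := 0) (b := 1) (C := η)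
      (f := F) (fun x _ => hF x)
    simpa using this
  have h3 : ∀ y : ℝ, ‖∫ β in (-δ)..δ, F (y + β)‖ ≤ η * (2 * δ) := by
    intro y
    have := intervalIntegral.norm_integral_le_of_norm_le_const (a := -δ) (b := δ) (C := η)
      (f := fun β => F (y + β)) (fun x _ => hF _)
    have h2 : |δ - (-δ)| = 2 * δ := by
      rw [abs_of_pos (by linarith)]
      ring
    rwa [h2] at this
  have h4 : ‖∑ q ∈ P, ∑ a ∈ (Finset.range q).filter (fun a => a.Coprime q),
        ∫ β in (-δ)..δ, F ((a : ℝ) / q + β)‖ ≤ (∑ q ∈ P, (q.totient : ℝ)) * (η * (2 * δ)) := by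
    rw [Finset.sum_mul]
    refine (norm_sum_le _ _).trans ?_
    apply Finset.sum_le_sum
    intro q _
    refine (norm_sum_le _ _).trans ?_
    calc _ ≤ ∑ a ∈ (Finset.range q).filter (fun a => a.Coprime q), η * (2 * δ) :=
          Finset.sum_le_sum (fun a _ => h3 _)
      _ = _ := by rw [Finset.sum_const, nsmul_eq_mul, dn_J1_card]
  have h5 : ‖(1 / (2 * δ * (∑ q ∈ P, (q.totient : ℝ)) : ℝ) : ℂ)‖ =
      1 / (2 * δ * (∑ q ∈ P, (q.totient : ℝ))) := by
    rw [norm_div, norm_one, Complex.norm_real, Real.norm_eq_abs, abs_of_pos (by positivity)]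
  refine (norm_sub_le _ _).trans ?_
  rw [norm_mul, h5]
  have h6 : 1 / (2 * δ * (∑ q ∈ P, (q.totient : ℝ))) *
      ‖∑ q ∈ P, ∑ a ∈ (Finset.range q).filter (fun a => a.Coprime q),
        ∫ β in (-δ)..δ, F ((a : ℝ) / q + β)‖ ≤ η := by
    calc _ ≤ 1 / (2 * δ * (∑ q ∈ P, (q.totient : ℝ))) *
          ((∑ q ∈ P, (q.totient : ℝ)) * (η * (2 * δ))) := by
          apply mul_le_mul_of_nonneg_left h4
          positivity
      _ = η := by
          field_simp
  linarith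

/-- linearity -/
theorem dn_J1_E_sub (P : Finset ℕ) (δ : ℝ) (F G : ℝ → ℂ) (hF : Continuous F) (hG : Continuous G) :
    dn_J1_E P δ (fun x => F x - G x) = dn_J1_E P δ F - dn_J1_E P δ G := by
  unfold dn_J1_E
  rw [intervalIntegral.integral_sub (hF.intervalIntegrable _ _) (hG.intervalIntegrable _ _)]
  have h : ∀ y : ℝ, ∫ β in (-δ)..δ, (F (y + β) - G (y + β)) =
      (∫ β in (-δ)..δ, F (y + β)) - ∫ β in (-δ)..δ, G (y + β) := by
    intro y
    apply intervalIntegral.integral_sub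
    · exact (hF.comp (continuous_const.add continuous_id)).intervalIntegrable _ _
    · exact (hG.comp (continuous_const.add continuous_id)).intervalIntegrable _ _
  simp only [h, Finset.sum_sub_distrib]
  ring

theorem dn_J1_E_sum (P : Finset ℕ) (δ : ℝ) (s : Finset ℤ) (c : ℤ → ℂ) :
    dn_J1_E P δ (fun x => ∑ n ∈ s, c n * dn_J1_e n x) =
      ∑ n ∈ s, c n * dn_J1_E P δ (dn_J1_e n) := by
  unfold dn_J1_E
  have h0 : ∀ (u v : ℝ) (y : ℝ), ∫ β in u..v, ∑ n ∈ s, c n * dn_J1_e n (y + β) =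
      ∑ n ∈ s, c n * ∫ β in u..v, dn_J1_e n (y + β) := by
    intro u v y
    rw [intervalIntegral.integral_finset_sum]
    · apply Finset.sum_congr rfl
      intro n _
      rw [intervalIntegral.integral_const_mul]
    · intro n _
      apply Continuous.intervalIntegrable
      exact continuous_const.mul ((dn_J1_e_cont n).comp (continuous_const.add continuous_id))
  have h1 : ∫ x in (0 : ℝ)..1, ∑ n ∈ s, c n * dn_J1_e n x =
      ∑ n ∈ s, c n * ∫ x in (0 : ℝ)..1, dn_J1_e n x := by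
    have := h0 0 1 0
    simpa using this
  rw [h1]
  simp only [h0]
  have h2 : ∑ q ∈ P, ∑ a ∈ (Finset.range q).filter (fun a => a.Coprime q),
      ∑ n ∈ s, c n * ∫ β in (-δ)..δ, dn_J1_e n ((a : ℝ) / q + β) =
      ∑ n ∈ s, c n * ∑ q ∈ P, ∑ a ∈ (Finset.range q).filter (fun a => a.Coprime q),
        ∫ β in (-δ)..δ, dn_J1_e n ((a : ℝ) / q + β) := by
    simp only [Finset.mul_sum]
    have h3 : ∀ q ∈ P, ∑ a ∈ (Finset.range q).filter (fun a => a.Coprime q),
        ∑ n ∈ s, c n * ∫ β in (-δ)..δ, dn_J1_e n ((a : ℝ) / q + β) =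
        ∑ n ∈ s, ∑ a ∈ (Finset.range q).filter (fun a => a.Coprime q),
          c n * ∫ β in (-δ)..δ, dn_J1_e n ((a : ℝ) / q + β) := fun q _ => Finset.sum_comm
    rw [Finset.sum_congr rfl h3, Finset.sum_comm]
  rw [h2, Finset.mul_sum, ← Finset.sum_sub_distrib]
  apply Finset.sum_congr rfl
  intro n _
  ring

theorem dn_J1_E_zero (P : Finset ℕ) (δ : ℝ) (hδ : 0 < δ) (hP : P.Nonempty)
    (h1 : ∀ q ∈ P, 1 ≤ q) : dn_J1_E P δ (dn_J1_e 0) = 0 := by
  have hL := dn_J1_L P hP h1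
  unfold dn_J1_E
  simp only [dn_J1_e_zero]
  have h2 : ∑ q ∈ P, ∑ a ∈ (Finset.range q).filter (fun a => a.Coprime q),
      ∫ _β in (-δ)..δ, (1 : ℂ) = ((2 * δ * (∑ q ∈ P, (q.totient : ℝ)) : ℝ) : ℂ) := by
    have h3 : ∫ _β in (-δ)..δ, (1 : ℂ) = ((2 * δ : ℝ) : ℂ) := by
      rw [intervalIntegral.integral_const]
      simp
      ring
    rw [h3]
    have h4 : ∀ q ∈ P, ∑ _a ∈ (Finset.range q).filter (fun a => a.Coprime q), ((2 * δ : ℝ) : ℂ) =
        ((2 * δ * (q.totient : ℝ) : ℝ) : ℂ) := by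
      intro q _
      rw [Finset.sum_const, nsmul_eq_mul, ← dn_J1_card]
      push_cast
      ring
    rw [Finset.sum_congr rfl h4, Finset.mul_sum, Complex.ofReal_sum]
  rw [h2]
  have h5 : ((2 * δ * (∑ q ∈ P, (q.totient : ℝ)) : ℝ) : ℂ) ≠ 0 := by
    have : (2 * δ * (∑ q ∈ P, (q.totient : ℝ)) : ℝ) ≠ 0 := by positivity
    exact_mod_cast this
  rw [one_div, inv_mul_cancel₀ h5]
  simp

theorem dn_J1_E_e (P : Finset ℕ) (δ Q s : ℝ) (hδ : 0 < δ) (hQ : 0 ≤ Q) (hs : 0 < s) (hs1 : s ≤ 1)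
    (hP : P.Nonempty) (h1 : ∀ q ∈ P, 1 ≤ q ∧ (q : ℝ) ≤ 4 * Q) (n : ℤ) (hn : n ≠ 0) :
    ‖dn_J1_E P δ (dn_J1_e n)‖ ≤
      4 * Q / (∑ q ∈ P, (q.totient : ℝ)) * (n.natAbs.divisors.card : ℝ) *
        (δ * |(n : ℝ)|) ^ (-s) := by
  have hL := dn_J1_L P hP (fun q hq => (h1 q hq).1)
  unfold dn_J1_E
  rw [dn_J1_e_one n hn, zero_sub, norm_neg, norm_mul]
  have h5 : ‖(1 / (2 * δ * (∑ q ∈ P, (q.totient : ℝ)) : ℝ) : ℂ)‖ =
      1 / (2 * δ * (∑ q ∈ P, (q.totient : ℝ))) := by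
    rw [norm_div, norm_one, Complex.norm_real, Real.norm_eq_abs, abs_of_pos (by positivity)]
  rw [h5]
  have h2 : ∑ q ∈ P, ∑ a ∈ (Finset.range q).filter (fun a => a.Coprime q),
      ∫ β in (-δ)..δ, dn_J1_e n ((a : ℝ) / q + β) =
      (∑ q ∈ P, ∑ a ∈ (Finset.range q).filter (fun a => a.Coprime q),
        cexp (2 * Real.pi * I * (n * ((a : ℂ) / q)))) * ∫ β in (-δ)..δ, dn_J1_e n β := by
    rw [Finset.sum_mul]
    apply Finset.sum_congr rfl
    intro q _
    rw [Finset.sum_mul]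
    apply Finset.sum_congr rfl
    intro a _
    rw [← intervalIntegral.integral_const_mul]
    apply intervalIntegral.integral_congr
    intro β _
    simp only
    rw [dn_J1_e_add]
    congr 1
    unfold dn_J1_e
    congr 2
    push_cast
    ring
  rw [h2, norm_mul]
  have h3 := dn_J1_cP Q hQ P h1 n hn
  have h4 := dn_J1_J n hn δ s hδ hs hs1
  calc 1 / (2 * δ * (∑ q ∈ P, (q.totient : ℝ))) * (‖∑ q ∈ P,
        ∑ a ∈ (Finset.range q).filter (fun a => a.Coprime q),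
        cexp (2 * Real.pi * I * (n * ((a : ℂ) / q)))‖ * ‖∫ β in (-δ)..δ, dn_J1_e n β‖) ≤
      1 / (2 * δ * (∑ q ∈ P, (q.totient : ℝ))) *
        ((4 * Q * (n.natAbs.divisors.card : ℝ)) * (2 * δ * (δ * |(n : ℝ)|) ^ (-s))) := by
        apply mul_le_mul_of_nonneg_left _ (by positivity)
        exact mul_le_mul h3 h4 (norm_nonneg _) (by positivity)
    _ = _ := by
        field_simp

/-- Parseval for trigonometric polynomials -/
theorem dn_J1_pars (s : Finset ℤ) (c : ℤ → ℂ) (M : ℝ)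
    (hM : ∀ x : ℝ, ‖∑ n ∈ s, c n * dn_J1_e n x‖ ≤ M) : ∑ n ∈ s, ‖c n‖ ^ 2 ≤ M ^ 2 := by
  have hM0 : 0 ≤ M := (norm_nonneg _).trans (hM 0)
  have h1 : ∫ x in (0 : ℝ)..1, (∑ n ∈ s, c n * dn_J1_e n x) * conj (∑ n ∈ s, c n * dn_J1_e n x) =
      ((∑ n ∈ s, ‖c n‖ ^ 2 : ℝ) : ℂ) := by
    have e1 : ∀ x : ℝ, (∑ n ∈ s, c n * dn_J1_e n x) * conj (∑ n ∈ s, c n * dn_J1_e n x) =
        ∑ n ∈ s, ∑ m ∈ s, c n * conj (c m) * dn_J1_e (n - m) x := by
      intro x
      rw [map_sum, Finset.sum_mul_sum]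
      apply Finset.sum_congr rfl
      intro n _
      apply Finset.sum_congr rfl
      intro m _
      rw [map_mul]
      have e2 : dn_J1_e (n - m) x = dn_J1_e n x * conj (dn_J1_e m x) := by
        unfold dn_J1_e
        rw [← Complex.exp_conj, ← Complex.exp_add]
        congr 1
        simp only [map_mul, Complex.conj_ofReal, Complex.conj_I, map_intCast, map_ofNat]
        push_cast
        ring
      rw [e2]
      ring
    rw [intervalIntegral.integral_congr (g := fun x => ∑ n ∈ s, ∑ m ∈ s,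
      c n * conj (c m) * dn_J1_e (n - m) x) (fun x _ => e1 x)]
    rw [intervalIntegral.integral_finset_sum]
    · rw [Complex.ofReal_sum]
      apply Finset.sum_congr rfl
      intro n hn
      rw [intervalIntegral.integral_finset_sum]
      · rw [Finset.sum_eq_single n]
        · rw [intervalIntegral.integral_const_mul]
          simp only [sub_self, dn_J1_e_zero]
          rw [Complex.mul_conj, Complex.normSq_eq_norm_sq]
          simp
        · intro m _ hm
          rw [intervalIntegral.integral_const_mul, dn_J1_e_one _ (sub_ne_zero.2 (Ne.symm hm)),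
            mul_zero]
        · intro h
          exact absurd hn h
      · intro m _
        apply Continuous.intervalIntegrable
        exact continuous_const.mul (dn_J1_e_cont _)
    · intro n _
      apply Continuous.intervalIntegrable
      apply continuous_finset_sum
      intro m _
      exact continuous_const.mul (dn_J1_e_cont _)
  have h2 : ‖∫ x in (0 : ℝ)..1, (∑ n ∈ s, c n * dn_J1_e n x) *
      conj (∑ n ∈ s, c n * dn_J1_e n x)‖ ≤ M ^ 2 * |1 - 0| := by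
    apply intervalIntegral.norm_integral_le_of_norm_le_const
    intro x _
    rw [norm_mul, Complex.norm_conj, ← sq]
    exact pow_le_pow_left₀ (norm_nonneg _) (hM x) 2
  rw [h1, Complex.norm_real, Real.norm_eq_abs, abs_of_nonneg
    (Finset.sum_nonneg (fun n _ => by positivity))] at h2
  simpa using h2

/-- bound for trigonometric polynomials -/
theorem dn_J1_trig (P : Finset ℕ) (δ K Z b : ℝ) (hZ : ∀ s : Finset ℤ,
      ∑ n ∈ s, |(n : ℝ)| ^ (-b) ≤ Z) (hK : 0 ≤ K)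
    (hE : ∀ n : ℤ, ‖dn_J1_E P δ (dn_J1_e n)‖ ^ 2 ≤ K ^ 2 * |(n : ℝ)| ^ (-b))
    (s : Finset ℤ) (c : ℤ → ℂ) (M : ℝ)
    (hM : ∀ x : ℝ, ‖∑ n ∈ s, c n * dn_J1_e n x‖ ≤ M) :
    ‖dn_J1_E P δ (fun x => ∑ n ∈ s, c n * dn_J1_e n x)‖ ≤ M * K * Real.sqrt Z := by
  have hM0 : 0 ≤ M := (norm_nonneg _).trans (hM 0)
  have hZ0 : 0 ≤ Z := by simpa using hZ ∅
  rw [dn_J1_E_sum]
  have h1 := dn_J1_pars s c M hM
  have h2 : ‖∑ n ∈ s, c n * dn_J1_E P δ (dn_J1_e n)‖ ≤
      ∑ n ∈ s, ‖c n‖ * ‖dn_J1_E P δ (dn_J1_e n)‖ := by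
    refine (norm_sum_le _ _).trans ?_
    apply Finset.sum_le_sum
    intro n _
    rw [norm_mul]
  have h3 := Finset.sum_mul_sq_le_sq_mul_sq s (fun n => ‖c n‖)
    (fun n => ‖dn_J1_E P δ (dn_J1_e n)‖)
  have h4 : ∑ n ∈ s, ‖dn_J1_E P δ (dn_J1_e n)‖ ^ 2 ≤ K ^ 2 * Z := by
    calc _ ≤ ∑ n ∈ s, K ^ 2 * |(n : ℝ)| ^ (-b) := Finset.sum_le_sum (fun n _ => hE n)
      _ = K ^ 2 * ∑ n ∈ s, |(n : ℝ)| ^ (-b) := by rw [Finset.mul_sum]
      _ ≤ _ := mul_le_mul_of_nonneg_left (hZ s) (by positivity)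
  have h5 : (∑ n ∈ s, ‖c n‖ * ‖dn_J1_E P δ (dn_J1_e n)‖) ^ 2 ≤ (M * K * Real.sqrt Z) ^ 2 := by
    calc _ ≤ (∑ n ∈ s, ‖c n‖ ^ 2) * ∑ n ∈ s, ‖dn_J1_E P δ (dn_J1_e n)‖ ^ 2 := h3
      _ ≤ M ^ 2 * (K ^ 2 * Z) := by
          apply mul_le_mul h1 h4 _ (by positivity)
          exact Finset.sum_nonneg (fun n _ => by positivity)
      _ = _ := by
          rw [mul_pow, mul_pow, Real.sq_sqrt hZ0]
          ring
  refine h2.trans ?_
  exact le_of_sq_le_sq h5 (by positivity)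

/-- continuous periodic functions -/
theorem dn_J1_approx (G : ℝ → ℂ) (hG : Continuous G) (hper : Function.Periodic G 1) (η : ℝ)
    (hη : 0 < η) : ∃ (s : Finset ℤ) (c : ℤ → ℂ), ∀ x : ℝ,
      ‖G x - ∑ n ∈ s, c n * dn_J1_e n x‖ ≤ η := by
  have : Fact ((0 : ℝ) < 1) := ⟨one_pos⟩
  let g : C(AddCircle (1 : ℝ), ℂ) := ⟨hper.lift, hG.quotient_liftOn' _⟩
  have hg : ∀ x : ℝ, g (x : AddCircle (1 : ℝ)) = G x := fun x => hper.lift_coe x
  have hmem : g ∈ closure ((Submodule.span ℂ (Set.range (@fourier (1 : ℝ)))) :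
      Set C(AddCircle (1 : ℝ), ℂ)) := by
    have h1 : g ∈ (Submodule.span ℂ (Set.range (@fourier (1 : ℝ)))).topologicalClosure := by
      rw [span_fourier_closure_eq_top]
      exact Submodule.mem_top
    exact h1
  obtain ⟨h, hh, hd⟩ := Metric.mem_closure_iff.1 hmem η hη
  have hh' := (Finsupp.mem_span_range_iff_exists_finsupp (R := ℂ)).1 hh
  obtain ⟨c, hc⟩ := hh'
  refine ⟨c.support, fun n => c n, fun x => ?_⟩
  have h1 : h (x : AddCircle (1 : ℝ)) = ∑ n ∈ c.support, c n * dn_J1_e n x := by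
    rw [← hc, Finsupp.sum, ContinuousMap.coe_sum, Finset.sum_apply]
    apply Finset.sum_congr rfl
    intro n _
    rw [ContinuousMap.coe_smul, Pi.smul_apply, fourier_coe_apply, smul_eq_mul]
    unfold dn_J1_e
    congr 2
    simp
    ring
  rw [← h1, ← hg]
  rw [← dist_eq_norm]
  exact (ContinuousMap.dist_apply_le_dist _).trans hd.le

theorem p_J1 : S_J1 := by
  intro ε hε hε1
  -- the divisor bound
  obtain ⟨k, hk⟩ : ∃ k : ℕ, k = ⌈4 / ε⌉₊ := ⟨_, rfl⟩
  have hk1 : 4 / ε ≤ (k : ℝ) := by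
    rw [hk]
    exact Nat.le_ceil _
  have hk0 : (0 : ℝ) < k := lt_of_lt_of_le (by positivity) hk1
  have hk0' : k ≠ 0 := by
    intro h
    rw [h] at hk0
    simp at hk0
  have hk2 : 1 / (k : ℝ) ≤ ε / 4 := by
    rw [div_le_div_iff₀ hk0 (by norm_num)]
    rw [div_le_iff₀ hε] at hk1
    linarith
  obtain ⟨C₁, hC₁, hdiv⟩ := Pool.Agent.Lib.MP1e1427.exists_card_divisors_le k hk0'
  have hdiv' : ∀ n : ℤ, n ≠ 0 → (n.natAbs.divisors.card : ℝ) ≤ C₁ * |(n : ℝ)| ^ (1 / (k : ℝ)) := by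
    intro n hn
    have hn1 : (1 : ℝ) ≤ |(n : ℝ)| := by
      have := Int.one_le_abs hn
      exact_mod_cast this
    apply hdiv
    · exact Real.one_le_rpow hn1 (by positivity)
    · rw [← Real.rpow_natCast, ← Real.rpow_mul (by positivity), one_div, inv_mul_cancel₀ hk0.ne',
        Real.rpow_one]
      apply le_of_eq
      rw [Nat.cast_natAbs]
      push_cast
      rfl
  -- the sum
  obtain ⟨b, hb⟩ : ∃ b : ℝ, b = 1 + ε / 2 := ⟨_, rfl⟩
  have hsum := Real.summable_abs_int_rpow (b := b) (by rw [hb]; linarith)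
  obtain ⟨Z, hZd⟩ : ∃ Z : ℝ, Z = ∑' n : ℤ, |(n : ℝ)| ^ (-b) := ⟨_, rfl⟩
  have hZ : ∀ s : Finset ℤ, ∑ n ∈ s, |(n : ℝ)| ^ (-b) ≤ Z := by
    intro s
    rw [hZd]
    exact hsum.sum_le_tsum s (fun n _ => by positivity)
  refine ⟨4 * C₁ * Real.sqrt Z + 1, by positivity, ?_⟩
  intro Q B δ P G hQ hB hδ hδ1 hP hPq hG hper hGB
  obtain ⟨s, hs⟩ : ∃ s : ℝ, s = (1 + ε) / 2 := ⟨_, rfl⟩
  have hs0 : 0 < s := by rw [hs]; positivity
  have hs1 : s ≤ 1 := by rw [hs]; linarith
  have hL := dn_J1_L P hP (fun q hq => (hPq q hq).1)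
  obtain ⟨L, hLd⟩ : ∃ L : ℝ, L = ∑ q ∈ P, (q.totient : ℝ) := ⟨_, rfl⟩
  have hL0 : 0 < L := by rw [hLd]; exact hL
  obtain ⟨K, hK⟩ : ∃ K : ℝ, K = 4 * Q * C₁ / (L * δ ^ s) := ⟨_, rfl⟩
  have hK0 : 0 ≤ K := by rw [hK]; positivity
  have hE : ∀ n : ℤ, ‖dn_J1_E P δ (dn_J1_e n)‖ ^ 2 ≤ K ^ 2 * |(n : ℝ)| ^ (-b) := by
    intro n
    rcases eq_or_ne n 0 with h | hn
    · rw [h, dn_J1_E_zero P δ hδ hP (fun q hq => (hPq q hq).1)]
      rw [norm_zero, zero_pow two_ne_zero]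
      positivity
    · have hn1 : (1 : ℝ) ≤ |(n : ℝ)| := by
        have := Int.one_le_abs hn
        exact_mod_cast this
      have hn0 : (0 : ℝ) < |(n : ℝ)| := by linarith
      have h1 := dn_J1_E_e P δ Q s hδ (by linarith) hs0 hs1 hP hPq n hn
      rw [← hLd] at h1
      have h2 : ‖dn_J1_E P δ (dn_J1_e n)‖ ≤ K * |(n : ℝ)| ^ (1 / (k : ℝ) - s) := by
        calc _ ≤ 4 * Q / L * (n.natAbs.divisors.card : ℝ) * (δ * |(n : ℝ)|) ^ (-s) := h1
          _ ≤ 4 * Q / L * (C₁ * |(n : ℝ)| ^ (1 / (k : ℝ))) * (δ * |(n : ℝ)|) ^ (-s) := by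
              apply mul_le_mul_of_nonneg_right _ (by positivity)
              exact mul_le_mul_of_nonneg_left (hdiv' n hn) (by positivity)
          _ = _ := by
              rw [Real.mul_rpow hδ.le hn0.le, hK, Real.rpow_sub hn0, Real.rpow_neg hδ.le,
                Real.rpow_neg hn0.le]
              field_simp
      calc ‖dn_J1_E P δ (dn_J1_e n)‖ ^ 2 ≤ (K * |(n : ℝ)| ^ (1 / (k : ℝ) - s)) ^ 2 :=
            pow_le_pow_left₀ (norm_nonneg _) h2 2
        _ = K ^ 2 * |(n : ℝ)| ^ (2 * (1 / (k : ℝ) - s)) := by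
            rw [mul_pow, ← Real.rpow_natCast (|(n : ℝ)| ^ (1 / (k : ℝ) - s)),
              ← Real.rpow_mul hn0.le]
            congr 2
            push_cast
            ring
        _ ≤ K ^ 2 * |(n : ℝ)| ^ (-b) := by
            apply mul_le_mul_of_nonneg_left _ (by positivity)
            apply Real.rpow_le_rpow_of_exponent_le hn1
            rw [hs, hb]
            linarith
  have hmain : ‖dn_J1_E P δ G‖ ≤ B * K * Real.sqrt Z := by
    apply le_of_forall_pos_le_add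
    intro e he
    obtain ⟨R, hR⟩ : ∃ R : ℝ, R = K * Real.sqrt Z + 2 := ⟨_, rfl⟩
    have hR0 : 0 < R := by rw [hR]; positivity
    obtain ⟨t, c, htc⟩ := dn_J1_approx G hG hper (e / R) (by positivity)
    have hcont : Continuous (fun x => ∑ n ∈ t, c n * dn_J1_e n x) := by
      apply continuous_finset_sum
      intro n _
      exact continuous_const.mul (dn_J1_e_cont n)
    have h1 := dn_J1_E_sub P δ G (fun x => ∑ n ∈ t, c n * dn_J1_e n x) hG hcont
    have h2 := dn_J1_E_norm P δ hδ hP (fun q hq => (hPq q hq).1)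
      (fun x => G x - ∑ n ∈ t, c n * dn_J1_e n x) (e / R) htc
    have h3 := dn_J1_trig P δ K Z b hZ hK0 hE t c (B + e / R) (by
      intro x
      have h4 : ∑ n ∈ t, c n * dn_J1_e n x = G x - (G x - ∑ n ∈ t, c n * dn_J1_e n x) := by ring
      rw [h4]
      exact (norm_sub_le _ _).trans (add_le_add (hGB x) (htc x)))
    have h4 : dn_J1_E P δ G = dn_J1_E P δ (fun x => G x - ∑ n ∈ t, c n * dn_J1_e n x) +
        dn_J1_E P δ (fun x => ∑ n ∈ t, c n * dn_J1_e n x) := by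
      rw [h1]
      ring
    rw [h4]
    refine (norm_add_le _ _).trans ?_
    have h5 : 2 * (e / R) + (B + e / R) * K * Real.sqrt Z = B * K * Real.sqrt Z + e / R * R := by
      rw [hR]
      ring
    have h6 : e / R * R = e := by field_simp
    linarith
  have hfin : B * K * Real.sqrt Z ≤ (4 * C₁ * Real.sqrt Z + 1) * B * Q /
      ((∑ q ∈ P, (q.totient : ℝ)) * δ ^ ((1 + ε) / 2)) := by
    rw [← hLd, ← hs, hK]
    have h1 : B * (4 * Q * C₁ / (L * δ ^ s)) * Real.sqrt Z =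
        (4 * C₁ * Real.sqrt Z) * B * Q / (L * δ ^ s) := by
      ring
    rw [h1]
    apply div_le_div_of_nonneg_right _ (by positivity)
    have h2 : 0 ≤ B * Q := by positivity
    nlinarith
  exact hmain.trans hfin

end Pool.Agent.Lib.MP_cd509c_nt.DN
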