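import Pool.Agent.Lib.MP_cd509c_nt.DN.Defs2

/-!
# Piece J2: the modular transformation at a rational point
-/

set_option autoImplicit false

namespace Pool.Agent.Lib.MP_cd509c_nt.DN

open Complex ComplexConjugate MeasureTheory

theorem p_J2 : S_J2 := by
  intro q a a' ζ hq hdvd hζ
  obtain ⟨B, hB⟩ := hdvd
  have hq0 : (q : ℂ) ≠ 0 := by
    have : q ≠ 0 := by omega
    exact_mod_cast this
  have hζ0 : ζ ≠ 0 := by
    intro h
    rw [h] at hζ
    simp at hζ
  have hw : 0 < ((a : ℂ) / q + ζ).im := by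
    have h1 : ((a : ℂ) / q).im = 0 := by
      rw [Complex.div_natCast_im]
      simp
    rw [Complex.add_im, h1, zero_add]
    exact hζ
  have hdet : (-a') * (-a) - B * (q : ℤ) = 1 := by linarith
  have h := Dc_moebius (-a') B (q : ℤ) (-a) hdet hw
  have e1 : (((q : ℤ) : ℂ) * ((a : ℂ) / q + ζ) + ((-a : ℤ) : ℂ)) = (q : ℂ) * ζ := by
    push_cast
    field_simp
    ring
  rw [e1] at h
  rw [mul_comm, ← h]
  congr 1
  have hBC : (B : ℂ) = ((a : ℂ) * a' - 1) / q := by
    rw [eq_div_iff hq0]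
    have h2 : (((a * a' - 1 : ℤ)) : ℂ) = (((q : ℤ) * B : ℤ) : ℂ) := by rw [hB]
    push_cast at h2
    rw [h2]
    ring
  push_cast
  rw [hBC]
  field_simp
  ring

end Pool.Agent.Lib.MP_cd509c_nt.DN
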