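import Pool.Agent.Lib.MP_cd509c_nt.DN.Defs2

/-!
# The Rankin-Selberg series near its pole

Parseval on horocycles, integrated against `h ^ (x + 10)` over `(0, 1]`.
-/

set_option autoImplicit false

namespace Pool.Agent.Lib.MP_cd509c_nt.DN

open Complex ComplexConjugate MeasureTheory

private theorem dn_Lb_cont {y : ℝ} (hy : 0 < y) : Continuous (fun u : ℝ => Dc (u + y * I)) := by
  rw [continuous_iff_continuousAt]
  intro u
  have hd : ContinuousAt Dc (u + y * I) :=
    (Dc_differentiableAt (by simpa using hy)).continuousAt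
  exact ContinuousAt.comp (g := Dc) (f := fun u : ℝ => (u : ℂ) + y * I) hd (by fun_prop)

/-- absolute convergence -/
private theorem dn_Lb_abs {y : ℝ} (hy : 0 < y) :
    Summable (fun n : ℕ => ‖tau n‖ * Real.exp (-(2 * Real.pi * n * y))) := by
  have h1 := (Dc_hasSum (w := (y : ℂ) * I) (by simpa using hy)).summable.norm
  refine h1.congr fun n => ?_
  rw [norm_mul, Complex.norm_exp]
  congr 2
  have e : 2 * (Real.pi : ℂ) * I * (n * ((y : ℂ) * I)) = ((-(2 * Real.pi * n * y) : ℝ) : ℂ) := by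
    push_cast
    linear_combination (2 * (Real.pi : ℂ) * n * y) * Complex.I_sq
  rw [e, Complex.ofReal_re]

/-- Parseval -/
private theorem dn_Lb_par {y : ℝ} (hy : 0 < y) :
    HasSum (fun n : ℕ => ‖tau n‖ ^ 2 * Real.exp (-(4 * Real.pi * n * y)))
      (∫ u in (0 : ℝ)..1, ‖Dc (u + y * I)‖ ^ 2) := by
  obtain ⟨C, hC, hb⟩ := Dc_bound
  have hbd : ∀ u : ℝ, ‖Dc (u + y * I)‖ ≤ C / y ^ 6 := by
    intro u
    have := hb (u + y * I) (by simpa using hy)
    rw [le_div_iff₀ (by positivity)]
    simpa using this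
  have hcont := dn_Lb_cont hy
  have hexp : ∀ (m : ℕ) (u : ℝ), ‖tau m * cexp (2 * Real.pi * I * (m * (u + y * I)))‖ =
      ‖tau m‖ * Real.exp (-(2 * Real.pi * m * y)) := by
    intro m u
    rw [norm_mul, Complex.norm_exp]
    congr 2
    simp
    ring
  have key := intervalIntegral.hasSum_integral_of_dominated_convergence
    (μ := volume) (a := 0) (b := 1)
    (F := fun (m : ℕ) (u : ℝ) => conj (Dc (u + y * I)) *
      (tau m * cexp (2 * Real.pi * I * (m * (u + y * I)))))
    (f := fun u : ℝ => conj (Dc (u + y * I)) * Dc (u + y * I))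
    (bound := fun (m : ℕ) (_ : ℝ) => C / y ^ 6 * (‖tau m‖ * Real.exp (-(2 * Real.pi * m * y))))
    (fun m => ?_) (fun m => ?_) ?_ ?_ ?_
  · have e1 : ∀ m : ℕ, ∫ u in (0 : ℝ)..1, conj (Dc (u + y * I)) *
        (tau m * cexp (2 * Real.pi * I * (m * (u + y * I)))) =
        ((‖tau m‖ ^ 2 * Real.exp (-(4 * Real.pi * m * y)) : ℝ) : ℂ) := by
      intro m
      have e2 : ∀ u : ℝ, conj (Dc (u + y * I)) *
          (tau m * cexp (2 * Real.pi * I * (m * (u + y * I)))) =
          (tau m * ((Real.exp (-(4 * Real.pi * m * y)) : ℝ) : ℂ)) *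
            conj (cexp (-(2 * Real.pi * I * (m * (u + y * I)))) * Dc (u + y * I)) := by
        intro u
        rw [map_mul, ← Complex.exp_conj]
        have e3 : cexp (2 * Real.pi * I * (m * (u + y * I))) =
            ((Real.exp (-(4 * Real.pi * m * y)) : ℝ) : ℂ) *
              cexp (conj (-(2 * Real.pi * I * (m * (u + y * I))))) := by
          rw [Complex.ofReal_exp, ← Complex.exp_add]
          congr 1
          simp only [map_neg, map_mul, map_add, Complex.conj_I, Complex.conj_ofReal,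
            map_ofNat, Complex.conj_natCast]
          push_cast
          linear_combination (4 * (Real.pi : ℂ) * m * y) * Complex.I_sq
        rw [e3]
        ring
      rw [intervalIntegral.integral_congr (g := fun u : ℝ =>
        (tau m * ((Real.exp (-(4 * Real.pi * m * y)) : ℝ) : ℂ)) *
            conj (cexp (-(2 * Real.pi * I * (m * (u + y * I)))) * Dc (u + y * I)))
        (fun u _ => e2 u), intervalIntegral.integral_const_mul,
        intervalIntegral.intervalIntegral_conj, ← tau_integral m hy]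
      have e4 : tau m * conj (tau m) = ((‖tau m‖ ^ 2 : ℝ) : ℂ) := by
        rw [Complex.mul_conj, Complex.normSq_eq_norm_sq]
      push_cast
      push_cast at e4
      linear_combination cexp (-(4 * Real.pi * m * y)) * e4
    have e5 : ∫ u in (0 : ℝ)..1, conj (Dc (u + y * I)) * Dc (u + y * I) =
        ((∫ u in (0 : ℝ)..1, ‖Dc (u + y * I)‖ ^ 2 : ℝ) : ℂ) := by
      rw [← intervalIntegral.integral_ofReal]
      refine intervalIntegral.integral_congr fun u _ => ?_
      show conj (Dc (u + y * I)) * Dc (u + y * I) = ((‖Dc (u + y * I)‖ ^ 2 : ℝ) : ℂ)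
      rw [mul_comm, Complex.mul_conj, Complex.normSq_eq_norm_sq]
    simp only [e1, e5] at key
    exact_mod_cast key
  · refine Continuous.aestronglyMeasurable ?_
    refine (Complex.continuous_conj.comp hcont).mul (continuous_const.mul ?_)
    fun_prop
  · refine Filter.Eventually.of_forall fun u _ => ?_
    rw [norm_mul, hexp, RCLike.norm_conj]
    exact mul_le_mul_of_nonneg_right (hbd u) (by positivity)
  · exact Filter.Eventually.of_forall fun u _ => (dn_Lb_abs hy).mul_left _
  · exact intervalIntegrable_const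
  · refine Filter.Eventually.of_forall fun u _ => ?_
    exact (Dc_hasSum (w := (u : ℂ) + y * I) (by simpa using hy)).mul_left _

private theorem dn_Lb_up {C : ℝ}
    (hb : ∀ w : ℂ, 0 < w.im → ‖Dc w‖ * w.im ^ 6 ≤ C) {y : ℝ} (hy : 0 < y) (s : Finset ℕ) :
    ∑ n ∈ s, ‖tau n‖ ^ 2 * Real.exp (-(4 * Real.pi * n * y)) ≤ C ^ 2 / y ^ 12 := by
  have h1 := sum_le_hasSum s (fun n _ => by positivity) (dn_Lb_par hy)
  refine h1.trans ?_
  have h2 : ∫ u in (0 : ℝ)..1, ‖Dc (u + y * I)‖ ^ 2 ≤ ∫ u in (0 : ℝ)..1, (C / y ^ 6) ^ 2 := by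
    apply intervalIntegral.integral_mono_on zero_le_one
    · exact ((dn_Lb_cont hy).norm.pow 2).intervalIntegrable _ _
    · exact intervalIntegrable_const
    · intro x _
      refine pow_le_pow_left₀ (norm_nonneg _) ?_ 2
      have := hb (x + y * I) (by simpa using hy)
      rw [le_div_iff₀ (by positivity)]
      simpa using this
  refine h2.trans (le_of_eq ?_)
  simp only [intervalIntegral.integral_const, sub_zero, one_smul]
  rw [div_pow, ← pow_mul]

private theorem dn_Lb_wcont {x : ℝ} (hx : 1 < x) : Continuous (fun h : ℝ => h ^ (x + 10)) :=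
  continuous_id.rpow_const fun _ => Or.inr (by linarith)

private theorem dn_Lb_gcont {x : ℝ} (hx : 1 < x) (n : ℕ) :
    Continuous (fun h : ℝ => h ^ (x + 10) * Real.exp (-(4 * Real.pi * n * h))) :=
  (dn_Lb_wcont hx).mul (by fun_prop)

/-- lower bound for the weights -/
private theorem dn_Lb_wlo {x : ℝ} (hx : 1 < x) (hx2 : x ≤ 2) {n : ℕ} (hn : 1 ≤ n) :
    Real.exp (-(4 * Real.pi)) / 13 / (n : ℝ) ^ (11 + x) ≤
      ∫ h in (0 : ℝ)..1, h ^ (x + 10) * Real.exp (-(4 * Real.pi * n * h)) := by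
  have hn1 : (1 : ℝ) ≤ n := by exact_mod_cast hn
  have hn0 : (0 : ℝ) < n := by linarith
  have hinv0 : (0 : ℝ) ≤ 1 / n := by positivity
  have hinv1 : 1 / (n : ℝ) ≤ 1 := by
    rw [div_le_one hn0]
    exact hn1
  have hc := dn_Lb_gcont hx n
  have h1 : ∫ h in (0 : ℝ)..(1 / n), h ^ (x + 10) * Real.exp (-(4 * Real.pi)) ≤
      ∫ h in (0 : ℝ)..(1 / n), h ^ (x + 10) * Real.exp (-(4 * Real.pi * n * h)) := by
    apply intervalIntegral.integral_mono_on hinv0
    · exact ((dn_Lb_wcont hx).mul continuous_const).intervalIntegrable _ _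
    · exact hc.intervalIntegrable _ _
    · intro h hh
      refine mul_le_mul_of_nonneg_left ?_ (Real.rpow_nonneg hh.1 _)
      apply Real.exp_le_exp.2
      have h2 : (n : ℝ) * h ≤ 1 := by
        have := mul_le_mul_of_nonneg_left hh.2 hn0.le
        rwa [mul_one_div, div_self hn0.ne'] at this
      have hpi := Real.pi_pos
      nlinarith
  have h2 : ∫ h in (0 : ℝ)..(1 / n), h ^ (x + 10) * Real.exp (-(4 * Real.pi * n * h)) ≤
      ∫ h in (0 : ℝ)..1, h ^ (x + 10) * Real.exp (-(4 * Real.pi * n * h)) := by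
    rw [← intervalIntegral.integral_add_adjacent_intervals (hc.intervalIntegrable 0 (1 / n))
      (hc.intervalIntegrable (1 / n) 1)]
    have : 0 ≤ ∫ h in (1 / (n : ℝ))..1, h ^ (x + 10) * Real.exp (-(4 * Real.pi * n * h)) := by
      apply intervalIntegral.integral_nonneg hinv1
      intro h hh
      have : 0 ≤ h := hinv0.trans hh.1
      positivity
    linarith
  refine le_trans ?_ (h1.trans h2)
  rw [intervalIntegral.integral_mul_const, integral_rpow (Or.inl (by linarith)),
    Real.zero_rpow (by linarith), sub_zero, Real.div_rpow zero_le_one hn0.le, Real.one_rpow]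
  have e1 : x + 10 + 1 = 11 + x := by ring
  rw [e1]
  have hp : 0 < (n : ℝ) ^ (11 + x) := Real.rpow_pos_of_pos hn0 _
  have hx3 : 0 < 11 + x := by linarith
  have he := Real.exp_pos (-(4 * Real.pi))
  rw [div_div, div_div, div_mul_eq_mul_div, one_mul]
  apply div_le_div_of_nonneg_left he.le (by positivity)
  nlinarith

/-- upper bound for the weights -/
private theorem dn_Lb_wup {x : ℝ} (hx : 1 < x) (hx2 : x ≤ 2) {n : ℕ} (hn : 1 ≤ n) :
    ∫ h in (0 : ℝ)..1, h ^ (x + 10) * Real.exp (-(4 * Real.pi * n * h)) ≤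
      Real.Gamma 13 / (n : ℝ) ^ (11 + x) := by
  have hn1 : (1 : ℝ) ≤ n := by exact_mod_cast hn
  have hn0 : (0 : ℝ) < n := by linarith
  have hpi := Real.pi_gt_three
  have hr : 0 < 4 * Real.pi * n := by positivity
  have hG := Real.integral_rpow_mul_exp_neg_mul_Ioi (a := 11 + x) (r := 4 * Real.pi * n)
    (by linarith) hr
  have e1 : (11 + x) - 1 = x + 10 := by ring
  rw [e1] at hG
  have hint : IntegrableOn (fun h : ℝ => h ^ (x + 10) * Real.exp (-(4 * Real.pi * n * h)))
      (Set.Ioi 0) := by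
    by_contra hne
    have := integral_undef hne
    rw [this] at hG
    have h1 : 0 < (1 / (4 * Real.pi * n)) ^ (11 + x) * Real.Gamma (11 + x) := by
      have := Real.Gamma_pos_of_pos (show 0 < 11 + x by linarith)
      have h3 : 0 < (1 / (4 * Real.pi * n)) ^ (11 + x) := Real.rpow_pos_of_pos (by positivity) _
      positivity
    linarith
  rw [intervalIntegral.integral_of_le zero_le_one]
  have h1 : ∫ h in Set.Ioc (0 : ℝ) 1, h ^ (x + 10) * Real.exp (-(4 * Real.pi * n * h)) ≤
      ∫ h in Set.Ioi (0 : ℝ), h ^ (x + 10) * Real.exp (-(4 * Real.pi * n * h)) := by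
    apply setIntegral_mono_set hint
    · refine (ae_restrict_mem measurableSet_Ioi).mono fun h hh => ?_
      have : (0 : ℝ) < h := hh
      show (0 : ℝ) ≤ h ^ (x + 10) * Real.exp (-(4 * Real.pi * n * h))
      positivity
    · exact Filter.Eventually.of_forall fun u hu => hu.1
  refine h1.trans ?_
  rw [hG, one_div, Real.inv_rpow hr.le, div_eq_inv_mul]
  have hp : 0 < (n : ℝ) ^ (11 + x) := Real.rpow_pos_of_pos hn0 _
  have h2 : (n : ℝ) ^ (11 + x) ≤ (4 * Real.pi * n) ^ (11 + x) := by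
    apply Real.rpow_le_rpow hn0.le _ (by linarith)
    nlinarith
  have h3 : ((4 * Real.pi * n) ^ (11 + x))⁻¹ ≤ ((n : ℝ) ^ (11 + x))⁻¹ := inv_anti₀ hp h2
  have h4 : Real.Gamma (11 + x) ≤ Real.Gamma 13 :=
    Real.Gamma_strictMonoOn_Ici.monotoneOn (show (2 : ℝ) ≤ 11 + x by linarith)
      (show (2 : ℝ) ≤ 13 by norm_num) (by linarith)
  have h5 := Real.Gamma_pos_of_pos (show 0 < 11 + x by linarith)
  exact mul_le_mul h3 h4 h5.le (by positivity)

theorem p_Lb (hF : S_farey) : S_Lb := by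
  obtain ⟨c₀, hc₀, hlo⟩ := hF
  obtain ⟨C, hC, hb⟩ := Dc_bound
  have hG13 : 0 < Real.Gamma 13 := Real.Gamma_pos_of_pos (by norm_num)
  have he := Real.exp_pos (-(4 * Real.pi))
  refine ⟨c₀ / Real.Gamma 13, 13 * C ^ 2 / Real.exp (-(4 * Real.pi)), by positivity,
    by positivity, fun x hx hx2 => ?_⟩
  have hx1 : 0 < x - 1 := by linarith
  have hterm0 : ∀ n : ℕ, 0 ≤ ‖tau n‖ ^ 2 / (n : ℝ) ^ (11 + x) := fun n => by positivity
  -- upper bound for finite sums
  have hfin : ∀ s : Finset ℕ, ∑ n ∈ s, ‖tau n‖ ^ 2 / (n : ℝ) ^ (11 + x) ≤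
      13 * C ^ 2 / Real.exp (-(4 * Real.pi)) / (x - 1) := by
    intro s
    have h1 : ∀ n ∈ s, Real.exp (-(4 * Real.pi)) / 13 * (‖tau n‖ ^ 2 / (n : ℝ) ^ (11 + x)) ≤
        ∫ h in (0 : ℝ)..1, ‖tau n‖ ^ 2 *
          (h ^ (x + 10) * Real.exp (-(4 * Real.pi * n * h))) := by
      intro n _
      rw [intervalIntegral.integral_const_mul]
      rcases Nat.eq_zero_or_pos n with hn | hn
      · subst hn
        rw [tau_zero]
        simp
      · have h2 := mul_le_mul_of_nonneg_left (dn_Lb_wlo hx hx2 hn)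
          (show 0 ≤ ‖tau n‖ ^ 2 by positivity)
        refine le_trans (le_of_eq ?_) h2
        ring
    have h2 : ∑ n ∈ s, Real.exp (-(4 * Real.pi)) / 13 * (‖tau n‖ ^ 2 / (n : ℝ) ^ (11 + x)) ≤
        ∫ h in (0 : ℝ)..1, ∑ n ∈ s, ‖tau n‖ ^ 2 *
          (h ^ (x + 10) * Real.exp (-(4 * Real.pi * n * h))) := by
      have hii : ∀ n ∈ s, IntervalIntegrable (fun h : ℝ => ‖tau n‖ ^ 2 *
          (h ^ (x + 10) * Real.exp (-(4 * Real.pi * n * h)))) volume 0 1 := fun n _ =>
        (continuous_const.mul (dn_Lb_gcont hx n)).intervalIntegrable _ _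
      rw [intervalIntegral.integral_finsetSum hii]
      exact Finset.sum_le_sum h1
    have h3 : ∫ h in (0 : ℝ)..1, ∑ n ∈ s, ‖tau n‖ ^ 2 *
          (h ^ (x + 10) * Real.exp (-(4 * Real.pi * n * h))) ≤
        ∫ h in (0 : ℝ)..1, C ^ 2 * h ^ (x - 2) := by
      apply intervalIntegral.integral_mono_on_of_le_Ioo zero_le_one
      · refine (continuous_finsetSum _ fun n _ => ?_).intervalIntegrable _ _
        exact continuous_const.mul (dn_Lb_gcont hx n)
      · exact (intervalIntegral.intervalIntegrable_rpow' (by linarith)).const_mul _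
      · intro h hh
        have hh0 : 0 < h := hh.1
        have h4 := mul_le_mul_of_nonneg_left (dn_Lb_up hb hh0 s)
          (Real.rpow_nonneg hh0.le (x + 10))
        have e1 : h ^ (x + 10) * (C ^ 2 / h ^ 12) = C ^ 2 * h ^ (x - 2) := by
          have e2 : h ^ (x + 10) = h ^ (x - 2) * h ^ 12 := by
            rw [← Real.rpow_natCast h 12, ← Real.rpow_add hh0]
            congr 1
            push_cast
            ring
          rw [e2]
          field_simp
        rw [e1, Finset.mul_sum] at h4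
        refine le_trans (le_of_eq ?_) h4
        refine Finset.sum_congr rfl fun n _ => ?_
        ring
    have h4 : ∫ h in (0 : ℝ)..1, C ^ 2 * h ^ (x - 2) = C ^ 2 / (x - 1) := by
      rw [intervalIntegral.integral_const_mul, integral_rpow (Or.inl (by linarith)),
        Real.zero_rpow (by linarith), Real.one_rpow]
      have e1 : x - 2 + 1 = x - 1 := by ring
      rw [e1, sub_zero, mul_one_div]
    rw [← Finset.mul_sum] at h2
    have h5 := (h2.trans h3).trans (le_of_eq h4)
    have e1 : 13 * C ^ 2 / Real.exp (-(4 * Real.pi)) / (x - 1) =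
        (C ^ 2 / (x - 1)) / (Real.exp (-(4 * Real.pi)) / 13) := by
      field_simp
    rw [e1, le_div_iff₀ (by positivity), mul_comm]
    exact h5
  have hsum : Summable fun n : ℕ => ‖tau n‖ ^ 2 / (n : ℝ) ^ (11 + x) :=
    summable_of_sum_le hterm0 hfin
  refine ⟨hsum, ?_, Real.tsum_le_of_sum_le hterm0 hfin⟩
  -- lower bound
  have hL0 : 0 ≤ ∑' n : ℕ, ‖tau n‖ ^ 2 / (n : ℝ) ^ (11 + x) := tsum_nonneg hterm0
  have k1 : ENNReal.ofReal (c₀ / (x - 1)) ≤
      ∫⁻ h in Set.Ioc (0 : ℝ) 1, ENNReal.ofReal (c₀ * h ^ (x - 2)) := by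
    rw [← ofReal_integral_eq_lintegral_ofReal]
    · apply ENNReal.ofReal_le_ofReal
      rw [← intervalIntegral.integral_of_le zero_le_one, intervalIntegral.integral_const_mul,
        integral_rpow (Or.inl (by linarith)), Real.zero_rpow (by linarith), Real.one_rpow]
      have e1 : x - 2 + 1 = x - 1 := by ring
      rw [e1, sub_zero, mul_one_div]
    · exact ((intervalIntegral.intervalIntegrable_rpow' (a := 0) (b := 1)
        (show -1 < x - 2 by linarith)).const_mul c₀).1
    · refine (ae_restrict_mem measurableSet_Ioc).mono fun h hh => ?_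
      have : (0 : ℝ) < h := hh.1
      show (0 : ℝ) ≤ c₀ * h ^ (x - 2)
      positivity
  have k2 : ∫⁻ h in Set.Ioc (0 : ℝ) 1, ENNReal.ofReal (c₀ * h ^ (x - 2)) ≤
      ∫⁻ h in Set.Ioc (0 : ℝ) 1, ∑' n : ℕ, ENNReal.ofReal (‖tau n‖ ^ 2 *
        (h ^ (x + 10) * Real.exp (-(4 * Real.pi * n * h)))) := by
    refine lintegral_mono_ae ((ae_restrict_mem measurableSet_Ioc).mono fun h hh => ?_)
    have hh0 : (0 : ℝ) < h := hh.1
    have hp := (dn_Lb_par hh0).mul_left (h ^ (x + 10))
    have e1 : (fun n : ℕ => h ^ (x + 10) * (‖tau n‖ ^ 2 *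
        Real.exp (-(4 * Real.pi * n * h)))) = fun n : ℕ => ‖tau n‖ ^ 2 *
        (h ^ (x + 10) * Real.exp (-(4 * Real.pi * n * h))) := by
      funext n
      ring
    rw [e1] at hp
    rw [← ENNReal.ofReal_tsum_of_nonneg (fun n => by positivity) hp.summable, hp.tsum_eq]
    apply ENNReal.ofReal_le_ofReal
    have h3 := mul_le_mul_of_nonneg_left (hlo h hh0 hh.2) (Real.rpow_nonneg hh0.le (x - 2))
    have e2 : h ^ (x + 10) = h ^ (x - 2) * h ^ 12 := by
      rw [← Real.rpow_natCast h 12, ← Real.rpow_add hh0]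
      congr 1
      push_cast
      ring
    rw [e2, mul_assoc, mul_comm c₀]
    exact h3
  have k3 : ∫⁻ h in Set.Ioc (0 : ℝ) 1, ∑' n : ℕ, ENNReal.ofReal (‖tau n‖ ^ 2 *
        (h ^ (x + 10) * Real.exp (-(4 * Real.pi * n * h)))) =
      ∑' n : ℕ, ∫⁻ h in Set.Ioc (0 : ℝ) 1, ENNReal.ofReal (‖tau n‖ ^ 2 *
        (h ^ (x + 10) * Real.exp (-(4 * Real.pi * n * h)))) := by
    apply lintegral_tsum
    intro n
    exact (ENNReal.measurable_ofReal.comp
      (continuous_const.mul (dn_Lb_gcont hx n)).measurable).aemeasurable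
  have k4 : ∀ n : ℕ, ∫⁻ h in Set.Ioc (0 : ℝ) 1, ENNReal.ofReal (‖tau n‖ ^ 2 *
        (h ^ (x + 10) * Real.exp (-(4 * Real.pi * n * h)))) ≤
      ENNReal.ofReal (Real.Gamma 13 * (‖tau n‖ ^ 2 / (n : ℝ) ^ (11 + x))) := by
    intro n
    rw [← ofReal_integral_eq_lintegral_ofReal]
    · apply ENNReal.ofReal_le_ofReal
      rw [← intervalIntegral.integral_of_le zero_le_one, intervalIntegral.integral_const_mul]
      rcases Nat.eq_zero_or_pos n with hn | hn
      · subst hn
        rw [tau_zero]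
        simp
      · have h2 := mul_le_mul_of_nonneg_left (dn_Lb_wup hx hx2 hn)
          (show 0 ≤ ‖tau n‖ ^ 2 by positivity)
        refine h2.trans (le_of_eq ?_)
        ring
    · exact ((continuous_const.mul (dn_Lb_gcont hx n)).intervalIntegrable 0 1).1
    · refine (ae_restrict_mem measurableSet_Ioc).mono fun h hh => ?_
      have : (0 : ℝ) < h := hh.1
      show (0 : ℝ) ≤ ‖tau n‖ ^ 2 * (h ^ (x + 10) * Real.exp (-(4 * Real.pi * n * h)))
      positivity
  have k5 : ENNReal.ofReal (c₀ / (x - 1)) ≤ ENNReal.ofReal (Real.Gamma 13 *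
      ∑' n : ℕ, ‖tau n‖ ^ 2 / (n : ℝ) ^ (11 + x)) := by
    rw [← tsum_mul_left, ENNReal.ofReal_tsum_of_nonneg
      (fun n => mul_nonneg hG13.le (hterm0 n)) (hsum.mul_left _)]
    refine (k1.trans k2).trans ?_
    rw [k3]
    exact ENNReal.tsum_le_tsum k4
  have k6 := (ENNReal.ofReal_le_ofReal_iff (mul_nonneg hG13.le hL0)).1 k5
  rw [div_div, mul_comm (Real.Gamma 13), ← div_div, div_le_iff₀ hG13]
  linarith

end Pool.Agent.Lib.MP_cd509c_nt.DN
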