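import Mathlib
import Pool.Agent.Lib.MP_cd509c_nt.DN.Defs2

/-!
# Piece ML: the mollified second moment
-/

set_option autoImplicit false

namespace Pool.Agent.Lib.MP_cd509c_nt.DN

open Complex ComplexConjugate MeasureTheory

/-- continuity of the Mellin transform on a vertical line -/
lemma dn_ML_cont {g : ℝ → ℂ} {c : ℝ} (hg : ContinuousOn g (Set.Ioi 0))
    (hc : MellinConvergent g (c : ℂ)) :
    Continuous fun t : ℝ => mellin g ((c : ℂ) + (t : ℂ) * I) := by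
  have hb : Integrable (fun y : ℝ => ‖(y : ℂ) ^ ((c : ℂ) - 1) • g y‖)
      (volume.restrict (Set.Ioi 0)) := Integrable.norm hc
  unfold mellin
  refine continuous_of_dominated (bound := fun y : ℝ => ‖(y : ℂ) ^ ((c : ℂ) - 1) • g y‖)
    (fun t => ?_) (fun t => ?_) hb ?_
  · apply ContinuousOn.aestronglyMeasurable _ measurableSet_Ioi
    show ContinuousOn (fun y : ℝ => (y : ℂ) ^ ((c : ℂ) + (t : ℂ) * I - 1) * g y) (Set.Ioi 0)
    refine ContinuousOn.mul (fun y hy => ?_) hg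
    exact (continuousAt_ofReal_cpow_const y _ (Or.inr (ne_of_gt hy))).continuousWithinAt
  · rw [ae_restrict_iff' measurableSet_Ioi]
    refine Filter.Eventually.of_forall fun y hy => ?_
    have hy0 : 0 < y := hy
    rw [norm_smul, norm_smul, Complex.norm_cpow_eq_rpow_re_of_pos hy0,
      Complex.norm_cpow_eq_rpow_re_of_pos hy0]
    apply le_of_eq
    congr 2
    simp
  · rw [ae_restrict_iff' measurableSet_Ioi]
    refine Filter.Eventually.of_forall fun y hy => ?_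
    have hy0 : 0 < y := hy
    have hyne : (y : ℂ) ≠ 0 := by exact_mod_cast hy0.ne'
    show Continuous (fun t : ℝ => (y : ℂ) ^ ((c : ℂ) + (t : ℂ) * I - 1) * g y)
    refine Continuous.mul ?_ continuous_const
    exact Continuous.const_cpow (by fun_prop) (Or.inl hyne)

lemma dn_ML_conj_muf (h : ∀ n : ℕ, (tau n).im = 0) (n : ℕ) : conj (muf n) = muf n := by
  have ht : ∀ n : ℕ, conj (tau n) = tau n := fun n => Complex.conj_eq_iff_im.mpr (h n)
  have hcf : ∀ p k : ℕ, conj (cf p k) = cf p k := by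
    intro p k
    unfold cf
    split_ifs
    · simp
    · rw [map_neg, ht]
    · simp
    · simp
  unfold muf
  split_ifs
  · simp
  · rw [map_prod]
    exact Finset.prod_congr rfl fun p _ => hcf p _

lemma dn_ML_conj_cpow (b : ℕ) (hb : 1 ≤ b) (z : ℂ) :
    conj ((b : ℂ) ^ z) = (b : ℂ) ^ (conj z) := by
  have hb0 : (b : ℂ) ≠ 0 := by exact_mod_cast (by omega : b ≠ 0)
  rw [Complex.cpow_def_of_ne_zero hb0, Complex.cpow_def_of_ne_zero hb0, ← Complex.exp_conj,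
    map_mul, ← Complex.natCast_log, Complex.conj_ofReal]

lemma dn_ML_conj_Mol (h : ∀ n : ℕ, (tau n).im = 0) (X : ℝ) (w : ℂ) :
    Mol X (conj w) = conj (Mol X w) := by
  unfold Mol
  rw [map_sum]
  refine Finset.sum_congr rfl fun b hb => ?_
  have hb1 : 1 ≤ b := (Finset.mem_Icc.mp hb).1
  rw [map_mul, map_mul, dn_ML_conj_muf h, Complex.conj_ofReal, dn_ML_conj_cpow b hb1, map_neg,
    map_add]
  congr 4
  exact (Complex.conj_ofNat 6).symm

lemma dn_ML_cts_LL : Continuous LL := by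
  have h := Lf_differentiable.continuous
  unfold LL
  exact h.comp (by fun_prop)

lemma dn_ML_cts_Mol (X : ℝ) : Continuous (Mol X) := by
  unfold Mol
  refine continuous_finsetSum _ fun b hb => ?_
  have hb1 : 1 ≤ b := (Finset.mem_Icc.mp hb).1
  have hb0 : (b : ℂ) ≠ 0 := by exact_mod_cast (by omega : b ≠ 0)
  refine Continuous.mul continuous_const ?_
  exact Continuous.const_cpow (by fun_prop) (Or.inl hb0)

lemma dn_ML_Pw (u : ℝ) : 0 ≤ Pw u ∧ Pw u ≤ 1 := by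
  unfold Pw
  exact ⟨Real.smoothTransition.nonneg _, Real.smoothTransition.le_one _⟩

/-- crude bound of the mollifier for small lengths -/
lemma dn_ML_Mol_le (B X₁ : ℝ) : ∃ M : ℝ, 0 ≤ M ∧ ∀ (X : ℝ) (w : ℂ), X ≤ X₁ →
    -B ≤ w.re → ‖Mol X w‖ ≤ M := by
  refine ⟨∑ b ∈ Finset.Icc 1 ⌊X₁⌋₊, ‖muf b‖ * (b : ℝ) ^ B, ?_, fun X w hX hw => ?_⟩
  · exact Finset.sum_nonneg fun b _ => by positivity
  · unfold Mol
    refine (norm_sum_le _ _).trans ?_
    have hsub : Finset.Icc 1 ⌊X⌋₊ ⊆ Finset.Icc 1 ⌊X₁⌋₊ :=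
      Finset.Icc_subset_Icc le_rfl (Nat.floor_le_floor hX)
    have h1 : ∀ b ∈ Finset.Icc 1 ⌊X⌋₊,
        ‖muf b * (Pw (Real.log b / Real.log X) : ℂ) * (b : ℂ) ^ (-(6 + w))‖ ≤
          ‖muf b‖ * (b : ℝ) ^ B := by
      intro b hb
      have hb1 : 1 ≤ b := (Finset.mem_Icc.mp hb).1
      have hb1' : (1 : ℝ) ≤ b := by exact_mod_cast hb1
      rw [norm_mul, norm_mul, Complex.norm_natCast_cpow_of_pos hb1, Complex.norm_real,
        Real.norm_of_nonneg (dn_ML_Pw _).1]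
      have h2 : (b : ℝ) ^ (-(6 + w)).re ≤ (b : ℝ) ^ B := by
        apply Real.rpow_le_rpow_of_exponent_le hb1'
        simp
        linarith
      have h3 : ‖muf b‖ * Pw (Real.log b / Real.log X) ≤ ‖muf b‖ :=
        mul_le_of_le_one_right (norm_nonneg _) (dn_ML_Pw _).2
      exact mul_le_mul h3 h2 (by positivity) (norm_nonneg _)
    refine (Finset.sum_le_sum h1).trans ?_
    exact Finset.sum_le_sum_of_subset_of_nonneg hsub fun b _ _ => by positivity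

/-- the pointwise bound -/
lemma dn_ML_pt (hrefl : S_refl) {c : ℝ} (hc : 0 < c)
    (hG : ∀ σ t : ℝ, 0 ≤ σ → σ ≤ 1 → 1 ≤ |t| →
      c * |t| ^ (11 / 2 + σ) * Real.exp (-(Real.pi * |t| / 2)) ≤ ‖Gamma (6 + σ + t * I)‖)
    (him : ∀ n : ℕ, (tau n).im = 0) {X δ : ℝ} (hX : 2 ≤ X) (h0 : 0 < δ) (h1 : δ ≤ 1 / 4) (d : ℂ)
    {y : ℝ} (hy : 1 ≤ y) :
    ‖LL (y * I)‖ * ‖Mol X (y * I + d)‖ ≤ 2 * (2 * Real.pi) ^ 6 / c * y ^ (-(11 / 2) : ℝ) *
      Real.exp (δ * y) * ‖mellin (HW X (conj d) δ) (((6 : ℝ) : ℂ) + ((-y : ℝ) : ℂ) * I)‖ := by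
  have hy0 : 0 < y := by linarith
  have hpi := Real.pi_pos
  obtain ⟨_, _, h2⟩ := hrefl X δ (conj d) hX h0 h1
  have h3 := h2 (-y)
  obtain ⟨s, hs⟩ : ∃ s : ℂ, s = 6 + (y : ℂ) * I := ⟨_, rfl⟩
  have e1 : (6 : ℂ) + ((-y : ℝ) : ℂ) * I = conj s := by
    rw [hs]
    apply Complex.ext <;> simp
  have e2 : ((-y : ℝ) : ℂ) * I + conj d = conj ((y : ℂ) * I + d) := by
    apply Complex.ext <;> simp
  rw [e1, e2, Lam_conj, Complex.norm_conj, dn_ML_conj_Mol him, Complex.norm_conj] at h3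
  have e3 : LL ((y : ℂ) * I) = Lf s := by rw [LL, hs]
  rw [e3]
  unfold Lf
  rw [norm_mul, norm_mul, norm_inv]
  have h4 : ‖(2 * Real.pi : ℂ) ^ s‖ = (2 * Real.pi) ^ 6 := by
    have e : (2 * Real.pi : ℂ) = ((2 * Real.pi : ℝ) : ℂ) := by push_cast; rfl
    rw [e, Complex.norm_cpow_eq_rpow_re_of_pos (by positivity), ← Real.rpow_natCast]
    congr 1
    rw [hs]
    simp
  have h5 := hG 0 y le_rfl zero_le_one (by rw [abs_of_pos hy0]; exact hy)
  have e4 : (6 : ℂ) + ((0 : ℝ) : ℂ) + (y : ℂ) * I = s := by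
    rw [hs]
    simp
  rw [abs_of_pos hy0, e4, add_zero] at h5
  have hpos : 0 < c * y ^ (11 / 2 : ℝ) * Real.exp (-(Real.pi * y / 2)) := by positivity
  have h6 : ‖Gamma s‖⁻¹ ≤ (c * y ^ (11 / 2 : ℝ) * Real.exp (-(Real.pi * y / 2)))⁻¹ :=
    inv_anti₀ hpos h5
  rw [h4]
  have h7 : (2 * Real.pi) ^ 6 * ‖Gamma s‖⁻¹ * ‖Lam s‖ * ‖Mol X ((y : ℂ) * I + d)‖ ≤
      (2 * Real.pi) ^ 6 * (c * y ^ (11 / 2 : ℝ) * Real.exp (-(Real.pi * y / 2)))⁻¹ * ‖Lam s‖ *
        ‖Mol X ((y : ℂ) * I + d)‖ := by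
    gcongr
  refine h7.trans ?_
  rw [mul_inv, mul_inv, ← Real.exp_neg, ← Real.rpow_neg hy0.le]
  have e6 : Real.exp (-(-(Real.pi * y / 2))) = Real.exp (δ * y) *
      Real.exp (-((Real.pi / 2 - δ) * (-y))) := by
    rw [← Real.exp_add]
    congr 1
    ring
  rw [e6]
  calc (2 * Real.pi) ^ 6 * (c⁻¹ * y ^ (-(11 / 2) : ℝ) * (Real.exp (δ * y) *
        Real.exp (-((Real.pi / 2 - δ) * (-y))))) * ‖Lam s‖ * ‖Mol X ((y : ℂ) * I + d)‖
      = (2 * Real.pi) ^ 6 * c⁻¹ * y ^ (-(11 / 2) : ℝ) * Real.exp (δ * y) *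
        (Real.exp (-((Real.pi / 2 - δ) * (-y))) * ‖Lam s‖ * ‖Mol X ((y : ℂ) * I + d)‖) := by
        ring
    _ ≤ (2 * Real.pi) ^ 6 * c⁻¹ * y ^ (-(11 / 2) : ℝ) * Real.exp (δ * y) *
        (2 * ‖mellin (HW X (conj d) δ) (((6 : ℝ) : ℂ) + ((-y : ℝ) : ℂ) * I)‖) :=
        mul_le_mul_of_nonneg_left h3 (by positivity)
    _ = _ := by
        rw [div_eq_mul_inv]
        ring

theorem p_ML (hHW : S_HWsq) (hrefl : S_refl) (hpl : S_planch) (hgam : S_gamLo) (htm : S_tm) :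
    S_ML := by
  obtain ⟨θ₀, hθ₀, hHW⟩ := hHW
  obtain ⟨c, hc, hG⟩ := hgam
  obtain ⟨_, _, him⟩ := htm
  refine ⟨θ₀, 4, hθ₀, by norm_num, fun θ B hθ hθ1 hB => ?_⟩
  obtain ⟨C₀, T₀, hC₀, hT₀, hHW⟩ := hHW θ hθ hθ1
  have hpi := Real.pi_pos
  obtain ⟨T₁, hT₁⟩ : ∃ T₁ : ℝ, T₁ = max T₀ (max 4 (2 ^ (1 / θ) : ℝ)) := ⟨_, rfl⟩
  have hT₁0 : T₀ ≤ T₁ := by rw [hT₁]; exact le_max_left _ _
  have hT₁4 : 4 ≤ T₁ := by rw [hT₁]; exact (le_max_left _ _).trans (le_max_right _ _)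
  have hT₁2 : (2 ^ (1 / θ) : ℝ) ≤ T₁ := by
    rw [hT₁]; exact (le_max_right _ _).trans (le_max_right _ _)
  obtain ⟨M, hM0, hM⟩ := dn_ML_Mol_le B (T₁ ^ θ)
  obtain ⟨K₂, hK₂, hLf⟩ := Lf_bound
  obtain ⟨M₁, hM₁⟩ : ∃ M₁ : ℝ, M₁ = K₂ * (9 + 8 * T₁) ^ 4 := ⟨_, rfl⟩
  have hM₁0 : 0 ≤ M₁ := by rw [hM₁]; positivity
  obtain ⟨E, hE⟩ : ∃ E : ℝ, E = (2 * (2 * Real.pi) ^ 6 / c) ^ 2 * 4 ^ 11 * Real.exp 16 *
    (2 * Real.pi * C₀) := ⟨_, rfl⟩
  have hE0 : 0 < E := by rw [hE]; positivity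
  refine ⟨E + 8 * (M₁ ^ 2 * M ^ 2), by positivity, fun T d hT hd => ?_⟩
  have hT0 : 0 < T := by linarith
  have hlog : 0 ≤ Real.log T := Real.log_nonneg (by linarith)
  have hexp1 : 1 ≤ Real.exp (4 * θ * Real.log T * ‖d‖) := by
    rw [← Real.exp_zero]
    exact Real.exp_le_exp.mpr (by positivity)
  have hle : T / 4 ≤ 8 * T := by linarith
  have hcts : Continuous fun y : ℝ => ‖LL (y * I)‖ ^ 2 * ‖Mol (T ^ θ) (y * I + d)‖ ^ 2 := by
    have h1 := dn_ML_cts_LL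
    have h2 := dn_ML_cts_Mol (T ^ θ)
    fun_prop
  rcases lt_or_ge T T₁ with hsmall | hbig
  · -- small T
    have hX : T ^ θ ≤ T₁ ^ θ := Real.rpow_le_rpow hT0.le hsmall.le hθ.le
    have h1 : ∫ y in (T / 4)..(8 * T), ‖LL (y * I)‖ ^ 2 * ‖Mol (T ^ θ) (y * I + d)‖ ^ 2 ≤
        ∫ _y in (T / 4)..(8 * T), M₁ ^ 2 * M ^ 2 := by
      apply intervalIntegral.integral_mono_on hle (hcts.intervalIntegrable _ _)
        intervalIntegrable_const
      intro y hy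
      have hy1 := hy.1
      have hy2 := hy.2
      have h2 : ‖LL (y * I)‖ ≤ M₁ := by
        have h3 := hLf (6 + y * I) (by simp; norm_num)
        rw [LL]
        refine h3.trans ?_
        rw [hM₁]
        apply mul_le_mul_of_nonneg_left _ hK₂.le
        apply pow_le_pow_left₀ (by positivity)
        have e : (6 + (y : ℂ) * I).im = y := by simp
        rw [e, abs_of_nonneg (by linarith)]
        linarith
      have h3 : ‖Mol (T ^ θ) (y * I + d)‖ ≤ M := by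
        refine hM _ _ hX ?_
        have h4 : |d.re| ≤ B := (Complex.abs_re_le_norm d).trans hd
        have h5 := (abs_le.mp h4).1
        simp
        linarith
      exact mul_le_mul (pow_le_pow_left₀ (norm_nonneg _) h2 2)
        (pow_le_pow_left₀ (norm_nonneg _) h3 2) (by positivity) (by positivity)
    refine h1.trans ?_
    rw [intervalIntegral.integral_const, smul_eq_mul]
    have hMM : 0 ≤ M₁ ^ 2 * M ^ 2 := by positivity
    calc (8 * T - T / 4) * (M₁ ^ 2 * M ^ 2) ≤ 8 * T * (M₁ ^ 2 * M ^ 2) :=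
          mul_le_mul_of_nonneg_right (by linarith) hMM
      _ = 8 * (M₁ ^ 2 * M ^ 2) * T * 1 := by ring
      _ ≤ 8 * (M₁ ^ 2 * M ^ 2) * T * Real.exp (4 * θ * Real.log T * ‖d‖) :=
          mul_le_mul_of_nonneg_left hexp1 (by positivity)
      _ ≤ (E + 8 * (M₁ ^ 2 * M ^ 2)) * T * Real.exp (4 * θ * Real.log T * ‖d‖) := by
          apply mul_le_mul_of_nonneg_right _ (Real.exp_pos _).le
          apply mul_le_mul_of_nonneg_right _ hT0.le
          linarith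
  · -- large T
    have hT4 : 4 ≤ T := hT₁4.trans hbig
    obtain ⟨δ, hδ⟩ : ∃ δ : ℝ, δ = 1 / T := ⟨_, rfl⟩
    have hδ0 : 0 < δ := by rw [hδ]; positivity
    have hδ1 : δ ≤ 1 / 4 := by
      rw [hδ]
      exact one_div_le_one_div_of_le (by norm_num) hT4
    have hX2 : 2 ≤ T ^ θ := by
      have h1 : ((2 : ℝ) ^ (1 / θ)) ^ θ ≤ T ^ θ :=
        Real.rpow_le_rpow (by positivity) (hT₁2.trans hbig) hθ.le
      rw [← Real.rpow_mul (by norm_num), one_div_mul_cancel hθ.ne', Real.rpow_one] at h1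
      exact h1
    obtain ⟨g, hg⟩ : ∃ g : ℝ → ℂ, g = HW (T ^ θ) (conj d) δ := ⟨_, rfl⟩
    obtain ⟨hgc, hgm, _⟩ := hrefl (T ^ θ) δ (conj d) hX2 hδ0 hδ1
    obtain ⟨hint, hI⟩ := hHW T (conj d) (hT₁0.trans hbig)
    rw [← hδ] at hint hI
    rw [← hg] at hgc hgm hint hI
    have hmc := dn_ML_cont (c := 6) hgc hgm
    obtain ⟨D, hD⟩ : ∃ D : ℝ, D = (2 * (2 * Real.pi) ^ 6 / c) ^ 2 * (4 ^ 11 / T ^ 11) *
      Real.exp 16 := ⟨_, rfl⟩
    have hD0 : 0 ≤ D := by rw [hD]; positivity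
    have h1 : ∫ y in (T / 4)..(8 * T), ‖LL (y * I)‖ ^ 2 * ‖Mol (T ^ θ) (y * I + d)‖ ^ 2 ≤
        ∫ y in (T / 4)..(8 * T), D * ‖mellin g (((6 : ℝ) : ℂ) + ((-y : ℝ) : ℂ) * I)‖ ^ 2 := by
      apply intervalIntegral.integral_mono_on hle (hcts.intervalIntegrable _ _)
      · apply Continuous.intervalIntegrable
        have h2 : Continuous fun y : ℝ => mellin g (((6 : ℝ) : ℂ) + ((-y : ℝ) : ℂ) * I) :=
          hmc.comp continuous_neg
        exact continuous_const.mul (h2.norm.pow 2)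
      · intro y hy
        have hy1 := hy.1
        have hy2 := hy.2
        have hy0 : 0 < y := by linarith
        have hp := dn_ML_pt hrefl hc hG him hX2 hδ0 hδ1 d (y := y) (by linarith)
        rw [← hg] at hp
        have hsq := pow_le_pow_left₀ (by positivity) hp 2
        rw [mul_pow, mul_pow, mul_pow, mul_pow] at hsq
        refine hsq.trans ?_
        apply mul_le_mul_of_nonneg_right _ (by positivity)
        rw [hD]
        have e1 : (y ^ (-(11 / 2) : ℝ)) ^ 2 ≤ 4 ^ 11 / T ^ 11 := by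
          rw [← Real.rpow_natCast (y ^ (-(11 / 2) : ℝ)) 2, ← Real.rpow_mul hy0.le]
          have e2 : (-(11 / 2) : ℝ) * ((2 : ℕ) : ℝ) = -((11 : ℕ) : ℝ) := by
            push_cast
            ring
          rw [e2, Real.rpow_neg hy0.le, Real.rpow_natCast, ← one_div,
            div_le_div_iff₀ (by positivity) (by positivity), one_mul, ← mul_pow]
          apply pow_le_pow_left₀ hT0.le
          linarith
        have e4 : Real.exp (δ * y) ^ 2 ≤ Real.exp 16 := by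
          rw [← Real.exp_nat_mul]
          apply Real.exp_le_exp.mpr
          have : δ * y ≤ 8 := by
            rw [hδ, div_mul_eq_mul_div, one_mul, div_le_iff₀ hT0]
            exact hy2
          push_cast
          linarith
        apply mul_le_mul _ e4 (by positivity) (by positivity)
        apply mul_le_mul_of_nonneg_left e1 (by positivity)
    refine h1.trans ?_
    have h2 : ∫ y in (T / 4)..(8 * T), D * ‖mellin g (((6 : ℝ) : ℂ) + ((-y : ℝ) : ℂ) * I)‖ ^ 2 =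
        D * ∫ t in (-(8 * T))..(-(T / 4)), ‖mellin g (((6 : ℝ) : ℂ) + (t : ℂ) * I)‖ ^ 2 := by
      rw [intervalIntegral.integral_const_mul]
      congr 1
      exact intervalIntegral.integral_comp_neg
        (f := fun t : ℝ => ‖mellin g (((6 : ℝ) : ℂ) + (t : ℂ) * I)‖ ^ 2)
    rw [h2]
    have hP := hpl g 6 hgc hgm hint (-(8 * T)) (-(T / 4)) (by linarith)
    have h3 : ∫ t in (-(8 * T))..(-(T / 4)), ‖mellin g (((6 : ℝ) : ℂ) + (t : ℂ) * I)‖ ^ 2 ≤
        2 * Real.pi * (C₀ * T ^ 12 * Real.exp (4 * θ * Real.log T * ‖conj d‖)) :=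
      hP.trans (mul_le_mul_of_nonneg_left hI (by positivity))
    rw [Complex.norm_conj] at h3
    refine (mul_le_mul_of_nonneg_left h3 hD0).trans ?_
    have e5 : D * (2 * Real.pi * (C₀ * T ^ 12 * Real.exp (4 * θ * Real.log T * ‖d‖))) =
        E * T * Real.exp (4 * θ * Real.log T * ‖d‖) := by
      rw [hD, hE]
      field_simp
    rw [e5]
    apply mul_le_mul_of_nonneg_right _ (Real.exp_pos _).le
    apply mul_le_mul_of_nonneg_right _ hT0.le
    have : 0 ≤ 8 * (M₁ ^ 2 * M ^ 2) := by positivity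
    linarith

end Pool.Agent.Lib.MP_cd509c_nt.DN
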