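import Mathlib
import Pool.Agent.Lib.MP_cd509c_nt.DN.Defs

set_option autoImplicit false

/-!
# Project DN, piece PH: the heat flow has no zeros off the symmetry axis
-/

namespace Pool.Agent.Lib.MP_cd509c_nt.DN

open Complex ComplexConjugate MeasureTheory

/-- upper bound of `R` on the half-line -/
theorem dn_PH_R {N ε Y : ℝ} {R : ℂ → ℂ} (hN : 0 < N) (hε : 0 < ε) (hY : 40 ≤ Y)
    (hR : Reg ε N 1 Y R) {v : ℝ} (hv : 0 < v) :
    ‖R v‖ ≤ Real.exp (ε * N * (|v - 1| + (v - 1) ^ 2)) * ‖R 1‖ := by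
  have hεN : 0 < ε * N := mul_pos hε hN
  have hn : ‖(v : ℂ) - 1‖ = |v - 1| := by
    rw [← Real.norm_eq_abs, ← Complex.norm_real]
    push_cast
    rfl
  rcases le_total v Y with h | h
  · have h1 := hR.lin 1 v (by norm_num) (by rw [one_re]; linarith) (by simp)
      (by rw [ofReal_re]; exact hv.le) (by rw [ofReal_re]; exact h) (by simp)
    rw [hn] at h1
    refine h1.trans ?_
    refine mul_le_mul_of_nonneg_right ?_ (norm_nonneg _)
    apply Real.exp_le_exp.mpr
    have := mul_nonneg hεN.le (sq_nonneg (v - 1))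
    nlinarith
  · have h1 := hR.tail 1 v (by norm_num) (by rw [one_re]; linarith) (by simp)
      (by rw [ofReal_re]; exact h) (by simp)
    rw [hn, sq_abs] at h1
    refine h1.trans ?_
    refine mul_le_mul_of_nonneg_right ?_ (norm_nonneg _)
    apply Real.exp_le_exp.mpr
    have := mul_nonneg hεN.le (abs_nonneg (v - 1))
    nlinarith

/-- the exponent -/
theorem dn_PH_exp {N ε x t v : ℝ} (hN : 0 < N) (hε : 0 < ε) (hε1 : ε ≤ 1 / 16384)
    (hx : |x| ≤ 1 / 32) (ht : |t| ≤ 1 / 32) :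
    N * v + ε * N * (|v - 1| + (v - 1) ^ 2) - N * ((v - x) ^ 2 - t ^ 2) / 2 ≤
      N * (x + 1 / 2 + 1 / 2048 + ε) + (-(N / 4) * (v - (x + 1)) ^ 2) := by
  have h1 : |v - 1| ≤ |v - (x + 1)| + 1 / 32 := by
    have : v - 1 = (v - (x + 1)) + x := by ring
    rw [this]
    exact (abs_add_le _ _).trans (by linarith)
  obtain ⟨u, hu⟩ : ∃ u : ℝ, u = v - (x + 1) := ⟨_, rfl⟩
  have hv : v = u + x + 1 := by rw [hu]; ring
  rw [← hu] at h1 ⊢
  have h2 : |u| ≤ 1 / 2 + u ^ 2 / 2 := by
    have h := sq_nonneg (|u| - 1)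
    have h' := sq_abs u
    nlinarith
  have hx2 : x ^ 2 ≤ 1 / 1024 := by
    have := sq_le_sq' (a := x) (b := 1 / 32) (by linarith [(abs_le.mp hx).1]) (abs_le.mp hx).2
    norm_num at this ⊢
    linarith
  have ht2 : t ^ 2 ≤ 1 / 1024 := by
    have := sq_le_sq' (a := t) (b := 1 / 32) (by linarith [(abs_le.mp ht).1]) (abs_le.mp ht).2
    norm_num at this ⊢
    linarith
  have h3 : (v - 1) ^ 2 ≤ 2 * u ^ 2 + 2 * x ^ 2 := by
    rw [hv]
    nlinarith [sq_nonneg (u - x)]
  have h4 : |v - 1| + (v - 1) ^ 2 ≤ 1 + 3 * u ^ 2 := by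
    nlinarith [sq_nonneg u]
  have h5 : ε * N * (|v - 1| + (v - 1) ^ 2) ≤ N * ε + N * (1 / 4 * u ^ 2) := by
    calc ε * N * (|v - 1| + (v - 1) ^ 2) ≤ ε * N * (1 + 3 * u ^ 2) :=
          mul_le_mul_of_nonneg_left h4 (mul_pos hε hN).le
      _ = N * ε + N * (3 * ε * u ^ 2) := by ring
      _ ≤ N * ε + N * (1 / 4 * u ^ 2) := by
          have : 3 * ε * u ^ 2 ≤ 1 / 4 * u ^ 2 :=
            mul_le_mul_of_nonneg_right (by linarith) (sq_nonneg u)
          have := mul_le_mul_of_nonneg_left this hN.le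
          linarith
  have h6 : N * (t ^ 2 / 2) ≤ N * (1 / 2048) := mul_le_mul_of_nonneg_left (by linarith) hN.le
  have h7 : N * v - N * ((v - x) ^ 2 - t ^ 2) / 2 =
      N * (x + 1 / 2) - N * u ^ 2 / 2 + N * (t ^ 2 / 2) := by
    rw [hv]; ring
  nlinarith

/-- upper bound of `BH` near the origin -/
theorem dn_PH_up {N ε Y : ℝ} {R : ℂ → ℂ} (hN : 16 ≤ N) (hε : 0 < ε) (hε1 : ε ≤ 1 / 16384)
    (hY : 40 ≤ Y) (hR : Reg ε N 1 Y R) {w : ℂ} (hw : ‖w‖ ≤ 1 / 32) :
    ‖BH N R w‖ ≤ Real.exp (N * (w.re + 1 / 2 + 1 / 2048 + ε)) * ‖R 1‖ := by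
  have hN0 : 0 < N := by linarith
  obtain ⟨g, hg⟩ : ∃ g : ℝ → ℝ, g = fun v => Real.exp (N * (w.re + 1 / 2 + 1 / 2048 + ε)) * ‖R 1‖ *
    Real.exp (-(N / 4) * (v - (w.re + 1)) ^ 2) := ⟨_, rfl⟩
  have hgi : Integrable g := by
    rw [hg]
    exact ((integrable_exp_neg_mul_sq (b := N / 4) (by positivity)).comp_sub_right
      (w.re + 1)).const_mul _
  have hg0 : ∀ v, 0 ≤ g v := fun v => by rw [hg]; positivity
  have hint : ∫ v, g v = Real.exp (N * (w.re + 1 / 2 + 1 / 2048 + ε)) * ‖R 1‖ *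
      Real.sqrt (Real.pi / (N / 4)) := by
    rw [hg, integral_const_mul, ← integral_gaussian (N / 4)]
    congr 1
    exact integral_sub_right_eq_self (μ := volume)
      (fun v : ℝ => Real.exp (-(N / 4) * v ^ 2)) (w.re + 1)
  have hb : ‖BH N R w‖ ≤ ∫ v in Set.Ioi (0 : ℝ), g v := by
    unfold BH
    refine norm_integral_le_of_norm_le hgi.integrableOn ?_
    filter_upwards [ae_restrict_mem measurableSet_Ioi] with v hv
    have hv0 : (0 : ℝ) < v := hv
    have h1 := dn_PH_R hN0 hε hY hR hv0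
    have h2 := dn_PH_exp (v := v) hN0 hε hε1 ((abs_re_le_norm w).trans hw)
      ((abs_im_le_norm w).trans hw)
    have e1 : ‖cexp ((N : ℂ) * (v : ℂ))‖ = Real.exp (N * v) := by
      rw [Complex.norm_exp]
      congr 1
      simp
    have e2 : ‖cexp (-((N : ℂ) * ((v : ℂ) - w) ^ 2 / 2))‖ =
        Real.exp (-(N * ((v - w.re) ^ 2 - w.im ^ 2) / 2)) := by
      rw [Complex.norm_exp]
      congr 1
      have : -((N : ℂ) * ((v : ℂ) - w) ^ 2 / 2) =
          ((-(N / 2) : ℝ) : ℂ) * ((v : ℂ) - w) ^ 2 := by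
        push_cast
        ring
      rw [this, re_ofReal_mul]
      simp [pow_two]
      ring
    rw [hg]
    unfold la
    rw [norm_mul, norm_mul, e1, e2]
    calc Real.exp (N * v) * ‖R v‖ * Real.exp (-(N * ((v - w.re) ^ 2 - w.im ^ 2) / 2))
        ≤ Real.exp (N * v) * (Real.exp (ε * N * (|v - 1| + (v - 1) ^ 2)) * ‖R 1‖) *
          Real.exp (-(N * ((v - w.re) ^ 2 - w.im ^ 2) / 2)) := by gcongr
      _ = Real.exp (N * v + ε * N * (|v - 1| + (v - 1) ^ 2) -
          N * ((v - w.re) ^ 2 - w.im ^ 2) / 2) * ‖R 1‖ := by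
          rw [sub_eq_add_neg (N * v + ε * N * (|v - 1| + (v - 1) ^ 2)), Real.exp_add,
            Real.exp_add]
          ring
      _ ≤ Real.exp (N * (w.re + 1 / 2 + 1 / 2048 + ε) + (-(N / 4) * (v - (w.re + 1)) ^ 2)) *
          ‖R 1‖ := by gcongr
      _ = _ := by
          rw [Real.exp_add]
          ring
  refine hb.trans ?_
  refine (setIntegral_le_integral hgi (Filter.Eventually.of_forall hg0)).trans ?_
  rw [hint]
  have hs : Real.sqrt (Real.pi / (N / 4)) ≤ 1 := by
    rw [Real.sqrt_le_left (by norm_num), one_pow, div_le_one (by positivity)]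
    linarith [Real.pi_le_four]
  exact mul_le_of_le_one_right (by positivity) hs

/-- **piece PH** -/
theorem p_PH (hsplit : S_splitH) (hdom : S_domH) (hlo : S_loH) (hHB : S_HB) : S_PH := by
  obtain ⟨ε₁, N₁, hε₁, hN₁, hdom⟩ := hdom
  obtain ⟨ε₂, N₂, hε₂, hN₂, hlo⟩ := hlo
  refine ⟨min (min ε₁ ε₂) (1 / 16384), max (max N₁ N₂) (2 ^ 24), ?_, ?_, ?_⟩
  · exact lt_min (lt_min hε₁ hε₂) (by norm_num)
  · exact (by norm_num : (1 : ℝ) ≤ 2 ^ 24).trans (le_max_right _ _)
  intro N ε b Y R hε hεle hNle hb hY hR hS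
  have hε1' : ε ≤ ε₁ := hεle.trans ((min_le_left _ _).trans (min_le_left _ _))
  have hε2' : ε ≤ ε₂ := hεle.trans ((min_le_left _ _).trans (min_le_right _ _))
  have hε3' : ε ≤ 1 / 16384 := hεle.trans (min_le_right _ _)
  have hN1' : N₁ ≤ N := ((le_max_left _ _).trans (le_max_left _ _)).trans hNle
  have hN2' : N₂ ≤ N := ((le_max_right _ _).trans (le_max_left _ _)).trans hNle
  have hN3' : 2 ^ 24 ≤ N := (le_max_right _ _).trans hNle
  have hN0 : 0 < N := lt_of_lt_of_le (by norm_num) hN3'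
  obtain ⟨⟨c, hc, hF⟩, hdiff⟩ := hsplit N ε b Y R hN0 hε (by linarith) hb hY hR hS
  -- the general conclusion
  have hconcl : ∀ y : ℝ, ‖BH N R (-(y : ℂ))‖ < ‖BH N R y‖ → FH N R y ≠ 0 := by
    intro y hy h0
    rw [hF y] at h0
    have h1 : BH N R y = -(c * conj (BH N R (-(y : ℂ)))) := eq_neg_of_add_eq_zero_left h0
    have h2 : ‖BH N R y‖ = ‖BH N R (-(y : ℂ))‖ := by
      rw [h1, norm_neg, norm_mul, hc, one_mul, RCLike.norm_conj]
    linarith
  -- the region away from the origin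
  have hbig : ∀ y : ℝ, 1 / 64 ≤ y → b / 4 - 3 / 8 ≤ y → y ≤ Y / 2 - 2 → FH N R y ≠ 0 := by
    intro y hy1 hy2 hy3
    have h1 := hdom N ε b Y y R hε hε1' hN1' hb hY hR hy1 hy2 hy3
    have h2 := hlo ε N b Y R y hε hε2' hN2' hb hY hR (by rw [ofReal_re]; exact hy2)
      (by rw [ofReal_re]; exact hy3) (by simp)
    have h3 : R ((y : ℂ) + 1) ≠ 0 := by
      refine hR.ne _ ?_ ?_ ?_
      · rw [add_re, ofReal_re, one_re]; linarith
      · rw [add_re, ofReal_re, one_re]; linarith
      · rw [add_im, ofReal_im, one_im]; simp; linarith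
    have h4 : 0 < ‖BH N R y‖ := by
      refine lt_of_lt_of_le ?_ h2
      have : 0 < ‖R ((y : ℂ) + 1)‖ := norm_pos_iff.mpr h3
      positivity
    exact hconcl y (by linarith)
  constructor
  · intro hb1 y hy0 hy1
    subst hb1
    rcases le_or_gt (1 / 64) y with h | h
    · exact hbig y h (by linarith) hy1
    · -- near the origin
      have hR1 : 0 < ‖R 1‖ := norm_pos_iff.mpr
        (hR.ne 1 (by norm_num) (by rw [one_re]; linarith) (by simp))
      refine hconcl y (hHB (1 / 32) (3 / 4096) N (N / 2 + Real.log ‖R 1‖) (BH N R) (by norm_num) hN0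
        (by norm_num) (by norm_num) hdiff.differentiableOn ?_ y hy0 (by linarith))
      intro w hw
      have hw' : ‖w‖ < 1 / 32 := by simpa using hw
      have hre := abs_lt.mp ((abs_re_le_norm w).trans_lt hw')
      have him := abs_lt.mp ((abs_im_le_norm w).trans_lt hw')
      have h1 := hlo ε N 1 Y R w hε hε2' hN2' hb hY hR (by linarith) (by linarith)
        (by rw [abs_le]; constructor <;> linarith)
      have h2 := dn_PH_up (by linarith) hε hε3' (by linarith) hR hw'.le
      have h3 := hR.lin (w + 1) 1 (by rw [add_re, one_re]; linarith)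
        (by rw [add_re, one_re]; linarith)
        (by rw [add_im, one_im, add_zero, abs_le]; constructor <;> linarith) (by norm_num)
        (by rw [one_re]; linarith) (by simp)
      have h3' : ‖(1 : ℂ) - (w + 1)‖ = ‖w‖ := by
        rw [show (1 : ℂ) - (w + 1) = -w by ring, norm_neg]
      rw [h3'] at h3
      have hRw : 0 < ‖R (w + 1)‖ := by
        rcases (norm_nonneg (R (w + 1))).lt_or_eq with h | h
        · exact h
        · rw [← h, mul_zero] at h3
          linarith
      have hsq : 0 < Real.sqrt N := Real.sqrt_pos.mpr hN0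
      have hB : 0 < ‖BH N R w‖ := by
        refine lt_of_lt_of_le ?_ h1
        positivity
      refine ⟨norm_pos_iff.mp hB, ?_⟩
      -- logarithms
      have l1 : N * (w.re + 1 / 2) - 3 * ε * N + Real.log ‖R (w + 1)‖ - Real.log (2 * Real.sqrt N) ≤
          Real.log ‖BH N R w‖ := by
        have := Real.log_le_log (by positivity) h1
        rwa [Real.log_div (by positivity) (by positivity), Real.log_mul (by positivity)
          (by positivity), Real.log_exp] at this
      have l2 : Real.log ‖BH N R w‖ ≤ N * (w.re + 1 / 2 + 1 / 2048 + ε) + Real.log ‖R 1‖ := by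
        have := Real.log_le_log hB h2
        rwa [Real.log_mul (by positivity) (by positivity), Real.log_exp] at this
      have l3 : Real.log ‖R 1‖ ≤ ε * N * ‖w‖ + Real.log ‖R (w + 1)‖ := by
        have := Real.log_le_log hR1 h3
        rwa [Real.log_mul (by positivity) (by positivity), Real.log_exp] at this
      have l4 : Real.log (2 * Real.sqrt N) ≤ N * (2 / 4096) := by
        have h5 : Real.log (2 * Real.sqrt N) ≤ 2 * Real.sqrt N := by
          have := Real.log_le_sub_one_of_pos (show 0 < 2 * Real.sqrt N by positivity)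
          linarith
        have h6 : 4096 ≤ Real.sqrt N := by
          apply Real.le_sqrt_of_sq_le
          norm_num at hN3' ⊢
          exact hN3'
        have h7 : Real.sqrt N * Real.sqrt N = N := Real.mul_self_sqrt hN0.le
        nlinarith
      have l5 : ε * N * ‖w‖ ≤ ε * N * (1 / 32) :=
        mul_le_mul_of_nonneg_left hw'.le (mul_pos hε hN0).le
      have l6 : ε * N ≤ 1 / 16384 * N := mul_le_mul_of_nonneg_right hε3' hN0.le
      rw [abs_le]
      constructor
      · nlinarith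
      · nlinarith
  · intro hb2 y hy0 hy1
    exact hbig y (by linarith) (by linarith) hy1

end Pool.Agent.Lib.MP_cd509c_nt.DN
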