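import Pool.Agent.Lib.MP_cd509c_nt.DN.Defs3

/-!
Project DN, piece RD: derivatives, many zeros on the symmetry axis.
-/

set_option autoImplicit false

namespace Pool.Agent.Lib.MP_cd509c_nt.DN

open Complex ComplexConjugate MeasureTheory

private lemma dn_RD_la {N : ℝ} {R : ℂ → ℂ} (hR : Differentiable ℂ R) :
    Differentiable ℂ (la N R) := by
  unfold la
  fun_prop

/-- the integrand of the arc integral -/
private noncomputable def dn_RD_g (f : ℂ → ℂ) (N : ℝ) (w : ℂ) (φ : ℝ) : ℂ :=
  f (w + cexp (φ * I)) * cexp (-((N : ℂ) * φ) * I)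

private lemma dn_RD_cont {f : ℂ → ℂ} (hf : Continuous f) (N : ℝ) (w : ℂ) :
    Continuous (dn_RD_g f N w) := by
  unfold dn_RD_g
  fun_prop

/-- Cauchy formula -/
private lemma dn_RD_cauchy {f : ℂ → ℂ} (hf : Differentiable ℂ f) (n : ℕ) (c : ℂ) :
    iteratedDeriv n f c = ((n.factorial : ℝ) / (2 * Real.pi) : ℝ) *
      ∫ φ in (-Real.pi)..Real.pi, dn_RD_g f (n : ℝ) c φ := by
  rw [iteratedDeriv_circle hf c one_pos n]
  congr 1
  apply intervalIntegral.integral_congr
  intro θ _
  simp only [dn_RD_g, ofReal_one, one_mul]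
  rw [mul_comm I (θ : ℂ), ← Complex.exp_nat_mul, ← Complex.exp_neg]
  congr 2
  push_cast
  ring

/-- the arc integral is an entire function of the centre -/
private lemma dn_RD_diff {f : ℂ → ℂ} (hf : Differentiable ℂ f) (N θ : ℝ) :
    Differentiable ℂ (fun w => ∫ φ in (-θ)..θ, dn_RD_g f N w φ) := by
  intro w₀
  have hdf : Continuous (deriv f) := (hf.contDiff (n := 1)).continuous_deriv le_rfl
  obtain ⟨M, hM⟩ := (isCompact_closedBall (0 : ℂ) (‖w₀‖ + 2)).exists_bound_of_continuousOn
    hdf.continuousOn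
  have h := (intervalIntegral.hasDerivAt_integral_of_dominated_loc_of_deriv_le
    (μ := volume) (a := -θ) (b := θ) (F := fun w φ => dn_RD_g f N w φ)
    (F' := fun w φ => dn_RD_g (deriv f) N w φ) (x₀ := w₀) (s := Metric.ball w₀ 1)
    (bound := fun _ => M) (Metric.ball_mem_nhds w₀ one_pos)
    (Filter.Eventually.of_forall fun w => (dn_RD_cont hf.continuous N w).aestronglyMeasurable)
    ((dn_RD_cont hf.continuous N w₀).intervalIntegrable _ _)
    ((dn_RD_cont hdf N w₀).aestronglyMeasurable) (by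
      refine Filter.Eventually.of_forall fun φ _ w hw => ?_
      rw [dn_RD_g, norm_mul, Complex.norm_exp]
      have h1 : ((-((N : ℂ) * φ) * I)).re = 0 := by simp
      rw [h1, Real.exp_zero, mul_one]
      apply hM
      rw [mem_closedBall_zero_iff]
      rw [mem_ball_iff_norm] at hw
      have h2 : ‖cexp (φ * I)‖ = 1 := Complex.norm_exp_ofReal_mul_I φ
      calc ‖w + cexp (φ * I)‖ ≤ ‖w‖ + ‖cexp (φ * I)‖ := norm_add_le _ _
        _ ≤ (‖w₀‖ + ‖w - w₀‖) + 1 := by
          rw [h2]
          have : ‖w‖ ≤ ‖w₀‖ + ‖w - w₀‖ := by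
            calc ‖w‖ = ‖w₀ + (w - w₀)‖ := by rw [add_sub_cancel]
              _ ≤ _ := norm_add_le _ _
          linarith
        _ ≤ ‖w₀‖ + 2 := by linarith)
    (by simp) (by
      refine Filter.Eventually.of_forall fun φ _ w _ => ?_
      unfold dn_RD_g
      have h1 : HasDerivAt (fun w : ℂ => f (w + cexp (φ * I))) (deriv f (w + cexp (φ * I))) w :=
        (hf _).hasDerivAt.comp_add_const w (cexp (φ * I))
      exact h1.mul_const _)).2
  exact h.differentiableAt

/-- splitting of the circle -/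
private lemma dn_RD_split {f : ℂ → ℂ} (hf : Continuous f) (n : ℕ) {c : ℂ}
    (hs : ∀ z, f (-conj z) = c * conj (f z)) (y : ℂ) :
    ∫ φ in (-Real.pi)..Real.pi, dn_RD_g f (n : ℝ) y φ =
      (∫ φ in (-(Real.pi / 2))..(Real.pi / 2), dn_RD_g f (n : ℝ) y φ) +
        c * (-1) ^ n * conj (∫ φ in (-(Real.pi / 2))..(Real.pi / 2),
          dn_RD_g f (n : ℝ) (-conj y) φ) := by
  have hper : Function.Periodic (dn_RD_g f (n : ℝ) y) (2 * Real.pi) := by
    intro φ
    simp only [dn_RD_g]
    have e1 : cexp (((φ + 2 * Real.pi : ℝ) : ℂ) * I) = cexp (φ * I) := by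
      push_cast
      rw [show ((φ : ℂ) + 2 * Real.pi) * I = φ * I + 2 * Real.pi * I by ring, Complex.exp_add,
        Complex.exp_two_pi_mul_I, mul_one]
    have e2 : cexp (-(((n : ℝ) : ℂ) * ((φ + 2 * Real.pi : ℝ) : ℂ)) * I) =
        cexp (-(((n : ℝ) : ℂ) * φ) * I) := by
      have e3 : -(((n : ℝ) : ℂ) * ((φ + 2 * Real.pi : ℝ) : ℂ)) * I =
          -(((n : ℝ) : ℂ) * φ) * I + ((-(n : ℤ) : ℤ) : ℂ) * (2 * Real.pi * I) := by
        push_cast
        ring
      rw [e3, Complex.exp_add, Complex.exp_int_mul_two_pi_mul_I, mul_one]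
    rw [e1, e2]
  have hc := dn_RD_cont hf (n : ℝ) y
  have h1 : ∫ φ in (-Real.pi)..Real.pi, dn_RD_g f (n : ℝ) y φ =
      ∫ φ in (-(Real.pi / 2))..(3 * Real.pi / 2), dn_RD_g f (n : ℝ) y φ := by
    have h2 := hper.intervalIntegral_add_eq (-Real.pi) (-(Real.pi / 2))
    have e1 : -Real.pi + 2 * Real.pi = Real.pi := by ring
    have e2 : -(Real.pi / 2) + 2 * Real.pi = 3 * Real.pi / 2 := by ring
    rw [e1, e2] at h2
    exact h2
  rw [h1, ← intervalIntegral.integral_add_adjacent_intervals (b := Real.pi / 2)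
    (hc.intervalIntegrable _ _) (hc.intervalIntegrable _ _)]
  congr 1
  have h3 := intervalIntegral.integral_comp_sub_left (a := -(Real.pi / 2)) (b := Real.pi / 2)
    (fun φ => dn_RD_g f (n : ℝ) y φ) Real.pi
  have e1 : Real.pi - Real.pi / 2 = Real.pi / 2 := by ring
  have e2 : Real.pi - -(Real.pi / 2) = 3 * Real.pi / 2 := by ring
  rw [e1, e2] at h3
  rw [← h3]
  have h4 : ∀ φ : ℝ, dn_RD_g f (n : ℝ) y (Real.pi - φ) =
      c * (-1) ^ n * conj (dn_RD_g f (n : ℝ) (-conj y) φ) := by
    intro φ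
    simp only [dn_RD_g]
    have e1 : cexp (((Real.pi - φ : ℝ) : ℂ) * I) = -conj (cexp (φ * I)) := by
      rw [← Complex.exp_conj]
      push_cast
      rw [show ((Real.pi : ℂ) - φ) * I = Real.pi * I + -(φ * I) by ring, Complex.exp_add,
        Complex.exp_pi_mul_I, map_mul, Complex.conj_ofReal, Complex.conj_I]
      rw [show (φ : ℂ) * -I = -(φ * I) by ring]
      ring
    have e2 : y + -conj (cexp (φ * I)) = -conj (-conj y + cexp (φ * I)) := by
      rw [map_add, map_neg, Complex.conj_conj]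
      ring
    have e3 : cexp (-(((n : ℝ) : ℂ) * ((Real.pi - φ : ℝ) : ℂ)) * I) =
        (-1) ^ n * conj (cexp (-(((n : ℝ) : ℂ) * φ) * I)) := by
      rw [← Complex.exp_conj]
      have e4 : -(((n : ℝ) : ℂ) * ((Real.pi - φ : ℝ) : ℂ)) * I =
          (n : ℂ) * -(Real.pi * I) + (n : ℂ) * (φ * I) := by
        push_cast
        ring
      rw [e4, Complex.exp_add, Complex.exp_nat_mul, Complex.exp_neg, Complex.exp_pi_mul_I]
      have e5 : ((-1 : ℂ))⁻¹ = -1 := by norm_num
      rw [e5]
      congr 2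
      rw [map_mul, map_neg, map_mul, Complex.conj_ofReal, Complex.conj_ofReal, Complex.conj_I]
      push_cast
      ring
    rw [e1, e2, hs, e3, map_mul]
    ring
  rw [intervalIntegral.integral_congr (g := fun φ => c * (-1) ^ n *
    conj (dn_RD_g f (n : ℝ) (-conj y) φ)) (fun φ _ => h4 φ)]
  rw [intervalIntegral.integral_const_mul]
  congr 1
  simp only [intervalIntegral, integral_conj, map_sub]

private lemma dn_RD_BD (n : ℝ) (R : ℂ → ℂ) (θ : ℝ) (w : ℂ) :
    BD n R θ w = ∫ φ in (-θ)..θ, dn_RD_g (la n R) n w φ := rfl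

/-- upper bound for the integrand -/
private lemma dn_RD_up {ε N Y : ℝ} {R : ℂ → ℂ} (hε : 0 < ε) (hε1 : ε ≤ 1 / 100) (hN : 0 < N)
    (hY : 40 ≤ Y) (hR : Reg ε N 1 Y R) (hs : Sym (la N R)) {w : ℂ} (h1 : |w.re| ≤ 1 / 8)
    (h2 : |w.im| ≤ 1 / 8) {φ : ℝ} (hφ : |φ| ≤ Real.pi / 2) :
    ‖la N R (w + cexp (φ * I))‖ ≤ Real.exp (N * (w.re + 1) + 3 * ε * N) * ‖R (w + 1)‖ := by
  set v := cexp (φ * I) with hv
  have hvre : v.re = Real.cos φ := Complex.exp_ofReal_mul_I_re φ
  have hvim : v.im = Real.sin φ := Complex.exp_ofReal_mul_I_im φ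
  have hvn : ‖v‖ = 1 := Complex.norm_exp_ofReal_mul_I φ
  have hc0 : 0 ≤ v.re := by
    rw [hvre]
    exact Real.cos_nonneg_of_mem_Icc ⟨by linarith [(abs_le.1 hφ).1], (abs_le.1 hφ).2⟩
  have hc1 : v.re ≤ 1 := by rw [hvre]; exact Real.cos_le_one φ
  have hi : |v.im| ≤ 1 := by rw [hvim]; exact Real.abs_sin_le_one φ
  have a1 := abs_le.1 h1
  have a2 := abs_le.1 h2
  have a3 := abs_le.1 hi
  have hnorm : ∀ z : ℂ, ‖la N R z‖ = Real.exp (N * z.re) * ‖R z‖ := by
    intro z
    rw [la, norm_mul, Complex.norm_exp]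
    congr 2
    simp
  have hlin : ∀ z : ℂ, 0 ≤ z.re → z.re ≤ 2 → |z.im| ≤ 2 →
      ‖R z‖ ≤ Real.exp (ε * N * ‖z - (w + 1)‖) * ‖R (w + 1)‖ := by
    intro z hz1 hz2 hz3
    apply hR.lin (w + 1) z
    · simp only [add_re, one_re]; linarith [a1.1]
    · simp only [add_re, one_re]; linarith [a1.2]
    · simp only [add_im, one_im, add_zero]; linarith
    · exact hz1
    · linarith
    · linarith
  have hwn : ‖w‖ ≤ 1 / 4 := by
    have := Complex.norm_le_abs_re_add_abs_im w
    linarith
  have hεN : 0 < ε * N := by positivity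
  rcases le_or_gt 0 (w + v).re with hre | hre
  · rw [hnorm]
    have h3 := hlin (w + v) hre (by simp only [add_re]; linarith [a1.2]) (by
      simp only [add_im]
      exact abs_le.2 ⟨by linarith [a2.1, a3.1], by linarith [a2.2, a3.2]⟩)
    have h4 : ‖w + v - (w + 1)‖ ≤ 3 := by
      have : w + v - (w + 1) = v - 1 := by ring
      rw [this]
      calc ‖v - 1‖ ≤ ‖v‖ + ‖(1 : ℂ)‖ := norm_sub_le _ _
        _ ≤ 3 := by rw [hvn, norm_one]; norm_num
    calc Real.exp (N * (w + v).re) * ‖R (w + v)‖ ≤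
          Real.exp (N * (w + v).re) * (Real.exp (ε * N * ‖w + v - (w + 1)‖) * ‖R (w + 1)‖) :=
          mul_le_mul_of_nonneg_left h3 (Real.exp_pos _).le
      _ = Real.exp (N * (w + v).re + ε * N * ‖w + v - (w + 1)‖) * ‖R (w + 1)‖ := by
          rw [Real.exp_add]; ring
      _ ≤ _ := by
          apply mul_le_mul_of_nonneg_right _ (norm_nonneg _)
          apply Real.exp_le_exp.2
          have h5 : N * (w + v).re ≤ N * (w.re + 1) := by
            apply mul_le_mul_of_nonneg_left _ hN.le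
            simp only [add_re]
            linarith
          have h6 : ε * N * ‖w + v - (w + 1)‖ ≤ ε * N * 3 :=
            mul_le_mul_of_nonneg_left h4 hεN.le
          linarith
  · obtain ⟨c, hc, hsym⟩ := hs
    have h3 : ‖la N R (w + v)‖ = ‖la N R (-conj (w + v))‖ := by
      rw [hsym, norm_mul, hc, one_mul, Complex.norm_conj]
    rw [h3, hnorm]
    have hz1 : (-conj (w + v)).re = -(w + v).re := by simp
    have hz2 : (-conj (w + v)).im = (w + v).im := by simp [add_comm]
    have h5 := hlin (-conj (w + v)) (by rw [hz1]; linarith) (by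
      rw [hz1]
      simp only [add_re]
      linarith [a1.1]) (by
      rw [hz2]
      simp only [add_im]
      exact abs_le.2 ⟨by linarith [a2.1, a3.1], by linarith [a2.2, a3.2]⟩)
    have h6 : ‖-conj (w + v) - (w + 1)‖ ≤ 3 := by
      calc ‖-conj (w + v) - (w + 1)‖ ≤ ‖-conj (w + v)‖ + ‖w + 1‖ := norm_sub_le _ _
        _ ≤ (‖w‖ + ‖v‖) + (‖w‖ + ‖(1 : ℂ)‖) := by
            rw [norm_neg, Complex.norm_conj]
            exact add_le_add (norm_add_le _ _) (norm_add_le _ _)
        _ ≤ 3 := by rw [hvn, norm_one]; linarith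
    calc Real.exp (N * (-conj (w + v)).re) * ‖R (-conj (w + v))‖ ≤
          Real.exp (N * (-conj (w + v)).re) *
            (Real.exp (ε * N * ‖-conj (w + v) - (w + 1)‖) * ‖R (w + 1)‖) :=
          mul_le_mul_of_nonneg_left h5 (Real.exp_pos _).le
      _ = Real.exp (N * (-conj (w + v)).re + ε * N * ‖-conj (w + v) - (w + 1)‖) *
            ‖R (w + 1)‖ := by
          rw [Real.exp_add]; ring
      _ ≤ _ := by
          apply mul_le_mul_of_nonneg_right _ (norm_nonneg _)
          apply Real.exp_le_exp.2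
          have h7 : N * (-conj (w + v)).re ≤ N * (w.re + 1) := by
            apply mul_le_mul_of_nonneg_left _ hN.le
            rw [hz1]
            simp only [add_re]
            linarith [a1.1]
          have h8 : ε * N * ‖-conj (w + v) - (w + 1)‖ ≤ ε * N * 3 :=
            mul_le_mul_of_nonneg_left h6 hεN.le
          linarith

/-- `log (2 pi sqrt N)` is small -/
private lemma dn_RD_N : ∃ N₀ : ℝ, 1 ≤ N₀ ∧ ∀ N : ℝ, N₀ ≤ N →
    Real.log (2 * Real.sqrt N) ≤ N / 1000 ∧ Real.log Real.pi ≤ N / 1000 := by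
  refine ⟨10 ^ 8, by norm_num, fun N hN => ?_⟩
  have hN0 : (0 : ℝ) < N := by linarith
  constructor
  · have h1 : Real.log (2 * Real.sqrt N) ≤ 2 * Real.sqrt N := by
      have := Real.log_le_sub_one_of_pos (show 0 < 2 * Real.sqrt N by positivity)
      linarith
    have h2 : Real.sqrt N * Real.sqrt N = N := Real.mul_self_sqrt hN0.le
    have h3 : 10 ^ 4 ≤ Real.sqrt N := by
      rw [Real.le_sqrt (by norm_num) hN0.le]
      linarith
    nlinarith
  · have h1 : Real.log Real.pi ≤ Real.pi := by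
      have := Real.log_le_sub_one_of_pos Real.pi_pos
      linarith
    have := Real.pi_le_four
    linarith

theorem p_RD (hfar : S_farD) (hlo : S_loD) (hHB : S_HB2) : S_RD := by
  obtain ⟨ε₁, hε₁, hfar⟩ := hfar
  obtain ⟨ε₂, N₂, hε₂, hN₂, hlo⟩ := hlo
  obtain ⟨N₃, hN₃, hlogN⟩ := dn_RD_N
  refine ⟨min ε₁ (min ε₂ (1 / 10000)), max (max N₂ N₃) 1000, by positivity,
    hN₂.trans ((le_max_left _ _).trans (le_max_left _ _)), ?_⟩
  intro n ε Y R hε hε0 hn hY hR hs
  have hεa : ε ≤ ε₁ := hε0.trans (min_le_left _ _)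
  have hεb : ε ≤ ε₂ := hε0.trans ((min_le_right _ _).trans (min_le_left _ _))
  have hεc : ε ≤ 1 / 10000 := hε0.trans ((min_le_right _ _).trans (min_le_right _ _))
  have hn2 : N₂ ≤ n := ((le_max_left _ _).trans (le_max_left _ _)).trans hn
  have hn3 : N₃ ≤ n := ((le_max_right _ _).trans (le_max_left _ _)).trans hn
  have hn4 : (1000 : ℝ) ≤ n := (le_max_right _ _).trans hn
  have hn0 : (0 : ℝ) < n := by linarith
  have hpi := Real.pi_pos
  have hb : (1 : ℝ) ≤ 1 := le_rfl
  have hY' : 40 * (1 : ℝ) ≤ Y := by linarith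
  obtain ⟨far1, far2, far3⟩ := hfar ε n 1 Y R hε hεa hn0 hb hY' hR
  have hlad : Differentiable ℂ (la n R) := dn_RD_la hR.diff
  obtain ⟨c, hc, hsym⟩ := hs
  have hs : Sym (la n R) := ⟨c, hc, hsym⟩
  obtain ⟨hlog1, hlog2⟩ := hlogN n hn3
  have hne1 : R 1 ≠ 0 := by
    apply hR.ne
    · norm_num
    · simp only [one_re]; linarith
    · norm_num
  have hR1 := norm_pos_iff.2 hne1
  obtain ⟨S, hS, hcard⟩ := hHB (1 / 8) (1 / 500) n (n + Real.log ‖R 1‖)
    (fun w => ∫ φ in (-(Real.pi / 2))..(Real.pi / 2), dn_RD_g (la n R) n w φ) (c * (-1) ^ n)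
    (by norm_num) hn0 (by norm_num) (by norm_num)
    (by rw [norm_mul, hc, norm_pow, norm_neg, norm_one, one_pow, one_mul])
    (dn_RD_diff hlad n (Real.pi / 2)).differentiableOn (by
      intro w hw
      rw [mem_ball_zero_iff] at hw
      have w1 : |w.re| ≤ 1 / 8 := (Complex.abs_re_le_norm w).trans hw.le
      have w2 : |w.im| ≤ 1 / 8 := (Complex.abs_im_le_norm w).trans hw.le
      have a1 := abs_le.1 w1
      have hF := far1 rfl hs w w1 w2
      have hlow := hlo ε n 1 Y (Real.pi / 2) R w hε hεb hn2 hb hY' hR (by linarith [a1.1])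
        (by linarith [a1.2]) (by linarith) le_rfl (by linarith) hF
      rw [dn_RD_BD] at hlow
      have hup : ‖∫ φ in (-(Real.pi / 2))..(Real.pi / 2), dn_RD_g (la n R) n w φ‖ ≤
          Real.exp (n * (w.re + 1) + 3 * ε * n) * ‖R (w + 1)‖ * Real.pi := by
        have h1 := intervalIntegral.norm_integral_le_of_norm_le_const (a := -(Real.pi / 2))
          (b := Real.pi / 2) (f := dn_RD_g (la n R) n w)
          (C := Real.exp (n * (w.re + 1) + 3 * ε * n) * ‖R (w + 1)‖) (by
            intro φ hφ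
            rw [Set.uIoc_of_le (by linarith)] at hφ
            have h2 : |φ| ≤ Real.pi / 2 := abs_le.2 ⟨hφ.1.le, hφ.2⟩
            rw [dn_RD_g, norm_mul, Complex.norm_exp]
            have h3 : (-(((n : ℝ) : ℂ) * φ) * I).re = 0 := by simp
            rw [h3, Real.exp_zero, mul_one]
            exact dn_RD_up hε (by linarith) hn0 (by linarith) hR hs w1 w2 h2)
        have h4 : |Real.pi / 2 - -(Real.pi / 2)| = Real.pi := by
          rw [abs_of_pos (by linarith)]
          ring
        rw [h4] at h1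
        exact h1
      have hnw : R (w + 1) ≠ 0 := by
        apply hR.ne
        · simp only [add_re, one_re]; linarith [a1.1]
        · simp only [add_re, one_re]; linarith [a1.2]
        · simp only [add_im, one_im, add_zero]; linarith
      have hRw := norm_pos_iff.2 hnw
      set Bw := ∫ φ in (-(Real.pi / 2))..(Real.pi / 2), dn_RD_g (la n R) n w φ with hBw
      have hBpos : 0 < ‖Bw‖ := by
        refine lt_of_lt_of_le ?_ hlow
        positivity
      refine ⟨norm_pos_iff.1 hBpos, ?_⟩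
      -- comparison of `R (w + 1)` and `R 1`
      have hr1 : Real.log ‖R 1‖ ≤ ε * n / 8 + Real.log ‖R (w + 1)‖ := by
        have h1 := hR.lin (w + 1) 1 (by simp only [add_re, one_re]; linarith [a1.1])
          (by simp only [add_re, one_re]; linarith [a1.2])
          (by simp only [add_im, one_im, add_zero]; linarith)
          (by norm_num) (by simp only [one_re]; linarith) (by norm_num)
        have h2 := Real.log_le_log hR1 h1
        rw [Real.log_mul (Real.exp_pos _).ne' hRw.ne', Real.log_exp] at h2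
        have h3 : ‖(1 : ℂ) - (w + 1)‖ ≤ 1 / 8 := by
          have : (1 : ℂ) - (w + 1) = -w := by ring
          rw [this, norm_neg]
          exact hw.le
        have h4 : ε * n * ‖(1 : ℂ) - (w + 1)‖ ≤ ε * n * (1 / 8) :=
          mul_le_mul_of_nonneg_left h3 (by positivity)
        linarith
      have hr2 : Real.log ‖R (w + 1)‖ ≤ ε * n / 8 + Real.log ‖R 1‖ := by
        have h1 := hR.lin 1 (w + 1) (by norm_num) (by simp only [one_re]; linarith)
          (by norm_num) (by simp only [add_re, one_re]; linarith [a1.1])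
          (by simp only [add_re, one_re]; linarith [a1.2])
          (by simp only [add_im, one_im, add_zero]; linarith)
        have h2 := Real.log_le_log hRw h1
        rw [Real.log_mul (Real.exp_pos _).ne' hR1.ne', Real.log_exp] at h2
        have h3 : ‖w + 1 - (1 : ℂ)‖ ≤ 1 / 8 := by
          have : w + 1 - (1 : ℂ) = w := by ring
          rw [this]
          exact hw.le
        have h4 : ε * n * ‖w + 1 - (1 : ℂ)‖ ≤ ε * n * (1 / 8) :=
          mul_le_mul_of_nonneg_left h3 (by positivity)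
        linarith
      have hu := Real.log_le_log hBpos hup
      rw [Real.log_mul (by positivity) hpi.ne', Real.log_mul (Real.exp_pos _).ne' hRw.ne',
        Real.log_exp] at hu
      have hsq : 0 < 2 * Real.sqrt n := by positivity
      have hl := Real.log_le_log (by positivity) hlow
      rw [Real.log_div (by positivity) hsq.ne', Real.log_mul (Real.exp_pos _).ne' hRw.ne',
        Real.log_exp] at hl
      have hεn : ε * n ≤ n / 10000 := by nlinarith
      rw [abs_le]
      constructor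
      · linarith
      · linarith)
  refine ⟨S, fun τ hτ => ?_, ?_⟩
  · obtain ⟨h1, h2⟩ := hS τ hτ
    refine ⟨by linarith, ?_⟩
    rw [dn_RD_cauchy hlad, dn_RD_split hlad.continuous n hsym]
    have e : -conj ((τ : ℂ) * I) = τ * I := by simp
    rw [e, h2, mul_zero]
  · refine le_trans ?_ hcard
    linarith

end Pool.Agent.Lib.MP_cd509c_nt.DN
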