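import Pool.Agent.Lib.MP_cd509c_nt.DN.Defs

/-!
# Piece ZD: growth of the derivatives, for the local zero count
-/

set_option autoImplicit false

namespace Pool.Agent.Lib.MP_cd509c_nt.DN

open Complex ComplexConjugate MeasureTheory Nat

private lemma dn_ZD_circle {f : ℂ → ℂ} (hf : Differentiable ℂ f) (n : ℕ) (w : ℂ) :
    iteratedDeriv n f w = ((n ! : ℝ) / (2 * Real.pi) : ℝ) *
      ∫ t in (-Real.pi)..Real.pi, f (w + cexp (t * I)) * cexp (-(((n : ℝ) : ℂ) * t) * I) := by
  rw [iteratedDeriv_circle hf w one_pos n]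
  congr 1
  congr 1
  funext t
  have h1 : ((1 : ℝ) : ℂ) * cexp (I * t) = cexp (t * I) := by
    rw [mul_comm I, ofReal_one, one_mul]
  rw [h1, ← Complex.exp_nat_mul, ← Complex.exp_neg]
  congr 2
  push_cast
  ring

private lemma dn_ZD_norm_la (N : ℝ) (R : ℂ → ℂ) (u : ℂ) :
    ‖la N R u‖ = Real.exp (N * u.re) * ‖R u‖ := by
  rw [la, norm_mul, Complex.norm_exp]
  simp

private lemma dn_ZD_norm_le (z : ℂ) : ‖z‖ ≤ |z.re| + |z.im| := Complex.norm_le_abs_re_add_abs_im z

/-- bound of the function in the right half plane -/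
private lemma dn_ZD_right {ε N b Y : ℝ} {R : ℂ → ℂ} (hε1 : ε ≤ 1) (hN : 0 < N)
    (hb : 1 ≤ b) (hY : 40 * b ≤ Y) (hR : Reg ε N b Y R) (u : ℂ) (h0 : 0 ≤ u.re)
    (h1 : u.re ≤ 19 * b) (h2 : |u.im| ≤ 17 * b) :
    ‖la N R u‖ ≤ Real.exp (59 * N * b) * ‖R ((2 * b : ℝ) + 1)‖ := by
  have hlin := hR.lin (((2 * b : ℝ) : ℂ) + 1) u (by simp; linarith) (by simp; linarith)
    (by simp; linarith) h0 (by linarith) (by linarith)
  have hd : ‖u - (((2 * b : ℝ) : ℂ) + 1)‖ ≤ 40 * b := by
    refine (dn_ZD_norm_le _).trans ?_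
    have e1 : (u - (((2 * b : ℝ) : ℂ) + 1)).re = u.re - (2 * b + 1) := by simp
    have e2 : (u - (((2 * b : ℝ) : ℂ) + 1)).im = u.im := by simp
    rw [e1, e2]
    have : |u.re - (2 * b + 1)| ≤ 19 * b := by
      rw [abs_le]
      constructor <;> linarith
    linarith
  rw [dn_ZD_norm_la]
  have h3 : Real.exp (N * u.re) ≤ Real.exp (19 * N * b) := by
    apply Real.exp_le_exp.2
    nlinarith
  have h4 : Real.exp (ε * N * ‖u - (((2 * b : ℝ) : ℂ) + 1)‖) ≤ Real.exp (40 * N * b) := by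
    apply Real.exp_le_exp.2
    calc ε * N * ‖u - (((2 * b : ℝ) : ℂ) + 1)‖ ≤ 1 * N * (40 * b) := by gcongr
      _ = 40 * N * b := by ring
  calc Real.exp (N * u.re) * ‖R u‖ ≤ Real.exp (19 * N * b) *
        (Real.exp (40 * N * b) * ‖R ((2 * b : ℝ) + 1)‖) := by
        refine mul_le_mul h3 (hlin.trans (mul_le_mul_of_nonneg_right h4 (norm_nonneg _)))
          (norm_nonneg _) (Real.exp_pos _).le
    _ = Real.exp (59 * N * b) * ‖R ((2 * b : ℝ) + 1)‖ := by
        rw [← mul_assoc, ← Real.exp_add]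
        congr 2
        ring

/-- bound of the function in the disc -/
private lemma dn_ZD_disc {ε N b Y : ℝ} {R : ℂ → ℂ} (hε1 : ε ≤ 1) (hN : 0 < N)
    (hb : 1 ≤ b) (hY : 40 * b ≤ Y) (hR : Reg ε N b Y R) (hS : Sym (la N R)) (u : ℂ)
    (hu : ‖u - ((2 * b : ℝ) : ℂ)‖ ≤ 17 * b) :
    ‖la N R u‖ ≤ Real.exp (59 * N * b) * ‖R ((2 * b : ℝ) + 1)‖ := by
  have hre : |u.re - 2 * b| ≤ 17 * b := by
    have := Complex.abs_re_le_norm (u - ((2 * b : ℝ) : ℂ))
    have e1 : (u - ((2 * b : ℝ) : ℂ)).re = u.re - 2 * b := by simp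
    rw [e1] at this
    linarith
  have him : |u.im| ≤ 17 * b := by
    have := Complex.abs_im_le_norm (u - ((2 * b : ℝ) : ℂ))
    have e1 : (u - ((2 * b : ℝ) : ℂ)).im = u.im := by simp
    rw [e1] at this
    linarith
  rw [abs_le] at hre
  rcases le_or_gt 0 u.re with h0 | h0
  · exact dn_ZD_right hε1 hN hb hY hR u h0 (by linarith) him
  · obtain ⟨c, hc, hs⟩ := hS
    have h1 : ‖la N R (-conj u)‖ = ‖la N R u‖ := by
      rw [hs u, norm_mul, hc, one_mul, RCLike.norm_conj]
    rw [← h1]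
    apply dn_ZD_right hε1 hN hb hY hR
    · simp only [Complex.neg_re, Complex.conj_re]
      linarith
    · simp only [Complex.neg_re, Complex.conj_re]
      linarith
    · simp only [Complex.neg_im, Complex.conj_im, neg_neg]
      exact him

theorem p_ZD (h1 : S_farD) (h2 : S_loD) : S_ZD := by
  obtain ⟨ε₁, hε₁, hfar⟩ := h1
  obtain ⟨ε₂, N₂, hε₂, hN₂, hlo⟩ := h2
  refine ⟨min (min ε₁ ε₂) 1, N₂, 100, lt_min (lt_min hε₁ hε₂) one_pos, hN₂, by norm_num, ?_⟩
  intro n ε b Y R hε hεm hn hb hY hR hS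
  have hεa : ε ≤ ε₁ := hεm.trans ((min_le_left _ _).trans (min_le_left _ _))
  have hεb : ε ≤ ε₂ := hεm.trans ((min_le_left _ _).trans (min_le_right _ _))
  have hεc : ε ≤ 1 := hεm.trans (min_le_right _ _)
  have hn1 : (1 : ℝ) ≤ n := hN₂.trans hn
  have hn0 : (0 : ℝ) < n := by linarith
  have hla : Differentiable ℂ (la n R) := by
    have h3 : Differentiable ℂ fun z : ℂ => cexp (((n : ℝ) : ℂ) * z) :=
      (differentiable_id.const_mul _).cexp
    exact h3.mul hR.diff
  have hF := (hfar ε n b Y R hε hεa hn0 hb hY hR).2.2 (2 * b) (by linarith) (by linarith)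
    (by linarith)
  have hL := hlo ε n b Y Real.pi R ((2 * b : ℝ) : ℂ) hε hεb hn hb hY hR
    (by rw [ofReal_re]; linarith) (by rw [ofReal_re]; linarith)
    (by rw [ofReal_im, abs_zero]; linarith) (by linarith [Real.pi_pos]) le_rfl hF
  rw [ofReal_re] at hL
  set M : ℝ := ‖R (((2 * b : ℝ) : ℂ) + 1)‖ with hM
  have hMpos : 0 < M := by
    rw [hM, norm_pos_iff]
    apply hR.ne
    · simp; linarith
    · simp; linarith
    · simp; linarith
  have hsq : 0 < Real.sqrt n := Real.sqrt_pos.2 hn0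
  have hfac : (0 : ℝ) < (n ! : ℝ) := by exact_mod_cast Nat.factorial_pos n
  -- the derivative at the centre
  have hcen : ‖iteratedDeriv n (la n R) ((2 * b : ℝ) : ℂ)‖ =
      (n ! : ℝ) / (2 * Real.pi) * ‖BD n R Real.pi ((2 * b : ℝ) : ℂ)‖ := by
    rw [dn_ZD_circle hla n, norm_mul, Complex.norm_real, Real.norm_of_nonneg (by positivity)]
    rfl
  have hlow : (n ! : ℝ) / (2 * Real.pi) *
      (Real.exp (n * (2 * b + 1) - 5 * ε * n) * M / (2 * Real.sqrt n)) ≤
      ‖iteratedDeriv n (la n R) ((2 * b : ℝ) : ℂ)‖ := by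
    rw [hcen]
    exact mul_le_mul_of_nonneg_left hL (by positivity)
  have hlowpos : 0 < (n ! : ℝ) / (2 * Real.pi) *
      (Real.exp (n * (2 * b + 1) - 5 * ε * n) * M / (2 * Real.sqrt n)) := by positivity
  refine ⟨?_, ?_⟩
  · intro h0
    rw [h0, norm_zero] at hlow
    linarith
  · intro w hw
    have hup : ‖iteratedDeriv n (la n R) w‖ ≤ (n ! : ℝ) * (Real.exp (59 * n * b) * M) / 1 ^ n := by
      apply Complex.norm_iteratedDeriv_le_of_forall_mem_sphere_norm_le n one_pos
        (hla.diffContOnCl)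
      intro z hz
      rw [mem_sphere_iff_norm] at hz
      apply dn_ZD_disc hεc hn0 hb hY hR hS
      calc ‖z - ((2 * b : ℝ) : ℂ)‖ = ‖(z - w) + (w - ((2 * b : ℝ) : ℂ))‖ := by ring_nf
        _ ≤ ‖z - w‖ + ‖w - ((2 * b : ℝ) : ℂ)‖ := norm_add_le _ _
        _ ≤ 17 * b := by rw [hz]; linarith
    rw [one_pow, div_one] at hup
    refine hup.trans (le_trans ?_ (mul_le_mul_of_nonneg_left hlow (Real.exp_pos _).le))
    -- numerical comparison
    have hsn : Real.sqrt n ≤ Real.exp n := by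
      have h5 : Real.sqrt n ≤ n := by
        rw [Real.sqrt_le_left (by linarith)]
        nlinarith
      have h6 : (n : ℝ) ≤ Real.exp n := by
        have := Real.add_one_le_exp (n : ℝ)
        linarith
      exact h5.trans h6
    have hpi : 4 * Real.pi ≤ Real.exp 3 := by
      have h5 : (2.7182818283 : ℝ) < Real.exp 1 := Real.exp_one_gt_d9
      have h6 : Real.exp 3 = Real.exp 1 ^ 3 := by
        rw [← Real.exp_nat_mul]
        norm_num
      have h7 : (2.7 : ℝ) ^ 3 ≤ Real.exp 1 ^ 3 := by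
        apply pow_le_pow_left₀ (by norm_num)
        linarith
      have h8 := Real.pi_lt_d2
      rw [h6]
      norm_num at h7 h8 ⊢
      linarith
    have hkey : 4 * Real.pi * Real.sqrt n * Real.exp (59 * n * b) ≤
        Real.exp (100 * n * b) * Real.exp (n * (2 * b + 1) - 5 * ε * n) := by
      calc 4 * Real.pi * Real.sqrt n * Real.exp (59 * n * b) ≤
            Real.exp 3 * Real.exp n * Real.exp (59 * n * b) := by gcongr
        _ = Real.exp (3 + n + 59 * n * b) := by rw [← Real.exp_add, ← Real.exp_add]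
        _ ≤ Real.exp (100 * n * b + (n * (2 * b + 1) - 5 * ε * n)) := by
            apply Real.exp_le_exp.2
            have h9 : (n : ℝ) ≤ n * b := by nlinarith
            have h10 : ε * n ≤ n := by nlinarith
            nlinarith
        _ = _ := by rw [Real.exp_add]
    have hrw : Real.exp (100 * n * b) * ((n ! : ℝ) / (2 * Real.pi) *
        (Real.exp (n * (2 * b + 1) - 5 * ε * n) * M / (2 * Real.sqrt n))) =
        (n ! : ℝ) * M * ((Real.exp (100 * n * b) * Real.exp (n * (2 * b + 1) - 5 * ε * n)) /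
          (4 * Real.pi * Real.sqrt n)) := by
      field_simp
      ring
    rw [hrw]
    have h11 : Real.exp (59 * n * b) ≤ (Real.exp (100 * n * b) *
        Real.exp (n * (2 * b + 1) - 5 * ε * n)) / (4 * Real.pi * Real.sqrt n) := by
      rw [le_div_iff₀ (by positivity)]
      linarith
    calc (n ! : ℝ) * (Real.exp (59 * n * b) * M) = (n ! : ℝ) * M * Real.exp (59 * n * b) := by ring
      _ ≤ _ := mul_le_mul_of_nonneg_left h11 (by positivity)

end Pool.Agent.Lib.MP_cd509c_nt.DN
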