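import Pool.Agent.Lib.MP_cd509c_nt.DN.Defs

/-!
# Project DN, piece ZH: heat flow, growth for the zero count
-/

set_option autoImplicit false

namespace Pool.Agent.Lib.MP_cd509c_nt.DN

open Complex ComplexConjugate MeasureTheory

lemma dn_ZH_la (N : ℝ) (R : ℂ → ℂ) (z : ℂ) : ‖la N R z‖ = Real.exp (N * z.re) * ‖R z‖ := by
  unfold la
  rw [norm_mul, Complex.norm_exp]
  congr 2
  simp

/-- bound in the closed right half plane -/
lemma dn_ZH_right {N ε b Y : ℝ} {R : ℂ → ℂ} (hε : 0 < ε) (hε1 : ε ≤ 1 / 100) (hN : 0 < N)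
    (hb : 1 ≤ b) (hY : 40 * b ≤ Y) (hR : Reg ε N b Y R) (z : ℂ) (v : ℝ) (hz : 0 ≤ z.re)
    (hzi : |z.im| ≤ 16 * b) (hzr : z.re ≤ |v| + 18 * b) :
    ‖la N R z‖ ≤ Real.exp (N * (20 * b + v ^ 2 / 4)) * ‖R (((2 * b : ℝ) : ℂ) + 1)‖ := by
  rw [dn_ZH_la]
  set w₀ : ℂ := ((2 * b : ℝ) : ℂ) + 1 with hw₀
  have hw₀re : w₀.re = 2 * b + 1 := by rw [hw₀]; simp
  have hw₀im : w₀.im = 0 := by rw [hw₀]; simp
  have hdist : ‖z - w₀‖ ≤ |v| + 37 * b := by
    have h1 := Complex.norm_le_abs_re_add_abs_im (z - w₀)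
    rw [sub_re, sub_im, hw₀re, hw₀im, sub_zero] at h1
    have h2 : |z.re - (2 * b + 1)| ≤ |v| + 21 * b := by
      rw [abs_le]
      constructor
      · have := abs_nonneg v
        linarith
      · linarith
    linarith
  have hv0 := abs_nonneg v
  have hsq : |v| ^ 2 = v ^ 2 := sq_abs v
  rcases le_total z.re Y with hzY | hzY
  · have h1 := hR.lin w₀ z (by rw [hw₀re]; linarith) (by rw [hw₀re]; linarith)
      (by rw [hw₀im, abs_zero]; linarith) hz hzY (by linarith)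
    calc Real.exp (N * z.re) * ‖R z‖
        ≤ Real.exp (N * z.re) * (Real.exp (ε * N * ‖z - w₀‖) * ‖R w₀‖) := by gcongr
      _ = Real.exp (N * z.re + ε * N * ‖z - w₀‖) * ‖R w₀‖ := by rw [Real.exp_add]; ring
      _ ≤ Real.exp (N * (20 * b + v ^ 2 / 4)) * ‖R w₀‖ := by
        gcongr
        have h2 : ε * N * ‖z - w₀‖ ≤ N * (1 / 100 * (|v| + 37 * b)) := by
          calc ε * N * ‖z - w₀‖ = N * (ε * ‖z - w₀‖) := by ring
            _ ≤ N * (1 / 100 * (|v| + 37 * b)) := by gcongr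
        have h3 : z.re + 1 / 100 * (|v| + 37 * b) ≤ 20 * b + v ^ 2 / 4 := by
          nlinarith [sq_nonneg (|v| - 2.02)]
        calc N * z.re + ε * N * ‖z - w₀‖ ≤ N * z.re + N * (1 / 100 * (|v| + 37 * b)) := by linarith
          _ = N * (z.re + 1 / 100 * (|v| + 37 * b)) := by ring
          _ ≤ _ := by gcongr
  · have h1 := hR.tail w₀ z (by rw [hw₀re]; linarith) (by rw [hw₀re]; linarith)
      (by rw [hw₀im, abs_zero]; linarith) hzY (by linarith)
    have hv22 : 22 * b ≤ |v| := by linarith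
    calc Real.exp (N * z.re) * ‖R z‖
        ≤ Real.exp (N * z.re) * (Real.exp (ε * N * ‖z - w₀‖ ^ 2) * ‖R w₀‖) := by gcongr
      _ = Real.exp (N * z.re + ε * N * ‖z - w₀‖ ^ 2) * ‖R w₀‖ := by rw [Real.exp_add]; ring
      _ ≤ Real.exp (N * (20 * b + v ^ 2 / 4)) * ‖R w₀‖ := by
        gcongr
        have h2 : ε * N * ‖z - w₀‖ ^ 2 ≤ N * (1 / 100 * (|v| + 37 * b) ^ 2) := by
          calc ε * N * ‖z - w₀‖ ^ 2 = N * (ε * ‖z - w₀‖ ^ 2) := by ring
            _ ≤ N * (1 / 100 * (|v| + 37 * b) ^ 2) := by gcongr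
        have h3 : z.re + 1 / 100 * (|v| + 37 * b) ^ 2 ≤ 20 * b + v ^ 2 / 4 := by
          have h4 : 37 * b ≤ 37 / 22 * |v| := by linarith
          have h5 : (|v| + 37 * b) ^ 2 ≤ (|v| + 37 / 22 * |v|) ^ 2 := by
            apply pow_le_pow_left₀ (by linarith)
            linarith
          have h6 : (|v| + 37 / 22 * |v|) ^ 2 = (59 / 22) ^ 2 * v ^ 2 := by
            rw [← hsq]; ring
          rw [h6] at h5
          have h7 : |v| ≤ v ^ 2 / 22 := by
            rw [← hsq]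
            nlinarith
          nlinarith
        calc N * z.re + ε * N * ‖z - w₀‖ ^ 2
            ≤ N * z.re + N * (1 / 100 * (|v| + 37 * b) ^ 2) := by linarith
          _ = N * (z.re + 1 / 100 * (|v| + 37 * b) ^ 2) := by ring
          _ ≤ _ := by gcongr

/-- bound on the whole line -/
lemma dn_ZH_point {N ε b Y : ℝ} {R : ℂ → ℂ} (hε : 0 < ε) (hε1 : ε ≤ 1 / 100) (hN : 0 < N)
    (hb : 1 ≤ b) (hY : 40 * b ≤ Y) (hR : Reg ε N b Y R) (hS : Sym (la N R)) (w : ℂ)
    (hw : ‖w - ((2 * b : ℝ) : ℂ)‖ ≤ 16 * b) (v : ℝ) :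
    ‖la N R (w + v) * cexp (-((N : ℂ) * (v : ℂ) ^ 2 / 2))‖ ≤
      Real.exp (20 * N * b) * ‖R (((2 * b : ℝ) : ℂ) + 1)‖ * Real.exp (-(N / 4) * v ^ 2) := by
  have hwre : |w.re - 2 * b| ≤ 16 * b := by
    have h1 := Complex.abs_re_le_norm (w - ((2 * b : ℝ) : ℂ))
    rw [sub_re, ofReal_re] at h1
    exact h1.trans hw
  have hwim : |w.im| ≤ 16 * b := by
    have h1 := Complex.abs_im_le_norm (w - ((2 * b : ℝ) : ℂ))
    rw [sub_im, ofReal_im, sub_zero] at h1
    exact h1.trans hw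
  rw [abs_le] at hwre
  have hkey : ‖la N R (w + v)‖ ≤
      Real.exp (N * (20 * b + v ^ 2 / 4)) * ‖R (((2 * b : ℝ) : ℂ) + 1)‖ := by
    have hre : (w + (v : ℂ)).re = w.re + v := by simp
    have him : (w + (v : ℂ)).im = w.im := by simp
    have hv1 := le_abs_self v
    have hv2 := neg_abs_le v
    rcases le_total 0 (w + (v : ℂ)).re with h0 | h0
    · apply dn_ZH_right hε hε1 hN hb hY hR _ _ h0
      · rw [him]; exact hwim
      · rw [hre]; linarith
    · obtain ⟨c, hc, hsym⟩ := hS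
      have h1 : ‖la N R (w + v)‖ = ‖la N R (-conj (w + v))‖ := by
        rw [hsym, norm_mul, hc, one_mul, Complex.norm_conj]
      rw [h1]
      apply dn_ZH_right hε hε1 hN hb hY hR
      · rw [neg_re, conj_re]; linarith
      · rw [neg_im, conj_im, neg_neg, him]; exact hwim
      · rw [neg_re, conj_re, hre]; linarith
  rw [norm_mul, Complex.norm_exp]
  have h2 : (-((N : ℂ) * (v : ℂ) ^ 2 / 2)).re = -(N * v ^ 2 / 2) := by
    rw [neg_re]
    congr 1
    rw [← ofReal_pow, ← ofReal_mul]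
    have : ((N * v ^ 2 : ℝ) : ℂ) / 2 = ((N * v ^ 2 / 2 : ℝ) : ℂ) := by push_cast; ring
    rw [this, ofReal_re]
  rw [h2]
  calc ‖la N R (w + v)‖ * Real.exp (-(N * v ^ 2 / 2))
      ≤ Real.exp (N * (20 * b + v ^ 2 / 4)) * ‖R (((2 * b : ℝ) : ℂ) + 1)‖ *
        Real.exp (-(N * v ^ 2 / 2)) := by gcongr
    _ = (Real.exp (N * (20 * b + v ^ 2 / 4)) * Real.exp (-(N * v ^ 2 / 2))) *
        ‖R (((2 * b : ℝ) : ℂ) + 1)‖ := by ring
    _ = (Real.exp (20 * N * b) * Real.exp (-(N / 4) * v ^ 2)) *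
        ‖R (((2 * b : ℝ) : ℂ) + 1)‖ := by
      rw [← Real.exp_add, ← Real.exp_add]
      congr 2
      ring
    _ = _ := by ring

theorem p_ZH (h1 : S_splitH) (h2 : S_domH) (h3 : S_loH) : S_ZH := by
  obtain ⟨ε₁, N₁, hε₁, hN₁, hdom⟩ := h2
  obtain ⟨ε₂, N₂, hε₂, hN₂, hlo⟩ := h3
  refine ⟨min (1 / 100) (min ε₁ ε₂), max N₁ N₂, 24, ?_, le_max_of_le_left hN₁, by norm_num, ?_⟩
  · exact lt_min (by norm_num) (lt_min hε₁ hε₂)
  intro N ε b Y R hε hεle hN hb hY hR hS
  have hε100 : ε ≤ 1 / 100 := hεle.trans (min_le_left _ _)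
  have hεa : ε ≤ ε₁ := hεle.trans ((min_le_right _ _).trans (min_le_left _ _))
  have hεb : ε ≤ ε₂ := hεle.trans ((min_le_right _ _).trans (min_le_right _ _))
  have hNa : N₁ ≤ N := (le_max_left _ _).trans hN
  have hNb : N₂ ≤ N := (le_max_right _ _).trans hN
  have hN1 : 1 ≤ N := hN₁.trans hNa
  have hN0 : 0 < N := by linarith
  -- lower bound at `2 b`
  obtain ⟨⟨c, hc, hsplit⟩, -⟩ := h1 N ε b Y R hN0 hε hε100 hb hY hR hS
  have hd := hdom N ε b Y (2 * b) R hε hεa hNa hb hY hR (by linarith) (by linarith) (by linarith)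
  have hl := hlo ε N b Y R ((2 * b : ℝ) : ℂ) hε hεb hNb hb hY hR
    (by rw [ofReal_re]; linarith) (by rw [ofReal_re]; linarith)
    (by rw [ofReal_im, abs_zero]; norm_num)
  rw [ofReal_re] at hl
  set B : ℝ := ‖R (((2 * b : ℝ) : ℂ) + 1)‖ with hB
  have hBpos : 0 < B := by
    rw [hB, norm_pos_iff]
    apply hR.ne
    · simp; linarith
    · simp; linarith
    · simp; linarith
  have hsq1 : 1 ≤ Real.sqrt N := Real.one_le_sqrt.mpr hN1
  have hF : B / (4 * Real.sqrt N) ≤ ‖FH N R ((2 * b : ℝ) : ℂ)‖ := by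
    have h4 : ‖BH N R ((2 * b : ℝ) : ℂ)‖ / 2 ≤ ‖FH N R ((2 * b : ℝ) : ℂ)‖ := by
      rw [hsplit (2 * b)]
      have h5 := norm_sub_le_norm_add (BH N R ((2 * b : ℝ) : ℂ))
        (c * conj (BH N R (-((2 * b : ℝ) : ℂ))))
      rw [norm_mul, hc, one_mul, Complex.norm_conj] at h5
      linarith
    have h6 : B / (2 * Real.sqrt N) ≤ ‖BH N R ((2 * b : ℝ) : ℂ)‖ := by
      refine le_trans ?_ hl
      gcongr
      have h7 : 1 ≤ Real.exp (N * (2 * b + 1 / 2) - 3 * ε * N) := by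
        apply Real.one_le_exp
        nlinarith
      nlinarith
    calc B / (4 * Real.sqrt N) = B / (2 * Real.sqrt N) / 2 := by
          field_simp
          norm_num
      _ ≤ ‖BH N R ((2 * b : ℝ) : ℂ)‖ / 2 := by linarith
      _ ≤ _ := h4
  have hFpos : 0 < B / (4 * Real.sqrt N) := by positivity
  refine ⟨fun h0 => ?_, ?_⟩
  · rw [h0, norm_zero] at hF
    linarith
  intro w hw
  -- upper bound
  have hint : Integrable fun v : ℝ => Real.exp (20 * N * b) * B * Real.exp (-(N / 4) * v ^ 2) :=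
    (integrable_exp_neg_mul_sq (by positivity)).const_mul _
  have hup : ‖FH N R w‖ ≤ Real.exp (20 * N * b) * B * 4 := by
    unfold FH
    refine (norm_integral_le_of_norm_le hint (Filter.Eventually.of_forall fun v =>
      dn_ZH_point hε hε100 hN0 hb hY hR hS w hw v)).trans ?_
    rw [integral_const_mul, integral_gaussian]
    gcongr
    rw [Real.sqrt_le_left (by norm_num)]
    rw [div_le_iff₀ (by positivity)]
    have := Real.pi_le_four
    nlinarith
  have hNb1 : 1 ≤ N * b := by nlinarith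
  have hsqN : Real.sqrt N ≤ Real.exp (N * b) := by
    calc Real.sqrt N ≤ N := by
          rw [Real.sqrt_le_left hN0.le]
          nlinarith
      _ ≤ N * b := by nlinarith
      _ ≤ Real.exp (N * b) := by linarith [Real.add_one_le_exp (N * b)]
  have h16 : (16 : ℝ) ≤ Real.exp (3 * (N * b)) := by
    have h8 : (16 : ℝ) ≤ Real.exp 3 := by
      have h9 := Real.exp_one_gt_d9
      have h10 : Real.exp 3 = Real.exp 1 ^ 3 := by
        rw [← Real.exp_nat_mul]
        norm_num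
      rw [h10]
      calc (16 : ℝ) ≤ 2.7182818283 ^ 3 := by norm_num
        _ ≤ Real.exp 1 ^ 3 := by gcongr
    exact h8.trans (Real.exp_le_exp.mpr (by linarith))
  calc ‖FH N R w‖ ≤ Real.exp (20 * N * b) * B * 4 := hup
    _ = Real.exp (20 * N * b) * (16 * Real.sqrt N) * (B / (4 * Real.sqrt N)) := by
      field_simp
      norm_num
    _ ≤ Real.exp (20 * N * b) * (Real.exp (3 * (N * b)) * Real.exp (N * b)) *
        ‖FH N R ((2 * b : ℝ) : ℂ)‖ := by gcongr
    _ = Real.exp (24 * N * b) * ‖FH N R ((2 * b : ℝ) : ℂ)‖ := by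
      rw [← Real.exp_add, ← Real.exp_add]
      congr 2
      ring

end Pool.Agent.Lib.MP_cd509c_nt.DN
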