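import Pool.Agent.Lib.MP_cd509c_nt.DN.Defs2

/-!
# Piece `blk1`: block bound for `U ≥ 1`
-/

set_option autoImplicit false

namespace Pool.Agent.Lib.MP_cd509c_nt.DN

open Complex ComplexConjugate MeasureTheory

private lemma dn_blk1_diff (W : ℝ → ℂ) (X : ℝ) :
    DifferentiableOn ℂ (PhiW W X) {z | 0 < z.im} := by
  intro z hz
  apply DifferentiableAt.differentiableWithinAt
  unfold PhiW
  apply DifferentiableAt.fun_sum
  intro b hb
  have hb1 : 1 ≤ b := (Finset.mem_Icc.1 hb).1
  have hb0 : (0 : ℝ) < b := by exact_mod_cast hb1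
  have him : 0 < ((b : ℂ) * z).im := by
    rw [← Complex.ofReal_natCast, Complex.im_ofReal_mul]
    exact mul_pos hb0 hz
  have h1 : DifferentiableAt ℂ (fun z : ℂ => (b : ℂ) * z) z := by fun_prop
  exact ((Dc_differentiableAt him).comp z h1).const_mul _

private lemma dn_blk1_per (W : ℝ → ℂ) (X : ℝ) {h : ℝ} (hh : 0 < h) :
    Function.Periodic (fun x : ℝ => ‖PhiW W X (x + h * I)‖ ^ 2) 1 := by
  intro x
  have : PhiW W X ((x + 1 : ℝ) + h * I) = PhiW W X (x + h * I) := by
    unfold PhiW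
    apply Finset.sum_congr rfl
    intro b hb
    have hb1 : 1 ≤ b := (Finset.mem_Icc.1 hb).1
    have hb0 : (0 : ℝ) < b := by exact_mod_cast hb1
    have him : 0 < ((b : ℂ) * (x + h * I)).im := by
      rw [← Complex.ofReal_natCast, Complex.im_ofReal_mul]
      apply mul_pos hb0
      simpa using hh
    have e : (b : ℂ) * (((x + 1 : ℝ) : ℂ) + h * I) = (b : ℂ) * (x + h * I) + (b : ℕ) := by
      push_cast; ring
    rw [e, Dc_add_nat b him]
  simp only [this]

private lemma dn_blk1_cont (W : ℝ → ℂ) (X : ℝ) {h : ℝ} (hh : 0 < h) :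
    Continuous (fun x : ℝ => ‖PhiW W X (x + h * I)‖ ^ 2) := by
  apply Continuous.pow
  apply Continuous.norm
  rw [← continuousOn_univ]
  apply (dn_blk1_diff W X).continuousOn.comp (by fun_prop)
  intro x _
  simpa using hh

/-- long intervals against periods -/
private lemma dn_blk1_long (g : ℝ → ℝ) (hg : Continuous g) (hp : Function.Periodic g 1)
    (h0 : ∀ x, 0 ≤ g x) (U : ℝ) (hU : 1 ≤ U) :
    ∫ x in (U / 2)..(3 * U), g x ≤ 7 / 2 * U * ∫ x in (0 : ℝ)..1, g x := by
  set n : ℕ := ⌈5 / 2 * U⌉₊ with hn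
  have hn1 : 5 / 2 * U ≤ n := Nat.le_ceil _
  have hn2 : (n : ℝ) < 5 / 2 * U + 1 := Nat.ceil_lt_add_one (by linarith)
  have hI : ∀ a b : ℝ, IntervalIntegrable g volume a b := fun a b => hg.intervalIntegrable a b
  have h1 : ∫ x in (U / 2)..(3 * U), g x ≤ ∫ x in (U / 2)..(U / 2 + n), g x := by
    apply intervalIntegral.integral_mono_interval le_rfl (by linarith) (by linarith)
    · exact Filter.Eventually.of_forall h0
    · exact hI _ _
  have h2 : ∫ x in (U / 2)..(U / 2 + n), g x = n * ∫ x in (0 : ℝ)..1, g x := by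
    have h3 : ∀ m : ℕ, ∫ x in (U / 2)..(U / 2 + m), g x = m * ∫ x in (0 : ℝ)..1, g x := by
      intro m
      induction m with
      | zero => simp
      | succ m ih =>
        have h4 : ∫ x in (U / 2)..(U / 2 + (m + 1 : ℕ)), g x =
            (∫ x in (U / 2)..(U / 2 + m), g x) +
              ∫ x in (U / 2 + m)..(U / 2 + m + 1), g x := by
          have e : U / 2 + ((m + 1 : ℕ) : ℝ) = U / 2 + m + 1 := by push_cast; ring
          rw [e, intervalIntegral.integral_add_adjacent_intervals (hI _ _) (hI _ _)]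
        have h5 := hp.intervalIntegral_add_eq (U / 2 + m) 0
        rw [zero_add] at h5
        rw [h4, ih, h5]
        push_cast
        ring
    exact h3 n
  have h6 : 0 ≤ ∫ x in (0 : ℝ)..1, g x :=
    intervalIntegral.integral_nonneg (by norm_num) fun x _ => h0 x
  calc ∫ x in (U / 2)..(3 * U), g x ≤ n * ∫ x in (0 : ℝ)..1, g x := h1.trans h2.le
    _ ≤ 7 / 2 * U * ∫ x in (0 : ℝ)..1, g x := by
      apply mul_le_mul_of_nonneg_right _ h6
      linarith

theorem p_blk1 (hpar : S_par) (hrh : S_rh) : S_blk1 := by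
  obtain ⟨C₀, hC₀, hrh⟩ := hrh
  intro A D hD0 hDs hDm
  refine ⟨C₀ * (15 / 4 * (7 / 2)), by positivity, ?_⟩
  intro X K U δ W hX hK hW hW0 hU hδ hδ4
  have hU0 : 0 < U := by linarith
  have hUδ : 0 < U * δ := mul_pos hU0 hδ
  set S : ℝ := ∑' k : ℕ, D X k * Real.exp (-(3 * k * U * δ)) with hS
  have hSs : Summable fun k : ℕ => D X k * Real.exp (-(3 * k * U * δ)) := by
    have := hDs X hX (3 * (U * δ)) (by positivity)
    refine this.congr fun k => ?_
    congr 2
    ring
  have hS0 : 0 ≤ S := tsum_nonneg fun k => mul_nonneg (hD0 X k) (Real.exp_pos _).le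
  have hmain : ∀ h ∈ Set.uIoc (U * δ / 4) (4 * U * δ),
      ‖∫ x in (U / 2)..(3 * U), ‖PhiW W X (x + h * I)‖ ^ 2‖ ≤ 7 / 2 * U * (K ^ 2 * S) := by
    intro h hh
    rw [Set.uIoc_of_le (by linarith)] at hh
    have hh0 : 0 < h := by linarith [hh.1]
    have h1 : 0 ≤ ∫ x in (U / 2)..(3 * U), ‖PhiW W X (x + h * I)‖ ^ 2 :=
      intervalIntegral.integral_nonneg (by linarith) fun x _ => by positivity
    rw [Real.norm_of_nonneg h1]
    refine (dn_blk1_long _ (dn_blk1_cont W X hh0) (dn_blk1_per W X hh0)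
      (fun x => by positivity) U hU).trans ?_
    apply mul_le_mul_of_nonneg_left _ (by positivity)
    obtain ⟨hs, he⟩ := hpar W X h hX hh0 hW0
    rw [he, hS, ← tsum_mul_left]
    apply hs.tsum_le_tsum _ (hSs.mul_left _)
    intro k
    rcases Nat.eq_zero_or_pos k with hk | hk
    · subst hk
      have : gW W X 0 = 0 := by simp [gW]
      rw [this]
      simp only [norm_zero, ne_eq, OfNat.ofNat_ne_zero, not_false_eq_true, zero_pow, zero_mul]
      have := hD0 X 0
      positivity
    · have h2 := hDm X K W hX hK hW k hk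
      have hk0 : (0 : ℝ) < k := by exact_mod_cast hk
      have h3 : Real.exp (-(4 * Real.pi * k * h)) ≤ Real.exp (-(3 * k * U * δ)) := by
        apply Real.exp_le_exp.2
        have hpi := Real.pi_gt_three
        have h4 : 3 * (k * (U * δ)) ≤ 4 * Real.pi * k * h := by
          have h5 : k * (U * δ / 4) ≤ k * h := mul_le_mul_of_nonneg_left hh.1.le hk0.le
          have h6 : 0 ≤ k * h := by positivity
          nlinarith
        linarith
      calc ‖gW W X k‖ ^ 2 * Real.exp (-(4 * Real.pi * k * h))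
          ≤ (K ^ 2 * D X k) * Real.exp (-(3 * k * U * δ)) :=
            mul_le_mul h2 h3 (Real.exp_pos _).le (by have := hD0 X k; positivity)
        _ = K ^ 2 * (D X k * Real.exp (-(3 * k * U * δ))) := by ring
  have h7 := hrh (PhiW W X) U δ (dn_blk1_diff W X) hU0 hδ hδ4
  refine h7.trans ?_
  have h8 := intervalIntegral.norm_integral_le_of_norm_le_const hmain
  have h9 : |4 * U * δ - U * δ / 4| = 15 / 4 * (U * δ) := by
    rw [abs_of_nonneg (by linarith)]; ring
  rw [h9] at h8
  have h10 := (le_abs_self _).trans h8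
  calc C₀ / (U * δ) * ∫ h in (U * δ / 4)..(4 * U * δ), ∫ x in (U / 2)..(3 * U),
        ‖PhiW W X (x + h * I)‖ ^ 2
      ≤ C₀ / (U * δ) * (7 / 2 * U * (K ^ 2 * S) * (15 / 4 * (U * δ))) := by
        apply mul_le_mul_of_nonneg_left h10 (by positivity)
    _ = C₀ * (15 / 4 * (7 / 2)) * K ^ 2 * U * S := by
        field_simp

end Pool.Agent.Lib.MP_cd509c_nt.DN
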