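import Pool.Agent.Lib.MP_cd509c_nt.DN.Defs2

/-!
# Piece blk2: block bound, `X^-2 ≤ U ≤ X`
-/

set_option autoImplicit false

namespace Pool.Agent.Lib.MP_cd509c_nt.DN

open Complex ComplexConjugate MeasureTheory

private lemma dn_blk2_bmp0 (x : ℝ) : 0 ≤ bmp x :=
  mul_nonneg (Real.smoothTransition.nonneg _) (Real.smoothTransition.nonneg _)

private lemma dn_blk2_bmp1 (x : ℝ) (h1 : 1 / 2 ≤ x) (h2 : x ≤ 3) : bmp x = 1 := by
  rw [bmp, Real.smoothTransition.one_of_one_le (by linarith),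
    Real.smoothTransition.one_of_one_le (by linarith), mul_one]

private lemma dn_blk2_bmpc : Continuous bmp := by
  unfold bmp
  have h := Real.smoothTransition.continuous
  exact (h.comp (by fun_prop)).mul (h.comp (by fun_prop))

private lemma dn_blk2_supp (U : ℝ) (hU : 0 < U) : HasCompactSupport fun x : ℝ => bmp (x / U) := by
  apply HasCompactSupport.intro (isCompact_Icc (a := (0 : ℝ)) (b := 4 * U))
  intro x hx
  rw [Set.mem_Icc, not_and_or, not_le, not_le] at hx
  rcases hx with hx | hx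
  · have : x / U < 0 := div_neg_of_neg_of_pos hx hU
    rw [bmp, Real.smoothTransition.zero_of_nonpos (by linarith), zero_mul]
  · have : 4 < x / U := by
      rw [lt_div_iff₀ hU]
      exact hx
    rw [bmp, Real.smoothTransition.zero_of_nonpos (x := 4 - x / U) (by linarith), mul_zero]

private lemma dn_blk2_int (U : ℝ) (hU : 0 < U) (g : ℝ → ℂ) (hg : Continuous g) :
    Integrable fun x : ℝ => (bmp (x / U) : ℂ) * g x := by
  have h1 : Continuous fun x : ℝ => (bmp (x / U) : ℂ) :=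
    Complex.continuous_ofReal.comp (dn_blk2_bmpc.comp (by fun_prop))
  apply (h1.mul hg).integrable_of_hasCompactSupport
  have h2 : HasCompactSupport fun x : ℝ => (bmp (x / U) : ℂ) :=
    (dn_blk2_supp U hU).comp_left Complex.ofReal_zero
  exact h2.mul_right

private lemma dn_blk2_intR (U : ℝ) (hU : 0 < U) (g : ℝ → ℝ) (hg : Continuous g) :
    Integrable fun x : ℝ => bmp (x / U) * g x := by
  have h1 : Continuous fun x : ℝ => bmp (x / U) := dn_blk2_bmpc.comp (by fun_prop)
  apply (h1.mul hg).integrable_of_hasCompactSupport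
  exact (dn_blk2_supp U hU).mul_right

private lemma dn_blk2_Dcc (b : ℕ) (hb : 1 ≤ b) (h : ℝ) (hh : 0 < h) :
    Continuous fun x : ℝ => Dc (b * ((x : ℂ) + h * I)) := by
  rw [continuous_iff_continuousAt]
  intro x
  have him : 0 < ((b : ℂ) * ((x : ℂ) + h * I)).im := by
    have : ((b : ℂ) * ((x : ℂ) + h * I)).im = b * h := by simp
    rw [this]
    have : (0 : ℝ) < b := by exact_mod_cast hb
    positivity
  have h1 : ContinuousAt Dc ((b : ℂ) * ((x : ℂ) + h * I)) := (Dc_differentiableAt him).continuousAt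
  exact ContinuousAt.comp (f := fun x : ℝ => (b : ℂ) * ((x : ℂ) + h * I)) h1
    (by fun_prop)

private lemma dn_blk2_W (A K : ℝ) (hA : 1 < A) (W : ℝ → ℂ) (hW : WOK A K W) (u : ℝ)
    (hu : 0 ≤ u) : ‖W u‖ ≤ K * ∫ ξ : ℝ, (2 + |ξ|) ^ (-A) := by
  obtain ⟨w, hw1, hw2, hw3⟩ := hW
  have hint : Integrable fun ξ : ℝ => (2 + |ξ|) ^ (-A) := by
    have h1 : Integrable fun ξ : ℝ => (1 + ‖ξ‖) ^ (-A) :=
      integrable_one_add_norm (by simpa using hA)
    refine h1.mono' ?_ ?_
    · apply Continuous.aestronglyMeasurable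
      apply Continuous.rpow_const (by fun_prop)
      intro x
      left
      positivity
    · filter_upwards with x
      rw [Real.norm_of_nonneg (by positivity), Real.norm_eq_abs]
      apply Real.rpow_le_rpow_of_nonpos (by positivity) (by linarith) (by linarith)
  rw [hw3 u hu, ← integral_const_mul]
  apply norm_integral_le_of_norm_le (hint.const_mul K)
  filter_upwards with ξ
  rw [norm_mul, Complex.norm_exp]
  have h2 : (-((1 + (ξ : ℂ) * I) * (u : ℂ))).re = -u := by simp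
  rw [h2]
  calc ‖w ξ‖ * Real.exp (-u) ≤ ‖w ξ‖ * 1 := by
        apply mul_le_mul_of_nonneg_left _ (norm_nonneg _)
        rw [Real.exp_le_one_iff]
        linarith
    _ = ‖w ξ‖ := mul_one _
    _ ≤ _ := hw2 ξ

/-- the expansion of the square -/
private lemma dn_blk2_sq (s : Finset ℕ) (m g : ℕ → ℂ) :
    ((‖∑ b ∈ s, m b * g b‖ ^ 2 : ℝ) : ℂ) =
      ∑ b ∈ s, ∑ c ∈ s, m b * conj (m c) * (g b * conj (g c)) := by
  have h1 : ((‖∑ b ∈ s, m b * g b‖ ^ 2 : ℝ) : ℂ) =
      (∑ b ∈ s, m b * g b) * conj (∑ b ∈ s, m b * g b) := by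
    rw [Complex.mul_conj']
    push_cast
    rfl
  rw [h1, map_sum, Finset.sum_mul_sum]
  apply Finset.sum_congr rfl
  intro b _
  apply Finset.sum_congr rfl
  intro c _
  rw [map_mul]
  ring

/-- the pair sum -/
private lemma dn_blk2_pair (s : Finset ℕ) (m : ℕ → ℂ) (g : ℕ → ℝ → ℂ) (U β E : ℝ) (hU : 0 < U)
    (hg : ∀ b ∈ s, Continuous (g b))
    (hE : ∀ b ∈ s, ∀ c ∈ s, ‖(∫ x : ℝ, (bmp (x / U) : ℂ) * (g b x * conj (g c x))) -
      U * (β : ℂ) * ∫ x in (0 : ℝ)..1, g b x * conj (g c x)‖ ≤ E) :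
    ∫ x : ℝ, bmp (x / U) * ‖∑ b ∈ s, m b * g b x‖ ^ 2 ≤
      U * β * (∫ x in (0 : ℝ)..1, ‖∑ b ∈ s, m b * g b x‖ ^ 2) + (∑ b ∈ s, ‖m b‖) ^ 2 * E := by
  have hgc : ∀ b ∈ s, ∀ c ∈ s, Continuous fun x : ℝ => g b x * conj (g c x) := by
    intro b hb c hc
    exact (hg b hb).mul (Complex.continuous_conj.comp (hg c hc))
  have h1 : ((∫ x : ℝ, bmp (x / U) * ‖∑ b ∈ s, m b * g b x‖ ^ 2 : ℝ) : ℂ) =
      ∑ b ∈ s, ∑ c ∈ s, m b * conj (m c) *
        ∫ x : ℝ, (bmp (x / U) : ℂ) * (g b x * conj (g c x)) := by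
    rw [← integral_complex_ofReal]
    have e1 : ∀ x : ℝ, ((bmp (x / U) * ‖∑ b ∈ s, m b * g b x‖ ^ 2 : ℝ) : ℂ) =
        ∑ b ∈ s, ∑ c ∈ s, m b * conj (m c) * ((bmp (x / U) : ℂ) * (g b x * conj (g c x))) := by
      intro x
      rw [Complex.ofReal_mul, dn_blk2_sq, Finset.mul_sum]
      apply Finset.sum_congr rfl
      intro b _
      rw [Finset.mul_sum]
      apply Finset.sum_congr rfl
      intro c _
      ring
    calc (∫ x : ℝ, ((bmp (x / U) * ‖∑ b ∈ s, m b * g b x‖ ^ 2 : ℝ) : ℂ)) =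
        ∫ x : ℝ, ∑ b ∈ s, ∑ c ∈ s, m b * conj (m c) *
          ((bmp (x / U) : ℂ) * (g b x * conj (g c x))) := by
          apply integral_congr_ae
          filter_upwards with x
          exact e1 x
      _ = ∑ b ∈ s, ∫ x : ℝ, ∑ c ∈ s, m b * conj (m c) *
          ((bmp (x / U) : ℂ) * (g b x * conj (g c x))) := by
          apply integral_finsetSum
          intro b hb
          apply integrable_finsetSum
          intro c hc
          exact (dn_blk2_int U hU _ (hgc b hb c hc)).const_mul _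
      _ = _ := by
          apply Finset.sum_congr rfl
          intro b hb
          rw [integral_finsetSum]
          · apply Finset.sum_congr rfl
            intro c hc
            rw [integral_const_mul]
          · intro c hc
            exact (dn_blk2_int U hU _ (hgc b hb c hc)).const_mul _
  have h2 : ((∫ x in (0 : ℝ)..1, ‖∑ b ∈ s, m b * g b x‖ ^ 2 : ℝ) : ℂ) =
      ∑ b ∈ s, ∑ c ∈ s, m b * conj (m c) * ∫ x in (0 : ℝ)..1, g b x * conj (g c x) := by
    rw [← intervalIntegral.integral_ofReal]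
    calc (∫ x in (0 : ℝ)..1, ((‖∑ b ∈ s, m b * g b x‖ ^ 2 : ℝ) : ℂ)) =
        ∫ x in (0 : ℝ)..1, ∑ b ∈ s, ∑ c ∈ s, m b * conj (m c) * (g b x * conj (g c x)) := by
          apply intervalIntegral.integral_congr
          intro x _
          exact dn_blk2_sq s m fun b => g b x
      _ = ∑ b ∈ s, ∫ x in (0 : ℝ)..1, ∑ c ∈ s, m b * conj (m c) * (g b x * conj (g c x)) := by
          apply intervalIntegral.integral_finsetSum
          intro b hb
          apply Continuous.intervalIntegrable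
          apply continuous_finsetSum
          intro c hc
          exact continuous_const.mul (hgc b hb c hc)
      _ = _ := by
          apply Finset.sum_congr rfl
          intro b hb
          rw [intervalIntegral.integral_finsetSum]
          · apply Finset.sum_congr rfl
            intro c hc
            rw [intervalIntegral.integral_const_mul]
          · intro c hc
            exact (continuous_const.mul (hgc b hb c hc)).intervalIntegrable _ _
  have h3 : ‖(((∫ x : ℝ, bmp (x / U) * ‖∑ b ∈ s, m b * g b x‖ ^ 2) -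
      U * β * (∫ x in (0 : ℝ)..1, ‖∑ b ∈ s, m b * g b x‖ ^ 2) : ℝ) : ℂ)‖ ≤
      (∑ b ∈ s, ‖m b‖) ^ 2 * E := by
    rw [Complex.ofReal_sub, Complex.ofReal_mul, h1, h2, Finset.mul_sum, ← Finset.sum_sub_distrib]
    rw [sq, Finset.sum_mul_sum, Finset.sum_mul]
    refine (norm_sum_le _ _).trans ?_
    apply Finset.sum_le_sum
    intro b hb
    rw [Finset.mul_sum, ← Finset.sum_sub_distrib, Finset.sum_mul]
    refine (norm_sum_le _ _).trans ?_
    apply Finset.sum_le_sum
    intro c hc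
    have e2 : m b * conj (m c) * (∫ x : ℝ, (bmp (x / U) : ℂ) * (g b x * conj (g c x))) -
        ((U * β : ℝ) : ℂ) * (m b * conj (m c) * ∫ x in (0 : ℝ)..1, g b x * conj (g c x)) =
        m b * conj (m c) * ((∫ x : ℝ, (bmp (x / U) : ℂ) * (g b x * conj (g c x))) -
          U * (β : ℂ) * ∫ x in (0 : ℝ)..1, g b x * conj (g c x)) := by
      push_cast
      ring
    rw [e2, norm_mul, norm_mul, Complex.norm_conj]
    exact mul_le_mul_of_nonneg_left (hE b hb c hc) (by positivity)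
  rw [Complex.norm_real, Real.norm_eq_abs] at h3
  have := le_abs_self ((∫ x : ℝ, bmp (x / U) * ‖∑ b ∈ s, m b * g b x‖ ^ 2) -
      U * β * (∫ x in (0 : ℝ)..1, ‖∑ b ∈ s, m b * g b x‖ ^ 2))
  linarith

/-- sum of the coefficients -/
private lemma dn_blk2_muf (h : S_mufSum) : ∃ M : ℝ, 0 ≤ M ∧ ∀ X : ℝ, 2 ≤ X →
    ∑ b ∈ Finset.Icc 1 ⌊X⌋₊, ‖muf b‖ ≤ M * X ^ (7 : ℝ) := by
  have hs := h 7 (by norm_num)
  refine ⟨∑' n : ℕ, ‖muf n‖ / (n : ℝ) ^ (7 : ℝ), tsum_nonneg fun n => by positivity, ?_⟩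
  intro X hX
  have h1 : ∑ b ∈ Finset.Icc 1 ⌊X⌋₊, ‖muf b‖ ≤
      ∑ b ∈ Finset.Icc 1 ⌊X⌋₊, (‖muf b‖ / (b : ℝ) ^ (7 : ℝ)) * X ^ (7 : ℝ) := by
    apply Finset.sum_le_sum
    intro b hb
    rw [Finset.mem_Icc] at hb
    have hb0 : (0 : ℝ) < b := by
      have : 0 < b := by omega
      exact_mod_cast this
    have hbX : (b : ℝ) ≤ X := (Nat.le_floor_iff (by linarith)).1 hb.2
    have h2 : (b : ℝ) ^ (7 : ℝ) ≤ X ^ (7 : ℝ) := Real.rpow_le_rpow hb0.le hbX (by norm_num)
    have h3 : 0 < (b : ℝ) ^ (7 : ℝ) := Real.rpow_pos_of_pos hb0 _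
    rw [div_mul_eq_mul_div, le_div_iff₀ h3]
    exact mul_le_mul_of_nonneg_left h2 (norm_nonneg _)
  refine h1.trans ?_
  rw [← Finset.sum_mul]
  apply mul_le_mul_of_nonneg_right _ (by positivity)
  exact hs.sum_le_tsum _ fun n _ => by positivity

theorem p_blk2 (hpar : S_par) (hrh : S_rh) (hEQ : S_EQ) (hmuf : S_mufSum) : S_blk2 := by
  intro A D hA hD hDs hmaj
  obtain ⟨Cr, hCr, hrh⟩ := hrh
  obtain ⟨Ce, Ae, κ, hCe, hAe, hκ, hκ1, hEQ⟩ := hEQ
  obtain ⟨M, hM, hmuf⟩ := dn_blk2_muf hmuf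
  set β : ℝ := ∫ x : ℝ, bmp x with hβ
  have hβ0 : 0 ≤ β := integral_nonneg fun x => dn_blk2_bmp0 x
  set IA : ℝ := ∫ ξ : ℝ, (2 + |ξ|) ^ (-A) with hIA
  have hIA0 : 0 ≤ IA := integral_nonneg fun x => by positivity
  refine ⟨4 * Cr * (β + (M * IA) ^ 2 * Ce * 4 ^ (12 : ℝ)) + 1, Ae + 14, κ, by positivity,
    by linarith, hκ, hκ1, ?_⟩
  intro X K U δ W hX hK hW hW1 hU1 hU2 hδ hδ' hUδ
  have hX0 : 0 < X := by linarith
  have hU : 0 < U := lt_of_lt_of_le (Real.rpow_pos_of_pos hX0 _) hU1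
  have hUd : 0 < U * δ := by positivity
  set s : Finset ℕ := Finset.Icc 1 ⌊X⌋₊ with hs
  set m : ℕ → ℂ := fun b => muf b * W (Real.log b / Real.log X) with hm
  have hsb : ∀ b ∈ s, 1 ≤ b ∧ (b : ℝ) ≤ X := by
    intro b hb
    rw [hs, Finset.mem_Icc] at hb
    exact ⟨hb.1, (Nat.le_floor_iff (by linarith)).1 hb.2⟩
  have hPhi : ∀ z : ℂ, PhiW W X z = ∑ b ∈ s, m b * Dc (b * z) := fun z => rfl
  -- differentiability
  have hdiff : DifferentiableOn ℂ (PhiW W X) {z | 0 < z.im} := by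
    have : PhiW W X = fun z => ∑ b ∈ s, m b * Dc (b * z) := rfl
    rw [this]
    intro z hz
    apply DifferentiableAt.differentiableWithinAt
    apply DifferentiableAt.fun_sum
    intro b hb
    apply DifferentiableAt.const_mul
    have him : 0 < ((b : ℂ) * z).im := by
      have e : ((b : ℂ) * z).im = b * z.im := by simp
      rw [e]
      have : (0 : ℝ) < b := by exact_mod_cast (hsb b hb).1
      have hz' : 0 < z.im := hz
      positivity
    exact DifferentiableAt.comp (f := fun z : ℂ => (b : ℂ) * z) z (Dc_differentiableAt him)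
      (by fun_prop)
  refine (hrh (PhiW W X) U δ hdiff hU hδ hδ').trans ?_
  set S : ℝ := ∑' k : ℕ, D X k * Real.exp (-(3 * k * U * δ)) with hS
  have hS0 : 0 ≤ S := tsum_nonneg fun k => mul_nonneg (hD X k) (Real.exp_pos _).le
  set Bd : ℝ := K ^ 2 * (β * (U * S) + (M * IA) ^ 2 * Ce * 4 ^ (12 : ℝ) *
    (X ^ (Ae + 14) * (U * δ) ^ (-12 + κ))) with hBd
  have hBd0 : 0 ≤ Bd := by positivity
  -- the bound on a horizontal segment
  have hseg : ∀ h : ℝ, U * δ / 4 ≤ h → h ≤ 4 * U * δ →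
      ∫ x in (U / 2)..(3 * U), ‖PhiW W X (x + h * I)‖ ^ 2 ≤ Bd := by
    intro h hh1 hh2
    have hh : 0 < h := lt_of_lt_of_le (by positivity) hh1
    have hh1' : h ≤ 1 := hh2.trans hUδ
    have hcont : Continuous fun x : ℝ => ‖PhiW W X (x + h * I)‖ ^ 2 := by
      have : Continuous fun x : ℝ => PhiW W X (x + h * I) := by
        simp_rw [hPhi]
        apply continuous_finsetSum
        intro b hb
        exact continuous_const.mul (dn_blk2_Dcc b (hsb b hb).1 h hh)
      exact this.norm.pow 2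
    have h1 : ∫ x in (U / 2)..(3 * U), ‖PhiW W X (x + h * I)‖ ^ 2 ≤
        ∫ x : ℝ, bmp (x / U) * ‖PhiW W X (x + h * I)‖ ^ 2 := by
      rw [intervalIntegral.integral_of_le (by linarith)]
      have h2 : ∫ x in Set.Ioc (U / 2) (3 * U), ‖PhiW W X (x + h * I)‖ ^ 2 =
          ∫ x in Set.Ioc (U / 2) (3 * U), bmp (x / U) * ‖PhiW W X (x + h * I)‖ ^ 2 := by
        apply setIntegral_congr_fun measurableSet_Ioc
        intro x hx
        simp only
        rw [dn_blk2_bmp1 (x / U), one_mul]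
        · rw [le_div_iff₀ hU]
          linarith [hx.1]
        · rw [div_le_iff₀ hU]
          exact hx.2
      rw [h2]
      apply setIntegral_le_integral (dn_blk2_intR U hU _ hcont)
      filter_upwards with x
      exact mul_nonneg (dn_blk2_bmp0 _) (by positivity)
    refine h1.trans ?_
    have hEb : ∀ b ∈ s, ∀ c ∈ s, ‖(∫ x : ℝ, (bmp (x / U) : ℂ) *
        (Dc (b * ((x : ℂ) + h * I)) * conj (Dc (c * ((x : ℂ) + h * I))))) -
        U * (β : ℂ) * ∫ x in (0 : ℝ)..1, Dc (b * ((x : ℂ) + h * I)) *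
          conj (Dc (c * ((x : ℂ) + h * I)))‖ ≤ Ce * X ^ Ae * h ^ (-12 + κ) := by
      intro b hb c hc
      have h3 := hEQ X U h b c hX hU1 hU2 hh hh1' (hsb b hb).1 (hsb b hb).2 (hsb c hc).1
        (hsb c hc).2
      have h4 : (∫ x : ℝ, (bmp x : ℂ)) = (β : ℂ) := by
        rw [hβ]
        exact integral_ofReal
      rw [h4] at h3
      exact h3
    have h5 := dn_blk2_pair s m (fun b x => Dc (b * ((x : ℂ) + h * I))) U β _ hU
      (fun b hb => dn_blk2_Dcc b (hsb b hb).1 h hh) hEb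
    have h6 : (∫ x : ℝ, bmp (x / U) * ‖PhiW W X (x + h * I)‖ ^ 2) ≤
        U * β * (∫ x in (0 : ℝ)..1, ‖PhiW W X (x + h * I)‖ ^ 2) +
          (∑ b ∈ s, ‖m b‖) ^ 2 * (Ce * X ^ Ae * h ^ (-12 + κ)) := h5
    refine h6.trans ?_
    -- Parseval
    have h7 : (∫ x in (0 : ℝ)..1, ‖PhiW W X (x + h * I)‖ ^ 2) ≤ K ^ 2 * S := by
      obtain ⟨p1, p2⟩ := hpar W X h hX hh hW1
      rw [p2, hS, ← tsum_mul_left]
      have hs2 : Summable fun k : ℕ => K ^ 2 * (D X k * Real.exp (-(3 * k * U * δ))) := by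
        apply Summable.mul_left
        have := hDs X hX (3 * U * δ) (by positivity)
        refine this.congr ?_
        intro k
        congr 2
        ring
      apply p1.tsum_le_tsum _ hs2
      intro k
      rcases Nat.eq_zero_or_pos k with hk | hk
      · have h8 : gW W X k = 0 := by
          rw [hk, gW]
          simp
        rw [h8, norm_zero]
        have := mul_nonneg (sq_nonneg K) (mul_nonneg (hD X k) (Real.exp_pos (-(3 * (k : ℝ) * U * δ))).le)
        simpa using this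
      · have h9 := hmaj X K W hX hK hW k hk
        have h10 : Real.exp (-(4 * Real.pi * k * h)) ≤ Real.exp (-(3 * k * U * δ)) := by
          apply Real.exp_le_exp.2
          have hk0 : (0 : ℝ) ≤ k := Nat.cast_nonneg k
          have hpi : 3 < Real.pi := Real.pi_gt_three
          have h11 : (k : ℝ) * (3 * (U * δ)) ≤ (k : ℝ) * (4 * Real.pi * h) := by
            apply mul_le_mul_of_nonneg_left _ hk0
            have h12 : Real.pi * (U * δ / 4) ≤ Real.pi * h :=
              mul_le_mul_of_nonneg_left hh1 (by linarith)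
            have h13 : 3 * (U * δ) ≤ Real.pi * (U * δ) :=
              mul_le_mul_of_nonneg_right hpi.le hUd.le
            linarith
          linarith
        calc ‖gW W X k‖ ^ 2 * Real.exp (-(4 * Real.pi * k * h))
            ≤ (K ^ 2 * D X k) * Real.exp (-(3 * k * U * δ)) := by
              apply mul_le_mul h9 h10 (Real.exp_pos _).le
              exact mul_nonneg (sq_nonneg K) (hD X k)
          _ = _ := by ring
    -- coefficients
    have h14 : ∑ b ∈ s, ‖m b‖ ≤ K * (M * IA) * X ^ (7 : ℝ) := by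
      calc ∑ b ∈ s, ‖m b‖ ≤ ∑ b ∈ s, ‖muf b‖ * (K * IA) := by
            apply Finset.sum_le_sum
            intro b hb
            rw [hm]
            simp only
            rw [norm_mul]
            apply mul_le_mul_of_nonneg_left _ (norm_nonneg _)
            apply dn_blk2_W A K hA W hW
            apply div_nonneg
            · apply Real.log_nonneg
              exact_mod_cast (hsb b hb).1
            · exact Real.log_nonneg (by linarith)
        _ = (∑ b ∈ s, ‖muf b‖) * (K * IA) := by rw [Finset.sum_mul]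
        _ ≤ (M * X ^ (7 : ℝ)) * (K * IA) := by
            apply mul_le_mul_of_nonneg_right (hmuf X hX)
            positivity
        _ = _ := by ring
    have h15 : (∑ b ∈ s, ‖m b‖) ^ 2 ≤ K ^ 2 * (M * IA) ^ 2 * X ^ (14 : ℝ) := by
      have h0 : 0 ≤ ∑ b ∈ s, ‖m b‖ := Finset.sum_nonneg fun b _ => norm_nonneg _
      calc (∑ b ∈ s, ‖m b‖) ^ 2 ≤ (K * (M * IA) * X ^ (7 : ℝ)) ^ 2 := pow_le_pow_left₀ h0 h14 2
        _ = K ^ 2 * (M * IA) ^ 2 * (X ^ (7 : ℝ) * X ^ (7 : ℝ)) := by ring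
        _ = _ := by
            rw [← Real.rpow_add hX0]
            norm_num
    have h16 : h ^ (-12 + κ) ≤ 4 ^ (12 : ℝ) * (U * δ) ^ (-12 + κ) := by
      calc h ^ (-12 + κ) ≤ (U * δ / 4) ^ (-12 + κ) :=
            Real.rpow_le_rpow_of_nonpos (by positivity) hh1 (by linarith)
        _ = (U * δ) ^ (-12 + κ) * (4 : ℝ) ^ (12 - κ) := by
            rw [Real.div_rpow hUd.le (by norm_num), div_eq_mul_inv, ← Real.rpow_neg (by norm_num)]
            congr 2
            ring
        _ ≤ (U * δ) ^ (-12 + κ) * (4 : ℝ) ^ (12 : ℝ) := by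
            apply mul_le_mul_of_nonneg_left _ (by positivity)
            apply Real.rpow_le_rpow_of_exponent_le (by norm_num)
            linarith
        _ = _ := by ring
    have h17 : U * β * (∫ x in (0 : ℝ)..1, ‖PhiW W X (x + h * I)‖ ^ 2) ≤ U * β * (K ^ 2 * S) :=
      mul_le_mul_of_nonneg_left h7 (by positivity)
    have h18 : (∑ b ∈ s, ‖m b‖) ^ 2 * (Ce * X ^ Ae * h ^ (-12 + κ)) ≤
        (K ^ 2 * (M * IA) ^ 2 * X ^ (14 : ℝ)) *
          (Ce * X ^ Ae * (4 ^ (12 : ℝ) * (U * δ) ^ (-12 + κ))) := by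
      apply mul_le_mul h15 _ (by positivity) (by positivity)
      apply mul_le_mul_of_nonneg_left h16 (by positivity)
    calc U * β * (∫ x in (0 : ℝ)..1, ‖PhiW W X (x + h * I)‖ ^ 2) +
          (∑ b ∈ s, ‖m b‖) ^ 2 * (Ce * X ^ Ae * h ^ (-12 + κ))
        ≤ U * β * (K ^ 2 * S) + (K ^ 2 * (M * IA) ^ 2 * X ^ (14 : ℝ)) *
          (Ce * X ^ Ae * (4 ^ (12 : ℝ) * (U * δ) ^ (-12 + κ))) := add_le_add h17 h18
      _ = Bd := by
          rw [hBd, Real.rpow_add hX0 Ae 14]
          ring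
  -- integrate over h
  have hh : ∫ h in (U * δ / 4)..(4 * U * δ), ∫ x in (U / 2)..(3 * U),
      ‖PhiW W X (x + h * I)‖ ^ 2 ≤ Bd * (4 * (U * δ)) := by
    have h1 := intervalIntegral.norm_integral_le_of_norm_le_const (a := U * δ / 4)
      (b := 4 * U * δ) (C := Bd) (f := fun h : ℝ => ∫ x in (U / 2)..(3 * U),
        ‖PhiW W X (x + h * I)‖ ^ 2) (by
        intro h hh
        rw [Set.uIoc_of_le (by nlinarith)] at hh
        rw [Real.norm_of_nonneg (intervalIntegral.integral_nonneg (by linarith)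
          fun x _ => by positivity)]
        exact hseg h hh.1.le hh.2)
    refine (le_abs_self _).trans (h1.trans ?_)
    apply mul_le_mul_of_nonneg_left _ hBd0
    rw [abs_of_nonneg (by nlinarith)]
    nlinarith
  calc Cr / (U * δ) * ∫ h in (U * δ / 4)..(4 * U * δ), ∫ x in (U / 2)..(3 * U),
        ‖PhiW W X (x + h * I)‖ ^ 2
      ≤ Cr / (U * δ) * (Bd * (4 * (U * δ))) := mul_le_mul_of_nonneg_left hh (by positivity)
    _ = 4 * Cr * Bd := by
        field_simp
    _ ≤ (4 * Cr * (β + (M * IA) ^ 2 * Ce * 4 ^ (12 : ℝ)) + 1) * K ^ 2 *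
        (U * S + X ^ (Ae + 14) * (U * δ) ^ (-12 + κ)) := by
        set P : ℝ := X ^ (Ae + 14) * (U * δ) ^ (-12 + κ) with hP
        have hP0 : 0 ≤ P := by positivity
        set Q : ℝ := (M * IA) ^ 2 * Ce * 4 ^ (12 : ℝ) with hQ
        have hQ0 : 0 ≤ Q := by positivity
        have hUS : 0 ≤ U * S := by positivity
        rw [hBd]
        have e1 : (4 * Cr * (β + Q) + 1) * K ^ 2 * (U * S + P) -
            4 * Cr * (K ^ 2 * (β * (U * S) + Q * P)) =
            K ^ 2 * (4 * Cr * (β * P + Q * (U * S)) + (U * S + P)) := by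
          ring
        have e2 : 0 ≤ K ^ 2 * (4 * Cr * (β * P + Q * (U * S)) + (U * S + P)) := by positivity
        linarith

end Pool.Agent.Lib.MP_cd509c_nt.DN
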