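import Mathlib
import Pool.Agent.Lib.MP_cd509c_nt.DN.Defs2

/-!
# Piece cb: coefficient bound with a power saving
-/

set_option autoImplicit false

namespace Pool.Agent.Lib.MP_cd509c_nt.DN

open Complex ComplexConjugate MeasureTheory

theorem dn_cb_inv {p : ℕ} (hp : p.Prime) {a : ℕ} (ha : a.Coprime p) :
    (p : ℤ) ∣ (a : ℤ) * (((a : ZMod p)⁻¹).val : ℤ) - 1 := by
  have := Fact.mk hp
  rw [← ZMod.intCast_zmod_eq_zero_iff_dvd]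
  push_cast
  rw [ZMod.natCast_zmod_val, ZMod.coe_mul_inv_eq_one a ha, sub_self]

theorem dn_cb_im {p : ℕ} (hp : 0 < p) (ζ : ℂ) : (-1 / ((p : ℂ) ^ 2 * ζ)).im =
    ζ.im / ((p : ℝ) ^ 2 * ‖ζ‖ ^ 2) := by
  have hp' : (0 : ℝ) < p := by exact_mod_cast hp
  have h : (-1 / ((p : ℂ) ^ 2 * ζ)) = (((-((p : ℝ) ^ 2)⁻¹ : ℝ)) : ℂ) * ζ⁻¹ := by
    push_cast
    rw [div_eq_mul_inv, mul_inv]
    ring
  rw [h, im_ofReal_mul, inv_im, normSq_eq_norm_sq]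
  rw [div_eq_mul_inv, div_eq_mul_inv, mul_inv]
  ring

/-- expansion of the dual sum -/
theorem dn_cb_hasSum {p : ℕ} (hp : p.Prime) (n : ℕ) {ζ : ℂ} (hζ : 0 < ζ.im) :
    HasSum (fun m : ℕ => tau m * cexp (2 * Real.pi * Complex.I * (m * (-1 / ((p : ℂ) ^ 2 * ζ)))) *
        Kl p (-(n : ℤ)) (-(m : ℤ)))
      (∑ a ∈ (Finset.range p).filter (fun a => a.Coprime p),
        Dc (-((((a : ZMod p)⁻¹).val : ℤ) : ℂ) / p - 1 / ((p : ℂ) ^ 2 * ζ)) *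
          ee (-(n * ((a : ℝ) / p)))) := by
  have hp0 := hp.pos
  have hp' : (0 : ℝ) < p := by exact_mod_cast hp0
  have hζ0 : 0 < ‖ζ‖ := norm_pos_iff.2 (by rintro rfl; simp at hζ)
  have hw : ∀ a : ℕ, 0 < (-((((a : ZMod p)⁻¹).val : ℤ) : ℂ) / p - 1 / ((p : ℂ) ^ 2 * ζ)).im := by
    intro a
    have h1 : (-((((a : ZMod p)⁻¹).val : ℤ) : ℂ) / p - 1 / ((p : ℂ) ^ 2 * ζ)) =
        ((-((((a : ZMod p)⁻¹).val : ℤ) : ℝ) / p : ℝ) : ℂ) + (-1 / ((p : ℂ) ^ 2 * ζ)) := by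
      push_cast
      ring
    rw [h1, add_im, ofReal_im, zero_add, dn_cb_im hp0]
    positivity
  have h2 := hasSum_sum (s := (Finset.range p).filter (fun a => a.Coprime p))
    (f := fun (a : ℕ) (m : ℕ) => tau m * cexp (2 * Real.pi * Complex.I *
      (m * (-((((a : ZMod p)⁻¹).val : ℤ) : ℂ) / p - 1 / ((p : ℂ) ^ 2 * ζ)))) *
        ee (-(n * ((a : ℝ) / p))))
    (a := fun a : ℕ => Dc (-((((a : ZMod p)⁻¹).val : ℤ) : ℂ) / p - 1 / ((p : ℂ) ^ 2 * ζ)) *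
          ee (-(n * ((a : ℝ) / p)))) (fun a _ => (Dc_hasSum (hw a)).mul_right _)
  refine h2.congr_fun ?_ |> fun h => h
  intro m
  rw [Kl, Finset.mul_sum]
  refine Finset.sum_congr rfl fun a _ => ?_
  have e1 : ∀ x y : ℂ, tau m * cexp x * cexp y = tau m * cexp (x + y) := fun x y => by
    rw [Complex.exp_add, mul_assoc]
  rw [ee, ee, e1, e1]
  congr 2
  push_cast
  ring

/-- the sum over the classes modulo `p` -/
theorem dn_cb_inner {Ck Ct : ℝ} (hCk : 0 < Ck)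
    (hkl : ∀ p : ℕ, p.Prime → ∀ j k : ℤ,
      ¬ ((p : ℤ) ∣ j ∧ (p : ℤ) ∣ k) → ‖Kl p j k‖ ≤ Ck * (p : ℝ) ^ (3 / 4 : ℝ))
    (hJ2 : S_J2)
    (hE : ∀ y : ℝ, 0 < y →
      (Summable fun m : ℕ => ‖tau m‖ * Real.exp (-(2 * Real.pi * m * y))) ∧
      ∑' m : ℕ, ‖tau m‖ * Real.exp (-(2 * Real.pi * m * y)) ≤
        Ct * y ^ (-6 : ℝ) * (1 + y ^ (-(1 / 2) : ℝ)))
    {p : ℕ} (hp : p.Prime) {n : ℕ} (hn : ¬ p ∣ n) {ζ : ℂ} (hζ : 0 < ζ.im) :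
    ‖∑ a ∈ (Finset.range p).filter (fun a => a.Coprime p),
        Dc ((a : ℂ) / p + ζ) * ee (-(n * ((a : ℝ) / p)))‖ ≤
      Ck * Ct * (p : ℝ) ^ (3 / 4 : ℝ) * (ζ.im ^ 6)⁻¹ *
        (1 + (ζ.im / ((p : ℝ) ^ 2 * ‖ζ‖ ^ 2)) ^ (-(1 / 2) : ℝ)) := by
  have hp0 := hp.pos
  have hp' : (0 : ℝ) < p := by exact_mod_cast hp0
  have hζ0 : 0 < ‖ζ‖ := norm_pos_iff.2 (by rintro rfl; simp at hζ)
  set y : ℝ := ζ.im / ((p : ℝ) ^ 2 * ‖ζ‖ ^ 2) with hy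
  have hy0 : 0 < y := by positivity
  have h1 := dn_cb_hasSum hp n hζ
  obtain ⟨hs, hb⟩ := hE y hy0
  have h2 : ∀ m : ℕ, ‖tau m * cexp (2 * Real.pi * Complex.I * (m * (-1 / ((p : ℂ) ^ 2 * ζ)))) *
        Kl p (-(n : ℤ)) (-(m : ℤ))‖ ≤ Ck * (p : ℝ) ^ (3 / 4 : ℝ) *
          (‖tau m‖ * Real.exp (-(2 * Real.pi * m * y))) := by
    intro m
    have h3 : ‖Kl p (-(n : ℤ)) (-(m : ℤ))‖ ≤ Ck * (p : ℝ) ^ (3 / 4 : ℝ) := by
      apply hkl p hp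
      rintro ⟨h4, -⟩
      apply hn
      rw [dvd_neg] at h4
      exact_mod_cast h4
    have h5 : ‖cexp (2 * Real.pi * Complex.I * (m * (-1 / ((p : ℂ) ^ 2 * ζ))))‖ =
        Real.exp (-(2 * Real.pi * m * y)) := by
      rw [Complex.norm_exp]
      congr 1
      have h6 : (2 * Real.pi * Complex.I * (m * (-1 / ((p : ℂ) ^ 2 * ζ)))) =
          ((2 * Real.pi * m : ℝ) : ℂ) * (Complex.I * (-1 / ((p : ℂ) ^ 2 * ζ))) := by
        push_cast; ring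
      rw [h6, re_ofReal_mul, I_mul_re, dn_cb_im hp0, hy]
      ring
    rw [norm_mul, norm_mul, h5]
    have h7 : 0 ≤ ‖tau m‖ * Real.exp (-(2 * Real.pi * m * y)) := by positivity
    calc ‖tau m‖ * Real.exp (-(2 * Real.pi * m * y)) * ‖Kl p (-(n : ℤ)) (-(m : ℤ))‖
        ≤ ‖tau m‖ * Real.exp (-(2 * Real.pi * m * y)) * (Ck * (p : ℝ) ^ (3 / 4 : ℝ)) :=
          mul_le_mul_of_nonneg_left h3 h7
      _ = _ := by ring
  have h3 : ‖∑ a ∈ (Finset.range p).filter (fun a => a.Coprime p),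
        Dc (-((((a : ZMod p)⁻¹).val : ℤ) : ℂ) / p - 1 / ((p : ℂ) ^ 2 * ζ)) *
          ee (-(n * ((a : ℝ) / p)))‖ ≤
      Ck * (p : ℝ) ^ (3 / 4 : ℝ) * (Ct * y ^ (-6 : ℝ) * (1 + y ^ (-(1 / 2) : ℝ))) := by
    rw [← h1.tsum_eq]
    have h4 := hs.mul_left (Ck * (p : ℝ) ^ (3 / 4 : ℝ))
    have h5 : Summable fun m : ℕ =>
        ‖tau m * cexp (2 * Real.pi * Complex.I * (m * (-1 / ((p : ℂ) ^ 2 * ζ)))) *
        Kl p (-(n : ℤ)) (-(m : ℤ))‖ := Summable.of_nonneg_of_le (fun m => norm_nonneg _) h2 h4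
    refine (norm_tsum_le_tsum_norm h5).trans ((h5.tsum_le_tsum h2 h4).trans ?_)
    rw [tsum_mul_left]
    exact mul_le_mul_of_nonneg_left hb (by positivity)
  have h4 : (∑ a ∈ (Finset.range p).filter (fun a => a.Coprime p),
        Dc ((a : ℂ) / p + ζ) * ee (-(n * ((a : ℝ) / p)))) * ((p : ℂ) * ζ) ^ 12 =
      ∑ a ∈ (Finset.range p).filter (fun a => a.Coprime p),
        Dc (-((((a : ZMod p)⁻¹).val : ℤ) : ℂ) / p - 1 / ((p : ℂ) ^ 2 * ζ)) *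
          ee (-(n * ((a : ℝ) / p))) := by
    rw [Finset.sum_mul]
    refine Finset.sum_congr rfl fun a ha => ?_
    have h5 := hJ2 p a (((a : ZMod p)⁻¹).val : ℤ) ζ hp0
      (dn_cb_inv hp (Finset.mem_filter.1 ha).2) hζ
    rw [← h5]
    push_cast
    ring
  rw [← h4, norm_mul, norm_pow, norm_mul, Complex.norm_natCast] at h3
  have h5 : y ^ (-6 : ℝ) = ((p : ℝ) * ‖ζ‖) ^ 12 * (ζ.im ^ 6)⁻¹ := by
    rw [Real.rpow_neg hy0.le, show (6 : ℝ) = ((6 : ℕ) : ℝ) by norm_num, Real.rpow_natCast, hy,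
      div_pow, inv_div, div_eq_mul_inv]
    ring
  rw [h5] at h3
  have h6 : 0 < ((p : ℝ) * ‖ζ‖) ^ 12 := by positivity
  refine le_of_mul_le_mul_right (h3.trans (le_of_eq ?_)) h6
  ring

theorem dn_cb_norm_ee (x : ℝ) : ‖ee x‖ = 1 := by
  have : ee x = cexp (((2 * Real.pi * x : ℝ) : ℂ) * I) := by rw [ee]; push_cast; rfl
  rw [this, Complex.norm_exp_ofReal_mul_I]

theorem dn_cb_ee_add (x y : ℝ) : ee (x + y) = ee x * ee y := by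
  rw [ee, ee, ee, ← Complex.exp_add]
  congr 1
  push_cast
  ring

theorem dn_cb_ee_int (k : ℤ) : ee (k : ℝ) = 1 := by
  rw [ee, Complex.exp_eq_one_iff]
  exact ⟨k, by push_cast; ring⟩

theorem dn_cb_cont (n : ℕ) {h : ℝ} (hh : 0 < h) :
    Continuous fun x : ℝ => Dc ((x : ℂ) + h * I) * ee (-(n * x)) := by
  refine Continuous.mul ?_ ?_
  · refine continuous_iff_continuousAt.2 fun x => ?_
    have h2 : ContinuousAt Dc ((x : ℂ) + h * I) :=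
      (Dc_differentiableAt (by simpa using hh)).continuousAt
    exact h2.comp (f := fun x : ℝ => (x : ℂ) + h * I) (by fun_prop)
  · unfold ee
    fun_prop

theorem dn_cb_per (n : ℕ) {h : ℝ} (hh : 0 < h) :
    Function.Periodic (fun x : ℝ => Dc ((x : ℂ) + h * I) * ee (-(n * x))) 1 := by
  intro x
  simp only
  have h1 : (((x + 1 : ℝ) : ℂ) + h * I) = ((x : ℂ) + h * I) + (1 : ℕ) := by push_cast; ring
  rw [h1, Dc_add_nat 1 (by simpa using hh)]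
  have h2 : (-(n * (x + 1)) : ℝ) = -(n * x) + ((-(n : ℤ) : ℤ) : ℝ) := by push_cast; ring
  rw [h2, dn_cb_ee_add, dn_cb_ee_int, mul_one]

theorem dn_cb_tau (n : ℕ) (hn : 1 ≤ n) : ‖tau n‖ = Real.exp (2 * Real.pi) *
    ‖∫ x in (0 : ℝ)..1, Dc ((x : ℂ) + ((n : ℝ)⁻¹ : ℝ) * I) * ee (-(n * x))‖ := by
  have hn' : (0 : ℝ) < n := by exact_mod_cast hn
  rw [tau_integral n (inv_pos.2 hn')]
  have h1 : (∫ u in (0 : ℝ)..1, cexp (-(2 * Real.pi * Complex.I *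
      (n * (u + ((n : ℝ)⁻¹ : ℝ) * Complex.I)))) * Dc (u + ((n : ℝ)⁻¹ : ℝ) * Complex.I)) =
      ∫ u in (0 : ℝ)..1, ((Real.exp (2 * Real.pi) : ℝ) : ℂ) *
        (Dc ((u : ℂ) + ((n : ℝ)⁻¹ : ℝ) * I) * ee (-(n * u))) := by
    refine intervalIntegral.integral_congr fun u _ => ?_
    have h2 : cexp (-(2 * Real.pi * Complex.I * (n * (u + ((n : ℝ)⁻¹ : ℝ) * Complex.I)))) =
        ((Real.exp (2 * Real.pi) : ℝ) : ℂ) * ee (-(n * u)) := by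
      rw [ee, Complex.ofReal_exp, ← Complex.exp_add]
      congr 1
      have hn0 : (n : ℂ) ≠ 0 := by exact_mod_cast hn'.ne'
      push_cast
      field_simp
      linear_combination (-1 : ℂ) * Complex.I_sq
    rw [h2]
    ring
  rw [h1, intervalIntegral.integral_const_mul, norm_mul, Complex.norm_real,
    Real.norm_of_nonneg (Real.exp_pos _).le]

/-- at most one prime larger than `sqrt n` divides `n` -/
theorem dn_cb_card {Q : ℝ} (hQ : 1 ≤ Q) {n : ℕ} (hn : 1 ≤ n) (hnQ : (n : ℝ) = Q ^ 2) :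
    ((PQ Q).card : ℝ) ≤ (((PQ Q).filter fun p => ¬ p ∣ n).card : ℝ) + 1 := by
  have h1 := Finset.card_filter_add_card_filter_not (s := PQ Q) (fun p => p ∣ n)
  have h2 : ((PQ Q).filter fun p => p ∣ n).card ≤ 1 := by
    rw [Finset.card_le_one]
    intro a ha b hb
    by_contra hab
    rw [Finset.mem_filter, PQ, Finset.mem_filter, Finset.mem_Ioc] at ha hb
    have hco : Nat.Coprime a b := (Nat.coprime_primes ha.1.2 hb.1.2).2 hab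
    have h3 : a * b ∣ n := hco.mul_dvd_of_dvd_of_dvd ha.2 hb.2
    have h4 : a * b ≤ n := Nat.le_of_dvd hn h3
    have h5 : Q < a := (Nat.floor_lt (by linarith)).1 ha.1.1.1
    have h6 : Q < b := (Nat.floor_lt (by linarith)).1 hb.1.1.1
    have h7 : ((a * b : ℕ) : ℝ) ≤ n := by exact_mod_cast h4
    push_cast at h7
    nlinarith
  have h3 : (PQ Q).card ≤ ((PQ Q).filter fun p => ¬ p ∣ n).card + 1 := by omega
  exact_mod_cast h3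

theorem dn_cb_rp {t : ℝ} (ht : 0 < t) (k m : ℕ) (r : ℝ) (h : k * r = m) : (t ^ k) ^ r = t ^ m := by
  rw [← Real.rpow_natCast t k, ← Real.rpow_mul ht.le, h, Real.rpow_natCast]

/-- a single prime and a single `β` -/
theorem dn_cb_point {Ck Ct : ℝ} (hCk : 0 < Ck) (hCt : 0 < Ct)
    (hkl : ∀ p : ℕ, p.Prime → ∀ j k : ℤ,
      ¬ ((p : ℤ) ∣ j ∧ (p : ℤ) ∣ k) → ‖Kl p j k‖ ≤ Ck * (p : ℝ) ^ (3 / 4 : ℝ))
    (hJ2 : S_J2)
    (hE : ∀ y : ℝ, 0 < y →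
      (Summable fun m : ℕ => ‖tau m‖ * Real.exp (-(2 * Real.pi * m * y))) ∧
      ∑' m : ℕ, ‖tau m‖ * Real.exp (-(2 * Real.pi * m * y)) ≤
        Ct * y ^ (-6 : ℝ) * (1 + y ^ (-(1 / 2) : ℝ)))
    {t : ℝ} (ht : 1 ≤ t) {n : ℕ} (hnt : (n : ℝ) = t ^ 128)
    {p : ℕ} (hp : p.Prime) (hpn : ¬ p ∣ n) (hpQ : (p : ℝ) ≤ 4 * t ^ 64) {β : ℝ}
    (hβ : |β| ≤ (t ^ 120)⁻¹ / 2) :
    ‖∑ a ∈ (Finset.range p).filter (fun a => a.Coprime p),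
        Dc ((((a : ℝ) / p + β : ℝ) : ℂ) + ((n : ℝ)⁻¹ : ℝ) * I) * ee (-(n * ((a : ℝ) / p + β)))‖ ≤
      28 * Ck * Ct * (n : ℝ) ^ 6 * t ^ 56 := by
  have ht0 : 0 < t := by linarith
  have hn' : (0 : ℝ) < n := by rw [hnt]; positivity
  have hp' : (0 : ℝ) < p := by exact_mod_cast hp.pos
  set ζ : ℂ := (β : ℂ) + ((n : ℝ)⁻¹ : ℝ) * I with hζdef
  have hζim : ζ.im = (n : ℝ)⁻¹ := by simp [hζdef]
  have hζ : 0 < ζ.im := by rw [hζim]; positivity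
  have h1 := dn_cb_inner hCk hkl hJ2 hE hp hpn hζ
  have h2 : ∑ a ∈ (Finset.range p).filter (fun a => a.Coprime p),
        Dc ((((a : ℝ) / p + β : ℝ) : ℂ) + ((n : ℝ)⁻¹ : ℝ) * I) * ee (-(n * ((a : ℝ) / p + β))) =
      ee (-(n * β)) * ∑ a ∈ (Finset.range p).filter (fun a => a.Coprime p),
        Dc ((a : ℂ) / p + ζ) * ee (-(n * ((a : ℝ) / p))) := by
    rw [Finset.mul_sum]
    refine Finset.sum_congr rfl fun a _ => ?_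
    have h3 : ((((a : ℝ) / p + β : ℝ) : ℂ) + ((n : ℝ)⁻¹ : ℝ) * I) = (a : ℂ) / p + ζ := by
      rw [hζdef]; push_cast; ring
    have h4 : (-(n * ((a : ℝ) / p + β)) : ℝ) = -(n * β) + -(n * ((a : ℝ) / p)) := by ring
    rw [h3, h4, dn_cb_ee_add]
    ring
  rw [h2, norm_mul, dn_cb_norm_ee, one_mul]
  refine h1.trans ?_
  rw [hζim]
  have hζ0 : 0 < ‖ζ‖ := norm_pos_iff.2 (by rintro h; rw [h] at hζ; simp at hζ)
  have hζn : ‖ζ‖ ≤ (t ^ 120)⁻¹ / 2 + (n : ℝ)⁻¹ := by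
    rw [hζdef]
    refine (norm_add_le _ _).trans ?_
    rw [norm_mul, Complex.norm_I, mul_one, Complex.norm_real, Complex.norm_real,
      Real.norm_of_nonneg (inv_pos.2 hn').le, Real.norm_eq_abs]
    linarith
  have hx : (n : ℝ)⁻¹ / ((p : ℝ) ^ 2 * ‖ζ‖ ^ 2) = ((p * ‖ζ‖ * t ^ 64) ^ 2)⁻¹ := by
    rw [hnt]
    field_simp
  have hx2 : ((n : ℝ)⁻¹ / ((p : ℝ) ^ 2 * ‖ζ‖ ^ 2)) ^ (-(1 / 2) : ℝ) = p * ‖ζ‖ * t ^ 64 := by
    rw [hx, Real.rpow_neg (by positivity), Real.inv_rpow (by positivity), inv_inv,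
      ← Real.sqrt_eq_rpow, Real.sqrt_sq (by positivity)]
  have hx3 : p * ‖ζ‖ * t ^ 64 ≤ 6 * t ^ 8 := by
    calc p * ‖ζ‖ * t ^ 64 ≤ (4 * t ^ 64) * ((t ^ 120)⁻¹ / 2 + (n : ℝ)⁻¹) * t ^ 64 := by gcongr
      _ = 2 * t ^ 8 + 4 := by
          rw [hnt]
          field_simp
          ring
      _ ≤ _ := by
          have : 1 ≤ t ^ 8 := one_le_pow₀ ht
          linarith
  have hx4 : 1 + ((n : ℝ)⁻¹ / ((p : ℝ) ^ 2 * ‖ζ‖ ^ 2)) ^ (-(1 / 2) : ℝ) ≤ 7 * t ^ 8 := by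
    rw [hx2]
    have : 1 ≤ t ^ 8 := one_le_pow₀ ht
    linarith
  have hp3 : (p : ℝ) ^ (3 / 4 : ℝ) ≤ 4 * t ^ 48 := by
    calc (p : ℝ) ^ (3 / 4 : ℝ) ≤ (4 * t ^ 64) ^ (3 / 4 : ℝ) :=
          Real.rpow_le_rpow hp'.le hpQ (by norm_num)
      _ = 4 ^ (3 / 4 : ℝ) * t ^ 48 := by
          rw [Real.mul_rpow (by norm_num) (by positivity), dn_cb_rp ht0 64 48 _ (by norm_num)]
      _ ≤ 4 ^ (1 : ℝ) * t ^ 48 := by
          refine mul_le_mul_of_nonneg_right ?_ (by positivity)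
          exact Real.rpow_le_rpow_of_exponent_le (by norm_num) (by norm_num)
      _ = _ := by rw [Real.rpow_one]
  have h6 : (((n : ℝ)⁻¹) ^ 6)⁻¹ = (n : ℝ) ^ 6 := by rw [inv_pow, inv_inv]
  rw [h6]
  calc Ck * Ct * (p : ℝ) ^ (3 / 4 : ℝ) * (n : ℝ) ^ 6 *
        (1 + ((n : ℝ)⁻¹ / ((p : ℝ) ^ 2 * ‖ζ‖ ^ 2)) ^ (-(1 / 2) : ℝ))
      ≤ Ck * Ct * (4 * t ^ 48) * (n : ℝ) ^ 6 * (7 * t ^ 8) := by gcongr
    _ = _ := by ring

theorem dn_cb_sum {Ck Ct : ℝ} (hCk : 0 < Ck) (hCt : 0 < Ct)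
    (hkl : ∀ p : ℕ, p.Prime → ∀ j k : ℤ,
      ¬ ((p : ℤ) ∣ j ∧ (p : ℤ) ∣ k) → ‖Kl p j k‖ ≤ Ck * (p : ℝ) ^ (3 / 4 : ℝ))
    (hJ2 : S_J2)
    (hE : ∀ y : ℝ, 0 < y →
      (Summable fun m : ℕ => ‖tau m‖ * Real.exp (-(2 * Real.pi * m * y))) ∧
      ∑' m : ℕ, ‖tau m‖ * Real.exp (-(2 * Real.pi * m * y)) ≤
        Ct * y ^ (-6 : ℝ) * (1 + y ^ (-(1 / 2) : ℝ)))
    {t : ℝ} (ht : 1 ≤ t) {n : ℕ} (hnt : (n : ℝ) = t ^ 128)
    {p : ℕ} (hp : p.Prime) (hpn : ¬ p ∣ n) (hpQ : (p : ℝ) ≤ 4 * t ^ 64) :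
    ‖∑ a ∈ (Finset.range p).filter (fun a => a.Coprime p),
        ∫ β in (-((t ^ 120)⁻¹ / 2))..((t ^ 120)⁻¹ / 2),
          Dc ((((a : ℝ) / p + β : ℝ) : ℂ) + ((n : ℝ)⁻¹ : ℝ) * I) * ee (-(n * ((a : ℝ) / p + β)))‖ ≤
      2 * ((t ^ 120)⁻¹ / 2) * (28 * Ck * Ct * (n : ℝ) ^ 6 * t ^ 56) := by
  have ht0 : 0 < t := by linarith
  have hn' : (0 : ℝ) < n := by rw [hnt]; positivity
  have hδ : 0 < (t ^ 120)⁻¹ / 2 := by positivity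
  set δ := (t ^ 120)⁻¹ / 2 with hδdef
  rw [← intervalIntegral.integral_finsetSum]
  · refine (intervalIntegral.norm_integral_le_of_norm_le_const (C := 28 * Ck * Ct * (n : ℝ) ^ 6 * t ^ 56)
      fun β hβ => ?_).trans (le_of_eq ?_)
    · rw [Set.uIoc_of_le (by linarith), Set.mem_Ioc] at hβ
      exact dn_cb_point hCk hCt hkl hJ2 hE ht hnt hp hpn hpQ (abs_le.2 ⟨hβ.1.le, hβ.2⟩)
    · rw [sub_neg_eq_add, abs_of_pos (by linarith)]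
      ring
  · intro a _
    apply Continuous.intervalIntegrable
    have h1 := dn_cb_cont n (inv_pos.2 hn')
    exact h1.comp (f := fun β : ℝ => (a : ℝ) / p + β) (by fun_prop)

theorem dn_cb_alg1 {δ L M P : ℝ} (hδ : 0 < δ) (hL : 0 < L) :
    1 / (2 * δ * L) * (P * (2 * δ * M)) = P * M / L := by
  field_simp

theorem dn_cb_alg2 {t P K n : ℝ} (ht : 0 < t) (hP : 0 < P) :
    P * (28 * K * n * t ^ 56) / (P * (t ^ 64 / 2)) = 56 * K * n * (t ^ 8)⁻¹ := by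
  field_simp
  ring

theorem dn_cb_alg3 {t C n c : ℝ} (ht : 0 < t) (hc : 0 < c) :
    C * n * t ^ 64 / (c / 8 * t ^ 66) = 8 * C / c * (n * (t ^ 2)⁻¹) := by
  field_simp

theorem dn_cb_alg4 {t c : ℝ} (ht : 0 < t) :
    c / 8 * t ^ 66 = (c / 4 * t ^ 127) * ((t ^ 61)⁻¹ / 2) := by
  field_simp
  ring

theorem p_cb (h1 : S_kl) (h2 : S_pr) (h3 : S_J1) (h4 : S_J2) (h5 : S_tauE) : S_cb := by
  obtain ⟨Ck, hCk, hkl⟩ := h1
  obtain ⟨Ct, hCt, hE⟩ := h5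
  obtain ⟨c, hc, hpr⟩ := h2 (1 / 64) (by norm_num)
  obtain ⟨CJ, hCJ, hJ1⟩ := h3 (1 / 60) (by norm_num) (by norm_num)
  obtain ⟨C0, hC0, hD⟩ := Dc_bound
  obtain ⟨C1, hC1, hT⟩ := tau_bound
  refine ⟨C1 * (2 + 2 / c) + Real.exp (2 * Real.pi) * (8 * CJ * C0 / c + 56 * Ck * Ct), 1 / 64,
    by positivity, by norm_num, fun n hn => ?_⟩
  have hn' : (1 : ℝ) ≤ n := by exact_mod_cast hn
  have hn0 : (0 : ℝ) < n := by linarith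
  obtain ⟨t, ht, hnt⟩ : ∃ t : ℝ, 1 ≤ t ∧ (n : ℝ) = t ^ 128 := by
    refine ⟨(n : ℝ) ^ (1 / 128 : ℝ), Real.one_le_rpow hn' (by norm_num), ?_⟩
    rw [← Real.rpow_natCast, ← Real.rpow_mul hn0.le]
    norm_num
  have ht0 : 0 < t := by linarith
  have hpow : (n : ℝ) ^ (6 - 1 / 64 : ℝ) = (n : ℝ) ^ 6 * (t ^ 2)⁻¹ := by
    rw [Real.rpow_sub hn0, show (6 : ℝ) = ((6 : ℕ) : ℝ) by norm_num, Real.rpow_natCast]
    have : (n : ℝ) ^ (1 / 64 : ℝ) = t ^ 2 := by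
      rw [hnt]; exact dn_cb_rp ht0 128 2 _ (by norm_num)
    rw [this, div_eq_mul_inv]
  rw [hpow]
  have hn6 : 0 < (n : ℝ) ^ 6 := by positivity
  have htr := hT n hn
  by_cases hsmall : t ^ 2 ≤ 2 + 2 / c
  · calc ‖tau n‖ ≤ C1 * (n : ℝ) ^ 6 := htr
      _ = C1 * t ^ 2 * ((n : ℝ) ^ 6 * (t ^ 2)⁻¹) := by
          have h6 : t ^ 2 * (t ^ 2)⁻¹ = 1 := mul_inv_cancel₀ (by positivity)
          linear_combination (-(C1 * (n : ℝ) ^ 6)) * h6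
      _ ≤ C1 * (2 + 2 / c) * ((n : ℝ) ^ 6 * (t ^ 2)⁻¹) := by gcongr
      _ ≤ _ := by
          refine mul_le_mul_of_nonneg_right ?_ (by positivity)
          have : 0 ≤ Real.exp (2 * Real.pi) * (8 * CJ * C0 / c + 56 * Ck * Ct) := by positivity
          linarith
  push Not at hsmall
  have hc2 : 0 < 2 / c := by positivity
  have hQ2 : 2 ≤ t ^ 64 := by
    have : t ^ 2 ≤ t ^ 64 := pow_le_pow_right₀ ht (by norm_num)
    linarith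
  have hct : 2 ≤ c * t ^ 63 := by
    have h6 : t ^ 2 ≤ t ^ 63 := pow_le_pow_right₀ ht (by norm_num)
    have h7 : 2 / c ≤ t ^ 63 := by linarith
    rw [div_le_iff₀ hc] at h7
    linarith
  set P : Finset ℕ := (PQ (t ^ 64)).filter fun p => ¬ p ∣ n with hPdef
  have hcardPQ : c * t ^ 63 ≤ ((PQ (t ^ 64)).card : ℝ) := by
    have := hpr (t ^ 64) hQ2
    rwa [dn_cb_rp ht0 64 63 _ (by norm_num)] at this
  have hcard : c * t ^ 63 / 2 ≤ (P.card : ℝ) := by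
    have := dn_cb_card (Q := t ^ 64) (by linarith) hn (by rw [hnt]; ring)
    linarith
  have hPpos : 0 < (P.card : ℝ) := lt_of_lt_of_le (by positivity) hcard
  have hPmem : ∀ p ∈ P, p.Prime ∧ ¬ p ∣ n ∧ t ^ 64 < p ∧ (p : ℝ) ≤ 4 * t ^ 64 := by
    intro p hp
    rw [hPdef, Finset.mem_filter, PQ, Finset.mem_filter, Finset.mem_Ioc] at hp
    exact ⟨hp.1.2, hp.2, (Nat.floor_lt (by positivity)).1 hp.1.1.1,
      (Nat.le_floor_iff (by positivity)).1 hp.1.1.2⟩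
  set L : ℝ := ∑ q ∈ P, (q.totient : ℝ) with hLdef
  have hL : (P.card : ℝ) * (t ^ 64 / 2) ≤ L := by
    rw [hLdef, ← nsmul_eq_mul]
    refine Finset.card_nsmul_le_sum _ _ _ fun p hp => ?_
    obtain ⟨hp1, -, hp2, -⟩ := hPmem p hp
    rw [Nat.totient_prime hp1]
    have h6 : (1 : ℕ) ≤ p := hp1.one_le
    have h7 : (2 : ℝ) ≤ p := by exact_mod_cast hp1.two_le
    push_cast [Nat.cast_sub h6]
    linarith
  have hLpos : 0 < L := lt_of_lt_of_le (by positivity) hL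
  have hL2 : c / 4 * t ^ 127 ≤ L := by
    refine le_trans ?_ hL
    calc c / 4 * t ^ 127 = (c * t ^ 63 / 2) * (t ^ 64 / 2) := by ring
      _ ≤ _ := mul_le_mul_of_nonneg_right hcard (by positivity)
  set δ : ℝ := (t ^ 120)⁻¹ / 2 with hδdef
  have hδ0 : 0 < δ := by positivity
  have hδ1 : δ ≤ 1 / 2 := by
    have : (t ^ 120)⁻¹ ≤ 1 := inv_le_one_of_one_le₀ (one_le_pow₀ ht)
    rw [hδdef]; linarith
  have hδr : (t ^ 61)⁻¹ / 2 ≤ δ ^ ((1 + 1 / 60) / 2 : ℝ) := by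
    rw [hδdef, div_eq_mul_inv, div_eq_mul_inv, Real.mul_rpow (by positivity) (by positivity),
      Real.inv_rpow (by positivity), dn_cb_rp ht0 120 61 _ (by norm_num)]
    refine mul_le_mul_of_nonneg_left ?_ (by positivity)
    calc (2 : ℝ)⁻¹ = (2 : ℝ)⁻¹ ^ (1 : ℝ) := (Real.rpow_one _).symm
      _ ≤ _ := Real.rpow_le_rpow_of_exponent_ge (by norm_num) (by norm_num) (by norm_num)
  set G : ℝ → ℂ := fun x : ℝ => Dc ((x : ℂ) + ((n : ℝ)⁻¹ : ℝ) * I) * ee (-(n * x)) with hGdef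
  have hGb : ∀ x, ‖G x‖ ≤ C0 * (n : ℝ) ^ 6 := by
    intro x
    have h6 := hD ((x : ℂ) + ((n : ℝ)⁻¹ : ℝ) * I) (by simpa using hn0)
    have h7 : ((x : ℂ) + ((n : ℝ)⁻¹ : ℝ) * I).im = (n : ℝ)⁻¹ := by simp
    rw [h7, inv_pow, ← div_eq_mul_inv, div_le_iff₀ hn6] at h6
    rw [hGdef]
    simp only
    rw [norm_mul, dn_cb_norm_ee, mul_one]
    exact h6
  have hJ := hJ1 (t ^ 64) (C0 * (n : ℝ) ^ 6) δ P G (by linarith) (by positivity) hδ0 hδ1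
    (Finset.card_pos.1 (by exact_mod_cast hPpos))
    (fun q hq => ⟨(hPmem q hq).1.one_le, (hPmem q hq).2.2.2⟩)
    (dn_cb_cont n (inv_pos.2 hn0)) (dn_cb_per n (inv_pos.2 hn0)) hGb
  rw [← hLdef] at hJ
  -- the error term
  have herr : CJ * (C0 * (n : ℝ) ^ 6) * t ^ 64 / (L * δ ^ ((1 + 1 / 60) / 2 : ℝ)) ≤
      8 * CJ * C0 / c * ((n : ℝ) ^ 6 * (t ^ 2)⁻¹) := by
    have h6 : c / 8 * t ^ 66 ≤ L * δ ^ ((1 + 1 / 60) / 2 : ℝ) := by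
      calc c / 8 * t ^ 66 = (c / 4 * t ^ 127) * ((t ^ 61)⁻¹ / 2) := dn_cb_alg4 ht0
        _ ≤ _ := mul_le_mul hL2 hδr (by positivity) hLpos.le
    calc CJ * (C0 * (n : ℝ) ^ 6) * t ^ 64 / (L * δ ^ ((1 + 1 / 60) / 2 : ℝ))
        ≤ CJ * (C0 * (n : ℝ) ^ 6) * t ^ 64 / (c / 8 * t ^ 66) := by gcongr
      _ = (CJ * C0) * (n : ℝ) ^ 6 * t ^ 64 / (c / 8 * t ^ 66) := by
          rw [mul_assoc CJ C0 ((n : ℝ) ^ 6)]
      _ = 8 * (CJ * C0) / c * ((n : ℝ) ^ 6 * (t ^ 2)⁻¹) := dn_cb_alg3 ht0 hc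
      _ = _ := by rw [mul_assoc (8 : ℝ) CJ C0]
  -- the main term
  set M : ℝ := 28 * Ck * Ct * (n : ℝ) ^ 6 * t ^ 56 with hM
  have hsum : ‖∑ q ∈ P, ∑ a ∈ (Finset.range q).filter (fun a => a.Coprime q),
        ∫ β in (-δ)..δ, G ((a : ℝ) / q + β)‖ ≤ (P.card : ℝ) * (2 * δ * M) := by
    refine (norm_sum_le _ _).trans ?_
    rw [← nsmul_eq_mul]
    refine Finset.sum_le_card_nsmul _ _ _ fun p hp => ?_
    obtain ⟨hp1, hp2, -, hp3⟩ := hPmem p hp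
    exact dn_cb_sum hCk hCt hkl h4 hE ht hnt hp1 hp2 hp3
  have hmain : ‖1 / ((2 * δ * L : ℝ) : ℂ) * ∑ q ∈ P,
      ∑ a ∈ (Finset.range q).filter (fun a => a.Coprime q),
        ∫ β in (-δ)..δ, G ((a : ℝ) / q + β)‖ ≤ 56 * Ck * Ct * ((n : ℝ) ^ 6 * (t ^ 2)⁻¹) := by
    rw [norm_mul, norm_div, norm_one, Complex.norm_real, Real.norm_of_nonneg (by positivity)]
    calc 1 / (2 * δ * L) * ‖∑ q ∈ P, ∑ a ∈ (Finset.range q).filter (fun a => a.Coprime q),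
        ∫ β in (-δ)..δ, G ((a : ℝ) / q + β)‖
        ≤ 1 / (2 * δ * L) * ((P.card : ℝ) * (2 * δ * M)) := by gcongr
      _ = (P.card : ℝ) * M / L := dn_cb_alg1 hδ0 hLpos
      _ ≤ (P.card : ℝ) * M / ((P.card : ℝ) * (t ^ 64 / 2)) := by gcongr
      _ = (P.card : ℝ) * (28 * (Ck * Ct) * (n : ℝ) ^ 6 * t ^ 56) /
            ((P.card : ℝ) * (t ^ 64 / 2)) := by rw [hM, mul_assoc (28 : ℝ) Ck Ct]
      _ = 56 * (Ck * Ct) * (n : ℝ) ^ 6 * (t ^ 8)⁻¹ := dn_cb_alg2 ht0 hPpos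
      _ ≤ 56 * (Ck * Ct) * (n : ℝ) ^ 6 * (t ^ 2)⁻¹ := by
          have h6 : t ^ 2 ≤ t ^ 8 := pow_le_pow_right₀ ht (by norm_num)
          have h7 : (t ^ 8)⁻¹ ≤ (t ^ 2)⁻¹ := inv_anti₀ (by positivity) h6
          exact mul_le_mul_of_nonneg_left h7 (by positivity)
      _ = _ := by ring
  have hfin : ‖∫ x in (0 : ℝ)..1, G x‖ ≤ 8 * CJ * C0 / c * ((n : ℝ) ^ 6 * (t ^ 2)⁻¹) +
      56 * Ck * Ct * ((n : ℝ) ^ 6 * (t ^ 2)⁻¹) := by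
    have h6 := norm_le_norm_sub_add (∫ x in (0 : ℝ)..1, G x) (1 / ((2 * δ * L : ℝ) : ℂ) *
      ∑ q ∈ P, ∑ a ∈ (Finset.range q).filter (fun a => a.Coprime q),
        ∫ β in (-δ)..δ, G ((a : ℝ) / q + β))
    exact h6.trans (add_le_add (hJ.trans herr) hmain)
  rw [dn_cb_tau n hn]
  have h6 : 0 ≤ C1 * (2 + 2 / c) * ((n : ℝ) ^ 6 * (t ^ 2)⁻¹) := by positivity
  calc Real.exp (2 * Real.pi) * ‖∫ x in (0 : ℝ)..1, G x‖
      ≤ Real.exp (2 * Real.pi) * (8 * CJ * C0 / c * ((n : ℝ) ^ 6 * (t ^ 2)⁻¹) +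
      56 * Ck * Ct * ((n : ℝ) ^ 6 * (t ^ 2)⁻¹)) :=
        mul_le_mul_of_nonneg_left hfin (Real.exp_pos _).le
    _ ≤ _ := by linarith

end Pool.Agent.Lib.MP_cd509c_nt.DN
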