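import Pool.Agent.Lib.MP_cd509c_nt.DN.Defs

/-!
# Piece `cnt1`: the first count
-/

set_option autoImplicit false

namespace Pool.Agent.Lib.MP_cd509c_nt.DN

open Complex MeasureTheory Set

/-- disjoint windows -/
private lemma dn_cnt1_dis (g : ℝ → ℝ) (hg : Continuous g) (hg0 : ∀ x, 0 ≤ g x) (b A A' : ℝ)
    (hb : 0 < b) (hA : A ≤ A') (S : Finset ℤ) (hS : ∀ k ∈ S, A ≤ k * b ∧ (k + 1) * b ≤ A') :
    ∑ k ∈ S, ∫ y in (k * b : ℝ)..((k + 1) * b), g y ≤ ∫ y in A..A', g y := by
  have h1 : ∑ k ∈ S, ∫ y in (k * b : ℝ)..((k + 1) * b), g y =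
      ∑ k ∈ S, ∫ y in Set.Ioc (k * b : ℝ) ((k + 1) * b), g y := by
    apply Finset.sum_congr rfl
    intro k _
    rw [intervalIntegral.integral_of_le (by nlinarith)]
  rw [h1, ← integral_biUnion_finset S (fun k _ => measurableSet_Ioc) _
    (fun k _ => (hg.continuousOn.integrableOn_compact isCompact_Icc).mono_set
      Set.Ioc_subset_Icc_self), intervalIntegral.integral_of_le hA]
  · apply setIntegral_mono_set
    · exact (hg.continuousOn.integrableOn_compact isCompact_Icc).mono_set Set.Ioc_subset_Icc_self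
    · exact Filter.Eventually.of_forall fun x => hg0 x
    · apply LE.le.eventuallyLE
      intro x hx
      rw [Set.mem_iUnion₂] at hx
      obtain ⟨k, hk, hx⟩ := hx
      exact ⟨lt_of_le_of_lt (hS k hk).1 hx.1, le_trans hx.2 (hS k hk).2⟩
  · intro i _ j _ hij
    rw [Function.onFun, Set.disjoint_left]
    intro x hx hx'
    apply hij
    have h1 : ((i : ℝ) - j) * b < 1 * b := by nlinarith [hx.1, hx'.2]
    have h2 : ((j : ℝ) - i) * b < 1 * b := by nlinarith [hx'.1, hx.2]
    have h3 := lt_of_mul_lt_mul_right h1 hb.le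
    have h4 := lt_of_mul_lt_mul_right h2 hb.le
    have h5 : i - j < 1 := by exact_mod_cast h3
    have h6 : j - i < 1 := by exact_mod_cast h4
    omega

/-- overlapping windows -/
private lemma dn_cnt1_win (g : ℝ → ℝ) (hg : Continuous g) (hg0 : ∀ x, 0 ≤ g x) (b A A' : ℝ)
    (hb : 0 < b) (hA : A ≤ A') (S : Finset ℤ)
    (hS : ∀ k ∈ S, A ≤ (k - 401) * b ∧ (k + 402) * b ≤ A') :
    ∑ k ∈ S, ∫ y in ((k - 401) * b : ℝ)..((k + 402) * b), g y ≤ 803 * ∫ y in A..A', g y := by
  have h1 : ∀ k ∈ S, ∫ y in ((k - 401) * b : ℝ)..((k + 402) * b), g y =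
      ∑ j ∈ Finset.range 803, ∫ y in ((k - 401 + j) * b : ℝ)..((k - 401 + j + 1) * b), g y := by
    intro k _
    have := intervalIntegral.sum_integral_adjacent_intervals (μ := volume) (f := g)
      (a := fun j : ℕ => ((k : ℝ) - 401 + j) * b) (n := 803)
      (fun j _ => hg.intervalIntegrable _ _)
    simp only [Nat.cast_zero, add_zero] at this
    rw [show ((k : ℝ) + 402) * b = (k - 401 + ((803 : ℕ) : ℝ)) * b by push_cast; ring, ← this]
    apply Finset.sum_congr rfl
    intro j _
    rw [show ((k : ℝ) - 401 + ((j + 1 : ℕ) : ℝ)) = k - 401 + j + 1 by push_cast; ring]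
  rw [Finset.sum_congr rfl h1, Finset.sum_comm]
  have h2 : ∀ j ∈ Finset.range 803, ∑ k ∈ S,
      ∫ y in ((k - 401 + j) * b : ℝ)..((k - 401 + j + 1) * b), g y ≤ ∫ y in A..A', g y := by
    intro j hj
    have hj' : j + 1 ≤ 803 := by
      have := Finset.mem_range.mp hj
      omega
    have hj2 : (j : ℝ) + 1 ≤ 803 := by exact_mod_cast hj'
    have h3 := dn_cnt1_dis g hg hg0 b A A' hb hA
      (S.map (Equiv.addRight ((j : ℤ) - 401)).toEmbedding) (by
        intro k hk
        rw [Finset.mem_map] at hk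
        obtain ⟨k', hk', rfl⟩ := hk
        rw [Equiv.coe_toEmbedding, Equiv.coe_addRight]
        push_cast
        obtain ⟨h4, h5⟩ := hS k' hk'
        have h6 : (0 : ℝ) ≤ (j : ℝ) * b := by positivity
        have h7 : ((j : ℝ) + 1) * b ≤ 803 * b := mul_le_mul_of_nonneg_right hj2 hb.le
        constructor <;> nlinarith)
    rw [Finset.sum_map] at h3
    refine le_trans (le_of_eq ?_) h3
    apply Finset.sum_congr rfl
    intro k _
    rw [Equiv.coe_toEmbedding, Equiv.coe_addRight]
    push_cast
    rw [show (k : ℝ) + (j - 401) = k - 401 + j by ring]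
  refine le_trans (Finset.sum_le_sum h2) ?_
  rw [Finset.sum_const, Finset.card_range, nsmul_eq_mul]
  push_cast
  exact le_rfl

/-- the inner integral is continuous -/
private lemma dn_cnt1_cont (f : ℂ → ℂ) (hf : Continuous f) (p q : ℝ) :
    Continuous (fun σ : ℝ => ∫ y in p..q, ‖f (σ + y * I)‖) := by
  apply intervalIntegral.continuous_parametric_intervalIntegral_of_continuous'
  fun_prop

theorem p_cnt1 (hs : S_sub) (F : ℝ → ℝ) (h : S_I1 F) : S_cnt1 F := by
  obtain ⟨θ₀, hθ₀, h⟩ := h
  refine ⟨θ₀, hθ₀, fun θ B hθ hθ1 hB => ?_⟩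
  obtain ⟨C, c, hC, hc, h⟩ := h θ (401 * B) hθ hθ1 (by linarith)
  refine ⟨2 * 256 * 803 * 401 * C, c / 16, 804 * B + 2, by positivity, by positivity,
    by linarith, ?_⟩
  intro T hT b hb hbB S hS
  have hT2 : 2 ≤ T := by linarith
  have hlog : 0 < Real.log T := Real.log_pos (by linarith)
  set f : ℂ → ℂ := fun w => LL w * Mol (T ^ θ) w - 1 with hf
  have hLL : Differentiable ℂ LL := by
    unfold LL
    exact Lf_differentiable.comp (by fun_prop)
  have hMol : Differentiable ℂ (Mol (T ^ θ)) := by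
    unfold Mol
    apply Differentiable.fun_sum
    intro n hn
    have hn1 : (n : ℂ) ≠ 0 := by
      have := (Finset.mem_Icc.mp hn).1
      exact_mod_cast (by omega : n ≠ 0)
    apply Differentiable.const_mul
    intro z
    exact (DifferentiableAt.const_cpow (by fun_prop) (Or.inl hn1))
  have hfd : Differentiable ℂ f := (hLL.mul hMol).sub (differentiable_const _)
  have hfc := hfd.continuous
  have hF : 0 ≤ C * T * F T := by
    have h0 := h T hT2 0 le_rfl (by linarith)
    have : 0 ≤ ∫ y in (T / 2)..(4 * T), ‖LL ((0 : ℝ) + y * I) * Mol (T ^ θ) ((0 : ℝ) + y * I) - 1‖ :=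
      intervalIntegral.integral_nonneg (by linarith) (fun _ _ => norm_nonneg _)
    have h1 := le_trans this h0
    rw [mul_zero, zero_mul, neg_zero, Real.exp_zero, mul_one] at h1
    exact h1
  have key : ∀ k ∈ S, (1 : ℝ) / 2 ≤ 256 / b ^ 2 *
      ∫ σ in (b / 16)..(401 * b), ∫ y in ((k - 401) * b : ℝ)..((k + 402) * b), ‖f (σ + y * I)‖ := by
    intro k hk
    obtain ⟨_, _, w, hw1, hw2, hw3, hw4, hw5⟩ := hS k hk
    have h1 := hs f w (b / 16) hfd (by positivity)
    have h2 : ∫ σ in (w.re - b / 16)..(w.re + b / 16),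
        ∫ y in (w.im - b / 16)..(w.im + b / 16), ‖f (σ + y * I)‖ ≤
        ∫ σ in (w.re - b / 16)..(w.re + b / 16),
          ∫ y in ((k - 401) * b : ℝ)..((k + 402) * b), ‖f (σ + y * I)‖ := by
      apply intervalIntegral.integral_mono_on (by linarith)
        ((dn_cnt1_cont f hfc _ _).intervalIntegrable _ _)
        ((dn_cnt1_cont f hfc _ _).intervalIntegrable _ _)
      intro σ _
      apply intervalIntegral.integral_mono_interval
      · nlinarith
      · linarith
      · nlinarith
      · exact Filter.Eventually.of_forall fun _ => norm_nonneg _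
      · apply Continuous.intervalIntegrable
        fun_prop
    have h3 : ∫ σ in (w.re - b / 16)..(w.re + b / 16),
          ∫ y in ((k - 401) * b : ℝ)..((k + 402) * b), ‖f (σ + y * I)‖ ≤
        ∫ σ in (b / 16)..(401 * b),
          ∫ y in ((k - 401) * b : ℝ)..((k + 402) * b), ‖f (σ + y * I)‖ := by
      apply intervalIntegral.integral_mono_interval
      · linarith
      · linarith
      · linarith
      · refine Filter.Eventually.of_forall fun _ => ?_
        apply intervalIntegral.integral_nonneg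
        · nlinarith
        · intro _ _
          exact norm_nonneg _
      · exact (dn_cnt1_cont f hfc _ _).intervalIntegrable _ _
    have h4 : (1 : ℝ) / (b / 16) ^ 2 = 256 / b ^ 2 := by
      field_simp
      norm_num
    rw [h4] at h1
    refine le_trans hw5.le (le_trans h1 ?_)
    exact mul_le_mul_of_nonneg_left (le_trans h2 h3) (by positivity)
  have hsum : (S.card : ℝ) * (1 / 2) ≤ 256 / b ^ 2 * ∑ k ∈ S,
      ∫ σ in (b / 16)..(401 * b), ∫ y in ((k - 401) * b : ℝ)..((k + 402) * b), ‖f (σ + y * I)‖ := by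
    rw [Finset.mul_sum, ← nsmul_eq_mul]
    exact Finset.card_nsmul_le_sum S _ _ key
  have hswap : ∑ k ∈ S,
      ∫ σ in (b / 16)..(401 * b), ∫ y in ((k - 401) * b : ℝ)..((k + 402) * b), ‖f (σ + y * I)‖ =
      ∫ σ in (b / 16)..(401 * b), ∑ k ∈ S,
        ∫ y in ((k - 401) * b : ℝ)..((k + 402) * b), ‖f (σ + y * I)‖ := by
    rw [intervalIntegral.integral_finsetSum]
    intro k _
    exact (dn_cnt1_cont f hfc _ _).intervalIntegrable _ _
  have hbd : ∫ σ in (b / 16)..(401 * b), ∑ k ∈ S,
        ∫ y in ((k - 401) * b : ℝ)..((k + 402) * b), ‖f (σ + y * I)‖ ≤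
      ∫ σ in (b / 16)..(401 * b), 803 * (C * T * F T * Real.exp (-(c / 16 * b * Real.log T))) := by
    apply intervalIntegral.integral_mono_on (by linarith)
    · apply Continuous.intervalIntegrable
      exact continuous_finsetSum S fun k _ => dn_cnt1_cont f hfc _ _
    · exact continuous_const.intervalIntegrable _ _
    · intro σ hσ
      have h1 := dn_cnt1_win (fun y => ‖f (σ + y * I)‖) (by fun_prop) (fun _ => norm_nonneg _)
        b (T / 2) (4 * T) hb (by linarith) S (by
          intro k hk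
          obtain ⟨hk1, hk2, _⟩ := hS k hk
          constructor <;> nlinarith)
      refine le_trans h1 ?_
      apply mul_le_mul_of_nonneg_left _ (by norm_num)
      refine le_trans (h T hT2 σ (by linarith [hσ.1]) (by linarith [hσ.2])) ?_
      apply mul_le_mul_of_nonneg_left _ hF
      apply Real.exp_le_exp.mpr
      have : c * (b / 16) * Real.log T ≤ c * σ * Real.log T := by
        apply mul_le_mul_of_nonneg_right _ hlog.le
        exact mul_le_mul_of_nonneg_left hσ.1 hc.le
      nlinarith
  rw [intervalIntegral.integral_const, smul_eq_mul] at hbd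
  have hfin : (S.card : ℝ) * (1 / 2) ≤ 256 / b ^ 2 * (401 * b *
      (803 * (C * T * F T * Real.exp (-(c / 16 * b * Real.log T))))) := by
    refine le_trans hsum ?_
    apply mul_le_mul_of_nonneg_left _ (by positivity)
    rw [hswap]
    refine le_trans hbd ?_
    apply mul_le_mul_of_nonneg_right
    · linarith
    · positivity
  have e : 2 * 256 * 803 * 401 * C * F T * (T / b) * Real.exp (-(c / 16 * b * Real.log T)) =
      2 * (256 / b ^ 2 * (401 * b *
      (803 * (C * T * F T * Real.exp (-(c / 16 * b * Real.log T)))))) := by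
    field_simp
  rw [e]
  linarith

end Pool.Agent.Lib.MP_cd509c_nt.DN
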