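import Pool.Agent.Lib.MP_cd509c_nt.DN.Defs

/-!
# Piece `cnt2`: the second count
-/

set_option autoImplicit false

namespace Pool.Agent.Lib.MP_cd509c_nt.DN

open Complex MeasureTheory Set

/-- disjoint windows -/
private lemma dn_cnt2_dis (g : ℝ → ℝ) (hg : Continuous g) (hg0 : ∀ x, 0 ≤ g x) (b A A' : ℝ)
    (hb : 0 < b) (hA : A ≤ A') (S : Finset ℤ) (hS : ∀ k ∈ S, A ≤ k * b ∧ (k + 1) * b ≤ A') :
    ∑ k ∈ S, ∫ y in (k * b : ℝ)..((k + 1) * b), g y ≤ ∫ y in A..A', g y := by
  have h1 : ∑ k ∈ S, ∫ y in (k * b : ℝ)..((k + 1) * b), g y =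
      ∑ k ∈ S, ∫ y in Set.Ioc (k * b : ℝ) ((k + 1) * b), g y := by
    apply Finset.sum_congr rfl
    intro k _
    rw [intervalIntegral.integral_of_le (by nlinarith)]
  rw [h1, ← integral_biUnion_finset S (fun k _ => measurableSet_Ioc) _
    (fun k _ => (hg.continuousOn.integrableOn_compact isCompact_Icc).mono_set
      Set.Ioc_subset_Icc_self), intervalIntegral.integral_of_le hA]
  · apply setIntegral_mono_set
    · exact (hg.continuousOn.integrableOn_compact isCompact_Icc).mono_set Set.Ioc_subset_Icc_self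
    · exact Filter.Eventually.of_forall fun x => hg0 x
    · apply LE.le.eventuallyLE
      intro x hx
      rw [Set.mem_iUnion₂] at hx
      obtain ⟨k, hk, hx⟩ := hx
      exact ⟨lt_of_le_of_lt (hS k hk).1 hx.1, le_trans hx.2 (hS k hk).2⟩
  · intro i _ j _ hij
    rw [Function.onFun, Set.disjoint_left]
    intro x hx hx'
    apply hij
    have h1 : ((i : ℝ) - j) * b < 1 * b := by nlinarith [hx.1, hx'.2]
    have h2 : ((j : ℝ) - i) * b < 1 * b := by nlinarith [hx'.1, hx.2]
    have h3 := lt_of_mul_lt_mul_right h1 hb.le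
    have h4 := lt_of_mul_lt_mul_right h2 hb.le
    have h5 : i - j < 1 := by exact_mod_cast h3
    have h6 : j - i < 1 := by exact_mod_cast h4
    omega

/-- overlapping windows -/
private lemma dn_cnt2_win (g : ℝ → ℝ) (hg : Continuous g) (hg0 : ∀ x, 0 ≤ g x) (b A A' : ℝ)
    (hb : 0 < b) (hA : A ≤ A') (S : Finset ℤ)
    (hS : ∀ k ∈ S, A ≤ (k - 401) * b ∧ (k + 402) * b ≤ A') :
    ∑ k ∈ S, ∫ y in ((k - 401) * b : ℝ)..((k + 402) * b), g y ≤ 803 * ∫ y in A..A', g y := by
  have h1 : ∀ k ∈ S, ∫ y in ((k - 401) * b : ℝ)..((k + 402) * b), g y =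
      ∑ j ∈ Finset.range 803, ∫ y in ((k - 401 + j) * b : ℝ)..((k - 401 + j + 1) * b), g y := by
    intro k _
    have := intervalIntegral.sum_integral_adjacent_intervals (μ := volume) (f := g)
      (a := fun j : ℕ => ((k : ℝ) - 401 + j) * b) (n := 803)
      (fun j _ => hg.intervalIntegrable _ _)
    simp only [Nat.cast_zero, add_zero] at this
    rw [show ((k : ℝ) + 402) * b = (k - 401 + ((803 : ℕ) : ℝ)) * b by push_cast; ring, ← this]
    apply Finset.sum_congr rfl
    intro j _
    rw [show ((k : ℝ) - 401 + ((j + 1 : ℕ) : ℝ)) = k - 401 + j + 1 by push_cast; ring]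
  rw [Finset.sum_congr rfl h1, Finset.sum_comm]
  have h2 : ∀ j ∈ Finset.range 803, ∑ k ∈ S,
      ∫ y in ((k - 401 + j) * b : ℝ)..((k - 401 + j + 1) * b), g y ≤ ∫ y in A..A', g y := by
    intro j hj
    have hj' : j + 1 ≤ 803 := by
      have := Finset.mem_range.mp hj
      omega
    have hj2 : (j : ℝ) + 1 ≤ 803 := by exact_mod_cast hj'
    have h3 := dn_cnt2_dis g hg hg0 b A A' hb hA
      (S.map (Equiv.addRight ((j : ℤ) - 401)).toEmbedding) (by
        intro k hk
        rw [Finset.mem_map] at hk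
        obtain ⟨k', hk', rfl⟩ := hk
        rw [Equiv.coe_toEmbedding, Equiv.coe_addRight]
        push_cast
        obtain ⟨h4, h5⟩ := hS k' hk'
        have h6 : (0 : ℝ) ≤ (j : ℝ) * b := by positivity
        have h7 : ((j : ℝ) + 1) * b ≤ 803 * b := mul_le_mul_of_nonneg_right hj2 hb.le
        constructor <;> nlinarith)
    rw [Finset.sum_map] at h3
    refine le_trans (le_of_eq ?_) h3
    apply Finset.sum_congr rfl
    intro k _
    rw [Equiv.coe_toEmbedding, Equiv.coe_addRight]
    push_cast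
    rw [show (k : ℝ) + (j - 401) = k - 401 + j by ring]
  refine le_trans (Finset.sum_le_sum h2) ?_
  rw [Finset.sum_const, Finset.card_range, nsmul_eq_mul]
  push_cast
  exact le_rfl

/-- the inner integral is continuous -/
private lemma dn_cnt2_cont (f : ℂ → ℂ) (hf : Continuous f) (p q : ℝ) :
    Continuous (fun σ : ℝ => ∫ y in p..q, ‖f (σ + y * I)‖) := by
  apply intervalIntegral.continuous_parametric_intervalIntegral_of_continuous'
  fun_prop

/-- a pair of windows -/
private lemma dn_cnt2_pair (a m : ℝ → ℝ) (ha : Continuous a) (hm : Continuous m)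
    (ha0 : ∀ x, 0 ≤ a x) (hm0 : ∀ x, 0 ≤ m x) (b A A' K : ℝ)
    (hb : 0 < b) (hA : A ≤ A') (S : Finset ℤ)
    (hS : ∀ k ∈ S, A ≤ (k - 401) * b ∧ (k + 402) * b ≤ A')
    (hK : ∀ s : ℝ, |s| ≤ 803 * b → ∫ y in A..A', a y * m (y + s) ≤ K) :
    ∑ k ∈ S, (∫ y in ((k - 401) * b : ℝ)..((k + 402) * b), a y) *
      (∫ y in ((k - 401) * b : ℝ)..((k + 402) * b), m y) ≤ 803 * (1606 * b * K) := by
  set h : ℝ → ℝ := fun y => a y * ∫ s in (-(803 * b))..(803 * b), m (y + s) with hh
  have hmc : Continuous (fun y : ℝ => ∫ s in (-(803 * b))..(803 * b), m (y + s)) := by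
    apply intervalIntegral.continuous_parametric_intervalIntegral_of_continuous'
    fun_prop
  have hhc : Continuous h := ha.mul hmc
  have hh0 : ∀ y, 0 ≤ h y := fun y => mul_nonneg (ha0 y)
    (intervalIntegral.integral_nonneg (by linarith) fun _ _ => hm0 _)
  have h1 : ∀ k ∈ S, (∫ y in ((k - 401) * b : ℝ)..((k + 402) * b), a y) *
      (∫ y in ((k - 401) * b : ℝ)..((k + 402) * b), m y) ≤
      ∫ y in ((k - 401) * b : ℝ)..((k + 402) * b), h y := by
    intro k _
    rw [← intervalIntegral.integral_mul_const]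
    apply intervalIntegral.integral_mono_on (by nlinarith)
      ((ha.mul continuous_const).intervalIntegrable _ _) (hhc.intervalIntegrable _ _)
    intro y hy
    apply mul_le_mul_of_nonneg_left _ (ha0 y)
    have e : ∫ s in (-(803 * b))..(803 * b), m (y + s) =
        ∫ s in (y + -(803 * b))..(y + 803 * b), m s := by
      rw [intervalIntegral.integral_comp_add_left]
    rw [e]
    apply intervalIntegral.integral_mono_interval
    · nlinarith [hy.2]
    · nlinarith
    · nlinarith [hy.1]
    · exact Filter.Eventually.of_forall fun _ => hm0 _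
    · exact hm.intervalIntegrable _ _
  refine le_trans (Finset.sum_le_sum h1) ?_
  refine le_trans (dn_cnt2_win h hhc hh0 b A A' hb hA S hS) ?_
  apply mul_le_mul_of_nonneg_left _ (by norm_num)
  have h2 : ∫ y in A..A', h y =
      ∫ y in A..A', ∫ s in (-(803 * b))..(803 * b), a y * m (y + s) := by
    apply intervalIntegral.integral_congr
    intro y _
    simp only [hh]
    rw [intervalIntegral.integral_const_mul]
  have h3 : ∫ y in A..A', ∫ s in (-(803 * b))..(803 * b), a y * m (y + s) =
      ∫ s in (-(803 * b))..(803 * b), ∫ y in A..A', a y * m (y + s) := by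
    apply MeasureTheory.intervalIntegral_intervalIntegral_swap
    have hc : Continuous (Function.uncurry fun y s : ℝ => a y * m (y + s)) := by
      unfold Function.uncurry
      fun_prop
    apply (hc.continuousOn.integrableOn_compact ((isCompact_Icc (a := min A A')
      (b := max A A')).prod (isCompact_Icc (a := min (-(803 * b)) (803 * b))
      (b := max (-(803 * b)) (803 * b))))).mono_set
    exact Set.prod_mono Set.Ioc_subset_Icc_self Set.Ioc_subset_Icc_self
  rw [h2, h3]
  have h4 : ∫ s in (-(803 * b))..(803 * b), ∫ y in A..A', a y * m (y + s) ≤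
      ∫ s in (-(803 * b))..(803 * b), K := by
    apply intervalIntegral.integral_mono_on (by linarith)
    · apply Continuous.intervalIntegrable
      apply intervalIntegral.continuous_parametric_intervalIntegral_of_continuous'
      unfold Function.uncurry
      fun_prop
    · exact continuous_const.intervalIntegrable _ _
    · intro s hs
      exact hK s (abs_le.mpr ⟨hs.1, hs.2⟩)
  refine le_trans h4 (le_of_eq ?_)
  rw [intervalIntegral.integral_const, smul_eq_mul]
  ring

/-- sub-mean value inequality, windows -/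
private lemma dn_cnt2_one (hs : S_sub) (f : ℂ → ℂ) (hf : Differentiable ℂ f) (b κ p : ℝ) (k : ℤ)
    (w : ℂ) (hb : 0 < b) (hκ : 0 < κ) (hκ1 : κ ≤ 1) (hw1 : p + κ * b ≤ w.re)
    (hw2 : w.re ≤ 400 * b) (hw3 : (k - 400) * b ≤ w.im) (hw4 : w.im ≤ (k + 401) * b) :
    ‖f w‖ ≤ 1 / (κ * b) ^ 2 *
      ∫ σ in p..(401 * b), ∫ y in ((k - 401) * b : ℝ)..((k + 402) * b), ‖f (σ + y * I)‖ := by
  have hfc := hf.continuous
  have hκb : κ * b ≤ b := by nlinarith
  have hκb0 : 0 < κ * b := by positivity
  have h1 := hs f w (κ * b) hf hκb0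
  have h2 : ∫ σ in (w.re - κ * b)..(w.re + κ * b),
      ∫ y in (w.im - κ * b)..(w.im + κ * b), ‖f (σ + y * I)‖ ≤
      ∫ σ in (w.re - κ * b)..(w.re + κ * b),
        ∫ y in ((k - 401) * b : ℝ)..((k + 402) * b), ‖f (σ + y * I)‖ := by
    apply intervalIntegral.integral_mono_on (by linarith)
      ((dn_cnt2_cont f hfc _ _).intervalIntegrable _ _)
      ((dn_cnt2_cont f hfc _ _).intervalIntegrable _ _)
    intro σ _
    apply intervalIntegral.integral_mono_interval
    · nlinarith
    · linarith
    · nlinarith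
    · exact Filter.Eventually.of_forall fun _ => norm_nonneg _
    · apply Continuous.intervalIntegrable
      fun_prop
  have h3 : ∫ σ in (w.re - κ * b)..(w.re + κ * b),
        ∫ y in ((k - 401) * b : ℝ)..((k + 402) * b), ‖f (σ + y * I)‖ ≤
      ∫ σ in p..(401 * b),
        ∫ y in ((k - 401) * b : ℝ)..((k + 402) * b), ‖f (σ + y * I)‖ := by
    apply intervalIntegral.integral_mono_interval
    · linarith
    · linarith
    · linarith
    · refine Filter.Eventually.of_forall fun _ => ?_
      apply intervalIntegral.integral_nonneg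
      · nlinarith
      · intro _ _
        exact norm_nonneg _
    · exact (dn_cnt2_cont f hfc _ _).intervalIntegrable _ _
  refine le_trans h1 ?_
  exact mul_le_mul_of_nonneg_left (le_trans h2 h3) (by positivity)

/-- sums of products of iterated integrals -/
private lemma dn_cnt2_sum (f g : ℂ → ℂ) (hf : Continuous f) (hg : Continuous g) (b p p' K : ℝ)
    (_hb : 0 < b) (hp : p ≤ 401 * b) (hp' : p' ≤ 401 * b) (S : Finset ℤ)
    (hK : ∀ σ σ' : ℝ, p ≤ σ → σ ≤ 401 * b → p' ≤ σ' → σ' ≤ 401 * b →
      ∑ k ∈ S, (∫ y in ((k - 401) * b : ℝ)..((k + 402) * b), ‖f (σ + y * I)‖) *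
      (∫ y in ((k - 401) * b : ℝ)..((k + 402) * b), ‖g (σ' + y * I)‖) ≤ K) :
    ∑ k ∈ S, (∫ σ in p..(401 * b), ∫ y in ((k - 401) * b : ℝ)..((k + 402) * b), ‖f (σ + y * I)‖) *
      (∫ σ in p'..(401 * b), ∫ y in ((k - 401) * b : ℝ)..((k + 402) * b), ‖g (σ + y * I)‖) ≤
      (401 * b - p) * ((401 * b - p') * K) := by
  set P : ℤ → ℝ → ℝ := fun k σ => ∫ y in ((k - 401) * b : ℝ)..((k + 402) * b), ‖f (σ + y * I)‖
    with hP
  set Q : ℤ → ℝ → ℝ := fun k σ => ∫ y in ((k - 401) * b : ℝ)..((k + 402) * b), ‖g (σ + y * I)‖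
    with hQ
  have hPc : ∀ k, Continuous (P k) := fun k => dn_cnt2_cont f hf _ _
  have hQc : ∀ k, Continuous (Q k) := fun k => dn_cnt2_cont g hg _ _
  change ∑ k ∈ S, (∫ σ in p..(401 * b), P k σ) * (∫ σ in p'..(401 * b), Q k σ) ≤ _
  have h1 : ∑ k ∈ S, (∫ σ in p..(401 * b), P k σ) * (∫ σ in p'..(401 * b), Q k σ) =
      ∫ σ in p..(401 * b), ∑ k ∈ S, P k σ * (∫ σ in p'..(401 * b), Q k σ) := by
    rw [intervalIntegral.integral_finsetSum]
    · apply Finset.sum_congr rfl
      intro k _
      rw [intervalIntegral.integral_mul_const]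
    · intro k _
      exact ((hPc k).mul continuous_const).intervalIntegrable _ _
  have h2 : ∫ σ in p..(401 * b), ∑ k ∈ S, P k σ * (∫ σ in p'..(401 * b), Q k σ) ≤
      ∫ σ in p..(401 * b), (401 * b - p') * K := by
    apply intervalIntegral.integral_mono_on hp
    · apply Continuous.intervalIntegrable
      exact continuous_finsetSum S fun k _ => (hPc k).mul continuous_const
    · exact continuous_const.intervalIntegrable _ _
    · intro σ hσ
      have h3 : ∑ k ∈ S, P k σ * (∫ σ in p'..(401 * b), Q k σ) =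
          ∫ σ' in p'..(401 * b), ∑ k ∈ S, P k σ * Q k σ' := by
        rw [intervalIntegral.integral_finsetSum]
        · apply Finset.sum_congr rfl
          intro k _
          rw [intervalIntegral.integral_const_mul]
        · intro k _
          exact (continuous_const.mul (hQc k)).intervalIntegrable _ _
      have h4 : ∫ σ' in p'..(401 * b), ∑ k ∈ S, P k σ * Q k σ' ≤
          ∫ σ' in p'..(401 * b), K := by
        apply intervalIntegral.integral_mono_on hp'
        · apply Continuous.intervalIntegrable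
          exact continuous_finsetSum S fun k _ => continuous_const.mul (hQc k)
        · exact continuous_const.intervalIntegrable _ _
        · intro σ' hσ'
          exact hK σ σ' hσ.1 hσ.2 hσ'.1 hσ'.2
      rw [h3]
      refine le_trans h4 (le_of_eq ?_)
      rw [intervalIntegral.integral_const, smul_eq_mul]
  rw [h1]
  refine le_trans h2 (le_of_eq ?_)
  rw [intervalIntegral.integral_const, smul_eq_mul]

theorem p_cnt2 (hs : S_sub) (F : ℝ → ℝ) (h : S_I2 F) : S_cnt2 F := by
  obtain ⟨θ₀, C₁, hθ₀, hC₁, h⟩ := h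
  refine ⟨θ₀, 4820 * C₁, hθ₀, by linarith, fun ε θ B hε hε1 hθ hθ1 hCθ hB => ?_⟩
  obtain ⟨C, hC, h⟩ := h θ (803 * B) hθ hθ1 (by linarith)
  set κ : ℝ := ε / (8 * C₁ * B) with hκ
  have hC₁0 : 0 < C₁ := by linarith
  have hB0 : 0 < B := by linarith
  have hκ0 : 0 < κ := by positivity
  have hκB : C₁ * (κ * B) = ε / 8 := by
    rw [hκ]
    field_simp
  have hκ1 : κ * B ≤ 1 / 8 := by
    have : κ * B ≤ C₁ * (κ * B) := by
      have : 0 < κ * B := by positivity
      nlinarith
    linarith
  have hκ2 : κ ≤ 1 / 8 := by nlinarith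
  refine ⟨2 * 256 * 402 * 401 * 803 * 1606 * C / κ ^ 2, 804 * B + 2, by positivity,
    by linarith, ?_⟩
  intro T hT b hb hbB S hS
  have hT2 : 2 ≤ T := by linarith
  have hlog : 0 < Real.log T := Real.log_pos (by linarith)
  have hLL : Differentiable ℂ LL := by
    unfold LL
    exact Lf_differentiable.comp (by fun_prop)
  have hMol : Differentiable ℂ (Mol (T ^ θ)) := by
    unfold Mol
    apply Differentiable.fun_sum
    intro n hn
    have hn1 : (n : ℂ) ≠ 0 := by
      have := (Finset.mem_Icc.mp hn).1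
      exact_mod_cast (by omega : n ≠ 0)
    apply Differentiable.const_mul
    intro z
    exact (DifferentiableAt.const_cpow (by fun_prop) (Or.inl hn1))
  have hLLc := hLL.continuous
  have hMolc := hMol.continuous
  have hF : 0 ≤ C * T * F T := by
    have h0 := h T hT2 0 0 (by simp) (by simp; linarith) (by simp; linarith) (by simp)
      (by simp; linarith) (by simp; linarith)
    have : 0 ≤ ∫ y in (T / 2)..(4 * T), ‖LL (0 + y * I)‖ * ‖Mol (T ^ θ) (0 + y * I)‖ :=
      intervalIntegral.integral_nonneg (by linarith) (fun _ _ => by positivity)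
    have h1 := le_trans this h0
    simp only [sub_self, norm_zero, mul_zero, zero_re, neg_zero, max_self, add_zero,
      Real.exp_zero, mul_one] at h1
    exact h1
  set E : ℝ := Real.exp (ε / 2 * b * Real.log T) with hE
  have hE0 : 0 < E := Real.exp_pos _
  have hκb : κ * b ≤ 1 / 8 := le_trans (mul_le_mul_of_nonneg_left hbB hκ0.le) hκ1
  have hκb' : κ * b ≤ b := by nlinarith
  have hκb0 : 0 < κ * b := by positivity
  -- the basic bound
  have hbase : ∀ σ σ' : ℝ, -(κ * b) ≤ σ → σ ≤ 401 * b → b / 16 ≤ σ' → σ' ≤ 401 * b →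
      ∑ k ∈ S, (∫ y in ((k - 401) * b : ℝ)..((k + 402) * b), ‖LL (σ + y * I)‖) *
      (∫ y in ((k - 401) * b : ℝ)..((k + 402) * b), ‖Mol (T ^ θ) (σ' + y * I)‖) ≤
      803 * (1606 * b * (C * T * F T * E)) := by
    intro σ σ' h1 h2 h3 h4
    apply dn_cnt2_pair (fun y => ‖LL (σ + y * I)‖) (fun y => ‖Mol (T ^ θ) (σ' + y * I)‖)
      (by fun_prop) (by fun_prop) (fun _ => norm_nonneg _) (fun _ => norm_nonneg _) b (T / 2)
      (4 * T) _ hb (by linarith) S
    · intro k hk
      obtain ⟨hk1, hk2, _⟩ := hS k hk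
      constructor <;> nlinarith
    · intro s hs
      have hσre : ((σ : ℂ)).re = σ := ofReal_re _
      have hvre : ((σ' : ℂ) + s * I).re = σ' := by simp
      have hvim : ((σ' : ℂ) + s * I).im = s := by simp
      have hsB : |s| ≤ 803 * B := le_trans hs (by linarith)
      have h5 := h T hT2 (σ : ℂ) ((σ' : ℂ) + s * I)
        (by rw [ofReal_re]; linarith) (by rw [ofReal_re]; linarith)
        (by rw [ofReal_im, abs_zero]; linarith) (by rw [hvre]; linarith)
        (by rw [hvre]; linarith) (by rw [hvim]; exact hsB)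
      have e : ∫ y in (T / 2)..(4 * T), ‖LL (σ + y * I)‖ *
          ‖Mol (T ^ θ) (σ' + ((y + s : ℝ) : ℂ) * I)‖ =
          ∫ y in (T / 2)..(4 * T), ‖LL (σ + y * I)‖ * ‖Mol (T ^ θ) (σ' + s * I + y * I)‖ := by
        apply intervalIntegral.integral_congr
        intro y _
        simp only
        rw [show (σ' : ℂ) + ((y + s : ℝ) : ℂ) * I = σ' + s * I + y * I by push_cast; ring]
      change ∫ y in (T / 2)..(4 * T), ‖LL (σ + y * I)‖ *
          ‖Mol (T ^ θ) (σ' + ((y + s : ℝ) : ℂ) * I)‖ ≤ _
      rw [e]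
      refine le_trans h5 ?_
      apply mul_le_mul_of_nonneg_left _ hF
      rw [hE]
      apply Real.exp_le_exp.mpr
      rw [ofReal_re]
      have h6 : ‖(σ : ℂ) - (σ' + s * I)‖ ≤ 1205 * b := by
        have e2 : (σ : ℂ) - (σ' + s * I) = ((σ - σ' : ℝ) : ℂ) - (s : ℂ) * I := by
          push_cast
          ring
        rw [e2]
        refine le_trans (norm_sub_le _ _) ?_
        rw [norm_real, norm_mul, norm_real, norm_I, mul_one, Real.norm_eq_abs, Real.norm_eq_abs]
        have h7 : |σ - σ'| ≤ 402 * b := by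
          rw [abs_le]
          constructor <;> linarith
        linarith
      have h7 : max 0 (-σ) ≤ κ * b := by
        apply max_le hκb0.le
        linarith
      have h8 : C₁ * θ * Real.log T * ‖(σ : ℂ) - (σ' + s * I)‖ ≤ ε / 4 * b * Real.log T := by
        calc C₁ * θ * Real.log T * ‖(σ : ℂ) - (σ' + s * I)‖
            ≤ C₁ * θ * Real.log T * (1205 * b) := mul_le_mul_of_nonneg_left h6 (by positivity)
          _ = (4820 * C₁ * θ) * (b * Real.log T / 4) := by ring
          _ ≤ ε * (b * Real.log T / 4) := mul_le_mul_of_nonneg_right hCθ (by positivity)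
          _ = _ := by ring
      have h9 : C₁ * Real.log T * max 0 (-σ) ≤ ε / 8 * b * Real.log T := by
        calc C₁ * Real.log T * max 0 (-σ) ≤ C₁ * Real.log T * (κ * b) :=
              mul_le_mul_of_nonneg_left h7 (by positivity)
          _ = C₁ * κ * (b * Real.log T) := by ring
          _ ≤ ε / 8 * (b * Real.log T) := by
              apply mul_le_mul_of_nonneg_right _ (by positivity)
              have : C₁ * κ ≤ C₁ * (κ * B) := by
                apply mul_le_mul_of_nonneg_left _ hC₁0.le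
                nlinarith
              linarith
          _ = _ := by ring
      have h10 : 0 < ε * b * Real.log T := by positivity
      nlinarith
  have hsum := dn_cnt2_sum LL (Mol (T ^ θ)) hLLc hMolc b (-(κ * b)) (b / 16) _ hb
    (by linarith) (by linarith) S hbase
  -- every element of S
  have key : ∀ k ∈ S, 1 / 2 * Real.exp (ε * b * Real.log T) ≤ 1 / (κ * b) ^ 2 * (256 / b ^ 2) *
      ((∫ σ in (-(κ * b))..(401 * b),
        ∫ y in ((k - 401) * b : ℝ)..((k + 402) * b), ‖LL (σ + y * I)‖) *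
      (∫ σ in (b / 16)..(401 * b),
        ∫ y in ((k - 401) * b : ℝ)..((k + 402) * b), ‖Mol (T ^ θ) (σ + y * I)‖)) := by
    intro k hk
    obtain ⟨_, _, w, v, hw1, hw2, hw3, hw4, hv1, hv2, hv3, hv4, hwv⟩ := hS k hk
    have h1 := dn_cnt2_one hs LL hLL b κ (-(κ * b)) k w hb hκ0 (by linarith) (by linarith)
      hw2 hw3 hw4
    have h2 := dn_cnt2_one hs (Mol (T ^ θ)) hMol b (1 / 16) (b / 16) k v hb (by norm_num)
      (by norm_num) (by linarith) hv2 hv3 hv4
    have h4 : (1 : ℝ) / (1 / 16 * b) ^ 2 = 256 / b ^ 2 := by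
      field_simp
      norm_num
    rw [h4] at h2
    refine le_trans hwv.le (le_trans (mul_le_mul h1 h2 (norm_nonneg _) (le_trans (norm_nonneg _)
      h1)) (le_of_eq ?_))
    ring
  have hcard : (S.card : ℝ) * (1 / 2 * Real.exp (ε * b * Real.log T)) ≤
      1 / (κ * b) ^ 2 * (256 / b ^ 2) *
      ((401 * b - -(κ * b)) * ((401 * b - b / 16) * (803 * (1606 * b * (C * T * F T * E))))) := by
    calc (S.card : ℝ) * (1 / 2 * Real.exp (ε * b * Real.log T))
        ≤ ∑ k ∈ S, 1 / (κ * b) ^ 2 * (256 / b ^ 2) *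
      ((∫ σ in (-(κ * b))..(401 * b),
        ∫ y in ((k - 401) * b : ℝ)..((k + 402) * b), ‖LL (σ + y * I)‖) *
      (∫ σ in (b / 16)..(401 * b),
        ∫ y in ((k - 401) * b : ℝ)..((k + 402) * b), ‖Mol (T ^ θ) (σ + y * I)‖)) := by
          rw [← nsmul_eq_mul]
          exact Finset.card_nsmul_le_sum S _ _ key
      _ ≤ _ := by
          rw [← Finset.mul_sum]
          exact mul_le_mul_of_nonneg_left hsum (by positivity)
  have hK0 : 0 ≤ 803 * (1606 * b * (C * T * F T * E)) := by positivity
  have hcard2 : (S.card : ℝ) * (1 / 2 * Real.exp (ε * b * Real.log T)) ≤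
      1 / (κ * b) ^ 2 * (256 / b ^ 2) *
      (402 * b * (401 * b * (803 * (1606 * b * (C * T * F T * E))))) := by
    refine le_trans hcard ?_
    apply mul_le_mul_of_nonneg_left _ (by positivity)
    apply mul_le_mul
    · linarith
    · exact mul_le_mul_of_nonneg_right (by linarith) hK0
    · exact mul_nonneg (by linarith) hK0
    · positivity
  have hEE : Real.exp (ε * b * Real.log T) = E * E := by
    rw [hE, ← Real.exp_add]
    congr 1
    ring
  have hEi : Real.exp (-(ε / 2 * b * Real.log T)) = E⁻¹ := by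
    rw [hE, Real.exp_neg]
  rw [hEE] at hcard2
  rw [hEi]
  have e1 : 1 / (κ * b) ^ 2 * (256 / b ^ 2) *
      (402 * b * (401 * b * (803 * (1606 * b * (C * T * F T * E))))) =
      (2 * 256 * 402 * 401 * 803 * 1606 * C / κ ^ 2 * F T * (T / b) * E⁻¹) *
        (1 / 2 * (E * E)) := by
    field_simp
  rw [e1] at hcard2
  exact le_of_mul_le_mul_right hcard2 (by positivity)

end Pool.Agent.Lib.MP_cd509c_nt.DN
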