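import Pool.Agent.Lib.MP_cd509c_nt.DN.Defs

/-!
# Project DN, piece domH: comparison of the two halves of the Gaussian integral
-/

set_option autoImplicit false

namespace Pool.Agent.Lib.MP_cd509c_nt.DN

open Complex MeasureTheory Set

theorem dn_domH_norm (N : ℝ) (R : ℂ → ℂ) (v y : ℝ) :
    ‖la N R v * cexp (-((N : ℂ) * ((v : ℂ) - (-(y : ℂ))) ^ 2 / 2))‖ =
      Real.exp (N * v - N * (v + y) ^ 2 / 2) * ‖R v‖ := by
  unfold la
  rw [norm_mul, norm_mul, Complex.norm_exp, Complex.norm_exp]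
  have h1 : ((N : ℂ) * (v : ℂ)).re = N * v := by simp
  have h2 : (-((N : ℂ) * ((v : ℂ) - (-(y : ℂ))) ^ 2 / 2)).re = -(N * (v + y) ^ 2 / 2) := by
    have h3 : (-((N : ℂ) * ((v : ℂ) - (-(y : ℂ))) ^ 2 / 2)) =
        ((-(N * (v + y) ^ 2 / 2) : ℝ) : ℂ) := by
      push_cast
      ring
    rw [h3, Complex.ofReal_re]
  rw [h1, h2, mul_right_comm, ← Real.exp_add, sub_eq_add_neg]

/-- the elementary inequality between the exponents -/
theorem dn_domH_expo {N ε y v : ℝ} (hN : 0 < N) (hε : 0 < ε) (hε1 : ε ≤ 1 / 1280)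
    (hy : 1 / 64 ≤ y) (hv : 0 ≤ v) :
    (N * v - N * (v + y) ^ 2 / 2) + ε * N * (1 + (v - y - 1) ^ 2) ≤
      (N * (y + 1 / 2) - 3 * ε * N) + -(N / 64) + -(N / 4) * (v + (y - 1)) ^ 2 := by
  have h1 : (v - y - 1) ^ 2 ≤ 2 * (v + (y - 1)) ^ 2 + 8 * y ^ 2 := by
    nlinarith [sq_nonneg (v + (y - 1) + 2 * y)]
  have h2 : y ^ 2 ≤ 2 * (v + (y - 1)) ^ 2 + 2 := by
    rcases le_total y 1 with h | h
    · have : y ^ 2 ≤ 1 := by nlinarith
      nlinarith [sq_nonneg (v + (y - 1))]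
    · have h3 : (y - 1) ^ 2 ≤ (v + (y - 1)) ^ 2 := by
        apply pow_le_pow_left₀ (by linarith) (by linarith)
      nlinarith [sq_nonneg (y - 2)]
  have h4 : (v - y - 1) ^ 2 ≤ 18 * (v + (y - 1)) ^ 2 + 16 := by linarith
  have h5 : ε * (1 + (v - y - 1) ^ 2) + 3 * ε ≤ 1 / 64 + (v + (y - 1)) ^ 2 / 4 := by
    have h6 : ε * (1 + (v - y - 1) ^ 2) ≤ ε * (17 + 18 * (v + (y - 1)) ^ 2) :=
      mul_le_mul_of_nonneg_left (by linarith) hε.le
    have h7 : ε * (v + (y - 1)) ^ 2 ≤ 1 / 1280 * (v + (y - 1)) ^ 2 :=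
      mul_le_mul_of_nonneg_right hε1 (sq_nonneg _)
    nlinarith [sq_nonneg (v + (y - 1))]
  have h8 : v - (v + y) ^ 2 / 2 = 1 / 2 - y - (v + (y - 1)) ^ 2 / 2 := by ring
  have h9 : (v - (v + y) ^ 2 / 2) + ε * (1 + (v - y - 1) ^ 2) ≤
      (y + 1 / 2 - 3 * ε) - 1 / 64 - (v + (y - 1)) ^ 2 / 4 := by
    rw [h8]
    linarith
  have h10 := mul_le_mul_of_nonneg_left h9 hN.le
  linarith

/-- the regularity bound on the positive half axis -/
theorem dn_domH_R {N ε b Y y : ℝ} {R : ℂ → ℂ} (hN : 0 < N) (hε : 0 < ε) (hb : 1 ≤ b)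
    (hY : 40 * b ≤ Y) (hR : Reg ε N b Y R) (hy0 : b / 4 - 3 / 8 ≤ y) (hy1 : y ≤ Y / 2 - 2)
    {v : ℝ} (hv : 0 < v) :
    ‖R v‖ ≤ Real.exp (ε * N * (1 + (v - y - 1) ^ 2)) * ‖R ((y : ℂ) + 1)‖ := by
  have hnorm : ‖(v : ℂ) - ((y : ℂ) + 1)‖ = |v - y - 1| := by
    have : (v : ℂ) - ((y : ℂ) + 1) = ((v - y - 1 : ℝ) : ℂ) := by
      push_cast
      ring
    rw [this, Complex.norm_real, Real.norm_eq_abs]
  have hεN : 0 < ε * N := mul_pos hε hN
  have him : |((y : ℂ) + 1).im| ≤ 20 * b := by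
    simp only [Complex.add_im, Complex.ofReal_im, Complex.one_im, add_zero, abs_zero]
    linarith
  have hvim : |(v : ℂ).im| ≤ 20 * b := by
    simp only [Complex.ofReal_im, abs_zero]
    linarith
  have hre : ((y : ℂ) + 1).re = y + 1 := by simp
  rcases le_total v Y with h | h
  · have h1 := hR.lin ((y : ℂ) + 1) (v : ℂ) (by rw [hre]; linarith) (by rw [hre]; linarith) him
      (by rw [Complex.ofReal_re]; linarith) (by rw [Complex.ofReal_re]; linarith) hvim
    refine h1.trans ?_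
    apply mul_le_mul_of_nonneg_right _ (norm_nonneg _)
    apply Real.exp_le_exp.mpr
    rw [hnorm]
    apply mul_le_mul_of_nonneg_left _ hεN.le
    nlinarith [sq_abs (v - y - 1), sq_nonneg (|v - y - 1| - 1), abs_nonneg (v - y - 1)]
  · have h1 := hR.tail ((y : ℂ) + 1) (v : ℂ) (by rw [hre]; linarith) (by rw [hre]; linarith) him
      (by rw [Complex.ofReal_re]; linarith) hvim
    refine h1.trans ?_
    apply mul_le_mul_of_nonneg_right _ (norm_nonneg _)
    apply Real.exp_le_exp.mpr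
    rw [hnorm, sq_abs]
    apply mul_le_mul_of_nonneg_left _ hεN.le
    linarith

theorem p_domH (h : S_loH) : S_domH := by
  obtain ⟨ε₁, N₁, hε₁, hN₁, hlo⟩ := h
  refine ⟨min ε₁ (1 / 1280), max N₁ 1024, by positivity, le_max_of_le_left hN₁, ?_⟩
  intro N ε b Y y R hε hεle hN hb hY hR hy hy0 hy1
  have hε1 : ε ≤ ε₁ := hεle.trans (min_le_left _ _)
  have hε2 : ε ≤ 1 / 1280 := hεle.trans (min_le_right _ _)
  have hN1 : N₁ ≤ N := (le_max_left _ _).trans hN
  have hN2 : 1024 ≤ N := (le_max_right _ _).trans hN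
  have hN0 : 0 < N := by linarith
  have hlow := hlo ε N b Y R (y : ℂ) hε hε1 hN1 hb hY hR (by rw [Complex.ofReal_re]; exact hy0)
    (by rw [Complex.ofReal_re]; exact hy1) (by simp)
  rw [Complex.ofReal_re] at hlow
  set K : ℝ := Real.exp (N * (y + 1 / 2) - 3 * ε * N) * ‖R ((y : ℂ) + 1)‖ with hK
  have hK0 : 0 ≤ K := by positivity
  have hN4 : 0 < N / 4 := by positivity
  have hgi : Integrable fun v : ℝ => K * Real.exp (-(N / 64)) *
      Real.exp (-(N / 4) * (v + (y - 1)) ^ 2) :=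
    ((integrable_exp_neg_mul_sq hN4).comp_add_right (y - 1)).const_mul _
  have hup : ‖BH N R (-(y : ℂ))‖ ≤ ∫ v in Ioi (0 : ℝ), K * Real.exp (-(N / 64)) *
      Real.exp (-(N / 4) * (v + (y - 1)) ^ 2) := by
    unfold BH
    apply norm_integral_le_of_norm_le hgi.integrableOn
    rw [ae_restrict_iff' measurableSet_Ioi]
    refine Filter.Eventually.of_forall fun v hv => ?_
    have hv0 : 0 < v := hv
    rw [dn_domH_norm]
    calc Real.exp (N * v - N * (v + y) ^ 2 / 2) * ‖R v‖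
        ≤ Real.exp (N * v - N * (v + y) ^ 2 / 2) *
          (Real.exp (ε * N * (1 + (v - y - 1) ^ 2)) * ‖R ((y : ℂ) + 1)‖) :=
          mul_le_mul_of_nonneg_left (dn_domH_R hN0 hε hb hY hR hy0 hy1 hv0) (Real.exp_pos _).le
      _ = Real.exp ((N * v - N * (v + y) ^ 2 / 2) + ε * N * (1 + (v - y - 1) ^ 2)) *
          ‖R ((y : ℂ) + 1)‖ := by
          rw [Real.exp_add]
          ring
      _ ≤ Real.exp ((N * (y + 1 / 2) - 3 * ε * N) + -(N / 64) + -(N / 4) * (v + (y - 1)) ^ 2) *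
          ‖R ((y : ℂ) + 1)‖ := by
          apply mul_le_mul_of_nonneg_right _ (norm_nonneg _)
          exact Real.exp_le_exp.mpr (dn_domH_expo hN0 hε hε2 hy hv0.le)
      _ = K * Real.exp (-(N / 64)) * Real.exp (-(N / 4) * (v + (y - 1)) ^ 2) := by
          rw [Real.exp_add, Real.exp_add, hK]
          ring
  have hup2 : ∫ v in Ioi (0 : ℝ), K * Real.exp (-(N / 64)) *
      Real.exp (-(N / 4) * (v + (y - 1)) ^ 2) ≤
      K * Real.exp (-(N / 64)) * Real.sqrt (Real.pi / (N / 4)) := by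
    calc ∫ v in Ioi (0 : ℝ), K * Real.exp (-(N / 64)) *
          Real.exp (-(N / 4) * (v + (y - 1)) ^ 2)
        ≤ ∫ v : ℝ, K * Real.exp (-(N / 64)) * Real.exp (-(N / 4) * (v + (y - 1)) ^ 2) := by
          apply setIntegral_le_integral hgi
          refine Filter.Eventually.of_forall fun v => ?_
          simp only [Pi.zero_apply]
          positivity
      _ = K * Real.exp (-(N / 64)) * ∫ v : ℝ, Real.exp (-(N / 4) * (v + (y - 1)) ^ 2) := by
          rw [integral_const_mul]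
      _ = K * Real.exp (-(N / 64)) * Real.sqrt (Real.pi / (N / 4)) := by
          rw [integral_add_right_eq_self (fun v : ℝ => Real.exp (-(N / 4) * v ^ 2)) (y - 1),
            integral_gaussian]
  have hsq : Real.sqrt (Real.pi / (N / 4)) ≤ 4 / Real.sqrt N := by
    have h1 : Real.pi / (N / 4) ≤ (4 / Real.sqrt N) ^ 2 := by
      rw [div_pow, Real.sq_sqrt hN0.le, div_div_eq_mul_div]
      apply div_le_div_of_nonneg_right _ hN0.le
      linarith [Real.pi_le_four]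
    calc Real.sqrt (Real.pi / (N / 4)) ≤ Real.sqrt ((4 / Real.sqrt N) ^ 2) := Real.sqrt_le_sqrt h1
      _ = 4 / Real.sqrt N := Real.sqrt_sq (by positivity)
  have hexp : Real.exp (-(N / 64)) ≤ 1 / 16 := by
    rw [Real.exp_neg, one_div]
    apply inv_anti₀ (by norm_num)
    linarith [Real.add_one_le_exp (N / 64)]
  have hsN : 0 < Real.sqrt N := Real.sqrt_pos.mpr hN0
  calc ‖BH N R (-(y : ℂ))‖ ≤ K * Real.exp (-(N / 64)) * Real.sqrt (Real.pi / (N / 4)) :=
        hup.trans hup2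
    _ ≤ K * (1 / 16) * (4 / Real.sqrt N) := by
        apply mul_le_mul (mul_le_mul_of_nonneg_left hexp hK0) hsq (Real.sqrt_nonneg _)
        positivity
    _ = K / (2 * Real.sqrt N) / 2 := by
        field_simp
        ring
    _ ≤ ‖BH N R y‖ / 2 := by
        apply div_le_div_of_nonneg_right hlow (by norm_num)

end Pool.Agent.Lib.MP_cd509c_nt.DN
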