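import Pool.Agent.Lib.MP_cd509c_nt.DN.Defs2

set_option autoImplicit false

/-!
# MP_cd509c_nt, project DN stage 2, piece dual: the dual side for a pair `b, c`
-/

open Complex ComplexConjugate

namespace Pool.Agent.Lib.MP_cd509c_nt.DN

theorem dn_dual_ee_norm (x : ℝ) : ‖ee x‖ = 1 := by
  unfold ee
  have : (2 * (Real.pi : ℂ) * (x : ℂ) * I) = ((2 * Real.pi * x : ℝ) : ℂ) * I := by
    push_cast; ring
  rw [this, norm_exp_ofReal_mul_I]

theorem dn_dual_ee_add (x y : ℝ) : ee (x + y) = ee x * ee y := by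
  unfold ee
  rw [← Complex.exp_add]
  congr 1
  push_cast
  ring

theorem dn_dual_ee_conj (x : ℝ) : conj (ee x) = ee (-x) := by
  unfold ee
  rw [← Complex.exp_conj]
  congr 1
  simp only [map_mul, conj_ofReal, conj_I]
  push_cast
  have : conj (2 : ℂ) = 2 := Complex.conj_ofNat 2
  rw [this]
  ring

/-- Exchange of a finite and an infinite sum, with norms. -/
theorem dn_dual_swap {ι : Type*} (A : Finset ℕ) (f : ι → ℂ) (φ : ι → ℕ → ℂ) (G : ℕ → ℂ)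
    (g : ι → ℝ) (hf : Summable fun i => ‖f i‖) (hφ : ∀ i, ∀ a ∈ A, ‖φ i a‖ ≤ 1)
    (hB : ∀ i, ‖f i‖ * ‖∑ a ∈ A, φ i a * G a‖ ≤ g i) (hg : Summable g) :
    ‖∑ a ∈ A, (∑' i, f i * φ i a) * G a‖ ≤ ∑' i, g i := by
  have hs : ∀ a ∈ A, Summable fun i => f i * φ i a * G a := by
    intro a ha
    apply Summable.mul_right
    apply Summable.of_norm_bounded hf
    intro i
    rw [norm_mul]
    calc ‖f i‖ * ‖φ i a‖ ≤ ‖f i‖ * 1 := mul_le_mul_of_nonneg_left (hφ i a ha) (norm_nonneg _)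
      _ = ‖f i‖ := mul_one _
  have e1 : ∑ a ∈ A, (∑' i, f i * φ i a) * G a = ∑' i, f i * ∑ a ∈ A, φ i a * G a := by
    calc ∑ a ∈ A, (∑' i, f i * φ i a) * G a = ∑ a ∈ A, ∑' i, f i * φ i a * G a := by
          apply Finset.sum_congr rfl
          intro a _
          rw [tsum_mul_right]
      _ = ∑' i, ∑ a ∈ A, f i * φ i a * G a := (Summable.tsum_finsetSum hs).symm
      _ = ∑' i, f i * ∑ a ∈ A, φ i a * G a := by
          apply tsum_congr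
          intro i
          rw [Finset.mul_sum]
          apply Finset.sum_congr rfl
          intro a _
          ring
  rw [e1]
  apply tsum_of_norm_bounded hg.hasSum
  intro i
  rw [norm_mul]
  exact hB i

/-- the summable weight -/
theorem dn_dual_sq : Summable fun j : ℤ => 1 / (1 + |(j : ℝ)|) ^ 2 := by
  have h1 : Summable fun n : ℕ => 1 / (1 + (n : ℝ)) ^ 2 := by
    have h2 : Summable fun n : ℕ => 1 / ((n : ℝ)) ^ 2 := Real.summable_one_div_nat_pow.mpr one_lt_two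
    have h3 := (summable_nat_add_iff 1).mpr h2
    apply h3.congr
    intro n
    push_cast
    rw [add_comm]
  apply Summable.of_nat_of_neg
  · apply h1.congr
    intro n
    simp
  · apply h1.congr
    intro n
    simp

/-- product of a coefficient and a Kloosterman sum -/
theorem dn_dual_klj (CK : ℝ) (hCK : 0 < CK) (hkl : ∀ p : ℕ, p.Prime → ∀ j k : ℤ,
    ¬ ((p : ℤ) ∣ j ∧ (p : ℤ) ∣ k) → ‖Kl p j k‖ ≤ CK * (p : ℝ) ^ (3 / 4 : ℝ))
    (p : ℕ) (hp : p.Prime) (W : ℝ) (hW : 0 ≤ W) (co : ℤ → ℂ) (h0 : co 0 = 0)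
    (hco : ∀ j : ℤ, ‖co j‖ ≤ W / (1 + |(j : ℝ)|) ^ 3) (j k : ℤ) :
    ‖co j‖ * ‖Kl p j k‖ ≤ W * (CK * (p : ℝ) ^ (3 / 4 : ℝ) + 1) * (1 / (1 + |(j : ℝ)|) ^ 2) := by
  have hj1 : 1 ≤ 1 + |(j : ℝ)| := by linarith [abs_nonneg (j : ℝ)]
  have hj0 : 0 < 1 + |(j : ℝ)| := by linarith
  have hP : 0 ≤ CK * (p : ℝ) ^ (3 / 4 : ℝ) := by positivity
  by_cases hj : j = 0
  · rw [hj, h0, norm_zero, zero_mul]
    positivity
  by_cases hpj : (p : ℤ) ∣ j
  · have h1 : ‖Kl p j k‖ ≤ (p : ℝ) := by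
      unfold Kl
      calc _ ≤ ∑ a ∈ (Finset.range p).filter (fun a => a.Coprime p), (1 : ℝ) := by
            apply norm_sum_le_of_le
            intro a _
            rw [dn_dual_ee_norm]
        _ = (((Finset.range p).filter (fun a => a.Coprime p)).card : ℝ) := by
            rw [Finset.sum_const, nsmul_eq_mul, mul_one]
        _ ≤ (p : ℝ) := by
            have := Finset.card_filter_le (Finset.range p) (fun a => a.Coprime p)
            rw [Finset.card_range] at this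
            exact_mod_cast this
    have h2 : (p : ℝ) ≤ 1 + |(j : ℝ)| := by
      have h3 : (p : ℤ) ≤ |j| := Int.le_of_dvd (abs_pos.mpr hj) ((dvd_abs _ _).mpr hpj)
      have h4 : ((p : ℤ) : ℝ) ≤ ((|j| : ℤ) : ℝ) := by exact_mod_cast h3
      push_cast at h4
      linarith
    calc ‖co j‖ * ‖Kl p j k‖ ≤ (W / (1 + |(j : ℝ)|) ^ 3) * (1 + |(j : ℝ)|) :=
          mul_le_mul (hco j) (h1.trans h2) (norm_nonneg _) (by positivity)
      _ = W * 1 * (1 / (1 + |(j : ℝ)|) ^ 2) := by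
          field_simp
      _ ≤ W * (CK * (p : ℝ) ^ (3 / 4 : ℝ) + 1) * (1 / (1 + |(j : ℝ)|) ^ 2) := by
          apply mul_le_mul_of_nonneg_right _ (by positivity)
          apply mul_le_mul_of_nonneg_left _ hW
          linarith
  · have h1 : ‖Kl p j k‖ ≤ CK * (p : ℝ) ^ (3 / 4 : ℝ) := hkl p hp j k (fun h => hpj h.1)
    have h2 : W / (1 + |(j : ℝ)|) ^ 3 ≤ W * (1 / (1 + |(j : ℝ)|) ^ 2) := by
      rw [div_eq_mul_one_div]
      apply mul_le_mul_of_nonneg_left _ hW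
      apply one_div_le_one_div_of_le (by positivity)
      exact pow_le_pow_right₀ hj1 (by norm_num)
    calc ‖co j‖ * ‖Kl p j k‖ ≤ (W * (1 / (1 + |(j : ℝ)|) ^ 2)) * (CK * (p : ℝ) ^ (3 / 4 : ℝ)) :=
          mul_le_mul ((hco j).trans h2) h1 (norm_nonneg _) (by positivity)
      _ = W * (CK * (p : ℝ) ^ (3 / 4 : ℝ)) * (1 / (1 + |(j : ℝ)|) ^ 2) := by ring
      _ ≤ W * (CK * (p : ℝ) ^ (3 / 4 : ℝ) + 1) * (1 / (1 + |(j : ℝ)|) ^ 2) := by
          apply mul_le_mul_of_nonneg_right _ (by positivity)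
          apply mul_le_mul_of_nonneg_left _ hW
          linarith

/-- The modular transformation and the Fourier expansion. -/
theorem dn_dual_exp (hJ2 : S_J2) (p b a : ℕ) (ζ : ℂ) (hp : p.Prime) (hb : 1 ≤ b) (hbp : b < p)
    (ha : a.Coprime p) (hζ : 0 < ζ.im) :
    Dc (b * ((a : ℂ) / p + ζ)) = (((p : ℂ) * (b * ζ)) ^ 12)⁻¹ *
      ∑' m : ℕ, (tau m * cexp (2 * Real.pi * I * (m * (-1 / ((p : ℂ) ^ 2 * (b * ζ)))))) *
        ee (-(m * (((b : ZMod p)⁻¹).val * ((a : ZMod p)⁻¹).val : ℕ) / p)) := by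
  have : Fact p.Prime := ⟨hp⟩
  have hb0 : (0 : ℝ) < b := by exact_mod_cast hb
  have hp0 : (0 : ℝ) < p := by exact_mod_cast hp.pos
  have hbz : (b : ZMod p) ≠ 0 := by
    intro h
    rw [ZMod.natCast_eq_zero_iff] at h
    exact absurd (Nat.le_of_dvd hb h) (by omega)
  have haz : (a : ZMod p) ≠ 0 := by
    intro h
    rw [ZMod.natCast_eq_zero_iff] at h
    have h1 : p ∣ 1 := by
      have : Nat.gcd a p = 1 := ha
      rw [← this]
      exact Nat.dvd_gcd h dvd_rfl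
    exact hp.one_lt.ne' (Nat.dvd_one.mp h1)
  set s : ℕ := ((b : ZMod p)⁻¹).val * ((a : ZMod p)⁻¹).val with hs
  have hζ0 : ζ ≠ 0 := by
    intro h
    rw [h] at hζ
    simp at hζ
  have him : 0 < ((b : ℂ) * ζ).im := by
    have : ((b : ℂ) * ζ).im = b * ζ.im := by simp
    rw [this]
    positivity
  have hdvd : (p : ℤ) ∣ ((a * b : ℕ) : ℤ) * (s : ℤ) - 1 := by
    rw [← ZMod.intCast_zmod_eq_zero_iff_dvd]
    push_cast
    rw [hs]
    push_cast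
    rw [ZMod.natCast_zmod_val, ZMod.natCast_zmod_val]
    field_simp
    ring
  have h := hJ2 p ((a * b : ℕ) : ℤ) (s : ℤ) (b * ζ) hp.one_le hdvd him
  have hne : ((p : ℂ) * (b * ζ)) ^ 12 ≠ 0 := by
    apply pow_ne_zero
    have h1 : (p : ℂ) ≠ 0 := by exact_mod_cast hp.ne_zero
    have h2 : (b : ℂ) ≠ 0 := by exact_mod_cast (by omega : b ≠ 0)
    exact mul_ne_zero h1 (mul_ne_zero h2 hζ0)
  have e1 : (b : ℂ) * ((a : ℂ) / p + ζ) = (((a * b : ℕ) : ℤ) : ℂ) / p + b * ζ := by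
    push_cast
    ring
  have himw : 0 < (-((s : ℤ) : ℂ) / p - 1 / ((p : ℂ) ^ 2 * (b * ζ))).im := by
    have h1 : (-((s : ℤ) : ℂ) / p).im = 0 := by
      have : (-((s : ℤ) : ℂ) / p) = ((-(s : ℝ) / p : ℝ) : ℂ) := by push_cast; ring
      rw [this, ofReal_im]
    have h2 : (1 / ((p : ℂ) ^ 2 * (b * ζ))).im < 0 := by
      have h3 : (1 / ((p : ℂ) ^ 2 * (b * ζ))) = ((1 / ((p : ℝ) ^ 2 * b) : ℝ) : ℂ) * ζ⁻¹ := by
        push_cast
        have h1 : (p : ℂ) ≠ 0 := by exact_mod_cast hp.ne_zero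
        have h2 : (b : ℂ) ≠ 0 := by exact_mod_cast (by omega : b ≠ 0)
        field_simp
      rw [h3, Complex.im_ofReal_mul]
      have h4 : ζ⁻¹.im < 0 := by
        rw [Complex.inv_im]
        have : 0 < normSq ζ := normSq_pos.mpr hζ0
        exact div_neg_of_neg_of_pos (by linarith) this
      exact mul_neg_of_pos_of_neg (by positivity) h4
    rw [sub_im, h1]
    linarith
  have hsum := Dc_hasSum himw
  rw [e1, eq_inv_mul_iff_mul_eq₀ hne, mul_comm, h, ← hsum.tsum_eq]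
  apply tsum_congr
  intro m
  rw [mul_assoc (tau m)]
  congr 1
  unfold ee
  rw [← Complex.exp_add]
  congr 1
  push_cast
  ring

/-- norm of the exponential -/
theorem dn_dual_norm (p b m : ℕ) (ζ : ℂ) (hp : 0 < p) (hb : 1 ≤ b) (hζ : 0 < ζ.im) :
    ‖cexp (2 * Real.pi * I * (m * (-1 / ((p : ℂ) ^ 2 * (b * ζ)))))‖ =
      Real.exp (-(2 * Real.pi * m * (ζ.im / ((p : ℝ) ^ 2 * b * ‖ζ‖ ^ 2)))) := by
  have hb0 : (0 : ℝ) < b := by exact_mod_cast hb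
  have hp0 : (0 : ℝ) < p := by exact_mod_cast hp
  have hζ0 : ζ ≠ 0 := by
    intro h
    rw [h] at hζ
    simp at hζ
  rw [Complex.norm_exp]
  congr 1
  have e1 : 2 * (Real.pi : ℂ) * I * (m * (-1 / ((p : ℂ) ^ 2 * (b * ζ)))) =
      ((-(2 * Real.pi * m / ((p : ℝ) ^ 2 * b)) : ℝ) : ℂ) * (I * ζ⁻¹) := by
    have h1 : (p : ℂ) ≠ 0 := by exact_mod_cast hp.ne'
    have h2 : (b : ℂ) ≠ 0 := by exact_mod_cast (by omega : b ≠ 0)
    push_cast
    field_simp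
  rw [e1, Complex.re_ofReal_mul]
  have e2 : (I * ζ⁻¹).re = ζ.im / ‖ζ‖ ^ 2 := by
    rw [← Complex.normSq_eq_norm_sq]
    simp [Complex.mul_re, Complex.inv_im, neg_div]
  rw [e2]
  have : ‖ζ‖ ≠ 0 := norm_ne_zero_iff.mpr hζ0
  field_simp

/-- size of one factor -/
theorem dn_dual_size (p b : ℕ) (X : ℝ) (ζ : ℂ) (Ct : ℝ) (hCt : 0 < Ct) (hp : 0 < p) (hb : 1 ≤ b)
    (hbX : (b : ℝ) ≤ X) (hζ : 0 < ζ.im) (t : ℝ)
    (ht : t ≤ Ct * (ζ.im / ((p : ℝ) ^ 2 * b * ‖ζ‖ ^ 2)) ^ (-6 : ℝ) *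
      (1 + (ζ.im / ((p : ℝ) ^ 2 * b * ‖ζ‖ ^ 2)) ^ (-(1 / 2) : ℝ))) :
    ‖(((p : ℂ) * (b * ζ)) ^ 12)⁻¹‖ * t ≤
      Ct * (ζ.im ^ 6)⁻¹ * (1 + Real.sqrt ((p : ℝ) ^ 2 * X * ‖ζ‖ ^ 2 / ζ.im)) := by
  have hb0 : (0 : ℝ) < b := by exact_mod_cast hb
  have hb1 : (1 : ℝ) ≤ b := by exact_mod_cast hb
  have hp0 : (0 : ℝ) < p := by exact_mod_cast hp
  have hζ0 : ζ ≠ 0 := by
    intro h
    rw [h] at hζ
    simp at hζ
  have hn : 0 < ‖ζ‖ := norm_pos_iff.mpr hζ0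
  set y : ℝ := ζ.im / ((p : ℝ) ^ 2 * b * ‖ζ‖ ^ 2) with hy
  have hy0 : 0 < y := by positivity
  have e1 : y ^ (-6 : ℝ) = (y ^ 6)⁻¹ := by
    rw [Real.rpow_neg hy0.le]
    congr 1
    exact_mod_cast Real.rpow_natCast y 6
  have e2 : y ^ (-(1 / 2) : ℝ) ≤ Real.sqrt ((p : ℝ) ^ 2 * X * ‖ζ‖ ^ 2 / ζ.im) := by
    rw [Real.rpow_neg hy0.le, ← Real.sqrt_eq_rpow, ← Real.sqrt_inv]
    apply Real.sqrt_le_sqrt
    rw [hy, inv_div]
    gcongr
  have e3 : ‖(((p : ℂ) * (b * ζ)) ^ 12)⁻¹‖ = (((p : ℝ) * (b * ‖ζ‖)) ^ 12)⁻¹ := by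
    rw [norm_inv, norm_pow, norm_mul, norm_mul, Complex.norm_natCast, Complex.norm_natCast]
  rw [e3]
  have e4 : (((p : ℝ) * (b * ‖ζ‖)) ^ 12)⁻¹ * (y ^ 6)⁻¹ ≤ (ζ.im ^ 6)⁻¹ := by
    have e5 : (((p : ℝ) * (b * ‖ζ‖)) ^ 12)⁻¹ * (y ^ 6)⁻¹ = ((b : ℝ) ^ 6)⁻¹ * (ζ.im ^ 6)⁻¹ := by
      rw [hy]
      field_simp
    rw [e5]
    have e6 : ((b : ℝ) ^ 6)⁻¹ ≤ 1 := inv_le_one_of_one_le₀ (one_le_pow₀ hb1)
    calc ((b : ℝ) ^ 6)⁻¹ * (ζ.im ^ 6)⁻¹ ≤ 1 * (ζ.im ^ 6)⁻¹ :=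
          mul_le_mul_of_nonneg_right e6 (by positivity)
      _ = _ := one_mul _
  calc (((p : ℝ) * (b * ‖ζ‖)) ^ 12)⁻¹ * t ≤ (((p : ℝ) * (b * ‖ζ‖)) ^ 12)⁻¹ *
        (Ct * y ^ (-6 : ℝ) * (1 + y ^ (-(1 / 2) : ℝ))) :=
        mul_le_mul_of_nonneg_left ht (by positivity)
    _ = Ct * ((((p : ℝ) * (b * ‖ζ‖)) ^ 12)⁻¹ * (y ^ 6)⁻¹) * (1 + y ^ (-(1 / 2) : ℝ)) := by
        rw [e1]; ring
    _ ≤ Ct * (ζ.im ^ 6)⁻¹ * (1 + Real.sqrt ((p : ℝ) ^ 2 * X * ‖ζ‖ ^ 2 / ζ.im)) := by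
        have h1 : 0 ≤ 1 + y ^ (-(1 / 2) : ℝ) := by positivity
        apply mul_le_mul (mul_le_mul_of_nonneg_left e4 hCt.le) (by linarith) h1
        positivity

theorem p_dual (hkl : S_kl) (hJ2 : S_J2) (htau : S_tauE) : S_dual := by
  obtain ⟨CK, hCK, hkl⟩ := hkl
  obtain ⟨Ct, hCt, htau⟩ := htau
  set S2 : ℝ := ∑' j : ℤ, 1 / (1 + |(j : ℝ)|) ^ 2 with hS2
  have hS20 : 0 ≤ S2 := tsum_nonneg (fun j => by positivity)
  refine ⟨2 * Ct ^ 2 * (CK + 1) * (S2 + 1), by positivity, ?_⟩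
  intro X W b c p co ζ hX hW hb hbX hc hcX hp hXp hζ _ h0 hco
  have hb0 : (0 : ℝ) < b := by exact_mod_cast hb
  have hc0 : (0 : ℝ) < c := by exact_mod_cast hc
  have hp0 : (0 : ℝ) < p := by exact_mod_cast hp.pos
  have hp1 : (1 : ℝ) ≤ p := by exact_mod_cast hp.one_le
  have hbp : b < p := by exact_mod_cast hbX.trans_lt hXp
  have hcp : c < p := by exact_mod_cast hcX.trans_lt hXp
  set A : Finset ℕ := (Finset.range p).filter (fun a => a.Coprime p) with hA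
  set ia : ℕ → ℕ := fun a => ((a : ZMod p)⁻¹).val with hia
  set ib : ℕ := ((b : ZMod p)⁻¹).val with hib
  set ic : ℕ := ((c : ZMod p)⁻¹).val with hic
  set Eb : ℕ → ℂ := fun m => cexp (2 * Real.pi * I * (m * (-1 / ((p : ℂ) ^ 2 * (b * ζ))))) with hEb
  set Ec : ℕ → ℂ := fun m => cexp (2 * Real.pi * I * (m * (-1 / ((p : ℂ) ^ 2 * (c * ζ))))) with hEc
  set Kb : ℂ := (((p : ℂ) * (b * ζ)) ^ 12)⁻¹ with hKb
  set Kc : ℂ := (((p : ℂ) * (c * ζ)) ^ 12)⁻¹ with hKc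
  set P : ℕ → ℂ := fun a => ∑' m : ℕ, (tau m * Eb m) * ee (-(m * (ib * ia a : ℕ) / p)) with hP
  set N : ℕ → ℂ := fun a => ∑' m : ℕ, conj (tau m * Ec m) * ee ((m * (ic * ia a : ℕ) / p)) with hN
  set J : ℕ → ℂ := fun a => ∑' j : ℤ, co j * ee (j * ((a : ℝ) / p)) with hJ
  set yb : ℝ := ζ.im / ((p : ℝ) ^ 2 * b * ‖ζ‖ ^ 2) with hyb
  set yc : ℝ := ζ.im / ((p : ℝ) ^ 2 * c * ‖ζ‖ ^ 2) with hyc
  have hζ0 : ζ ≠ 0 := by
    intro h
    rw [h] at hζ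
    simp at hζ
  have hn : 0 < ‖ζ‖ := norm_pos_iff.mpr hζ0
  have hyb0 : 0 < yb := by positivity
  have hyc0 : 0 < yc := by positivity
  obtain ⟨sb, tb⟩ := htau yb hyb0
  obtain ⟨sc, tc⟩ := htau yc hyc0
  have nb : ∀ m : ℕ, ‖tau m * Eb m‖ = ‖tau m‖ * Real.exp (-(2 * Real.pi * m * yb)) := by
    intro m
    rw [norm_mul, hEb]
    simp only
    rw [dn_dual_norm p b m ζ hp.pos hb hζ]
  have nc : ∀ m : ℕ, ‖conj (tau m * Ec m)‖ = ‖tau m‖ * Real.exp (-(2 * Real.pi * m * yc)) := by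
    intro m
    rw [RCLike.norm_conj, norm_mul, hEc]
    simp only
    rw [dn_dual_norm p c m ζ hp.pos hc hζ]
  have sb' : Summable fun m : ℕ => ‖tau m * Eb m‖ := by
    apply sb.congr
    intro m
    rw [nb m]
  have sc' : Summable fun m : ℕ => ‖conj (tau m * Ec m)‖ := by
    apply sc.congr
    intro m
    rw [nc m]
  set Tb : ℝ := ∑' m : ℕ, ‖tau m‖ * Real.exp (-(2 * Real.pi * m * yb)) with hTb
  set Tc : ℝ := ∑' m : ℕ, ‖tau m‖ * Real.exp (-(2 * Real.pi * m * yc)) with hTc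
  have hTb0 : 0 ≤ Tb := tsum_nonneg (fun j => by positivity)
  have hTc0 : 0 ≤ Tc := tsum_nonneg (fun j => by positivity)
  -- rewriting of the sum
  have key : ∀ a ∈ A, J a * (Dc (b * ((a : ℂ) / p + ζ)) * conj (Dc (c * ((a : ℂ) / p + ζ)))) =
      (Kb * conj Kc) * (P a * (N a * J a)) := by
    intro a ha
    have hac : a.Coprime p := (Finset.mem_filter.mp ha).2
    rw [dn_dual_exp hJ2 p b a ζ hp hb hbp hac hζ, dn_dual_exp hJ2 p c a ζ hp hc hcp hac hζ]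
    rw [map_mul, Complex.conj_tsum]
    have e1 : (fun m : ℕ => conj ((tau m * cexp (2 * Real.pi * I *
        (m * (-1 / ((p : ℂ) ^ 2 * (c * ζ)))))) *
        ee (-(m * (((c : ZMod p)⁻¹).val * ((a : ZMod p)⁻¹).val : ℕ) / p)))) =
        fun m : ℕ => conj (tau m * Ec m) * ee ((m * (ic * ia a : ℕ) / p)) := by
      funext m
      rw [map_mul (starRingEnd ℂ) (tau m * _), dn_dual_ee_conj, neg_neg]
    rw [e1]
    rw [hP, hN, hKb, hKc, hEb]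
    ring
  have hsum : ∑ a ∈ A, J a * (Dc (b * ((a : ℂ) / p + ζ)) * conj (Dc (c * ((a : ℂ) / p + ζ)))) =
      (Kb * conj Kc) * ∑ a ∈ A, P a * (N a * J a) := by
    rw [Finset.mul_sum]
    exact Finset.sum_congr rfl key
  -- the Kloosterman sums
  set κ : ℝ := W * (CK * (p : ℝ) ^ (3 / 4 : ℝ) + 1) with hκ
  have hκ0 : 0 ≤ κ := by positivity
  have sco : Summable fun j : ℤ => ‖co j‖ := by
    apply Summable.of_nonneg_of_le (fun j => norm_nonneg _) _ (dn_dual_sq.mul_left W)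
    intro j
    refine (hco j).trans ?_
    rw [div_eq_mul_one_div]
    apply mul_le_mul_of_nonneg_left _ hW
    have hj1 : 1 ≤ 1 + |(j : ℝ)| := by linarith [abs_nonneg (j : ℝ)]
    apply one_div_le_one_div_of_le (by positivity)
    exact pow_le_pow_right₀ hj1 (by norm_num)
  have step1 : ∀ m n : ℕ, ‖∑ a ∈ A, J a * (ee (-(m * (ib * ia a : ℕ) / p)) *
      ee ((n * (ic * ia a : ℕ) / p)))‖ ≤ κ * S2 := by
    intro m n
    rw [hS2, ← tsum_mul_left]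
    apply dn_dual_swap A co (fun (j : ℤ) (a : ℕ) => ee (j * ((a : ℝ) / p))) _ _ sco
    · intro j a _
      rw [dn_dual_ee_norm]
    · intro j
      have e : ∑ a ∈ A, ee (j * ((a : ℝ) / p)) * (ee (-(m * (ib * ia a : ℕ) / p)) *
          ee ((n * (ic * ia a : ℕ) / p))) = Kl p j (-(m * ib) + n * ic) := by
        unfold Kl
        apply Finset.sum_congr rfl
        intro a _
        rw [← dn_dual_ee_add, ← dn_dual_ee_add]
        congr 1
        push_cast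
        rw [hia]
        ring
      rw [e]
      exact dn_dual_klj CK hCK hkl p hp W hW co h0 hco j _
    · exact dn_dual_sq.mul_left κ
  have step2 : ∀ m : ℕ, ‖∑ a ∈ A, N a * (J a * ee (-(m * (ib * ia a : ℕ) / p)))‖ ≤
      Tc * (κ * S2) := by
    intro m
    rw [hTc, ← tsum_mul_right]
    apply dn_dual_swap A (fun n : ℕ => conj (tau n * Ec n))
      (fun (n : ℕ) (a : ℕ) => ee ((n * (ic * ia a : ℕ) / p))) _ _ sc'
    · intro j a _
      rw [dn_dual_ee_norm]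
    · intro n
      rw [nc n]
      apply mul_le_mul_of_nonneg_left _ (by positivity)
      have e : ∑ a ∈ A, ee ((n * (ic * ia a : ℕ) / p)) * (J a * ee (-(m * (ib * ia a : ℕ) / p))) =
          ∑ a ∈ A, J a * (ee (-(m * (ib * ia a : ℕ) / p)) * ee ((n * (ic * ia a : ℕ) / p))) := by
        apply Finset.sum_congr rfl
        intro a _
        ring
      rw [e]
      exact step1 m n
    · exact sc.mul_right _
  have step3 : ‖∑ a ∈ A, P a * (N a * J a)‖ ≤ Tb * (Tc * (κ * S2)) := by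
    rw [hTb, ← tsum_mul_right]
    apply dn_dual_swap A (fun n : ℕ => tau n * Eb n)
      (fun (m : ℕ) (a : ℕ) => ee (-(m * (ib * ia a : ℕ) / p))) _ _ sb'
    · intro j a _
      rw [dn_dual_ee_norm]
    · intro m
      rw [nb m]
      apply mul_le_mul_of_nonneg_left _ (by positivity)
      have e : ∑ a ∈ A, ee (-(m * (ib * ia a : ℕ) / p)) * (N a * J a) =
          ∑ a ∈ A, N a * (J a * ee (-(m * (ib * ia a : ℕ) / p))) := by
        apply Finset.sum_congr rfl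
        intro a _
        ring
      rw [e]
      exact step2 m
    · exact sb.mul_right _
  have zb := dn_dual_size p b X ζ Ct hCt hp.pos hb hbX hζ Tb tb
  have zc := dn_dual_size p c X ζ Ct hCt hp.pos hc hcX hζ Tc tc
  rw [hsum, norm_mul, norm_mul, RCLike.norm_conj]
  set R : ℝ := (p : ℝ) ^ 2 * X * ‖ζ‖ ^ 2 / ζ.im with hR
  have hR0 : 0 ≤ R := by positivity
  have hκ1 : κ ≤ W * ((CK + 1) * (p : ℝ) ^ (3 / 4 : ℝ)) := by
    rw [hκ]
    apply mul_le_mul_of_nonneg_left _ hW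
    have : 1 ≤ (p : ℝ) ^ (3 / 4 : ℝ) := Real.one_le_rpow hp1 (by norm_num)
    linarith
  have hsq : (1 + Real.sqrt R) * (1 + Real.sqrt R) ≤ 2 * (1 + R) := by
    have h1 := Real.sq_sqrt hR0
    nlinarith [sq_nonneg (1 - Real.sqrt R)]
  have e12 : ζ.im ^ (-12 : ℝ) = (ζ.im ^ 6)⁻¹ * (ζ.im ^ 6)⁻¹ := by
    rw [Real.rpow_neg hζ.le, ← mul_inv, ← pow_add]
    congr 1
    exact_mod_cast Real.rpow_natCast ζ.im 12
  have hi : 0 ≤ (ζ.im ^ 6)⁻¹ := by positivity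
  calc ‖Kb‖ * ‖Kc‖ * ‖∑ a ∈ A, P a * (N a * J a)‖ ≤ ‖Kb‖ * ‖Kc‖ * (Tb * (Tc * (κ * S2))) :=
        mul_le_mul_of_nonneg_left step3 (by positivity)
    _ = (‖Kb‖ * Tb) * (‖Kc‖ * Tc) * (κ * S2) := by ring
    _ ≤ (Ct * (ζ.im ^ 6)⁻¹ * (1 + Real.sqrt R)) * (Ct * (ζ.im ^ 6)⁻¹ * (1 + Real.sqrt R)) *
        ((W * ((CK + 1) * (p : ℝ) ^ (3 / 4 : ℝ))) * (S2 + 1)) := by
        apply mul_le_mul
        · exact mul_le_mul zb zc (by positivity) (by positivity)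
        · exact mul_le_mul hκ1 (by linarith) hS20 (by positivity)
        · positivity
        · positivity
    _ = Ct ^ 2 * ((ζ.im ^ 6)⁻¹ * (ζ.im ^ 6)⁻¹) * (W * ((CK + 1) * (p : ℝ) ^ (3 / 4 : ℝ))) *
        (S2 + 1) * ((1 + Real.sqrt R) * (1 + Real.sqrt R)) := by ring
    _ ≤ Ct ^ 2 * ((ζ.im ^ 6)⁻¹ * (ζ.im ^ 6)⁻¹) * (W * ((CK + 1) * (p : ℝ) ^ (3 / 4 : ℝ))) *
        (S2 + 1) * (2 * (1 + R)) := mul_le_mul_of_nonneg_left hsq (by positivity)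
    _ = 2 * Ct ^ 2 * (CK + 1) * (S2 + 1) * W * (p : ℝ) ^ (3 / 4 : ℝ) * ζ.im ^ (-12 : ℝ) *
        (1 + R) := by rw [e12]; ring

end Pool.Agent.Lib.MP_cd509c_nt.DN
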