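import Pool.Agent.Lib.MP_cd509c_nt.DN.Defs

/-!
# Piece `edge`: `LL * Mol - 1` right of `Re w = 1`
-/

set_option autoImplicit false

namespace Pool.Agent.Lib.MP_cd509c_nt.DN

open Complex ComplexConjugate MeasureTheory

private lemma dn_edge_Pw_one {u : ℝ} (h : u ≤ 1 / 2) : Pw u = 1 := Pw_one h

private lemma dn_edge_Pw_zero {u : ℝ} (h : 1 ≤ u) : Pw u = 0 := Pw_zero h

private lemma dn_edge_Pw_mem (u : ℝ) : |Pw u - 1| ≤ 1 := by
  have h0 := Pw_nonneg u
  have h1 := Pw_le_one u
  rw [abs_le]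
  constructor <;> linarith

private lemma dn_edge_norm_term (f : ℕ → ℂ) (hf : f 0 = 0) (s : ℂ) (n : ℕ) :
    ‖LSeries.term f s n‖ = ‖f n‖ / (n : ℝ) ^ s.re := by
  rw [LSeries.norm_term_eq]
  split_ifs with h
  · rw [h, hf]; simp
  · rfl

private lemma dn_edge_LL {w : ℂ} (hw : 1 ≤ w.re) : LSeriesHasSum tau (6 + w) (LL w) := by
  have hs : 13 / 2 < (6 + w).re := by simp; linarith
  have h := Lam_hasSum' hs
  have hG : Gamma (6 + w) ≠ 0 := Gamma_ne_zero_of_re_pos (by linarith)
  have h2 := h.mul_left ((2 * Real.pi : ℂ) ^ (6 + w) * (Gamma (6 + w))⁻¹)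
  have hpi := two_pi_cpow_ne (6 + w)
  unfold LSeriesHasSum
  have e0 : LL w = (2 * Real.pi : ℂ) ^ (6 + w) * (Gamma (6 + w))⁻¹ * Lam (6 + w) := rfl
  rw [e0]
  refine h2.congr_fun ?_ |> fun h => h
  intro n
  have e : ((2 * Real.pi * n : ℝ) : ℂ) ^ (6 + w) =
      (2 * Real.pi : ℂ) ^ (6 + w) * (n : ℂ) ^ (6 + w) := by
    have := mul_cpow_ofReal_nonneg (a := 2 * Real.pi) (b := (n : ℝ)) (by positivity)
      (Nat.cast_nonneg n) (6 + w)
    push_cast at this ⊢
    exact this
  rw [e]
  rcases Nat.eq_zero_or_pos n with h0 | h0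
  · rw [h0, LSeries.term_zero, tau_zero]; simp
  · rw [LSeries.term_of_ne_zero h0.ne']
    have hn : (n : ℂ) ^ (6 + w) ≠ 0 := by
      rw [Complex.cpow_ne_zero_iff]
      left
      exact_mod_cast h0.ne'
    field_simp

private lemma dn_edge_one (hI : S_mufInv) {s : ℂ} :
    LSeriesHasSum (LSeries.convolution muf tau) s 1 := by
  unfold LSeriesHasSum
  have h : ∀ n : ℕ, n ≠ 1 → LSeries.term (LSeries.convolution muf tau) s n = 0 := by
    intro n hn
    rcases Nat.eq_zero_or_pos n with h0 | h0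
    · rw [h0, LSeries.term_zero]
    · rw [LSeries.term_of_ne_zero h0.ne', LSeries.convolution_def]
      have h1 := hI n h0
      rw [if_neg hn] at h1
      have h2 : ∑ p ∈ n.divisorsAntidiagonal, muf p.1 * tau p.2 =
          ∑ d ∈ n.divisors, muf d * tau (n / d) :=
        Nat.sum_divisorsAntidiagonal (fun a b => muf a * tau b)
      simp only [h2, h1, zero_div]
  have h1 : LSeries.term (LSeries.convolution muf tau) s 1 = 1 := by
    rw [LSeries.term_of_ne_zero one_ne_zero, LSeries.convolution_def]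
    have h1 := hI 1 le_rfl
    rw [if_pos rfl] at h1
    have h2 : ∑ p ∈ (1 : ℕ).divisorsAntidiagonal, muf p.1 * tau p.2 =
        ∑ d ∈ (1 : ℕ).divisors, muf d * tau (1 / d) :=
      Nat.sum_divisorsAntidiagonal (fun a b => muf a * tau b)
    simp only [h2, h1]
    simp
  have := hasSum_single (f := LSeries.term (LSeries.convolution muf tau) s) 1 h
  rwa [h1] at this

/-- The mollifier as a series. -/
private lemma dn_edge_Mol {X : ℝ} (hX : 1 < X) (w : ℂ) :
    HasSum (fun b : ℕ => LSeries.term muf (6 + w) b * Pw (Real.log b / Real.log X))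
      (Mol X w) := by
  have h : ∀ b ∉ Finset.Icc 1 ⌊X⌋₊,
      LSeries.term muf (6 + w) b * Pw (Real.log b / Real.log X) = 0 := by
    intro b hb
    rcases Nat.eq_zero_or_pos b with h0 | h0
    · rw [h0, LSeries.term_zero, zero_mul]
    · rw [Finset.mem_Icc, not_and, not_le] at hb
      have hb1 : X < b := (Nat.floor_lt (by linarith)).mp (hb h0)
      have hl : 0 < Real.log X := Real.log_pos hX
      have h2 : Pw (Real.log b / Real.log X) = 0 := by
        apply dn_edge_Pw_zero
        rw [le_div_iff₀ hl, one_mul]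
        exact Real.log_le_log (by linarith) hb1.le
      rw [h2]; simp
  have h2 : HasSum (fun b : ℕ => LSeries.term muf (6 + w) b * Pw (Real.log b / Real.log X))
      (∑ b ∈ Finset.Icc 1 ⌊X⌋₊,
        LSeries.term muf (6 + w) b * Pw (Real.log b / Real.log X)) :=
    hasSum_sum_of_ne_finset_zero h
  have e : ∑ b ∈ Finset.Icc 1 ⌊X⌋₊,
      LSeries.term muf (6 + w) b * Pw (Real.log b / Real.log X) = Mol X w := by
    unfold Mol
    apply Finset.sum_congr rfl
    intro b hb
    have hb1 := (Finset.mem_Icc.mp hb).1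
    rw [LSeries.term_of_ne_zero (by omega), cpow_neg, div_eq_mul_inv]
    ring
  rw [e] at h2
  exact h2

theorem p_edge (hI : S_mufInv) (hS : S_mufSum) : S_edge := by
  intro θ hθ hθ1
  have hA := tau_summable (σ := 7) (by norm_num)
  have hB := hS (27 / 4) (by norm_num)
  set A : ℝ := ∑' n : ℕ, ‖tau n‖ / (n : ℝ) ^ (7 : ℝ) with hAdef
  set B : ℝ := ∑' n : ℕ, ‖muf n‖ / (n : ℝ) ^ (27 / 4 : ℝ) with hBdef
  have hA0 : 0 ≤ A := tsum_nonneg fun n => by positivity
  have hB0 : 0 ≤ B := tsum_nonneg fun n => by positivity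
  have hmuf0 : muf 0 = 0 := by unfold muf; simp
  refine ⟨A * B + 1, by positivity, fun T hT w hw => ?_⟩
  have hT0 : 0 < T := by linarith
  set X : ℝ := T ^ θ with hXdef
  have hX1 : 1 < X := Real.one_lt_rpow (by linarith) hθ
  have hX0 : 0 < X := by linarith
  have hre : (6 + w).re = 6 + w.re := by simp
  -- the bound of LL
  have hLL := dn_edge_LL hw
  have hLLn : ‖LL w‖ ≤ A := by
    rw [← hLL.tsum_eq]
    refine tsum_of_norm_bounded hA.hasSum ?_
    intro n
    rw [dn_edge_norm_term tau tau_zero, hre]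
    rcases Nat.eq_zero_or_pos n with h0 | h0
    · rw [h0, tau_zero]; simp
    · have hn : (1 : ℝ) ≤ n := by exact_mod_cast h0
      gcongr
      linarith
  -- the series of muf
  have hM : LSeriesSummable muf (6 + w) := by
    unfold LSeriesSummable
    apply Summable.of_norm
    have := hS (6 + w).re (by rw [hre]; linarith)
    refine this.congr fun n => ?_
    rw [dn_edge_norm_term muf hmuf0]
  obtain ⟨M, hMs⟩ := hM
  have hMs' : LSeriesHasSum muf (6 + w) M := hMs
  have h1 : M * LL w = 1 := (hMs'.convolution hLL).unique (dn_edge_one hI)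
  have hMol := dn_edge_Mol hX1 w
  have hd := hMol.sub hMs
  have hdn : ‖Mol X w - M‖ ≤ X ^ (-(1 / 8) : ℝ) * B := by
    rw [← hd.tsum_eq]
    refine tsum_of_norm_bounded (hB.hasSum.mul_left _) ?_
    intro b
    rcases Nat.eq_zero_or_pos b with h0 | h0
    · rw [h0, LSeries.term_zero, hmuf0]; simp
    · have hb : (1 : ℝ) ≤ b := by exact_mod_cast h0
      have hb0 : (0 : ℝ) < b := by linarith
      have e : LSeries.term muf (6 + w) b * Pw (Real.log b / Real.log X) -
          LSeries.term muf (6 + w) b =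
          LSeries.term muf (6 + w) b * ((Pw (Real.log b / Real.log X) - 1 : ℝ) : ℂ) := by
        push_cast; ring
      rw [e, norm_mul, dn_edge_norm_term muf hmuf0, Complex.norm_real, Real.norm_eq_abs]
      have hl : 0 < Real.log X := Real.log_pos hX1
      by_cases hcase : Real.log b / Real.log X ≤ 1 / 2
      · rw [dn_edge_Pw_one hcase]
        simp only [sub_self, abs_zero, mul_zero]
        positivity
      · have hXb : X ^ (1 / 2 : ℝ) ≤ b := by
          rw [not_le, lt_div_iff₀ hl] at hcase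
          rw [← Real.log_le_log_iff (by positivity) hb0, Real.log_rpow hX0]
          exact hcase.le
        have h4 : (b : ℝ) ^ (-(1 / 4) : ℝ) ≤ X ^ (-(1 / 8) : ℝ) := by
          have : X ^ (-(1 / 8) : ℝ) = (X ^ (1 / 2 : ℝ)) ^ (-(1 / 4) : ℝ) := by
            rw [← Real.rpow_mul hX0.le]; norm_num
          rw [this]
          exact Real.rpow_le_rpow_of_nonpos (by positivity) hXb (by norm_num)
        calc ‖muf b‖ / (b : ℝ) ^ (6 + w).re * |Pw (Real.log b / Real.log X) - 1|
            ≤ ‖muf b‖ / (b : ℝ) ^ (6 + w).re * 1 := by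
              gcongr
              exact dn_edge_Pw_mem _
          _ ≤ ‖muf b‖ / (b : ℝ) ^ (7 : ℝ) := by
              rw [mul_one, hre]
              gcongr
              linarith
          _ = (b : ℝ) ^ (-(1 / 4) : ℝ) * (‖muf b‖ / (b : ℝ) ^ (27 / 4 : ℝ)) := by
              have e7 : (b : ℝ) ^ (7 : ℝ) = (b : ℝ) ^ (27 / 4 : ℝ) * (b : ℝ) ^ (1 / 4 : ℝ) := by
                rw [← Real.rpow_add hb0]; norm_num
              rw [e7, Real.rpow_neg hb0.le]
              field_simp
          _ ≤ X ^ (-(1 / 8) : ℝ) * (‖muf b‖ / (b : ℝ) ^ (27 / 4 : ℝ)) := by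
              gcongr
  have e : LL w * Mol X w - 1 = LL w * (Mol X w - M) := by
    rw [← h1]; ring
  rw [e, norm_mul]
  have hX8 : X ^ (-(1 / 8) : ℝ) = T ^ (-(θ / 8)) := by
    rw [hXdef, ← Real.rpow_mul hT0.le]
    congr 1
    ring
  calc ‖LL w‖ * ‖Mol X w - M‖ ≤ A * (X ^ (-(1 / 8) : ℝ) * B) := by gcongr
    _ = A * B * T ^ (-(θ / 8)) := by rw [hX8]; ring
    _ ≤ (A * B + 1) * T ^ (-(θ / 8)) := by
        have : 0 ≤ T ^ (-(θ / 8)) := by positivity
        nlinarith

end Pool.Agent.Lib.MP_cd509c_nt.DN
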