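import Mathlib
import Pool.Agent.Lib.MP_cd509c_nt.DN.Defs

/-!
# Piece farD: the bound away from the saddle, circle
-/

set_option autoImplicit false

namespace Pool.Agent.Lib.MP_cd509c_nt.DN

open Complex ComplexConjugate MeasureTheory

theorem dn_farD_cos {t : ℝ} (h1 : 7 / 10 ≤ |t|) (h2 : |t| ≤ Real.pi) : Real.cos t ≤ 4 / 5 := by
  rw [← Real.cos_abs]
  have h3 : Real.cos |t| ≤ Real.cos (7 / 10) :=
    Real.cos_le_cos_of_nonneg_of_le_pi (by norm_num) h2 h1
  have h4 : |Real.cos (7 / 10) - (1 - (7 / 10 : ℝ) ^ 2 / 2)| ≤ |(7 / 10 : ℝ)| ^ 4 * (5 / 96) :=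
    Real.cos_bound (by rw [abs_of_pos] <;> norm_num)
  rw [abs_of_pos (show (0 : ℝ) < 7 / 10 by norm_num)] at h4
  have h5 := (abs_le.1 h4).2
  norm_num at h5
  linarith

theorem dn_farD_exp {t : ℝ} (h1 : |t| ≤ 1 / 32) : Real.exp t ≤ 26 / 25 := by
  have h2 : Real.exp t ≤ Real.exp (1 / 32) := Real.exp_le_exp.2 (le_trans (le_abs_self t) h1)
  have h3 : Real.exp (1 / 32) ≤ 1 / (1 - 1 / 32) :=
    Real.exp_bound_div_one_sub_of_interval (by norm_num) (by norm_num)
  have h4 : (1 : ℝ) / (1 - 1 / 32) ≤ 26 / 25 := by norm_num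
  exact h2.trans (h3.trans h4)

/-- data of `v = exp ζ` -/
theorem dn_farD_v {ζ : ℂ} (h1 : |ζ.re| ≤ 1 / 32) (h2 : 7 / 10 ≤ |ζ.im|) (h3 : |ζ.im| ≤ Real.pi) :
    ‖cexp ζ‖ ≤ 26 / 25 ∧ (cexp ζ).re ≤ 21 / 25 := by
  have h4 := dn_farD_exp h1
  have h5 := dn_farD_cos h2 h3
  have h6 : 0 < Real.exp ζ.re := Real.exp_pos _
  refine ⟨by rw [Complex.norm_exp]; exact h4, ?_⟩
  rw [Complex.exp_re]
  nlinarith [mul_le_mul_of_nonneg_left h5 h6.le]

theorem dn_farD_la (N : ℝ) (R : ℂ → ℂ) (z : ℂ) : ‖la N R z‖ = Real.exp (N * z.re) * ‖R z‖ := by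
  rw [la, norm_mul, Complex.norm_exp]
  simp

theorem dn_farD_sym {f : ℂ → ℂ} (h : Sym f) (z : ℂ) : ‖f z‖ = ‖f (-conj z)‖ := by
  obtain ⟨c, hc, h⟩ := h
  rw [h z, norm_mul, hc, one_mul, Complex.norm_conj]

/-- the right half plane -/
theorem dn_farD_pos {ε N b Y : ℝ} {R : ℂ → ℂ} (hε : 0 < ε) (hε' : ε ≤ 1 / 400) (hN : 0 < N)
    (hb : 1 ≤ b) (hR : Reg ε N b Y R) {w v : ℂ} (hw : b / 4 ≤ w.re + 1)
    (hw' : w.re ≤ Y - 4) (hwi : |w.im| ≤ 1 / 8) (hv : ‖v‖ ≤ 26 / 25) (hv' : v.re ≤ 21 / 25)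
    (h0 : 0 ≤ (w + v).re) :
    ‖la N R (w + v)‖ ≤ Real.exp (N * (w.re + 1) - N / 20) * ‖R (w + 1)‖ := by
  have h1 := abs_re_le_norm v
  have h2 := abs_im_le_norm v
  have h3 := hR.lin (w + 1) (w + v) (by simpa using hw) (by simp; linarith)
    (by simp; linarith) h0 (by simp; linarith [(abs_le.1 h1).2])
    (by
      have := abs_add_le w.im v.im
      simp
      linarith)
  have h4 : ‖w + v - (w + 1)‖ ≤ 51 / 25 := by
    have : w + v - (w + 1) = v - 1 := by ring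
    rw [this]
    have := norm_sub_le v 1
    rw [norm_one] at this
    linarith
  rw [dn_farD_la]
  calc Real.exp (N * (w + v).re) * ‖R (w + v)‖
      ≤ Real.exp (N * (w + v).re) * (Real.exp (ε * N * ‖w + v - (w + 1)‖) * ‖R (w + 1)‖) :=
        mul_le_mul_of_nonneg_left h3 (Real.exp_pos _).le
    _ = Real.exp (N * (w + v).re + ε * N * ‖w + v - (w + 1)‖) * ‖R (w + 1)‖ := by
        rw [Real.exp_add]; ring
    _ ≤ _ := by
        refine mul_le_mul_of_nonneg_right (Real.exp_le_exp.2 ?_) (norm_nonneg _)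
        have h5 : ε * N * ‖w + v - (w + 1)‖ ≤ 1 / 400 * N * (51 / 25) := by gcongr
        have h6 : N * (w + v).re ≤ N * (w.re + 21 / 25) := by
          refine mul_le_mul_of_nonneg_left ?_ hN.le
          simp
          linarith
        nlinarith

/-- the left half plane -/
theorem dn_farD_neg {ε N b Y : ℝ} {R : ℂ → ℂ} (hε : 0 < ε) (hε' : ε ≤ 1 / 400) (hN : 0 < N)
    (hb : 1 ≤ b) (hY : 40 * b ≤ Y) (hR : Reg ε N b Y R) (hS : Sym (la N R)) {w v : ℂ}
    (hw : b / 4 ≤ w.re + 1)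
    (hw' : w.re ≤ Y - 4) (hwi : |w.im| ≤ 1 / 8) (hv : ‖v‖ ≤ 26 / 25)
    (h0 : (w + v).re ≤ 0) (h1 : -(w + v).re ≤ w.re + 23 / 25) (h7 : -(w + v).re ≤ 2) (h8 : |w.re| ≤ 2) :
    ‖la N R (w + v)‖ ≤ Real.exp (N * (w.re + 1) - N / 20) * ‖R (w + 1)‖ := by
  have h2 := abs_im_le_norm v
  set z : ℂ := -conj (w + v) with hz
  have hzre : z.re = -(w + v).re := by simp [hz]
  have hzim : z.im = w.im + v.im := by simp [hz, add_comm]
  have hzi : |z.im| ≤ 6 / 5 := by
    rw [hzim]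
    have := abs_add_le w.im v.im
    linarith
  have h3 := hR.lin (w + 1) z (by simpa using hw) (by simp; linarith)
    (by simp; linarith) (by rw [hzre]; linarith) (by rw [hzre]; linarith)
    (by linarith)
  have h4 : ‖z - (w + 1)‖ ≤ 5 + 33 / 25 := by
    refine (norm_le_abs_re_add_abs_im _).trans ?_
    have h9 : (z - (w + 1)).re = -(w + v).re - w.re - 1 := by
      rw [sub_re, hzre, add_re w 1, one_re]; ring
    have h10 : (z - (w + 1)).im = v.im := by
      rw [sub_im, hzim]; simp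
    rw [h9, h10]
    have h11 := abs_le.1 h8
    have h12 : |-(w + v).re - w.re - 1| ≤ 5 := by
      rw [abs_le]; constructor <;> linarith
    linarith
  rw [dn_farD_sym hS, ← hz, dn_farD_la]
  calc Real.exp (N * z.re) * ‖R z‖
      ≤ Real.exp (N * z.re) * (Real.exp (ε * N * ‖z - (w + 1)‖) * ‖R (w + 1)‖) :=
        mul_le_mul_of_nonneg_left h3 (Real.exp_pos _).le
    _ = Real.exp (N * z.re + ε * N * ‖z - (w + 1)‖) * ‖R (w + 1)‖ := by
        rw [Real.exp_add]; ring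
    _ ≤ _ := by
        refine mul_le_mul_of_nonneg_right (Real.exp_le_exp.2 ?_) (norm_nonneg _)
        have h5 : ε * N * ‖z - (w + 1)‖ ≤ 1 / 400 * N * (5 + 33 / 25) := by gcongr
        have h6 : N * z.re ≤ N * (w.re + 23 / 25) := by
          refine mul_le_mul_of_nonneg_left ?_ hN.le
          rw [hzre]; exact h1
        nlinarith

theorem p_farD : S_farD := by
  refine ⟨1 / 400, by norm_num, fun ε N b Y R hε hε' hN hb hY hR => ⟨?_, ?_, ?_⟩⟩
  · intro hb1 hS w hwr hwi ζ h1 h2 h3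
    subst hb1
    have hpi := Real.pi_pos
    obtain ⟨hv, hv'⟩ := dn_farD_v h1 h2 (by linarith)
    have hw := abs_le.1 hwr
    rcases le_total 0 (w + cexp ζ).re with h0 | h0
    · exact dn_farD_pos hε hε' hN le_rfl hR (by linarith) (by linarith) hwi hv hv' h0
    · have h4 : 0 ≤ (cexp ζ).re := by
        rw [Complex.exp_re]
        refine mul_nonneg (Real.exp_pos _).le (Real.cos_nonneg_of_neg_pi_div_two_le_of_le ?_ ?_)
        · linarith [(abs_le.1 h3).1]
        · linarith [(abs_le.1 h3).2]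
      have h5 : (w + cexp ζ).re = w.re + (cexp ζ).re := by simp
      exact dn_farD_neg hε hε' hN le_rfl hY hR hS (by linarith) (by linarith) hwi hv h0
        (by linarith) (by linarith) (by linarith)
  · intro hb1 hS y hy hy' ζ h1 h2 h3
    subst hb1
    obtain ⟨hv, hv'⟩ := dn_farD_v h1 h2 h3
    have hre : ((y : ℂ)).re = y := ofReal_re y
    have him : |((y : ℂ)).im| ≤ 1 / 8 := by simp
    have h4 := abs_le.1 ((abs_re_le_norm (cexp ζ)).trans hv)
    have h5 : ((y : ℂ) + cexp ζ).re = y + (cexp ζ).re := by simp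
    rcases le_total 0 ((y : ℂ) + cexp ζ).re with h0 | h0
    · exact dn_farD_pos hε hε' hN le_rfl hR (by rw [hre]; linarith) (by rw [hre]; linarith) him hv
        hv' h0
    · refine dn_farD_neg hε hε' hN le_rfl hY hR hS (by rw [hre]; linarith) (by rw [hre]; linarith)
        him hv h0 (by rw [h5, hre]; linarith) (by rw [h5]; linarith) ?_
      rw [hre, abs_le]
      constructor <;> linarith
  · intro y hy2 hy hy' ζ h1 h2 h3
    obtain ⟨hv, hv'⟩ := dn_farD_v h1 h2 h3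
    have hre : ((y : ℂ)).re = y := ofReal_re y
    have him : |((y : ℂ)).im| ≤ 1 / 8 := by simp
    have h4 := abs_le.1 ((abs_re_le_norm (cexp ζ)).trans hv)
    have h5 : ((y : ℂ) + cexp ζ).re = y + (cexp ζ).re := by simp
    exact dn_farD_pos hε hε' hN hb hR (by rw [hre]; linarith) (by rw [hre]; linarith) him hv
      hv' (by rw [h5]; linarith)

end Pool.Agent.Lib.MP_cd509c_nt.DN
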