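import Pool.Agent.Lib.MP_cd509c_nt.DN.Defs2

/-!
# Lower bound for horocycle averages

Every point `x + i h` is equivalent to a point of the fundamental domain; the points which go high
into the cusp lie in short intervals around fractions with small denominators, of total measure at
most `1/2`.
-/

set_option autoImplicit false

namespace Pool.Agent.Lib.MP_cd509c_nt.DN

open Complex MeasureTheory MatrixGroups UpperHalfPlane ModularForm Modular

/-- compactness -/
private theorem dn_farey_compact : ∃ c : ℝ, 0 < c ∧ ∀ w : ℂ, |w.re| ≤ 1 / 2 → 1 / 2 ≤ w.im →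
    w.im ≤ 8 → c ≤ ‖Dc w‖ * w.im ^ 6 := by
  have hK : IsCompact (Set.Icc (-(1 / 2) : ℝ) (1 / 2) ×ℂ Set.Icc (1 / 2 : ℝ) 8) :=
    isCompact_Icc.reProdIm isCompact_Icc
  have hne : (Set.Icc (-(1 / 2) : ℝ) (1 / 2) ×ℂ Set.Icc (1 / 2 : ℝ) 8).Nonempty := by
    refine ⟨Complex.I, ?_⟩
    rw [Complex.mem_reProdIm]
    simp
    norm_num
  have hc : ContinuousOn (fun w : ℂ => ‖Dc w‖ * w.im ^ 6)
      (Set.Icc (-(1 / 2) : ℝ) (1 / 2) ×ℂ Set.Icc (1 / 2 : ℝ) 8) := by
    intro w hw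
    rw [Complex.mem_reProdIm] at hw
    have him : 0 < w.im := by
      have := hw.2.1
      linarith
    have h1 : ContinuousAt Dc w := (Dc_differentiableAt him).continuousAt
    exact (h1.norm.mul (Complex.continuous_im.continuousAt.pow 6)).continuousWithinAt
  obtain ⟨w₀, hw₀, hmin⟩ := hK.exists_isMinOn hne hc
  rw [Complex.mem_reProdIm] at hw₀
  have him : 0 < w₀.im := by
    have := hw₀.2.1
    linarith
  have hD : Dc w₀ ≠ 0 := by
    have := ModularForm.discriminant_ne_zero (⟨w₀, him⟩ : ℍ)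
    rwa [disc_eq] at this
  refine ⟨‖Dc w₀‖ * w₀.im ^ 6, mul_pos (norm_pos_iff.2 hD) (pow_pos him 6), ?_⟩
  intro w h1 h2 h3
  refine hmin ?_
  rw [Complex.mem_reProdIm]
  exact ⟨abs_le.1 h1, h2, h3⟩

/-- invariance -/
private theorem dn_farey_inv (g : SL(2, ℤ)) (z : ℍ) :
    ‖Dc ((g • z : ℍ) : ℂ)‖ * (g • z : ℍ).im ^ 6 = ‖Dc (z : ℂ)‖ * z.im ^ 6 := by
  have h1 := SL_disc g z
  rw [disc_eq, disc_eq] at h1
  have h2 := ModularGroup.im_smul_eq_div_normSq g z
  have h3 : denom g z = (g 1 0 : ℂ) * z + (g 1 1 : ℂ) := by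
    simp [ModularGroup.denom_apply]
  have h4 : denom g z ≠ 0 := denom_ne_zero g z
  rw [h1, h2, ← h3, norm_mul, norm_zpow, Complex.normSq_eq_norm_sq]
  have h5 : ‖denom g z‖ ≠ 0 := norm_ne_zero_iff.2 h4
  have e : ((12 : ℤ)) = ((12 : ℕ) : ℤ) := rfl
  rw [e, zpow_natCast]
  field_simp

/-- points which are not near a fraction with small denominator -/
private theorem dn_farey_pt {c : ℝ} (hc : ∀ w : ℂ, |w.re| ≤ 1 / 2 → 1 / 2 ≤ w.im →
    w.im ≤ 8 → c ≤ ‖Dc w‖ * w.im ^ 6) {h x : ℝ} (h0 : 0 < h) (h1 : h ≤ 1)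
    (hx : ∀ q : ℕ, 1 ≤ q → (q : ℝ) ^ 2 * h * 8 < 1 → ∀ a : ℤ, h ≤ 8 * ((q : ℝ) * x - a) ^ 2) :
    c ≤ ‖Dc (x + h * Complex.I)‖ * h ^ 6 := by
  have hz : 0 < ((x : ℂ) + h * Complex.I).im := by simpa using h0
  obtain ⟨g, hg⟩ := ModularGroup.exists_smul_mem_fd (⟨(x : ℂ) + h * Complex.I, hz⟩ : ℍ)
  set z : ℍ := ⟨(x : ℂ) + h * Complex.I, hz⟩ with hzdef
  have hzre : z.re = x := by
    show ((x : ℂ) + h * Complex.I).re = x
    simp
  have hzim : z.im = h := by
    show ((x : ℂ) + h * Complex.I).im = h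
    simp
  have hinv := dn_farey_inv g z
  rw [hzim] at hinv
  have hzc : (z : ℂ) = (x : ℂ) + h * Complex.I := rfl
  rw [← hzc, ← hinv]
  have hre : |(g • z : ℍ).re| ≤ 1 / 2 := hg.2
  have him := ModularGroup.three_le_four_mul_im_sq_of_mem_fd hg
  have hpos : 0 < (g • z : ℍ).im := (g • z : ℍ).im_pos
  refine hc _ hre ?_ ?_
  · show 1 / 2 ≤ (g • z : ℍ).im
    nlinarith
  · show (g • z : ℍ).im ≤ 8
    by_contra hlt
    push Not at hlt
    have h2 := ModularGroup.im_smul_eq_div_normSq g z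
    have h3 : denom g z = (g 1 0 : ℂ) * z + (g 1 1 : ℂ) := by
      simp [ModularGroup.denom_apply]
    have h4 : Complex.normSq (denom g z) = ((g 1 0 : ℝ) * x + (g 1 1 : ℝ)) ^ 2 +
        ((g 1 0 : ℝ) * h) ^ 2 := by
      rw [h3, hzc, Complex.normSq_apply]
      simp
      ring
    have h5 : 0 < Complex.normSq (denom g z) :=
      Complex.normSq_pos.2 (denom_ne_zero g z)
    rw [h2, hzim, h4, lt_div_iff₀ (h4 ▸ h5)] at hlt
    have hdet : g 0 0 * g 1 1 - g 0 1 * g 1 0 = 1 := by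
      have := g.det_coe
      rwa [Matrix.det_fin_two] at this
    generalize g 1 0 = cc at *
    generalize g 1 1 = dd at *
    by_cases hcc : cc = 0
    · rw [hcc] at hdet hlt
      have hd : dd ≠ 0 := by
        intro hd
        rw [hd] at hdet
        simp at hdet
      have hd1 : (1 : ℝ) ≤ (dd : ℝ) ^ 2 := by
        have : 1 ≤ dd ^ 2 := by
          have := sq_pos_of_ne_zero hd
          omega
        exact_mod_cast this
      simp only [Int.cast_zero, zero_mul, zero_add] at hlt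
      nlinarith
    · have hq : 1 ≤ cc.natAbs := Nat.one_le_iff_ne_zero.2 (Int.natAbs_ne_zero.2 hcc)
      have hq2 : ((cc.natAbs : ℕ) : ℝ) ^ 2 = (cc : ℝ) ^ 2 := by
        have : ((cc.natAbs : ℕ) : ℝ) = |(cc : ℝ)| := by
          rw [Nat.cast_natAbs, Int.cast_abs]
        rw [this, sq_abs]
      have hA : ((cc.natAbs : ℕ) : ℝ) ^ 2 * h * 8 < 1 := by
        rw [hq2]
        have e1 : 8 * ((cc : ℝ) * h) ^ 2 < h := by
          nlinarith [sq_nonneg ((cc : ℝ) * x + (dd : ℝ))]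
        have e2 : (8 * (cc : ℝ) ^ 2 * h) * h < 1 * h := by
          calc (8 * (cc : ℝ) ^ 2 * h) * h = 8 * ((cc : ℝ) * h) ^ 2 := by ring
            _ < h := e1
            _ = 1 * h := (one_mul h).symm
        have e3 := lt_of_mul_lt_mul_right e2 h0.le
        linarith
      have hB : 8 * ((cc : ℝ) * x + (dd : ℝ)) ^ 2 < h := by
        nlinarith [sq_nonneg ((cc : ℝ) * h)]
      rcases Int.natAbs_eq cc with hs | hs
      · have h6 := hx cc.natAbs hq hA (-dd)
        have e : ((cc.natAbs : ℕ) : ℝ) = (cc : ℝ) := by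
          conv_rhs => rw [hs]
          simp
        rw [e] at h6
        push_cast at h6
        have e4 : (cc : ℝ) * x - -(dd : ℝ) = (cc : ℝ) * x + dd := by ring
        rw [e4] at h6
        linarith
      · have h6 := hx cc.natAbs hq hA dd
        have e : ((cc.natAbs : ℕ) : ℝ) = -(cc : ℝ) := by
          conv_rhs => rw [hs]
          simp
        rw [e] at h6
        have e4 : (-(cc : ℝ) * x - dd) ^ 2 = ((cc : ℝ) * x + dd) ^ 2 := by ring
        rw [e4] at h6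
        linarith

/-- the exceptional set -/
private noncomputable def dn_farey_bad (h : ℝ) : Set ℝ :=
  ⋃ q ∈ Finset.Icc 1 ⌊1 / Real.sqrt (8 * h)⌋₊, ⋃ a ∈ Finset.range (q + 1),
    Metric.ball ((a : ℝ) / q) (Real.sqrt (h / 8) / q)

private theorem dn_farey_bad_meas (h : ℝ) : MeasurableSet (dn_farey_bad h) :=
  Finset.measurableSet_biUnion _ fun _ _ =>
    Finset.measurableSet_biUnion _ fun _ _ => measurableSet_ball

private theorem dn_farey_bad_le {h : ℝ} (h0 : 0 < h) :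
    volume (dn_farey_bad h) ≤ ENNReal.ofReal (1 / 2) := by
  have hη : 0 ≤ Real.sqrt (h / 8) := Real.sqrt_nonneg _
  have hs : 0 < Real.sqrt (8 * h) := Real.sqrt_pos.2 (by linarith)
  have h1 : volume (dn_farey_bad h) ≤ ∑ q ∈ Finset.Icc 1 ⌊1 / Real.sqrt (8 * h)⌋₊,
      ∑ a ∈ Finset.range (q + 1), ENNReal.ofReal (2 * (Real.sqrt (h / 8) / q)) := by
    unfold dn_farey_bad
    refine (measure_biUnion_finset_le _ _).trans (Finset.sum_le_sum fun q _ => ?_)
    refine (measure_biUnion_finset_le _ _).trans (Finset.sum_le_sum fun a _ => ?_)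
    rw [Real.volume_ball]
  refine h1.trans ?_
  have h2 : ∀ q ∈ Finset.Icc 1 ⌊1 / Real.sqrt (8 * h)⌋₊,
      ∑ a ∈ Finset.range (q + 1), ENNReal.ofReal (2 * (Real.sqrt (h / 8) / q)) ≤
        ENNReal.ofReal (4 * Real.sqrt (h / 8)) := by
    intro q hq
    have hq1 : (1 : ℝ) ≤ q := by exact_mod_cast (Finset.mem_Icc.1 hq).1
    rw [← ENNReal.ofReal_sum_of_nonneg (fun a _ => by positivity), Finset.sum_const,
      Finset.card_range, nsmul_eq_mul]
    refine ENNReal.ofReal_le_ofReal ?_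
    have e : ((q + 1 : ℕ) : ℝ) * (2 * (Real.sqrt (h / 8) / q)) =
        2 * Real.sqrt (h / 8) * (((q : ℝ) + 1) / q) := by
      push_cast
      ring
    rw [e]
    have e2 : ((q : ℝ) + 1) / q ≤ 2 := by
      rw [div_le_iff₀ (by linarith)]
      linarith
    nlinarith
  refine (Finset.sum_le_sum h2).trans ?_
  rw [← ENNReal.ofReal_sum_of_nonneg (fun q _ => by positivity), Finset.sum_const,
    Nat.card_Icc, Nat.add_sub_cancel, nsmul_eq_mul]
  refine ENNReal.ofReal_le_ofReal ?_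
  have h3 : ((⌊1 / Real.sqrt (8 * h)⌋₊ : ℕ) : ℝ) ≤ 1 / Real.sqrt (8 * h) :=
    Nat.floor_le (by positivity)
  have h4 : Real.sqrt (8 * h) = 8 * Real.sqrt (h / 8) := by
    have e : 8 * h = 8 ^ 2 * (h / 8) := by ring
    rw [e, Real.sqrt_mul (by norm_num), Real.sqrt_sq (by norm_num)]
  have h5 : 0 < Real.sqrt (h / 8) := Real.sqrt_pos.2 (by linarith)
  calc ((⌊1 / Real.sqrt (8 * h)⌋₊ : ℕ) : ℝ) * (4 * Real.sqrt (h / 8))
      ≤ 1 / Real.sqrt (8 * h) * (4 * Real.sqrt (h / 8)) :=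
        mul_le_mul_of_nonneg_right h3 (by positivity)
    _ = 1 / 2 := by
        rw [h4]
        field_simp
        norm_num

private theorem dn_farey_good {h x : ℝ} (h0 : 0 < h) (h1 : h ≤ 1) (hx0 : 0 < x) (hx1 : x ≤ 1)
    (hx : x ∉ dn_farey_bad h) (q : ℕ) (hq : 1 ≤ q) (hqh : (q : ℝ) ^ 2 * h * 8 < 1) (a : ℤ) :
    h ≤ 8 * ((q : ℝ) * x - a) ^ 2 := by
  by_contra hlt
  push Not at hlt
  have hq1 : (1 : ℝ) ≤ q := by exact_mod_cast hq
  have hqx : (q : ℝ) * x ≤ q := by nlinarith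
  have hqx0 : 0 < (q : ℝ) * x := by positivity
  have hsm : ((q : ℝ) * x - a) ^ 2 < 1 ^ 2 := by nlinarith
  have hsm2 : |(q : ℝ) * x - a| < 1 := by
    have := abs_lt_of_sq_lt_sq hsm (by norm_num)
    exact this
  have hab := abs_lt.1 hsm2
  have ha0 : 0 ≤ a := by
    have : (-1 : ℝ) < a := by linarith
    have : (-1 : ℤ) < a := by exact_mod_cast this
    omega
  have ha1 : a ≤ q := by
    have : (a : ℝ) < q + 1 := by linarith
    have : a < (q : ℤ) + 1 := by exact_mod_cast this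
    omega
  obtain ⟨b, rfl⟩ := Int.eq_ofNat_of_zero_le ha0
  apply hx
  unfold dn_farey_bad
  simp only [Set.mem_iUnion]
  refine ⟨q, ?_, b, ?_, ?_⟩
  · rw [Finset.mem_Icc]
    refine ⟨hq, ?_⟩
    apply Nat.le_floor
    rw [le_div_iff₀ (Real.sqrt_pos.2 (by linarith))]
    have e : ((q : ℝ) * Real.sqrt (8 * h)) ^ 2 ≤ 1 ^ 2 := by
      rw [mul_pow, Real.sq_sqrt (by linarith)]
      linarith
    exact le_of_sq_le_sq e (by norm_num)
  · rw [Finset.mem_range]
    omega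
  · rw [Metric.mem_ball, Real.dist_eq, lt_div_iff₀ (by linarith)]
    have e : |x - ((b : ℕ) : ℝ) / q| * q = |(q : ℝ) * x - ((b : ℤ) : ℝ)| := by
      rw [← abs_of_pos (show (0 : ℝ) < q by linarith), ← abs_mul, abs_of_pos (show (0 : ℝ) < q by linarith)]
      congr 1
      have : (q : ℝ) ≠ 0 := by linarith
      push_cast
      field_simp
    rw [e, ← Real.sqrt_sq_eq_abs]
    apply Real.sqrt_lt_sqrt (sq_nonneg _)
    linarith

theorem p_farey : S_farey := by
  obtain ⟨c, hc, hcK⟩ := dn_farey_compact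
  refine ⟨c ^ 2 / 2, by positivity, fun h h0 h1 => ?_⟩
  have hcont : Continuous (fun u : ℝ => ‖Dc (u + h * Complex.I)‖ ^ 2) := by
    rw [continuous_iff_continuousAt]
    intro u
    have hd : ContinuousAt Dc (u + h * Complex.I) :=
      (Dc_differentiableAt (by simpa using h0)).continuousAt
    have h2 : ContinuousAt (fun u : ℝ => Dc (u + h * Complex.I)) u :=
      ContinuousAt.comp (g := Dc) (f := fun u : ℝ => (u : ℂ) + h * Complex.I) hd (by fun_prop)
    exact h2.norm.pow 2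
  have hint : IntegrableOn (fun u : ℝ => ‖Dc (u + h * Complex.I)‖ ^ 2) (Set.Ioc 0 1) :=
    (hcont.intervalIntegrable 0 1).1
  have hS : MeasurableSet (Set.Ioc (0 : ℝ) 1 \ dn_farey_bad h) :=
    measurableSet_Ioc.diff (dn_farey_bad_meas h)
  have hfin : volume (Set.Ioc (0 : ℝ) 1) ≠ ⊤ := by simp
  have hfinS : volume (Set.Ioc (0 : ℝ) 1 \ dn_farey_bad h) ≠ ⊤ :=
    ne_top_of_le_ne_top hfin (measure_mono Set.sdiff_subset)
  have hfinB : volume (dn_farey_bad h) ≠ ⊤ :=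
    ne_top_of_le_ne_top ENNReal.ofReal_ne_top (dn_farey_bad_le h0)
  have hBr : volume.real (dn_farey_bad h) ≤ 1 / 2 := by
    unfold Measure.real
    exact ENNReal.toReal_le_of_le_ofReal (by norm_num) (dn_farey_bad_le h0)
  have hSr : 1 / 2 ≤ volume.real (Set.Ioc (0 : ℝ) 1 \ dn_farey_bad h) := by
    have h2 := measureReal_sdiff_add_inter (μ := volume) (s := Set.Ioc (0 : ℝ) 1)
      (t := dn_farey_bad h) (dn_farey_bad_meas h) hfin
    have h3 : volume.real (Set.Ioc (0 : ℝ) 1 ∩ dn_farey_bad h) ≤ volume.real (dn_farey_bad h) :=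
      measureReal_mono Set.inter_subset_right hfinB
    have h4 : volume.real (Set.Ioc (0 : ℝ) 1) = 1 := by simp
    linarith
  have hpt : ∀ u ∈ Set.Ioc (0 : ℝ) 1 \ dn_farey_bad h,
      (c / h ^ 6) ^ 2 ≤ ‖Dc (u + h * Complex.I)‖ ^ 2 := by
    intro u hu
    have h2 := dn_farey_pt hcK h0 h1 (dn_farey_good h0 h1 hu.1.1 hu.1.2 hu.2)
    apply pow_le_pow_left₀ (by positivity)
    rw [div_le_iff₀ (by positivity)]
    exact h2
  have h2 := setIntegral_ge_of_const_le_real hS hfinS hpt (hint.mono_set Set.sdiff_subset)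
  have h3 : ∫ u in Set.Ioc (0 : ℝ) 1 \ dn_farey_bad h, ‖Dc (u + h * Complex.I)‖ ^ 2 ≤
      ∫ u in Set.Ioc (0 : ℝ) 1, ‖Dc (u + h * Complex.I)‖ ^ 2 :=
    setIntegral_mono_set hint (Filter.Eventually.of_forall fun u => by positivity)
      (Filter.Eventually.of_forall fun u hu => hu.1)
  rw [intervalIntegral.integral_of_le zero_le_one]
  have h4 : (c / h ^ 6) ^ 2 * (1 / 2) ≤ ∫ u in Set.Ioc (0 : ℝ) 1, ‖Dc (u + h * Complex.I)‖ ^ 2 :=
    (mul_le_mul_of_nonneg_left hSr (by positivity)).trans (h2.trans h3)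
  calc c ^ 2 / 2 = h ^ 12 * ((c / h ^ 6) ^ 2 * (1 / 2)) := by
        field_simp
    _ ≤ _ := mul_le_mul_of_nonneg_left h4 (by positivity)

end Pool.Agent.Lib.MP_cd509c_nt.DN
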