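import Pool.Agent.Lib.MP_cd509c_nt.DN.Defs2

/-!
# Piece frz: freezing the splitting weight on a dyadic block
-/

set_option autoImplicit false

namespace Pool.Agent.Lib.MP_cd509c_nt.DN

open Complex ComplexConjugate MeasureTheory

private lemma dn_frz_smooth : ContDiff ℝ 2 Vs := by
  have h1 : ContDiff ℝ 2 fun u : ℝ => (1 + u) / 2 := by fun_prop
  exact Real.smoothTransition.contDiff.comp h1

private lemma dn_frz_deriv (x : ℝ) : HasDerivAt Vs (deriv Vs x) x :=
  ((dn_frz_smooth.differentiable (by norm_num)) x).hasDerivAt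

private lemma dn_frz_cont : Continuous (deriv Vs) :=
  dn_frz_smooth.continuous_deriv (by norm_num)

/-- Cauchy-Schwarz on an interval -/
private lemma dn_frz_cs (F : ℝ → ℂ) (hF : Continuous F) (e : ℝ) (he : 0 ≤ e) :
    ‖∫ r in (0 : ℝ)..e, F r‖ ^ 2 ≤ e * ∫ r in (0 : ℝ)..e, ‖F r‖ ^ 2 := by
  set I₁ : ℝ := ∫ r in (0 : ℝ)..e, ‖F r‖ with hI₁
  set I₂ : ℝ := ∫ r in (0 : ℝ)..e, ‖F r‖ ^ 2 with hI₂
  have h1 : ‖∫ r in (0 : ℝ)..e, F r‖ ≤ I₁ := intervalIntegral.norm_integral_le_integral_norm he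
  have h10 : 0 ≤ I₁ := intervalIntegral.integral_nonneg he fun r _ => norm_nonneg _
  have h20 : 0 ≤ I₂ := intervalIntegral.integral_nonneg he fun r _ => by positivity
  have h2 : I₁ ^ 2 ≤ e * I₂ := by
    rcases he.eq_or_lt with h0 | h0
    · have : I₁ = 0 := by
        rw [hI₁, ← h0, intervalIntegral.integral_same]
      rw [this, ← h0]
      norm_num
    · set t : ℝ := I₁ / e with ht
      have h3 : 0 ≤ ∫ r in (0 : ℝ)..e, (‖F r‖ - t) ^ 2 :=
        intervalIntegral.integral_nonneg he fun r _ => sq_nonneg _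
      have h4 : (∫ r in (0 : ℝ)..e, (‖F r‖ - t) ^ 2) = I₂ - 2 * t * I₁ + e * t ^ 2 := by
        have e1 : ∀ r : ℝ, (‖F r‖ - t) ^ 2 = ‖F r‖ ^ 2 - (2 * t) * ‖F r‖ + t ^ 2 := by
          intro r
          ring
        simp_rw [e1]
        rw [intervalIntegral.integral_add, intervalIntegral.integral_sub,
          intervalIntegral.integral_const_mul, intervalIntegral.integral_const, smul_eq_mul,
          sub_zero]
        · exact (hF.norm.pow 2).intervalIntegrable _ _
        · exact (continuous_const.mul hF.norm).intervalIntegrable _ _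
        · exact ((hF.norm.pow 2).sub (continuous_const.mul hF.norm)).intervalIntegrable _ _
        · exact continuous_const.intervalIntegrable _ _
      rw [h4] at h3
      have h5 : e * t = I₁ := by
        rw [ht]
        field_simp
      have h6 : 0 ≤ e * (I₂ - 2 * t * I₁ + e * t ^ 2) := mul_nonneg he h3
      have h7 : e * (I₂ - 2 * t * I₁ + e * t ^ 2) = e * I₂ - 2 * (e * t) * I₁ + (e * t) ^ 2 := by
        ring
      rw [h7, h5] at h6
      nlinarith
  calc ‖∫ r in (0 : ℝ)..e, F r‖ ^ 2 ≤ I₁ ^ 2 := pow_le_pow_left₀ (norm_nonneg _) h1 2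
    _ ≤ e * I₂ := h2

theorem p_frz : S_frz := by
  intro X U y δ d hX hU hUy hy2 hδ hδ'
  have hlX : 0 < Real.log X := Real.log_pos (by linarith)
  have hy0 : 0 < y := lt_of_lt_of_le hU hUy
  set v : ℝ := Real.log U / Real.log X with hv
  set c : ℂ := d * Real.log X with hc
  set z : ℂ := (y : ℂ) * cexp (δ * I) with hz
  set e : ℝ := (Real.log y - Real.log U) / Real.log X with he
  have he0 : 0 ≤ e := by
    apply div_nonneg _ hlX.le
    rw [sub_nonneg]
    exact Real.log_le_log hU hUy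
  have he1 : e ≤ 1 / Real.log X := by
    apply div_le_div_of_nonneg_right _ hlX.le
    have h1 : Real.log y ≤ Real.log (2 * U) := Real.log_le_log hy0 hy2
    rw [Real.log_mul (by norm_num) hU.ne'] at h1
    have h2 := Real.log_two_lt_d9
    linarith
  set F : ℝ → ℂ := fun r => PhiW (WV 1 (v + r) c) X z with hF
  -- the derivative weight
  have hW1 : ∀ (r u : ℝ), WV 1 (v + r) c u =
      (Pw u : ℂ) * ((deriv Vs (u + v + r) : ℝ) : ℂ) * cexp (-(c * u)) := by
    intro r u
    rw [WV, iteratedDeriv_one, add_assoc]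
  have hWc : ∀ u : ℝ, Continuous fun r : ℝ => WV 1 (v + r) c u := by
    intro u
    simp_rw [hW1]
    have h1 : Continuous fun r : ℝ => deriv Vs (u + v + r) :=
      dn_frz_cont.comp (by fun_prop)
    have h2 : Continuous fun r : ℝ => ((deriv Vs (u + v + r) : ℝ) : ℂ) :=
      Complex.continuous_ofReal.comp h1
    exact (continuous_const.mul h2).mul continuous_const
  have hFc : Continuous F := by
    simp only [hF, PhiW]
    apply continuous_finsetSum
    intro b _
    exact (continuous_const.mul (hWc _)).mul continuous_const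
  -- the decomposition
  have hdec : HW X d δ y = PhiW (WV 0 v c) X z + ∫ r in (0 : ℝ)..e, F r := by
    simp only [hF, PhiW, HW]
    have hsum : (∫ r in (0 : ℝ)..e, ∑ b ∈ Finset.Icc 1 ⌊X⌋₊,
        muf b * WV 1 (v + r) c (Real.log b / Real.log X) * Dc (b * z)) =
        ∑ b ∈ Finset.Icc 1 ⌊X⌋₊, ∫ r in (0 : ℝ)..e,
          muf b * WV 1 (v + r) c (Real.log b / Real.log X) * Dc (b * z) := by
      apply intervalIntegral.integral_finsetSum
      intro b _
      exact ((continuous_const.mul (hWc _)).mul continuous_const).intervalIntegrable _ _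
    rw [hsum, ← Finset.sum_add_distrib]
    apply Finset.sum_congr rfl
    intro b hb
    rw [Finset.mem_Icc] at hb
    set u : ℝ := Real.log b / Real.log X with hu
    have hb0 : (b : ℂ) ≠ 0 := by
      have : b ≠ 0 := by omega
      exact_mod_cast this
    have hpow : (b : ℂ) ^ (-d) = cexp (-(c * u)) := by
      rw [Complex.cpow_def_of_ne_zero hb0, hc, hu, ← Complex.natCast_log]
      congr 1
      have : (Real.log X : ℂ) ≠ 0 := by exact_mod_cast hlX.ne'
      push_cast
      field_simp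
    have hint : (∫ r in (0 : ℝ)..e, muf b * WV 1 (v + r) c u * Dc (b * z)) =
        muf b * ((Pw u : ℂ) * ((Vs (u + v + e) - Vs (u + v) : ℝ) : ℂ) * cexp (-(c * u))) *
          Dc (b * z) := by
      have h1 : ∀ r : ℝ, muf b * WV 1 (v + r) c u * Dc (b * z) =
          (muf b * (Pw u : ℂ) * cexp (-(c * u)) * Dc (b * z)) *
            ((deriv Vs (u + v + r) : ℝ) : ℂ) := by
        intro r
        rw [hW1]
        ring
      simp_rw [h1]
      rw [intervalIntegral.integral_const_mul, intervalIntegral.integral_ofReal]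
      have h2 : (∫ r in (0 : ℝ)..e, deriv Vs (u + v + r)) = Vs (u + v + e) - Vs (u + v) := by
        have h3 : ∀ r ∈ Set.uIcc (0 : ℝ) e,
            HasDerivAt (fun r : ℝ => Vs (u + v + r)) (deriv Vs (u + v + r)) r := by
          intro r _
          have h4 := dn_frz_deriv (u + v + r)
          exact h4.comp_const_add (u + v) r
        rw [intervalIntegral.integral_eq_sub_of_hasDerivAt h3
          ((dn_frz_cont.comp (by fun_prop)).intervalIntegrable _ _), add_zero]
      rw [h2]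
      ring
    rw [hint]
    have h5 : (Real.log b + Real.log y) / Real.log X = u + v + e := by
      rw [hu, hv, he]
      field_simp
      ring
    rw [h5, hpow, WV, iteratedDeriv_zero]
    push_cast
    ring
  rw [hdec]
  have hcs := dn_frz_cs F hFc e he0
  have hmono : (∫ r in (0 : ℝ)..e, ‖F r‖ ^ 2) ≤ ∫ r in (0 : ℝ)..(1 / Real.log X), ‖F r‖ ^ 2 := by
    apply intervalIntegral.integral_mono_interval le_rfl he0 he1
    · filter_upwards with r
      positivity
    · exact (hFc.norm.pow 2).intervalIntegrable _ _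
  have hI0 : 0 ≤ ∫ r in (0 : ℝ)..(1 / Real.log X), ‖F r‖ ^ 2 :=
    intervalIntegral.integral_nonneg (by positivity) fun r _ => by positivity
  have hI1 : 0 ≤ ∫ r in (0 : ℝ)..e, ‖F r‖ ^ 2 :=
    intervalIntegral.integral_nonneg he0 fun r _ => by positivity
  set A : ℂ := PhiW (WV 0 v c) X z with hA
  set B : ℂ := ∫ r in (0 : ℝ)..e, F r with hB
  have h6 : ‖A + B‖ ≤ ‖A‖ + ‖B‖ := norm_add_le _ _
  have h7 : ‖A + B‖ ^ 2 ≤ (‖A‖ + ‖B‖) ^ 2 := pow_le_pow_left₀ (norm_nonneg _) h6 2
  have h8 : (‖A‖ + ‖B‖) ^ 2 ≤ 2 * ‖A‖ ^ 2 + 2 * ‖B‖ ^ 2 := by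
    nlinarith [sq_nonneg (‖A‖ - ‖B‖)]
  have h9 : ‖B‖ ^ 2 ≤ 1 / Real.log X * ∫ r in (0 : ℝ)..(1 / Real.log X), ‖F r‖ ^ 2 :=
    hcs.trans (mul_le_mul he1 hmono hI1 (by positivity))
  calc ‖A + B‖ ^ 2 ≤ 2 * ‖A‖ ^ 2 + 2 * ‖B‖ ^ 2 := h7.trans h8
    _ ≤ 2 * ‖A‖ ^ 2 + 2 * (1 / Real.log X * ∫ r in (0 : ℝ)..(1 / Real.log X), ‖F r‖ ^ 2) := by
        linarith
    _ = _ := by ring

end Pool.Agent.Lib.MP_cd509c_nt.DN
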