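import Pool.Agent.Lib.MP_cd509c_nt.DN.Defs

/-!
# Project DN, piece jen: the number of zeros in a disc
-/

set_option autoImplicit false

namespace Pool.Agent.Lib.MP_cd509c_nt.DN

open Complex ComplexConjugate MeasureTheory

/-- Division of an entire function by a power of a linear factor. -/
lemma dn_jen_div (z₀ : ℂ) (n : ℕ) : ∀ f : ℂ → ℂ, Differentiable ℂ f →
    (n : ℕ∞) ≤ analyticOrderAt f z₀ →
    ∃ g : ℂ → ℂ, Differentiable ℂ g ∧ ∀ w, f w = (w - z₀) ^ n * g w := by
  induction n with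
  | zero =>
    intro f hf _
    exact ⟨f, hf, fun w => by simp⟩
  | succ n ih =>
    intro f hf hn
    have hfa : AnalyticAt ℂ f z₀ := hf.analyticAt z₀
    have h0 : f z₀ = 0 := by
      by_contra h
      have h1 : analyticOrderAt f z₀ = 0 := hfa.analyticOrderAt_eq_zero.mpr h
      rw [h1] at hn
      simp at hn
    obtain ⟨h, hh, hfh⟩ := entire_div hf h0
    have hha : AnalyticAt ℂ h z₀ := hh.analyticAt z₀
    have hla : AnalyticAt ℂ (fun w : ℂ => w - z₀) z₀ := by fun_prop
    have hl1 : analyticOrderAt (fun w : ℂ => w - z₀) z₀ = (1 : ℕ) := by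
      rw [hla.analyticOrderAt_eq_natCast]
      refine ⟨fun _ => 1, analyticAt_const, one_ne_zero, ?_⟩
      exact Filter.Eventually.of_forall fun w => by simp
    have hmul : analyticOrderAt f z₀ = 1 + analyticOrderAt h z₀ := by
      have : f = (fun w : ℂ => w - z₀) * h := by
        funext w
        rw [hfh w]
        rfl
      rw [this, analyticOrderAt_mul hla hha, hl1]
      rfl
    have hn' : (n : ℕ∞) ≤ analyticOrderAt h z₀ := by
      rw [hmul] at hn
      have h2 : (1 : ℕ∞) + n ≤ 1 + analyticOrderAt h z₀ := by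
        calc (1 : ℕ∞) + n = ((n + 1 : ℕ) : ℕ∞) := by push_cast; ring
          _ ≤ _ := hn
      exact (ENat.add_le_add_iff_left (by simp)).mp h2
    obtain ⟨g, hg, hhg⟩ := ih h hh hn'
    refine ⟨g, hg, fun w => ?_⟩
    rw [hfh w, hhg w]
    ring

/-- Division by all zeros in a finite set. -/
lemma dn_jen_fac (f : ℂ → ℂ) (hf : Differentiable ℂ f) (S : Finset ℂ) :
    ∃ g : ℂ → ℂ, Differentiable ℂ g ∧
      ∀ w, f w = (∏ z ∈ S, (w - z) ^ analyticOrderNatAt f z) * g w := by
  classical
  induction S using Finset.induction_on with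
  | empty => exact ⟨f, hf, fun w => by simp⟩
  | insert z₀ S hz ih =>
    obtain ⟨g, hg, hfg⟩ := ih
    have hPd : Differentiable ℂ (fun w : ℂ => ∏ z ∈ S, (w - z) ^ analyticOrderNatAt f z) := by
      fun_prop
    have hP : AnalyticAt ℂ (fun w : ℂ => ∏ z ∈ S, (w - z) ^ analyticOrderNatAt f z) z₀ :=
      hPd.analyticAt z₀
    have hPne : (∏ z ∈ S, (z₀ - z) ^ analyticOrderNatAt f z) ≠ 0 := by
      rw [Finset.prod_ne_zero_iff]
      intro z hzS
      apply pow_ne_zero
      rw [sub_ne_zero]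
      rintro rfl
      exact hz hzS
    have hP0 : analyticOrderAt (fun w : ℂ => ∏ z ∈ S, (w - z) ^ analyticOrderNatAt f z) z₀ = 0 :=
      hP.analyticOrderAt_eq_zero.mpr hPne
    have hord : analyticOrderAt f z₀ = analyticOrderAt g z₀ := by
      have : f = (fun w : ℂ => ∏ z ∈ S, (w - z) ^ analyticOrderNatAt f z) * g := by
        funext w
        exact hfg w
      conv_lhs => rw [this]
      rw [analyticOrderAt_mul hP (hg.analyticAt z₀), hP0, zero_add]
    have hle : ((analyticOrderNatAt f z₀ : ℕ) : ℕ∞) ≤ analyticOrderAt g z₀ := by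
      rw [← hord]
      exact ENat.natCast_toNat_le_self _
    obtain ⟨k, hk, hgk⟩ := dn_jen_div z₀ _ g hg hle
    refine ⟨k, hk, fun w => ?_⟩
    rw [Finset.prod_insert hz]
    conv_lhs => rw [hfg w, hgk w]
    ring

theorem p_jen : S_jen := by
  intro f c ρ M hf hρ hM hc S hS
  obtain ⟨g, hg, hfg⟩ := dn_jen_fac f hf S
  set m : ℕ := ∑ z ∈ S, analyticOrderNatAt f z with hm
  have hcast : (∑ z ∈ S, (analyticOrderNatAt f z : ℝ)) = (m : ℝ) := by
    rw [hm]
    push_cast
    rfl
  have hnorm : ∀ w, ‖∏ z ∈ S, (w - z) ^ analyticOrderNatAt f z‖ =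
      ∏ z ∈ S, ‖w - z‖ ^ analyticOrderNatAt f z := by
    intro w
    rw [norm_prod]
    exact Finset.prod_congr rfl fun z _ => norm_pow _ _
  -- bound for `g c`
  have hgc : ‖g c‖ ≤ M / (3 * ρ) ^ m := by
    have hd : DiffContOnCl ℂ g (Metric.ball c (4 * ρ)) := hg.diffContOnCl
    apply Complex.norm_le_of_forall_mem_frontier_norm_le Metric.isBounded_ball hd
    · intro w hw
      rw [frontier_ball c (by positivity), mem_sphere_iff_norm] at hw
      have h1 := hM w hw.le
      rw [hfg w, norm_mul, hnorm] at h1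
      have h2 : (3 * ρ) ^ m ≤ ∏ z ∈ S, ‖w - z‖ ^ analyticOrderNatAt f z := by
        rw [hm, ← Finset.prod_pow_eq_pow_sum]
        apply Finset.prod_le_prod
        · intro z _
          positivity
        · intro z hz
          apply pow_le_pow_left₀ (by positivity)
          have h3 : ‖w - c‖ ≤ ‖w - z‖ + ‖z - c‖ := by
            calc ‖w - c‖ = ‖(w - z) + (z - c)‖ := by ring_nf
              _ ≤ _ := norm_add_le _ _
          have := hS z hz
          linarith
      rw [le_div_iff₀ (by positivity)]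
      calc ‖g w‖ * (3 * ρ) ^ m
          ≤ ‖g w‖ * (∏ z ∈ S, ‖w - z‖ ^ analyticOrderNatAt f z) := by gcongr
        _ = (∏ z ∈ S, ‖w - z‖ ^ analyticOrderNatAt f z) * ‖g w‖ := mul_comm _ _
        _ ≤ M := h1
    · rw [closure_ball c (by positivity)]
      exact Metric.mem_closedBall_self (by positivity)
  have hPc : ‖∏ z ∈ S, (c - z) ^ analyticOrderNatAt f z‖ ≤ ρ ^ m := by
    rw [hnorm, hm, ← Finset.prod_pow_eq_pow_sum]
    apply Finset.prod_le_prod
    · intro z _
      positivity
    · intro z hz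
      apply pow_le_pow_left₀ (norm_nonneg _)
      rw [norm_sub_rev]
      exact hS z hz
  have hfc : 0 < ‖f c‖ := norm_pos_iff.mpr hc
  have hM0 : 0 ≤ M := (norm_nonneg _).trans (hM c (by simp [hρ.le]))
  have hmain : (3 : ℝ) ^ m * ‖f c‖ ≤ M := by
    calc (3 : ℝ) ^ m * ‖f c‖
        = 3 ^ m * (‖∏ z ∈ S, (c - z) ^ analyticOrderNatAt f z‖ * ‖g c‖) := by
          rw [← norm_mul, ← hfg c]
      _ ≤ 3 ^ m * (ρ ^ m * (M / (3 * ρ) ^ m)) := by gcongr
      _ = M := by
        rw [mul_pow]
        field_simp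
  rw [hcast, ← Real.log_pow]
  apply Real.log_le_log (by positivity)
  rw [le_div_iff₀ hfc]
  exact hmain

end Pool.Agent.Lib.MP_cd509c_nt.DN
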