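import Pool.Agent.Lib.MP_cd509c_nt.DN.Defs2

/-!
# Piece kl: Kloosterman sums to prime moduli, exponent 3/4 (fourth moment)
-/

set_option autoImplicit false

namespace Pool.Agent.Lib.MP_cd509c_nt.DN

open Complex ComplexConjugate MeasureTheory

section kl
variable (p : ℕ) [Fact p.Prime]

/-- Kloosterman sum over the units -/
private noncomputable def dn_kl_K (j k : ZMod p) : ℂ :=
  ∑ x : (ZMod p)ˣ, ZMod.stdAddChar (j * (x : ZMod p) + k * ((x⁻¹ : (ZMod p)ˣ) : ZMod p))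

private def dn_kl_a (q : (ZMod p)ˣ × (ZMod p)ˣ) : ZMod p := (q.1 : ZMod p) - (q.2 : ZMod p)

private def dn_kl_b (q : (ZMod p)ˣ × (ZMod p)ˣ) : ZMod p :=
  ((q.1⁻¹ : (ZMod p)ˣ) : ZMod p) - ((q.2⁻¹ : (ZMod p)ˣ) : ZMod p)

private lemma dn_kl_sq (j k : ZMod p) : ((‖dn_kl_K p j k‖ ^ 2 : ℝ) : ℂ) =
    ∑ q : (ZMod p)ˣ × (ZMod p)ˣ, ZMod.stdAddChar (j * dn_kl_a p q + k * dn_kl_b p q) := by
  have h1 : ((‖dn_kl_K p j k‖ ^ 2 : ℝ) : ℂ) = dn_kl_K p j k * conj (dn_kl_K p j k) := by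
    rw [Complex.mul_conj']
    push_cast
    rfl
  rw [h1, dn_kl_K, map_sum, Finset.sum_mul_sum, Fintype.sum_prod_type]
  apply Finset.sum_congr rfl
  intro x _
  apply Finset.sum_congr rfl
  intro y _
  rw [← AddChar.map_neg_eq_conj, ← AddChar.map_add_eq_mul]
  congr 1
  simp only [dn_kl_a, dn_kl_b]
  ring

private lemma dn_kl_four (j k : ZMod p) : ((‖dn_kl_K p j k‖ ^ 4 : ℝ) : ℂ) =
    ∑ q : (ZMod p)ˣ × (ZMod p)ˣ, ∑ r : (ZMod p)ˣ × (ZMod p)ˣ,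
      ZMod.stdAddChar (j * (dn_kl_a p q + dn_kl_a p r)) *
        ZMod.stdAddChar (k * (dn_kl_b p q + dn_kl_b p r)) := by
  have h1 : ((‖dn_kl_K p j k‖ ^ 4 : ℝ) : ℂ) =
      ((‖dn_kl_K p j k‖ ^ 2 : ℝ) : ℂ) * ((‖dn_kl_K p j k‖ ^ 2 : ℝ) : ℂ) := by
    push_cast
    ring
  rw [h1, dn_kl_sq, Finset.sum_mul_sum]
  apply Finset.sum_congr rfl
  intro q _
  apply Finset.sum_congr rfl
  intro r _
  rw [← AddChar.map_add_eq_mul, ← AddChar.map_add_eq_mul]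
  congr 1
  ring

/-- the solutions -/
private noncomputable def dn_kl_T : Finset (((ZMod p)ˣ × (ZMod p)ˣ) × ((ZMod p)ˣ × (ZMod p)ˣ)) :=
  Finset.univ.filter fun q => dn_kl_a p q.1 + dn_kl_a p q.2 = 0 ∧ dn_kl_b p q.1 + dn_kl_b p q.2 = 0

private lemma dn_kl_total : ((∑ j : ZMod p, ∑ k : ZMod p, ‖dn_kl_K p j k‖ ^ 4 : ℝ) : ℂ) =
    (p : ℂ) ^ 2 * ((dn_kl_T p).card : ℂ) := by
  have hψ : (ZMod.stdAddChar (N := p)).IsPrimitive := ZMod.isPrimitive_stdAddChar p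
  push_cast
  have h4 : ∀ j k : ZMod p, (‖dn_kl_K p j k‖ : ℂ) ^ 4 =
      ∑ q : (ZMod p)ˣ × (ZMod p)ˣ, ∑ r : (ZMod p)ˣ × (ZMod p)ˣ,
      ZMod.stdAddChar (j * (dn_kl_a p q + dn_kl_a p r)) *
        ZMod.stdAddChar (k * (dn_kl_b p q + dn_kl_b p r)) := by
    intro j k
    rw [← dn_kl_four]
    push_cast
    rfl
  simp_rw [h4]
  have h5 : (∑ j : ZMod p, ∑ k : ZMod p, ∑ q : (ZMod p)ˣ × (ZMod p)ˣ,
      ∑ r : (ZMod p)ˣ × (ZMod p)ˣ, ZMod.stdAddChar (j * (dn_kl_a p q + dn_kl_a p r)) *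
        ZMod.stdAddChar (k * (dn_kl_b p q + dn_kl_b p r))) =
      ∑ q : (ZMod p)ˣ × (ZMod p)ˣ, ∑ r : (ZMod p)ˣ × (ZMod p)ˣ,
        (∑ j : ZMod p, ZMod.stdAddChar (j * (dn_kl_a p q + dn_kl_a p r))) *
          (∑ k : ZMod p, ZMod.stdAddChar (k * (dn_kl_b p q + dn_kl_b p r)) : ℂ) := by
    simp_rw [Finset.sum_mul_sum]
    calc _ = ∑ j : ZMod p, ∑ q : (ZMod p)ˣ × (ZMod p)ˣ, ∑ k : ZMod p,
        ∑ r : (ZMod p)ˣ × (ZMod p)ˣ, ZMod.stdAddChar (j * (dn_kl_a p q + dn_kl_a p r)) *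
        ZMod.stdAddChar (k * (dn_kl_b p q + dn_kl_b p r)) := by
          apply Finset.sum_congr rfl
          intro j _
          exact Finset.sum_comm
      _ = ∑ q : (ZMod p)ˣ × (ZMod p)ˣ, ∑ j : ZMod p, ∑ k : ZMod p,
        ∑ r : (ZMod p)ˣ × (ZMod p)ˣ, ZMod.stdAddChar (j * (dn_kl_a p q + dn_kl_a p r)) *
        ZMod.stdAddChar (k * (dn_kl_b p q + dn_kl_b p r)) := Finset.sum_comm
      _ = ∑ q : (ZMod p)ˣ × (ZMod p)ˣ, ∑ j : ZMod p, ∑ r : (ZMod p)ˣ × (ZMod p)ˣ,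
        ∑ k : ZMod p, ZMod.stdAddChar (j * (dn_kl_a p q + dn_kl_a p r)) *
        ZMod.stdAddChar (k * (dn_kl_b p q + dn_kl_b p r)) := by
          apply Finset.sum_congr rfl
          intro q _
          apply Finset.sum_congr rfl
          intro j _
          exact Finset.sum_comm
      _ = _ := by
          apply Finset.sum_congr rfl
          intro q _
          exact Finset.sum_comm
  rw [h5]
  simp_rw [AddChar.sum_mulShift _ hψ, ZMod.card]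
  rw [← Fintype.sum_prod_type', dn_kl_T, Finset.card_filter]
  push_cast
  rw [Finset.mul_sum]
  apply Finset.sum_congr rfl
  intro q _
  by_cases ha : dn_kl_a p q.1 + dn_kl_a p q.2 = 0 <;>
    by_cases hb : dn_kl_b p q.1 + dn_kl_b p q.2 = 0 <;> simp [ha, hb, sq]

private lemma dn_kl_count : (dn_kl_T p).card ≤ 3 * (p - 1) ^ 2 := by
  classical
  have hsub : dn_kl_T p ⊆
      (Finset.univ.image fun q : (ZMod p)ˣ × (ZMod p)ˣ => ((q.1, q.1), (q.2, q.2))) ∪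
      ((Finset.univ.image fun q : (ZMod p)ˣ × (ZMod p)ˣ => ((q.1, q.2), (q.2, q.1))) ∪
      (Finset.univ.image fun q : (ZMod p)ˣ × (ZMod p)ˣ => ((q.1, q.2), (-q.1, -q.2)))) := by
    rintro ⟨⟨x, y⟩, ⟨x', y'⟩⟩ h
    rw [dn_kl_T, Finset.mem_filter] at h
    obtain ⟨-, h1, h2⟩ := h
    simp only [dn_kl_a, dn_kl_b] at h1 h2
    simp only [Finset.mem_union, Finset.mem_image, Finset.mem_univ, true_and, Prod.mk.injEq,
      Prod.exists]
    have ex : ((x⁻¹ : (ZMod p)ˣ) : ZMod p) * x = 1 := Units.inv_mul x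
    have ey : ((y⁻¹ : (ZMod p)ˣ) : ZMod p) * y = 1 := Units.inv_mul y
    have ex' : ((x'⁻¹ : (ZMod p)ˣ) : ZMod p) * x' = 1 := Units.inv_mul x'
    have ey' : ((y'⁻¹ : (ZMod p)ˣ) : ZMod p) * y' = 1 := Units.inv_mul y'
    by_cases hs : (x : ZMod p) + x' = 0
    · right
      right
      refine ⟨x, y, ⟨rfl, rfl⟩, ?_, ?_⟩
      · apply Units.ext
        rw [Units.val_neg]
        linear_combination -hs
      · apply Units.ext
        rw [Units.val_neg]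
        linear_combination -hs + h1
    · -- products agree
      have key : ((x : ZMod p) + x') * ((y : ZMod p) * y' - x * x') = 0 := by
        linear_combination (x : ZMod p) * x' * y * y' * h2 - (x : ZMod p) * x' * h1 -
          (x' * y * y' : ZMod p) * ex - (x * y * y' : ZMod p) * ex' +
          (x * x' * y' : ZMod p) * ey + (x * x' * y : ZMod p) * ey'
      have hprod : (y : ZMod p) * y' - x * x' = 0 := (mul_eq_zero.1 key).resolve_left hs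
      have key2 : ((x : ZMod p) - y) * ((x : ZMod p) - y') = 0 := by
        linear_combination hprod + (x : ZMod p) * h1
      rcases mul_eq_zero.1 key2 with h3 | h3
      · left
        refine ⟨x, x', ⟨rfl, ?_⟩, ⟨rfl, ?_⟩⟩
        · apply Units.ext
          linear_combination h3
        · apply Units.ext
          linear_combination h1 - h3
      · right
        left
        refine ⟨x, y, ⟨rfl, rfl⟩, ⟨?_, ?_⟩⟩
        · apply Units.ext
          linear_combination h3 - h1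
        · apply Units.ext
          linear_combination h3
  have hc : Fintype.card ((ZMod p)ˣ × (ZMod p)ˣ) = (p - 1) ^ 2 := by
    rw [Fintype.card_prod, ZMod.card_units, sq]
  have hi : ∀ f : (ZMod p)ˣ × (ZMod p)ˣ → ((ZMod p)ˣ × (ZMod p)ˣ) × ((ZMod p)ˣ × (ZMod p)ˣ),
      (Finset.univ.image f).card ≤ (p - 1) ^ 2 := by
    intro f
    refine Finset.card_image_le.trans ?_
    rw [Finset.card_univ, hc]
  refine (Finset.card_le_card hsub).trans ((Finset.card_union_le _ _).trans ?_)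
  have h2 := Finset.card_union_le
    (Finset.univ.image fun q : (ZMod p)ˣ × (ZMod p)ˣ => ((q.1, q.2), (q.2, q.1)))
    (Finset.univ.image fun q : (ZMod p)ˣ × (ZMod p)ˣ => ((q.1, q.2), (-q.1, -q.2)))
  have h3 := hi fun q : (ZMod p)ˣ × (ZMod p)ˣ => ((q.1, q.1), (q.2, q.2))
  have h4 := hi fun q : (ZMod p)ˣ × (ZMod p)ˣ => ((q.1, q.2), (q.2, q.1))
  have h5 := hi fun q : (ZMod p)ˣ × (ZMod p)ˣ => ((q.1, q.2), (-q.1, -q.2))
  omega

private lemma dn_kl_scale (j k : ZMod p) (u : (ZMod p)ˣ) :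
    dn_kl_K p (j * (u : ZMod p)) (k * ((u⁻¹ : (ZMod p)ˣ) : ZMod p)) = dn_kl_K p j k := by
  rw [dn_kl_K, dn_kl_K]
  rw [← Equiv.sum_comp (Equiv.mulLeft u)
    (fun x : (ZMod p)ˣ => ZMod.stdAddChar (j * (x : ZMod p) + k * ((x⁻¹ : (ZMod p)ˣ) : ZMod p)))]
  apply Finset.sum_congr rfl
  intro x _
  congr 1
  rw [Equiv.coe_mulLeft, mul_inv, Units.val_mul, Units.val_mul]
  ring

private lemma dn_kl_bound (j k : ZMod p) (h : ¬ (j = 0 ∧ k = 0)) :
    ‖dn_kl_K p j k‖ ^ 4 ≤ 3 * (p : ℝ) ^ 3 := by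
  have hp : 2 ≤ p := (Fact.out : p.Prime).two_le
  have hinj : Function.Injective fun u : (ZMod p)ˣ =>
      (j * (u : ZMod p), k * ((u⁻¹ : (ZMod p)ˣ) : ZMod p)) := by
    intro u v huv
    rw [Prod.mk.injEq] at huv
    obtain ⟨h1, h2⟩ := huv
    by_cases hj : j = 0
    · have hk : k ≠ 0 := fun hk => h ⟨hj, hk⟩
      have h3 := mul_left_cancel₀ hk h2
      have h4 : u⁻¹ = v⁻¹ := Units.ext h3
      exact inv_injective h4
    · exact Units.ext (mul_left_cancel₀ hj h1)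
  have hle : ((p - 1 : ℕ) : ℝ) * ‖dn_kl_K p j k‖ ^ 4 ≤
      ∑ j : ZMod p, ∑ k : ZMod p, ‖dn_kl_K p j k‖ ^ 4 := by
    rw [← Fintype.sum_prod_type' (f := fun j k : ZMod p => ‖dn_kl_K p j k‖ ^ 4)]
    calc ((p - 1 : ℕ) : ℝ) * ‖dn_kl_K p j k‖ ^ 4
        = ∑ u : (ZMod p)ˣ, ‖dn_kl_K p j k‖ ^ 4 := by
          rw [Finset.sum_const, Finset.card_univ, ZMod.card_units, nsmul_eq_mul]
      _ = ∑ u : (ZMod p)ˣ,
          ‖dn_kl_K p (j * (u : ZMod p)) (k * ((u⁻¹ : (ZMod p)ˣ) : ZMod p))‖ ^ 4 := by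
          apply Finset.sum_congr rfl
          intro u _
          rw [dn_kl_scale]
      _ = ∑ q ∈ Finset.univ.map ⟨_, hinj⟩, ‖dn_kl_K p q.1 q.2‖ ^ 4 := by
          rw [Finset.sum_map]
          rfl
      _ ≤ ∑ q : ZMod p × ZMod p, ‖dn_kl_K p q.1 q.2‖ ^ 4 := by
          apply Finset.sum_le_sum_of_subset_of_nonneg (Finset.subset_univ _)
          intro q _ _
          positivity
  have htot : (∑ j : ZMod p, ∑ k : ZMod p, ‖dn_kl_K p j k‖ ^ 4 : ℝ) =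
      (p : ℝ) ^ 2 * ((dn_kl_T p).card : ℝ) := by
    have h1 := dn_kl_total p
    exact_mod_cast h1
  have hcount : ((dn_kl_T p).card : ℝ) ≤ 3 * ((p - 1 : ℕ) : ℝ) ^ 2 := by
    exact_mod_cast dn_kl_count p
  have hpos : (0 : ℝ) < ((p - 1 : ℕ) : ℝ) := by
    have : 0 < p - 1 := by omega
    exact_mod_cast this
  have hp1 : ((p - 1 : ℕ) : ℝ) ≤ p := by
    exact_mod_cast Nat.sub_le p 1
  have h1 : ((p - 1 : ℕ) : ℝ) * ‖dn_kl_K p j k‖ ^ 4 ≤
      ((p - 1 : ℕ) : ℝ) * (3 * (p : ℝ) ^ 3) := by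
    calc ((p - 1 : ℕ) : ℝ) * ‖dn_kl_K p j k‖ ^ 4 ≤ (p : ℝ) ^ 2 * ((dn_kl_T p).card : ℝ) := by
          rw [← htot]
          exact hle
      _ ≤ (p : ℝ) ^ 2 * (3 * ((p - 1 : ℕ) : ℝ) ^ 2) := by
          apply mul_le_mul_of_nonneg_left hcount
          positivity
      _ = ((p - 1 : ℕ) : ℝ) * (3 * (p : ℝ) ^ 2 * ((p - 1 : ℕ) : ℝ)) := by ring
      _ ≤ ((p - 1 : ℕ) : ℝ) * (3 * (p : ℝ) ^ 2 * p) := by
          apply mul_le_mul_of_nonneg_left _ hpos.le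
          apply mul_le_mul_of_nonneg_left hp1
          positivity
      _ = _ := by ring
  exact le_of_mul_le_mul_left h1 hpos

private lemma dn_kl_eq (j k : ℤ) : Kl p j k = dn_kl_K p (j : ZMod p) (k : ZMod p) := by
  have hp : p.Prime := Fact.out
  rw [Kl, dn_kl_K]
  symm
  refine Finset.sum_bij (fun (x : (ZMod p)ˣ) _ => (x : ZMod p).val) ?_ ?_ ?_ ?_
  · intro x _
    rw [Finset.mem_filter, Finset.mem_range]
    exact ⟨ZMod.val_lt _, ZMod.val_coe_unit_coprime x⟩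
  · intro x _ y _ h
    exact Units.ext (ZMod.val_injective p h)
  · intro a ha
    rw [Finset.mem_filter, Finset.mem_range] at ha
    refine ⟨ZMod.unitOfCoprime a ha.2, Finset.mem_univ _, ?_⟩
    rw [ZMod.coe_unitOfCoprime, ZMod.val_natCast, Nat.mod_eq_of_lt ha.1]
  · intro x _
    have e1 : (j : ZMod p) * (x : ZMod p) + (k : ZMod p) * ((x⁻¹ : (ZMod p)ˣ) : ZMod p) =
        ((j * ((x : ZMod p).val : ℤ) + k * ((((x⁻¹ : (ZMod p)ˣ) : ZMod p).val : ℕ) : ℤ) : ℤ) :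
          ZMod p) := by
      push_cast
      rw [ZMod.natCast_zmod_val, ZMod.natCast_zmod_val]
    rw [e1, ZMod.stdAddChar_coe, ee]
    congr 1
    have e2 : (((((x : ZMod p).val : ℕ) : ZMod p)⁻¹).val : ℕ) =
        (((x⁻¹ : (ZMod p)ˣ) : ZMod p)).val := by
      rw [ZMod.natCast_zmod_val, ← Units.val_inv_eq_inv_val]
    rw [e2]
    push_cast
    ring

end kl

theorem p_kl : S_kl := by
  refine ⟨2, by norm_num, ?_⟩
  intro p hp j k hjk
  have : Fact p.Prime := ⟨hp⟩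
  rw [dn_kl_eq]
  have h := dn_kl_bound p (j : ZMod p) (k : ZMod p) (by
    rintro ⟨h1, h2⟩
    rw [ZMod.intCast_zmod_eq_zero_iff_dvd] at h1 h2
    exact hjk ⟨h1, h2⟩)
  have hp0 : (0 : ℝ) < p := by exact_mod_cast hp.pos
  have h3 : ((p : ℝ) ^ (3 / 4 : ℝ)) ^ 4 = (p : ℝ) ^ 3 := by
    rw [← Real.rpow_natCast, ← Real.rpow_mul hp0.le]
    norm_num
  have h4 : ‖dn_kl_K p (j : ZMod p) (k : ZMod p)‖ ^ 4 ≤ (2 * (p : ℝ) ^ (3 / 4 : ℝ)) ^ 4 := by
    rw [mul_pow, h3]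
    have : (0 : ℝ) ≤ (p : ℝ) ^ 3 := by positivity
    linarith
  exact le_of_pow_le_pow_left₀ (by norm_num) (by positivity) h4

end Pool.Agent.Lib.MP_cd509c_nt.DN
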