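import Pool.Agent.Lib.MP_cd509c_nt.DN.Defs

/-!
# Laplace lower bound on the circle
-/

set_option autoImplicit false

namespace Pool.Agent.Lib.MP_cd509c_nt.DN

open Complex ComplexConjugate MeasureTheory Set

private lemma dn_lapD_poly (t : ℝ) (ht : 0 ≤ t) :
    4 * t ^ 3 / 10000 + t ^ 2 / 100 ≤ 21 / 100 * Real.exp (9 / 100 * t ^ 2) := by
  have h1 := Real.quadratic_le_exp_of_nonneg (x := 9 / 100 * t ^ 2) (by positivity)
  have h2 : t ^ 3 ≤ 1 + t ^ 4 := by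
    nlinarith [sq_nonneg (t - 1), sq_nonneg (t ^ 2 - 1), sq_nonneg (t ^ 2 - t), mul_nonneg ht ht]
  have h3 : (9 / 100 * t ^ 2) ^ 2 = 81 / 10000 * t ^ 4 := by ring
  rw [h3] at h1
  have h4 : 0 ≤ t ^ 4 := by positivity
  have h5 : 0 ≤ t ^ 2 := by positivity
  nlinarith

/-- pointwise bound -/
private lemma dn_lapD_pt {N φ : ℝ} (hN : 100000000 ≤ N) (hφ : |φ| ≤ 3 / 4) {E : ℂ}
    (hE : ‖E‖ ≤ 1 / 100 * N * φ ^ 2) :
    ‖cexp ((N : ℂ) * (cexp (φ * I) - 1 - φ * I) + E) - (Real.exp (-(1 * N / 2) * φ ^ 2) : ℝ)‖ ≤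
      21 / 100 * Real.exp (-(1 / 10 * N) * φ ^ 2) := by
  have hN0 : 0 < N := by linarith
  have hu : cexp (φ * I) - 1 = uu φ := by unfold uu; rw [mul_comm]
  have hφπ : |φ| ≤ Real.pi := hφ.trans (by linarith [Real.pi_gt_three])
  have hx0 : 0 ≤ N * φ ^ 2 := by positivity
  have e0 : ((Real.exp (-(1 * N / 2) * φ ^ 2) : ℝ) : ℂ) =
      cexp (((-(1 * N / 2) * φ ^ 2 : ℝ)) : ℂ) := by
    rw [Complex.ofReal_exp]
  have hre1 : ((N : ℂ) * (cexp (φ * I) - 1 - φ * I) + E).re ≤ -(19 / 100 * N) * φ ^ 2 := by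
    have h1 : ((N : ℂ) * (cexp (φ * I) - 1 - φ * I)).re = N * (Real.cos φ - 1) := by
      rw [re_ofReal_mul, sub_re, hu, uu_re]
      simp
    rw [add_re, h1]
    have h2 := cos_bound hφπ
    have h3 := (abs_re_le_norm E).trans hE
    have h4 := (abs_le.1 h3).2
    have h5 := mul_le_mul_of_nonneg_left h2 hN0.le
    nlinarith
  have hre2 : (((-(1 * N / 2) * φ ^ 2 : ℝ)) : ℂ).re ≤ -(19 / 100 * N) * φ ^ 2 := by
    rw [ofReal_re]
    nlinarith
  have h1 := norm_exp_sub_exp_le hre1 hre2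
  rw [e0]
  refine h1.trans ?_
  have hd : ‖((N : ℂ) * (cexp (φ * I) - 1 - φ * I) + E) - (((-(1 * N / 2) * φ ^ 2 : ℝ)) : ℂ)‖ ≤
      N * (4 * |φ| ^ 3) + 1 / 100 * N * φ ^ 2 := by
    have e1 : ((N : ℂ) * (cexp (φ * I) - 1 - φ * I) + E) - (((-(1 * N / 2) * φ ^ 2 : ℝ)) : ℂ) =
        (N : ℂ) * (uu φ - I * φ + (φ : ℂ) ^ 2 / 2) + E := by
      rw [hu]
      push_cast
      ring
    rw [e1]
    refine (norm_add_le _ _).trans ?_
    rw [norm_mul, Complex.norm_real, Real.norm_eq_abs, abs_of_pos hN0]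
    exact add_le_add (mul_le_mul_of_nonneg_left (uu_expand φ) hN0.le) hE
  -- the variable `t`
  set s := Real.sqrt N with hs
  have hs2 : s ^ 2 = N := Real.sq_sqrt hN0.le
  have hs4 : 10000 ≤ s := by
    rw [hs]
    apply Real.le_sqrt_of_sq_le
    norm_num
    exact hN
  have hs0 : 0 < s := by linarith
  set t := s * |φ| with ht
  have ht0 : 0 ≤ t := by positivity
  have ht2 : t ^ 2 = N * φ ^ 2 := by
    rw [ht, mul_pow, sq_abs, hs2]
  have ht3 : N * |φ| ^ 3 ≤ t ^ 3 / 10000 := by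
    have e : t ^ 3 = s * (N * |φ| ^ 3) := by
      rw [ht, ← hs2]; ring
    rw [e, le_div_iff₀ (by norm_num)]
    have : 0 ≤ N * |φ| ^ 3 := by positivity
    nlinarith
  have hp := dn_lapD_poly t ht0
  have hfin : N * (4 * |φ| ^ 3) + 1 / 100 * N * φ ^ 2 ≤
      21 / 100 * Real.exp (9 / 100 * t ^ 2) := by
    have h3 : 1 / 100 * N * φ ^ 2 = t ^ 2 / 100 := by rw [ht2]; ring
    rw [h3]
    have h4 : N * (4 * |φ| ^ 3) ≤ 4 * t ^ 3 / 10000 := by linarith
    linarith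
  have hexp : Real.exp (9 / 100 * t ^ 2) * Real.exp (-(19 / 100 * N) * φ ^ 2) =
      Real.exp (-(1 / 10 * N) * φ ^ 2) := by
    rw [← Real.exp_add, ht2]
    congr 1
    ring
  calc ‖((N : ℂ) * (cexp (φ * I) - 1 - φ * I) + E) - (((-(1 * N / 2) * φ ^ 2 : ℝ)) : ℂ)‖ *
        Real.exp (-(19 / 100 * N) * φ ^ 2)
      ≤ (21 / 100 * Real.exp (9 / 100 * t ^ 2)) * Real.exp (-(19 / 100 * N) * φ ^ 2) :=
        mul_le_mul_of_nonneg_right (hd.trans hfin) (Real.exp_pos _).le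
    _ = 21 / 100 * Real.exp (-(1 / 10 * N) * φ ^ 2) := by rw [mul_assoc, hexp]

theorem p_lapD : S_lapD := by
  refine ⟨1 / 100, 100000000, by norm_num, by norm_num, ?_⟩
  intro N hN Q hQ hE
  have hN0 : 0 < N := by linarith
  have hL := laplace (Q := Q) (a := -(3 / 4)) (b := 3 / 4) (l := 1) (c := 1 / 10) (δ := 21 / 100)
    (m := N) hN0 (by norm_num) (by norm_num) (by norm_num) (by norm_num) (by norm_num) hQ (by
      intro φ hφ
      obtain ⟨E, hE1, hE2⟩ := hE φ (abs_le.2 hφ)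
      rw [hE2]
      exact dn_lapD_pt hN (abs_le.2 hφ) hE1)
  set s := Real.sqrt N with hs
  have hs2 : s ^ 2 = N := Real.sq_sqrt hN0.le
  have hs4 : 10000 ≤ s := by
    rw [hs]
    apply Real.le_sqrt_of_sq_le
    norm_num
    exact hN
  have hs0 : 0 < s := by linarith
  have hpi1 := Real.pi_gt_d2
  have hpi2 := Real.pi_lt_d2
  have b1 : 5 / 2 / s ≤ Real.sqrt (Real.pi / (1 * N / 2)) := by
    apply Real.le_sqrt_of_sq_le
    rw [div_pow, hs2, div_le_div_iff₀ hN0 (by positivity)]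
    nlinarith
  have b2 : Real.sqrt (Real.pi / (1 / 10 * N)) ≤ 562 / 100 / s := by
    rw [Real.sqrt_le_left (by positivity), div_pow, hs2,
      div_le_div_iff₀ (by positivity) hN0]
    nlinarith
  have b3 : Real.sqrt (Real.pi / (1 * N / 4)) ≤ 4 / s := by
    rw [Real.sqrt_le_left (by positivity), div_pow, hs2,
      div_le_div_iff₀ (by positivity) hN0]
    nlinarith
  have b4 : Real.exp (-(1 * N / 16)) ≤ 1 / 100 := by
    rw [Real.exp_neg, inv_eq_one_div]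
    apply one_div_le_one_div_of_le (by norm_num)
    have := Real.add_one_le_exp (1 * N / 16)
    linarith
  have b5 : Real.exp (-(1 * N / 16)) * Real.sqrt (Real.pi / (1 * N / 4)) ≤ 1 / 100 * (4 / s) :=
    mul_le_mul b4 b3 (Real.sqrt_nonneg _) (by norm_num)
  have b6 : 21 / 100 * Real.sqrt (Real.pi / (1 / 10 * N)) ≤ 21 / 100 * (562 / 100 / s) :=
    mul_le_mul_of_nonneg_left b2 (by norm_num)
  have b7 : Real.sqrt (Real.pi / (1 * N / 2)) - ‖∫ φ in (-(3 / 4) : ℝ)..(3 / 4), Q φ‖ ≤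
      21 / 100 * Real.sqrt (Real.pi / (1 / 10 * N)) +
        Real.exp (-(1 * N / 16)) * Real.sqrt (Real.pi / (1 * N / 4)) := by
    refine le_trans ?_ hL
    rw [norm_sub_rev]
    refine le_trans ?_ (norm_sub_norm_le _ _)
    rw [Complex.norm_real, Real.norm_eq_abs, abs_of_nonneg (Real.sqrt_nonneg _)]
  have hsi : 0 < 1 / s := by positivity
  have c1 : 5 / 2 / s = 5 / 2 * (1 / s) := by ring
  have c2 : 562 / 100 / s = 562 / 100 * (1 / s) := by ring
  have c3 : 4 / s = 4 * (1 / s) := by ring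
  rw [c1] at b1
  rw [c2] at b6
  rw [c3] at b5
  linarith

end Pool.Agent.Lib.MP_cd509c_nt.DN
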