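import Pool.Agent.Lib.MP_cd509c_nt.DN.Defs

/-!
# Laplace lower bound, line (piece lapH)
-/

set_option autoImplicit false

namespace Pool.Agent.Lib.MP_cd509c_nt.DN

open Complex ComplexConjugate MeasureTheory

/-- pointwise comparison of the perturbed Gaussian with the Gaussian -/
lemma dn_lapH_pt (N u : ℝ) (hN : 0 < N) (E : ℂ) (hE : ‖E‖ ≤ 1 / 100 * N * u ^ 2) :
    ‖cexp (-((N : ℂ) * (u : ℂ) ^ 2 / 2) + E) - ((Real.exp (-(N / 2) * u ^ 2) : ℝ) : ℂ)‖
      ≤ 1 / 10 * Real.exp (-(N / 4) * u ^ 2) := by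
  have h1 : cexp (-((N : ℂ) * (u : ℂ) ^ 2 / 2) + E) - ((Real.exp (-(N / 2) * u ^ 2) : ℝ) : ℂ)
      = ((Real.exp (-(N / 2) * u ^ 2) : ℝ) : ℂ) * (cexp E - 1) := by
    rw [Complex.exp_add]
    have : cexp (-((N : ℂ) * (u : ℂ) ^ 2 / 2)) = ((Real.exp (-(N / 2) * u ^ 2) : ℝ) : ℂ) := by
      rw [Complex.ofReal_exp]
      congr 1
      push_cast
      ring
    rw [this]
    ring
  rw [h1, norm_mul, Complex.norm_real, Real.norm_of_nonneg (Real.exp_pos _).le]
  set y : ℝ := N * u ^ 2 with hy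
  have hy0 : 0 ≤ y := by positivity
  have hE' : ‖E‖ ≤ y / 100 := by rw [hy]; linarith
  have h2 : ‖cexp E - 1‖ ≤ ‖E‖ * Real.exp ‖E‖ := by
    have := Complex.norm_exp_sub_sum_le_norm_mul_exp E 1
    simpa using this
  have h3 : ‖E‖ * Real.exp ‖E‖ ≤ y / 100 * Real.exp (y / 100) := by
    have := Real.exp_le_exp.2 hE'
    have h0 := norm_nonneg E
    have h4 := (Real.exp_pos ‖E‖).le
    nlinarith
  have e1 : Real.exp (-(N / 2) * u ^ 2) = Real.exp (-(y / 2)) := by rw [hy]; congr 1; ring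
  have e2 : Real.exp (-(N / 4) * u ^ 2) = Real.exp (-(y / 4)) := by rw [hy]; congr 1; ring
  rw [e1, e2]
  have h5 : y / 100 ≤ 1 / 10 * Real.exp (y / 10) := by
    have := Real.add_one_le_exp (y / 10)
    linarith
  have h6 : Real.exp (-(y / 2)) * (1 / 10 * Real.exp (y / 10) * Real.exp (y / 100))
      ≤ 1 / 10 * Real.exp (-(y / 4)) := by
    have : Real.exp (-(y / 2)) * (1 / 10 * Real.exp (y / 10) * Real.exp (y / 100))
        = 1 / 10 * Real.exp (-(y / 2) + y / 10 + y / 100) := by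
      rw [Real.exp_add, Real.exp_add]; ring
    rw [this]
    have : Real.exp (-(y / 2) + y / 10 + y / 100) ≤ Real.exp (-(y / 4)) :=
      Real.exp_le_exp.2 (by linarith)
    linarith
  refine le_trans ?_ h6
  apply mul_le_mul_of_nonneg_left _ (Real.exp_pos _).le
  refine le_trans h2 (le_trans h3 ?_)
  exact mul_le_mul_of_nonneg_right h5 (Real.exp_pos _).le

/-- the Gaussian off the interval -/
lemma dn_lapH_off (N u : ℝ) (hN : 200 ≤ N) (hu : 1 / 4 ≤ |u|) :
    Real.exp (-(N / 2) * u ^ 2) ≤ 1 / 10 * Real.exp (-(N / 4) * u ^ 2) := by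
  have hu2 : 1 / 16 ≤ u ^ 2 := by
    rw [← sq_abs]
    nlinarith [abs_nonneg u]
  have h1 : Real.exp (-(N / 2) * u ^ 2)
      = Real.exp (-(N / 4) * u ^ 2) * Real.exp (-(N / 4) * u ^ 2) := by
    rw [← Real.exp_add]; congr 1; ring
  have h2 : Real.exp (-(N / 4) * u ^ 2) ≤ 1 / 10 := by
    have h3 : -(N / 4) * u ^ 2 ≤ -3 := by nlinarith
    have h4 : Real.exp (-(N / 4) * u ^ 2) ≤ Real.exp (-3) := Real.exp_le_exp.2 h3
    have h5 : Real.exp (-3) ≤ 1 / 10 := by
      have h6 : Real.exp 3 = Real.exp 1 ^ 3 := by rw [← Real.exp_nat_mul]; norm_num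
      have h7 := Real.exp_one_gt_d9
      have h8 : (10 : ℝ) ≤ Real.exp 3 := by
        rw [h6]
        have : (2.7 : ℝ) ^ 3 ≤ Real.exp 1 ^ 3 := by
          apply pow_le_pow_left₀ (by norm_num); linarith
        norm_num at this ⊢
        linarith
      rw [Real.exp_neg, one_div]
      exact inv_anti₀ (by norm_num) h8
    linarith
  rw [h1]
  have := (Real.exp_pos (-(N / 4) * u ^ 2)).le
  nlinarith

theorem p_lapH : S_lapH := by
  refine ⟨1 / 100, 200, by norm_num, by norm_num, ?_⟩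
  intro N hN Q hQ hE
  have hN0 : 0 < N := by linarith
  let g : ℝ → ℂ := fun u => ((Real.exp (-(N / 2) * u ^ 2) : ℝ) : ℂ)
  let h : ℝ → ℝ := fun u => Real.exp (-(N / 4) * u ^ 2)
  let F : ℝ → ℂ := (Set.Ioc (-(1 / 4) : ℝ) (1 / 4)).indicator Q
  have hF : Integrable F := by
    have := (intervalIntegrable_iff_integrableOn_Ioc_of_le (by norm_num)).1 hQ
    exact (integrable_indicator_iff measurableSet_Ioc).2 this
  have hg : Integrable g := by
    exact (integrable_exp_neg_mul_sq (by linarith : (0 : ℝ) < N / 2)).ofReal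
  have hh : Integrable h := integrable_exp_neg_mul_sq (by linarith : (0 : ℝ) < N / 4)
  have hFi : ∫ u in (-(1 / 4) : ℝ)..(1 / 4), Q u = ∫ u, F u := by
    rw [intervalIntegral.integral_of_le (by norm_num), ← integral_indicator measurableSet_Ioc]
  have hgi : ∫ u, g u = ((Real.sqrt (Real.pi / (N / 2)) : ℝ) : ℂ) := by
    rw [← integral_gaussian]
    exact integral_ofReal
  have hhi : ∫ u, h u = Real.sqrt (Real.pi / (N / 4)) := integral_gaussian _
  have hpt : ∀ u, ‖F u - g u‖ ≤ 1 / 10 * h u := by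
    intro u
    by_cases hu : u ∈ Set.Ioc (-(1 / 4) : ℝ) (1 / 4)
    · have hu' : |u| ≤ 1 / 4 := abs_le.2 ⟨hu.1.le, hu.2⟩
      obtain ⟨E, hE1, hE2⟩ := hE u hu'
      have : F u = Q u := Set.indicator_of_mem hu _
      rw [this, hE2]
      exact dn_lapH_pt N u hN0 E hE1
    · have : F u = 0 := Set.indicator_of_notMem hu _
      rw [this, zero_sub, norm_neg]
      have h1 : ‖g u‖ = Real.exp (-(N / 2) * u ^ 2) := by
        simp only [g]
        rw [Complex.norm_real, Real.norm_of_nonneg (Real.exp_pos _).le]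
      rw [h1]
      apply dn_lapH_off N u hN
      by_contra hc
      push Not at hc
      rw [abs_lt] at hc
      exact hu ⟨hc.1, hc.2.le⟩
  have hdiff : ‖(∫ u, F u) - ∫ u, g u‖ ≤ 1 / 10 * Real.sqrt (Real.pi / (N / 4)) := by
    rw [← integral_sub hF hg, ← hhi, ← integral_const_mul]
    exact norm_integral_le_of_norm_le (hh.const_mul _) (Filter.Eventually.of_forall hpt)
  have hs1 : Real.sqrt (Real.pi / (N / 4)) ≤ 4 / Real.sqrt N := by
    rw [le_div_iff₀ (Real.sqrt_pos.2 hN0), ← Real.sqrt_mul (by positivity)]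
    have : Real.pi / (N / 4) * N = 4 * Real.pi := by field_simp
    rw [this, Real.sqrt_le_left (by norm_num)]
    have := Real.pi_le_four
    linarith
  have hs2 : 2 / Real.sqrt N ≤ Real.sqrt (Real.pi / (N / 2)) := by
    rw [div_le_iff₀ (Real.sqrt_pos.2 hN0), ← Real.sqrt_mul (by positivity)]
    have : Real.pi / (N / 2) * N = 2 * Real.pi := by field_simp
    rw [this]
    apply Real.le_sqrt_of_sq_le
    have := Real.pi_gt_three
    linarith
  rw [hFi]
  have hgn : ‖∫ u, g u‖ = Real.sqrt (Real.pi / (N / 2)) := by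
    rw [hgi, Complex.norm_real, Real.norm_of_nonneg (Real.sqrt_nonneg _)]
  have htri : ‖∫ u, g u‖ ≤ ‖∫ u, F u‖ + ‖(∫ u, F u) - ∫ u, g u‖ := by
    have := norm_sub_le (∫ u, F u) ((∫ u, F u) - ∫ u, g u)
    simpa using this
  have hsq := Real.sqrt_pos.2 hN0
  have h1 : 1 / Real.sqrt N = 2 / Real.sqrt N - 1 / Real.sqrt N := by ring
  have h2 : 1 / 10 * (4 / Real.sqrt N) ≤ 1 / Real.sqrt N := by
    rw [mul_div, div_le_div_iff_of_pos_right hsq]
    norm_num
  rw [hgn] at htri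
  linarith

end Pool.Agent.Lib.MP_cd509c_nt.DN
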