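import Mathlib
import Pool.Agent.Lib.MP_cd509c_nt.DN.Defs

/-!
# Derivatives of the Xi-function in terms of the normalised function
-/

set_option autoImplicit false

namespace Pool.Agent.Lib.MP_cd509c_nt.DN

open Complex ComplexConjugate MeasureTheory

lemma dn_linkD_affine (n : ℕ) (c a : ℂ) : iteratedDeriv n (fun z : ℂ => Lam (c + a * z)) =
    fun z => a ^ n * iteratedDeriv n Lam (c + a * z) := by
  induction n with
  | zero => funext z; simp
  | succ n ih =>
    rw [iteratedDeriv_succ, ih]
    funext z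
    have hcd : ContDiff ℂ ⊤ Lam := Lam_differentiable.contDiff
    have hgd : Differentiable ℂ (iteratedDeriv n Lam) :=
      hcd.differentiable_iteratedDeriv n (by exact_mod_cast WithTop.coe_lt_top _)
    have h1 : HasDerivAt (fun z : ℂ => c + a * z) (a * 1) z :=
      ((hasDerivAt_id z).const_mul a).const_add c
    have h2 := ((hgd (c + a * z)).hasDerivAt.comp z h1).const_mul (a ^ n)
    rw [iteratedDeriv_succ]
    refine h2.deriv.trans ?_
    ring

theorem p_linkD : S_linkD := by
  intro n x a l w hx ha hn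
  have hla : la n (Rx x a l) = fun z : ℂ => (m0 x)⁻¹ * Lam (s0 x + (a : ℂ) * z) := by
    funext z
    unfold la Rx
    have e : ((n : ℝ) : ℂ) * z = ((a * l : ℝ) : ℂ) * z := by rw [hn]
    have h1 : cexp (((n : ℝ) : ℂ) * z) * cexp (-((a * l : ℝ) : ℂ) * z) = 1 := by
      rw [e, ← Complex.exp_add]
      have : ((a * l : ℝ) : ℂ) * z + -((a * l : ℝ) : ℂ) * z = 0 := by ring
      rw [this, Complex.exp_zero]
    calc cexp (((n : ℝ) : ℂ) * z) * (Lam (s0 x + a * z) / m0 x * cexp (-((a * l : ℝ) : ℂ) * z))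
        = (cexp (((n : ℝ) : ℂ) * z) * cexp (-((a * l : ℝ) : ℂ) * z)) *
          (Lam (s0 x + a * z) / m0 x) := by ring
      _ = _ := by rw [h1, one_mul, div_eq_inv_mul]
  have hXi : Xi = fun z : ℂ => Lam (6 + Complex.I * z) := rfl
  have ha0 : (a : ℂ) ≠ 0 := by exact_mod_cast ha.ne'
  have hm := m0_ne x
  rw [hla, hXi, iteratedDeriv_Xi, iteratedDeriv_const_mul_field, dn_linkD_affine]
  have e : (6 : ℂ) + Complex.I * ((x : ℂ) - I * (a * w)) = s0 x + (a : ℂ) * w := by
    unfold s0
    have : Complex.I * Complex.I = -1 := Complex.I_mul_I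
    linear_combination (-(a * w)) * this
  simp only [e]
  field_simp

end Pool.Agent.Lib.MP_cd509c_nt.DN
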