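import Pool.Agent.Lib.MP_cd509c_nt.DN.Defs

/-!
# Piece linkH: the heat flow in terms of the normalised function
-/

set_option autoImplicit false

namespace Pool.Agent.Lib.MP_cd509c_nt.DN

open Complex ComplexConjugate MeasureTheory

theorem dn_linkH_la (x a l : ℝ) (z : ℂ) :
    la (a * l) (Rx x a l) z = Lam (s0 x + a * z) / m0 x := by
  rw [la, Rx, mul_comm, mul_assoc, ← Complex.exp_add]
  simp

theorem p_linkH : S_linkH := by
  intro t x l w hx ht hl
  set a : ℝ := 2 * t * l with ha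
  have ha0 : 0 < a := by rw [ha]; positivity
  have hm0 : m0 x ≠ 0 := m0_ne x
  rw [Ht_gauss ht, FH]
  have h1 : ∀ v : ℝ, la (a * l) (Rx x a l) (w + v) * cexp (-(((a * l : ℝ) : ℂ) * (v : ℂ) ^ 2 / 2)) =
      (m0 x)⁻¹ * (cexp (-(((a * v : ℝ) : ℂ)) ^ 2 / (4 * t)) *
        Lam (6 + I * ((x : ℂ) - I * ((a : ℝ) * w)) + ((a * v : ℝ) : ℂ))) := by
    intro v
    rw [dn_linkH_la]
    have e1 : s0 x + a * (w + v) = 6 + I * ((x : ℂ) - I * ((a : ℝ) * w)) + ((a * v : ℝ) : ℂ) := by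
      rw [s0]
      push_cast
      linear_combination (a * w : ℂ) * I_sq
    have e2 : (-(((a * l : ℝ) : ℂ) * (v : ℂ) ^ 2 / 2)) = -(((a * v : ℝ) : ℂ)) ^ 2 / (4 * t) := by
      have ht' : (t : ℂ) ≠ 0 := by exact_mod_cast ht.ne'
      rw [ha]
      push_cast
      field_simp
      ring
    rw [e1, e2]
    ring
  simp_rw [h1]
  rw [integral_const_mul]
  have h2 := Measure.integral_comp_mul_left (fun u : ℝ => cexp (-((u : ℂ)) ^ 2 / (4 * t)) *
        Lam (6 + I * ((x : ℂ) - I * ((a : ℝ) * w)) + (u : ℂ))) a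
  rw [h2, abs_of_pos (inv_pos.2 ha0), Complex.real_smul]
  have ha' : (a : ℂ) ≠ 0 := by exact_mod_cast ha0.ne'
  have h3 : ((2 * t * l : ℝ) : ℂ) = a := by rw [ha]
  have h4 : (2 * (t : ℂ) * l) = a := by rw [ha]; push_cast; ring
  rw [h4]
  push_cast
  field_simp

end Pool.Agent.Lib.MP_cd509c_nt.DN
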