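import Pool.Agent.Lib.MP_cd509c_nt.DN.Defs

/-!
# Piece loD: lower bound of the arc integral (contour shift)
-/

set_option autoImplicit false

namespace Pool.Agent.Lib.MP_cd509c_nt.DN

open Complex ComplexConjugate MeasureTheory

/-- the integrand in the variable `ζ` -/
private noncomputable def dn_loD_G (N : ℝ) (R : ℂ → ℂ) (w ζ : ℂ) : ℂ :=
  la N R (w + cexp ζ) * cexp (-((N : ℂ) * ζ))

private lemma dn_loD_diff (N : ℝ) (R : ℂ → ℂ) (w : ℂ) (hR : Differentiable ℂ R) :
    Differentiable ℂ (dn_loD_G N R w) := by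
  unfold dn_loD_G la
  have h1 : Differentiable ℂ fun ζ : ℂ => w + cexp ζ :=
    (differentiable_const w).add Complex.differentiable_exp
  have h2 : Differentiable ℂ fun ζ : ℂ => R (w + cexp ζ) := hR.comp h1
  have h3 : Differentiable ℂ fun ζ : ℂ => cexp ((N : ℂ) * (w + cexp ζ)) :=
    ((differentiable_const _).mul h1).cexp
  have h4 : Differentiable ℂ fun ζ : ℂ => cexp (-((N : ℂ) * ζ)) :=
    ((differentiable_const _).mul differentiable_id).neg.cexp
  exact (h3.mul h2).mul h4

private lemma dn_loD_norm (N : ℝ) (R : ℂ → ℂ) (w ζ : ℂ) :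
    ‖dn_loD_G N R w ζ‖ = ‖la N R (w + cexp ζ)‖ * Real.exp (-(N * ζ.re)) := by
  unfold dn_loD_G
  rw [norm_mul, Complex.norm_exp]
  congr 2
  simp

private lemma dn_loD_e1 (a b c r : ℂ) : cexp a * (r * cexp b) * cexp c = r * cexp (a + b + c) := by
  rw [Complex.exp_add, Complex.exp_add]
  ring

private lemma dn_loD_e2 (a b c r : ℂ) : cexp a * (cexp b * r * cexp c) = r * cexp (a + b + c) := by
  rw [Complex.exp_add, Complex.exp_add]
  ring

/-- the contour shift -/
private lemma dn_loD_shift (N : ℝ) (R : ℂ → ℂ) (w : ℂ) (hR : Differentiable ℂ R) (θ ξ : ℝ) :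
    BD N R θ w = (∫ y in (-θ)..θ, dn_loD_G N R w (ξ + y * I)) -
      I * ((∫ x in (0 : ℝ)..ξ, dn_loD_G N R w (x + ((-θ : ℝ) : ℂ) * I)) -
        ∫ x in (0 : ℝ)..ξ, dn_loD_G N R w (x + (θ : ℂ) * I)) := by
  have h := Complex.integral_boundary_rect_eq_zero_of_differentiableOn (dn_loD_G N R w)
    (⟨0, -θ⟩ : ℂ) (⟨ξ, θ⟩ : ℂ) (dn_loD_diff N R w hR).differentiableOn
  have hBD : BD N R θ w = ∫ y in (-θ)..θ, dn_loD_G N R w (((0 : ℝ) : ℂ) + y * I) := by
    unfold BD dn_loD_G
    apply intervalIntegral.integral_congr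
    intro φ _
    simp only [ofReal_zero, zero_add]
    congr 2
    ring
  rw [hBD]
  simp only [smul_eq_mul] at h
  have e1 : I * I = -1 := Complex.I_mul_I
  linear_combination I * h - ((∫ y in (-θ)..θ, dn_loD_G N R w (ξ + y * I)) -
    ∫ y in (-θ)..θ, dn_loD_G N R w (((0 : ℝ) : ℂ) + y * I)) * e1

private lemma dn_loD_num (N ε : ℝ) (hN : 30000 ≤ N) (hε0 : 0 < ε) (hε : ε ≤ 1 / 400) :
    9 * Real.exp (-(N / 20) + 3 * ε * N) ≤ Real.exp (-(3 * ε * N)) / (2 * Real.sqrt N) := by
  have hN0 : 0 < N := by linarith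
  have hs : 0 < Real.sqrt N := Real.sqrt_pos.2 hN0
  have hs2 : Real.sqrt N ≤ N := by
    rw [Real.sqrt_le_left (by linarith)]
    nlinarith
  rw [le_div_iff₀ (by positivity)]
  have h1 : 18 * N ≤ Real.exp (7 / 200 * N) := by
    have := Real.quadratic_le_exp_of_nonneg (x := 7 / 200 * N) (by positivity)
    nlinarith
  have h2 : Real.exp (7 / 200 * N) * Real.exp (-(N / 20) + 3 * ε * N) ≤
      Real.exp (-(3 * ε * N)) := by
    rw [← Real.exp_add]
    apply Real.exp_le_exp.2
    have : ε * N ≤ 1 / 400 * N := by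
      apply mul_le_mul_of_nonneg_right hε hN0.le
    nlinarith
  have h3 : 18 * Real.sqrt N ≤ Real.exp (7 / 200 * N) := by linarith
  calc 9 * Real.exp (-(N / 20) + 3 * ε * N) * (2 * Real.sqrt N)
      = (18 * Real.sqrt N) * Real.exp (-(N / 20) + 3 * ε * N) := by ring
    _ ≤ Real.exp (7 / 200 * N) * Real.exp (-(N / 20) + 3 * ε * N) := by
        apply mul_le_mul_of_nonneg_right h3 (Real.exp_pos _).le
    _ ≤ _ := h2

theorem p_loD (htay : S_tay) (hlap : S_lapD) (hsad : S_sadD) : S_loD := by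
  obtain ⟨η, N₁, hη, hN₁, hlap⟩ := hlap
  refine ⟨min (1 / 400) (η / 5), max N₁ 30000, by positivity, le_max_of_le_left hN₁, ?_⟩
  intro ε N b Y θ R w hε hε' hN hb hY hR hw1 hw2 hw3 hθ1 hθ2 hfar
  have hε1 : ε ≤ 1 / 400 := hε'.trans (min_le_left _ _)
  have hε2 : 5 * ε ≤ η := by
    have := hε'.trans (min_le_right _ _)
    linarith
  have hNa : N₁ ≤ N := (le_max_left _ _).trans hN
  have hNb : 30000 ≤ N := (le_max_right _ _).trans hN
  have hN0 : 0 < N := by linarith
  have hNc : (N : ℂ) ≠ 0 := by exact_mod_cast hN0.ne'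
  obtain ⟨v, hv1, hv2⟩ := hsad ε N b Y R hε hε1 hN0 hb hY hR w hw1 hw2 hw3
  -- the logarithm of the saddle point
  have hv0 : v ≠ 0 := by
    intro h0
    rw [h0, zero_mul] at hv2
    exact zero_ne_one hv2
  set ζ : ℂ := Complex.log v with hζ
  have hexpζ : cexp ζ = v := Complex.exp_log hv0
  have hζn : ‖ζ‖ ≤ 3 * ε := by
    have h1 : ‖v - 1‖ ≤ 1 / 2 := by linarith
    have h2 := Complex.norm_log_one_add_half_le_self h1
    rw [show (1 : ℂ) + (v - 1) = v by ring] at h2
    linarith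
  have hre : |ζ.re| ≤ 3 * ε := (Complex.abs_re_le_norm ζ).trans hζn
  have him : |ζ.im| ≤ 3 * ε := (Complex.abs_im_le_norm ζ).trans hζn
  have hre32 : |ζ.re| ≤ 1 / 32 := by linarith
  have hvre : |v.re - 1| ≤ 2 * ε := by
    have := (Complex.abs_re_le_norm (v - 1)).trans hv1
    simpa using this
  have hvim : |v.im| ≤ 2 * ε := by
    have := (Complex.abs_im_le_norm (v - 1)).trans hv1
    simpa using this
  have hvn : ‖v‖ ≤ 1 + 2 * ε := by
    calc ‖v‖ = ‖(v - 1) + 1‖ := by rw [sub_add_cancel]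
      _ ≤ ‖v - 1‖ + ‖(1 : ℂ)‖ := norm_add_le _ _
      _ ≤ 1 + 2 * ε := by
          rw [norm_one]
          linarith
  have hN3 : 0 ≤ N * (3 * ε) := by positivity
  -- the error bound
  set E₀ : ℝ := Real.exp (N * (w.re + 1) - N / 20 + 3 * ε * N) * ‖R (w + 1)‖ with hE₀
  have hE₀0 : 0 ≤ E₀ := by positivity
  have hG : ∀ x y : ℝ, |x| ≤ 3 * ε → 7 / 10 ≤ |y| → |y| ≤ θ →
      ‖dn_loD_G N R w (x + y * I)‖ ≤ E₀ := by
    intro x y hx hy1 hy2
    rw [dn_loD_norm]
    have h1 := hfar (x + y * I) (by simp; linarith) (by simpa using hy1) (by simpa using hy2)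
    have h2 : Real.exp (-(N * ((x : ℂ) + y * I).re)) ≤ Real.exp (3 * ε * N) := by
      apply Real.exp_le_exp.2
      simp only [add_re, ofReal_re, mul_re, I_re, mul_zero, ofReal_im, I_im, mul_one, sub_self,
        add_zero]
      rw [abs_le] at hx
      nlinarith
    calc ‖la N R (w + cexp (x + y * I))‖ * Real.exp (-(N * ((x : ℂ) + y * I).re))
        ≤ (Real.exp (N * (w.re + 1) - N / 20) * ‖R (w + 1)‖) * Real.exp (3 * ε * N) := by
          apply mul_le_mul h1 h2 (Real.exp_pos _).le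
          positivity
      _ = E₀ := by
          rw [hE₀, Real.exp_add]
          ring
  -- the path
  have hc : Continuous (dn_loD_G N R w) := (dn_loD_diff N R w hR.diff).continuous
  have hcy : Continuous fun y : ℝ => dn_loD_G N R w (ζ.re + y * I) := by
    apply hc.comp
    fun_prop
  have hii : ∀ a c : ℝ, IntervalIntegrable (fun y : ℝ => dn_loD_G N R w (ζ.re + y * I)) volume a c :=
    fun a c => hcy.intervalIntegrable a c
  rw [abs_le] at him
  have hpi : 3 < Real.pi := Real.pi_gt_three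
  have hpi2 : Real.pi < 3.15 := Real.pi_lt_d2
  have hfarL : ‖∫ y in (-θ)..(ζ.im - 3 / 4), dn_loD_G N R w (ζ.re + y * I)‖ ≤ E₀ * θ := by
    have := intervalIntegral.norm_integral_le_of_norm_le_const (a := -θ) (b := ζ.im - 3 / 4)
      (C := E₀) (f := fun y : ℝ => dn_loD_G N R w (ζ.re + y * I)) (by
        intro y hy
        rw [Set.uIoc_of_le (by linarith)] at hy
        obtain ⟨hy1, hy2⟩ := hy
        have hyneg : y < 0 := by linarith
        apply hG _ _ hre
        · rw [abs_of_neg hyneg]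
          linarith
        · rw [abs_of_neg hyneg]
          linarith)
    refine this.trans ?_
    apply mul_le_mul_of_nonneg_left _ hE₀0
    rw [abs_le]
    constructor <;> linarith
  have hfarR : ‖∫ y in (ζ.im + 3 / 4)..θ, dn_loD_G N R w (ζ.re + y * I)‖ ≤ E₀ * θ := by
    have := intervalIntegral.norm_integral_le_of_norm_le_const (a := ζ.im + 3 / 4) (b := θ)
      (C := E₀) (f := fun y : ℝ => dn_loD_G N R w (ζ.re + y * I)) (by
        intro y hy
        rw [Set.uIoc_of_le (by linarith)] at hy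
        obtain ⟨hy1, hy2⟩ := hy
        have hypos : 0 < y := by linarith
        apply hG _ _ hre
        · rw [abs_of_pos hypos]
          linarith
        · rw [abs_of_pos hypos]
          linarith)
    refine this.trans ?_
    apply mul_le_mul_of_nonneg_left _ hE₀0
    rw [abs_le]
    constructor <;> linarith
  have hside : ∀ t : ℝ, |t| = θ →
      ‖∫ x in (0 : ℝ)..ζ.re, dn_loD_G N R w (x + (t : ℂ) * I)‖ ≤ E₀ := by
    intro t ht
    have := intervalIntegral.norm_integral_le_of_norm_le_const (a := 0) (b := ζ.re)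
      (C := E₀) (f := fun x : ℝ => dn_loD_G N R w (x + (t : ℂ) * I)) (by
        intro x hx
        have hx' : |x| ≤ |ζ.re| := by
          have h1 := Set.uIoc_subset_uIcc hx
          rw [Set.mem_uIcc] at h1
          rcases h1 with ⟨h1, h2⟩ | ⟨h1, h2⟩
          · rw [abs_of_nonneg h1]
            exact h2.trans (le_abs_self _)
          · rw [abs_of_nonpos h2]
            have := neg_abs_le ζ.re
            linarith
        apply hG _ _ (hx'.trans hre)
        · rw [ht]
          linarith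
        · exact ht.le)
    refine this.trans ?_
    rw [sub_zero]
    have : |ζ.re| ≤ 1 := by linarith
    calc E₀ * |ζ.re| ≤ E₀ * 1 := by
          apply mul_le_mul_of_nonneg_left this hE₀0
      _ = E₀ := mul_one _
  -- the base point
  have habs : ∀ u : ℂ, b / 4 - 3 / 8 + 1 / 2 ≤ b / 4 - 3 / 8 + u.re → ‖u‖ ≤ 2 →
      b / 4 + 1 / 8 ≤ (w + u).re ∧ (w + u).re ≤ Y - 1 / 8 ∧ |(w + u).im| ≤ 20 * b - 1 / 8 := by
    intro u hu1 hu2
    have h1 := (Complex.abs_re_le_norm u).trans hu2
    have h2 := (Complex.abs_im_le_norm u).trans hu2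
    rw [abs_le] at h1 h2
    have h3 := abs_le.1 hw3
    simp only [add_re, add_im]
    refine ⟨by linarith, by linarith, ?_⟩
    rw [abs_le]
    constructor <;> linarith
  rw [abs_le] at hvre
  obtain ⟨q1, q2, q3⟩ := habs v (by linarith) (by linarith)
  have hRv : R (w + v) ≠ 0 := hR.ne (w + v) (by linarith) (by linarith) (q3.trans (by linarith))
  have hGζ : dn_loD_G N R w ζ ≠ 0 := by
    unfold dn_loD_G la
    rw [hexpζ]
    exact mul_ne_zero (mul_ne_zero (Complex.exp_ne_zero _) hRv) (Complex.exp_ne_zero _)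
  -- the near part
  have hnear : ‖dn_loD_G N R w ζ‖ * (1 / Real.sqrt N) ≤
      ‖∫ y in (ζ.im - 3 / 4)..(ζ.im + 3 / 4), dn_loD_G N R w (ζ.re + y * I)‖ := by
    have e1 : (∫ y in (ζ.im - 3 / 4)..(ζ.im + 3 / 4), dn_loD_G N R w (ζ.re + y * I)) =
        ∫ φ in (-(3 / 4) : ℝ)..(3 / 4), dn_loD_G N R w (ζ + φ * I) := by
      have h1 := intervalIntegral.integral_comp_add_right
        (fun y : ℝ => dn_loD_G N R w (ζ.re + y * I)) ζ.im (a := -(3 / 4)) (b := 3 / 4)
      rw [show -(3 / 4) + ζ.im = ζ.im - 3 / 4 by ring, show 3 / 4 + ζ.im = ζ.im + 3 / 4 by ring]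
        at h1
      rw [← h1]
      apply intervalIntegral.integral_congr
      intro φ _
      simp only
      congr 1
      conv_rhs => rw [← Complex.re_add_im ζ]
      push_cast
      ring
    rw [e1]
    have h2 := hlap N hNa (fun φ => dn_loD_G N R w (ζ + φ * I) / dn_loD_G N R w ζ) (by
      apply Continuous.intervalIntegrable
      apply Continuous.div_const
      apply hc.comp
      fun_prop) (by
      intro φ hφ
      set u : ℂ := v * cexp (φ * I) with hu
      have hun : ‖cexp ((φ : ℂ) * I)‖ = 1 := Complex.norm_exp_ofReal_mul_I φ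
      have hu2 : ‖u‖ ≤ 1 + 2 * ε := by
        rw [hu, norm_mul, hun, mul_one]
        exact hvn
      have hd : ‖cexp ((φ : ℂ) * I) - 1‖ ≤ |φ| := by
        have := Real.norm_exp_I_mul_ofReal_sub_one_le (x := φ)
        rw [mul_comm] at this
        exact this
      have hure : 1 / 2 ≤ u.re := by
        have h3 : u = cexp ((φ : ℂ) * I) + (v - 1) * cexp ((φ : ℂ) * I) := by
          rw [hu]
          ring
        have h4 : |((v - 1) * cexp ((φ : ℂ) * I)).re| ≤ 2 * ε := by
          refine (Complex.abs_re_le_norm _).trans ?_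
          rw [norm_mul, hun, mul_one]
          exact hv1
        have h5 : (cexp ((φ : ℂ) * I)).re = Real.cos φ := Complex.exp_ofReal_mul_I_re φ
        have h6 := Real.one_sub_sq_div_two_le_cos (x := φ)
        have h7 : φ ^ 2 ≤ (3 / 4) ^ 2 := by
          rw [← sq_abs φ]
          exact pow_le_pow_left₀ (abs_nonneg _) hφ 2
        rw [h3, add_re, h5]
        rw [abs_le] at h4
        linarith
      obtain ⟨t1, t2, t3⟩ := habs u (by linarith) (by linarith)
      obtain ⟨-, -, E, hE1, hE2⟩ := htay ε N b Y R hε hN0 hb hR (w + v) (w + u) q1 q2 q3 t1 t2 t3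
      refine ⟨E, ?_, ?_⟩
      · refine hE1.trans ?_
        have h8 : ‖(w + u) - (w + v)‖ ≤ (1 + 2 * ε) * |φ| := by
          have : (w + u) - (w + v) = v * (cexp ((φ : ℂ) * I) - 1) := by
            rw [hu]
            ring
          rw [this, norm_mul]
          apply mul_le_mul hvn hd (norm_nonneg _) (by linarith)
        have h9 : ‖(w + u) - (w + v)‖ ^ 2 ≤ ((1 + 2 * ε) * |φ|) ^ 2 :=
          pow_le_pow_left₀ (norm_nonneg _) h8 2
        rw [mul_pow, sq_abs] at h9
        have h10 : (1 + 2 * ε) ^ 2 ≤ 5 / 4 := by nlinarith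
        have h11 : 0 ≤ φ ^ 2 := sq_nonneg φ
        calc 4 * ε * N * ‖(w + u) - (w + v)‖ ^ 2 ≤ 4 * ε * N * (5 / 4 * φ ^ 2) := by
              apply mul_le_mul_of_nonneg_left _ (by positivity)
              exact h9.trans (mul_le_mul_of_nonneg_right h10 h11)
          _ = (5 * ε) * (N * φ ^ 2) := by ring
          _ ≤ η * (N * φ ^ 2) := by
              apply mul_le_mul_of_nonneg_right hε2
              positivity
          _ = η * N * φ ^ 2 := by ring
      · rw [div_eq_iff hGζ]
        unfold dn_loD_G la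
        rw [Complex.exp_add ζ, hexpζ, ← hu, hE2]
        have h12 : ((N : ℂ) + qq R (w + v)) * v = N := by
          have := hv2
          field_simp at this
          linear_combination this
        have h13 : cexp ((N : ℂ) * (w + u)) * (R (w + v) * cexp (qq R (w + v) * (w + u - (w + v)) + E)) *
            cexp (-((N : ℂ) * (ζ + φ * I))) = R (w + v) * cexp ((N : ℂ) * (w + u) +
              (qq R (w + v) * (w + u - (w + v)) + E) + -((N : ℂ) * (ζ + φ * I))) :=
          dn_loD_e1 _ _ _ _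
        have h14 : cexp ((N : ℂ) * (cexp (φ * I) - 1 - φ * I) + E) *
            (cexp ((N : ℂ) * (w + v)) * R (w + v) * cexp (-((N : ℂ) * ζ))) =
            R (w + v) * cexp (((N : ℂ) * (cexp (φ * I) - 1 - φ * I) + E) + (N : ℂ) * (w + v) +
              -((N : ℂ) * ζ)) :=
          dn_loD_e2 _ _ _ _
        rw [h13, h14]
        congr 2
        rw [hu]
        linear_combination (cexp (φ * I) - 1) * h12)
    rw [intervalIntegral.integral_div, norm_div, le_div_iff₀ (norm_pos_iff.2 hGζ)] at h2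
    linarith
  -- the value at the saddle point
  have hval : Real.exp (N * (w.re + 1) - 3 * ε * N) * ‖R (w + 1)‖ ≤ ‖dn_loD_G N R w ζ‖ := by
    rw [dn_loD_norm, hexpζ]
    unfold la
    rw [norm_mul, Complex.norm_exp]
    have h1 : ‖R (w + 1)‖ ≤ Real.exp (ε * N * (2 * ε)) * ‖R (w + v)‖ := by
      have h2 := abs_le.1 hw3
      have h3 := hR.lin (w + v) (w + 1) (by linarith) (by linarith) (q3.trans (by linarith))
        (by simp; linarith) (by simp; linarith) (by
          simp only [add_im, one_im, add_zero]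
          rw [abs_le]
          constructor <;> linarith)
      refine h3.trans ?_
      apply mul_le_mul_of_nonneg_right _ (norm_nonneg _)
      apply Real.exp_le_exp.2
      apply mul_le_mul_of_nonneg_left _ (by positivity)
      rw [show w + 1 - (w + v) = -(v - 1) by ring, norm_neg]
      exact hv1
    have h4 : ζ.re ≤ v.re - 1 + 2 * ε := by
      have h5 : ζ.re = Real.log ‖v‖ := Complex.log_re v
      have h6 : Real.log ‖v‖ ≤ ‖v‖ - 1 := Real.log_le_sub_one_of_pos (norm_pos_iff.2 hv0)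
      have h7 : ‖v‖ ≤ |v.re| + |v.im| := Complex.norm_le_abs_re_add_abs_im v
      rw [abs_of_pos (by linarith : 0 < v.re)] at h7
      linarith
    have h8 : ((N : ℂ) * (w + v)).re = N * (w.re + v.re) := by
      simp
    rw [h8]
    calc Real.exp (N * (w.re + 1) - 3 * ε * N) * ‖R (w + 1)‖
        ≤ Real.exp (N * (w.re + 1) - 3 * ε * N) * (Real.exp (ε * N * (2 * ε)) * ‖R (w + v)‖) := by
          apply mul_le_mul_of_nonneg_left h1 (Real.exp_pos _).le
      _ = Real.exp ((N * (w.re + 1) - 3 * ε * N) + ε * N * (2 * ε)) * ‖R (w + v)‖ := by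
          rw [Real.exp_add]
          ring
      _ ≤ Real.exp (N * (w.re + v.re) + -(N * ζ.re)) * ‖R (w + v)‖ := by
          apply mul_le_mul_of_nonneg_right _ (norm_nonneg _)
          apply Real.exp_le_exp.2
          have h9 : N * ζ.re ≤ N * (v.re - 1 + 2 * ε) := mul_le_mul_of_nonneg_left h4 hN0.le
          have h10 : ε * N * (2 * ε) ≤ ε * N * 1 := by
            apply mul_le_mul_of_nonneg_left _ (by positivity)
            linarith
          linarith
      _ = Real.exp (N * (w.re + v.re)) * ‖R (w + v)‖ * Real.exp (-(N * ζ.re)) := by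
          rw [Real.exp_add]
          ring
  -- collect
  have hsplit : (∫ y in (-θ)..θ, dn_loD_G N R w (ζ.re + y * I)) =
      (∫ y in (-θ)..(ζ.im - 3 / 4), dn_loD_G N R w (ζ.re + y * I)) +
      (∫ y in (ζ.im - 3 / 4)..(ζ.im + 3 / 4), dn_loD_G N R w (ζ.re + y * I)) +
      ∫ y in (ζ.im + 3 / 4)..θ, dn_loD_G N R w (ζ.re + y * I) := by
    rw [intervalIntegral.integral_add_adjacent_intervals (hii _ _) (hii _ _),
      intervalIntegral.integral_add_adjacent_intervals (hii _ _) (hii _ _)]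
  have hs1 := hside (-θ) (by rw [abs_neg, abs_of_nonneg (by linarith)])
  have hs2 := hside θ (abs_of_nonneg (by linarith))
  set S1 := ∫ x in (0 : ℝ)..ζ.re, dn_loD_G N R w (x + ((-θ : ℝ) : ℂ) * I) with hS1
  set S2 := ∫ x in (0 : ℝ)..ζ.re, dn_loD_G N R w (x + (θ : ℂ) * I) with hS2
  set L := ∫ y in (-θ)..(ζ.im - 3 / 4), dn_loD_G N R w (ζ.re + y * I) with hL
  set M := ∫ y in (ζ.im - 3 / 4)..(ζ.im + 3 / 4), dn_loD_G N R w (ζ.re + y * I) with hM
  set P := ∫ y in (ζ.im + 3 / 4)..θ, dn_loD_G N R w (ζ.re + y * I) with hP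
  have hBD : BD N R θ w = L + M + P - I * (S1 - S2) := by
    rw [dn_loD_shift N R w hR.diff θ ζ.re, hsplit]
  have hMn : ‖M‖ ≤ ‖BD N R θ w‖ + ‖L‖ + ‖P‖ + ‖S1‖ + ‖S2‖ := by
    have e : M = BD N R θ w - L - P + I * (S1 - S2) := by
      rw [hBD]
      ring
    calc ‖M‖ = ‖BD N R θ w - L - P + I * (S1 - S2)‖ := by rw [← e]
      _ ≤ ‖BD N R θ w - L - P‖ + ‖I * (S1 - S2)‖ := norm_add_le _ _
      _ ≤ ‖BD N R θ w - L‖ + ‖P‖ + ‖I * (S1 - S2)‖ := by
          gcongr
          exact norm_sub_le _ _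
      _ ≤ ‖BD N R θ w‖ + ‖L‖ + ‖P‖ + ‖I * (S1 - S2)‖ := by
          gcongr
          exact norm_sub_le _ _
      _ ≤ ‖BD N R θ w‖ + ‖L‖ + ‖P‖ + (‖S1‖ + ‖S2‖) := by
          gcongr
          rw [norm_mul, Complex.norm_I, one_mul]
          exact norm_sub_le _ _
      _ = _ := by ring
  have hs : 0 < Real.sqrt N := Real.sqrt_pos.2 hN0
  have hnum := dn_loD_num N ε hNb hε hε1
  set X : ℝ := Real.exp (N * (w.re + 1)) * ‖R (w + 1)‖ with hX
  have hX0 : 0 ≤ X := by positivity
  have hE₀X : E₀ = X * Real.exp (-(N / 20) + 3 * ε * N) := by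
    rw [hE₀, hX, show N * (w.re + 1) - N / 20 + 3 * ε * N =
      N * (w.re + 1) + (-(N / 20) + 3 * ε * N) by ring, Real.exp_add]
    ring
  have hvalX : X * Real.exp (-(3 * ε * N)) ≤ ‖dn_loD_G N R w ζ‖ := by
    refine le_trans (le_of_eq ?_) hval
    rw [hX, show N * (w.re + 1) - 3 * ε * N = N * (w.re + 1) + -(3 * ε * N) by ring, Real.exp_add]
    ring
  have hM2 : X * Real.exp (-(3 * ε * N)) / Real.sqrt N ≤ ‖M‖ := by
    refine le_trans ?_ hnear
    rw [mul_one_div]
    exact div_le_div_of_nonneg_right hvalX hs.le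
  have herr : ‖L‖ + ‖P‖ + ‖S1‖ + ‖S2‖ ≤ 9 * E₀ := by
    have : E₀ * θ ≤ E₀ * 3.15 := mul_le_mul_of_nonneg_left (by linarith) hE₀0
    linarith
  have herr2 : 9 * E₀ ≤ X * Real.exp (-(3 * ε * N)) / (2 * Real.sqrt N) := by
    rw [hE₀X]
    calc 9 * (X * Real.exp (-(N / 20) + 3 * ε * N))
        = X * (9 * Real.exp (-(N / 20) + 3 * ε * N)) := by ring
      _ ≤ X * (Real.exp (-(3 * ε * N)) / (2 * Real.sqrt N)) := by
          apply mul_le_mul_of_nonneg_left hnum hX0
      _ = _ := by ring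
  have hhalf : X * Real.exp (-(3 * ε * N)) / Real.sqrt N =
      X * Real.exp (-(3 * ε * N)) / (2 * Real.sqrt N) +
        X * Real.exp (-(3 * ε * N)) / (2 * Real.sqrt N) := by
    field_simp
    ring
  have hfin : X * Real.exp (-(3 * ε * N)) / (2 * Real.sqrt N) ≤ ‖BD N R θ w‖ := by
    linarith
  refine le_trans ?_ hfin
  apply div_le_div_of_nonneg_right _ (by positivity)
  rw [hX, show N * (w.re + 1) - 5 * ε * N = N * (w.re + 1) + -(5 * ε * N) by ring, Real.exp_add]
  have h15 : Real.exp (-(5 * ε * N)) ≤ Real.exp (-(3 * ε * N)) := by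
    apply Real.exp_le_exp.2
    nlinarith
  calc Real.exp (N * (w.re + 1)) * Real.exp (-(5 * ε * N)) * ‖R (w + 1)‖
      = Real.exp (N * (w.re + 1)) * ‖R (w + 1)‖ * Real.exp (-(5 * ε * N)) := by ring
    _ ≤ Real.exp (N * (w.re + 1)) * ‖R (w + 1)‖ * Real.exp (-(3 * ε * N)) := by
        apply mul_le_mul_of_nonneg_left h15 hX0

end Pool.Agent.Lib.MP_cd509c_nt.DN
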