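import Pool.Agent.Lib.MP_cd509c_nt.DN.Defs

/-!
# Lower bound for the half-line Gaussian integral (contour shift)
-/

set_option autoImplicit false

namespace Pool.Agent.Lib.MP_cd509c_nt.DN

open Complex ComplexConjugate MeasureTheory Filter Topology

/-- the integrand -/
noncomputable def dn_loH_G (N : ℝ) (R : ℂ → ℂ) (w v : ℂ) : ℂ :=
  la N R v * cexp (-((N : ℂ) * (v - w) ^ 2 / 2))

lemma dn_loH_diff (N : ℝ) (R : ℂ → ℂ) (w : ℂ) (hR : Differentiable ℂ R) :
    Differentiable ℂ (dn_loH_G N R w) := by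
  unfold dn_loH_G la
  fun_prop

lemma dn_loH_norm (N : ℝ) (R : ℂ → ℂ) (w v : ℂ) :
    ‖dn_loH_G N R w v‖ =
      Real.exp (N * v.re - N * ((v.re - w.re) ^ 2 - (v.im - w.im) ^ 2) / 2) * ‖R v‖ := by
  unfold dn_loH_G la
  rw [norm_mul, norm_mul, Complex.norm_exp, Complex.norm_exp]
  have h1 : ((N : ℂ) * v).re = N * v.re := by simp
  have h2 : (-((N : ℂ) * (v - w) ^ 2 / 2)).re =
      -(N * ((v.re - w.re) ^ 2 - (v.im - w.im) ^ 2) / 2) := by
    have h3 : (N : ℂ) * (v - w) ^ 2 / 2 = ((N / 2 : ℝ) : ℂ) * (v - w) ^ 2 := by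
      push_cast
      ring
    rw [neg_re, h3, re_ofReal_mul]
    have h4 : ((v - w) ^ 2).re = (v.re - w.re) ^ 2 - (v.im - w.im) ^ 2 := by
      rw [sq, mul_re, sub_re, sub_im]
      ring
    rw [h4]
    ring
  rw [h1, h2, mul_right_comm, ← Real.exp_add]
  congr 2

lemma dn_loH_R {ε N b Y : ℝ} {R : ℂ → ℂ} (hε : 0 < ε) (hN : 0 < N) (hR : Reg ε N b Y R)
    (hY : 0 ≤ Y) {w v : ℂ} (h1 : b / 4 ≤ w.re) (h2 : w.re ≤ Y / 2) (h3 : |w.im| ≤ 20 * b)
    (h4 : 0 ≤ v.re) (h5 : |v.im| ≤ 20 * b) :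
    ‖R v‖ ≤ Real.exp (ε * N * (‖v - w‖ + ‖v - w‖ ^ 2)) * ‖R w‖ := by
  have hεN : 0 < ε * N := mul_pos hε hN
  rcases le_total v.re Y with h | h
  · refine (hR.lin w v h1 (by linarith) h3 h4 h h5).trans ?_
    have : ε * N * ‖v - w‖ ≤ ε * N * (‖v - w‖ + ‖v - w‖ ^ 2) := by
      apply mul_le_mul_of_nonneg_left _ hεN.le
      linarith [sq_nonneg ‖v - w‖]
    exact mul_le_mul_of_nonneg_right (Real.exp_le_exp.mpr this) (norm_nonneg _)
  · refine (hR.tail w v h1 h2 h3 h h5).trans ?_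
    have : ε * N * ‖v - w‖ ^ 2 ≤ ε * N * (‖v - w‖ + ‖v - w‖ ^ 2) := by
      apply mul_le_mul_of_nonneg_left _ hεN.le
      linarith [norm_nonneg (v - w)]
    exact mul_le_mul_of_nonneg_right (Real.exp_le_exp.mpr this) (norm_nonneg _)

/-- Gaussian decay of the integrand -/
lemma dn_loH_decay {ε N b Y : ℝ} {R : ℂ → ℂ} (hε : 0 < ε) (hε1 : ε ≤ 1 / 400) (hN : 0 < N)
    (hb : 1 ≤ b) (hY : 40 * b ≤ Y) (hR : Reg ε N b Y R) {w v : ℂ}
    (h1 : b / 4 - 3 / 8 ≤ w.re) (h2 : w.re ≤ Y / 2 - 2) (h3 : |w.im| ≤ 1 / 8)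
    (h4 : 0 ≤ v.re) (h5 : |v.im| ≤ 1 / 4) :
    ‖dn_loH_G N R w v‖ ≤ (Real.exp (N * (w.re + 1 / 2) + N) * ‖R (w + 1)‖) *
      Real.exp (-(N / 4) * (v.re - (w.re + 1)) ^ 2) := by
  rw [dn_loH_norm]
  have hr : (w + 1).re = w.re + 1 := by simp
  have hi : (w + 1).im = w.im := by simp
  have hRv := dn_loH_R (w := w + 1) (v := v) hε hN hR (by linarith) (by rw [hr]; linarith)
    (by rw [hr]; linarith) (by rw [hi]; linarith) h4 (by linarith)
  set x := v.re - (w.re + 1) with hx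
  set y := v.im - w.im with hy
  have hy1 : |y| ≤ 3 / 8 := by
    have := abs_sub v.im w.im
    rw [← hy] at this
    linarith
  have hn1 : ‖v - (w + 1)‖ ≤ |x| + |y| := by
    have := Complex.norm_le_abs_re_add_abs_im (v - (w + 1))
    rwa [sub_re, sub_im, hr, hi, ← hx, ← hy] at this
  have hn2 : ‖v - (w + 1)‖ ^ 2 = x ^ 2 + y ^ 2 := by
    rw [← Complex.normSq_eq_norm_sq, Complex.normSq_apply, sub_re, sub_im, hr, hi, ← hx, ← hy]
    ring
  have hy2 : y ^ 2 ≤ 9 / 64 := by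
    rw [← sq_abs]
    nlinarith [abs_nonneg y]
  have hx2 : |x| ≤ 1 + x ^ 2 := by
    rw [← sq_abs x]
    nlinarith [sq_nonneg (|x| - 1), abs_nonneg x]
  calc _ ≤ Real.exp (N * v.re - N * ((v.re - w.re) ^ 2 - y ^ 2) / 2) *
        (Real.exp (ε * N * (‖v - (w + 1)‖ + ‖v - (w + 1)‖ ^ 2)) * ‖R (w + 1)‖) :=
        mul_le_mul_of_nonneg_left hRv (Real.exp_nonneg _)
    _ = Real.exp (N * v.re - N * ((v.re - w.re) ^ 2 - y ^ 2) / 2 +
        ε * N * (‖v - (w + 1)‖ + ‖v - (w + 1)‖ ^ 2)) * ‖R (w + 1)‖ := by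
        rw [← mul_assoc, ← Real.exp_add]
    _ ≤ Real.exp (N * (w.re + 1 / 2) + N + -(N / 4) * x ^ 2) * ‖R (w + 1)‖ := by
        apply mul_le_mul_of_nonneg_right _ (norm_nonneg _)
        apply Real.exp_le_exp.mpr
        have e1 : N * v.re - N * ((v.re - w.re) ^ 2 - y ^ 2) / 2 =
            N * (w.re + 1 / 2 - x ^ 2 / 2 + y ^ 2 / 2) := by
          rw [hx]; ring
        have e2 : ε * (‖v - (w + 1)‖ + ‖v - (w + 1)‖ ^ 2) ≤
            1 / 400 * (1 + x ^ 2 + 3 / 8 + x ^ 2 + 9 / 64) := by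
          apply mul_le_mul hε1 _ (by positivity) (by norm_num)
          rw [hn2]
          linarith
        have e3 : ε * N * (‖v - (w + 1)‖ + ‖v - (w + 1)‖ ^ 2) ≤
            N * (1 / 400 * (1 + x ^ 2 + 3 / 8 + x ^ 2 + 9 / 64)) := by
          have := mul_le_mul_of_nonneg_left e2 hN.le
          calc _ = N * (ε * (‖v - (w + 1)‖ + ‖v - (w + 1)‖ ^ 2)) := by ring
            _ ≤ _ := this
        rw [e1]
        have e4 : N * (w.re + 1 / 2 - x ^ 2 / 2 + y ^ 2 / 2) +
            N * (1 / 400 * (1 + x ^ 2 + 3 / 8 + x ^ 2 + 9 / 64)) ≤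
            N * (w.re + 1 / 2 + 1 - x ^ 2 / 4) := by
          rw [← mul_add]
          apply mul_le_mul_of_nonneg_left _ hN.le
          nlinarith [sq_nonneg x]
        calc _ ≤ _ := add_le_add_right e3 _
          _ ≤ _ := e4
          _ = _ := by ring
    _ = _ := by
        rw [Real.exp_add]
        ring

/-- the contour shift -/
lemma dn_loH_shift (G : ℂ → ℂ) (hG : Differentiable ℂ G) (K c q h : ℝ) (hc : 0 < c)
    (hh : |h| ≤ 1 / 4)
    (hb : ∀ v : ℂ, 0 ≤ v.re → |v.im| ≤ 1 / 4 → ‖G v‖ ≤ K * Real.exp (-c * (v.re - q) ^ 2)) :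
    IntegrableOn (fun v : ℝ => G (v + h * I)) (Set.Ioi 0) ∧
    ∫ v in Set.Ioi (0 : ℝ), G v = I * (∫ t in (0 : ℝ)..h, G (t * I)) +
      ∫ v in Set.Ioi (0 : ℝ), G (v + h * I) := by
  have hdom : Integrable fun v : ℝ => K * Real.exp (-c * (v - q) ^ 2) := by
    have := (integrable_exp_neg_mul_sq hc).comp_sub_right q
    exact this.const_mul K
  have hint : ∀ t : ℝ, |t| ≤ 1 / 4 → IntegrableOn (fun v : ℝ => G (v + t * I)) (Set.Ioi 0) := by
    intro t ht
    refine Integrable.mono' hdom.integrableOn ?_ ?_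
    · have : Continuous fun v : ℝ => G (v + t * I) :=
        hG.continuous.comp (by fun_prop)
      exact this.aestronglyMeasurable
    · rw [ae_restrict_iff' measurableSet_Ioi]
      refine Eventually.of_forall fun v hv => ?_
      have hv' : (0 : ℝ) < v := hv
      have h1 : ((v : ℂ) + t * I).re = v := by simp
      have h2 : ((v : ℂ) + t * I).im = t := by simp
      have := hb (v + t * I) (by rw [h1]; exact hv'.le) (by rw [h2]; exact ht)
      rwa [h1] at this
  have hint0 : IntegrableOn (fun v : ℝ => G (v : ℂ)) (Set.Ioi 0) := by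
    have := hint 0 (by norm_num)
    simpa using this
  refine ⟨hint h hh, ?_⟩
  -- the rectangle
  have hrect : ∀ X : ℝ, (∫ x in (0 : ℝ)..X, G (x : ℂ)) - (∫ x in (0 : ℝ)..X, G (x + h * I)) +
      I * (∫ y in (0 : ℝ)..h, G (X + y * I)) - I * ∫ y in (0 : ℝ)..h, G (y * I) = 0 := by
    intro X
    have := Complex.integral_boundary_rect_eq_zero_of_differentiableOn G 0 (X + h * I)
      hG.differentiableOn
    simpa using this
  have t1 : Tendsto (fun X : ℝ => ∫ x in (0 : ℝ)..X, G (x : ℂ)) atTop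
      (𝓝 (∫ v in Set.Ioi (0 : ℝ), G v)) :=
    intervalIntegral_tendsto_integral_Ioi 0 hint0 tendsto_id
  have t2 : Tendsto (fun X : ℝ => ∫ x in (0 : ℝ)..X, G (x + h * I)) atTop
      (𝓝 (∫ v in Set.Ioi (0 : ℝ), G (v + h * I))) :=
    intervalIntegral_tendsto_integral_Ioi 0 (hint h hh) tendsto_id
  have t3 : Tendsto (fun X : ℝ => ∫ y in (0 : ℝ)..h, G (X + y * I)) atTop (𝓝 0) := by
    have hbd : ∀ X : ℝ, 0 ≤ X → ‖∫ y in (0 : ℝ)..h, G (X + y * I)‖ ≤
        K * Real.exp (-c * (X - q) ^ 2) * |h - 0| := by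
      intro X hX
      apply intervalIntegral.norm_integral_le_of_norm_le_const
      intro y hy
      have h1 : ((X : ℂ) + y * I).re = X := by simp
      have h2 : ((X : ℂ) + y * I).im = y := by simp
      have hy' : |y| ≤ 1 / 4 := by
        rcases le_total 0 h with h0 | h0
        · rw [Set.uIoc_of_le h0] at hy
          rw [abs_of_pos hy.1]
          rw [abs_of_nonneg h0] at hh
          linarith [hy.2]
        · rw [Set.uIoc_of_ge h0] at hy
          rw [abs_of_nonpos hy.2]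
          rw [abs_of_nonpos h0] at hh
          linarith [hy.1]
      have := hb (X + y * I) (by rw [h1]; exact hX) (by rw [h2]; exact hy')
      rwa [h1] at this
    have hlim : Tendsto (fun X : ℝ => K * Real.exp (-c * (X - q) ^ 2) * |h - 0|) atTop
        (𝓝 (K * 0 * |h - 0|)) := by
      apply Tendsto.mul_const
      apply Tendsto.const_mul
      apply Real.tendsto_exp_atBot.comp
      have h5 : Tendsto (fun X : ℝ => X - q) atTop atTop :=
        tendsto_atTop_add_const_right _ _ tendsto_id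
      have h6 : Tendsto (fun X : ℝ => (X - q) ^ 2) atTop atTop :=
        (tendsto_pow_atTop (by norm_num : (2 : ℕ) ≠ 0)).comp h5
      have h7 := h6.const_mul_atTop hc
      have h8 := tendsto_neg_atTop_atBot.comp h7
      refine h8.congr fun X => ?_
      simp only [Function.comp]
      ring
    rw [mul_zero, zero_mul] at hlim
    apply squeeze_zero_norm' _ hlim
    filter_upwards [eventually_ge_atTop (0 : ℝ)] with X hX using hbd X hX
  have t4 : Tendsto (fun X : ℝ => (∫ x in (0 : ℝ)..X, G (x : ℂ)) -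
      (∫ x in (0 : ℝ)..X, G (x + h * I)) +
      I * (∫ y in (0 : ℝ)..h, G (X + y * I)) - I * ∫ y in (0 : ℝ)..h, G (y * I)) atTop
      (𝓝 ((∫ v in Set.Ioi (0 : ℝ), G v) - (∫ v in Set.Ioi (0 : ℝ), G (v + h * I)) + I * 0 -
        I * ∫ y in (0 : ℝ)..h, G (y * I))) :=
    ((t1.sub t2).add (t3.const_mul I)).sub_const _
  have t5 : Tendsto (fun X : ℝ => (∫ x in (0 : ℝ)..X, G (x : ℂ)) -
      (∫ x in (0 : ℝ)..X, G (x + h * I)) +
      I * (∫ y in (0 : ℝ)..h, G (X + y * I)) - I * ∫ y in (0 : ℝ)..h, G (y * I)) atTop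
      (𝓝 0) := by
    simp only [hrect]
    exact tendsto_const_nhds
  have h9 := tendsto_nhds_unique t4 t5
  rw [mul_zero, add_zero] at h9
  linear_combination h9

/-- decay on the horizontal line through the saddle point, far from it -/
lemma dn_loH_far {ε N b Y : ℝ} {R : ℂ → ℂ} (hε : 0 < ε) (hε1 : ε ≤ 1 / 400) (hN : 0 < N)
    (hb : 1 ≤ b) (hY : 40 * b ≤ Y) (hR : Reg ε N b Y R) {w p : ℂ}
    (h1 : b / 4 - 3 / 8 ≤ w.re) (h2 : w.re ≤ Y / 2 - 2) (h3 : |w.im| ≤ 1 / 8)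
    (hp : ‖p - (w + 1)‖ ≤ ε) (v : ℝ) (hv : 0 ≤ v) (hvp : 1 / 4 ≤ |v - p.re|) :
    ‖dn_loH_G N R w (v + p.im * I)‖ ≤ (‖dn_loH_G N R w p‖ * Real.exp (-(N / 128))) *
      Real.exp (-(N / 8) * (v - p.re) ^ 2) := by
  have hr : (w + 1).re = w.re + 1 := by simp
  have hi : (w + 1).im = w.im := by simp
  have hpr : |p.re - (w.re + 1)| ≤ ε := by
    have := (Complex.abs_re_le_norm (p - (w + 1))).trans hp
    rwa [sub_re, hr] at this
  have hpi : |p.im - w.im| ≤ ε := by
    have := (Complex.abs_im_le_norm (p - (w + 1))).trans hp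
    rwa [sub_im, hi] at this
  have hpi2 : |p.im| ≤ 1 / 4 := by
    have := abs_sub_abs_le_abs_sub p.im w.im
    linarith
  have hpr2 := abs_le.mp hpr
  have g1 : ((v : ℂ) + p.im * I).re = v := by simp
  have g2 : ((v : ℂ) + p.im * I).im = p.im := by simp
  have hRv := dn_loH_R (w := p) (v := (v : ℂ) + p.im * I) hε hN hR (by linarith) (by linarith)
    (by linarith) (by linarith) (by rw [g1]; exact hv) (by rw [g2]; linarith)
  have hn : ‖(v : ℂ) + p.im * I - p‖ = |v - p.re| := by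
    have : (v : ℂ) + p.im * I - p = ((v - p.re : ℝ) : ℂ) := by
      apply Complex.ext <;> simp
    rw [this, Complex.norm_real, Real.norm_eq_abs]
  rw [hn] at hRv
  rw [dn_loH_norm, dn_loH_norm, g1, g2]
  set u := v - p.re with hu
  set δ := p.re - (w.re + 1) with hδ
  have e0 : -(δ * u) ≤ ε * |u| := by
    calc -(δ * u) ≤ |δ * u| := neg_le_abs _
      _ = |δ| * |u| := abs_mul _ _
      _ ≤ ε * |u| := mul_le_mul_of_nonneg_right hpr (abs_nonneg _)
  have e1 : |u| ≤ 4 * u ^ 2 := by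
    rw [← sq_abs]
    nlinarith [abs_nonneg u]
  have e2 : 1 / 16 ≤ u ^ 2 := by
    rw [← sq_abs]
    nlinarith [abs_nonneg u]
  have e3 : ε * |u| ≤ 1 / 100 * u ^ 2 := by
    calc ε * |u| ≤ 1 / 400 * (4 * u ^ 2) := mul_le_mul hε1 e1 (abs_nonneg _) (by norm_num)
      _ = _ := by ring
  have e4 : ε * (|u| + |u| ^ 2) ≤ 1 / 80 * u ^ 2 := by
    rw [sq_abs]
    calc ε * (|u| + u ^ 2) ≤ 1 / 400 * (4 * u ^ 2 + u ^ 2) :=
          mul_le_mul hε1 (by linarith) (by positivity) (by norm_num)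
      _ = _ := by ring
  calc _ ≤ Real.exp (N * v - N * ((v - w.re) ^ 2 - (p.im - w.im) ^ 2) / 2) *
        (Real.exp (ε * N * (|u| + |u| ^ 2)) * ‖R p‖) :=
        mul_le_mul_of_nonneg_left hRv (Real.exp_nonneg _)
    _ = Real.exp (N * v - N * ((v - w.re) ^ 2 - (p.im - w.im) ^ 2) / 2 +
        ε * N * (|u| + |u| ^ 2)) * ‖R p‖ := by
        rw [← mul_assoc, ← Real.exp_add]
    _ ≤ Real.exp ((N * p.re - N * ((p.re - w.re) ^ 2 - (p.im - w.im) ^ 2) / 2) + -(N / 128) +
        -(N / 8) * u ^ 2) * ‖R p‖ := by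
        apply mul_le_mul_of_nonneg_right _ (norm_nonneg _)
        apply Real.exp_le_exp.mpr
        have k1 : N * v - N * ((v - w.re) ^ 2 - (p.im - w.im) ^ 2) / 2 =
            (N * p.re - N * ((p.re - w.re) ^ 2 - (p.im - w.im) ^ 2) / 2) +
            N * (-(δ * u) - u ^ 2 / 2) := by
          rw [hδ, hu]; ring
        have k2 : ε * N * (|u| + |u| ^ 2) = N * (ε * (|u| + |u| ^ 2)) := by ring
        rw [k1, k2]
        have k3 : N * (-(δ * u) - u ^ 2 / 2) + N * (ε * (|u| + |u| ^ 2)) ≤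
            N * (-(1 / 128) + -(1 / 8) * u ^ 2) := by
          rw [← mul_add]
          apply mul_le_mul_of_nonneg_left _ hN.le
          nlinarith [sq_nonneg u]
        linarith
    _ = _ := by
        rw [Real.exp_add, Real.exp_add]
        ring

/-- the factorisation near the saddle point -/
lemma dn_loH_near (h_tay : S_tay) {ε N b Y : ℝ} {R : ℂ → ℂ} (hε : 0 < ε) (hε1 : ε ≤ 1 / 400)
    (hN : 0 < N)
    (hb : 1 ≤ b) (hY : 40 * b ≤ Y) (hR : Reg ε N b Y R) {w p : ℂ}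
    (h1 : b / 4 - 3 / 8 ≤ w.re) (h2 : w.re ≤ Y / 2 - 2) (h3 : |w.im| ≤ 1 / 8)
    (hp : ‖p - (w + 1)‖ ≤ ε) (hps : p = w + 1 + qq R p / N) (u : ℝ) (hu : |u| ≤ 1 / 4) :
    ∃ E : ℂ, ‖E‖ ≤ 4 * ε * N * u ^ 2 ∧
      dn_loH_G N R w (p + u) / dn_loH_G N R w p = cexp (-((N : ℂ) * (u : ℂ) ^ 2 / 2) + E) := by
  have hr : (w + 1).re = w.re + 1 := by simp
  have hi : (w + 1).im = w.im := by simp
  have hpr : |p.re - (w.re + 1)| ≤ ε := by
    have := (Complex.abs_re_le_norm (p - (w + 1))).trans hp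
    rwa [sub_re, hr] at this
  have hpi : |p.im - w.im| ≤ ε := by
    have := (Complex.abs_im_le_norm (p - (w + 1))).trans hp
    rwa [sub_im, hi] at this
  have hpi2 : |p.im| ≤ 1 / 4 := by
    have := abs_sub_abs_le_abs_sub p.im w.im
    linarith
  have hpr2 := abs_le.mp hpr
  have hu2 := abs_le.mp hu
  have g1 : (p + (u : ℂ)).re = p.re + u := by simp
  have g2 : (p + (u : ℂ)).im = p.im := by simp
  have hRp : R p ≠ 0 := hR.ne p (by linarith) (by linarith) (by linarith)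
  obtain ⟨-, -, E, hE, hE2⟩ := h_tay ε N b Y R hε hN hb hR p (p + u) (by linarith) (by linarith)
    (by linarith) (by rw [g1]; linarith) (by rw [g1]; linarith) (by rw [g2]; linarith)
  have hn : ‖p + (u : ℂ) - p‖ = |u| := by
    rw [add_sub_cancel_left, Complex.norm_real, Real.norm_eq_abs]
  rw [hn, sq_abs] at hE
  refine ⟨E, hE, ?_⟩
  have hNc : (N : ℂ) ≠ 0 := by exact_mod_cast hN.ne'
  have hq : (N : ℂ) * (p - w) = N + qq R p := by
    have : p - w = 1 + qq R p / N := by linear_combination hps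
    rw [this]
    field_simp
  have hden : dn_loH_G N R w p ≠ 0 := by
    unfold dn_loH_G la
    exact mul_ne_zero (mul_ne_zero (Complex.exp_ne_zero _) hRp) (Complex.exp_ne_zero _)
  rw [div_eq_iff hden]
  unfold dn_loH_G la
  rw [hE2, add_sub_cancel_left]
  have e1 : cexp ((N : ℂ) * (p + u)) * (R p * cexp (qq R p * u + E)) *
      cexp (-((N : ℂ) * (p + u - w) ^ 2 / 2)) =
      R p * cexp ((N : ℂ) * (p + u) + (qq R p * u + E) + -((N : ℂ) * (p + u - w) ^ 2 / 2)) := by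
    rw [Complex.exp_add ((N : ℂ) * (p + u) + (qq R p * u + E)),
      Complex.exp_add ((N : ℂ) * (p + u))]
    ring
  have e2 : cexp (-((N : ℂ) * (u : ℂ) ^ 2 / 2) + E) * (cexp ((N : ℂ) * p) * R p *
      cexp (-((N : ℂ) * (p - w) ^ 2 / 2))) =
      R p * cexp (-((N : ℂ) * (u : ℂ) ^ 2 / 2) + E + (N : ℂ) * p + -((N : ℂ) * (p - w) ^ 2 / 2)) := by
    rw [Complex.exp_add (-((N : ℂ) * (u : ℂ) ^ 2 / 2) + E + (N : ℂ) * p),
      Complex.exp_add (-((N : ℂ) * (u : ℂ) ^ 2 / 2) + E)]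
    ring
  rw [e1, e2]
  congr 2
  linear_combination (-(u : ℂ)) * hq

/-- the vertical part -/
lemma dn_loH_vert {ε N b Y : ℝ} {R : ℂ → ℂ} (hε : 0 < ε) (hε1 : ε ≤ 1 / 400) (hN : 0 < N)
    (hb : 1 ≤ b) (hY : 40 * b ≤ Y) (hR : Reg ε N b Y R) {w : ℂ}
    (h1 : b / 4 - 3 / 8 ≤ w.re) (h2 : w.re ≤ Y / 2 - 2) (h3 : |w.im| ≤ 1 / 8)
    (t : ℝ) (ht : |t| ≤ 1 / 4) (ht2 : |t - w.im| ≤ 1 / 8) :
    ‖dn_loH_G N R w (t * I)‖ ≤ Real.exp (-(N / 4)) *
      (Real.exp (N * (w.re + 1 / 2)) * ‖R (w + 1)‖) := by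
  have hr : (w + 1).re = w.re + 1 := by simp
  have hi : (w + 1).im = w.im := by simp
  have g1 : ((t : ℂ) * I).re = 0 := by simp
  have g2 : ((t : ℂ) * I).im = t := by simp
  have hRv := hR.lin (w + 1) (t * I) (by rw [hr]; linarith) (by rw [hr]; linarith)
    (by rw [hi]; linarith) (by rw [g1]) (by rw [g1]; linarith) (by rw [g2]; linarith)
  rw [dn_loH_norm, g1, g2]
  have hn : ‖(t : ℂ) * I - (w + 1)‖ ≤ (w.re + 1) + 1 / 8 := by
    have := Complex.norm_le_abs_re_add_abs_im ((t : ℂ) * I - (w + 1))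
    rw [sub_re, sub_im, hr, hi, g1, g2, zero_sub, abs_neg, abs_of_nonneg (by linarith)] at this
    linarith
  have hsq : (t - w.im) ^ 2 ≤ 1 / 64 := by
    rw [← sq_abs]
    nlinarith [abs_nonneg (t - w.im)]
  calc _ ≤ Real.exp (N * 0 - N * ((0 - w.re) ^ 2 - (t - w.im) ^ 2) / 2) *
        (Real.exp (ε * N * ‖(t : ℂ) * I - (w + 1)‖) * ‖R (w + 1)‖) :=
        mul_le_mul_of_nonneg_left hRv (Real.exp_nonneg _)
    _ = Real.exp (N * 0 - N * ((0 - w.re) ^ 2 - (t - w.im) ^ 2) / 2 +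
        ε * N * ‖(t : ℂ) * I - (w + 1)‖) * ‖R (w + 1)‖ := by
        rw [← mul_assoc, ← Real.exp_add]
    _ ≤ Real.exp (-(N / 4) + N * (w.re + 1 / 2)) * ‖R (w + 1)‖ := by
        apply mul_le_mul_of_nonneg_right _ (norm_nonneg _)
        apply Real.exp_le_exp.mpr
        have k1 : ε * N * ‖(t : ℂ) * I - (w + 1)‖ ≤ N * (1 / 400 * ((w.re + 1) + 1 / 8)) := by
          calc _ = N * (ε * ‖(t : ℂ) * I - (w + 1)‖) := by ring
            _ ≤ _ := mul_le_mul_of_nonneg_left
              (mul_le_mul hε1 hn (norm_nonneg _) (by norm_num)) hN.le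
        have k2 : N * 0 - N * ((0 - w.re) ^ 2 - (t - w.im) ^ 2) / 2 =
            N * (-(w.re ^ 2) / 2 + (t - w.im) ^ 2 / 2) := by ring
        have k3 : N * (-(w.re ^ 2) / 2 + (t - w.im) ^ 2 / 2) +
            N * (1 / 400 * ((w.re + 1) + 1 / 8)) ≤ N * (-(1 / 4) + (w.re + 1 / 2)) := by
          rw [← mul_add]
          apply mul_le_mul_of_nonneg_left _ hN.le
          nlinarith [sq_nonneg (w.re + 1 / 8)]
        rw [k2]
        linarith
    _ = _ := by
        rw [Real.exp_add]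
        ring

/-- the size at the saddle point -/
lemma dn_loH_size {ε N b Y : ℝ} {R : ℂ → ℂ} (hε : 0 < ε) (hε1 : ε ≤ 1 / 400) (hN : 0 < N)
    (hb : 1 ≤ b) (hY : 40 * b ≤ Y) (hR : Reg ε N b Y R) {w p : ℂ}
    (h1 : b / 4 - 3 / 8 ≤ w.re) (h2 : w.re ≤ Y / 2 - 2) (h3 : |w.im| ≤ 1 / 8)
    (hp : ‖p - (w + 1)‖ ≤ ε) :
    Real.exp (-(3 * ε * N)) * (Real.exp (N * (w.re + 1 / 2)) * ‖R (w + 1)‖) ≤
      ‖dn_loH_G N R w p‖ := by
  have hr : (w + 1).re = w.re + 1 := by simp
  have hi : (w + 1).im = w.im := by simp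
  have hpr : |p.re - (w.re + 1)| ≤ ε := by
    have := (Complex.abs_re_le_norm (p - (w + 1))).trans hp
    rwa [sub_re, hr] at this
  have hpi : |p.im - w.im| ≤ ε := by
    have := (Complex.abs_im_le_norm (p - (w + 1))).trans hp
    rwa [sub_im, hi] at this
  have hpi2 : |p.im| ≤ 1 / 4 := by
    have := abs_sub_abs_le_abs_sub p.im w.im
    linarith
  have hpr2 := abs_le.mp hpr
  have hRv := hR.lin p (w + 1) (by linarith) (by linarith)
    (by linarith) (by rw [hr]; linarith) (by rw [hr]; linarith) (by rw [hi]; linarith)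
  rw [dn_loH_norm]
  rw [norm_sub_rev] at hRv
  have hsq : (p.re - (w.re + 1)) ^ 2 ≤ ε * ε := by
    rw [← sq_abs]
    nlinarith [abs_nonneg (p.re - (w.re + 1))]
  calc _ ≤ Real.exp (-(3 * ε * N)) * (Real.exp (N * (w.re + 1 / 2)) *
        (Real.exp (ε * N * ‖p - (w + 1)‖) * ‖R p‖)) := by gcongr
    _ = Real.exp (-(3 * ε * N) + N * (w.re + 1 / 2) + ε * N * ‖p - (w + 1)‖) * ‖R p‖ := by
        rw [Real.exp_add, Real.exp_add]
        ring
    _ ≤ _ := by
        apply mul_le_mul_of_nonneg_right _ (norm_nonneg _)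
        apply Real.exp_le_exp.mpr
        have k1 : ε * N * ‖p - (w + 1)‖ ≤ N * (ε * ε) := by
          calc _ = N * (ε * ‖p - (w + 1)‖) := by ring
            _ ≤ _ := mul_le_mul_of_nonneg_left (mul_le_mul_of_nonneg_left hp hε.le) hN.le
        have k2 : N * p.re - N * ((p.re - w.re) ^ 2 - (p.im - w.im) ^ 2) / 2 =
            N * ((w.re + 1 / 2) - (p.re - (w.re + 1)) ^ 2 / 2 + (p.im - w.im) ^ 2 / 2) := by ring
        have k3 : -(3 * ε * N) + N * (w.re + 1 / 2) =
            N * ((w.re + 1 / 2) - 3 * ε) := by ring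
        rw [k2, k3]
        have k4 : N * ((w.re + 1 / 2) - 3 * ε) + N * (ε * ε) ≤
            N * ((w.re + 1 / 2) - (p.re - (w.re + 1)) ^ 2 / 2 + (p.im - w.im) ^ 2 / 2) := by
          rw [← mul_add]
          apply mul_le_mul_of_nonneg_left _ hN.le
          nlinarith [sq_nonneg (p.im - w.im)]
        linarith

/-- far sets -/
lemma dn_loH_farInt (F : ℝ → ℂ) (A a N : ℝ) (hA : 0 ≤ A) (hN : 0 < N) (S : Set ℝ)
    (hS : MeasurableSet S)
    (hF : ∀ v ∈ S, ‖F v‖ ≤ (A * Real.exp (-(N / 128))) * Real.exp (-(N / 8) * (v - a) ^ 2)) :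
    ‖∫ v in S, F v‖ ≤ A * Real.exp (-(N / 128)) * (6 / Real.sqrt N) := by
  have hN8 : 0 < N / 8 := by positivity
  have hg : Integrable fun v : ℝ => (A * Real.exp (-(N / 128))) *
      Real.exp (-(N / 8) * (v - a) ^ 2) :=
    ((integrable_exp_neg_mul_sq hN8).comp_sub_right a).const_mul _
  have h1 : ‖∫ v in S, F v‖ ≤ ∫ v in S, (A * Real.exp (-(N / 128))) *
      Real.exp (-(N / 8) * (v - a) ^ 2) := by
    apply norm_integral_le_of_norm_le hg.integrableOn
    rw [ae_restrict_iff' hS]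
    exact Eventually.of_forall hF
  have h2 : ∫ v in S, (A * Real.exp (-(N / 128))) * Real.exp (-(N / 8) * (v - a) ^ 2) ≤
      ∫ v : ℝ, (A * Real.exp (-(N / 128))) * Real.exp (-(N / 8) * (v - a) ^ 2) := by
    apply setIntegral_le_integral hg
    exact Eventually.of_forall fun v => by positivity
  have h3 : ∫ v : ℝ, (A * Real.exp (-(N / 128))) * Real.exp (-(N / 8) * (v - a) ^ 2) =
      A * Real.exp (-(N / 128)) * Real.sqrt (Real.pi / (N / 8)) := by
    rw [integral_const_mul]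
    congr 1
    rw [integral_sub_right_eq_self (fun v : ℝ => Real.exp (-(N / 8) * v ^ 2)) a]
    exact integral_gaussian (N / 8)
  have h4 : Real.sqrt (Real.pi / (N / 8)) ≤ 6 / Real.sqrt N := by
    have : (6 : ℝ) / Real.sqrt N = Real.sqrt (36 / N) := by
      rw [Real.sqrt_div (by norm_num)]
      congr 1
      rw [show (36 : ℝ) = 6 ^ 2 by norm_num, Real.sqrt_sq (by norm_num)]
    rw [this]
    apply Real.sqrt_le_sqrt
    rw [div_div_eq_mul_div]
    apply div_le_div_of_nonneg_right _ hN.le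
    linarith [Real.pi_lt_four]
  calc _ ≤ _ := h1
    _ ≤ _ := h2
    _ = _ := h3
    _ ≤ _ := mul_le_mul_of_nonneg_left h4 (by positivity)

theorem p_loH (h_tay : S_tay) (h_lapH : S_lapH) (h_sadH : S_sadH) : S_loH := by
  obtain ⟨η, N₀, hη, hN₀, hlap⟩ := h_lapH
  refine ⟨min (1 / 400) (η / 4), max N₀ 10000, by positivity, le_max_of_le_left hN₀, ?_⟩
  intro ε N b Y R w hε hε' hN' hb hY hR h1 h2 h3
  have hε1 : ε ≤ 1 / 400 := hε'.trans (min_le_left _ _)
  have hε2 : ε ≤ η / 4 := hε'.trans (min_le_right _ _)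
  have hNN₀ : N₀ ≤ N := (le_max_left _ _).trans hN'
  have hN2 : (10000 : ℝ) ≤ N := (le_max_right _ _).trans hN'
  have hN : 0 < N := by linarith
  obtain ⟨p, hp, hps⟩ := h_sadH ε N b Y R hε hε1 hN hb hY hR w h1 (by linarith) (by linarith)
  have hr : (w + 1).re = w.re + 1 := by simp
  have hi : (w + 1).im = w.im := by simp
  have hpr : |p.re - (w.re + 1)| ≤ ε := by
    have := (Complex.abs_re_le_norm (p - (w + 1))).trans hp
    rwa [sub_re, hr] at this
  have hpi : |p.im - w.im| ≤ ε := by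
    have := (Complex.abs_im_le_norm (p - (w + 1))).trans hp
    rwa [sub_im, hi] at this
  have hpi2 : |p.im| ≤ 1 / 4 := by
    have := abs_sub_abs_le_abs_sub p.im w.im
    linarith
  have hpr2 := abs_le.mp hpr
  have hRp : R p ≠ 0 := hR.ne p (by linarith) (by linarith) (by linarith)
  have hden : dn_loH_G N R w p ≠ 0 := by
    unfold dn_loH_G la
    exact mul_ne_zero (mul_ne_zero (Complex.exp_ne_zero _) hRp) (Complex.exp_ne_zero _)
  have hdiff := dn_loH_diff N R w hR.diff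
  -- the shift
  obtain ⟨hint, hshift⟩ := dn_loH_shift (dn_loH_G N R w) hdiff
    (Real.exp (N * (w.re + 1 / 2) + N) * ‖R (w + 1)‖) (N / 4) (w.re + 1) p.im (by positivity)
    hpi2 (fun v hv1 hv2 => dn_loH_decay hε hε1 hN hb hY hR h1 h2 h3 hv1 hv2)
  have hBH : BH N R w = ∫ v in Set.Ioi (0 : ℝ), dn_loH_G N R w v := rfl
  set F : ℝ → ℂ := fun v => dn_loH_G N R w (v + p.im * I) with hF
  set a : ℝ := p.re with ha
  have hcont : Continuous F := hdiff.continuous.comp (by fun_prop)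
  -- decomposition
  have d1 : ∫ v in Set.Ioi (0 : ℝ), F v = (∫ v in (0 : ℝ)..(a - 1 / 4), F v) +
      ∫ v in Set.Ioi (a - 1 / 4), F v := by
    symm
    apply intervalIntegral.integral_interval_add_Ioi hint
    exact hint.mono_set (Set.Ioi_subset_Ioi (by linarith))
  have d2 : ∫ v in Set.Ioi (a - 1 / 4), F v = (∫ v in (a - 1 / 4)..(a + 1 / 4), F v) +
      ∫ v in Set.Ioi (a + 1 / 4), F v := by
    symm
    apply intervalIntegral.integral_interval_add_Ioi
    · exact hint.mono_set (Set.Ioi_subset_Ioi (by linarith))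
    · exact hint.mono_set (Set.Ioi_subset_Ioi (by linarith))
  -- near part
  have hnear : ‖dn_loH_G N R w p‖ / Real.sqrt N ≤ ‖∫ v in (a - 1 / 4)..(a + 1 / 4), F v‖ := by
    have hQ := hlap N hNN₀ (fun u : ℝ => dn_loH_G N R w (p + u) / dn_loH_G N R w p)
      (by
        apply Continuous.intervalIntegrable
        exact (hdiff.continuous.comp (by fun_prop)).div_const _)
      (fun u hu => by
        obtain ⟨E, hE, hE2⟩ := dn_loH_near h_tay hε hε1 hN hb hY hR h1 h2 h3 hp hps u hu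
        refine ⟨E, hE.trans ?_, hE2⟩
        have : 4 * ε ≤ η := by linarith
        apply mul_le_mul_of_nonneg_right _ (sq_nonneg _)
        exact mul_le_mul_of_nonneg_right this hN.le)
    have hc : ∫ u in (-(1 / 4) : ℝ)..(1 / 4), dn_loH_G N R w (p + u) / dn_loH_G N R w p =
        (∫ v in (a - 1 / 4)..(a + 1 / 4), F v) / dn_loH_G N R w p := by
      rw [intervalIntegral.integral_div]
      congr 1
      have := intervalIntegral.integral_comp_add_left F a (a := -(1 / 4)) (b := 1 / 4)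
      rw [sub_eq_add_neg a, ← this]
      apply intervalIntegral.integral_congr
      intro u _
      simp only [hF]
      congr 1
      apply Complex.ext <;> simp [ha]
    rw [hc, norm_div, le_div_iff₀ (norm_pos_iff.mpr hden)] at hQ
    calc _ = 1 / Real.sqrt N * ‖dn_loH_G N R w p‖ := by ring
      _ ≤ _ := hQ
  -- far parts
  have hfar1 : ‖∫ v in (0 : ℝ)..(a - 1 / 4), F v‖ ≤
      ‖dn_loH_G N R w p‖ * Real.exp (-(N / 128)) * (6 / Real.sqrt N) := by
    rw [intervalIntegral.integral_of_le (by linarith)]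
    apply dn_loH_farInt F _ a N (norm_nonneg _) hN _ measurableSet_Ioc
    intro v hv
    apply dn_loH_far hε hε1 hN hb hY hR h1 h2 h3 hp v hv.1.le
    rw [abs_of_nonpos (by linarith [hv.2])]
    linarith [hv.2]
  have hfar2 : ‖∫ v in Set.Ioi (a + 1 / 4), F v‖ ≤
      ‖dn_loH_G N R w p‖ * Real.exp (-(N / 128)) * (6 / Real.sqrt N) := by
    apply dn_loH_farInt F _ a N (norm_nonneg _) hN _ measurableSet_Ioi
    intro v hv
    have hv' : a + 1 / 4 < v := hv
    apply dn_loH_far hε hε1 hN hb hY hR h1 h2 h3 hp v (by linarith)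
    rw [abs_of_nonneg (by linarith)]
    linarith
  -- vertical part
  have hvert : ‖∫ t in (0 : ℝ)..p.im, dn_loH_G N R w (t * I)‖ ≤
      (Real.exp (-(N / 4)) * (Real.exp (N * (w.re + 1 / 2)) * ‖R (w + 1)‖)) * |p.im - 0| := by
    apply intervalIntegral.norm_integral_le_of_norm_le_const
    intro t ht
    have hpi3 := abs_le.mp hpi
    have hpi4 := abs_le.mp hpi2
    have h3' := abs_le.mp h3
    apply dn_loH_vert hε hε1 hN hb hY hR h1 h2 h3
    · rcases le_total 0 p.im with h0 | h0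
      · rw [Set.uIoc_of_le h0] at ht
        rw [abs_le]
        constructor <;> linarith [ht.1, ht.2]
      · rw [Set.uIoc_of_ge h0] at ht
        rw [abs_le]
        constructor <;> linarith [ht.1, ht.2]
    · rcases le_total 0 p.im with h0 | h0
      · rw [Set.uIoc_of_le h0] at ht
        rw [abs_le]
        constructor <;> linarith [ht.1, ht.2]
      · rw [Set.uIoc_of_ge h0] at ht
        rw [abs_le]
        constructor <;> linarith [ht.1, ht.2]
  have hsize := dn_loH_size hε hε1 hN hb hY hR h1 h2 h3 hp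
  set A := ‖dn_loH_G N R w p‖ with hA
  set M := Real.exp (N * (w.re + 1 / 2)) * ‖R (w + 1)‖ with hM
  have hA0 : 0 ≤ A := norm_nonneg _
  have hM0 : 0 ≤ M := by positivity
  have hs0 : 0 < Real.sqrt N := Real.sqrt_pos.mpr hN
  -- numerical bounds
  have n1 : Real.exp (-(N / 128)) ≤ 1 / 48 := by
    rw [Real.exp_neg, inv_eq_one_div]
    apply one_div_le_one_div_of_le (by norm_num)
    have := Real.add_one_le_exp (N / 128)
    linarith
  have n2 : Real.exp (-(N / 4)) ≤ Real.exp (-(3 * ε * N)) * (1 / Real.sqrt N) := by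
    have k1 : Real.sqrt N ≤ Real.exp (N / 8) := by
      have e1 := Real.add_one_le_exp (N / 8)
      have e2 : Real.sqrt N ≤ N / 8 := by
        rw [Real.sqrt_le_left (by positivity)]
        nlinarith
      linarith
    have k2 : Real.exp (-(N / 8)) ≤ 1 / Real.sqrt N := by
      rw [Real.exp_neg, inv_eq_one_div]
      exact one_div_le_one_div_of_le hs0 k1
    calc Real.exp (-(N / 4)) = Real.exp (-(N / 8)) * Real.exp (-(N / 8)) := by
          rw [← Real.exp_add]
          congr 1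
          ring
      _ ≤ Real.exp (-(3 * ε * N)) * (1 / Real.sqrt N) := by
          apply mul_le_mul _ k2 (Real.exp_nonneg _) (Real.exp_nonneg _)
          apply Real.exp_le_exp.mpr
          have : 3 * ε * N ≤ 1 / 8 * N := mul_le_mul_of_nonneg_right (by linarith) hN.le
          linarith
  have v1 : ‖I * ∫ t in (0 : ℝ)..p.im, dn_loH_G N R w (t * I)‖ ≤
      1 / 4 * (Real.exp (-(3 * ε * N)) * (1 / Real.sqrt N) * M) := by
    rw [norm_mul, Complex.norm_I, one_mul]
    refine hvert.trans ?_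
    rw [sub_zero, mul_comm]
    apply mul_le_mul hpi2 _ (by positivity) (by norm_num)
    exact mul_le_mul_of_nonneg_right n2 hM0
  have f1 : A * Real.exp (-(N / 128)) * (6 / Real.sqrt N) ≤ 1 / 8 * (A / Real.sqrt N) := by
    have : A * Real.exp (-(N / 128)) * (6 / Real.sqrt N) =
        (Real.exp (-(N / 128)) * 6) * (A / Real.sqrt N) := by ring
    rw [this]
    apply mul_le_mul_of_nonneg_right _ (by positivity)
    linarith
  have hAM : Real.exp (-(3 * ε * N)) * M / Real.sqrt N ≤ A / Real.sqrt N :=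
    div_le_div_of_nonneg_right hsize hs0.le
  have htri : ‖∫ v in (a - 1 / 4)..(a + 1 / 4), F v‖ ≤ ‖BH N R w‖ +
      ‖I * ∫ t in (0 : ℝ)..p.im, dn_loH_G N R w (t * I)‖ +
      ‖∫ v in (0 : ℝ)..(a - 1 / 4), F v‖ + ‖∫ v in Set.Ioi (a + 1 / 4), F v‖ := by
    have : (∫ v in (a - 1 / 4)..(a + 1 / 4), F v) = BH N R w -
        (I * ∫ t in (0 : ℝ)..p.im, dn_loH_G N R w (t * I)) -
        (∫ v in (0 : ℝ)..(a - 1 / 4), F v) - ∫ v in Set.Ioi (a + 1 / 4), F v := by
      rw [hBH, hshift, d1, d2]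
      ring
    rw [this]
    refine (norm_sub_le _ _).trans ?_
    gcongr
    refine (norm_sub_le _ _).trans ?_
    gcongr
    exact norm_sub_le _ _
  have hgoal : Real.exp (N * (w.re + 1 / 2) - 3 * ε * N) * ‖R (w + 1)‖ / (2 * Real.sqrt N) =
      1 / 2 * (Real.exp (-(3 * ε * N)) * M / Real.sqrt N) := by
    rw [sub_eq_add_neg, Real.exp_add, hM]
    field_simp
  rw [hgoal]
  have e5 : Real.exp (-(3 * ε * N)) * (1 / Real.sqrt N) * M =
      Real.exp (-(3 * ε * N)) * M / Real.sqrt N := by ring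
  rw [e5] at v1
  linarith

end Pool.Agent.Lib.MP_cd509c_nt.DN
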