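import Pool.Agent.Lib.MP_cd509c_nt.DN.Defs2

set_option autoImplicit false

namespace Pool.Agent.Lib.MP_cd509c_nt.DN

open Complex ComplexConjugate MeasureTheory

theorem dn_locF_term (C κ : ℝ) (hC : 0 < C) (hκ : 0 < κ)
    (h : ∀ n : ℕ, 1 ≤ n → ‖tau n‖ ≤ C * (n : ℝ) ^ (6 - κ)) (p : ℕ) (hp : 2 ≤ p) (j : ℕ) :
    ‖tau (p ^ j)‖ ^ 2 / (p : ℝ) ^ (12 * j) ≤ C ^ 2 * ((2 : ℝ) ^ (-(2 * κ))) ^ j := by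
  have hp0 : (0 : ℝ) < p := by
    have : 0 < p := by omega
    exact_mod_cast this
  have hp2 : (2 : ℝ) ≤ p := by exact_mod_cast hp
  have h1 : 1 ≤ p ^ j := Nat.one_le_pow _ _ (by omega)
  have h2 := h (p ^ j) h1
  have h3 : ‖tau (p ^ j)‖ ^ 2 ≤ (C * ((p ^ j : ℕ) : ℝ) ^ (6 - κ)) ^ 2 :=
    pow_le_pow_left₀ (norm_nonneg _) h2 2
  have h4 : (0 : ℝ) < (p : ℝ) ^ (12 * j) := pow_pos hp0 _
  rw [div_le_iff₀ h4]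
  refine h3.trans ?_
  have e1 : ((p ^ j : ℕ) : ℝ) ^ (6 - κ) = (p : ℝ) ^ ((j : ℝ) * (6 - κ)) := by
    push_cast
    rw [← Real.rpow_natCast, ← Real.rpow_mul hp0.le]
  have e2 : (((p ^ j : ℕ) : ℝ) ^ (6 - κ)) ^ 2 = (p : ℝ) ^ (12 * j) * ((p : ℝ) ^ (-(2 * κ))) ^ j := by
    rw [e1, ← Real.rpow_natCast, ← Real.rpow_mul hp0.le, ← Real.rpow_natCast (p : ℝ) (12 * j),
      ← Real.rpow_natCast ((p : ℝ) ^ (-(2 * κ))), ← Real.rpow_mul hp0.le, ← Real.rpow_add hp0]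
    congr 1
    push_cast
    ring
  rw [mul_pow, e2]
  have h5 : (p : ℝ) ^ (-(2 * κ)) ≤ (2 : ℝ) ^ (-(2 * κ)) :=
    Real.rpow_le_rpow_of_nonpos (by norm_num) hp2 (by linarith)
  have h6 : ((p : ℝ) ^ (-(2 * κ))) ^ j ≤ ((2 : ℝ) ^ (-(2 * κ))) ^ j :=
    pow_le_pow_left₀ (Real.rpow_nonneg hp0.le _) h5 j
  calc C ^ 2 * ((p : ℝ) ^ (12 * j) * ((p : ℝ) ^ (-(2 * κ))) ^ j)
      ≤ C ^ 2 * ((p : ℝ) ^ (12 * j) * ((2 : ℝ) ^ (-(2 * κ))) ^ j) := by gcongr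
    _ = C ^ 2 * ((2 : ℝ) ^ (-(2 * κ))) ^ j * (p : ℝ) ^ (12 * j) := by ring

theorem p_locF (h : S_cb) : S_locF := by
  obtain ⟨C, κ, hC, hκ, h⟩ := h
  have hr0 : (0 : ℝ) ≤ (2 : ℝ) ^ (-(2 * κ)) := Real.rpow_nonneg (by norm_num) _
  have hr1 : (2 : ℝ) ^ (-(2 * κ)) < 1 :=
    Real.rpow_lt_one_of_one_lt_of_neg (by norm_num) (by linarith)
  have hpos : 0 < 1 - (2 : ℝ) ^ (-(2 * κ)) := by linarith
  refine ⟨C ^ 2 * (1 - (2 : ℝ) ^ (-(2 * κ)))⁻¹, by positivity, ?_⟩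
  intro p hp
  have hg : Summable fun j : ℕ => C ^ 2 * ((2 : ℝ) ^ (-(2 * κ))) ^ j :=
    (summable_geometric_of_lt_one hr0 hr1).mul_left _
  have hle : ∀ j : ℕ, ‖tau (p ^ j)‖ ^ 2 / (p : ℝ) ^ (12 * j) ≤
      C ^ 2 * ((2 : ℝ) ^ (-(2 * κ))) ^ j :=
    fun j => dn_locF_term C κ hC hκ h p hp.two_le j
  have hs : Summable fun j : ℕ => ‖tau (p ^ j)‖ ^ 2 / (p : ℝ) ^ (12 * j) :=
    Summable.of_nonneg_of_le (fun j => by positivity) hle hg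
  refine ⟨hs, ?_⟩
  calc ∑' j : ℕ, ‖tau (p ^ j)‖ ^ 2 / (p : ℝ) ^ (12 * j)
      ≤ ∑' j : ℕ, C ^ 2 * ((2 : ℝ) ^ (-(2 * κ))) ^ j := hs.tsum_le_tsum hle hg
    _ = C ^ 2 * (1 - (2 : ℝ) ^ (-(2 * κ)))⁻¹ := by
      rw [tsum_mul_left, tsum_geometric_of_lt_one hr0 hr1]

end Pool.Agent.Lib.MP_cd509c_nt.DN
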