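import Pool.Agent.Lib.MP_cd509c_nt.DN.Defs2

/-!
# Piece maj: a majorant of the coefficients, uniform in the weight
-/

set_option autoImplicit false

namespace Pool.Agent.Lib.MP_cd509c_nt.DN

open Complex ComplexConjugate MeasureTheory

/-- Cauchy-Schwarz with a weight. -/
private theorem dn_maj_cs (φ a : ℝ → ℝ) (hφ : ∀ x, 0 ≤ φ x) (h0 : Integrable φ)
    (h1 : Integrable fun x => φ x * a x) (h2 : Integrable fun x => φ x * a x ^ 2) :
    (∫ x, φ x * a x) ^ 2 ≤ (∫ x, φ x) * ∫ x, φ x * a x ^ 2 := by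
  have hq : ∀ t : ℝ, 0 ≤ (∫ x, φ x) * (t * t) + (-2 * ∫ x, φ x * a x) * t + ∫ x, φ x * a x ^ 2 := by
    intro t
    have h3 : ∫ x, φ x * (a x - t) ^ 2 =
        (∫ x, φ x) * (t * t) + (-2 * ∫ x, φ x * a x) * t + ∫ x, φ x * a x ^ 2 := by
      have h4 : (fun x => φ x * (a x - t) ^ 2) =
          fun x => φ x * (t * t) + (-2 * t) * (φ x * a x) + φ x * a x ^ 2 := by
        funext x
        ring
      have h5 : Integrable fun x => φ x * (t * t) := h0.mul_const _
      have h6 : Integrable fun x => (-2 * t) * (φ x * a x) := h1.const_mul _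
      have h7 : Integrable fun x => φ x * (t * t) + (-2 * t) * (φ x * a x) := h5.add h6
      rw [h4, integral_add h7 h2, integral_add h5 h6, integral_mul_const, integral_const_mul]
      ring
    rw [← h3]
    exact integral_nonneg fun x => mul_nonneg (hφ x) (sq_nonneg _)
  have h := discrim_le_zero hq
  unfold discrim at h
  nlinarith

/-- the weight -/
private noncomputable def dn_maj_w (A ξ : ℝ) : ℝ := (2 + |ξ|) ^ (-A)

private theorem dn_maj_w_nonneg (A ξ : ℝ) : 0 ≤ dn_maj_w A ξ :=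
  Real.rpow_nonneg (by positivity) _

private theorem dn_maj_w_cont (A : ℝ) : Continuous (dn_maj_w A) := by
  unfold dn_maj_w
  exact Continuous.rpow_const (by fun_prop) fun x => Or.inl (by positivity)

private theorem dn_maj_w_int {A : ℝ} (hA : 1 < A) : Integrable (dn_maj_w A) := by
  have h := integrable_one_add_norm (E := ℝ) (μ := volume) (r := A) (by simpa using hA)
  refine h.mono' (dn_maj_w_cont A).aestronglyMeasurable (Filter.Eventually.of_forall fun x => ?_)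
  rw [Real.norm_of_nonneg (dn_maj_w_nonneg A x)]
  unfold dn_maj_w
  exact Real.rpow_le_rpow_of_nonpos (by positivity) (by rw [Real.norm_eq_abs]; linarith) (by linarith)

private theorem dn_maj_pow {X : ℝ} {d : ℕ} (hd : 1 ≤ d) (ξ : ℝ) :
    (d : ℂ) ^ (-((1 + ξ * I) / Real.log X)) =
      cexp (-((1 + ξ * I) * ((Real.log d / Real.log X : ℝ) : ℂ))) := by
  have hd0 : (d : ℂ) ≠ 0 := by exact_mod_cast (by omega : d ≠ 0)
  rw [Complex.cpow_def_of_ne_zero hd0, ← Complex.natCast_log]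
  congr 1
  push_cast
  ring

private theorem dn_maj_pow_norm {X : ℝ} (hX : 2 ≤ X) {d : ℕ} (hd : 1 ≤ d) (ξ : ℝ) :
    ‖(d : ℂ) ^ (-((1 + ξ * I) / Real.log X))‖ ≤ 1 := by
  have hL : 0 < Real.log X := Real.log_pos (by linarith)
  have hd' : 0 ≤ Real.log d := Real.log_nonneg (by exact_mod_cast hd)
  rw [dn_maj_pow hd, Complex.norm_exp, Real.exp_le_one_iff]
  have h : 0 ≤ Real.log d / Real.log X := div_nonneg hd' hL.le
  simp only [Complex.neg_re, Complex.mul_re, Complex.add_re, Complex.one_re, Complex.ofReal_re,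
    Complex.I_re, mul_zero, Complex.ofReal_im, Complex.I_im, mul_one, sub_self, add_zero,
    Complex.add_im, Complex.one_im, Complex.mul_im, zero_add, sub_zero]
  linarith

/-- the coefficients are continuous functions of `ξ`. -/
private theorem dn_maj_ad_cont (X : ℝ) (k : ℕ) :
    Continuous fun ξ : ℝ => ad ((1 + ξ * I) / Real.log X) k := by
  unfold ad
  refine continuous_finsetSum _ fun d hd => ?_
  have hd1 : 1 ≤ d := Nat.pos_of_mem_divisors hd
  have h : (fun ξ : ℝ => (d : ℂ) ^ (-((1 + ξ * I) / Real.log X))) = fun ξ : ℝ =>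
      cexp (-((1 + ξ * I) * ((Real.log d / Real.log X : ℝ) : ℂ))) := by
    funext ξ
    exact dn_maj_pow hd1 ξ
  have h' : Continuous fun ξ : ℝ => (d : ℂ) ^ (-((1 + ξ * I) / Real.log X)) := by
    rw [h]
    fun_prop
  exact (continuous_const.mul h').mul continuous_const

/-- and bounded. -/
private theorem dn_maj_ad_bd {X : ℝ} (hX : 2 ≤ X) (k : ℕ) (ξ : ℝ) :
    ‖ad ((1 + ξ * I) / Real.log X) k‖ ≤ ∑ d ∈ k.divisors, ‖muf d‖ * ‖tau (k / d)‖ := by
  unfold ad
  refine (norm_sum_le _ _).trans (Finset.sum_le_sum fun d hd => ?_)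
  have hd1 : 1 ≤ d := Nat.pos_of_mem_divisors hd
  rw [norm_mul, norm_mul]
  have h := mul_le_mul_of_nonneg_left (dn_maj_pow_norm hX hd1 ξ) (norm_nonneg (muf d))
  rw [mul_one] at h
  exact mul_le_mul_of_nonneg_right h (norm_nonneg _)

private theorem dn_maj_int {A X : ℝ} (hA : 1 < A) (hX : 2 ≤ X) (k : ℕ) (j : ℕ) :
    Integrable fun ξ : ℝ => dn_maj_w A ξ * ‖ad ((1 + ξ * I) / Real.log X) k‖ ^ j := by
  refine ((dn_maj_w_int hA).mul_const ((∑ d ∈ k.divisors, ‖muf d‖ * ‖tau (k / d)‖) ^ j)).mono'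
    ((dn_maj_w_cont A).mul ((dn_maj_ad_cont X k).norm.pow j)).aestronglyMeasurable
    (Filter.Eventually.of_forall fun x => ?_)
  rw [Real.norm_of_nonneg (mul_nonneg (dn_maj_w_nonneg A x) (by positivity))]
  exact mul_le_mul_of_nonneg_left (pow_le_pow_left₀ (norm_nonneg _) (dn_maj_ad_bd hX k x) j)
    (dn_maj_w_nonneg A x)

/-- The coefficients `gW` as integrals. -/
private theorem dn_maj_gW {A X K : ℝ} {W : ℝ → ℂ} {w : ℝ → ℂ} (hA : 1 < A) (hX : 2 ≤ X)
    (hw : Continuous w) (hwb : ∀ ξ : ℝ, ‖w ξ‖ ≤ K * (2 + |ξ|) ^ (-A))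
    (hW : ∀ u : ℝ, 0 ≤ u → W u = ∫ ξ : ℝ, w ξ * cexp (-((1 + ξ * I) * u))) (k : ℕ) :
    gW W X k = ∫ ξ : ℝ, w ξ * ad ((1 + ξ * I) / Real.log X) k := by
  have hL : 0 < Real.log X := Real.log_pos (by linarith)
  have hint : ∀ d ∈ k.divisors, Integrable fun ξ : ℝ =>
      w ξ * (muf d * (d : ℂ) ^ (-((1 + ξ * I) / Real.log X)) * tau (k / d)) := by
    intro d hd
    have hd1 : 1 ≤ d := Nat.pos_of_mem_divisors hd
    have h : (fun ξ : ℝ => (d : ℂ) ^ (-((1 + ξ * I) / Real.log X))) = fun ξ : ℝ =>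
        cexp (-((1 + ξ * I) * ((Real.log d / Real.log X : ℝ) : ℂ))) := by
      funext ξ
      exact dn_maj_pow hd1 ξ
    have h' : Continuous fun ξ : ℝ => (d : ℂ) ^ (-((1 + ξ * I) / Real.log X)) := by
      rw [h]
      fun_prop
    refine (((dn_maj_w_int hA).const_mul K).mul_const (‖muf d‖ * ‖tau (k / d)‖)).mono'
      (hw.mul ((continuous_const.mul h').mul continuous_const)).aestronglyMeasurable
      (Filter.Eventually.of_forall fun ξ => ?_)
    rw [norm_mul, norm_mul, norm_mul]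
    have h1 := hwb ξ
    have h2 := mul_le_mul_of_nonneg_left (dn_maj_pow_norm hX hd1 ξ) (norm_nonneg (muf d))
    rw [mul_one] at h2
    have h3 := mul_le_mul_of_nonneg_right h2 (norm_nonneg (tau (k / d)))
    exact mul_le_mul h1 h3 (by positivity) ((norm_nonneg _).trans h1)
  have h1 : ∫ ξ : ℝ, w ξ * ad ((1 + ξ * I) / Real.log X) k =
      ∑ d ∈ k.divisors, ∫ ξ : ℝ,
        w ξ * (muf d * (d : ℂ) ^ (-((1 + ξ * I) / Real.log X)) * tau (k / d)) := by
    rw [← integral_finsetSum _ hint]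
    refine integral_congr_ae (Filter.Eventually.of_forall fun ξ => ?_)
    simp only [ad, Finset.mul_sum]
  rw [h1]
  unfold gW
  refine Finset.sum_congr rfl fun d hd => ?_
  have hd1 : 1 ≤ d := Nat.pos_of_mem_divisors hd
  have hd' : 0 ≤ Real.log d := Real.log_nonneg (by exact_mod_cast hd1)
  rw [hW _ (div_nonneg hd' hL.le)]
  have h2 : ∫ ξ : ℝ, w ξ * (muf d * (d : ℂ) ^ (-((1 + ξ * I) / Real.log X)) * tau (k / d)) =
      (muf d * tau (k / d)) * ∫ ξ : ℝ, w ξ * cexp (-((1 + ξ * I) *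
        ((Real.log d / Real.log X : ℝ) : ℂ))) := by
    rw [← integral_const_mul]
    refine integral_congr_ae (Filter.Eventually.of_forall fun ξ => ?_)
    simp only [dn_maj_pow hd1 ξ]
    ring
  rw [h2]
  ring

theorem p_maj : S_E1 → S_maj := by
  rintro ⟨A₁, hA₁, hE⟩
  set A : ℝ := A₁ + 2 with hAdef
  have hA : 1 < A := by linarith
  set c : ℝ := ∫ ξ : ℝ, dn_maj_w A ξ with hc
  have hc0 : 0 ≤ c := integral_nonneg fun ξ => dn_maj_w_nonneg A ξ
  refine ⟨A, fun X k => c * ∫ ξ : ℝ, dn_maj_w A ξ * ‖ad ((1 + ξ * I) / Real.log X) k‖ ^ 2, hA.le,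
    ?_, ?_, ?_⟩
  · intro X k
    exact mul_nonneg hc0 (integral_nonneg fun ξ => mul_nonneg (dn_maj_w_nonneg A ξ) (by positivity))
  · rintro X K W hX hK ⟨w, hw, hwb, hW⟩ k _
    rw [dn_maj_gW hA hX hw hwb hW k]
    have h1 : ‖∫ ξ : ℝ, w ξ * ad ((1 + ξ * I) / Real.log X) k‖ ≤
        K * ∫ ξ : ℝ, dn_maj_w A ξ * ‖ad ((1 + ξ * I) / Real.log X) k‖ := by
      rw [← integral_const_mul]
      have hi := (dn_maj_int hA hX k 1).const_mul K
      simp only [pow_one] at hi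
      refine norm_integral_le_of_norm_le hi (Filter.Eventually.of_forall fun ξ => ?_)
      rw [norm_mul, ← mul_assoc]
      exact mul_le_mul_of_nonneg_right (hwb ξ) (norm_nonneg _)
    have h2 := dn_maj_cs (dn_maj_w A) (fun ξ => ‖ad ((1 + ξ * I) / Real.log X) k‖)
      (dn_maj_w_nonneg A) (dn_maj_w_int hA)
      (by simpa only [pow_one] using dn_maj_int hA hX k 1) (dn_maj_int hA hX k 2)
    calc ‖∫ ξ : ℝ, w ξ * ad ((1 + ξ * I) / Real.log X) k‖ ^ 2
        ≤ (K * ∫ ξ : ℝ, dn_maj_w A ξ * ‖ad ((1 + ξ * I) / Real.log X) k‖) ^ 2 :=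
          pow_le_pow_left₀ (norm_nonneg _) h1 2
      _ = K ^ 2 * (∫ ξ : ℝ, dn_maj_w A ξ * ‖ad ((1 + ξ * I) / Real.log X) k‖) ^ 2 := by ring
      _ ≤ _ := mul_le_mul_of_nonneg_left h2 (by positivity)
  · intro θ hθ hθ1
    obtain ⟨C, hC, hCE⟩ := hE θ hθ hθ1
    set c2 : ℝ := ∫ ξ : ℝ, dn_maj_w 2 ξ with hc2
    have hc20 : 0 ≤ c2 := integral_nonneg fun ξ => dn_maj_w_nonneg 2 ξ
    refine ⟨c * (C * c2) + 1, by positivity, ?_⟩
    intro X hX
    have hnn : ∀ k : ℕ, 0 ≤ (c * ∫ ξ : ℝ, dn_maj_w A ξ * ‖ad ((1 + ξ * I) / Real.log X) k‖ ^ 2) *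
        (k : ℝ) ^ (-(12 + θ / Real.log X)) := fun k =>
      mul_nonneg (mul_nonneg hc0 (integral_nonneg fun ξ =>
        mul_nonneg (dn_maj_w_nonneg A ξ) (by positivity))) (Real.rpow_nonneg (Nat.cast_nonneg _) _)
    have hfin : ∀ s : Finset ℕ, ∑ k ∈ s,
        (c * ∫ ξ : ℝ, dn_maj_w A ξ * ‖ad ((1 + ξ * I) / Real.log X) k‖ ^ 2) *
          (k : ℝ) ^ (-(12 + θ / Real.log X)) ≤ c * (C * c2) := by
      intro s
      have h1 : ∑ k ∈ s,
          (c * ∫ ξ : ℝ, dn_maj_w A ξ * ‖ad ((1 + ξ * I) / Real.log X) k‖ ^ 2) *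
            (k : ℝ) ^ (-(12 + θ / Real.log X)) =
          c * ∫ ξ : ℝ, dn_maj_w A ξ * ∑ k ∈ s, ‖ad ((1 + ξ * I) / Real.log X) k‖ ^ 2 *
            (k : ℝ) ^ (-(12 + θ / Real.log X)) := by
        have h2 : ∀ k ∈ s, Integrable fun ξ : ℝ =>
            dn_maj_w A ξ * ‖ad ((1 + ξ * I) / Real.log X) k‖ ^ 2 *
              (k : ℝ) ^ (-(12 + θ / Real.log X)) := fun k _ => (dn_maj_int hA hX k 2).mul_const _
        have h3 : ∫ ξ : ℝ, dn_maj_w A ξ * ∑ k ∈ s, ‖ad ((1 + ξ * I) / Real.log X) k‖ ^ 2 *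
            (k : ℝ) ^ (-(12 + θ / Real.log X)) =
            ∑ k ∈ s, ∫ ξ : ℝ, dn_maj_w A ξ * ‖ad ((1 + ξ * I) / Real.log X) k‖ ^ 2 *
              (k : ℝ) ^ (-(12 + θ / Real.log X)) := by
          rw [← integral_finsetSum _ h2]
          refine integral_congr_ae (Filter.Eventually.of_forall fun ξ => ?_)
          simp only [Finset.mul_sum, mul_assoc]
        rw [h3, Finset.mul_sum]
        refine Finset.sum_congr rfl fun k _ => ?_
        rw [integral_mul_const]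
        ring
      rw [h1]
      refine mul_le_mul_of_nonneg_left ?_ hc0
      rw [hc2, ← integral_const_mul]
      refine integral_mono_of_nonneg (Filter.Eventually.of_forall fun ξ => ?_)
        ((dn_maj_w_int (by norm_num : (1 : ℝ) < 2)).const_mul C)
        (Filter.Eventually.of_forall fun ξ => ?_)
      · exact mul_nonneg (dn_maj_w_nonneg A ξ) (Finset.sum_nonneg fun k _ =>
          mul_nonneg (by positivity) (Real.rpow_nonneg (Nat.cast_nonneg _) _))
      · obtain ⟨hs, hle⟩ := hCE X ξ hX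
        have h4 : ∑ k ∈ s, ‖ad ((1 + ξ * I) / Real.log X) k‖ ^ 2 *
            (k : ℝ) ^ (-(12 + θ / Real.log X)) ≤ C * (2 + |ξ|) ^ A₁ :=
          (hs.sum_le_tsum s fun k _ =>
            mul_nonneg (by positivity) (Real.rpow_nonneg (Nat.cast_nonneg _) _)).trans hle
        have h5 : dn_maj_w A ξ * (C * (2 + |ξ|) ^ A₁) = C * dn_maj_w 2 ξ := by
          unfold dn_maj_w
          have h6 : (2 + |ξ|) ^ (-A) * (2 + |ξ|) ^ A₁ = (2 + |ξ|) ^ (-2 : ℝ) := by
            rw [← Real.rpow_add (by positivity)]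
            congr 1
            rw [hAdef]
            ring
          calc (2 + |ξ|) ^ (-A) * (C * (2 + |ξ|) ^ A₁) = C * ((2 + |ξ|) ^ (-A) * (2 + |ξ|) ^ A₁) := by
                ring
            _ = _ := by rw [h6]
        exact (mul_le_mul_of_nonneg_left h4 (dn_maj_w_nonneg A ξ)).trans h5.le
    refine ⟨summable_of_sum_le hnn hfin, ?_⟩
    exact (Real.tsum_le_of_sum_le hnn hfin).trans (by linarith)

end Pool.Agent.Lib.MP_cd509c_nt.DN
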