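import Pool.Agent.Lib.MP_cd509c_nt.DN.Defs

set_option autoImplicit false

/-!
# MP_cd509c_nt, project DN, piece mb: the number of bad intervals
-/

open Complex

namespace Pool.Agent.Lib.MP_cd509c_nt.DN

/-- If the two pointwise bounds hold in the window, the point is good. -/
theorem dn_mb_good (ε ε' x b l : ℝ) (M : ℂ → ℂ) (hε : ε' ≤ ε) (hb : 0 < b) (hl : 0 ≤ l)
    (h1 : ∀ w : ℂ, b / 8 ≤ w.re → w.re ≤ 400 * b → |w.im - x| ≤ 400 * b →
      ‖LL w * M w - 1‖ ≤ 1 / 2)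
    (h2 : ∀ w v : ℂ, 0 ≤ w.re → w.re ≤ 400 * b → |w.im - x| ≤ 400 * b →
      b / 8 ≤ v.re → v.re ≤ 400 * b → |v.im - x| ≤ 400 * b →
      ‖LL w‖ * ‖M v‖ ≤ 1 / 2 * Real.exp (ε' * b * l)) :
    Good ε x b l := by
  intro w w₀ hw0 hw1 hw2 hv0 hv1 hv2
  have e1 := h1 w₀ hv0 hv1 hv2
  have e2 := h2 w w₀ hw0 hw1 hw2 hv0 hv1 hv2
  have e3 : 1 / 2 ≤ ‖LL w₀‖ * ‖M w₀‖ := by
    rw [← norm_mul]
    have h3 : ‖(1 : ℂ)‖ ≤ ‖LL w₀ * M w₀‖ + ‖LL w₀ * M w₀ - 1‖ := by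
      have h4 : (1 : ℂ) = LL w₀ * M w₀ - (LL w₀ * M w₀ - 1) := by ring
      calc ‖(1 : ℂ)‖ = ‖LL w₀ * M w₀ - (LL w₀ * M w₀ - 1)‖ := by rw [← h4]
        _ ≤ _ := norm_sub_le _ _
    rw [norm_one] at h3
    linarith
  have e4 : LL w₀ ≠ 0 := by
    intro h
    rw [h, norm_zero, zero_mul] at e3
    linarith
  refine ⟨e4, ?_⟩
  have e5 : Real.exp (ε' * b * l) ≤ Real.exp (ε * b * l) := by
    apply Real.exp_le_exp.mpr
    have : 0 ≤ b * l := by positivity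
    nlinarith
  have hM : 0 < ‖M w₀‖ := by
    rcases (norm_nonneg (M w₀)).lt_or_eq with h | h
    · exact h
    · exfalso
      rw [← h, mul_zero] at e3
      linarith
  have e6 : ‖LL w‖ * ‖M w₀‖ ≤ (Real.exp (ε * b * l) * ‖LL w₀‖) * ‖M w₀‖ := by
    calc ‖LL w‖ * ‖M w₀‖ ≤ 1 / 2 * Real.exp (ε' * b * l) := e2
      _ ≤ 1 / 2 * Real.exp (ε * b * l) := by linarith
      _ ≤ (‖LL w₀‖ * ‖M w₀‖) * Real.exp (ε * b * l) :=
        mul_le_mul_of_nonneg_right e3 (Real.exp_pos _).le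
      _ = (Real.exp (ε * b * l) * ‖LL w₀‖) * ‖M w₀‖ := by ring
  exact le_of_mul_le_mul_right e6 hM

theorem p_mb (F : ℝ → ℝ) (hF : ∀ T, 2 ≤ T → 0 ≤ F T) (h1 : S_cnt1 F) (h2 : S_cnt2 F) :
    S_mb F := by
  classical
  intro ε B hε hB
  obtain ⟨θ₁, hθ₁, h1⟩ := h1
  obtain ⟨θ₂, C₁, hθ₂, hC₁, h2⟩ := h2
  set ε' : ℝ := min ε 1 with hε'
  have hε'0 : 0 < ε' := lt_min hε one_pos
  have hC₁0 : 0 < C₁ := by linarith
  set θ : ℝ := min (min θ₁ θ₂) (ε' / C₁) with hθ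
  have hθ0 : 0 < θ := lt_min (lt_min hθ₁ hθ₂) (by positivity)
  have hθa : θ ≤ θ₁ := (min_le_left _ _).trans (min_le_left _ _)
  have hθb : θ ≤ θ₂ := (min_le_left _ _).trans (min_le_right _ _)
  have hθc : C₁ * θ ≤ ε' := by
    have : θ ≤ ε' / C₁ := min_le_right _ _
    calc C₁ * θ ≤ C₁ * (ε' / C₁) := mul_le_mul_of_nonneg_left this hC₁0.le
      _ = ε' := by field_simp
  obtain ⟨Ca, ca, Ta, hCa, hca, hTa, h1⟩ := h1 θ B hθ0 hθa hB
  obtain ⟨Cb, Tb, hCb, hTb, h2⟩ := h2 ε' θ B hε'0 (min_le_right _ _) hθ0 hθb hθc hB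
  refine ⟨Ca + Cb, min ca (ε' / 2), max Ta Tb, by positivity, lt_min hca (by positivity),
    hTa.trans (le_max_left _ _), ?_⟩
  intro T hT b hb hbB S hS
  have hTa' : Ta ≤ T := (le_max_left _ _).trans hT
  have hTb' : Tb ≤ T := (le_max_right _ _).trans hT
  have hT2 : 2 ≤ T := hTa.trans hTa'
  have hT0 : 0 < T := by linarith
  have hl : 0 < Real.log T := Real.log_pos (by linarith)
  set P1 : ℤ → Prop := fun k => ∃ w : ℂ, b / 8 ≤ w.re ∧
      w.re ≤ 400 * b ∧ (k - 400) * b ≤ w.im ∧ w.im ≤ (k + 401) * b ∧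
      1 / 2 < ‖LL w * Mol (T ^ θ) w - 1‖ with hP1
  set P2 : ℤ → Prop := fun k => ∃ w v : ℂ, 0 ≤ w.re ∧
      w.re ≤ 400 * b ∧ (k - 400) * b ≤ w.im ∧ w.im ≤ (k + 401) * b ∧ b / 8 ≤ v.re ∧
      v.re ≤ 400 * b ∧ (k - 400) * b ≤ v.im ∧ v.im ≤ (k + 401) * b ∧
      1 / 2 * Real.exp (ε' * b * Real.log T) < ‖LL w‖ * ‖Mol (T ^ θ) v‖ with hP2
  have c1 := h1 T hTa' b hb hbB (S.filter P1) (by
    intro k hk
    rw [Finset.mem_filter] at hk
    exact ⟨(hS k hk.1).1, (hS k hk.1).2.1, hk.2⟩)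
  have c2 := h2 T hTb' b hb hbB (S.filter P2) (by
    intro k hk
    rw [Finset.mem_filter] at hk
    exact ⟨(hS k hk.1).1, (hS k hk.1).2.1, hk.2⟩)
  have hsub : S ⊆ S.filter P1 ∪ S.filter P2 := by
    intro k hk
    rw [Finset.mem_union, Finset.mem_filter, Finset.mem_filter]
    by_contra hcon
    rw [not_or, not_and, not_and] at hcon
    have n1 := hcon.1 hk
    have n2 := hcon.2 hk
    obtain ⟨-, -, x, hx, hbad⟩ := hS k hk
    rw [Set.mem_Icc] at hx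
    apply hbad
    have win : ∀ w : ℂ, |w.im - x| ≤ 400 * b → (k - 400) * b ≤ w.im ∧ w.im ≤ (k + 401) * b := by
      intro w hw
      rw [abs_le] at hw
      constructor
      · nlinarith [hx.1, hx.2, hw.1, hw.2]
      · nlinarith [hx.1, hx.2, hw.1, hw.2]
    apply dn_mb_good ε ε' x b (Real.log T) (fun w => Mol (T ^ θ) w) (min_le_left _ _) hb hl.le
    · intro w hw1 hw2 hw3
      by_contra hc
      rw [not_le] at hc
      exact n1 ⟨w, hw1, hw2, (win w hw3).1, (win w hw3).2, hc⟩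
    · intro w v hw1 hw2 hw3 hv1 hv2 hv3
      by_contra hc
      rw [not_le] at hc
      exact n2 ⟨w, v, hw1, hw2, (win w hw3).1, (win w hw3).2, hv1, hv2, (win v hv3).1,
        (win v hv3).2, hc⟩
  have hcard : (S.card : ℝ) ≤ ((S.filter P1).card : ℝ) + ((S.filter P2).card : ℝ) := by
    exact_mod_cast (Finset.card_le_card hsub).trans (Finset.card_union_le _ _)
  have hbl : 0 ≤ b * Real.log T := by positivity
  have hFT : 0 ≤ F T * (T / b) := mul_nonneg (hF T hT2) (by positivity)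
  have x1 : Real.exp (-(ca * b * Real.log T)) ≤
      Real.exp (-(min ca (ε' / 2) * b * Real.log T)) := by
    apply Real.exp_le_exp.mpr
    have : min ca (ε' / 2) ≤ ca := min_le_left _ _
    nlinarith
  have x2 : Real.exp (-(ε' / 2 * b * Real.log T)) ≤
      Real.exp (-(min ca (ε' / 2) * b * Real.log T)) := by
    apply Real.exp_le_exp.mpr
    have : min ca (ε' / 2) ≤ ε' / 2 := min_le_right _ _
    nlinarith
  have y1 : Ca * F T * (T / b) * Real.exp (-(ca * b * Real.log T)) ≤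
      Ca * (F T * (T / b)) * Real.exp (-(min ca (ε' / 2) * b * Real.log T)) := by
    have : Ca * F T * (T / b) = Ca * (F T * (T / b)) := by ring
    rw [this]
    exact mul_le_mul_of_nonneg_left x1 (mul_nonneg hCa.le hFT)
  have y2 : Cb * F T * (T / b) * Real.exp (-(ε' / 2 * b * Real.log T)) ≤
      Cb * (F T * (T / b)) * Real.exp (-(min ca (ε' / 2) * b * Real.log T)) := by
    have : Cb * F T * (T / b) = Cb * (F T * (T / b)) := by ring
    rw [this]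
    exact mul_le_mul_of_nonneg_left x2 (mul_nonneg hCb.le hFT)
  calc (S.card : ℝ) ≤ _ := hcard
    _ ≤ Ca * (F T * (T / b)) * Real.exp (-(min ca (ε' / 2) * b * Real.log T)) +
        Cb * (F T * (T / b)) * Real.exp (-(min ca (ε' / 2) * b * Real.log T)) := by
          linarith
    _ = (Ca + Cb) * F T * (T / b) * Real.exp (-(min ca (ε' / 2) * b * Real.log T)) := by ring

end Pool.Agent.Lib.MP_cd509c_nt.DN
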