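import Mathlib
import Pool.Agent.Lib.MP_cd509c_nt.DN.Defs2

/-!
# Piece mert: Mertens type upper bound for the squares of the coefficients of Delta
-/

set_option autoImplicit false

namespace Pool.Agent.Lib.MP_cd509c_nt.DN

open Complex ComplexConjugate MeasureTheory

/-- the summand of the Rankin-Selberg series -/
noncomputable def dn_mert_F (x : ℝ) (n : ℕ) : ℝ := ‖tau n‖ ^ 2 / (n : ℝ) ^ (11 + x)

lemma dn_mert_F_nonneg (x : ℝ) (n : ℕ) : 0 ≤ dn_mert_F x n := by
  unfold dn_mert_F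
  positivity

lemma dn_mert_F_zero {x : ℝ} (hx : 1 < x) : dn_mert_F x 0 = 0 := by
  unfold dn_mert_F
  rw [Nat.cast_zero, Real.zero_rpow (by linarith), div_zero]

lemma dn_mert_F_mul (htm : S_tm) (x : ℝ) {m n : ℕ} (h : m.Coprime n) :
    dn_mert_F x (m * n) = dn_mert_F x m * dn_mert_F x n := by
  unfold dn_mert_F
  rw [htm.1 m n h, norm_mul, Nat.cast_mul, Real.mul_rpow (Nat.cast_nonneg m) (Nat.cast_nonneg n),
    mul_pow, div_mul_div_comm]

/-- the part of the series prime to `p` -/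
noncomputable def dn_mert_G (x : ℝ) (p m : ℕ) : ℝ := if p ∣ m then 0 else dn_mert_F x m

lemma dn_mert_G_nonneg (x : ℝ) (p m : ℕ) : 0 ≤ dn_mert_G x p m := by
  unfold dn_mert_G
  split_ifs
  · exact le_rfl
  · exact dn_mert_F_nonneg x m

lemma dn_mert_G_le (x : ℝ) (p m : ℕ) : dn_mert_G x p m ≤ dn_mert_F x m := by
  unfold dn_mert_G
  split_ifs
  · exact dn_mert_F_nonneg x m
  · exact le_rfl

lemma dn_mert_G_sum {x : ℝ} (p : ℕ) (hs : Summable (dn_mert_F x)) : Summable (dn_mert_G x p) :=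
  Summable.of_nonneg_of_le (dn_mert_G_nonneg x p) (dn_mert_G_le x p) hs

lemma dn_mert_loc {Cl : ℝ} (hl : ∀ p : ℕ, p.Prime →
    (Summable fun j : ℕ => ‖tau (p ^ j)‖ ^ 2 / (p : ℝ) ^ (12 * j)) ∧
      ∑' j : ℕ, ‖tau (p ^ j)‖ ^ 2 / (p : ℝ) ^ (12 * j) ≤ Cl) {x : ℝ} (hx : 1 < x) {p : ℕ}
    (hp : p.Prime) (N : ℕ) : ∑ j ∈ Finset.range N, dn_mert_F x (p ^ j) ≤ Cl := by
  obtain ⟨h1, h2⟩ := hl p hp
  refine le_trans ?_ h2
  refine le_trans (Finset.sum_le_sum fun j _ => ?_)
    (h1.sum_le_tsum (Finset.range N) fun j _ => by positivity)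
  unfold dn_mert_F
  have hp1 : (1 : ℝ) ≤ (p : ℝ) ^ j := one_le_pow₀ (by exact_mod_cast hp.one_le)
  have h3 : (p : ℝ) ^ (12 * j) ≤ ((p ^ j : ℕ) : ℝ) ^ (11 + x) := by
    rw [Nat.cast_pow]
    calc (p : ℝ) ^ (12 * j) = ((p : ℝ) ^ j) ^ ((12 : ℕ) : ℝ) := by
          rw [Real.rpow_natCast, ← pow_mul, mul_comm]
      _ ≤ ((p : ℝ) ^ j) ^ (11 + x) :=
          Real.rpow_le_rpow_of_exponent_le hp1 (by push_cast; linarith)
  have h4 : (0 : ℝ) < (p : ℝ) ^ (12 * j) := by
    have : (0 : ℝ) < p := by exact_mod_cast hp.pos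
    positivity
  exact div_le_div_of_nonneg_left (by positivity) h4 h3

lemma dn_mert_factor (htm : S_tm) {Cl : ℝ} (hl : ∀ p : ℕ, p.Prime →
    (Summable fun j : ℕ => ‖tau (p ^ j)‖ ^ 2 / (p : ℝ) ^ (12 * j)) ∧
      ∑' j : ℕ, ‖tau (p ^ j)‖ ^ 2 / (p : ℝ) ^ (12 * j) ≤ Cl) {x : ℝ} (hx : 1 < x)
    (hs : Summable (dn_mert_F x)) {p : ℕ} (hp : p.Prime) :
    ∑' n, dn_mert_F x n ≤ Cl * ∑' m, dn_mert_G x p m := by
  classical
  refine Real.tsum_le_of_sum_range_le (dn_mert_F_nonneg x) fun N => ?_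
  have hG := dn_mert_G_sum p hs
  set φ : ℕ → ℕ × ℕ := fun n => (n.factorization p, n / p ^ (n.factorization p)) with hφ
  set S := (Finset.range N).filter (fun n => n ≠ 0) with hS
  have h1 : ∑ n ∈ Finset.range N, dn_mert_F x n = ∑ n ∈ S, dn_mert_F x n := by
    rw [hS, Finset.sum_filter]
    refine Finset.sum_congr rfl fun n _ => ?_
    by_cases hn : n = 0
    · simp [hn, dn_mert_F_zero hx]
    · simp [hn]
  have hmul : ∀ n : ℕ, p ^ (n.factorization p) * (n / p ^ (n.factorization p)) = n :=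
    fun n => Nat.ordProj_mul_ordCompl_eq_self n p
  have h2 : ∀ n ∈ S, dn_mert_F x n =
      (fun z : ℕ × ℕ => dn_mert_F x (p ^ z.1) * dn_mert_G x p z.2) (φ n) := by
    intro n hn
    have hn0 : n ≠ 0 := (Finset.mem_filter.1 hn).2
    have hnd : ¬ p ∣ n / p ^ (n.factorization p) := Nat.not_dvd_ordCompl hp hn0
    have hc : (p ^ (n.factorization p)).Coprime (n / p ^ (n.factorization p)) :=
      Nat.Coprime.pow_left _ ((Nat.Prime.coprime_iff_not_dvd hp).2 hnd)
    show dn_mert_F x n = dn_mert_F x (p ^ (n.factorization p)) *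
      dn_mert_G x p (n / p ^ (n.factorization p))
    unfold dn_mert_G
    rw [if_neg hnd, ← dn_mert_F_mul htm x hc, hmul n]
  have hinj : Set.InjOn φ S := by
    intro a _ b _ hab
    rw [hφ] at hab
    simp only [Prod.mk.injEq] at hab
    calc a = p ^ (a.factorization p) * (a / p ^ (a.factorization p)) := (hmul a).symm
      _ = p ^ (b.factorization p) * (b / p ^ (b.factorization p)) := by rw [hab.2, hab.1]
      _ = b := hmul b
  have hsub : S.image φ ⊆ Finset.range N ×ˢ Finset.range N := by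
    intro z hz
    obtain ⟨n, hn, rfl⟩ := Finset.mem_image.1 hz
    have hn0 : n ≠ 0 := (Finset.mem_filter.1 hn).2
    have hnN : n < N := Finset.mem_range.1 (Finset.mem_filter.1 hn).1
    rw [Finset.mem_product, Finset.mem_range, Finset.mem_range]
    exact ⟨(Nat.factorization_lt p hn0).trans hnN, (Nat.div_le_self _ _).trans_lt hnN⟩
  rw [h1, Finset.sum_congr rfl h2, ← Finset.sum_image (f := fun z : ℕ × ℕ =>
    dn_mert_F x (p ^ z.1) * dn_mert_G x p z.2) hinj]
  refine le_trans (Finset.sum_le_sum_of_subset_of_nonneg hsub fun z _ _ =>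
    mul_nonneg (dn_mert_F_nonneg _ _) (dn_mert_G_nonneg _ _ _)) ?_
  have h5 : ∑ z ∈ Finset.range N ×ˢ Finset.range N,
      dn_mert_F x (p ^ z.1) * dn_mert_G x p z.2 =
      (∑ j ∈ Finset.range N, dn_mert_F x (p ^ j)) * ∑ m ∈ Finset.range N, dn_mert_G x p m := by
    rw [Finset.sum_product, Finset.sum_mul_sum]
  rw [h5]
  have h3 := dn_mert_loc hl hx hp N
  have h4 : ∑ m ∈ Finset.range N, dn_mert_G x p m ≤ ∑' m, dn_mert_G x p m :=
    hG.sum_le_tsum _ fun m _ => dn_mert_G_nonneg x p m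
  exact mul_le_mul h3 h4 (Finset.sum_nonneg fun m _ => dn_mert_G_nonneg x p m)
    ((Finset.sum_nonneg fun j _ => dn_mert_F_nonneg x _).trans h3)

lemma dn_mert_log {C : ℝ} (hLb : ∀ x : ℝ, 1 < x → x ≤ 2 →
    Summable (dn_mert_F x) ∧ ∑' n, dn_mert_F x n ≤ C / (x - 1)) {x : ℝ} (hx : 1 < x)
    (hx2 : x ≤ 2) (S : Finset ℕ) :
    ∑ n ∈ S, dn_mert_F x n * Real.log n ≤ 4 * C / (x - 1) ^ 2 := by
  set x' := 1 + (x - 1) / 2 with hx'
  have hx'1 : 1 < x' := by rw [hx']; linarith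
  have hx'2 : x' ≤ 2 := by rw [hx']; linarith
  obtain ⟨hs, hle⟩ := hLb x' hx'1 hx'2
  have hη : 0 < (x - 1) / 2 := by linarith
  have h1 : ∀ n ∈ S, dn_mert_F x n * Real.log n ≤ 2 / (x - 1) * dn_mert_F x' n := by
    intro n _
    rcases Nat.eq_zero_or_pos n with rfl | hn
    · rw [dn_mert_F_zero hx, dn_mert_F_zero hx'1]
      simp
    · have hn' : (0 : ℝ) < n := by exact_mod_cast hn
      have h2 := Real.log_le_rpow_div hn'.le hη
      have h3 : (n : ℝ) ^ (11 + x) = (n : ℝ) ^ (11 + x') * (n : ℝ) ^ ((x - 1) / 2) := by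
        rw [← Real.rpow_add hn']
        congr 1
        rw [hx']; ring
      have h4 : (0 : ℝ) < (n : ℝ) ^ (11 + x') := Real.rpow_pos_of_pos hn' _
      have h5 : (0 : ℝ) < (n : ℝ) ^ ((x - 1) / 2) := Real.rpow_pos_of_pos hn' _
      have h6 : dn_mert_F x n * (n : ℝ) ^ ((x - 1) / 2) = dn_mert_F x' n := by
        unfold dn_mert_F
        rw [h3]
        field_simp
      calc dn_mert_F x n * Real.log n ≤ dn_mert_F x n * ((n : ℝ) ^ ((x - 1) / 2) / ((x - 1) / 2)) :=
            mul_le_mul_of_nonneg_left h2 (dn_mert_F_nonneg x n)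
        _ = 2 / (x - 1) * dn_mert_F x' n := by
            rw [← h6]
            have : x - 1 ≠ 0 := by linarith
            field_simp
  have h7 : ∑ n ∈ S, dn_mert_F x' n ≤ C / (x' - 1) :=
    (hs.sum_le_tsum S fun n _ => dn_mert_F_nonneg x' n).trans hle
  calc ∑ n ∈ S, dn_mert_F x n * Real.log n ≤ ∑ n ∈ S, 2 / (x - 1) * dn_mert_F x' n :=
        Finset.sum_le_sum h1
    _ = 2 / (x - 1) * ∑ n ∈ S, dn_mert_F x' n := by rw [Finset.mul_sum]
    _ ≤ 2 / (x - 1) * (C / (x' - 1)) :=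
        mul_le_mul_of_nonneg_left h7 (div_nonneg (by norm_num) (by linarith))
    _ = 4 * C / (x - 1) ^ 2 := by
        have h8 : x - 1 ≠ 0 := by linarith
        have h9 : x' - 1 = (x - 1) / 2 := by rw [hx']; ring
        rw [h9]
        field_simp
        ring

lemma dn_mert_logp (y n : ℕ) (hn : n ≠ 0) :
    ∑ p ∈ (Finset.Icc 1 y).filter Nat.Prime, (if p ∣ n then Real.log p else 0) ≤ Real.log n := by
  classical
  rw [← Finset.sum_filter]
  have hsub : ((Finset.Icc 1 y).filter Nat.Prime).filter (fun p => p ∣ n) ⊆ n.primeFactors := by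
    intro p hp
    simp only [Finset.mem_filter] at hp
    exact Nat.mem_primeFactors.2 ⟨hp.1.2, hp.2, hn⟩
  have h1 : ∀ p ∈ n.primeFactors, (0 : ℝ) ≤ Real.log p := fun p hp =>
    Real.log_nonneg (by exact_mod_cast (Nat.prime_of_mem_primeFactors hp).one_le)
  refine (Finset.sum_le_sum_of_subset_of_nonneg hsub fun p hp _ => h1 p hp).trans ?_
  rw [← Real.log_prod (fun p hp => by
    have := (Nat.prime_of_mem_primeFactors hp).pos
    positivity)]
  have h2 := Nat.le_of_dvd (Nat.pos_of_ne_zero hn) (Nat.prod_primeFactors_dvd n)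
  have h3 : (0 : ℝ) < ∏ p ∈ n.primeFactors, (p : ℝ) :=
    Finset.prod_pos fun p hp => by exact_mod_cast (Nat.prime_of_mem_primeFactors hp).pos
  refine Real.log_le_log h3 ?_
  rw [← Nat.cast_prod]
  exact Nat.cast_le.2 h2

lemma dn_mert_main (htm : S_tm) {x : ℝ} (y N : ℕ) :
    ∑ p ∈ (Finset.Icc 1 y).filter Nat.Prime, Real.log p * dn_mert_F x p *
      ∑ m ∈ Finset.range N, dn_mert_G x p m ≤
      ∑ n ∈ Finset.Icc 1 (y * N), dn_mert_F x n * Real.log n := by
  classical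
  have h1 : ∀ p ∈ (Finset.Icc 1 y).filter Nat.Prime, Real.log p * dn_mert_F x p *
      ∑ m ∈ Finset.range N, dn_mert_G x p m ≤
      ∑ n ∈ Finset.Icc 1 (y * N), dn_mert_F x n * (if p ∣ n then Real.log p else 0) := by
    intro p hp
    obtain ⟨hp1, hpp⟩ := Finset.mem_filter.1 hp
    have hlog : 0 ≤ Real.log p := Real.log_nonneg (by exact_mod_cast hpp.one_le)
    rw [Finset.mul_sum]
    have h2 : ∀ m ∈ Finset.range N, Real.log p * dn_mert_F x p * dn_mert_G x p m =
        if p ∣ m then 0 else (fun n => dn_mert_F x n * (if p ∣ n then Real.log p else 0))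
          (p * m) := by
      intro m _
      unfold dn_mert_G
      split_ifs with hd
      · rw [mul_zero]
      · simp only [dvd_mul_right, if_true]
        rw [dn_mert_F_mul htm x ((Nat.Prime.coprime_iff_not_dvd hpp).2 hd)]
        ring
    rw [Finset.sum_congr rfl h2]
    have h3 : ∑ m ∈ Finset.range N, (if p ∣ m then (0 : ℝ) else
        (fun n => dn_mert_F x n * (if p ∣ n then Real.log p else 0)) (p * m)) =
        ∑ m ∈ (Finset.range N).filter (fun m => ¬ p ∣ m),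
          (fun n => dn_mert_F x n * (if p ∣ n then Real.log p else 0)) (p * m) := by
      rw [Finset.sum_filter]
      refine Finset.sum_congr rfl fun m _ => ?_
      by_cases hd : p ∣ m
      · simp [hd]
      · simp [hd]
    have hinj : Set.InjOn (fun m => p * m)
        ((Finset.range N).filter (fun m => ¬ p ∣ m) : Finset ℕ) := by
      intro a _ b _ hab
      exact Nat.eq_of_mul_eq_mul_left hpp.pos hab
    rw [h3, ← Finset.sum_image (f := fun n => dn_mert_F x n * (if p ∣ n then Real.log p else 0))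
      hinj]
    refine Finset.sum_le_sum_of_subset_of_nonneg ?_ fun n _ _ => ?_
    · intro n hn
      obtain ⟨m, hm, rfl⟩ := Finset.mem_image.1 hn
      obtain ⟨hmN, hmd⟩ := Finset.mem_filter.1 hm
      have hm0 : m ≠ 0 := by
        rintro rfl
        exact hmd (dvd_zero p)
      rw [Finset.mem_Icc]
      exact ⟨Nat.one_le_iff_ne_zero.2 (mul_ne_zero hpp.ne_zero hm0),
        Nat.mul_le_mul (Finset.mem_Icc.1 hp1).2 (Finset.mem_range.1 hmN).le⟩
    · refine mul_nonneg (dn_mert_F_nonneg x n) ?_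
      split_ifs
      · exact hlog
      · exact le_rfl
  refine (Finset.sum_le_sum h1).trans ?_
  rw [Finset.sum_comm]
  refine Finset.sum_le_sum fun n hn => ?_
  rw [← Finset.mul_sum]
  have hn0 : n ≠ 0 := by
    have := (Finset.mem_Icc.1 hn).1
    omega
  exact mul_le_mul_of_nonneg_left (dn_mert_logp y n hn0) (dn_mert_F_nonneg x n)

theorem p_mert (htm : S_tm) (hLb : S_Lb) (hloc : S_locF) : S_mert := by
  obtain ⟨c, C, hc, hC, hLb'⟩ := hLb
  obtain ⟨Cl, hCl, hl⟩ := hloc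
  refine ⟨Real.exp (1 / 2) * (Cl / c) * (4 * C) * 2, by positivity, fun y hy => ?_⟩
  have hlogy : Real.log 2 ≤ Real.log y := Real.log_le_log (by norm_num) hy
  have hlog2 : (1 : ℝ) / 2 < Real.log 2 := by
    have := Real.log_two_gt_d9
    linarith
  have hly : 0 < Real.log y := by linarith
  set ε := 1 / (2 * Real.log y) with hε
  have hε0 : 0 < ε := by positivity
  have hε1 : ε ≤ 1 := by
    rw [hε, div_le_one (by positivity)]
    linarith
  set x := 1 + ε with hx
  have hx1 : 1 < x := by rw [hx]; linarith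
  have hx2 : x ≤ 2 := by rw [hx]; linarith
  obtain ⟨hs, hlo, -⟩ := hLb' x hx1 hx2
  change Summable (dn_mert_F x) at hs
  change c / (x - 1) ≤ ∑' n, dn_mert_F x n at hlo
  have hxε : x - 1 = ε := by rw [hx]; ring
  rw [hxε] at hlo
  set P := (Finset.Icc 1 ⌊y⌋₊).filter Nat.Prime with hP
  -- the main inequality
  have hmain : ∑ p ∈ P, Real.log p * dn_mert_F x p * ∑' m, dn_mert_G x p m ≤ 4 * C / ε ^ 2 := by
    have h1 : Filter.Tendsto (fun N : ℕ => ∑ p ∈ P, Real.log p * dn_mert_F x p *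
        ∑ m ∈ Finset.range N, dn_mert_G x p m) Filter.atTop
        (nhds (∑ p ∈ P, Real.log p * dn_mert_F x p * ∑' m, dn_mert_G x p m)) := by
      refine tendsto_finsetSum _ fun p _ => ?_
      exact (dn_mert_G_sum p hs).hasSum.tendsto_sum_nat.const_mul _
    refine le_of_tendsto' h1 fun N => ?_
    have h2 := dn_mert_main htm (x := x) ⌊y⌋₊ N
    have h3 := dn_mert_log (C := C) (fun x' h1 h2 => ⟨(hLb' x' h1 h2).1, (hLb' x' h1 h2).2.2⟩)
      hx1 hx2 (Finset.Icc 1 (⌊y⌋₊ * N))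
    rw [hxε] at h3
    exact h2.trans h3
  have hterm : ∀ p ∈ P, ‖tau p‖ ^ 2 * Real.log p / (p : ℝ) ^ 12 ≤
      Real.exp (1 / 2) * (Cl * ε / c) *
        (Real.log p * dn_mert_F x p * ∑' m, dn_mert_G x p m) := by
    intro p hp
    obtain ⟨hp1, hpp⟩ := Finset.mem_filter.1 hp
    have hp0 : (0 : ℝ) < p := by exact_mod_cast hpp.pos
    have hpy : (p : ℝ) ≤ y :=
      (Nat.cast_le.2 (Finset.mem_Icc.1 hp1).2).trans (Nat.floor_le (by linarith))
    have hlogp : 0 ≤ Real.log p := Real.log_nonneg (by exact_mod_cast hpp.one_le)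
    have hL : c / ε ≤ Cl * ∑' m, dn_mert_G x p m := hlo.trans (dn_mert_factor htm hl hx1 hs hpp)
    have h1 : 1 ≤ Cl * ε / c * ∑' m, dn_mert_G x p m := by
      rw [div_le_iff₀ hε0] at hL
      rw [div_mul_eq_mul_div, le_div_iff₀ hc]
      linarith
    have h2 : (p : ℝ) ^ ε ≤ Real.exp (1 / 2) := by
      rw [Real.rpow_def_of_pos hp0]
      apply Real.exp_le_exp.2
      have h3 : Real.log p ≤ Real.log y := Real.log_le_log hp0 hpy
      calc Real.log p * ε ≤ Real.log y * ε := mul_le_mul_of_nonneg_right h3 hε0.le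
        _ = 1 / 2 := by rw [hε]; field_simp
    have h4 : ‖tau p‖ ^ 2 / (p : ℝ) ^ 12 = dn_mert_F x p * (p : ℝ) ^ ε := by
      unfold dn_mert_F
      have h5 : (p : ℝ) ^ (11 + x) = (p : ℝ) ^ 12 * (p : ℝ) ^ ε := by
        have h6 : (11 : ℝ) + x = ((12 : ℕ) : ℝ) + ε := by
          rw [hx]; push_cast; ring
        rw [h6, Real.rpow_add hp0, Real.rpow_natCast]
      rw [h5]
      have h7 : (0 : ℝ) < (p : ℝ) ^ ε := Real.rpow_pos_of_pos hp0 _
      field_simp
    calc ‖tau p‖ ^ 2 * Real.log p / (p : ℝ) ^ 12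
        = Real.log p * (dn_mert_F x p * (p : ℝ) ^ ε) := by rw [← h4]; ring
      _ ≤ Real.log p * (dn_mert_F x p * Real.exp (1 / 2)) :=
          mul_le_mul_of_nonneg_left (mul_le_mul_of_nonneg_left h2 (dn_mert_F_nonneg x p)) hlogp
      _ = Real.log p * (dn_mert_F x p * Real.exp (1 / 2)) * 1 := by rw [mul_one]
      _ ≤ Real.log p * (dn_mert_F x p * Real.exp (1 / 2)) *
          (Cl * ε / c * ∑' m, dn_mert_G x p m) :=
          mul_le_mul_of_nonneg_left h1 (mul_nonneg hlogp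
            (mul_nonneg (dn_mert_F_nonneg x p) (Real.exp_pos _).le))
      _ = _ := by ring
  calc ∑ p ∈ P, ‖tau p‖ ^ 2 * Real.log p / (p : ℝ) ^ 12
      ≤ ∑ p ∈ P, Real.exp (1 / 2) * (Cl * ε / c) *
        (Real.log p * dn_mert_F x p * ∑' m, dn_mert_G x p m) := Finset.sum_le_sum hterm
    _ = Real.exp (1 / 2) * (Cl * ε / c) *
        ∑ p ∈ P, Real.log p * dn_mert_F x p * ∑' m, dn_mert_G x p m := by rw [Finset.mul_sum]
    _ ≤ Real.exp (1 / 2) * (Cl * ε / c) * (4 * C / ε ^ 2) :=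
        mul_le_mul_of_nonneg_left hmain (by positivity)
    _ = Real.exp (1 / 2) * (Cl / c) * (4 * C) * 2 * Real.log y := by
        rw [hε]
        field_simp
        try ring

end Pool.Agent.Lib.MP_cd509c_nt.DN
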