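import Mathlib
import Pool.Agent.Lib.MP_cd509c_nt.DN.Defs

/-!
# Piece molCrude: crude bound of the mollifier
-/

set_option autoImplicit false

namespace Pool.Agent.Lib.MP_cd509c_nt.DN

open Complex ComplexConjugate MeasureTheory

theorem dn_molCrude_Pw (u : ℝ) : 0 ≤ Pw u ∧ Pw u ≤ 1 := ⟨Pw_nonneg u, Pw_le_one u⟩

theorem dn_molCrude_term (X : ℝ) (w : ℂ) (hw : -1 ≤ w.re) (b : ℕ) (hb : 1 ≤ b) (hX : (b : ℝ) ≤ X) :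
    ‖muf b * Pw (Real.log b / Real.log X) * (b : ℂ) ^ (-(6 + w))‖ ≤
      X ^ 2 * (‖muf b‖ / (b : ℝ) ^ (7 : ℝ)) := by
  have hb0 : (0 : ℝ) < b := by exact_mod_cast hb
  have hb1 : (1 : ℝ) ≤ b := by exact_mod_cast hb
  obtain ⟨h0, h1⟩ := dn_molCrude_Pw (Real.log b / Real.log X)
  rw [norm_mul, norm_mul, Complex.norm_real, Real.norm_of_nonneg h0,
    Complex.norm_natCast_cpow_of_pos hb]
  have h2 : (b : ℝ) ^ (-(6 + w)).re ≤ (b : ℝ) ^ (-5 : ℝ) := by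
    refine Real.rpow_le_rpow_of_exponent_le hb1 ?_
    simp
    linarith
  have h3 : (b : ℝ) ^ (-5 : ℝ) = (b : ℝ) ^ 2 / (b : ℝ) ^ (7 : ℝ) := by
    rw [eq_div_iff (Real.rpow_pos_of_pos hb0 _).ne', ← Real.rpow_add hb0, ← Real.rpow_natCast]
    norm_num
  have h4 : (b : ℝ) ^ 2 ≤ X ^ 2 := pow_le_pow_left₀ hb0.le hX 2
  have h5 : (0 : ℝ) < (b : ℝ) ^ (7 : ℝ) := Real.rpow_pos_of_pos hb0 _
  calc ‖muf b‖ * Pw (Real.log b / Real.log X) * (b : ℝ) ^ (-(6 + w)).re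
      ≤ ‖muf b‖ * 1 * ((b : ℝ) ^ 2 / (b : ℝ) ^ (7 : ℝ)) := by
        rw [← h3]
        gcongr
    _ ≤ ‖muf b‖ * 1 * (X ^ 2 / (b : ℝ) ^ (7 : ℝ)) := by gcongr
    _ = _ := by ring

theorem p_molCrude (h : S_mufSum) : S_molCrude := by
  have hs := h 7 (by norm_num)
  refine ⟨1 + ∑' n : ℕ, ‖muf n‖ / (n : ℝ) ^ (7 : ℝ), ?_, ?_⟩
  · have : 0 ≤ ∑' n : ℕ, ‖muf n‖ / (n : ℝ) ^ (7 : ℝ) :=
      tsum_nonneg fun n => div_nonneg (norm_nonneg _) (Real.rpow_nonneg (Nat.cast_nonneg _) _)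
    linarith
  intro X hX w hw
  rw [Mol]
  have h0 : ∀ n : ℕ, 0 ≤ ‖muf n‖ / (n : ℝ) ^ (7 : ℝ) := fun n =>
    div_nonneg (norm_nonneg _) (Real.rpow_nonneg (Nat.cast_nonneg _) _)
  calc ‖∑ b ∈ Finset.Icc 1 ⌊X⌋₊, muf b * Pw (Real.log b / Real.log X) * (b : ℂ) ^ (-(6 + w))‖
      ≤ ∑ b ∈ Finset.Icc 1 ⌊X⌋₊, X ^ 2 * (‖muf b‖ / (b : ℝ) ^ (7 : ℝ)) := by
        refine norm_sum_le_of_le _ fun b hb => ?_
        rw [Finset.mem_Icc] at hb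
        exact dn_molCrude_term X w hw b hb.1 ((Nat.le_floor_iff (by linarith)).1 hb.2)
    _ = X ^ 2 * ∑ b ∈ Finset.Icc 1 ⌊X⌋₊, ‖muf b‖ / (b : ℝ) ^ (7 : ℝ) := by
        rw [Finset.mul_sum]
    _ ≤ X ^ 2 * ∑' n : ℕ, ‖muf n‖ / (n : ℝ) ^ (7 : ℝ) :=
        mul_le_mul_of_nonneg_left (hs.sum_le_tsum _ fun n _ => h0 n) (by positivity)
    _ ≤ X ^ 3 * (1 + ∑' n : ℕ, ‖muf n‖ / (n : ℝ) ^ (7 : ℝ)) := by
        have h1 : X ^ 2 ≤ X ^ 3 := pow_le_pow_right₀ hX (by norm_num)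
        have h2 : 0 ≤ ∑' n : ℕ, ‖muf n‖ / (n : ℝ) ^ (7 : ℝ) := tsum_nonneg h0
        have h3 : (0 : ℝ) ≤ X ^ 3 := by positivity
        refine mul_le_mul h1 (by linarith) h2 h3
    _ = _ := by ring

end Pool.Agent.Lib.MP_cd509c_nt.DN
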