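import Pool.Agent.Lib.MP_cd509c_nt.DN.Defs2

/-!
# Parseval on a horocycle
-/

set_option autoImplicit false

namespace Pool.Agent.Lib.MP_cd509c_nt.DN

open Complex ComplexConjugate MeasureTheory Filter Topology

/-- the exponential -/
noncomputable def dn_par_e (k : ℕ) (x : ℝ) : ℂ := cexp (2 * Real.pi * Complex.I * k * x)

lemma dn_par_e_norm (k : ℕ) (x : ℝ) : ‖dn_par_e k x‖ = 1 := by
  unfold dn_par_e
  rw [Complex.norm_exp]
  simp

lemma dn_par_e_cont (k : ℕ) : Continuous (dn_par_e k) := by
  unfold dn_par_e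
  fun_prop

lemma dn_par_orth (k j : ℕ) :
    ∫ x in (0 : ℝ)..1, dn_par_e k x * conj (dn_par_e j x) = if j = k then 1 else 0 := by
  have h : ∀ x : ℝ, dn_par_e k x * conj (dn_par_e j x) =
      cexp ((2 * Real.pi * Complex.I * ((k : ℂ) - j)) * x) := by
    intro x
    unfold dn_par_e
    rw [← Complex.exp_conj, ← Complex.exp_add]
    congr 1
    simp only [map_mul, Complex.conj_I, Complex.conj_ofReal, map_natCast, map_ofNat]
    ring
  simp_rw [h]
  split_ifs with hjk
  · subst hjk
    simp
  · have hc : (2 * Real.pi * Complex.I * ((k : ℂ) - j)) ≠ 0 := by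
      apply mul_ne_zero Complex.two_pi_I_ne_zero
      rw [sub_ne_zero]
      intro hh
      apply hjk
      exact_mod_cast hh.symm
    rw [integral_exp_mul_complex hc]
    have h1 : cexp (2 * Real.pi * Complex.I * ((k : ℂ) - j) * (1 : ℝ)) = 1 := by
      rw [Complex.exp_eq_one_iff]
      refine ⟨(k : ℤ) - j, ?_⟩
      push_cast
      ring
    rw [h1]
    simp

lemma dn_par_parseval (A : ℕ → ℂ) (hA : Summable fun k => ‖A k‖) (F : ℝ → ℂ)
    (hF : ∀ x : ℝ, HasSum (fun k => A k * dn_par_e k x) (F x)) :
    HasSum (fun k => ‖A k‖ ^ 2) (∫ x in (0 : ℝ)..1, ‖F x‖ ^ 2) := by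
  have hFb : ∀ x, ‖F x‖ ≤ ∑' k, ‖A k‖ := by
    intro x
    rw [← (hF x).tsum_eq]
    have h1 : Summable fun k => ‖A k * dn_par_e k x‖ := by
      simpa only [norm_mul, dn_par_e_norm, mul_one] using hA
    refine (norm_tsum_le_tsum_norm h1).trans (le_of_eq ?_)
    simp only [norm_mul, dn_par_e_norm, mul_one]
  have hFc : Continuous F := by
    have h1 : F = fun x => ∑' k, A k * dn_par_e k x := funext fun x => (hF x).tsum_eq.symm
    rw [h1]
    apply continuous_tsum (fun k => continuous_const.mul (dn_par_e_cont k)) hA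
    intro k x
    simp [dn_par_e_norm]
  -- inner integrals
  have h1 : ∀ k, ∫ x in (0 : ℝ)..1, dn_par_e k x * conj (F x) = conj (A k) := by
    intro k
    have h2 : HasSum (fun j => ∫ x in (0 : ℝ)..1, dn_par_e k x * conj (A j * dn_par_e j x))
        (∫ x in (0 : ℝ)..1, dn_par_e k x * conj (F x)) := by
      apply intervalIntegral.hasSum_integral_of_dominated_convergence (fun j _ => ‖A j‖)
      · intro j
        apply Continuous.aestronglyMeasurable
        exact (dn_par_e_cont k).mul (Complex.continuous_conj.comp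
          (continuous_const.mul (dn_par_e_cont j)))
      · intro j
        apply Eventually.of_forall
        intro x _
        simp [dn_par_e_norm]
      · exact Eventually.of_forall fun x _ => hA
      · exact intervalIntegrable_const
      · apply Eventually.of_forall
        intro x _
        exact ((hF x).map (starRingEnd ℂ) Complex.continuous_conj).mul_left _
    have h3 : ∀ j, ∫ x in (0 : ℝ)..1, dn_par_e k x * conj (A j * dn_par_e j x) =
        if j = k then conj (A k) else 0 := by
      intro j
      have h4 : ∀ x : ℝ, dn_par_e k x * conj (A j * dn_par_e j x) =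
          conj (A j) * (dn_par_e k x * conj (dn_par_e j x)) := by
        intro x
        rw [map_mul]
        ring
      simp_rw [h4]
      rw [intervalIntegral.integral_const_mul, dn_par_orth]
      split_ifs with hjk
      · rw [hjk, mul_one]
      · rw [mul_zero]
    simp_rw [h3] at h2
    exact h2.unique (hasSum_ite_eq k _)
  have h5 : HasSum (fun k => ∫ x in (0 : ℝ)..1, (A k * dn_par_e k x) * conj (F x))
      (∫ x in (0 : ℝ)..1, F x * conj (F x)) := by
    apply intervalIntegral.hasSum_integral_of_dominated_convergence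
      (fun k _ => ‖A k‖ * ∑' k, ‖A k‖)
    · intro j
      apply Continuous.aestronglyMeasurable
      exact (continuous_const.mul (dn_par_e_cont j)).mul (Complex.continuous_conj.comp hFc)
    · intro j
      apply Eventually.of_forall
      intro x _
      rw [norm_mul, norm_mul, dn_par_e_norm, mul_one, Complex.norm_conj]
      exact mul_le_mul_of_nonneg_left (hFb x) (norm_nonneg _)
    · exact Eventually.of_forall fun x _ => hA.mul_right _
    · exact intervalIntegrable_const
    · apply Eventually.of_forall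
      intro x _
      exact (hF x).mul_right _
  have h6 : ∀ k, ∫ x in (0 : ℝ)..1, (A k * dn_par_e k x) * conj (F x) =
      ((‖A k‖ ^ 2 : ℝ) : ℂ) := by
    intro k
    simp_rw [mul_assoc]
    rw [intervalIntegral.integral_const_mul, h1, Complex.mul_conj, Complex.normSq_eq_norm_sq]
  have h7 : ∫ x in (0 : ℝ)..1, F x * conj (F x) =
      ((∫ x in (0 : ℝ)..1, ‖F x‖ ^ 2 : ℝ) : ℂ) := by
    rw [← intervalIntegral.integral_ofReal]
    apply intervalIntegral.integral_congr
    intro x _
    simp only
    rw [Complex.mul_conj, Complex.normSq_eq_norm_sq]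
  simp_rw [h6] at h5
  rw [h7] at h5
  exact (Complex.hasSum_ofReal).1 h5

lemma dn_par_b (b : ℕ) (hb : 1 ≤ b) {z : ℂ} (hz : 0 < z.im) :
    HasSum (fun k : ℕ => if b ∣ k then tau (k / b) * cexp (2 * Real.pi * Complex.I * (k * z)) else 0)
      (Dc (b * z)) := by
  have hbz : 0 < ((b : ℂ) * z).im := by
    have : ((b : ℂ) * z).im = b * z.im := by simp [Complex.mul_im]
    rw [this]
    have : (0 : ℝ) < b := by exact_mod_cast hb
    positivity
  have h1 := Dc_hasSum hbz
  have hinj : Function.Injective (fun m : ℕ => b * m) := by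
    intro m m' h
    exact Nat.eq_of_mul_eq_mul_left hb h
  rw [← hinj.hasSum_iff]
  · refine h1.congr_fun ?_ |> fun h => h
    intro m
    simp only [Function.comp, dvd_mul_right, if_true]
    rw [Nat.mul_div_cancel_left m hb]
    congr 3
    push_cast
    ring
  · intro k hk
    rw [if_neg]
    intro hd
    apply hk
    obtain ⟨m, rfl⟩ := hd
    exact ⟨m, rfl⟩

lemma dn_par_series (W : ℝ → ℂ) (X : ℝ) (hX : 2 ≤ X) (hW : ∀ u, 1 ≤ u → W u = 0) {z : ℂ}
    (hz : 0 < z.im) :
    HasSum (fun k : ℕ => gW W X k * cexp (2 * Real.pi * Complex.I * (k * z))) (PhiW W X z) := by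
  have h1 : HasSum (fun k : ℕ => ∑ b ∈ Finset.Icc 1 ⌊X⌋₊, muf b * W (Real.log b / Real.log X) *
      (if b ∣ k then tau (k / b) * cexp (2 * Real.pi * Complex.I * (k * z)) else 0))
      (PhiW W X z) := by
    unfold PhiW
    apply hasSum_sum
    intro b hb
    exact (dn_par_b b (Finset.mem_Icc.1 hb).1 hz).mul_left _
  refine h1.congr_fun ?_ |> fun h => h
  intro k
  rcases Nat.eq_zero_or_pos k with hk | hk
  · subst hk
    unfold gW
    rw [Nat.divisors_zero, Finset.sum_empty, zero_mul]
    symm
    apply Finset.sum_eq_zero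
    intro b _
    rw [if_pos (dvd_zero b), Nat.zero_div, tau_zero, zero_mul, mul_zero]
  · unfold gW
    rw [Finset.sum_mul]
    have h2 : ∑ b ∈ Finset.Icc 1 ⌊X⌋₊, muf b * W (Real.log b / Real.log X) *
        (if b ∣ k then tau (k / b) * cexp (2 * Real.pi * Complex.I * (k * z)) else 0) =
        ∑ b ∈ (Finset.Icc 1 ⌊X⌋₊).filter (fun b => b ∣ k), muf b * W (Real.log b / Real.log X) *
          tau (k / b) * cexp (2 * Real.pi * Complex.I * (k * z)) := by
      rw [Finset.sum_filter]
      apply Finset.sum_congr rfl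
      intro b _
      split_ifs
      · ring
      · rw [mul_zero]
    rw [h2]
    symm
    apply Finset.sum_subset
    · intro b hb
      rw [Finset.mem_filter] at hb
      exact Nat.mem_divisors.2 ⟨hb.2, hk.ne'⟩
    · intro b hb hb2
      rw [Nat.mem_divisors] at hb
      have hb1 : 1 ≤ b := Nat.pos_of_dvd_of_pos hb.1 hk
      have hbX : X < b := by
        by_contra hc
        apply hb2
        rw [Finset.mem_filter, Finset.mem_Icc]
        exact ⟨⟨hb1, Nat.le_floor (not_lt.1 hc)⟩, hb.1⟩
      have hlog : 0 < Real.log X := Real.log_pos (by linarith)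
      have h3 : 1 ≤ Real.log b / Real.log X := by
        rw [le_div_iff₀ hlog, one_mul]
        exact Real.log_le_log (by linarith) hbX.le
      rw [hW _ h3]
      ring

theorem p_par : S_par := by
  intro W X h hX hh hW
  obtain ⟨A, hA⟩ : ∃ A : ℕ → ℂ, A = fun k => gW W X k * (Real.exp (-(2 * Real.pi * k * h)) : ℂ) :=
    ⟨_, rfl⟩
  have hF : ∀ x : ℝ, HasSum (fun k => A k * dn_par_e k x) (PhiW W X (x + h * I)) := by
    intro x
    have hz : 0 < ((x : ℂ) + h * I).im := by simpa using hh
    refine (dn_par_series W X hX hW hz).congr_fun ?_ |> fun h => h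
    intro k
    rw [hA]
    unfold dn_par_e
    simp only
    rw [mul_assoc, Complex.ofReal_exp, ← Complex.exp_add]
    congr 2
    push_cast
    ring_nf
    rw [Complex.I_sq]
    ring
  have hs : Summable fun k => ‖A k‖ := by
    have h1 := (hF 0).summable.norm
    refine h1.congr ?_
    intro k
    rw [norm_mul, dn_par_e_norm, mul_one]
  have h2 := dn_par_parseval A hs _ hF
  have h3 : ∀ k : ℕ, ‖A k‖ ^ 2 = ‖gW W X k‖ ^ 2 * Real.exp (-(4 * Real.pi * k * h)) := by
    intro k
    rw [hA]
    simp only
    rw [norm_mul, mul_pow, Complex.norm_real, Real.norm_of_nonneg (Real.exp_pos _).le,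
      ← Real.exp_nat_mul]
    congr 2
    push_cast
    ring
  simp_rw [h3] at h2
  exact ⟨h2.summable, h2.tsum_eq.symm⟩

end Pool.Agent.Lib.MP_cd509c_nt.DN
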