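import Pool.Agent.Lib.MP_cd509c_nt.DN.Defs

/-!
# MP_cd509c_nt, project DN, piece planch: Plancherel inequality for the Mellin transform
-/

set_option autoImplicit false

namespace Pool.Agent.Lib.MP_cd509c_nt.DN

open Complex ComplexConjugate MeasureTheory

open MeasureTheory FourierTransform SchwartzMap in
open scoped ContDiff ENNReal in
/-- Plancherel for functions in `L¹ ∩ L²`. -/
theorem dn_planch_L2 (h : ℝ → ℂ) (h1 : Integrable h) (h2 : MemLp h 2) :
    MemLp (𝓕 h) 2 ∧ eLpNorm (𝓕 h) 2 = eLpNorm h 2 := by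
  set H : Lp ℂ 2 (volume : Measure ℝ) := h2.toLp h with hH
  have key : (𝓕 H : Lp ℂ 2 (volume : Measure ℝ)) =ᵐ[volume] 𝓕 h := by
    have hcont : Continuous (𝓕 h) := by
      have := VectorFourier.fourierIntegral_continuous (μ := (volume : Measure ℝ)) (E := ℂ)
        (e := Real.fourierChar) (L := innerₗ ℝ) Real.continuous_fourierChar
        (by fun_prop) h1
      exact this
    apply ae_eq_of_integral_contDiff_smul_eq
    · exact (Lp.memLp _).locallyIntegrable (by norm_num)
    · exact hcont.locallyIntegrable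
    · intro g g_smooth g_cpt
      have hg₁ : HasCompactSupport (Complex.ofRealCLM ∘ g) := g_cpt.comp_left rfl
      have hg₂ : ContDiff ℝ ∞ (Complex.ofRealCLM ∘ g) := by fun_prop
      set φ : 𝓢(ℝ, ℂ) := hg₁.toSchwartzMap hg₂ with hφ
      have hφv : ∀ x, φ x = (g x : ℂ) := fun x => by simp [hφ]
      have e1 : ∫ x, g x • (𝓕 H : Lp ℂ 2 (volume : Measure ℝ)) x
          = ((𝓕 H : Lp ℂ 2 (volume : Measure ℝ)) : 𝓢'(ℝ, ℂ)) φ := by
        rw [Lp.toTemperedDistribution_apply]
        apply integral_congr_ae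
        filter_upwards with x
        rw [hφv]; simp
      have e2 : ((𝓕 H : Lp ℂ 2 (volume : Measure ℝ)) : 𝓢'(ℝ, ℂ)) φ
          = ∫ x, (𝓕 φ) x • h x := by
        rw [← Lp.fourier_toTemperedDistribution_eq, TemperedDistribution.fourier_apply,
          Lp.toTemperedDistribution_apply]
        apply integral_congr_ae
        filter_upwards [h2.coeFn_toLp] with x hx
        rw [hH, hx]
      have e3 : ∫ x, (𝓕 φ) x • h x = ∫ x, g x • 𝓕 h x := by
        have := VectorFourier.integral_fourierIntegral_smul_eq_flip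
          (μ := (volume : Measure ℝ)) (ν := (volume : Measure ℝ)) (f := φ) (g := h)
          (e := Real.fourierChar) (L := innerₗ ℝ) Real.continuous_fourierChar
          (by fun_prop) φ.integrable h1
        have l : ∫ x, (𝓕 φ) x • h x = ∫ ξ, (VectorFourier.fourierIntegral Real.fourierChar
            volume (innerₗ ℝ) φ ξ) • h ξ := by
          rfl
        rw [l, this]
        apply integral_congr_ae
        filter_upwards with x
        rw [hφv]
        simp only [flip_innerₗ]
        simp only [smul_eq_mul, Complex.real_smul]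
        rfl
      rw [e1, e2, e3]
  have hmem : MemLp (𝓕 h) 2 := (memLp_congr_ae key).1 (Lp.memLp _)
  refine ⟨hmem, ?_⟩
  have n1 : eLpNorm (𝓕 h) 2 = eLpNorm (𝓕 H : Lp ℂ 2 (volume : Measure ℝ)) 2 volume :=
    (eLpNorm_congr_ae key).symm
  have n2 : eLpNorm h 2 = eLpNorm H 2 volume := (eLpNorm_congr_ae h2.coeFn_toLp).symm
  rw [n1, n2]
  have := Lp.norm_fourier_eq H
  rw [Lp.norm_def, Lp.norm_def] at this
  exact (ENNReal.toReal_eq_toReal_iff' (Lp.eLpNorm_ne_top _) (Lp.eLpNorm_ne_top _)).1 this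

open FourierTransform in
/-- in terms of integrals -/
theorem dn_planch_int (h : ℝ → ℂ) (h1 : Integrable h) (h2 : MemLp h 2) :
    Integrable (fun x => ‖𝓕 h x‖ ^ 2) ∧ ∫ x, ‖𝓕 h x‖ ^ 2 = ∫ x, ‖h x‖ ^ 2 := by
  obtain ⟨hm, he⟩ := dn_planch_L2 h h1 h2
  refine ⟨(memLp_two_iff_integrable_sq_norm hm.1).1 hm, ?_⟩
  have e1 := hm.eLpNorm_eq_integral_rpow_norm (by norm_num) (by norm_num)
  have e2 := h2.eLpNorm_eq_integral_rpow_norm (by norm_num) (by norm_num)
  rw [e1, e2] at he
  have n1 : (0 : ℝ) ≤ ∫ x, ‖𝓕 h x‖ ^ (2 : ℝ) := integral_nonneg fun x => by positivity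
  have n2 : (0 : ℝ) ≤ ∫ x, ‖h x‖ ^ (2 : ℝ) := integral_nonneg fun x => by positivity
  have he' := (ENNReal.ofReal_eq_ofReal_iff (by positivity) (by positivity)).1 he
  have := (Real.rpow_left_inj (by simpa using n1) (by simpa using n2) (by norm_num)).1 he'
  simpa [Real.rpow_two] using this

lemma dn_planch_deriv : ∀ x ∈ Set.univ, HasDerivWithinAt (Real.exp ∘ Neg.neg) (-Real.exp (-x))
    Set.univ x :=
  fun x _ ↦ mul_neg_one (Real.exp (-x)) ▸
    ((Real.hasDerivAt_exp (-x)).comp x (hasDerivAt_neg x)).hasDerivWithinAt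

lemma dn_planch_image : Real.exp ∘ Neg.neg '' Set.univ = Set.Ioi 0 := by
  rw [Set.image_comp, Set.image_univ_of_surjective neg_surjective, Set.image_univ, Real.range_exp]

lemma dn_planch_inj : Set.univ.InjOn (Real.exp ∘ Neg.neg) :=
  Real.exp_injective.injOn.comp neg_injective.injOn (Set.univ.mapsTo_univ _)

lemma dn_planch_cv {E : Type*} [NormedAddCommGroup E] [NormedSpace ℝ E] (f : ℝ → E) :
    (IntegrableOn f (Set.Ioi 0) ↔ Integrable fun u : ℝ => Real.exp (-u) • f (Real.exp (-u))) ∧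
    ∫ y in Set.Ioi (0 : ℝ), f y = ∫ u : ℝ, Real.exp (-u) • f (Real.exp (-u)) := by
  constructor
  · have := integrableOn_image_iff_integrableOn_abs_deriv_smul (s := Set.univ) (f := Real.exp ∘ Neg.neg)
      MeasurableSet.univ dn_planch_deriv dn_planch_inj f
    rw [dn_planch_image, integrableOn_univ] at this
    simpa using this
  · have := integral_image_eq_integral_abs_deriv_smul (s := Set.univ) (f := Real.exp ∘ Neg.neg)
      MeasurableSet.univ dn_planch_deriv dn_planch_inj f
    rw [dn_planch_image] at this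
    rw [this]
    simp

open FourierTransform in
theorem dn_planch_main (g : ℝ → ℂ) (c : ℝ) (hg : ContinuousOn g (Set.Ioi 0))
    (hm : MellinConvergent g c)
    (h2 : IntegrableOn (fun y => ‖g y‖ ^ 2 * y ^ (2 * c - 1)) (Set.Ioi 0))
    (T₁ T₂ : ℝ) (hT : T₁ ≤ T₂) : ∫ t in T₁..T₂, ‖mellin g (c + t * I)‖ ^ 2 ≤
    2 * Real.pi * ∫ y in Set.Ioi (0 : ℝ), ‖g y‖ ^ 2 * y ^ (2 * c - 1) := by
  set h : ℝ → ℂ := fun u => Real.exp (-c * u) • g (Real.exp (-u)) with hh
  have hpow : ∀ u : ℝ, Real.exp (-u) * Real.exp (-u) ^ (2 * c - 1) = Real.exp (-c * u) ^ 2 := by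
    intro u
    rw [← Real.exp_mul, ← Real.exp_add, ← Real.exp_nat_mul]
    congr 1; push_cast; ring
  have hpow1 : ∀ u : ℝ, Real.exp (-u) * Real.exp (-u) ^ (c - 1) = Real.exp (-c * u) := by
    intro u
    rw [← Real.exp_mul, ← Real.exp_add]
    congr 1; ring
  have hc : Continuous h := by
    have : Continuous fun u : ℝ => g (Real.exp (-u)) := by
      refine hg.comp_continuous (by fun_prop) fun u => Real.exp_pos _
    have h0 : Continuous fun u : ℝ => Real.exp (-c * u) := by fun_prop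
    exact h0.smul this
  have h1 : Integrable h := by
    have := (dn_planch_cv (fun y : ℝ => (y : ℂ) ^ ((c : ℂ) - 1) • g y)).1.1 hm
    refine this.congr (Filter.Eventually.of_forall fun u => ?_)
    simp only [hh]
    rw [← hpow1 u]
    have e : ((Real.exp (-u) : ℝ) : ℂ) ^ ((c : ℂ) - 1) = ((Real.exp (-u) ^ (c - 1) : ℝ) : ℂ) := by
      rw [Complex.ofReal_cpow (Real.exp_pos _).le]; push_cast; rfl
    rw [e]
    simp only [Complex.real_smul, smul_eq_mul]
    push_cast; ring
  have hsq : ∀ u : ℝ, ‖h u‖ ^ 2 = Real.exp (-u) • (‖g (Real.exp (-u))‖ ^ 2 *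
      Real.exp (-u) ^ (2 * c - 1)) := by
    intro u
    simp only [hh, norm_smul, smul_eq_mul, Real.norm_eq_abs, abs_of_pos (Real.exp_pos _), mul_pow]
    rw [← hpow u]; ring
  have hL2 : MemLp h 2 := by
    rw [memLp_two_iff_integrable_sq_norm hc.aestronglyMeasurable]
    have := (dn_planch_cv (fun y : ℝ => ‖g y‖ ^ 2 * y ^ (2 * c - 1))).1.1 h2
    exact this.congr (Filter.Eventually.of_forall fun u => (hsq u).symm)
  have heq : ∫ y in Set.Ioi (0 : ℝ), ‖g y‖ ^ 2 * y ^ (2 * c - 1) = ∫ u, ‖h u‖ ^ 2 := by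
    rw [(dn_planch_cv (fun y : ℝ => ‖g y‖ ^ 2 * y ^ (2 * c - 1))).2]
    exact integral_congr_ae (Filter.Eventually.of_forall fun u => (hsq u).symm)
  obtain ⟨hi, hP⟩ := dn_planch_int h h1 hL2
  have hmel : ∀ t : ℝ, mellin g (c + t * I) = 𝓕 h (t / (2 * Real.pi)) := by
    intro t
    rw [mellin_eq_fourier]
    simp [hh]
  simp only [hmel]
  rw [intervalIntegral.integral_comp_div (fun x => ‖𝓕 h x‖ ^ 2) (by positivity), heq, ← hP,
    smul_eq_mul]
  refine mul_le_mul_of_nonneg_left ?_ (by positivity)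
  rw [intervalIntegral.integral_of_le (by gcongr)]
  exact setIntegral_le_integral hi (Filter.Eventually.of_forall fun x => by positivity)

/-- Plancherel inequality for the Mellin transform. -/
theorem p_planch : S_planch := fun g c hg hm h2 T₁ T₂ hT => dn_planch_main g c hg hm h2 T₁ T₂ hT

end Pool.Agent.Lib.MP_cd509c_nt.DN
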