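import Pool.Agent.Lib.MP_cd509c_nt.DN.Defs2

set_option autoImplicit false

/-!
Project DN, stage 2, piece `pr`: the number of primes in `(Q, 4Q]`.
-/

namespace Pool.Agent.Lib.MP_cd509c_nt.DN

open Filter Finset

/-- The primes in `(Q, 4Q]` and the function theta of Chebyshev. -/
private lemma dn_pr_theta {Q : ℝ} (hQ : 1 ≤ Q) :
    Chebyshev.theta (4 * Q) - Chebyshev.theta Q ≤ ((PQ Q).card : ℝ) * Real.log (4 * Q) := by
  classical
  have hle : ⌊Q⌋₊ ≤ ⌊4 * Q⌋₊ := Nat.floor_mono (by linarith only [hQ])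
  have h1 : Chebyshev.theta (4 * Q) - Chebyshev.theta Q = ∑ p ∈ PQ Q, Real.log p := by
    unfold Chebyshev.theta PQ
    have h2 : (Ioc 0 ⌊4 * Q⌋₊).filter Nat.Prime =
        (Ioc 0 ⌊Q⌋₊).filter Nat.Prime ∪ (Ioc ⌊Q⌋₊ ⌊4 * Q⌋₊).filter Nat.Prime := by
      rw [← Finset.filter_union, Finset.Ioc_union_Ioc_eq_Ioc (Nat.zero_le _) hle]
    rw [h2, Finset.sum_union]
    · ring
    · apply Finset.disjoint_filter_filter
      rw [Finset.disjoint_left]
      intro p hp hp2
      have h3 := (Finset.mem_Ioc.1 hp).2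
      have h4 := (Finset.mem_Ioc.1 hp2).1
      omega
  rw [h1, ← nsmul_eq_mul]
  apply Finset.sum_le_card_nsmul
  intro p hp
  have h2 := Finset.mem_Ioc.1 (Finset.mem_filter.1 hp).1
  have h3 : (p : ℝ) ≤ 4 * Q := (Nat.le_floor_iff (by linarith only [hQ])).1 h2.2
  have h4 : (0 : ℝ) < p := by
    have : 0 < p := by omega
    exact_mod_cast this
  exact Real.log_le_log h4 h3

/-- There is a prime in `(Q, 4Q]`. -/
private lemma dn_pr_one {Q : ℝ} (hQ : 1 ≤ Q) : (1 : ℝ) ≤ ((PQ Q).card : ℝ) := by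
  have h0 : ⌊Q⌋₊ ≠ 0 := by
    have := Nat.le_floor (a := Q) (n := 1) (by simpa using hQ)
    omega
  obtain ⟨p, hp, hp1, hp2⟩ := Nat.exists_prime_lt_and_le_two_mul ⌊Q⌋₊ h0
  have h1 : p ∈ PQ Q := by
    unfold PQ
    rw [Finset.mem_filter, Finset.mem_Ioc]
    refine ⟨⟨hp1, ?_⟩, hp⟩
    apply Nat.le_floor
    have h2 : (p : ℝ) ≤ ((2 * ⌊Q⌋₊ : ℕ) : ℝ) := by exact_mod_cast hp2
    have h3 := Nat.floor_le (a := Q) (by linarith only [hQ])
    push_cast at h2
    linarith only [h2, h3, hQ]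
  have h2 : 1 ≤ (PQ Q).card := Finset.card_pos.2 ⟨p, h1⟩
  exact_mod_cast h2

private lemma dn_pr_ev (ε : ℝ) (hε : 0 < ε) : ∀ᶠ Q : ℝ in atTop, Q ≤
    Chebyshev.theta (4 * Q) - Chebyshev.theta Q ∧ Real.log (4 * Q) ≤ Q ^ ε := by
  have h4 : Tendsto (fun Q : ℝ => 4 * Q) atTop atTop :=
    Filter.Tendsto.const_mul_atTop (by norm_num) tendsto_id
  have e1 := h4.eventually ((isLittleO_log_rpow_atTop (show (0 : ℝ) < 1 / 2 by norm_num)).def
    (show (0 : ℝ) < 1 / 80 by norm_num))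
  have e2 := h4.eventually ((isLittleO_log_rpow_atTop hε).def
    (show (0 : ℝ) < (4 : ℝ) ^ (-ε) by positivity))
  filter_upwards [e1, e2, eventually_ge_atTop 100] with Q q1 q2 hQ
  have hQ0 : (0 : ℝ) < Q := by linarith only [hQ]
  have hlog : 0 ≤ Real.log (4 * Q) := Real.log_nonneg (by linarith only [hQ])
  rw [Real.norm_of_nonneg hlog, Real.norm_of_nonneg (by positivity)] at q1 q2
  constructor
  · have h1 := Chebyshev.theta_ge' (x := 4 * Q) (by linarith only [hQ])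
    have h2 := Chebyshev.theta_le_log4_mul_x hQ0.le
    have h3 : Real.log 4 = 2 * Real.log 2 := by
      rw [show (4 : ℝ) = 2 ^ 2 by norm_num, Real.log_pow]
      norm_num
    rw [h3] at h2
    have h5 : Real.log (4 * Q + 2) ≤ Real.log 2 + Real.log (4 * Q) := by
      rw [← Real.log_mul (by norm_num) (by linarith only [hQ])]
      exact Real.log_le_log (by linarith only [hQ]) (by linarith only [hQ])
    have h6 : √(4 * Q) = 2 * √Q := by
      rw [Real.sqrt_mul (by norm_num), show (4 : ℝ) = 2 ^ 2 by norm_num,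
        Real.sqrt_sq (by norm_num)]
    have h7 : (4 * Q) ^ (1 / 2 : ℝ) = 2 * √Q := by
      rw [← Real.sqrt_eq_rpow, h6]
    rw [h7] at q1
    rw [h6] at h1
    have h8 : √Q * √Q = Q := Real.mul_self_sqrt hQ0.le
    have h9 : 10 ≤ √Q := by
      rw [show (10 : ℝ) = √(10 ^ 2) by rw [Real.sqrt_sq (by norm_num)]]
      exact Real.sqrt_le_sqrt (by linarith only [hQ])
    have h10 : 2 * (2 * √Q) * Real.log (4 * Q) ≤ Q / 10 := by
      calc 2 * (2 * √Q) * Real.log (4 * Q) ≤ 2 * (2 * √Q) * (1 / 80 * (2 * √Q)) :=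
            mul_le_mul_of_nonneg_left q1 (by positivity)
        _ = (√Q * √Q) / 10 := by ring
        _ = Q / 10 := by rw [h8]
    have h11 : √Q ≤ Q / 10 := by
      have : 10 * √Q ≤ √Q * √Q := mul_le_mul_of_nonneg_right h9 (Real.sqrt_nonneg _)
      linarith only [this, h8]
    have h12 := Real.log_two_gt_d9
    have h13 := Real.log_two_lt_d9
    have h14 : 0.69 * (2 * Q) ≤ Real.log 2 * (2 * Q) :=
      mul_le_mul_of_nonneg_right (by linarith only [h12]) (by linarith only [hQ])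
    have h15 : (4 * Q - 1) * Real.log 2 = 2 * (Real.log 2 * (2 * Q)) - Real.log 2 := by ring
    have h16 : 2 * Real.log 2 * Q = Real.log 2 * (2 * Q) := by ring
    rw [h15] at h1
    rw [h16] at h2
    linarith only [h1, h2, h5, h10, h11, q1, h13, h14, hQ]
  · refine q2.trans (le_of_eq ?_)
    rw [Real.mul_rpow (by norm_num) hQ0.le, ← mul_assoc, ← Real.rpow_add (by norm_num),
      neg_add_cancel, Real.rpow_zero, one_mul]

theorem p_pr : S_pr := by
  intro ε hε
  obtain ⟨Q₀, hQ₀⟩ := eventually_atTop.1 (dn_pr_ev ε hε)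
  have hM : 0 < max Q₀ 1 := lt_of_lt_of_le one_pos (le_max_right _ _)
  refine ⟨1 / max Q₀ 1, by positivity, fun Q hQ => ?_⟩
  have hQ0 : (0 : ℝ) < Q := by linarith only [hQ]
  by_cases h : Q₀ ≤ Q
  · obtain ⟨h1, h2⟩ := hQ₀ Q h
    have h3 := dn_pr_theta (Q := Q) (by linarith only [hQ])
    have h4 : Q ≤ ((PQ Q).card : ℝ) * Q ^ ε :=
      (h1.trans h3).trans (mul_le_mul_of_nonneg_left h2 (Nat.cast_nonneg _))
    have h5 : Q ^ (1 - ε) ≤ ((PQ Q).card : ℝ) := by
      rw [Real.rpow_sub hQ0, Real.rpow_one, div_le_iff₀ (by positivity)]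
      exact h4
    refine le_trans ?_ h5
    have h6 : 1 / max Q₀ 1 ≤ 1 := by
      rw [div_le_one hM]
      exact le_max_right _ _
    calc 1 / max Q₀ 1 * Q ^ (1 - ε) ≤ 1 * Q ^ (1 - ε) :=
          mul_le_mul_of_nonneg_right h6 (by positivity)
      _ = _ := one_mul _
  · push Not at h
    refine le_trans ?_ (dn_pr_one (Q := Q) (by linarith only [hQ]))
    rw [one_div, inv_mul_le_iff₀ hM, mul_one]
    calc Q ^ (1 - ε) ≤ Q ^ (1 : ℝ) :=
          Real.rpow_le_rpow_of_exponent_le (by linarith only [hQ]) (by linarith only [hε])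
      _ = Q := Real.rpow_one _
      _ ≤ max Q₀ 1 := h.le.trans (le_max_left _ _)

end Pool.Agent.Lib.MP_cd509c_nt.DN
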