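import Mathlib
import Pool.Agent.Lib.MP_cd509c_nt.DN.Defs
import Pool.Agent.Lib.MP_cd509c_nt.ZeroFree

/-!
# Piece ray: the Mellin transform on a ray
-/

set_option autoImplicit false

namespace Pool.Agent.Lib.MP_cd509c_nt.DN

open Complex ComplexConjugate MeasureTheory Filter Topology Asymptotics

theorem dn_ray_normG {a r : ℂ} {t : ℝ} (ht : 0 < t) :
    ‖(t : ℂ) ^ (a - 1) * cexp (-(r * t))‖ = t ^ (a.re - 1) * Real.exp (-r.re * t ^ (1 : ℝ)) := by
  rw [norm_mul, Complex.norm_cpow_eq_rpow_re_of_pos ht, Complex.norm_exp, neg_re,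
    re_mul_ofReal, sub_re, one_re, Real.rpow_one, neg_mul]

theorem dn_ray_measG (a r : ℂ) : AEStronglyMeasurable
    (fun t : ℝ => (t : ℂ) ^ (a - 1) * cexp (-(r * t))) (volume.restrict (Set.Ioi 0)) := by
  refine ContinuousOn.aestronglyMeasurable ?_ measurableSet_Ioi
  refine ContinuousOn.mul ?_ (by fun_prop)
  intro t ht
  exact (Complex.continuousAt_ofReal_cpow_const t _ (Or.inr (ne_of_gt ht))).continuousWithinAt

theorem dn_ray_intG {a r : ℂ} (ha : 0 < a.re) (hr : 0 < r.re) :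
    IntegrableOn (fun t : ℝ => (t : ℂ) ^ (a - 1) * cexp (-(r * t))) (Set.Ioi 0) := by
  rw [IntegrableOn, ← integrable_norm_iff (dn_ray_measG a r)]
  have h := integrableOn_rpow_mul_exp_neg_mul_rpow (s := a.re - 1) (p := 1) (b := r.re)
    (by linarith) one_pos hr
  refine h.congr ?_
  filter_upwards [ae_restrict_mem measurableSet_Ioi] with t ht
  exact (dn_ray_normG ht).symm

theorem dn_ray_derivG {a r : ℂ} (ha : 0 < a.re) (hr : 0 < r.re) :
    DifferentiableAt ℂ (fun r : ℂ => ∫ t in Set.Ioi (0 : ℝ), (t : ℂ) ^ (a - 1) * cexp (-(r * t))) r := by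
  have hU : {z : ℂ | r.re / 2 < z.re} ∈ 𝓝 r :=
    (isOpen_lt continuous_const Complex.continuous_re).mem_nhds (by simp; linarith)
  have h := hasDerivAt_integral_of_dominated_loc_of_deriv_le (𝕜 := ℂ) (μ := volume.restrict (Set.Ioi (0 : ℝ)))
    (F := fun (r : ℂ) (t : ℝ) => (t : ℂ) ^ (a - 1) * cexp (-(r * t)))
    (F' := fun (r : ℂ) (t : ℝ) => (t : ℂ) ^ (a - 1) * (cexp (-(r * t)) * (-t)))
    (x₀ := r) (bound := fun t : ℝ => t ^ a.re * Real.exp (-(r.re / 2) * t ^ (1 : ℝ))) hU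
    (Eventually.of_forall fun r => dn_ray_measG a r) (dn_ray_intG ha hr) ?_ ?_ ?_ ?_
  · exact h.2.differentiableAt
  · have := (dn_ray_measG a r).mul (f := _) (g := fun t : ℝ => (-(t : ℂ)))
      (by fun_prop : AEStronglyMeasurable (fun t : ℝ => (-(t : ℂ))) (volume.restrict (Set.Ioi 0)))
    refine this.congr (Eventually.of_forall fun t => ?_)
    simp only [Pi.mul_apply]
    ring
  · filter_upwards [ae_restrict_mem measurableSet_Ioi] with t ht z hz
    have ht' : (0 : ℝ) < t := ht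
    have hz' : r.re / 2 < z.re := hz
    rw [← mul_assoc, norm_mul, dn_ray_normG ht', norm_neg, Complex.norm_real, Real.norm_of_nonneg ht'.le]
    have h1 : t ^ a.re = t ^ (a.re - 1) * t := by
      rw [← Real.rpow_add_one ht'.ne']; congr 1; ring
    rw [h1, Real.rpow_one]
    have h2 : Real.exp (-z.re * t) ≤ Real.exp (-(r.re / 2) * t) :=
      Real.exp_le_exp.2 (by nlinarith)
    have h3 : 0 ≤ t ^ (a.re - 1) := (Real.rpow_pos_of_pos ht' _).le
    nlinarith [mul_le_mul_of_nonneg_left h2 (mul_nonneg h3 ht'.le)]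
  · exact integrableOn_rpow_mul_exp_neg_mul_rpow (by linarith) one_pos (by linarith)
  · refine Eventually.of_forall fun t z _ => ?_
    have h1 : HasDerivAt (fun z : ℂ => -(z * t)) (-t : ℂ) z := by
      have h2 := (hasDerivAt_mul_const (x := z) (t : ℂ)).neg
      exact h2
    exact h1.cexp.const_mul _

theorem dn_ray_gamma {a r : ℂ} (ha : 0 < a.re) (hr : 0 < r.re) :
    ∫ t in Set.Ioi (0 : ℝ), (t : ℂ) ^ (a - 1) * cexp (-(r * t)) = (1 / r) ^ a * Gamma a := by
  have hopen : IsOpen {z : ℂ | 0 < z.re} := isOpen_lt continuous_const Complex.continuous_re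
  have hA : AnalyticOnNhd ℂ (fun r : ℂ => ∫ t in Set.Ioi (0 : ℝ), (t : ℂ) ^ (a - 1) * cexp (-(r * t)))
      {z : ℂ | 0 < z.re} :=
    DifferentiableOn.analyticOnNhd (fun z hz => (dn_ray_derivG ha hz).differentiableWithinAt) hopen
  have hB : AnalyticOnNhd ℂ (fun r : ℂ => (1 / r) ^ a * Gamma a) {z : ℂ | 0 < z.re} := by
    refine DifferentiableOn.analyticOnNhd (fun z hz => ?_) hopen
    have hz' : 0 < z.re := hz
    have hz0 : z ≠ 0 := by rintro rfl; simp at hz'
    refine DifferentiableAt.differentiableWithinAt ?_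
    have h1 : (1 / z) ∈ slitPlane := by
      rw [mem_slitPlane_iff]
      left
      rw [one_div, inv_re]
      exact div_pos hz' (normSq_pos.2 hz0)
    have h2 : DifferentiableAt ℂ (fun z : ℂ => 1 / z) z := by
      simpa using differentiableAt_inv hz0
    exact (h2.cpow_const h1).mul_const _
  have hconn : IsPreconnected {z : ℂ | 0 < z.re} := (convex_halfSpace_re_gt 0).isPreconnected
  refine hA.eqOn_of_preconnected_of_frequently_eq hB hconn (z₀ := 1) (by simp) ?_ hr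
  have h3 : ∃ᶠ x : ℝ in 𝓝[≠] 1, 0 < x := by
    refine Eventually.frequently ?_
    exact nhdsWithin_le_nhds (eventually_gt_nhds one_pos)
  have h4 : Tendsto (fun x : ℝ => (x : ℂ)) (𝓝[≠] 1) (𝓝[≠] 1) := by
    have : Tendsto (fun x : ℝ => (x : ℂ)) (𝓝[≠] 1) (𝓝[≠] ((1 : ℝ) : ℂ)) :=
      tendsto_nhdsWithin_of_tendsto_nhds_of_eventually_within _
        (Complex.continuous_ofReal.continuousAt.tendsto.mono_left nhdsWithin_le_nhds)
        (by filter_upwards [self_mem_nhdsWithin] with x hx; simpa using hx)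
    simpa using this
  refine h4.frequently (h3.mono fun x hx => ?_)
  exact Complex.integral_cpow_mul_exp_neg_mul_Ioi ha hx

theorem dn_ray_norm (m : ℕ) (w : ℂ) :
    ‖tau m * cexp (2 * Real.pi * Complex.I * (m * w))‖ = ‖tau m‖ * Real.exp (-(2 * Real.pi * m * w.im)) := by
  rw [norm_mul, Complex.norm_exp]
  congr 2
  have : (2 * Real.pi * Complex.I * (m * w) : ℂ) = ((2 * Real.pi * m : ℝ) : ℂ) * (Complex.I * w) := by
    push_cast; ring
  rw [this, re_ofReal_mul]
  simp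

/-- exponential decay at the cusp -/
theorem dn_ray_decay : ∃ C : ℝ, 0 < C ∧ ∀ w : ℂ, 1 ≤ w.im →
    ‖Dc w‖ ≤ C * Real.exp (-(2 * Real.pi * w.im)) := by
  have h1 := (Dc_hasSum (w := Complex.I) (by simp)).summable.norm
  have h2 : Summable fun m : ℕ => ‖tau m‖ * Real.exp (-(2 * Real.pi * m)) := by
    refine h1.congr fun m => ?_
    rw [dn_ray_norm]
    simp
  set C := ∑' m : ℕ, ‖tau m‖ * Real.exp (-(2 * Real.pi * m)) with hC
  have hC0 : 0 ≤ C := tsum_nonneg fun m => by positivity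
  refine ⟨(C + 1) * Real.exp (2 * Real.pi), by positivity, fun w hw => ?_⟩
  have h3 := Dc_hasSum (w := w) (by linarith)
  have h4 : ∀ m : ℕ, ‖tau m * cexp (2 * Real.pi * Complex.I * (m * w))‖ ≤
      Real.exp (-(2 * Real.pi * (w.im - 1))) * (‖tau m‖ * Real.exp (-(2 * Real.pi * m))) := by
    intro m
    rw [dn_ray_norm]
    rcases Nat.eq_zero_or_pos m with hm | hm
    · subst hm
      rw [tau_zero]; simp
    · have hm1 : (1 : ℝ) ≤ m := by exact_mod_cast hm
      rw [mul_left_comm, ← Real.exp_add]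
      refine mul_le_mul_of_nonneg_left (Real.exp_le_exp.2 ?_) (norm_nonneg _)
      have hpi := Real.pi_pos
      have h5 : 0 ≤ Real.pi * ((m - 1) * (w.im - 1)) :=
        mul_nonneg hpi.le (mul_nonneg (by linarith) (by linarith))
      nlinarith
  have h5 : ‖Dc w‖ ≤ Real.exp (-(2 * Real.pi * (w.im - 1))) * C := by
    rw [← h3.tsum_eq, hC, ← tsum_mul_left]
    exact (norm_tsum_le_tsum_norm h3.summable.norm).trans
      (h3.summable.norm.tsum_le_tsum h4 (h2.mul_left _))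
  have h6 : Real.exp (-(2 * Real.pi * (w.im - 1))) =
      Real.exp (2 * Real.pi) * Real.exp (-(2 * Real.pi * w.im)) := by
    rw [← Real.exp_add]; congr 1; ring
  rw [h6] at h5
  have h7 : 0 < Real.exp (2 * Real.pi) * Real.exp (-(2 * Real.pi * w.im)) := by positivity
  nlinarith

theorem dn_ray_im {δ : ℝ} (y : ℝ) : ((y : ℂ) * cexp (δ * I)).im = y * Real.sin δ := by
  rw [im_ofReal_mul, Complex.exp_ofReal_mul_I_im]

theorem dn_ray_contOn {δ : ℝ} (h0 : 0 < δ) (h1 : δ < Real.pi) :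
    ContinuousOn (fun y : ℝ => Dc (y * cexp (δ * I))) (Set.Ioi 0) := by
  intro y hy
  have hs := Real.sin_pos_of_pos_of_lt_pi h0 h1
  have h2 : ContinuousAt Dc ((y : ℂ) * cexp (δ * I)) :=
    (Dc_differentiableAt (by rw [dn_ray_im]; exact mul_pos hy hs)).continuousAt
  exact (h2.comp (f := fun y : ℝ => (y : ℂ) * cexp (δ * I)) (by fun_prop)).continuousWithinAt

theorem dn_ray_top {δ : ℝ} (h0 : 0 < δ) (h1 : δ < Real.pi) (a : ℝ) :
    (fun y : ℝ => Dc (y * cexp (δ * I))) =O[atTop] fun y : ℝ => y ^ (-a) := by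
  have hs := Real.sin_pos_of_pos_of_lt_pi h0 h1
  obtain ⟨C, hC, hd⟩ := dn_ray_decay
  have h2 : (fun y : ℝ => Dc (y * cexp (δ * I))) =O[atTop]
      fun y : ℝ => Real.exp (-(2 * Real.pi * Real.sin δ) * y) := by
    refine IsBigO.of_bound C ?_
    filter_upwards [eventually_ge_atTop (1 / Real.sin δ)] with y hy
    rw [div_le_iff₀ hs] at hy
    have h3 := hd ((y : ℂ) * cexp (δ * I)) (by rw [dn_ray_im]; exact hy)
    rw [dn_ray_im] at h3
    rw [Real.norm_of_nonneg (Real.exp_pos _).le]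
    refine h3.trans (le_of_eq ?_)
    congr 2; ring
  exact h2.trans (isLittleO_exp_neg_mul_rpow_atTop (by have := Real.pi_pos; positivity) _).isBigO

theorem dn_ray_bot {δ : ℝ} (h0 : 0 < δ) (h1 : δ < Real.pi) (b : ℝ) :
    (fun y : ℝ => Dc (y * cexp (δ * I))) =O[𝓝[>] 0] fun y : ℝ => y ^ (-b) := by
  have hs := Real.sin_pos_of_pos_of_lt_pi h0 h1
  obtain ⟨C, hC, hd⟩ := dn_ray_decay
  have h2 : (fun y : ℝ => Dc (y * cexp (δ * I))) =O[𝓝[>] 0]
      fun y : ℝ => Real.exp (-(2 * Real.pi * Real.sin δ) * y⁻¹) * y⁻¹ ^ (12 : ℝ) := by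
    refine IsBigO.of_bound C ?_
    have h4 : ∀ᶠ y : ℝ in 𝓝[>] 0, y < Real.sin δ :=
      nhdsWithin_le_nhds (eventually_lt_nhds hs)
    filter_upwards [h4, self_mem_nhdsWithin] with y hy hy0
    have hy0' : (0 : ℝ) < y := hy0
    set w : ℂ := (y : ℂ) * cexp (δ * I) with hw
    have hwim : 0 < w.im := by rw [hw, dn_ray_im]; positivity
    have hwn : ‖w‖ = y := by
      rw [hw, norm_mul, Complex.norm_exp_ofReal_mul_I, mul_one, Complex.norm_real,
        Real.norm_of_nonneg hy0'.le]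
    have h5 : (-1 / w).im = Real.sin δ / y := by
      have : (-1 / w) = -w⁻¹ := by rw [neg_div, one_div]
      rw [this, neg_im, inv_im, normSq_eq_norm_sq, hwn, hw, dn_ray_im]
      field_simp
    have h6 := Dc_S hwim
    have h7 := hd (-1 / w) (by rw [h5, le_div_iff₀ hy0', one_mul]; exact hy.le)
    rw [h6, norm_mul, norm_pow, hwn, h5] at h7
    have h8 : (0 : ℝ) ≤ Real.exp (-(2 * Real.pi * Real.sin δ) * y⁻¹) * y⁻¹ ^ (12 : ℝ) := by positivity
    rw [Real.norm_of_nonneg h8]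
    have h9 : y⁻¹ ^ (12 : ℝ) = (y ^ 12)⁻¹ := by
      rw [show (12 : ℝ) = ((12 : ℕ) : ℝ) by norm_num, Real.rpow_natCast, inv_pow]
    rw [h9, ← mul_assoc, ← div_eq_mul_inv, le_div_iff₀ (by positivity), mul_comm]
    refine h7.trans (le_of_eq ?_)
    congr 2
    rw [div_eq_mul_inv]; ring
  have h3 : (fun x : ℝ => Real.exp (-(2 * Real.pi * Real.sin δ) * x) * x ^ (12 : ℝ)) =O[atTop]
      fun x : ℝ => x ^ b := by
    have h4 : (fun x : ℝ => Real.exp (-(2 * Real.pi * Real.sin δ) * x) * x ^ (12 : ℝ)) =O[atTop]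
        fun x : ℝ => x ^ (b - 12) * x ^ (12 : ℝ) :=
      (isLittleO_exp_neg_mul_rpow_atTop (by have := Real.pi_pos; positivity) _).isBigO.mul
        (isBigO_refl _ _)
    refine h4.congr' EventuallyEq.rfl ?_
    filter_upwards [eventually_gt_atTop 0] with x hx
    rw [← Real.rpow_add hx]; congr 1; ring
  have h5 := h3.comp_tendsto tendsto_inv_nhdsGT_zero
  refine h2.trans (h5.congr' EventuallyEq.rfl ?_)
  filter_upwards [self_mem_nhdsWithin] with y hy0
  have hy0' : (0 : ℝ) < y := hy0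
  simp only [Function.comp]
  rw [Real.inv_rpow hy0'.le, Real.rpow_neg hy0'.le]

theorem dn_ray_diff {δ : ℝ} (h0 : 0 < δ) (h1 : δ < Real.pi) :
    Differentiable ℂ (mellin (fun y : ℝ => Dc (y * cexp (δ * I)))) := fun s =>
  mellin_differentiableAt_of_isBigO_rpow (a := s.re + 1) (b := s.re - 1)
    ((dn_ray_contOn h0 h1).locallyIntegrableOn measurableSet_Ioi)
    (dn_ray_top h0 h1 _) (by linarith) (dn_ray_bot h0 h1 _) (by linarith)

/-- the exponents -/
noncomputable def dn_ray_r (δ : ℝ) (n : ℕ) : ℂ := ((2 * Real.pi * n : ℝ) : ℂ) * cexp (((δ - Real.pi / 2 : ℝ) : ℂ) * I)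

theorem dn_ray_r_re (δ : ℝ) (n : ℕ) : (dn_ray_r δ n).re = 2 * Real.pi * n * Real.sin δ := by
  rw [dn_ray_r, re_ofReal_mul, Complex.exp_ofReal_mul_I_re, Real.cos_sub_pi_div_two]

theorem dn_ray_exp (δ : ℝ) (n : ℕ) (t : ℝ) :
    cexp (2 * Real.pi * Complex.I * (n * (t * cexp (δ * I)))) = cexp (-(dn_ray_r δ n * t)) := by
  congr 1
  have h : cexp (((δ - Real.pi / 2 : ℝ) : ℂ) * I) = -I * cexp (δ * I) := by
    have : (((δ - Real.pi / 2 : ℝ) : ℂ) * I) = δ * I - Real.pi / 2 * I := by push_cast; ring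
    rw [this, Complex.exp_sub, Complex.exp_pi_div_two_mul_I, div_I]
    ring
  rw [dn_ray_r, h]
  push_cast
  ring

theorem dn_ray_int {δ : ℝ} (h0 : 0 < δ) (h1 : δ < Real.pi) {n : ℕ} (hn : 1 ≤ n) {σ : ℝ} (hσ : 0 < σ) :
    IntegrableOn (fun t : ℝ => t ^ (σ - 1) * Real.exp (-(2 * Real.pi * n * Real.sin δ) * t ^ (1 : ℝ)))
      (Set.Ioi 0) := by
  have hs := Real.sin_pos_of_pos_of_lt_pi h0 h1
  have hn' : (0 : ℝ) < n := by exact_mod_cast hn
  exact integrableOn_rpow_mul_exp_neg_mul_rpow (by linarith) one_pos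
    (by have := Real.pi_pos; positivity)

theorem dn_ray_termnorm (δ : ℝ) (n : ℕ) {s : ℂ} {t : ℝ} (ht : 0 < t) :
    ‖(t : ℂ) ^ (s - 1) * (tau n * cexp (-(dn_ray_r δ n * t)))‖ =
      ‖tau n‖ * (t ^ (s.re - 1) * Real.exp (-(2 * Real.pi * n * Real.sin δ) * t ^ (1 : ℝ))) := by
  rw [norm_mul, norm_mul, Complex.norm_cpow_eq_rpow_re_of_pos ht, Complex.norm_exp, neg_re,
    re_mul_ofReal, dn_ray_r_re, sub_re, one_re, Real.rpow_one]
  rw [← neg_mul]
  ring

theorem dn_ray_hasSum {δ : ℝ} (h0 : 0 < δ) (h1 : δ < Real.pi) {s : ℂ} (hs : 13 / 2 < s.re) :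
    HasSum (fun n : ℕ => ∫ t in Set.Ioi (0 : ℝ), (t : ℂ) ^ (s - 1) * (tau n * cexp (-(dn_ray_r δ n * t))))
      (mellin (fun y : ℝ => Dc (y * cexp (δ * I))) s) := by
  have hsin := Real.sin_pos_of_pos_of_lt_pi h0 h1
  have hpi := Real.pi_pos
  have h2 : mellin (fun y : ℝ => Dc (y * cexp (δ * I))) s =
      ∫ t in Set.Ioi (0 : ℝ), ∑' n : ℕ, (t : ℂ) ^ (s - 1) * (tau n * cexp (-(dn_ray_r δ n * t))) := by
    rw [mellin]
    refine setIntegral_congr_fun measurableSet_Ioi fun t ht => ?_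
    have ht' : (0 : ℝ) < t := ht
    have h3 := Dc_hasSum (w := (t : ℂ) * cexp (δ * I)) (by rw [dn_ray_im]; positivity)
    simp only [dn_ray_exp] at h3
    simp only [smul_eq_mul]
    rw [tsum_mul_left, h3.tsum_eq]
  rw [h2]
  have hmeas : ∀ n : ℕ, AEStronglyMeasurable
      (fun t : ℝ => (t : ℂ) ^ (s - 1) * (tau n * cexp (-(dn_ray_r δ n * t))))
      (volume.restrict (Set.Ioi 0)) := by
    intro n
    refine ContinuousOn.aestronglyMeasurable ?_ measurableSet_Ioi
    refine ContinuousOn.mul ?_ (by fun_prop)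
    intro t ht
    exact (Complex.continuousAt_ofReal_cpow_const t _ (Or.inr (ne_of_gt ht))).continuousWithinAt
  apply hasSum_integral_of_summable_integral_norm
  · intro n
    rcases Nat.eq_zero_or_pos n with hn | hn
    · subst hn
      simp [tau_zero]
    · rw [← integrable_norm_iff (hmeas n)]
      refine ((dn_ray_int h0 h1 hn (σ := s.re) (by linarith)).const_mul ‖tau n‖).congr ?_
      filter_upwards [ae_restrict_mem measurableSet_Ioi] with t ht
      rw [dn_ray_termnorm δ n ht]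
  · have h4 : ∀ n : ℕ, ∫ t in Set.Ioi (0 : ℝ), ‖(t : ℂ) ^ (s - 1) * (tau n * cexp (-(dn_ray_r δ n * t)))‖ =
        Real.Gamma s.re * ((2 * Real.pi * Real.sin δ) ^ s.re)⁻¹ * (‖tau n‖ / (n : ℝ) ^ s.re) := by
      intro n
      rcases Nat.eq_zero_or_pos n with hn | hn
      · subst hn
        simp [tau_zero]
      · have hn' : (0 : ℝ) < n := by exact_mod_cast hn
        have h5 : ∫ t in Set.Ioi (0 : ℝ), ‖(t : ℂ) ^ (s - 1) * (tau n * cexp (-(dn_ray_r δ n * t)))‖ =
            ∫ t in Set.Ioi (0 : ℝ), ‖tau n‖ *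
              (t ^ (s.re - 1) * Real.exp (-((2 * Real.pi * n * Real.sin δ) * t))) := by
          refine setIntegral_congr_fun measurableSet_Ioi fun t ht => ?_
          have h6 := dn_ray_termnorm δ n (s := s) (t := t) ht
          rw [Real.rpow_one, neg_mul] at h6
          exact h6
        rw [h5, integral_const_mul, Real.integral_rpow_mul_exp_neg_mul_Ioi (by linarith) (by positivity),
          one_div, Real.inv_rpow (by positivity)]
        rw [show 2 * Real.pi * n * Real.sin δ = (2 * Real.pi * Real.sin δ) * n by ring,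
          Real.mul_rpow (by positivity) hn'.le, mul_inv]
        rw [div_eq_mul_inv]
        ring
    simp only [h4]
    exact (tau_summable hs).mul_left _

theorem dn_ray_term {δ : ℝ} (h0 : 0 < δ) (h1 : δ < Real.pi) {s : ℂ} (hs : 13 / 2 < s.re) (n : ℕ) :
    ∫ t in Set.Ioi (0 : ℝ), (t : ℂ) ^ (s - 1) * (tau n * cexp (-(dn_ray_r δ n * t))) =
      cexp (I * (Real.pi / 2 - δ) * s) * (Gamma s * tau n / ((2 * Real.pi * n : ℝ) : ℂ) ^ s) := by
  have hsin := Real.sin_pos_of_pos_of_lt_pi h0 h1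
  have hpi := Real.pi_pos
  rcases Nat.eq_zero_or_pos n with hn | hn
  · subst hn
    simp [tau_zero]
  have hn' : (0 : ℝ) < n := by exact_mod_cast hn
  have h2 : ∫ t in Set.Ioi (0 : ℝ), (t : ℂ) ^ (s - 1) * (tau n * cexp (-(dn_ray_r δ n * t))) =
      tau n * ∫ t in Set.Ioi (0 : ℝ), (t : ℂ) ^ (s - 1) * cexp (-(dn_ray_r δ n * t)) := by
    rw [← integral_const_mul]
    refine setIntegral_congr_fun measurableSet_Ioi fun t _ => ?_
    ring
  rw [h2, dn_ray_gamma (by linarith) (by rw [dn_ray_r_re]; positivity)]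
  have hx : (0 : ℝ) < 2 * Real.pi * n := by positivity
  have h3 : 1 / dn_ray_r δ n = (((2 * Real.pi * n)⁻¹ : ℝ) : ℂ) * cexp (((Real.pi / 2 - δ : ℝ) : ℂ) * I) := by
    rw [dn_ray_r, one_div, mul_inv, ← Complex.exp_neg]
    push_cast
    congr 2
    ring
  have h4 : Complex.log (cexp (((Real.pi / 2 - δ : ℝ) : ℂ) * I)) = ((Real.pi / 2 - δ : ℝ) : ℂ) * I := by
    apply Complex.log_exp
    · simp; linarith
    · simp; linarith
  have h5 : (1 / dn_ray_r δ n) ^ s = cexp (I * (Real.pi / 2 - δ) * s) / ((2 * Real.pi * n : ℝ) : ℂ) ^ s := by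
    rw [h3, cpow_def_of_ne_zero (mul_ne_zero (by exact_mod_cast (inv_pos.2 hx).ne') (Complex.exp_ne_zero _)),
      Complex.log_ofReal_mul (inv_pos.2 hx) (Complex.exp_ne_zero _), h4,
      cpow_def_of_ne_zero (by exact_mod_cast hx.ne'), ← Complex.ofReal_log hx.le, Real.log_inv,
      ← Complex.exp_sub]
    congr 1
    push_cast
    ring
  rw [h5]
  ring

theorem p_ray : S_ray := by
  intro δ h0 h1 s
  have hA : AnalyticOnNhd ℂ (mellin (fun y : ℝ => Dc (y * cexp (δ * I)))) Set.univ :=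
    analyticOnNhd_univ_iff_differentiable.2 (dn_ray_diff h0 h1)
  have hB : AnalyticOnNhd ℂ (fun s : ℂ => cexp (I * (Real.pi / 2 - δ) * s) * Lam s) Set.univ := by
    refine analyticOnNhd_univ_iff_differentiable.2 ?_
    exact (by fun_prop : Differentiable ℂ fun s : ℂ => cexp (I * (Real.pi / 2 - δ) * s)).mul
      Lam_differentiable
  have hE : ∀ s : ℂ, 13 / 2 < s.re → mellin (fun y : ℝ => Dc (y * cexp (δ * I))) s =
      cexp (I * (Real.pi / 2 - δ) * s) * Lam s := by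
    intro s hs
    have h2 := dn_ray_hasSum h0 h1 hs
    simp only [dn_ray_term h0 h1 hs] at h2
    exact h2.unique ((Lam_hasSum' hs).mul_left _)
  refine hA.eqOn_of_preconnected_of_eventuallyEq hB isPreconnected_univ (z₀ := 7) (Set.mem_univ _) ?_
    (Set.mem_univ s)
  have h3 : {z : ℂ | 13 / 2 < z.re} ∈ 𝓝 (7 : ℂ) :=
    (isOpen_lt continuous_const Complex.continuous_re).mem_nhds (by norm_num)
  filter_upwards [h3] with z hz
  exact hE z hz

end Pool.Agent.Lib.MP_cd509c_nt.DN
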