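import Pool.Agent.Lib.MP_cd509c_nt.DN.Defs

set_option autoImplicit false

/-!
Project DN, section C: the square norm of the discriminant on a ray.
-/

namespace Pool.Agent.Lib.MP_cd509c_nt.DN

open Complex ComplexConjugate MeasureTheory

/-- Decay of the discriminant at the cusp. -/
lemma dn_raySq_dec : ∃ C : ℝ, 0 < C ∧ ∀ w : ℂ, 0 < w.im → ‖Dc w‖ * w.im ^ 13 ≤ C := by
  obtain ⟨K, hK, hb⟩ := tau_bound
  have hsum : Summable (fun n : ℕ => ((n : ℝ) ^ 7)⁻¹) := by
    have := Real.summable_nat_pow_inv (p := 7)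
    exact this.2 (by norm_num)
  set S : ℝ := ∑' n : ℕ, ((n : ℝ) ^ 7)⁻¹ with hS
  have hS0 : 0 ≤ S := tsum_nonneg fun n => by positivity
  set F : ℝ := ((Nat.factorial 13 : ℕ) : ℝ) with hF
  have hF0 : 0 < F := by rw [hF]; exact_mod_cast Nat.factorial_pos 13
  refine ⟨K * F * S + 1, by positivity, ?_⟩
  intro w hw
  have hsum2 : HasSum (fun n : ℕ => K * F / w.im ^ 13 * ((n : ℝ) ^ 7)⁻¹) (K * F / w.im ^ 13 * S) :=
    hsum.hasSum.mul_left _
  have hterm : ∀ n : ℕ, ‖tau n * cexp (2 * Real.pi * Complex.I * (n * w))‖ ≤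
      K * F / w.im ^ 13 * ((n : ℝ) ^ 7)⁻¹ := by
    intro n
    rcases Nat.eq_zero_or_pos n with h0 | h0
    · subst h0
      rw [tau_zero]
      simp
    · have hn : (1 : ℝ) ≤ n := by exact_mod_cast h0
      have hn0 : (0 : ℝ) < n := by linarith
      rw [norm_mul, Complex.norm_exp]
      have e1 : (2 * (Real.pi : ℂ) * Complex.I * ((n : ℂ) * w)).re = -(2 * Real.pi * (n * w.im)) := by
        simp
      rw [e1]
      have hx : 0 < n * w.im := by positivity
      have h1 : Real.exp (-(2 * Real.pi * (n * w.im))) ≤ F / (n * w.im) ^ 13 := by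
        have h2 := Real.pow_div_factorial_le_exp (n * w.im) hx.le 13
        rw [← hF] at h2
        have h3 : Real.exp (-(2 * Real.pi * (n * w.im))) ≤ Real.exp (-(n * w.im)) := by
          apply Real.exp_le_exp.2
          have := Real.pi_gt_three
          nlinarith
        refine h3.trans ?_
        rw [Real.exp_neg, inv_le_comm₀ (Real.exp_pos _) (by positivity), inv_div]
        exact h2
      calc ‖tau n‖ * Real.exp (-(2 * Real.pi * (n * w.im)))
          ≤ (K * (n : ℝ) ^ 6) * (F / (n * w.im) ^ 13) :=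
            mul_le_mul (hb n h0) h1 (Real.exp_pos _).le (by positivity)
        _ = K * F / w.im ^ 13 * ((n : ℝ) ^ 7)⁻¹ := by
            field_simp
  have h1 : ‖Dc w‖ ≤ K * F / w.im ^ 13 * S := by
    rw [← (Dc_hasSum hw).tsum_eq, ← hsum2.tsum_eq]
    exact tsum_of_norm_bounded hsum2.summable.hasSum hterm
  calc ‖Dc w‖ * w.im ^ 13 ≤ (K * F / w.im ^ 13 * S) * w.im ^ 13 :=
        mul_le_mul_of_nonneg_right h1 (by positivity)
    _ = K * F * S := by field_simp
    _ ≤ _ := by linarith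

/-- The three bounds on the ray. -/
lemma dn_raySq_pt : ∃ C : ℝ, 0 < C ∧ ∀ δ : ℝ, 0 < δ → δ ≤ 1 / 2 → ∀ σ : ℝ, 0 ≤ σ → σ ≤ 1 →
    ∀ y : ℝ, 0 < y →
    (y ≤ Real.sin δ → ‖Dc (y * cexp (δ * I))‖ ^ 2 * y ^ (11 + 2 * σ) ≤ C / Real.sin δ ^ 13) ∧
    (y ≤ 1 / Real.sin δ → ‖Dc (y * cexp (δ * I))‖ ^ 2 * y ^ (11 + 2 * σ) ≤
      C * Real.sin δ ^ (-(2 * σ)) / Real.sin δ ^ 12 * y⁻¹) ∧
    (1 / Real.sin δ < y → ‖Dc (y * cexp (δ * I))‖ ^ 2 * y ^ (11 + 2 * σ) ≤
      C * Real.sin δ ^ (-(2 * σ)) / Real.sin δ ^ 13 * y ^ (-2 : ℝ)) := by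
  obtain ⟨C₁, hC₁, h1⟩ := dn_raySq_dec
  obtain ⟨C₂, hC₂, h2⟩ := Dc_bound
  refine ⟨(C₁ + C₂) ^ 2, by positivity, ?_⟩
  intro δ hδ0 hδ1 σ hσ0 hσ1 y hy
  set s := Real.sin δ with hs
  have hs0 : 0 < s := Real.sin_pos_of_pos_of_lt_pi hδ0 (by linarith [Real.pi_gt_three])
  have hs1 : s ≤ 1 := Real.sin_le_one δ
  set w : ℂ := y * cexp (δ * I) with hw
  have hwim : w.im = y * s := by
    rw [hw, Complex.exp_mul_I]
    simp [← Complex.ofReal_cos, ← Complex.ofReal_sin, hs]
  have hwnorm : ‖w‖ = y := by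
    rw [hw, norm_mul, Complex.norm_exp_ofReal_mul_I, mul_one, Complex.norm_real,
      Real.norm_of_nonneg hy.le]
  have hw0 : 0 < w.im := by rw [hwim]; positivity
  have hsplit : y ^ (11 + 2 * σ) = y ^ 11 * y ^ (2 * σ) := by
    rw [Real.rpow_add hy]
    norm_num
  have hC12 : C₁ ^ 2 ≤ (C₁ + C₂) ^ 2 := by nlinarith
  have hC22 : C₂ ^ 2 ≤ (C₁ + C₂) ^ 2 := by nlinarith
  have hQ : s ^ (-(2 * σ)) = (1 / s) ^ (2 * σ) := by
    rw [one_div, Real.inv_rpow hs0.le, Real.rpow_neg hs0.le]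
  have hQ0 : 0 < s ^ (-(2 * σ)) := Real.rpow_pos_of_pos hs0 _
  refine ⟨fun hys => ?_, fun hys => ?_, fun hys => ?_⟩
  · -- near zero
    have him : (-1 / w).im = s / y := by
      have e1 : (-1 / w).im = w.im / Complex.normSq w := by
        rw [neg_div, Complex.neg_im, one_div, Complex.inv_im]
        ring
      rw [e1, Complex.normSq_eq_norm_sq, hwnorm, hwim]
      field_simp
    have h3 := h1 (-1 / w) (by rw [him]; positivity)
    rw [Dc_S hw0, norm_mul, norm_pow, hwnorm, him] at h3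
    have h4 : ‖Dc w‖ ≤ C₁ * y / s ^ 13 := by
      have e : y ^ 12 * ‖Dc w‖ * (s / y) ^ 13 = ‖Dc w‖ * s ^ 13 / y := by
        field_simp
      rw [e, div_le_iff₀ hy] at h3
      rw [le_div_iff₀ (by positivity)]
      exact h3
    have h5 : y ^ (2 * σ) ≤ 1 := Real.rpow_le_one hy.le (by linarith) (by linarith)
    rw [hsplit]
    calc ‖Dc w‖ ^ 2 * (y ^ 11 * y ^ (2 * σ)) ≤ (C₁ * y / s ^ 13) ^ 2 * (y ^ 11 * 1) := by
          apply mul_le_mul (pow_le_pow_left₀ (norm_nonneg _) h4 2) _ (by positivity)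
            (by positivity)
          exact mul_le_mul_of_nonneg_left h5 (by positivity)
      _ = C₁ ^ 2 / s ^ 26 * y ^ 13 := by field_simp
      _ ≤ C₁ ^ 2 / s ^ 26 * s ^ 13 := by
          apply mul_le_mul_of_nonneg_left (pow_le_pow_left₀ hy.le hys 13) (by positivity)
      _ = C₁ ^ 2 / s ^ 13 := by field_simp
      _ ≤ _ := div_le_div_of_nonneg_right hC12 (by positivity)
  · -- middle range
    have h3 := h2 w hw0
    rw [hwim] at h3
    have h4 : ‖Dc w‖ ≤ C₂ / (y * s) ^ 6 := by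
      rw [le_div_iff₀ (by positivity)]
      exact h3
    have h5 : y ^ (2 * σ) ≤ s ^ (-(2 * σ)) := by
      rw [hQ]
      exact Real.rpow_le_rpow hy.le hys (by linarith)
    rw [hsplit]
    calc ‖Dc w‖ ^ 2 * (y ^ 11 * y ^ (2 * σ)) ≤
          (C₂ / (y * s) ^ 6) ^ 2 * (y ^ 11 * s ^ (-(2 * σ))) := by
          apply mul_le_mul (pow_le_pow_left₀ (norm_nonneg _) h4 2) _ (by positivity)
            (by positivity)
          exact mul_le_mul_of_nonneg_left h5 (by positivity)
      _ = C₂ ^ 2 * s ^ (-(2 * σ)) / s ^ 12 * y⁻¹ := by field_simp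
      _ ≤ _ := by
          apply mul_le_mul_of_nonneg_right _ (by positivity)
          apply div_le_div_of_nonneg_right _ (by positivity)
          exact mul_le_mul_of_nonneg_right hC22 hQ0.le
  · -- large y
    have h3 := h1 w hw0
    rw [hwim] at h3
    have hu : 1 ≤ y * s := by
      rw [div_lt_iff₀ hs0] at hys
      exact hys.le
    set u := y * s with hudef
    have hu0 : 0 < u := by linarith
    have h4 : ‖Dc w‖ ≤ C₁ / u ^ 13 := by
      rw [le_div_iff₀ (by positivity)]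
      exact h3
    have h5 : y ^ (2 * σ) ≤ u ^ 2 * s ^ (-(2 * σ)) := by
      have e : y = u * (1 / s) := by rw [hudef]; field_simp
      rw [hQ]
      conv_lhs => rw [e]
      rw [Real.mul_rpow hu0.le (by positivity)]
      apply mul_le_mul_of_nonneg_right _ (by positivity)
      calc u ^ (2 * σ) ≤ u ^ (2 : ℝ) := Real.rpow_le_rpow_of_exponent_le hu (by linarith)
        _ = u ^ 2 := Real.rpow_two u
    have h6 : y ^ (-2 : ℝ) = (y ^ 2)⁻¹ := by
      rw [Real.rpow_neg hy.le, Real.rpow_two]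
    rw [hsplit, h6]
    calc ‖Dc w‖ ^ 2 * (y ^ 11 * y ^ (2 * σ)) ≤
          (C₁ / u ^ 13) ^ 2 * (y ^ 11 * (u ^ 2 * s ^ (-(2 * σ)))) := by
          apply mul_le_mul (pow_le_pow_left₀ (norm_nonneg _) h4 2) _ (by positivity)
            (by positivity)
          exact mul_le_mul_of_nonneg_left h5 (by positivity)
      _ = C₁ ^ 2 * s ^ (-(2 * σ)) * y ^ 11 / u ^ 13 * (1 / u ^ 11) := by field_simp
      _ ≤ C₁ ^ 2 * s ^ (-(2 * σ)) * y ^ 11 / u ^ 13 * 1 := by
          apply mul_le_mul_of_nonneg_left _ (by positivity)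
          rw [div_le_one (by positivity)]
          exact one_le_pow₀ hu
      _ = C₁ ^ 2 * s ^ (-(2 * σ)) / s ^ 13 * (y ^ 2)⁻¹ := by
          rw [hudef]
          field_simp
      _ ≤ _ := by
          apply mul_le_mul_of_nonneg_right _ (by positivity)
          apply div_le_div_of_nonneg_right _ (by positivity)
          exact mul_le_mul_of_nonneg_right hC12 hQ0.le

theorem p_raySq : S_raySq := by
  obtain ⟨C, hC, hpt⟩ := dn_raySq_pt
  refine ⟨2 ^ 17 * C, by positivity, ?_⟩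
  intro δ hδ0 hδ1 σ hσ0 hσ1
  have hpt' := hpt δ hδ0 hδ1 σ hσ0 hσ1
  set s := Real.sin δ with hs
  have hs0 : 0 < s := Real.sin_pos_of_pos_of_lt_pi hδ0 (by linarith [Real.pi_gt_three])
  have hs1 : s ≤ 1 := Real.sin_le_one δ
  have hsδ : δ / 2 ≤ s := by
    have h1 := Real.sin_gt_sub_cube hδ0
    have h2 : δ ^ 3 ≤ δ := by
      have h3 : δ ^ 2 ≤ 1 := by nlinarith
      nlinarith
    linarith
  set Q := s ^ (-(2 * σ)) with hQ
  have hQ0 : 0 < Q := Real.rpow_pos_of_pos hs0 _
  set A := C / s ^ 13 with hA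
  set B := C * Q / s ^ 12 with hB
  set E := C * Q / s ^ 13 with hE
  have hA0 : 0 ≤ A := by positivity
  have hB0 : 0 ≤ B := by positivity
  have hE0 : 0 ≤ E := by positivity
  have hs1s : s ≤ 1 / s := by
    rw [le_div_iff₀ hs0]
    nlinarith
  set g1 : ℝ → ℝ := (Set.Ioc 0 s).indicator (fun _ => A) with hg1
  set g2 : ℝ → ℝ := (Set.Ioc s (1 / s)).indicator (fun y => B * y⁻¹) with hg2
  set g3 : ℝ → ℝ := (Set.Ioi (1 / s)).indicator (fun y => E * y ^ (-2 : ℝ)) with hg3
  have i1 : Integrable g1 volume := by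
    rw [hg1, integrable_indicator_iff measurableSet_Ioc]
    exact integrableOn_const (by simp)
  have hI2 : IntervalIntegrable (fun y : ℝ => B * y⁻¹) volume s (1 / s) := by
    apply ContinuousOn.intervalIntegrable
    apply ContinuousOn.mul continuousOn_const
    apply ContinuousOn.inv₀ continuousOn_id
    intro y hy
    rw [Set.uIcc_of_le hs1s] at hy
    exact (lt_of_lt_of_le hs0 hy.1).ne'
  have i2 : Integrable g2 volume := by
    rw [hg2, integrable_indicator_iff measurableSet_Ioc]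
    exact (intervalIntegrable_iff_integrableOn_Ioc_of_le hs1s).1 hI2
  have i3 : Integrable g3 volume := by
    rw [hg3, integrable_indicator_iff measurableSet_Ioi]
    exact (integrableOn_Ioi_rpow_of_lt (by norm_num) (by positivity)).const_mul E
  have hle : ∫ y in Set.Ioi (0 : ℝ), ‖Dc (y * cexp (δ * I))‖ ^ 2 * y ^ (11 + 2 * σ) ≤
      ∫ y in Set.Ioi (0 : ℝ), (g1 y + g2 y + g3 y) := by
    apply integral_mono_of_nonneg
    · filter_upwards [ae_restrict_mem measurableSet_Ioi] with y hy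
      have hy0 : (0 : ℝ) < y := hy
      simp only [Pi.zero_apply]
      positivity
    · exact ((i1.add i2).add i3).integrableOn
    · filter_upwards [ae_restrict_mem measurableSet_Ioi] with y hy
      have hy0 : (0 : ℝ) < y := hy
      obtain ⟨p1, p2, p3⟩ := hpt' y hy0
      have n1 : 0 ≤ g1 y := Set.indicator_nonneg (fun _ _ => hA0) y
      have n2 : 0 ≤ g2 y := Set.indicator_nonneg (fun z hz => by
        have : 0 < z := lt_trans hs0 hz.1
        positivity) y
      have n3 : 0 ≤ g3 y := Set.indicator_nonneg (fun z hz => by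
        have h1 : (0 : ℝ) < 1 / s := by positivity
        have : 0 < z := lt_trans h1 hz
        positivity) y
      rcases le_or_gt y s with h1 | h1
      · have e : g1 y = A := Set.indicator_of_mem (show y ∈ Set.Ioc 0 s from ⟨hy0, h1⟩) _
        have := p1 h1
        linarith
      · rcases le_or_gt y (1 / s) with h2 | h2
        · have e : g2 y = B * y⁻¹ :=
            Set.indicator_of_mem (show y ∈ Set.Ioc s (1 / s) from ⟨h1, h2⟩) _
          have := p2 h2
          linarith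
        · have e : g3 y = E * y ^ (-2 : ℝ) :=
            Set.indicator_of_mem (show y ∈ Set.Ioi (1 / s) from h2) _
          have := p3 h2
          linarith
  have v1 : ∫ y in Set.Ioi (0 : ℝ), g1 y = A * s := by
    rw [hg1, setIntegral_indicator measurableSet_Ioc]
    have e : Set.Ioi (0 : ℝ) ∩ Set.Ioc 0 s = Set.Ioc 0 s :=
      Set.inter_eq_right.2 (fun y hy => hy.1)
    rw [e, ← intervalIntegral.integral_of_le hs0.le, intervalIntegral.integral_const]
    simp [mul_comm]
  have v2 : ∫ y in Set.Ioi (0 : ℝ), g2 y = B * (2 * Real.log (1 / s)) := by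
    rw [hg2, setIntegral_indicator measurableSet_Ioc]
    have e : Set.Ioi (0 : ℝ) ∩ Set.Ioc s (1 / s) = Set.Ioc s (1 / s) :=
      Set.inter_eq_right.2 (fun y hy => lt_trans hs0 hy.1)
    rw [e, ← intervalIntegral.integral_of_le hs1s, intervalIntegral.integral_const_mul,
      integral_inv_of_pos hs0 (by positivity)]
    congr 1
    have e2 : 1 / s / s = (1 / s) ^ 2 := by field_simp
    rw [e2, Real.log_pow]
    norm_num
  have v3 : ∫ y in Set.Ioi (0 : ℝ), g3 y = E * s := by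
    rw [hg3, setIntegral_indicator measurableSet_Ioi]
    have e : Set.Ioi (0 : ℝ) ∩ Set.Ioi (1 / s) = Set.Ioi (1 / s) :=
      Set.inter_eq_right.2 (fun y hy => lt_trans (show (0 : ℝ) < 1 / s by positivity) hy)
    rw [e, integral_const_mul, integral_Ioi_rpow_of_lt (by norm_num) (by positivity)]
    have e2 : (-2 : ℝ) + 1 = -1 := by norm_num
    rw [e2, Real.rpow_neg_one]
    simp
  have hint : ∫ y in Set.Ioi (0 : ℝ), (g1 y + g2 y + g3 y) =
      A * s + B * (2 * Real.log (1 / s)) + E * s := by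
    have h1 := integral_add (μ := volume.restrict (Set.Ioi (0 : ℝ))) (f := fun y => g1 y + g2 y)
      (g := g3) ((i1.add i2).integrableOn) i3.integrableOn
    have h2 := integral_add (μ := volume.restrict (Set.Ioi (0 : ℝ))) (f := g1) (g := g2)
      i1.integrableOn i2.integrableOn
    rw [h1, h2, v1, v2, v3]
  rw [hint] at hle
  refine hle.trans ?_
  set Lg := Real.log (1 / δ) with hLg
  have hL2 : Real.log 2 ≤ Lg := by
    apply Real.log_le_log (by norm_num)
    rw [le_div_iff₀ hδ0]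
    linarith
  have hlog2 := Real.log_two_gt_d9
  have hL0 : 1 ≤ 2 * Lg := by linarith
  have hls : Real.log (1 / s) ≤ 2 * Lg := by
    have h1 : Real.log (1 / s) ≤ Real.log (2 * (1 / δ)) := by
      apply Real.log_le_log (by positivity)
      rw [div_le_iff₀ hs0]
      calc (1 : ℝ) = 2 * (1 / δ) * (δ / 2) := by field_simp
        _ ≤ 2 * (1 / δ) * s := mul_le_mul_of_nonneg_left hsδ (by positivity)
    rw [Real.log_mul (by norm_num) (by positivity)] at h1
    linarith
  have hQ1 : 1 ≤ Q := by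
    rw [hQ, Real.rpow_neg hs0.le]
    exact (one_le_inv₀ (by positivity)).2 (Real.rpow_le_one hs0.le hs1 (by linarith))
  have hQδ : Q ≤ 4 * δ ^ (-(2 * σ)) := by
    have h1 : Q ≤ (δ / 2) ^ (-(2 * σ)) := by
      rw [hQ, Real.rpow_neg hs0.le, Real.rpow_neg (by positivity)]
      apply inv_anti₀ (by positivity)
      exact Real.rpow_le_rpow (by positivity) hsδ (by linarith)
    have h2 : (δ / 2) ^ (-(2 * σ)) = 2 ^ (2 * σ) * δ ^ (-(2 * σ)) := by
      rw [Real.div_rpow hδ0.le (by norm_num), Real.rpow_neg (show (0 : ℝ) ≤ 2 by norm_num)]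
      field_simp
    have h3 : (2 : ℝ) ^ (2 * σ) ≤ 4 := by
      calc (2 : ℝ) ^ (2 * σ) ≤ 2 ^ (2 : ℝ) :=
            Real.rpow_le_rpow_of_exponent_le (by norm_num) (by linarith)
        _ = 4 := by norm_num
    rw [h2] at h1
    exact h1.trans (mul_le_mul_of_nonneg_right h3 (by positivity))
  have hs12 : 1 / s ^ 12 ≤ 2 ^ 12 * (1 / δ ^ 12) := by
    rw [div_le_iff₀ (by positivity)]
    have h1 : (δ / 2) ^ 12 ≤ s ^ 12 := pow_le_pow_left₀ (by positivity) hsδ 12
    calc (1 : ℝ) = 2 ^ 12 * (1 / δ ^ 12) * (δ / 2) ^ 12 := by field_simp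
      _ ≤ _ := mul_le_mul_of_nonneg_left h1 (by positivity)
  have hδsplit : δ ^ (-(12 + 2 * σ)) = 1 / δ ^ 12 * δ ^ (-(2 * σ)) := by
    rw [neg_add, Real.rpow_add hδ0, Real.rpow_neg hδ0.le]
    norm_num
  have hmain : A * s + B * (2 * Real.log (1 / s)) + E * s ≤
      C * (1 / s ^ 12) * Q * (8 * Lg) := by
    have e1 : A * s = C * (1 / s ^ 12) := by rw [hA]; field_simp
    have e2 : B = C * (1 / s ^ 12) * Q := by rw [hB]; ring
    have e3 : E * s = C * (1 / s ^ 12) * Q := by rw [hE]; field_simp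
    rw [e1, e2, e3]
    have hM : 0 ≤ C * (1 / s ^ 12) := by positivity
    set M := C * (1 / s ^ 12) with hMdef
    have h1 : M ≤ M * Q * (2 * Lg) := by
      calc M = M * 1 * 1 := by ring
        _ ≤ M * Q * (2 * Lg) := by
            apply mul_le_mul (mul_le_mul_of_nonneg_left hQ1 hM) hL0 (by norm_num) (by positivity)
    have h2 : M * Q * (2 * Real.log (1 / s)) ≤ M * Q * (4 * Lg) := by
      apply mul_le_mul_of_nonneg_left _ (by positivity)
      linarith
    have h3 : M * Q ≤ M * Q * (2 * Lg) := le_mul_of_one_le_right (by positivity) hL0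
    calc M + M * Q * (2 * Real.log (1 / s)) + M * Q ≤
          M * Q * (2 * Lg) + M * Q * (4 * Lg) + M * Q * (2 * Lg) := by linarith
      _ = M * Q * (8 * Lg) := by ring
  refine hmain.trans ?_
  rw [hδsplit]
  have hL00 : 0 ≤ Lg := by linarith
  calc C * (1 / s ^ 12) * Q * (8 * Lg)
      ≤ C * (2 ^ 12 * (1 / δ ^ 12)) * (4 * δ ^ (-(2 * σ))) * (8 * Lg) := by
        apply mul_le_mul_of_nonneg_right _ (by positivity)
        apply mul_le_mul (mul_le_mul_of_nonneg_left hs12 hC.le) hQδ hQ0.le (by positivity)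
    _ = 2 ^ 17 * C * (1 / δ ^ 12 * δ ^ (-(2 * σ))) * Lg := by ring

end Pool.Agent.Lib.MP_cd509c_nt.DN
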