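import Pool.Agent.Lib.MP_cd509c_nt.DN.Defs3

/-!
# The derivatives have many real zeros in a block
-/

set_option autoImplicit false

namespace Pool.Agent.Lib.MP_cd509c_nt.DN

open Complex ComplexConjugate MeasureTheory

theorem dn_realD_J {a V : ℝ} (ha : 0 < a) (hV : a ≤ 2 * V) :
    ∃ J : ℕ, V ≤ 2 ^ J * a ∧ 2 ^ J * a ≤ 2 * V ∧ ∀ j < J, 2 ^ j * a < V := by
  classical
  have hex : ∃ J : ℕ, V ≤ 2 ^ J * a := by
    obtain ⟨J, hJ⟩ := pow_unbounded_of_one_lt (V / a) (one_lt_two : (1 : ℝ) < 2)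
    refine ⟨J, ?_⟩
    rw [div_lt_iff₀ ha] at hJ
    exact hJ.le
  refine ⟨Nat.find hex, Nat.find_spec hex, ?_, ?_⟩
  · rcases Nat.eq_zero_or_pos (Nat.find hex) with h | h
    · rw [h]; simpa using hV
    · have h1 := Nat.find_min hex (Nat.sub_lt h one_pos)
      rw [not_le] at h1
      have h2 : (2 : ℝ) ^ Nat.find hex = 2 * 2 ^ (Nat.find hex - 1) := by
        rw [← pow_succ']
        congr 1
        omega
      rw [h2]
      nlinarith
  · intro j hj
    have := Nat.find_min hex hj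
    rwa [not_le] at this

theorem dn_realD_log {T x : ℝ} (hT : 0 < T) (h1 : T ≤ x) (h2 : x ≤ 2 * T) :
    |Real.log x - Real.log T| ≤ 1 := by
  have hx : 0 < x := by linarith
  rw [← Real.log_div hx.ne' hT.ne', abs_of_nonneg]
  · have h3 : x / T ≤ 2 := by rw [div_le_iff₀ hT]; exact h2
    have h4 : Real.log (x / T) ≤ Real.log 2 := Real.log_le_log (by positivity) h3
    have := Real.log_two_lt_d9
    linarith
  · apply Real.log_nonneg
    rw [le_div_iff₀ hT]
    linarith

/-- Counting the cells of length `a` in `[T, 2T]` all of whose scales are good, and putting the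
zeros of the cells together. -/
theorem dn_realD_count (P : ℝ → Prop) (G : ℝ → ℕ → Prop) (T a l N C c : ℝ) (J : ℕ)
    (hT : 0 < T) (ha : 0 < a) (hN : N = a * l) (hN0 : 0 < N) (haT : 8 * a ≤ T) (hC : 0 < C)
    (hc1 : Real.exp (-(c * N)) ≤ 1 / 2) (hc2 : 8 * C * Real.exp (-(c * N)) ≤ 1) (hc : 0 < c)
    (hP : ∀ x : ℝ, T ≤ x → x ≤ 2 * T → (∀ j ≤ J, G x j) → ∃ S : Finset ℝ,
      (∀ y ∈ S, |y - x| ≤ a / 16 ∧ P y) ∧ N / 1000 ≤ (S.card : ℝ))
    (htop : ∀ x : ℝ, T ≤ x → x ≤ 2 * T → G x J)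
    (hm : ∀ j < J, ∀ S : Finset ℤ, (∀ k ∈ S, T ≤ (k + 1) * (2 ^ j * a) ∧ k * (2 ^ j * a) ≤ 2 * T ∧
      ∃ x ∈ Set.Icc (k * (2 ^ j * a)) ((k + 1) * (2 ^ j * a)), ¬ G x j) →
      (S.card : ℝ) ≤ C * (T / (2 ^ j * a)) * Real.exp (-(c * 2 ^ j * N))) :
    ∃ S : Finset ℝ, (∀ x ∈ S, T ≤ x ∧ x ≤ 2 * T ∧ P x) ∧ T * l / 2000 ≤ (S.card : ℝ) := by
  classical
  -- the cells
  set K : Finset ℤ := Finset.Icc ⌈T / a⌉ (⌊2 * T / a⌋ - 1) with hK
  have hKmem : ∀ k ∈ K, T ≤ k * a ∧ (k + 1) * a ≤ 2 * T := by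
    intro k hk
    rw [hK, Finset.mem_Icc] at hk
    have h1 : T / a ≤ k := Int.ceil_le.mp hk.1
    have h2 : ((k + 1 : ℤ) : ℝ) ≤ 2 * T / a := Int.le_floor.mp (by omega)
    push_cast at h2
    rw [div_le_iff₀ ha] at h1
    rw [le_div_iff₀ ha] at h2
    exact ⟨h1, h2⟩
  have hKcard : T / a - 2 ≤ (K.card : ℝ) := by
    rw [hK, Int.card_Icc]
    have h1 : ((⌊2 * T / a⌋ - 1 + 1 - ⌈T / a⌉ : ℤ) : ℝ) ≤
        (((⌊2 * T / a⌋ - 1 + 1 - ⌈T / a⌉).toNat : ℤ) : ℝ) := by
      exact_mod_cast Int.self_le_toNat _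
    have h2 : (((⌊2 * T / a⌋ - 1 + 1 - ⌈T / a⌉).toNat : ℤ) : ℝ) =
        (((⌊2 * T / a⌋ - 1 + 1 - ⌈T / a⌉).toNat : ℕ) : ℝ) := by norm_cast
    rw [← h2]
    refine le_trans ?_ h1
    push_cast
    have h3 := Int.lt_floor_add_one (2 * T / a)
    have h4 := Int.ceil_lt_add_one (T / a)
    have h5 : 2 * T / a = T / a + T / a := by ring
    linarith
  set X : ℤ → ℝ := fun k => (k + 1 / 2) * a with hX
  have hXr : ∀ k ∈ K, T ≤ X k ∧ X k ≤ 2 * T := by
    intro k hk
    obtain ⟨h1, h2⟩ := hKmem k hk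
    simp only [hX]
    constructor <;> nlinarith
  -- the bad cells of level j
  set B : ℕ → Finset ℤ := fun j => K.filter fun k => ¬ G (X k) j with hB
  have hBcard : ∀ j < J, ((B j).card : ℝ) ≤ C * (T / a) * (Real.exp (-(c * N)) * (1 / 2) ^ j) := by
    intro j hj
    set f : ℤ → ℤ := fun k => k / 2 ^ j with hf
    have hpos : (0 : ℤ) < 2 ^ j := by positivity
    have hcell : ∀ k : ℤ, (f k) * 2 ^ j ≤ k ∧ k + 1 ≤ (f k + 1) * 2 ^ j := by
      intro k
      have h1 := Int.emod_add_mul_ediv k (2 ^ j)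
      have h2 := Int.emod_nonneg k hpos.ne'
      have h3 := Int.emod_lt_of_pos k hpos
      simp only [hf]
      constructor <;> nlinarith
    have h1 : (B j).card ≤ 2 ^ j * ((B j).image f).card := by
      apply Finset.card_le_mul_card_image
      intro k' _
      have hsub : (B j).filter (fun k => f k = k') ⊆ Finset.Ico (k' * 2 ^ j) (k' * 2 ^ j + 2 ^ j) := by
        intro k hk
        rw [Finset.mem_filter] at hk
        obtain ⟨h1, h2⟩ := hcell k
        rw [hk.2] at h1 h2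
        rw [Finset.mem_Ico]
        constructor
        · exact h1
        · nlinarith
      refine (Finset.card_le_card hsub).trans ?_
      rw [Int.card_Ico]
      apply le_of_eq
      rw [show k' * 2 ^ j + 2 ^ j - k' * 2 ^ j = ((2 ^ j : ℕ) : ℤ) by push_cast; ring]
      exact Int.toNat_natCast _
    have h2 := hm j hj ((B j).image f) (by
      intro k' hk'
      rw [Finset.mem_image] at hk'
      obtain ⟨k, hk, rfl⟩ := hk'
      rw [hB, Finset.mem_filter] at hk
      obtain ⟨hx1, hx2⟩ := hXr k hk.1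
      obtain ⟨g1, g2⟩ := hcell k
      have g1' : ((f k : ℤ) : ℝ) * 2 ^ j ≤ k := by exact_mod_cast g1
      have g2' : (k : ℝ) + 1 ≤ ((f k : ℤ) + 1 : ℝ) * 2 ^ j := by exact_mod_cast g2
      have m1 : ((f k : ℤ) : ℝ) * (2 ^ j * a) ≤ X k := by
        simp only [hX]
        nlinarith [mul_le_mul_of_nonneg_right g1' ha.le]
      have m2 : X k ≤ ((f k : ℤ) + 1 : ℝ) * (2 ^ j * a) := by
        simp only [hX]
        nlinarith [mul_le_mul_of_nonneg_right g2' ha.le]
      exact ⟨hx1.trans m2, m1.trans hx2, X k, ⟨m1, m2⟩, hk.2⟩)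
    have h3 : ((B j).card : ℝ) ≤ 2 ^ j * (((B j).image f).card : ℝ) := by exact_mod_cast h1
    have h4 : (0 : ℝ) < 2 ^ j := by positivity
    have h5 : Real.exp (-(c * 2 ^ j * N)) ≤ Real.exp (-(c * N)) * (1 / 2) ^ j := by
      have h6 : (j : ℝ) + 1 ≤ 2 ^ j := by
        have : j + 1 ≤ 2 ^ j := Nat.lt_pow_self (by norm_num)
        exact_mod_cast this
      have h7 : Real.exp (-(c * 2 ^ j * N)) ≤ Real.exp (-(c * N) + j * (-(c * N))) := by
        apply Real.exp_le_exp.mpr
        have : 0 < c * N := by positivity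
        nlinarith [mul_le_mul_of_nonneg_left h6 this.le]
      refine h7.trans ?_
      rw [Real.exp_add, Real.exp_nat_mul]
      apply mul_le_mul_of_nonneg_left _ (Real.exp_pos _).le
      exact pow_le_pow_left₀ (Real.exp_pos _).le hc1 j
    calc ((B j).card : ℝ) ≤ 2 ^ j * (((B j).image f).card : ℝ) := h3
      _ ≤ 2 ^ j * (C * (T / (2 ^ j * a)) * Real.exp (-(c * 2 ^ j * N))) :=
          mul_le_mul_of_nonneg_left h2 h4.le
      _ = C * (T / a) * Real.exp (-(c * 2 ^ j * N)) := by field_simp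
      _ ≤ C * (T / a) * (Real.exp (-(c * N)) * (1 / 2) ^ j) :=
          mul_le_mul_of_nonneg_left h5 (by positivity)
  -- the good cells
  set Gd : Finset ℤ := K.filter fun k => ∀ j ≤ J, G (X k) j with hGd
  have hKsub : K ⊆ Gd ∪ (Finset.range J).biUnion B := by
    intro k hk
    rw [Finset.mem_union]
    by_cases h : ∀ j ≤ J, G (X k) j
    · left
      rw [hGd, Finset.mem_filter]
      exact ⟨hk, h⟩
    · right
      push Not at h
      obtain ⟨j, hj, hbad⟩ := h
      rw [Finset.mem_biUnion]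
      rcases hj.lt_or_eq with h1 | h1
      · refine ⟨j, Finset.mem_range.mpr h1, ?_⟩
        rw [hB, Finset.mem_filter]
        exact ⟨hk, hbad⟩
      · exfalso
        rw [h1] at hbad
        exact hbad (htop _ (hXr k hk).1 (hXr k hk).2)
  have hGcard : T / (2 * a) ≤ (Gd.card : ℝ) := by
    have h1 : (K.card : ℝ) ≤ (Gd.card : ℝ) + ∑ j ∈ Finset.range J, ((B j).card : ℝ) := by
      have h2 : K.card ≤ Gd.card + ∑ j ∈ Finset.range J, (B j).card :=
        (Finset.card_le_card hKsub).trans ((Finset.card_union_le _ _).trans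
          (Nat.add_le_add_left Finset.card_biUnion_le _))
      exact_mod_cast h2
    have h2 : ∑ j ∈ Finset.range J, ((B j).card : ℝ) ≤ T / a / 4 := by
      calc ∑ j ∈ Finset.range J, ((B j).card : ℝ) ≤
          ∑ j ∈ Finset.range J, C * (T / a) * (Real.exp (-(c * N)) * (1 / 2) ^ j) :=
            Finset.sum_le_sum fun j hj => hBcard j (Finset.mem_range.mp hj)
        _ = C * (T / a) * Real.exp (-(c * N)) * ∑ j ∈ Finset.range J, (1 / (2 : ℝ)) ^ j := by
            rw [Finset.mul_sum]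
            apply Finset.sum_congr rfl
            intro j _
            ring
        _ ≤ C * (T / a) * Real.exp (-(c * N)) * 2 :=
            mul_le_mul_of_nonneg_left (sum_geometric_two_le J) (by positivity)
        _ = (8 * C * Real.exp (-(c * N))) * (T / a / 4) := by ring
        _ ≤ 1 * (T / a / 4) := mul_le_mul_of_nonneg_right hc2 (by positivity)
        _ = T / a / 4 := one_mul _
    have h3 : 2 ≤ T / a / 4 := by
      rw [div_div, le_div_iff₀ (by positivity)]
      linarith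
    have h4 : T / (2 * a) = T / a / 2 := by field_simp
    rw [h4]
    linarith
  -- the zeros
  have hex : ∀ k ∈ Gd, ∃ S : Finset ℝ, (∀ y ∈ S, |y - X k| ≤ a / 16 ∧ P y) ∧
      N / 1000 ≤ (S.card : ℝ) := by
    intro k hk
    rw [hGd, Finset.mem_filter] at hk
    exact hP (X k) (hXr k hk.1).1 (hXr k hk.1).2 hk.2
  choose! f hf using hex
  have hcell : ∀ k ∈ Gd, ∀ y ∈ f k, k * a < y ∧ y < (k + 1) * a := by
    intro k hk y hy
    have h1 := ((hf k hk).1 y hy).1
    rw [abs_le] at h1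
    simp only [hX] at h1
    constructor <;> nlinarith [h1.1, h1.2]
  refine ⟨Gd.biUnion f, ?_, ?_⟩
  · intro y hy
    rw [Finset.mem_biUnion] at hy
    obtain ⟨k, hk, hy⟩ := hy
    have h1 := hcell k hk y hy
    have h2 := hKmem k (Finset.mem_filter.mp hk).1
    exact ⟨h2.1.trans h1.1.le, h1.2.le.trans h2.2, ((hf k hk).1 y hy).2⟩
  · rw [Finset.card_biUnion]
    · push_cast
      calc T * l / 2000 = T / (2 * a) * (N / 1000) := by rw [hN]; field_simp; ring
        _ ≤ (Gd.card : ℝ) * (N / 1000) := mul_le_mul_of_nonneg_right hGcard (by positivity)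
        _ = ∑ k ∈ Gd, N / 1000 := by rw [Finset.sum_const, nsmul_eq_mul]
        _ ≤ ∑ k ∈ Gd, ((f k).card : ℝ) := Finset.sum_le_sum fun k hk => (hf k hk).2
    · intro k hk k' hk' hne
      rw [Function.onFun, Finset.disjoint_left]
      intro y hy hy'
      have h1 := hcell k hk y hy
      have h2 := hcell k' hk' y hy'
      apply hne
      have h3 : (k : ℝ) < k' + 1 := lt_of_mul_lt_mul_right (h1.1.trans h2.2) ha.le
      have h4 : (k' : ℝ) < k + 1 := lt_of_mul_lt_mul_right (h2.1.trans h1.2) ha.le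
      have h5 : k < k' + 1 := by exact_mod_cast h3
      have h6 : k' < k + 1 := by exact_mod_cast h4
      omega

theorem p_realD (htop : S_top) (hreg : S_reg) (hsym : S_symR) (hRD : S_RD) (hlink : S_linkD)
    (hm : S_mb (fun _ => 1)) : S_realD := by
  classical
  intro A hA
  obtain ⟨ε, N₀, hε0, hN₀, hRD'⟩ := hRD
  obtain ⟨V₀, hV₀, hreg'⟩ := hreg
  obtain ⟨V, l₁, hV1, hV2, htop'⟩ := htop (ε / 100) (by positivity) (max V₀ A)
  have hVV₀ : V₀ ≤ V := (le_max_left _ _).trans hV1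
  have hVA : A ≤ V := (le_max_right _ _).trans hV1
  obtain ⟨l₂, hl₂, hreg''⟩ := hreg' ε A V hε0 hA hVV₀
  obtain ⟨C₃, c, T₁, hC₃, hc, hT₁, hm'⟩ := hm (ε / 100) V (by positivity) hV2
  -- the constant for n
  obtain ⟨C₄, hC₄⟩ : ∃ C₄ : ℝ, ∀ N : ℝ, C₄ ≤ N →
      Real.exp (-(c * N)) ≤ 1 / 2 ∧ 8 * C₃ * Real.exp (-(c * N)) ≤ 1 := by
    refine ⟨(Real.log (2 + 8 * C₃)) / c, fun N hN => ?_⟩
    rw [div_le_iff₀ hc] at hN
    have h0 : (0 : ℝ) < 2 + 8 * C₃ := by positivity
    have h1 : Real.exp (-(c * N)) ≤ 1 / (2 + 8 * C₃) := by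
      rw [Real.exp_neg, one_div]
      apply inv_anti₀ h0
      rw [← Real.log_le_iff_le_exp h0]
      linarith
    constructor
    · refine h1.trans ?_
      apply one_div_le_one_div_of_le (by norm_num)
      linarith
    · calc 8 * C₃ * Real.exp (-(c * N)) ≤ 8 * C₃ * (1 / (2 + 8 * C₃)) :=
            mul_le_mul_of_nonneg_left h1 (by positivity)
        _ ≤ 1 := by
            rw [mul_one_div, div_le_one h0]
            linarith
  refine ⟨max C₄ (max 1 N₀), 1 / 2000,
    max (max T₁ (8 * A)) (max (Real.exp l₁) (Real.exp l₂)),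
    lt_of_lt_of_le one_pos ((le_max_left _ _).trans (le_max_right _ _)), by norm_num,
    hT₁.trans ((le_max_left _ _).trans (le_max_left _ _)), ?_⟩
  intro n T hT hn hnA
  have hT1 : T₁ ≤ T := ((le_max_left _ _).trans (le_max_left _ _)).trans hT
  have hTA : 8 * A ≤ T := ((le_max_right _ _).trans (le_max_left _ _)).trans hT
  have hT2 : (2 : ℝ) ≤ T := hT₁.trans hT1
  have hT0 : 0 < T := by linarith
  have hTl₁ : l₁ ≤ Real.log T := by
    rw [Real.le_log_iff_exp_le hT0]
    exact ((le_max_left _ _).trans (le_max_right _ _)).trans hT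
  have hTl₂ : l₂ ≤ Real.log T := by
    rw [Real.le_log_iff_exp_le hT0]
    exact ((le_max_right _ _).trans (le_max_right _ _)).trans hT
  have hnC : C₄ ≤ n := (le_max_left _ _).trans hn
  have hn1 : (1 : ℝ) ≤ n := ((le_max_left _ _).trans (le_max_right _ _)).trans hn
  have hnN₀ : N₀ ≤ n := ((le_max_right _ _).trans (le_max_right _ _)).trans hn
  obtain ⟨hq1, hq2⟩ := hC₄ n hnC
  set l : ℝ := Real.log T with hl
  have hl0 : 0 < l := lt_of_lt_of_le (by linarith) hTl₂
  set a : ℝ := n / l with ha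
  have ha0 : 0 < a := by positivity
  have haA : a ≤ A := by rw [ha, div_le_iff₀ hl0]; exact hnA
  have hnal : (n : ℝ) = a * l := by rw [ha]; field_simp
  obtain ⟨J, hJ1, hJ2, hJ3⟩ := dn_realD_J ha0 (show a ≤ 2 * V by linarith)
  have hY : 40 ≤ 100 * V / a := by
    rw [le_div_iff₀ ha0]
    nlinarith
  have key := dn_realD_count (fun y => iteratedDeriv n Xi (y : ℂ) = 0)
    (fun x j => Good (ε / 100) x (2 ^ j * a) l) T a l n C₃ c J hT0 ha0 hnal (by linarith)
    (by linarith) hC₃ hq1 hq2 hc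
    (by
      intro x hx1 hx2 hg
      have hR := hreg'' l hTl₂ x (by linarith) (dn_realD_log hT0 hx1 hx2) a ha0 haA
        (by rw [← hnal]; exact hn1) 0 J (Nat.zero_le _) hJ1 hJ2 (fun i _ hi => hg i hi)
      rw [← hnal, pow_zero] at hR
      have hS : Sym (la n (Rx x a l)) := by
        rw [hnal]
        exact hsym x a l
      obtain ⟨S, hS1, hS2⟩ := hRD' n ε (100 * V / a) (Rx x a l) hε0 le_rfl hnN₀ hY hR hS
      have hinj : Function.Injective fun τ : ℝ => x + a * τ := by
        intro τ τ' h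
        simp only at h
        have : a * τ = a * τ' := by linarith
        exact mul_left_cancel₀ ha0.ne' this
      refine ⟨S.image fun τ => x + a * τ, ?_, ?_⟩
      · intro y hy
        rw [Finset.mem_image] at hy
        obtain ⟨τ, hτ, rfl⟩ := hy
        obtain ⟨h1, h2⟩ := hS1 τ hτ
        constructor
        · rw [add_sub_cancel_left, abs_mul, abs_of_pos ha0]
          nlinarith
        · have h3 := hlink n x a l (τ * I) (by linarith) ha0 hnal
          rw [h2, mul_zero] at h3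
          have h4 : (x : ℂ) - I * (a * (τ * I)) = ((x + a * τ : ℝ) : ℂ) := by
            push_cast
            linear_combination (-(a * τ) : ℂ) * I_mul_I
          rw [h4] at h3
          exact h3
      · rw [Finset.card_image_of_injective _ hinj]
        exact hS2)
    (by
      intro x hx1 hx2
      exact htop' l hTl₁ x (by linarith) (dn_realD_log hT0 hx1 hx2) _ hJ1 hJ2)
    (by
      intro j hj S' hS'
      have h1 := hm' T hT1 (2 ^ j * a) (by positivity) (hJ3 j hj).le S' hS'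
      simp only [mul_one] at h1
      rw [show c * (2 ^ j * a) * Real.log T = c * 2 ^ j * n by rw [hnal]; ring] at h1
      exact h1)
  obtain ⟨S, hS1, hS2⟩ := key
  refine ⟨S, hS1, ?_⟩
  calc 1 / 2000 * T * l = T * l / 2000 := by ring
    _ ≤ _ := hS2

end Pool.Agent.Lib.MP_cd509c_nt.DN
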