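import Pool.Agent.Lib.MP_cd509c_nt.DN.Defs3

/-!
# Heat flow: many real zeros in a block
-/

set_option autoImplicit false

namespace Pool.Agent.Lib.MP_cd509c_nt.DN

open Complex ComplexConjugate MeasureTheory

/-- a power of two in the window -/
theorem dn_realH_pow (V a : ℝ) (ha : 0 < a) (haV : a ≤ V) :
    ∃ J : ℕ, V ≤ 2 ^ J * a ∧ 2 ^ J * a ≤ 2 * V := by
  have hex : ∃ n : ℕ, V ≤ 2 ^ n * a := by
    obtain ⟨n, hn⟩ := pow_unbounded_of_one_lt (V / a) (by norm_num : (1 : ℝ) < 2)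
    refine ⟨n, ?_⟩
    rw [div_lt_iff₀ ha] at hn
    exact hn.le
  classical
  refine ⟨Nat.find hex, Nat.find_spec hex, ?_⟩
  rcases Nat.eq_zero_or_pos (Nat.find hex) with h | h
  · rw [h, pow_zero, one_mul]
    linarith
  · have h1 := Nat.find_min hex (Nat.sub_lt h one_pos)
    push Not at h1
    have h2 : (2 : ℝ) ^ (Nat.find hex) = 2 * 2 ^ (Nat.find hex - 1) := by
      rw [← pow_succ']
      congr 1
      omega
    rw [h2]
    linarith

/-- the geometric sum -/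
theorem dn_realH_geom (q : ℝ) (hq0 : 0 ≤ q) (hq : q ≤ 1 / 2) (J : ℕ) :
    ∑ j ∈ Finset.range J, q ^ (j + 1) ≤ 2 * q := by
  calc ∑ j ∈ Finset.range J, q ^ (j + 1) ≤ ∑ j ∈ Finset.range J, q * (1 / 2) ^ j := by
        refine Finset.sum_le_sum fun j _ => ?_
        rw [pow_succ']
        exact mul_le_mul_of_nonneg_left (pow_le_pow_left₀ hq0 hq j) hq0
    _ = q * ∑ j ∈ Finset.range J, (1 / 2) ^ j := by rw [Finset.mul_sum]
    _ ≤ q * 2 := mul_le_mul_of_nonneg_left (sum_geometric_two_le J) hq0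
    _ = 2 * q := by ring

/-- division by a power of two has fibres of that size -/
theorem dn_realH_fib (S : Finset ℤ) (j : ℕ) :
    S.card ≤ 2 ^ j * (S.image fun k => k / (2 ^ j : ℤ)).card := by
  have h2 : (0 : ℤ) < 2 ^ j := by positivity
  refine Finset.card_le_mul_card_image _ _ fun q _ => ?_
  have hsub : (S.filter fun k => k / (2 ^ j : ℤ) = q) ⊆ Finset.Ico (q * 2 ^ j) ((q + 1) * 2 ^ j) := by
    intro k hk
    rw [Finset.mem_filter] at hk
    rw [Finset.mem_Ico, ← hk.2]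
    exact ⟨Int.ediv_mul_le _ h2.ne', Int.lt_ediv_add_one_mul_self _ h2⟩
  refine (Finset.card_le_card hsub).trans ?_
  rw [Int.card_Ico, show (q + 1) * 2 ^ j - q * 2 ^ j = (2 ^ j : ℤ) by ring]
  have : ((2 ^ j : ℤ)).toNat = 2 ^ j := by
    rw [show (2 ^ j : ℤ) = ((2 ^ j : ℕ) : ℤ) by push_cast; rfl, Int.toNat_natCast]
  rw [this]

/-- the number of midpoints which are good at all scales -/
theorem dn_realH_count (T a N Cm cm : ℝ) (J : ℕ) (G : ℝ → ℕ → Prop) (ha : 0 < a) (hN : 1 ≤ N)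
    (hT : 8 * a ≤ T) (hCm : 0 < Cm) (hcm : 0 < cm)
    (hJ : ∀ x : ℝ, T ≤ x → x ≤ 2 * T → G x J)
    (hbad : ∀ j < J, ∀ S : Finset ℤ, (∀ k ∈ S, T ≤ (k + 1) * (2 ^ j * a) ∧
      k * (2 ^ j * a) ≤ 2 * T ∧
      ∃ x ∈ Set.Icc (k * (2 ^ j * a)) ((k + 1) * (2 ^ j * a)), ¬ G x j) →
      (S.card : ℝ) ≤ Cm * (T / (2 ^ j * a)) * Real.exp (-(cm * 2 ^ j * N)))
    (hq : Real.exp (-(cm * N)) ≤ 1 / (16 * Cm + 2)) :
    ∃ K : Finset ℤ, (∀ k ∈ K, T ≤ k * a ∧ (k + 1) * a ≤ 2 * T ∧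
      ∀ j ≤ J, G (((k : ℝ) + 1 / 2) * a) j) ∧ T / (2 * a) ≤ (K.card : ℝ) := by
  classical
  have hT0 : 0 < T := by linarith
  set K₀ : Finset ℤ := Finset.Icc ⌈T / a⌉ (⌊2 * T / a⌋ - 1) with hK₀
  have hmem : ∀ k ∈ K₀, T ≤ k * a ∧ (k + 1) * a ≤ 2 * T := by
    intro k hk
    rw [hK₀, Finset.mem_Icc] at hk
    have h1 : T / a ≤ k := Int.ceil_le.1 hk.1
    have h2 : ((k + 1 : ℤ) : ℝ) ≤ 2 * T / a := Int.le_floor.1 (by linarith [hk.2])
    rw [div_le_iff₀ ha] at h1
    rw [le_div_iff₀ ha] at h2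
    push_cast at h2
    exact ⟨h1, h2⟩
  have hcard : T / a - 2 ≤ (K₀.card : ℝ) := by
    rw [hK₀, Int.card_Icc]
    have h1 : ((⌊2 * T / a⌋ - 1 + 1 - ⌈T / a⌉ : ℤ) : ℝ) ≤
        (((⌊2 * T / a⌋ - 1 + 1 - ⌈T / a⌉).toNat : ℕ) : ℝ) := by
      exact_mod_cast Int.self_le_toNat _
    refine le_trans ?_ h1
    push_cast
    have h2 := Int.lt_floor_add_one (2 * T / a)
    have h3 := Int.ceil_lt_add_one (T / a)
    have h4 : 2 * T / a = T / a + T / a := by ring
    linarith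
  -- bad points
  set bad : ℕ → Finset ℤ := fun j => K₀.filter fun k => ¬ G (((k : ℝ) + 1 / 2) * a) j with hbaddef
  set q := Real.exp (-(cm * N)) with hqd
  have hq0 : 0 < q := Real.exp_pos _
  have hq2 : q ≤ 1 / 2 := hq.trans (one_div_le_one_div_of_le (by norm_num) (by linarith))
  have hTa : 0 < T / a := by positivity
  have hbadc : ∀ j < J, ((bad j).card : ℝ) ≤ Cm * (T / a) * q ^ (j + 1) := by
    intro j hj
    have h2j : (0 : ℤ) < 2 ^ j := by positivity
    have h1 : ((bad j).card : ℝ) ≤ 2 ^ j * (((bad j).image fun k => k / (2 ^ j : ℤ)).card : ℝ) := by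
      exact_mod_cast dn_realH_fib (bad j) j
    have h2 := hbad j hj ((bad j).image fun k => k / (2 ^ j : ℤ)) (by
      intro k' hk'
      rw [Finset.mem_image] at hk'
      obtain ⟨k, hk, rfl⟩ := hk'
      rw [hbaddef, Finset.mem_filter] at hk
      obtain ⟨hk1, hk2⟩ := hmem k hk.1
      have e1 : (k / 2 ^ j : ℤ) * 2 ^ j ≤ k := Int.ediv_mul_le _ h2j.ne'
      have e2 : k + 1 ≤ (k / 2 ^ j + 1 : ℤ) * 2 ^ j := Int.lt_ediv_add_one_mul_self _ h2j
      have e1' : ((k / 2 ^ j : ℤ) : ℝ) * 2 ^ j ≤ k := by exact_mod_cast e1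
      have e2' : (k : ℝ) + 1 ≤ (((k / 2 ^ j : ℤ) : ℝ) + 1) * 2 ^ j := by exact_mod_cast e2
      have e3 : ((k / 2 ^ j : ℤ) : ℝ) * (2 ^ j * a) ≤ k * a := by
        rw [← mul_assoc]; exact mul_le_mul_of_nonneg_right e1' ha.le
      have e4 : ((k : ℝ) + 1) * a ≤ (((k / 2 ^ j : ℤ) : ℝ) + 1) * (2 ^ j * a) := by
        rw [← mul_assoc]; exact mul_le_mul_of_nonneg_right e2' ha.le
      have e5 : (k : ℝ) * a ≤ ((k : ℝ) + 1 / 2) * a :=
        mul_le_mul_of_nonneg_right (by linarith) ha.le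
      have e6 : ((k : ℝ) + 1 / 2) * a ≤ ((k : ℝ) + 1) * a :=
        mul_le_mul_of_nonneg_right (by linarith) ha.le
      refine ⟨by linarith, by linarith, ((k : ℝ) + 1 / 2) * a, ⟨by linarith, by linarith⟩, hk.2⟩)
    have h3 : Real.exp (-(cm * 2 ^ j * N)) ≤ q ^ (j + 1) := by
      rw [hqd, ← Real.exp_nat_mul, Real.exp_le_exp]
      have h4 : ((j : ℝ) + 1) ≤ 2 ^ j := by
        have : j + 1 ≤ 2 ^ j := Nat.lt_two_pow_self
        exact_mod_cast this
      have h5 : 0 < cm * N := by positivity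
      have h6 := mul_le_mul_of_nonneg_left h4 h5.le
      push_cast
      linarith
    have h2j' : (0 : ℝ) < 2 ^ j := by positivity
    calc ((bad j).card : ℝ) ≤ 2 ^ j * (((bad j).image fun k => k / (2 ^ j : ℤ)).card : ℝ) := h1
      _ ≤ 2 ^ j * (Cm * (T / (2 ^ j * a)) * Real.exp (-(cm * 2 ^ j * N))) :=
          mul_le_mul_of_nonneg_left h2 h2j'.le
      _ = Cm * (T / a) * Real.exp (-(cm * 2 ^ j * N)) := by
          field_simp
      _ ≤ Cm * (T / a) * q ^ (j + 1) := mul_le_mul_of_nonneg_left h3 (by positivity)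
  have hsum : ∑ j ∈ Finset.range J, ((bad j).card : ℝ) ≤ T / a / 8 := by
    calc ∑ j ∈ Finset.range J, ((bad j).card : ℝ)
        ≤ ∑ j ∈ Finset.range J, Cm * (T / a) * q ^ (j + 1) :=
          Finset.sum_le_sum fun j hj => hbadc j (Finset.mem_range.1 hj)
      _ = Cm * (T / a) * ∑ j ∈ Finset.range J, q ^ (j + 1) := by rw [Finset.mul_sum]
      _ ≤ Cm * (T / a) * (2 * q) :=
          mul_le_mul_of_nonneg_left (dn_realH_geom q hq0.le hq2 J) (by positivity)
      _ = (T / a) * (2 * (Cm * q)) := by ring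
      _ ≤ (T / a) * (1 / 8) := by
          refine mul_le_mul_of_nonneg_left ?_ hTa.le
          have h1 : Cm * q ≤ Cm * (1 / (16 * Cm + 2)) := mul_le_mul_of_nonneg_left hq hCm.le
          have h2 : Cm * (1 / (16 * Cm + 2)) ≤ 1 / 16 := by
            rw [mul_one_div, div_le_div_iff₀ (by positivity) (by norm_num)]
            linarith
          linarith
      _ = T / a / 8 := by ring
  set K : Finset ℤ := K₀.filter fun k : ℤ => ∀ j < J, G (((k : ℝ) + 1 / 2) * a) j with hK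
  have hcover : K₀ ⊆ K ∪ (Finset.range J).biUnion bad := by
    intro k hk
    rw [Finset.mem_union, hK, Finset.mem_filter, Finset.mem_biUnion]
    by_cases h : ∀ j < J, G (((k : ℝ) + 1 / 2) * a) j
    · exact Or.inl ⟨hk, h⟩
    · push Not at h
      obtain ⟨j, hj, hG⟩ := h
      exact Or.inr ⟨j, Finset.mem_range.2 hj, Finset.mem_filter.2 ⟨hk, hG⟩⟩
  have hc1 : (K₀.card : ℝ) ≤ (K.card : ℝ) + ∑ j ∈ Finset.range J, ((bad j).card : ℝ) := by
    have h1 := (Finset.card_le_card hcover).trans ((Finset.card_union_le _ _).trans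
      (Nat.add_le_add_left Finset.card_biUnion_le _))
    exact_mod_cast h1
  refine ⟨K, fun k hk => ?_, ?_⟩
  · rw [hK, Finset.mem_filter] at hk
    obtain ⟨h1, h2⟩ := hmem k hk.1
    refine ⟨h1, h2, fun j hj => ?_⟩
    rcases lt_or_eq_of_le hj with h | h
    · exact hk.2 j h
    · rw [h]
      have e3 : ((k : ℝ) + 1 / 2) * a = k * a + a / 2 := by ring
      have e4 : ((k : ℝ) + 1 / 2) * a = (k + 1) * a - a / 2 := by ring
      refine hJ _ ?_ ?_
      · rw [e3]; linarith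
      · rw [e4]; linarith
  · have h8 : 8 ≤ T / a := by rw [le_div_iff₀ ha]; exact hT
    have h9 : T / (2 * a) = T / a / 2 := by field_simp
    rw [h9]
    linarith

theorem p_realH (htop : S_top) (hreg : S_reg) (hsym : S_symR) (hRH : S_RH) (hlink : S_linkH)
    (hm : S_mb (fun _ => 1)) : S_realH := by
  intro A hA
  obtain ⟨ε, N₁, hε, hN₁, hRH⟩ := hRH
  obtain ⟨V₀, hV₀, hreg⟩ := hreg
  obtain ⟨V, l₁, hV1, hV1', htop⟩ := htop (ε / 100) (by positivity) (V₀ + 8 * A)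
  obtain ⟨l₀, hl₀, hreg⟩ := hreg ε (2 * A) V hε (by linarith) (by linarith)
  obtain ⟨Cm, cm, Tm, hCm, hcm, hTm, hm⟩ := hm (ε / 100) (2 * V) (by positivity) (by linarith)
  obtain ⟨C₀, hC₀⟩ : ∃ C₀ : ℝ, C₀ = max 0 (Real.log (16 * Cm + 2) / cm) := ⟨_, rfl⟩
  have hC₀0 : 0 ≤ C₀ := by rw [hC₀]; exact le_max_left _ _
  have hC₀1 : Real.log (16 * Cm + 2) / cm ≤ C₀ := by rw [hC₀]; exact le_max_right _ _
  refine ⟨N₁ + C₀, 1 / 2000, max (max 2 Tm) (max (Real.exp l₀) (max (Real.exp (max l₁ 1)) (16 * A))),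
    by linarith, by norm_num, (le_max_left _ _).trans (le_max_left _ _), ?_⟩
  intro t T hT ht hCt htA
  have hT2 : 2 ≤ T := ((le_max_left _ _).trans (le_max_left _ _)).trans hT
  have hTm' : Tm ≤ T := ((le_max_right _ _).trans (le_max_left _ _)).trans hT
  have hT0 : 0 < T := by linarith
  have hTl0 : Real.exp l₀ ≤ T := ((le_max_left _ _).trans (le_max_right _ _)).trans hT
  have hTl1 : Real.exp (max l₁ 1) ≤ T :=
    (((le_max_left _ _).trans (le_max_right _ _)).trans (le_max_right _ _)).trans hT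
  have hTA : 16 * A ≤ T :=
    (((le_max_right _ _).trans (le_max_right _ _)).trans (le_max_right _ _)).trans hT
  obtain ⟨l, hl⟩ : ∃ l : ℝ, l = Real.log T := ⟨_, rfl⟩
  have hl0 : l₀ ≤ l := by rw [hl]; exact (Real.le_log_iff_exp_le hT0).mpr hTl0
  have hl1 : max l₁ 1 ≤ l := by rw [hl]; exact (Real.le_log_iff_exp_le hT0).mpr hTl1
  have hll1 : l₁ ≤ l := (le_max_left _ _).trans hl1
  have hl1' : 1 ≤ l := (le_max_right _ _).trans hl1
  have hlpos : 0 < l := by linarith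
  obtain ⟨a, ha⟩ : ∃ a : ℝ, a = 2 * t * l := ⟨_, rfl⟩
  have ha0 : 0 < a := by rw [ha]; positivity
  rw [← hl] at hCt htA
  have haA : a ≤ 2 * A := by rw [ha]; linarith
  have haN : a * l = 2 * (t * l ^ 2) := by rw [ha]; ring
  have hN0 : N₁ + C₀ ≤ a * l := by
    rw [haN]
    have : 0 < t * l ^ 2 := by positivity
    linarith
  have hN1 : 1 ≤ a * l := by linarith
  have hNN₁ : N₁ ≤ a * l := by linarith
  have hNC : C₀ ≤ a * l := by linarith
  obtain ⟨J, hJ1, hJ2⟩ := dn_realH_pow V a ha0 (by linarith)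
  have hlog : ∀ x : ℝ, T ≤ x → x ≤ 2 * T → |Real.log x - l| ≤ 1 := by
    intro x h1 h2
    have hx : 0 < x := by linarith
    have h3 : Real.log T ≤ Real.log x := Real.log_le_log hT0 h1
    have h4 : Real.log x ≤ Real.log (2 * T) := Real.log_le_log hx h2
    rw [Real.log_mul (by norm_num) hT0.ne'] at h4
    have h5 : Real.log 2 ≤ 1 := by
      have := Real.log_two_lt_d9
      linarith
    rw [hl, abs_le]
    constructor <;> linarith
  have hpow : ∀ i : ℕ, i ≤ J → 2 ^ i * a ≤ 2 * V := by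
    intro i hi
    refine le_trans (mul_le_mul_of_nonneg_right (pow_le_pow_right₀ (by norm_num) hi) ha0.le) hJ2
  have hY : 40 ≤ 100 * V / a := by
    rw [le_div_iff₀ ha0]
    linarith
  have hq : Real.exp (-(cm * (a * l))) ≤ 1 / (16 * Cm + 2) := by
    have h1 : Real.log (16 * Cm + 2) ≤ cm * (a * l) := by
      have := hC₀1.trans hNC
      rw [div_le_iff₀ hcm] at this
      linarith
    have h2 : (0 : ℝ) < 16 * Cm + 2 := by linarith
    rw [Real.exp_neg, one_div]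
    refine inv_anti₀ h2 ?_
    calc 16 * Cm + 2 = Real.exp (Real.log (16 * Cm + 2)) := (Real.exp_log h2).symm
      _ ≤ _ := Real.exp_le_exp.2 h1
  obtain ⟨K, hK, hKc⟩ := dn_realH_count T a (a * l) Cm cm J
    (fun x j => Good (ε / 100) x (2 ^ j * a) l) ha0 hN1 (by linarith) hCm hcm
    (fun x hx1 hx2 => htop l hll1 x (by linarith) (hlog x hx1 hx2) (2 ^ J * a) hJ1 hJ2)
    (by
      intro j hj S' hS'
      have hb0 : 0 < 2 ^ j * a := by positivity
      have h1 := hm T hTm' (2 ^ j * a) hb0 (hpow j hj.le) S' (by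
        intro k hk
        rw [← hl]
        exact hS' k hk)
      rw [← hl, mul_one] at h1
      have h2 : cm * (2 ^ j * a) * l = cm * 2 ^ j * (a * l) := by ring
      rw [h2] at h1
      exact h1) hq
  have hex : ∀ k ∈ K, ∃ S : Finset ℝ, (∀ τ ∈ S, |τ| ≤ 1 / 16 ∧
      FH (a * l) (Rx (((k : ℝ) + 1 / 2) * a) a l) (τ * I) = 0) ∧ a * l / 1000 ≤ (S.card : ℝ) := by
    intro k hk
    obtain ⟨h1, h2, hG⟩ := hK k hk
    have e3 : ((k : ℝ) + 1 / 2) * a = k * a + a / 2 := by ring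
    have e4 : ((k : ℝ) + 1 / 2) * a = (k + 1) * a - a / 2 := by ring
    have hx1 : T ≤ ((k : ℝ) + 1 / 2) * a := by rw [e3]; linarith
    have hx2 : ((k : ℝ) + 1 / 2) * a ≤ 2 * T := by rw [e4]; linarith
    have hR := hreg l hl0 (((k : ℝ) + 1 / 2) * a) (by linarith) (hlog _ hx1 hx2) a ha0 haA hN1 0 J
      (Nat.zero_le _) hJ1 hJ2 (fun j _ hj => hG j hj)
    rw [pow_zero] at hR
    exact hRH (a * l) ε (100 * V / a) _ hε le_rfl hNN₁ hY hR (hsym _ a l)
  choose! f hf hfc using hex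
  have hzero : ∀ k ∈ K, ∀ τ ∈ f k, Ht t ((((k : ℝ) + 1 / 2) * a + a * τ : ℝ) : ℂ) = 0 := by
    intro k hk τ hτ
    obtain ⟨h1, h2, -⟩ := hK k hk
    have hx0 : 0 < ((k : ℝ) + 1 / 2) * a := by
      have e3 : ((k : ℝ) + 1 / 2) * a = k * a + a / 2 := by ring
      rw [e3]; linarith
    have h3 := hlink t (((k : ℝ) + 1 / 2) * a) l (τ * I) hx0 ht hlpos
    have h4 := (hf k hk τ hτ).2
    rw [← ha, h4, mul_zero] at h3
    rw [← h3]
    congr 1
    push_cast
    linear_combination ((a : ℂ) * τ) * I_sq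
  classical
  refine ⟨K.biUnion fun k => (f k).image fun τ => ((k : ℝ) + 1 / 2) * a + a * τ, ?_, ?_⟩
  · intro x hx
    rw [Finset.mem_biUnion] at hx
    obtain ⟨k, hk, hx⟩ := hx
    rw [Finset.mem_image] at hx
    obtain ⟨τ, hτ, rfl⟩ := hx
    obtain ⟨h1, h2, -⟩ := hK k hk
    have h3 := (hf k hk τ hτ).1
    obtain ⟨h4, h5⟩ := abs_le.1 h3
    have e1 : 0 ≤ a * (1 / 2 + τ) := mul_nonneg ha0.le (by linarith)
    have e2 : 0 ≤ a * (1 / 2 - τ) := mul_nonneg ha0.le (by linarith)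
    have e3 : ((k : ℝ) + 1 / 2) * a + a * τ = k * a + a * (1 / 2 + τ) := by ring
    have e4 : ((k : ℝ) + 1 / 2) * a + a * τ = (k + 1) * a - a * (1 / 2 - τ) := by ring
    refine ⟨?_, ?_, hzero k hk τ hτ⟩
    · rw [e3]; linarith
    · rw [e4]; linarith
  · rw [Finset.card_biUnion]
    · have h1 : ∀ k ∈ K, a * l / 1000 ≤
          ((((f k).image fun τ => ((k : ℝ) + 1 / 2) * a + a * τ).card : ℕ) : ℝ) := by
        intro k hk
        rw [Finset.card_image_of_injective _ (by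
          intro x y hxy
          have h : a * x = a * y := by simpa using hxy
          exact mul_left_cancel₀ ha0.ne' h)]
        exact hfc k hk
      push_cast
      calc 1 / 2000 * T * Real.log T = T / (2 * a) * (a * l / 1000) := by
            rw [← hl]; field_simp; norm_num
        _ ≤ (K.card : ℝ) * (a * l / 1000) :=
            mul_le_mul_of_nonneg_right hKc (by positivity)
        _ = ∑ _k ∈ K, (a * l / 1000) := by rw [Finset.sum_const, nsmul_eq_mul]
        _ ≤ _ := Finset.sum_le_sum h1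
    · intro k hk k' hk' hne
      rw [Function.onFun, Finset.disjoint_left]
      intro x hx hx'
      rw [Finset.mem_image] at hx hx'
      obtain ⟨τ, hτ, rfl⟩ := hx
      obtain ⟨τ', hτ', h⟩ := hx'
      obtain ⟨h4, h5⟩ := abs_le.1 (hf k hk τ hτ).1
      obtain ⟨h6, h7⟩ := abs_le.1 (hf k' hk' τ' hτ').1
      apply hne
      have h8 : (k' : ℝ) + τ' = k + τ := by
        have : a * ((k' : ℝ) + τ') = a * (k + τ) := by linarith
        exact mul_left_cancel₀ ha0.ne' this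
      have h9 : (k' : ℝ) < k + 1 := by linarith
      have h10 : (k : ℝ) < k' + 1 := by linarith
      have h9' : k' < k + 1 := by exact_mod_cast h9
      have h10' : k < k' + 1 := by exact_mod_cast h10
      omega

end Pool.Agent.Lib.MP_cd509c_nt.DN
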