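import Mathlib
import Pool.Agent.Lib.MP_cd509c_nt.DN.Defs2

/-!
# Piece refl: reflection for the smoothed Mellin transform on a ray
-/

set_option autoImplicit false

namespace Pool.Agent.Lib.MP_cd509c_nt.DN

open Complex ComplexConjugate MeasureTheory

lemma dn_refl_Lam_ne (c : ℝ) : Lam (c : ℂ) ≠ 0 := by
  have hint : Integrable (fun u : ℝ => Phi u * Real.exp ((c - 6) * u)) := by
    have h := integrable_pow_exp 0 |c - 6| (abs_nonneg _)
    refine h.mono' ?_ (Filter.Eventually.of_forall fun u => ?_)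
    · exact (Phi_continuous.mul (by fun_prop)).aestronglyMeasurable
    · have hp := (Phi_pos u).le
      rw [Real.norm_of_nonneg (by positivity), pow_zero, mul_one]
      apply mul_le_mul_of_nonneg_left _ hp
      apply Real.exp_le_exp.mpr
      rw [← abs_mul]
      exact le_abs_self _
  have hpos : 0 < ∫ u : ℝ, Phi u * Real.exp ((c - 6) * u) := by
    rw [integral_pos_iff_support_of_nonneg _ hint]
    · have : Function.support (fun u : ℝ => Phi u * Real.exp ((c - 6) * u)) = Set.univ := by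
        ext u
        simp [(Phi_pos u).ne']
      rw [this]
      simp
    · intro u
      have := (Phi_pos u).le
      simp only [Pi.zero_apply]
      positivity
  have e : Lam (c : ℂ) = ((∫ u : ℝ, Phi u * Real.exp ((c - 6) * u) : ℝ) : ℂ) := by
    rw [Lam_eq, ← integral_complex_ofReal]
    congr 1
    funext u
    push_cast
    rfl
  rw [e]
  exact_mod_cast hpos.ne'

lemma dn_refl_conv0 (hray : S_ray) {δ : ℝ} (h0 : 0 < δ) (h1 : δ < Real.pi) (c : ℝ) :
    MellinConvergent (fun y : ℝ => Dc (y * cexp (δ * I))) (c : ℂ) := by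
  by_contra hc
  have h := hray δ h0 h1 (c : ℂ)
  have h2 : mellin (fun y : ℝ => Dc (y * cexp (δ * I))) (c : ℂ) = 0 := by
    unfold mellin
    exact integral_undef hc
  rw [h2] at h
  exact (mul_ne_zero (Complex.exp_ne_zero _) (dn_refl_Lam_ne c)) h.symm

lemma dn_refl_im (y δ : ℝ) : ((y : ℂ) * cexp (δ * I)).im = y * Real.sin δ := by
  rw [Complex.im_ofReal_mul, Complex.exp_ofReal_mul_I_im]

lemma dn_refl_cont {δ : ℝ} (h0 : 0 < δ) (h1 : δ < Real.pi) :
    ContinuousOn (fun y : ℝ => Dc (y * cexp (δ * I))) (Set.Ioi 0) := by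
  intro y hy
  have hy0 : 0 < y := hy
  have hs : 0 < Real.sin δ := Real.sin_pos_of_pos_of_lt_pi h0 h1
  have him : 0 < ((y : ℂ) * cexp (δ * I)).im := by
    rw [dn_refl_im]
    positivity
  have hd : ContinuousAt Dc (y * cexp (δ * I)) := (Dc_differentiableAt him).continuousAt
  exact (ContinuousAt.comp (g := Dc) (f := fun u : ℝ => (u : ℂ) * cexp (δ * I)) hd
    (by fun_prop)).continuousWithinAt

/-- the discriminant at the reflected point -/
lemma dn_refl_eta {w : ℂ} (hw : 0 < w.im) :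
    ModularForm.eta (-conj w) = conj (ModularForm.eta w) := by
  have hq : ∀ h : ℝ, Function.Periodic.qParam h (-conj w) =
      conj (Function.Periodic.qParam h w) := by
    intro h
    rw [Function.Periodic.qParam, Function.Periodic.qParam, ← Complex.exp_conj]
    congr 1
    have h2 : (starRingEnd ℂ) 2 = 2 := map_ofNat _ 2
    simp [h2]
  have hlt : ‖Function.Periodic.qParam 1 w‖ < 1 := by
    rw [Function.Periodic.norm_qParam]
    rw [Real.exp_lt_one_iff]
    have : 0 < Real.pi * w.im := by positivity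
    simp only [div_one]
    linarith
  have hm : Multipliable fun n : ℕ => 1 - ModularForm.eta_q n w :=
    ModularForm.multipliable_one_sub_pow hlt
  unfold ModularForm.eta
  rw [map_mul, hq, hm.map_tprod (starRingEnd ℂ) Complex.continuous_conj]
  congr 1
  apply tprod_congr
  intro n
  rw [map_sub, map_one, ModularForm.eta_q, hq, map_pow]

lemma dn_refl_Dc {w : ℂ} (hw : 0 < w.im) : Dc (-conj w) = conj (Dc w) := by
  unfold Dc
  rw [dn_refl_eta hw, map_pow]

lemma dn_refl_inv {δ t : ℝ} (h0 : 0 < δ) (h1 : δ < Real.pi) (ht : 0 < t) :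
    Dc (((t⁻¹ : ℝ) : ℂ) * cexp (δ * I)) =
      (t : ℂ) ^ 12 * (cexp (-(12 * δ) * I) * conj (Dc (t * cexp (δ * I)))) := by
  have hs : 0 < Real.sin δ := Real.sin_pos_of_pos_of_lt_pi h0 h1
  have him : 0 < ((t : ℂ) * cexp (δ * I)).im := by
    rw [dn_refl_im]
    positivity
  rw [← dn_refl_Dc him]
  have him2 : 0 < (-conj ((t : ℂ) * cexp (δ * I))).im := by
    simpa using him
  have h := Dc_S him2
  have hexp : conj ((t : ℂ) * cexp (δ * I)) = t * cexp (-(δ * I)) := by
    rw [map_mul, Complex.conj_ofReal, ← Complex.exp_conj]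
    congr 2
    simp
  have ht0 : (t : ℂ) ≠ 0 := by exact_mod_cast ht.ne'
  have e1 : -1 / (-conj ((t : ℂ) * cexp (δ * I))) = ((t⁻¹ : ℝ) : ℂ) * cexp (δ * I) := by
    rw [hexp, neg_div_neg_eq, one_div, mul_inv, ← Complex.exp_neg, neg_neg]
    push_cast
    rfl
  rw [e1] at h
  rw [h]
  have e2 : (-conj ((t : ℂ) * cexp (δ * I))) ^ 12 = (t : ℂ) ^ 12 * cexp (-(12 * δ) * I) := by
    rw [hexp, neg_pow, mul_pow, ← Complex.exp_nat_mul]
    have : ((12 : ℕ) : ℂ) * -(δ * I) = -(12 * δ) * I := by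
      push_cast
      ring
    rw [this]
    norm_num
  rw [e2]
  ring

/-- the smoothed function on the ray -/
noncomputable def dn_refl_g (V : ℝ → ℝ) (δ y : ℝ) : ℂ :=
  (V (Real.log y) : ℂ) * Dc (y * cexp (δ * I))

lemma dn_refl_gcont {V : ℝ → ℝ} (hV : Continuous V) {δ : ℝ} (h0 : 0 < δ) (h1 : δ < Real.pi) :
    ContinuousOn (dn_refl_g V δ) (Set.Ioi 0) := by
  unfold dn_refl_g
  apply ContinuousOn.mul _ (dn_refl_cont h0 h1)
  apply Complex.continuous_ofReal.comp_continuousOn
  apply hV.comp_continuousOn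
  exact Real.continuousOn_log.mono (fun y hy => ne_of_gt hy)

lemma dn_refl_gconv (hray : S_ray) {V : ℝ → ℝ} (hV : Continuous V) (hV0 : ∀ u, 0 ≤ V u)
    (hV1 : ∀ u, V u ≤ 1) {δ : ℝ} (h0 : 0 < δ) (h1 : δ < Real.pi) (s : ℂ) :
    MellinConvergent (dn_refl_g V δ) s := by
  have h := dn_refl_conv0 hray h0 h1 s.re
  refine Integrable.mono' (Integrable.norm h) ?_ ?_
  · apply ContinuousOn.aestronglyMeasurable _ measurableSet_Ioi
    refine ContinuousOn.smul (f := fun t : ℝ => (t : ℂ) ^ (s - 1)) (g := dn_refl_g V δ) ?_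
      (dn_refl_gcont hV h0 h1)
    intro t ht
    exact (Complex.continuousAt_ofReal_cpow_const t (s - 1) (Or.inr (ne_of_gt ht))).continuousWithinAt
  · rw [ae_restrict_iff' measurableSet_Ioi]
    refine Filter.Eventually.of_forall fun y hy => ?_
    have hy0 : 0 < y := hy
    rw [norm_smul, norm_smul, Complex.norm_cpow_eq_rpow_re_of_pos hy0,
      Complex.norm_cpow_eq_rpow_re_of_pos hy0]
    have e : ((s.re : ℂ) - 1).re = (s - 1).re := by simp
    rw [e]
    apply mul_le_mul_of_nonneg_left _ (by positivity)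
    unfold dn_refl_g
    rw [norm_mul, Complex.norm_real, Real.norm_of_nonneg (hV0 _)]
    exact mul_le_of_le_one_left (norm_nonneg _) (hV1 _)

lemma dn_refl_mconj (h : ℝ → ℂ) (s : ℂ) :
    mellin (fun t => conj (h t)) (conj s) = conj (mellin h s) := by
  unfold mellin
  rw [← integral_conj]
  apply setIntegral_congr_fun measurableSet_Ioi
  intro t ht
  have ht0 : 0 < t := ht
  simp only [smul_eq_mul, map_mul]
  congr 1
  have harg : (t : ℂ).arg ≠ Real.pi := by
    rw [Complex.arg_ofReal_of_nonneg ht0.le]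
    exact Real.pi_pos.ne
  have h2 := Complex.cpow_conj (t : ℂ) (s - 1) harg
  rw [Complex.conj_ofReal, map_sub, map_one] at h2
  exact h2

lemma dn_refl_g_inv {V : ℝ → ℝ} {δ : ℝ} (h0 : 0 < δ) (h1 : δ < Real.pi) (t : ℝ) :
    mellin (dn_refl_g V δ) (6 + t * I) = cexp (-(12 * δ) * I) *
      conj (mellin (dn_refl_g (fun u => V (-u)) δ) (6 + t * I)) := by
  have e0 : mellin (dn_refl_g V δ) (6 + t * I) =
      mellin (fun y => dn_refl_g V δ y⁻¹) (-(6 + t * I)) := by
    rw [mellin_comp_inv, neg_neg]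
  rw [e0]
  have e1 : mellin (fun y => dn_refl_g V δ y⁻¹) (-(6 + t * I)) =
      mellin (fun y : ℝ => (y : ℂ) ^ (12 : ℂ) • (cexp (-(12 * δ) * I) •
        conj (dn_refl_g (fun u => V (-u)) δ y))) (-(6 + t * I)) := by
    unfold mellin
    apply setIntegral_congr_fun measurableSet_Ioi
    intro y hy
    have hy0 : 0 < y := hy
    simp only [smul_eq_mul]
    congr 1
    unfold dn_refl_g
    rw [dn_refl_inv h0 h1 hy0, Real.log_inv, map_mul, Complex.conj_ofReal]
    have : (y : ℂ) ^ (12 : ℂ) = (y : ℂ) ^ 12 := by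
      rw [← Complex.cpow_natCast]
      norm_num
    rw [this]
    ring
  rw [e1, mellin_cpow_smul, mellin_const_smul, smul_eq_mul]
  have e2 : -(6 + (t : ℂ) * I) + 12 = conj (6 + (t : ℂ) * I) := by
    apply Complex.ext
    · simp
      norm_num
    · simp
  rw [e2, dn_refl_mconj]

lemma dn_refl_sum (u : ℝ) : Vs u + Vs (-u) = 1 := by
  unfold Vs
  have e : (1 + -u) / 2 = 1 - (1 + u) / 2 := by ring
  rw [e]
  have h1 := Real.smoothTransition.pos_denom ((1 + u) / 2)
  have h2 := Real.smoothTransition.pos_denom (1 - (1 + u) / 2)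
  unfold Real.smoothTransition
  rw [sub_sub_cancel] at h2 ⊢
  rw [add_comm (expNegInvGlue (1 - (1 + u) / 2)), ← add_div, div_self h1.ne']

lemma dn_refl_key (hray : S_ray) {X δ : ℝ} (h0 : 0 < δ) (h1 : δ < Real.pi) (t : ℝ) :
    Real.exp (-((Real.pi / 2 - δ) * t)) * ‖Lam (6 + t * I)‖ ≤
      2 * ‖mellin (dn_refl_g (fun u => Vs (u / Real.log X)) δ) (6 + t * I)‖ := by
  have hVc : Continuous Vs := by
    unfold Vs
    exact Real.smoothTransition.continuous.comp (by fun_prop)
  have hV0 : ∀ u, 0 ≤ Vs u := fun u => Real.smoothTransition.nonneg _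
  have hV1 : ∀ u, Vs u ≤ 1 := fun u => Real.smoothTransition.le_one _
  set V1 : ℝ → ℝ := fun u => Vs (u / Real.log X) with hV1d
  set V2 : ℝ → ℝ := fun u => Vs (-u / Real.log X) with hV2d
  have hc1 : Continuous V1 := hVc.comp (by fun_prop)
  have hc2 : Continuous V2 := hVc.comp (by fun_prop)
  have hm1 := dn_refl_gconv hray hc1 (fun u => hV0 _) (fun u => hV1 _) h0 h1 (6 + t * I)
  have hm2 := dn_refl_gconv hray hc2 (fun u => hV0 _) (fun u => hV1 _) h0 h1 (6 + t * I)
  have hr := hray δ h0 h1 (6 + t * I)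
  have hsum : mellin (fun y : ℝ => Dc (y * cexp (δ * I))) (6 + t * I) =
      mellin (dn_refl_g V1 δ) (6 + t * I) + mellin (dn_refl_g V2 δ) (6 + t * I) := by
    unfold mellin
    rw [← integral_add hm1 hm2]
    apply setIntegral_congr_fun measurableSet_Ioi
    intro y hy
    simp only [smul_eq_mul]
    rw [← mul_add]
    congr 1
    unfold dn_refl_g
    rw [← add_mul, ← Complex.ofReal_add]
    have : V1 (Real.log y) + V2 (Real.log y) = 1 := by
      rw [hV1d, hV2d]
      simp only
      rw [neg_div]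
      exact dn_refl_sum _
    rw [this]
    simp
  have hinv := dn_refl_g_inv (V := V2) h0 h1 t
  have hfun : (fun u => V2 (-u)) = V1 := by
    funext u
    rw [hV1d, hV2d]
    simp
  rw [hfun] at hinv
  have hn : ‖mellin (dn_refl_g V2 δ) (6 + t * I)‖ = ‖mellin (dn_refl_g V1 δ) (6 + t * I)‖ := by
    rw [hinv, norm_mul, Complex.norm_conj]
    have : ‖cexp (-(12 * δ) * I)‖ = 1 := by
      have e : -(12 * (δ : ℂ)) * I = ((-(12 * δ) : ℝ) : ℂ) * I := by push_cast; ring
      rw [e, Complex.norm_exp_ofReal_mul_I]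
    rw [this, one_mul]
  have hnorm : ‖mellin (fun y : ℝ => Dc (y * cexp (δ * I))) (6 + t * I)‖ =
      Real.exp (-((Real.pi / 2 - δ) * t)) * ‖Lam (6 + t * I)‖ := by
    rw [hr, norm_mul, Complex.norm_exp]
    congr 2
    simp
  rw [← hnorm, hsum]
  refine (norm_add_le _ _).trans ?_
  rw [hn]
  linarith

lemma dn_refl_HW {X δ y : ℝ} (d : ℂ) (hy : 0 < y) : HW X d δ y =
    ∑ b ∈ Finset.Icc 1 ⌊X⌋₊, (muf b * Pw (Real.log b / Real.log X) * (b : ℂ) ^ (-d)) *
      dn_refl_g (fun u => Vs (u / Real.log X)) δ ((b : ℝ) * y) := by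
  unfold HW dn_refl_g
  apply Finset.sum_congr rfl
  intro b hb
  have hb1 : 1 ≤ b := (Finset.mem_Icc.mp hb).1
  have hb0 : (b : ℝ) ≠ 0 := by positivity
  rw [Real.log_mul hb0 hy.ne']
  push_cast
  rw [mul_assoc (b : ℂ)]
  ring

theorem p_refl (hray : S_ray) : S_refl := by
  intro X δ d hX h0 hδ
  have h1 : δ < Real.pi := by
    have := Real.pi_gt_three
    linarith
  have hVc : Continuous Vs := by
    unfold Vs
    exact Real.smoothTransition.continuous.comp (by fun_prop)
  have hV0 : ∀ u, 0 ≤ Vs u := fun u => Real.smoothTransition.nonneg _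
  have hV1 : ∀ u, Vs u ≤ 1 := fun u => Real.smoothTransition.le_one _
  set V1 : ℝ → ℝ := fun u => Vs (u / Real.log X) with hV1d
  have hc1 : Continuous V1 := hVc.comp (by fun_prop)
  set cc : ℕ → ℂ := fun b => muf b * Pw (Real.log b / Real.log X) * (b : ℂ) ^ (-d) with hcc
  have hHW : ∀ y ∈ Set.Ioi (0 : ℝ), HW X d δ y =
      ∑ b ∈ Finset.Icc 1 ⌊X⌋₊, cc b * dn_refl_g V1 δ ((b : ℝ) * y) := fun y hy =>
    dn_refl_HW d hy
  have hb0 : ∀ b ∈ Finset.Icc 1 ⌊X⌋₊, (0 : ℝ) < b := by
    intro b hb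
    have := (Finset.mem_Icc.mp hb).1
    positivity
  have hterm : ∀ s : ℂ, ∀ b ∈ Finset.Icc 1 ⌊X⌋₊,
      MellinConvergent (fun y => dn_refl_g V1 δ ((b : ℝ) * y)) s := by
    intro s b hb
    rw [MellinConvergent.comp_mul_left (hb0 b hb)]
    exact dn_refl_gconv hray hc1 (fun u => hV0 _) (fun u => hV1 _) h0 h1 s
  have hmc : ∀ s : ℂ, MellinConvergent
      (fun y => ∑ b ∈ Finset.Icc 1 ⌊X⌋₊, cc b * dn_refl_g V1 δ ((b : ℝ) * y)) s := by
    intro s
    unfold MellinConvergent
    simp only [smul_eq_mul, Finset.mul_sum]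
    apply integrable_finsetSum
    intro b hb
    have h := (hterm s b hb).const_smul (cc b)
    refine h.congr (Filter.Eventually.of_forall fun y => ?_)
    simp only [smul_eq_mul]
  refine ⟨?_, ?_, fun t => ?_⟩
  · refine ContinuousOn.congr ?_ hHW
    apply continuousOn_finsetSum
    intro b hb
    apply continuousOn_const.mul
    apply (dn_refl_gcont hc1 h0 h1).comp (by fun_prop)
    intro y hy
    have := hb0 b hb
    have hy0 : 0 < y := hy
    exact mul_pos this hy0
  · refine (hmc ((6 : ℝ) : ℂ)).congr_fun (fun y hy => ?_) measurableSet_Ioi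
    simp only
    rw [hHW y hy]
  · have hm : mellin (HW X d δ) (((6 : ℝ) : ℂ) + t * I) =
        Mol X (t * I + d) * mellin (dn_refl_g V1 δ) (6 + t * I) := by
      have e6 : ((6 : ℝ) : ℂ) + t * I = 6 + t * I := by norm_num
      rw [e6]
      have e1 : mellin (HW X d δ) (6 + t * I) = mellin
          (fun y => ∑ b ∈ Finset.Icc 1 ⌊X⌋₊, cc b * dn_refl_g V1 δ ((b : ℝ) * y)) (6 + t * I) := by
        unfold mellin
        apply setIntegral_congr_fun measurableSet_Ioi
        intro y hy
        simp only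
        rw [hHW y hy]
      have e2 : mellin
          (fun y => ∑ b ∈ Finset.Icc 1 ⌊X⌋₊, cc b * dn_refl_g V1 δ ((b : ℝ) * y)) (6 + t * I) =
          ∑ b ∈ Finset.Icc 1 ⌊X⌋₊,
            cc b * mellin (fun y => dn_refl_g V1 δ ((b : ℝ) * y)) (6 + t * I) := by
        unfold mellin
        simp only [smul_eq_mul, Finset.mul_sum]
        rw [integral_finsetSum]
        · apply Finset.sum_congr rfl
          intro b hb
          rw [← integral_const_mul]
          congr 1
          funext y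
          ring
        · intro b hb
          have h := (hterm (6 + t * I) b hb).const_smul (cc b)
          refine h.congr (Filter.Eventually.of_forall fun y => ?_)
          simp only [smul_eq_mul]
      rw [e1, e2]
      unfold Mol
      rw [Finset.sum_mul]
      apply Finset.sum_congr rfl
      intro b hb
      rw [mellin_comp_mul_left _ _ (hb0 b hb), smul_eq_mul, hcc]
      have hbc : (b : ℂ) ≠ 0 := by
        have := hb0 b hb
        exact_mod_cast this.ne'
      have e3 : (b : ℂ) ^ (-(6 + (t * I + d))) = (b : ℂ) ^ (-d) * (b : ℂ) ^ (-(6 + t * I)) := by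
        rw [← Complex.cpow_add _ _ hbc]
        congr 1
        ring
      rw [e3]
      simp only
      push_cast
      ring
    rw [hm, norm_mul]
    have hk := dn_refl_key (X := X) hray h0 h1 t
    calc Real.exp (-((Real.pi / 2 - δ) * t)) * ‖Lam (6 + t * I)‖ * ‖Mol X (t * I + d)‖
        ≤ (2 * ‖mellin (dn_refl_g V1 δ) (6 + t * I)‖) * ‖Mol X (t * I + d)‖ :=
          mul_le_mul_of_nonneg_right hk (norm_nonneg _)
      _ = _ := by ring

end Pool.Agent.Lib.MP_cd509c_nt.DN
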