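import Pool.Agent.Lib.MP_cd509c_nt.DN.Defs

/-!
# Project DN, piece reg1: the logarithm of `LL` is Lipschitz near a good point
-/

set_option autoImplicit false

namespace Pool.Agent.Lib.MP_cd509c_nt.DN

open Complex Metric

/-- a nonvanishing holomorphic function on a ball has a logarithm -/
theorem dn_reg1_log {f : ℂ → ℂ} {c : ℂ} {R : ℝ} (hR : 0 < R) (hf : DifferentiableOn ℂ f (ball c R))
    (h0 : ∀ z ∈ ball c R, f z ≠ 0) : ∃ g : ℂ → ℂ, g c = 0 ∧ DifferentiableOn ℂ g (ball c R) ∧
      ∀ z ∈ ball c R, f z = f c * cexp (g z) := by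
  have hd : DifferentiableOn ℂ (fun z => deriv f z / f z) (ball c R) :=
    (hf.deriv isOpen_ball).div hf h0
  obtain ⟨g, hg0, hg⟩ := hd.isExactOn_ball.with_val_at c 0
  refine ⟨g, hg0, fun z hz => (hg z hz).differentiableAt.differentiableWithinAt, fun z hz => ?_⟩
  have hk : ∀ z ∈ ball c R, HasDerivAt (fun z => f z * cexp (-g z)) 0 z := by
    intro z hz
    have h1 : HasDerivAt f (deriv f z) z :=
      (hf.differentiableAt (isOpen_ball.mem_nhds hz)).hasDerivAt
    have h2 := h1.mul ((hg z hz).neg.cexp)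
    refine h2.congr_deriv ?_
    have h4 : f z * (deriv f z / f z) = deriv f z := mul_div_cancel₀ _ (h0 z hz)
    linear_combination -cexp (-g z) * h4
  have h3 : f z * cexp (-g z) = f c * cexp (-g c) := by
    refine IsOpen.is_const_of_deriv_eq_zero isOpen_ball (convex_ball c R).isPreconnected
      (fun z hz => (hk z hz).differentiableAt.differentiableWithinAt)
      (fun z hz => (hk z hz).deriv) hz (mem_ball_self hR)
  rw [hg0, neg_zero, Complex.exp_zero, mul_one] at h3
  rw [← h3, mul_assoc, ← Complex.exp_add, neg_add_cancel, Complex.exp_zero, mul_one]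

theorem p_reg1 : S_reg1 := by
  intro ε b l x hε hb hl hG w v h1 h2 h3 h4
  have hLL : Differentiable ℂ LL := by
    unfold LL
    exact Lf_differentiable.comp (differentiable_id.const_add 6)
  set R : ℝ := b / 8 with hRd
  have hR : 0 < R := by positivity
  -- the ball lies in the good box
  have hbox : ∀ z ∈ ball w R, b / 8 ≤ z.re ∧ z.re ≤ 400 * b ∧ |z.im - x| ≤ 400 * b := by
    intro z hz
    rw [mem_ball, dist_eq_norm] at hz
    have k1 : |z.re - w.re| < R := by
      have := Complex.abs_re_le_norm (z - w)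
      rw [Complex.sub_re] at this
      linarith
    have k2 : |z.im - w.im| < R := by
      have := Complex.abs_im_le_norm (z - w)
      rw [Complex.sub_im] at this
      linarith
    rw [abs_lt] at k1 k2
    rw [abs_le] at h3 ⊢
    refine ⟨by linarith, by linarith, by linarith, by linarith⟩
  have hw : w ∈ ball w R := mem_ball_self hR
  obtain ⟨w1, w2, w3⟩ := hbox w hw
  have h0 : ∀ z ∈ ball w R, LL z ≠ 0 := by
    intro z hz
    obtain ⟨z1, z2, z3⟩ := hbox z hz
    exact (hG w z (by linarith) w2 w3 z1 z2 z3).1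
  obtain ⟨g, hg0, hg, hgz⟩ := dn_reg1_log hR hLL.differentiableOn h0
  -- the real part
  have hre : ∀ z ∈ ball w R, (g z).re ≤ ε * b * l := by
    intro z hz
    obtain ⟨z1, z2, z3⟩ := hbox z hz
    have k := (hG z w (by linarith) z2 z3 w1 w2 w3).2
    rw [hgz z hz, norm_mul, Complex.norm_exp, mul_comm] at k
    have k2 := le_of_mul_le_mul_right k (norm_pos_iff.2 (h0 w hw))
    exact Real.exp_le_exp.1 k2
  -- Borel-Caratheodory
  have hv : v ∈ ball w R := by
    rw [mem_ball, dist_eq_norm]
    have : b / 16 < R := by rw [hRd]; linarith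
    linarith
  have hM : 0 < ε * b * l := by positivity
  have key := Complex.borelCaratheodory_zero (f := fun z => g (w + z)) (z := v - w) (R := R) hM
    (by
      refine hg.comp (by fun_prop) ?_
      intro z hz
      rw [mem_ball_zero_iff] at hz
      rw [mem_ball, dist_eq_norm, add_sub_cancel_left]
      exact hz)
    (by
      intro z hz
      rw [mem_ball_zero_iff] at hz
      refine hre (w + z) ?_
      rw [mem_ball, dist_eq_norm, add_sub_cancel_left]
      exact hz) hR
    (by
      rw [mem_ball_zero_iff]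
      rw [mem_ball, dist_eq_norm] at hv
      exact hv)
    (by rw [add_zero]; exact hg0)
  rw [add_sub_cancel] at key
  have k1 : ‖g v‖ ≤ 32 * ε * l * ‖v - w‖ := by
    refine key.trans ?_
    have k2 : b / 16 ≤ R - ‖v - w‖ := by rw [hRd]; linarith
    have k3 : 0 < R - ‖v - w‖ := by linarith
    rw [div_le_iff₀ k3]
    have k4 : 32 * ε * l * ‖v - w‖ * (b / 16) ≤ 32 * ε * l * ‖v - w‖ * (R - ‖v - w‖) :=
      mul_le_mul_of_nonneg_left k2 (by positivity)
    calc 2 * (ε * b * l) * ‖v - w‖ = 32 * ε * l * ‖v - w‖ * (b / 16) := by ring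
      _ ≤ _ := k4
  rw [hgz v hv, norm_mul, Complex.norm_exp, mul_comm]
  refine mul_le_mul_of_nonneg_right (Real.exp_le_exp.2 ?_) (norm_nonneg _)
  exact (Complex.re_le_norm _).trans k1

end Pool.Agent.Lib.MP_cd509c_nt.DN
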