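import Pool.Agent.Lib.MP_cd509c_nt.DN.Defs

/-!
# Chaining of the scales
-/

set_option autoImplicit false

namespace Pool.Agent.Lib.MP_cd509c_nt.DN

open Complex ComplexConjugate MeasureTheory

/-- choice of the scale -/
theorem dn_reg2_pick (a r : ℝ) (i J : ℕ) (hij : i ≤ J) (h : 2 ^ i * a / 4 ≤ r) :
    ∃ j : ℕ, i ≤ j ∧ j ≤ J ∧ 2 ^ j * a / 4 ≤ r ∧ (r < 2 ^ j * a / 2 ∨ j = J) := by
  induction J, hij using Nat.le_induction with
  | base => exact ⟨i, le_rfl, le_rfl, h, Or.inr rfl⟩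
  | succ J hJ ih =>
    obtain ⟨j, h1, h2, h3, h4⟩ := ih
    rcases h4 with h4 | h4
    · exact ⟨j, h1, h2.trans (Nat.le_succ J), h3, Or.inl h4⟩
    · subst h4
      by_cases h5 : 2 ^ (j + 1) * a / 4 ≤ r
      · exact ⟨j + 1, h1.trans (Nat.le_succ j), le_rfl, h5, Or.inr rfl⟩
      · refine ⟨j, h1, Nat.le_succ j, h3, Or.inl ?_⟩
        push Not at h5
        rw [pow_succ] at h5
        linarith

theorem p_reg2 (hreg1 : S_reg1) : S_reg2 := by
  intro ε a l x i J hε ha hl hiJ hG w v hw1 hw2 hw3 hv1 hv2 hv3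
  obtain ⟨j, hij, hjJ, hj1, hj2⟩ := dn_reg2_pick a w.re i J hiJ hw1
  have hpos : ∀ k : ℕ, 0 < 2 ^ k * a := fun k => by positivity
  have hmono : ∀ k m : ℕ, k ≤ m → 2 ^ k * a ≤ 2 ^ m * a := fun k m hkm =>
    mul_le_mul_of_nonneg_right (pow_le_pow_right₀ (by norm_num) hkm) ha.le
  have hbij := hmono i j hij
  have hbj := hpos j
  have hbi := hpos i
  -- the scale j controls w
  have hwup : w.re ≤ 200 * (2 ^ j * a) := by
    rcases hj2 with h | h
    · linarith
    · rw [h]; exact hw2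
  have hwlo : 2 ^ j * a / 8 ≤ w.re := by linarith
  have hwim : |w.im - x| ≤ 20 * (2 ^ j * a) := hw3.trans (by linarith)
  have hGj := hG j hij hjJ
  have hwne : LL w ≠ 0 := (hGj w w (by linarith) (by linarith) (by linarith)
    hwlo (by linarith) (by linarith)).1
  refine ⟨hwne, ?_⟩
  by_cases hnear : ‖v - w‖ ≤ 2 ^ j * a / 16
  · exact hreg1 ε (2 ^ j * a) l x hε hbj hl hGj w v hj1 (by linarith) (by linarith) hnear
  push Not at hnear
  have hεl : 0 < ε * l := mul_pos hε hl
  have hnn : 0 ≤ ‖LL w‖ := norm_nonneg _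
  by_cases hvr : v.re ≤ 400 * (2 ^ j * a)
  · have h1 := (hGj v w hv1 hvr (hv3.trans (by linarith)) hwlo (by linarith) (by linarith)).2
    refine h1.trans (mul_le_mul_of_nonneg_right (Real.exp_le_exp.mpr ?_) hnn)
    have h2 : ε * (2 ^ j * a) * l = ε * l * (2 ^ j * a) := by ring
    have h3 : 32 * ε * l * ‖v - w‖ = ε * l * (32 * ‖v - w‖) := by ring
    rw [h2, h3]
    exact mul_le_mul_of_nonneg_left (by linarith [norm_nonneg (v - w)]) hεl.le
  · push Not at hvr
    obtain ⟨m, hjm, hmJ, hm1, hm2⟩ := dn_reg2_pick a (v.re / 800) j J hjJ (by linarith)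
    have hbm := hpos m
    have hbjm := hmono j m hjm
    have hvup : v.re ≤ 400 * (2 ^ m * a) := by
      rcases hm2 with h | h
      · linarith
      · rw [h]; have := hpos J; linarith
    -- the chain of points b_k + i x
    have hchain : ∀ k : ℕ, j ≤ k → k ≤ J →
        ‖LL (⟨2 ^ k * a, x⟩ : ℂ)‖ ≤ Real.exp (ε * l * (2 ^ k * a)) * ‖LL w‖ := by
      intro k hk
      induction k, hk using Nat.le_induction with
      | base =>
        intro _
        have h1 := (hGj (⟨2 ^ j * a, x⟩ : ℂ) w hbj.le (by show 2 ^ j * a ≤ _; linarith)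
          (by show |x - x| ≤ _; rw [sub_self, abs_zero]; linarith) hwlo (by linarith)
          (by linarith)).2
        refine h1.trans (le_of_eq ?_)
        ring_nf
      | succ k hk ih =>
        intro hkJ
        have ih' := ih (Nat.le_of_succ_le hkJ)
        have hbk := hpos k
        have hGk := hG k (hij.trans hk) (Nat.le_of_succ_le hkJ)
        have h1 := (hGk (⟨2 ^ (k + 1) * a, x⟩ : ℂ) (⟨2 ^ k * a, x⟩ : ℂ)
          (hpos (k + 1)).le (by show 2 ^ (k + 1) * a ≤ _; rw [pow_succ]; linarith)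
          (by show |x - x| ≤ _; rw [sub_self, abs_zero]; linarith)
          (by show _ ≤ 2 ^ k * a; linarith) (by show 2 ^ k * a ≤ _; linarith)
          (by show |x - x| ≤ _; rw [sub_self, abs_zero]; linarith)).2
        calc ‖LL (⟨2 ^ (k + 1) * a, x⟩ : ℂ)‖
            ≤ Real.exp (ε * (2 ^ k * a) * l) * ‖LL (⟨2 ^ k * a, x⟩ : ℂ)‖ := h1
          _ ≤ Real.exp (ε * (2 ^ k * a) * l) * (Real.exp (ε * l * (2 ^ k * a)) * ‖LL w‖) :=
              mul_le_mul_of_nonneg_left ih' (Real.exp_pos _).le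
          _ = Real.exp (ε * l * (2 ^ (k + 1) * a)) * ‖LL w‖ := by
              rw [← mul_assoc, ← Real.exp_add, pow_succ]
              congr 2
              ring
    have hc := hchain m hjm hmJ
    have hGm := hG m (hij.trans hjm) hmJ
    have h1 := (hGm v (⟨2 ^ m * a, x⟩ : ℂ) hv1 hvup (hv3.trans (by linarith))
      (by show _ ≤ 2 ^ m * a; linarith) (by show 2 ^ m * a ≤ _; linarith)
      (by show |x - x| ≤ _; rw [sub_self, abs_zero]; linarith)).2
    have hdist : 2 ^ m * a ≤ ‖v - w‖ := by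
      have h2 : |(v - w).re| ≤ ‖v - w‖ := Complex.abs_re_le_norm _
      have h3 : (v - w).re ≤ |(v - w).re| := le_abs_self _
      rw [Complex.sub_re] at h2 h3
      rcases hj2 with h | h
      · linarith
      · exfalso
        rw [h] at hvr
        have := hpos J
        linarith
    calc ‖LL v‖ ≤ Real.exp (ε * (2 ^ m * a) * l) * ‖LL (⟨2 ^ m * a, x⟩ : ℂ)‖ := h1
      _ ≤ Real.exp (ε * (2 ^ m * a) * l) * (Real.exp (ε * l * (2 ^ m * a)) * ‖LL w‖) :=
          mul_le_mul_of_nonneg_left hc (Real.exp_pos _).le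
      _ = Real.exp (ε * l * (2 * (2 ^ m * a))) * ‖LL w‖ := by
          rw [← mul_assoc, ← Real.exp_add]
          congr 2
          ring
      _ ≤ Real.exp (32 * ε * l * ‖v - w‖) * ‖LL w‖ := by
          refine mul_le_mul_of_nonneg_right (Real.exp_le_exp.mpr ?_) hnn
          have h3 : 32 * ε * l * ‖v - w‖ = ε * l * (32 * ‖v - w‖) := by ring
          rw [h3]
          exact mul_le_mul_of_nonneg_left (by linarith) hεl.le

end Pool.Agent.Lib.MP_cd509c_nt.DN
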