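import Pool.Agent.Lib.MP_cd509c_nt.DN.Defs2

/-!
# Piece `rh`: from the ray to horizontal segments
-/

set_option autoImplicit false

namespace Pool.Agent.Lib.MP_cd509c_nt.DN

open Complex ComplexConjugate MeasureTheory

private lemma dn_rh_ball {w : ℂ} {r : ℝ} (hw : r < w.im) :
    Metric.closedBall w r ⊆ {z : ℂ | 0 < z.im} := by
  intro z hz
  rw [Metric.mem_closedBall, dist_eq_norm] at hz
  have := (abs_im_le_norm (z - w)).trans hz
  rw [abs_le, sub_im] at this
  simp only [Set.mem_ofPred_eq]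
  linarith [this.1]

/-- mean value on circles -/
private lemma dn_rh_circ (f : ℂ → ℂ) (hf : DifferentiableOn ℂ f {z | 0 < z.im}) (w : ℂ) (r : ℝ)
    (hr : 0 ≤ r) (hw : r < w.im) :
    2 * Real.pi * ‖f w‖ ^ 2 ≤
      ∫ θ in Set.Ioo (-Real.pi) Real.pi, ‖f (w + r * (Real.cos θ + Real.sin θ * I))‖ ^ 2 := by
  have hd : DiffContOnCl ℂ (fun z => f z ^ 2) (Metric.ball w |r|) := by
    apply DifferentiableOn.diffContOnCl
    apply (hf.pow 2).mono
    rw [abs_of_nonneg hr]
    exact Metric.closure_ball_subset_closedBall.trans (dn_rh_ball hw)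
  have h1 : Real.circleAverage (fun z => f z ^ 2) w r = f w ^ 2 := hd.circleAverage
  have hc : ∀ θ : ℝ, circleMap w r θ = w + r * (Real.cos θ + Real.sin θ * I) := by
    intro θ
    rw [circleMap, Complex.exp_mul_I, ofReal_cos, ofReal_sin]
  have h2 : ‖f w‖ ^ 2 ≤
      (2 * Real.pi)⁻¹ * ∫ θ in (0 : ℝ)..(2 * Real.pi), ‖f (circleMap w r θ)‖ ^ 2 := by
    have e0 : ‖f w‖ ^ 2 = ‖f w ^ 2‖ := (norm_pow _ _).symm
    rw [e0, ← h1, Real.circleAverage, norm_smul, Real.norm_of_nonneg (by positivity)]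
    apply mul_le_mul_of_nonneg_left _ (by positivity)
    have := intervalIntegral.norm_integral_le_integral_norm
      (f := fun θ => f (circleMap w r θ) ^ 2) (μ := volume)
      (show (0 : ℝ) ≤ 2 * Real.pi by positivity)
    simpa only [norm_pow] using this
  have h3 : ∫ θ in (0 : ℝ)..(2 * Real.pi), ‖f (circleMap w r θ)‖ ^ 2 =
      ∫ θ in Set.Ioo (-Real.pi) Real.pi, ‖f (w + r * (Real.cos θ + Real.sin θ * I))‖ ^ 2 := by
    have hp : Function.Periodic (fun θ : ℝ => ‖f (circleMap w r θ)‖ ^ 2) (2 * Real.pi) := by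
      intro θ
      simp only
      rw [periodic_circleMap w r θ]
    have := hp.intervalIntegral_add_eq 0 (-Real.pi)
    rw [zero_add] at this
    rw [this, intervalIntegral.integral_of_le (by linarith [Real.pi_pos]),
      integral_Ioc_eq_integral_Ioo]
    have e : -Real.pi + 2 * Real.pi = Real.pi := by ring
    rw [e]
    simp only [hc]
  rw [h3] at h2
  have hpi := Real.pi_pos
  calc 2 * Real.pi * ‖f w‖ ^ 2 ≤ 2 * Real.pi * ((2 * Real.pi)⁻¹ *
        ∫ θ in Set.Ioo (-Real.pi) Real.pi, ‖f (w + r * (Real.cos θ + Real.sin θ * I))‖ ^ 2) :=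
        mul_le_mul_of_nonneg_left h2 (by positivity)
    _ = _ := by rw [← mul_assoc, mul_inv_cancel₀ (by positivity), one_mul]

private lemma dn_rh_pt (w : ℂ) (ρ θ : ℝ) (hρ : 0 ≤ ρ) :
    ‖(w + ρ * (Real.cos θ + Real.sin θ * I)) - w‖ = ρ := by
  have e : (w + ρ * (Real.cos θ + Real.sin θ * I)) - w = (ρ : ℂ) * cexp (θ * I) := by
    rw [Complex.exp_mul_I, ofReal_cos, ofReal_sin]; ring
  rw [e, norm_mul, norm_exp_ofReal_mul_I, mul_one, norm_real, Real.norm_of_nonneg hρ]

/-- mean value on discs, polar form -/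
private lemma dn_rh_pol (f : ℂ → ℂ) (hf : DifferentiableOn ℂ f {z | 0 < z.im}) (w : ℂ) (δ : ℝ)
    (hδ : 0 < δ) (hw : δ < w.im) :
    Real.pi * δ ^ 2 * ‖f w‖ ^ 2 ≤ ∫ p in Set.Ioo (0 : ℝ) δ ×ˢ Set.Ioo (-Real.pi) Real.pi,
      p.1 * ‖f (w + p.1 * (Real.cos p.2 + Real.sin p.2 * I))‖ ^ 2 := by
  set G : ℝ × ℝ → ℝ := fun p => p.1 * ‖f (w + p.1 * (Real.cos p.2 + Real.sin p.2 * I))‖ ^ 2 with hG
  have hGc : ContinuousOn G (Set.Icc (0 : ℝ) δ ×ˢ Set.Icc (-Real.pi) Real.pi) := by
    have h1 : ContinuousOn (fun p : ℝ × ℝ =>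
        f (w + p.1 * (Real.cos p.2 + Real.sin p.2 * I)))
        (Set.Icc (0 : ℝ) δ ×ˢ Set.Icc (-Real.pi) Real.pi) := by
      apply hf.continuousOn.comp (by fun_prop)
      intro p hp
      apply dn_rh_ball hw
      rw [Metric.mem_closedBall, dist_eq_norm, dn_rh_pt w p.1 p.2 hp.1.1]
      exact hp.1.2
    exact continuousOn_fst.mul (h1.norm.pow 2)
  have hGi : IntegrableOn G (Set.Ioo (0 : ℝ) δ ×ˢ Set.Ioo (-Real.pi) Real.pi)
      ((volume : Measure ℝ).prod volume) := by
    rw [← Measure.volume_eq_prod]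
    apply (hGc.integrableOn_compact
      ((isCompact_Icc (a := (0 : ℝ)) (b := δ)).prod
        (isCompact_Icc (a := -Real.pi) (b := Real.pi)))).mono_set
    exact Set.prod_mono Set.Ioo_subset_Icc_self Set.Ioo_subset_Icc_self
  have h1 : ∫ p in Set.Ioo (0 : ℝ) δ ×ˢ Set.Ioo (-Real.pi) Real.pi, G p =
      ∫ x in Set.Ioo (0 : ℝ) δ, ∫ y in Set.Ioo (-Real.pi) Real.pi, G (x, y) := by
    rw [Measure.volume_eq_prod, setIntegral_prod _ hGi]
  rw [h1]
  have h2 : Real.pi * δ ^ 2 * ‖f w‖ ^ 2 =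
      ∫ x in Set.Ioo (0 : ℝ) δ, x * (2 * Real.pi * ‖f w‖ ^ 2) := by
    rw [← integral_Ioc_eq_integral_Ioo, ← intervalIntegral.integral_of_le hδ.le,
      intervalIntegral.integral_mul_const, integral_id]
    ring
  rw [h2]
  apply setIntegral_mono_on
  · exact ((continuous_id.mul continuous_const).continuousOn.integrableOn_compact
      (isCompact_Icc (a := (0 : ℝ)) (b := δ))).mono_set Set.Ioo_subset_Icc_self
  · have := hGi
    rw [IntegrableOn, ← Measure.prod_restrict] at this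
    exact this.integral_prod_left
  · exact measurableSet_Ioo
  · intro x hx
    have : ∫ y in Set.Ioo (-Real.pi) Real.pi, G (x, y) =
        x * ∫ y in Set.Ioo (-Real.pi) Real.pi,
          ‖f (w + x * (Real.cos y + Real.sin y * I))‖ ^ 2 := by
      rw [← integral_const_mul]
    rw [this]
    exact mul_le_mul_of_nonneg_left (dn_rh_circ f hf w x hx.1.le (hx.2.trans hw)) hx.1.le

/-- mean value on discs -/
private lemma dn_rh_disc (f : ℂ → ℂ) (hf : DifferentiableOn ℂ f {z | 0 < z.im}) (w : ℂ) (δ : ℝ)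
    (hδ : 0 < δ) (hw : δ < w.im) :
    Real.pi * δ ^ 2 * ‖f w‖ ^ 2 ≤
      ∫ z : ℂ, (Metric.ball w δ).indicator (fun z => ‖f z‖ ^ 2) z := by
  refine le_trans (dn_rh_pol f hf w δ hδ hw) (le_of_eq ?_)
  rw [← integral_add_left_eq_self (fun z => (Metric.ball w δ).indicator (fun z => ‖f z‖ ^ 2) z) w,
    ← Complex.integral_comp_polarCoord_symm]
  have htar : polarCoord.target = Set.Ioi (0 : ℝ) ×ˢ Set.Ioo (-Real.pi) Real.pi := rfl
  have hsub : Set.Ioo (0 : ℝ) δ ×ˢ Set.Ioo (-Real.pi) Real.pi ⊆ polarCoord.target := by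
    rw [htar]
    exact Set.prod_mono (fun x hx => hx.1) le_rfl
  have hm : MeasurableSet (Set.Ioo (0 : ℝ) δ ×ˢ Set.Ioo (-Real.pi) Real.pi) :=
    measurableSet_Ioo.prod measurableSet_Ioo
  have e2 := setIntegral_indicator (μ := (volume : Measure (ℝ × ℝ))) (s := polarCoord.target) hm
    (f := fun p : ℝ × ℝ => p.1 * ‖f (w + p.1 * (Real.cos p.2 + Real.sin p.2 * I))‖ ^ 2)
  rw [Set.inter_eq_self_of_subset_right hsub] at e2
  rw [← e2]
  apply setIntegral_congr_fun polarCoord.open_target.measurableSet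
  intro p hp
  rw [htar] at hp
  have hp1 : 0 < p.1 := hp.1
  have hn : ‖Complex.polarCoord.symm p‖ = p.1 := by
    rw [Complex.norm_polarCoord_symm, abs_of_pos hp1]
  simp only
  by_cases h : p.1 < δ
  · rw [Set.indicator_of_mem (show p ∈ Set.Ioo (0 : ℝ) δ ×ˢ Set.Ioo (-Real.pi) Real.pi from
      ⟨⟨hp1, h⟩, hp.2⟩), Set.indicator_of_mem, Complex.polarCoord_symm_apply, smul_eq_mul]
    rw [Metric.mem_ball, dist_eq_norm, add_sub_cancel_left, hn]
    exact h
  · rw [Set.indicator_of_notMem (fun hh => h hh.1.2), Set.indicator_of_notMem, smul_zero]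
    rw [Metric.mem_ball, dist_eq_norm, add_sub_cancel_left, hn]
    exact h

/-- the integral over a rectangle containing the disc -/
private lemma dn_rh_sq (f : ℂ → ℂ) (hf : DifferentiableOn ℂ f {z | 0 < z.im}) (w : ℂ) (δ : ℝ)
    (x₀ x₁ y₀ y₁ : ℝ) (h0 : 0 < y₀) (hx0 : x₀ < w.re - δ) (hx1 : w.re + δ ≤ x₁)
    (hy0 : y₀ < w.im - δ) (hy1 : w.im + δ ≤ y₁) :
    ∫ z : ℂ, (Metric.ball w δ).indicator (fun z => ‖f z‖ ^ 2) z ≤
      ∫ p in Set.Ioc x₀ x₁ ×ˢ Set.Ioc y₀ y₁,
        {x : ℝ | |x - w.re| ≤ δ}.indicator (fun _ => (1 : ℝ)) p.1 * ‖f (p.1 + p.2 * I)‖ ^ 2 := by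
  set Q : Set (ℝ × ℝ) := Set.Ioc x₀ x₁ ×ˢ Set.Ioc y₀ y₁ with hQ
  have hQm : MeasurableSet Q := measurableSet_Ioc.prod measurableSet_Ioc
  have hgc : ContinuousOn (fun p : ℝ × ℝ => ‖f (p.1 + p.2 * I)‖ ^ 2)
      (Set.Icc x₀ x₁ ×ˢ Set.Icc y₀ y₁) := by
    apply ContinuousOn.pow
    apply ContinuousOn.norm
    apply hf.continuousOn.comp (by fun_prop)
    intro p hp
    have : y₀ ≤ p.2 := hp.2.1
    simp
    linarith
  have hQi : IntegrableOn (fun p : ℝ × ℝ => ‖f (p.1 + p.2 * I)‖ ^ 2) Q volume := by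
    apply (hgc.integrableOn_compact
      ((isCompact_Icc (a := x₀) (b := x₁)).prod (isCompact_Icc (a := y₀) (b := y₁)))).mono_set
    exact Set.prod_mono Set.Ioc_subset_Icc_self Set.Ioc_subset_Icc_self
  have hSm : MeasurableSet {x : ℝ | |x - w.re| ≤ δ} :=
    measurableSet_le (by fun_prop) measurable_const
  have hQi2 : IntegrableOn (fun p : ℝ × ℝ =>
      {x : ℝ | |x - w.re| ≤ δ}.indicator (fun _ => (1 : ℝ)) p.1 * ‖f (p.1 + p.2 * I)‖ ^ 2) Q
      volume := by
    refine Integrable.mono' hQi ?_ ?_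
    · exact ((measurable_const.indicator hSm).comp measurable_fst).aestronglyMeasurable.mul
        hQi.aestronglyMeasurable
    · refine Filter.Eventually.of_forall fun p => ?_
      have h01 : 0 ≤ {x : ℝ | |x - w.re| ≤ δ}.indicator (fun _ => (1 : ℝ)) p.1 :=
        Set.indicator_nonneg (fun _ _ => zero_le_one) _
      have h02 : {x : ℝ | |x - w.re| ≤ δ}.indicator (fun _ => (1 : ℝ)) p.1 ≤ 1 := by
        by_cases h : p.1 ∈ {x : ℝ | |x - w.re| ≤ δ}
        · rw [Set.indicator_of_mem h]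
        · rw [Set.indicator_of_notMem h]; exact zero_le_one
      rw [norm_mul, Real.norm_of_nonneg h01, Real.norm_of_nonneg (by positivity)]
      exact mul_le_of_le_one_left (by positivity) h02
  have e1 : ∫ z : ℂ, (Metric.ball w δ).indicator (fun z => ‖f z‖ ^ 2) z =
      ∫ p : ℝ × ℝ, (Metric.ball w δ).indicator (fun z => ‖f z‖ ^ 2)
        (measurableEquivRealProd.symm p) :=
    ((Complex.volume_preserving_equiv_real_prod.symm).integral_comp
      measurableEquivRealProd.symm.measurableEmbedding _).symm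
  rw [e1, ← integral_indicator hQm]
  apply integral_mono_of_nonneg
  · refine Filter.Eventually.of_forall fun p => ?_
    exact Set.indicator_nonneg (fun _ _ => by positivity) _
  · exact hQi2.integrable_indicator hQm
  · refine Filter.Eventually.of_forall fun p => ?_
    simp only
    have hsym : measurableEquivRealProd.symm p = (p.1 : ℂ) + p.2 * I := by
      apply Complex.ext <;> simp [measurableEquivRealProd]
    rw [hsym]
    by_cases h : (p.1 : ℂ) + p.2 * I ∈ Metric.ball w δ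
    · rw [Metric.mem_ball, dist_eq_norm] at h
      have hre := lt_of_le_of_lt (Complex.abs_re_le_norm _) h
      have him := lt_of_le_of_lt (Complex.abs_im_le_norm _) h
      simp only [sub_re, add_re, ofReal_re, mul_re, I_re, mul_zero, ofReal_im, I_im, mul_one,
        sub_self, add_zero, sub_im, add_im, mul_im, zero_add] at hre him
      have hb : (p.1 : ℂ) + p.2 * I ∈ Metric.ball w δ := by
        rw [Metric.mem_ball, dist_eq_norm]; exact h
      have hs : p.1 ∈ {x : ℝ | |x - w.re| ≤ δ} := hre.le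
      rw [abs_lt] at hre him
      rw [Set.indicator_of_mem hb, Set.indicator_of_mem (s := Q), Set.indicator_of_mem hs, one_mul]
      exact ⟨⟨by linarith [hre.1], by linarith [hre.2]⟩,
        ⟨by linarith [him.1], by linarith [him.2]⟩⟩
    · rw [Set.indicator_of_notMem h]
      apply Set.indicator_nonneg
      intro q _
      exact mul_nonneg (Set.indicator_nonneg (fun _ _ => zero_le_one) _) (by positivity)

/-- the measure of the set of admissible parameters -/
private lemma dn_rh_meas (c r x a b : ℝ) (hc : 1 / 2 ≤ c) (hr : 0 < r) :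
    ∫ y in Set.Ioc a b, {x : ℝ | |x - y * c| ≤ r}.indicator (fun _ => (1 : ℝ)) x ≤ 4 * r := by
  have hc0 : 0 < c := by linarith
  have e : ∀ y : ℝ, {x : ℝ | |x - y * c| ≤ r}.indicator (fun _ => (1 : ℝ)) x =
      (Set.Icc ((x - r) / c) ((x + r) / c)).indicator (fun _ => (1 : ℝ)) y := by
    intro y
    have hiff : x ∈ {x : ℝ | |x - y * c| ≤ r} ↔ y ∈ Set.Icc ((x - r) / c) ((x + r) / c) := by
      rw [Set.mem_ofPred_eq, abs_le, Set.mem_Icc, div_le_iff₀ hc0, le_div_iff₀ hc0]
      constructor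
      · rintro ⟨h1, h2⟩
        exact ⟨by linarith, by linarith⟩
      · rintro ⟨h1, h2⟩
        exact ⟨by linarith, by linarith⟩
    by_cases h : x ∈ {x : ℝ | |x - y * c| ≤ r}
    · rw [Set.indicator_of_mem h, Set.indicator_of_mem (hiff.1 h)]
    · rw [Set.indicator_of_notMem h, Set.indicator_of_notMem (fun hh => h (hiff.2 hh))]
  simp only [e]
  have hle : (x - r) / c ≤ (x + r) / c := by
    apply div_le_div_of_nonneg_right _ hc0.le
    linarith
  have hI : Integrable ((Set.Icc ((x - r) / c) ((x + r) / c)).indicator (fun _ => (1 : ℝ))) := by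
    rw [integrable_indicator_iff measurableSet_Icc]
    exact integrableOn_const (by simp)
  calc ∫ y in Set.Ioc a b, (Set.Icc ((x - r) / c) ((x + r) / c)).indicator (fun _ => (1 : ℝ)) y
      ≤ ∫ y, (Set.Icc ((x - r) / c) ((x + r) / c)).indicator (fun _ => (1 : ℝ)) y :=
        setIntegral_le_integral hI (Filter.Eventually.of_forall fun y =>
          Set.indicator_nonneg (fun _ _ => zero_le_one) _)
    _ = (x + r) / c - (x - r) / c := by
        rw [integral_indicator measurableSet_Icc]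
        simp only [integral_const, MeasurableSet.univ, measureReal_restrict_apply, Set.univ_inter,
          smul_eq_mul, mul_one]
        rw [Real.volume_real_Icc_of_le hle]
    _ = 2 * r / c := by field_simp; ring
    _ ≤ 4 * r := by
        rw [div_le_iff₀ hc0]
        nlinarith

theorem p_rh : S_rh := by
  refine ⟨32, by norm_num, ?_⟩
  intro f U δ hf hU hδ hδ4
  have hcos : 31 / 32 ≤ Real.cos δ := by
    have := Real.one_sub_sq_div_two_le_cos (x := δ)
    nlinarith
  have hcos1 : Real.cos δ ≤ 1 := Real.cos_le_one δ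
  have hsin : 63 / 64 * δ ≤ Real.sin δ := by
    have := Real.sin_gt_sub_cube hδ
    have h2 : δ ^ 3 ≤ 1 / 16 * δ := by
      have : δ ^ 2 ≤ 1 / 16 := by nlinarith
      nlinarith
    linarith
  have hsin1 : Real.sin δ ≤ δ := Real.sin_le hδ.le
  have hUδ : 0 < U * δ := mul_pos hU hδ
  set r : ℝ := U * δ / 4 with hr
  have hr0 : 0 < r := by positivity
  have hrU : r ≤ U / 16 := by rw [hr]; nlinarith
  set Q : Set (ℝ × ℝ) := Set.Ioc (U / 2) (3 * U) ×ˢ Set.Ioc (U * δ / 4) (4 * U * δ) with hQ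
  have hQm : MeasurableSet Q := measurableSet_Ioc.prod measurableSet_Ioc
  set g : ℝ × ℝ → ℝ := fun p => ‖f (p.1 + p.2 * I)‖ ^ 2 with hg
  have hg0 : ∀ p, 0 ≤ g p := fun p => by rw [hg]; positivity
  have hgc : ContinuousOn g (Set.Icc (U / 2) (3 * U) ×ˢ Set.Icc (U * δ / 4) (4 * U * δ)) := by
    apply ContinuousOn.pow
    apply ContinuousOn.norm
    apply hf.continuousOn.comp (by fun_prop)
    intro p hp
    have : U * δ / 4 ≤ p.2 := hp.2.1
    simp
    linarith
  have hgi : IntegrableOn g Q volume := by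
    apply (hgc.integrableOn_compact
      ((isCompact_Icc (a := U / 2) (b := 3 * U)).prod
        (isCompact_Icc (a := U * δ / 4) (b := 4 * U * δ)))).mono_set
    exact Set.prod_mono Set.Ioc_subset_Icc_self Set.Ioc_subset_Icc_self
  have hre : ∀ y : ℝ, (y * cexp (δ * I)).re = y * Real.cos δ := by
    intro y
    rw [Complex.re_ofReal_mul, Complex.exp_ofReal_mul_I_re]
  have him : ∀ y : ℝ, (y * cexp (δ * I)).im = y * Real.sin δ := by
    intro y
    rw [Complex.im_ofReal_mul, Complex.exp_ofReal_mul_I_im]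
  -- pointwise bound
  have hpt : ∀ y ∈ Set.Ioc U (2 * U), Real.pi * r ^ 2 * ‖f (y * cexp (δ * I))‖ ^ 2 ≤
      ∫ p in Q, {x : ℝ | |x - y * Real.cos δ| ≤ r}.indicator (fun _ => (1 : ℝ)) p.1 * g p := by
    intro y hy
    have hy1 : U < y := hy.1
    have hy2 : y ≤ 2 * U := hy.2
    have hy0 : 0 < y := by linarith
    have b1 : 31 / 32 * U ≤ y * Real.cos δ := by nlinarith
    have b2 : y * Real.cos δ ≤ 2 * U := by nlinarith
    have b3 : 63 / 64 * (U * δ) ≤ y * Real.sin δ := by nlinarith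
    have b4 : y * Real.sin δ ≤ 2 * (U * δ) := by nlinarith
    have hw : r < (y * cexp (δ * I)).im := by rw [him, hr]; linarith
    refine (dn_rh_disc f hf _ r hr0 hw).trans ?_
    have := dn_rh_sq f hf (y * cexp (δ * I)) r (U / 2) (3 * U) (U * δ / 4) (4 * U * δ)
      (by positivity) (by rw [hre]; linarith) (by rw [hre]; linarith)
      (by rw [him, hr]; linarith) (by rw [him, hr]; linarith)
    rw [hre] at this
    exact this
  set F : ℝ → ℝ × ℝ → ℝ := fun y p =>
    {x : ℝ | |x - y * Real.cos δ| ≤ r}.indicator (fun _ => (1 : ℝ)) p.1 * g p with hF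
  have hFi : Integrable (Function.uncurry F)
      ((volume.restrict (Set.Ioc U (2 * U))).prod (volume.restrict Q)) := by
    have h1 : Integrable (fun q : ℝ × (ℝ × ℝ) => (1 : ℝ) * g q.2)
        ((volume.restrict (Set.Ioc U (2 * U))).prod (volume.restrict Q)) :=
      Integrable.mul_prod (f := fun _ : ℝ => (1 : ℝ)) (integrable_const 1) hgi
    have hm : MeasurableSet {q : ℝ × (ℝ × ℝ) | |q.2.1 - q.1 * Real.cos δ| ≤ r} :=
      measurableSet_le (by fun_prop) measurable_const
    have h2 := h1.indicator hm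
    refine h2.congr (Filter.Eventually.of_forall fun q => ?_)
    simp only [Function.uncurry, hF]
    by_cases h : |q.2.1 - q.1 * Real.cos δ| ≤ r
    · rw [Set.indicator_of_mem (show q ∈ {q : ℝ × (ℝ × ℝ) | |q.2.1 - q.1 * Real.cos δ| ≤ r} from h),
        Set.indicator_of_mem (show q.2.1 ∈ {x : ℝ | |x - q.1 * Real.cos δ| ≤ r} from h)]
    · rw [Set.indicator_of_notMem
        (show q ∉ {q : ℝ × (ℝ × ℝ) | |q.2.1 - q.1 * Real.cos δ| ≤ r} from h),
        Set.indicator_of_notMem (show q.2.1 ∉ {x : ℝ | |x - q.1 * Real.cos δ| ≤ r} from h),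
        zero_mul]
  have hI1 : ∫ y in Set.Ioc U (2 * U), Real.pi * r ^ 2 * ‖f (y * cexp (δ * I))‖ ^ 2 ≤
      ∫ y in Set.Ioc U (2 * U), ∫ p in Q, F y p := by
    apply setIntegral_mono_on _ hFi.integral_prod_left measurableSet_Ioc hpt
    have hc : ContinuousOn (fun y : ℝ => Real.pi * r ^ 2 * ‖f (y * cexp (δ * I))‖ ^ 2)
        (Set.Icc U (2 * U)) := by
      apply continuousOn_const.mul
      apply ContinuousOn.pow
      apply ContinuousOn.norm
      apply hf.continuousOn.comp (by fun_prop)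
      intro y hy
      have h1 : U ≤ y := hy.1
      have h2 : 0 < y * Real.sin δ := by
        have : 0 < Real.sin δ := by linarith [mul_pos (show (0 : ℝ) < 63 / 64 by norm_num) hδ]
        exact mul_pos (by linarith) this
      have h3 := him y
      simp only [Set.mem_ofPred_eq]
      rw [h3]
      exact h2
    exact (hc.integrableOn_compact isCompact_Icc).mono_set Set.Ioc_subset_Icc_self
  have hI2 : ∫ y in Set.Ioc U (2 * U), ∫ p in Q, F y p =
      ∫ p in Q, ∫ y in Set.Ioc U (2 * U), F y p := integral_integral_swap hFi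
  have hI3 : ∫ p in Q, ∫ y in Set.Ioc U (2 * U), F y p ≤ ∫ p in Q, 4 * r * g p := by
    apply integral_mono hFi.integral_prod_right (hgi.const_mul _)
    intro p
    simp only [hF, Function.uncurry]
    rw [integral_mul_const]
    exact mul_le_mul_of_nonneg_right (dn_rh_meas _ _ _ _ _ (by linarith) hr0) (hg0 p)
  have hI4 : ∫ p in Q, g p = ∫ h in (U * δ / 4)..(4 * U * δ), ∫ x in (U / 2)..(3 * U),
      ‖f (x + h * I)‖ ^ 2 := by
    rw [intervalIntegral.integral_of_le (by linarith)]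
    have e0 : (volume.restrict Q : Measure (ℝ × ℝ)) =
        (volume.restrict (Set.Ioc (U / 2) (3 * U))).prod
          (volume.restrict (Set.Ioc (U * δ / 4) (4 * U * δ))) := by
      rw [Measure.prod_restrict, hQ, Measure.volume_eq_prod]
    have hgi' := hgi
    rw [IntegrableOn, e0] at hgi'
    rw [e0, integral_prod_symm _ hgi']
    apply setIntegral_congr_fun measurableSet_Ioc
    intro h _
    simp only
    rw [intervalIntegral.integral_of_le (by linarith)]
  rw [intervalIntegral.integral_of_le (by linarith), ← hI4]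
  have hpi : 3 < Real.pi := Real.pi_gt_three
  have hgI : 0 ≤ ∫ p in Q, g p := integral_nonneg hg0
  have hfin : Real.pi * r ^ 2 * ∫ y in Set.Ioc U (2 * U), ‖f (y * cexp (δ * I))‖ ^ 2 ≤
      4 * r * ∫ p in Q, g p := by
    rw [← integral_const_mul, ← integral_const_mul]
    exact (hI1.trans hI2.le).trans hI3
  have hS0 : 0 ≤ ∫ y in Set.Ioc U (2 * U), ‖f (y * cexp (δ * I))‖ ^ 2 :=
    integral_nonneg fun y => by positivity
  have h5 : r * ∫ y in Set.Ioc U (2 * U), ‖f (y * cexp (δ * I))‖ ^ 2 ≤ 4 * ∫ p in Q, g p := by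
    have h6 : r * (Real.pi * (r * ∫ y in Set.Ioc U (2 * U), ‖f (y * cexp (δ * I))‖ ^ 2)) ≤
        r * (4 * ∫ p in Q, g p) := by
      calc _ = Real.pi * r ^ 2 * ∫ y in Set.Ioc U (2 * U), ‖f (y * cexp (δ * I))‖ ^ 2 := by ring
        _ ≤ 4 * r * ∫ p in Q, g p := hfin
        _ = _ := by ring
    have h7 := le_of_mul_le_mul_left h6 hr0
    have h8 : 0 ≤ r * ∫ y in Set.Ioc U (2 * U), ‖f (y * cexp (δ * I))‖ ^ 2 := by positivity
    nlinarith
  rw [div_mul_eq_mul_div, le_div_iff₀ hUδ]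
  have h9 : U * δ = 4 * r := by rw [hr]; ring
  rw [h9]
  nlinarith

end Pool.Agent.Lib.MP_cd509c_nt.DN
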