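import Pool.Agent.Lib.MP_cd509c_nt.DN.Defs

set_option autoImplicit false

namespace Pool.Agent.Lib.MP_cd509c_nt.DN

open Complex ComplexConjugate MeasureTheory

/-- The saddle point equation on the circle, Banach fixed point theorem. -/
theorem p_sadD (htay : S_tay) : S_sadD := by
  intro ε N b Y R hε hε' hN hb hbY hR w hw1 hw2 hw3
  set B : Set ℂ := Metric.closedBall (1 : ℂ) (2 * ε) with hB
  have hNc : (N : ℂ) ≠ 0 := by exact_mod_cast hN.ne'
  -- coordinates
  have hre : ∀ v ∈ B, |v.re - 1| ≤ 2 * ε := by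
    intro v hv
    have h1 : ‖v - 1‖ ≤ 2 * ε := by simpa [hB, dist_eq_norm] using hv
    have h2 := Complex.abs_re_le_norm (v - 1)
    simp only [sub_re, one_re] at h2
    linarith
  have him : ∀ v ∈ B, |v.im| ≤ 2 * ε := by
    intro v hv
    have h1 : ‖v - 1‖ ≤ 2 * ε := by simpa [hB, dist_eq_norm] using hv
    have h2 := Complex.abs_im_le_norm (v - 1)
    simp only [sub_im, one_im, sub_zero] at h2
    linarith
  have hreg : ∀ v ∈ B, b / 4 + 1 / 8 ≤ (w + v).re ∧ (w + v).re ≤ Y - 1 / 8 ∧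
      |(w + v).im| ≤ 20 * b - 1 / 8 := by
    intro v hv
    have h1 := abs_le.1 (hre v hv)
    have h2 := abs_le.1 (him v hv)
    have h3 := abs_le.1 hw3
    refine ⟨?_, ?_, ?_⟩
    · simp only [add_re]; linarith [h1.1]
    · simp only [add_re]; linarith [h1.2]
    · simp only [add_im]
      rw [abs_le]
      constructor <;> linarith [h2.1, h2.2, h3.1, h3.2]
  have hq : ∀ v ∈ B, ‖qq R (w + v)‖ ≤ ε * N := by
    intro v hv
    obtain ⟨h1, h2, h3⟩ := hreg v hv
    exact (htay ε N b Y R hε hN hb hR (w + v) (w + v) h1 h2 h3 h1 h2 h3).1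
  have hql : ∀ v ∈ B, ∀ u ∈ B, ‖qq R (w + v) - qq R (w + u)‖ ≤ 8 * ε * N * ‖v - u‖ := by
    intro v hv u hu
    obtain ⟨h1, h2, h3⟩ := hreg v hv
    obtain ⟨k1, k2, k3⟩ := hreg u hu
    have := (htay ε N b Y R hε hN hb hR (w + u) (w + v) k1 k2 k3 h1 h2 h3).2.1
    simpa using this
  have hqN : ∀ v ∈ B, ‖qq R (w + v) / N‖ ≤ ε := by
    intro v hv
    rw [norm_div, Complex.norm_real, Real.norm_of_nonneg hN.le, div_le_iff₀ hN]
    exact hq v hv
  have hlow : ∀ v ∈ B, 1 - ε ≤ ‖1 + qq R (w + v) / N‖ := by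
    intro v hv
    have h1 := norm_sub_norm_le (1 : ℂ) (-(qq R (w + v) / N))
    rw [norm_one, norm_neg, sub_neg_eq_add] at h1
    linarith [hqN v hv]
  have hne : ∀ v ∈ B, 1 + qq R (w + v) / N ≠ 0 := by
    intro v hv h0
    have := hlow v hv
    rw [h0, norm_zero] at this
    linarith
  set T : ℂ → ℂ := fun v => (1 + qq R (w + v) / N)⁻¹ with hT
  have hmaps : Set.MapsTo T B B := by
    intro v hv
    rw [hB, Metric.mem_closedBall, dist_eq_norm]
    have h0 := hne v hv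
    have h1 : T v - 1 = -(qq R (w + v) / N) * (1 + qq R (w + v) / N)⁻¹ := by
      simp only [hT]
      have h2 : (1 + qq R (w + v) / N) * (1 + qq R (w + v) / N)⁻¹ = 1 := mul_inv_cancel₀ h0
      linear_combination h2
    rw [h1, norm_mul, norm_neg, norm_inv, ← div_eq_mul_inv, div_le_iff₀ (by linarith [hlow v hv])]
    have h2 := hqN v hv
    have h3 := hlow v hv
    nlinarith
  have hlip : ∀ v ∈ B, ∀ u ∈ B, dist (T v) (T u) ≤ 1 / 2 * dist v u := by
    intro v hv u hu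
    rw [dist_eq_norm, dist_eq_norm]
    have h0 := hne v hv
    have h0' := hne u hu
    have h1 : T v - T u = -((qq R (w + v) - qq R (w + u)) / N) *
        ((1 + qq R (w + v) / N)⁻¹ * (1 + qq R (w + u) / N)⁻¹) := by
      simp only [hT]
      rw [inv_sub_inv h0 h0', div_eq_mul_inv, mul_inv]
      congr 1
      ring
    rw [h1, norm_mul, norm_neg, norm_mul, norm_inv, norm_inv, norm_div, Complex.norm_real,
      Real.norm_of_nonneg hN.le]
    have h2 : ‖qq R (w + v) - qq R (w + u)‖ / N ≤ 8 * ε * ‖v - u‖ := by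
      rw [div_le_iff₀ hN]
      calc _ ≤ 8 * ε * N * ‖v - u‖ := hql v hv u hu
        _ = 8 * ε * ‖v - u‖ * N := by ring
    have h3 : (399 / 400 : ℝ) ≤ ‖1 + qq R (w + v) / N‖ := by linarith [hlow v hv]
    have h4 : (399 / 400 : ℝ) ≤ ‖1 + qq R (w + u) / N‖ := by linarith [hlow u hu]
    have h5 : ‖1 + qq R (w + v) / N‖⁻¹ ≤ 400 / 399 := by
      rw [show (400 / 399 : ℝ) = (399 / 400)⁻¹ by norm_num]
      exact inv_anti₀ (by norm_num) h3
    have h6 : ‖1 + qq R (w + u) / N‖⁻¹ ≤ 400 / 399 := by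
      rw [show (400 / 399 : ℝ) = (399 / 400)⁻¹ by norm_num]
      exact inv_anti₀ (by norm_num) h4
    have h7 : ‖1 + qq R (w + v) / N‖⁻¹ * ‖1 + qq R (w + u) / N‖⁻¹ ≤ 400 / 399 * (400 / 399) :=
      mul_le_mul h5 h6 (by positivity) (by norm_num)
    have h8 : 8 * ε * ‖v - u‖ ≤ 1 / 50 * ‖v - u‖ :=
      mul_le_mul_of_nonneg_right (by linarith) (norm_nonneg _)
    calc ‖qq R (w + v) - qq R (w + u)‖ / N * (‖1 + qq R (w + v) / N‖⁻¹ *
          ‖1 + qq R (w + u) / N‖⁻¹)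
        ≤ (1 / 50 * ‖v - u‖) * (400 / 399 * (400 / 399)) :=
          mul_le_mul (h2.trans h8) h7 (by positivity) (by positivity)
      _ ≤ 1 / 2 * ‖v - u‖ := by nlinarith [norm_nonneg (v - u)]
  have hc : ContractingWith (1 / 2 : NNReal) (hmaps.restrict T B B) := by
    refine ⟨by norm_num, LipschitzWith.of_dist_le_mul ?_⟩
    rintro ⟨v, hv⟩ ⟨u, hu⟩
    have := hlip v hv u hu
    simpa [Subtype.dist_eq] using this
  have h1B : (1 : ℂ) ∈ B := by
    rw [hB, Metric.mem_closedBall, dist_self]; positivity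
  obtain ⟨v, hvB, hfix, -⟩ := hc.exists_fixedPoint' (Metric.isClosed_closedBall.isComplete)
    hmaps h1B (edist_ne_top _ _)
  refine ⟨v, by simpa [hB, dist_eq_norm] using hvB, ?_⟩
  have h1 : (1 + qq R (w + v) / N)⁻¹ = v := hfix
  have h2 : (1 + qq R (w + v) / N) * (1 + qq R (w + v) / N)⁻¹ = 1 := mul_inv_cancel₀ (hne v hvB)
  rw [h1] at h2
  rw [mul_comm]
  exact h2

end Pool.Agent.Lib.MP_cd509c_nt.DN
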