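import Pool.Agent.Lib.MP_cd509c_nt.DN.Defs

/-!
# Piece sadH: existence of the saddle point, line (Banach)
-/

set_option autoImplicit false

namespace Pool.Agent.Lib.MP_cd509c_nt.DN

open Complex ComplexConjugate MeasureTheory

theorem p_sadH (h : S_tay) : S_sadH := by
  intro ε N b Y R hε hε' hN hb hY hR w hw1 hw2 hw3
  -- points of the ball are in the region
  have reg : ∀ v : ℂ, ‖v - (w + 1)‖ ≤ ε →
      b / 4 + 1 / 8 ≤ v.re ∧ v.re ≤ Y - 1 / 8 ∧ |v.im| ≤ 20 * b - 1 / 8 := by
    intro v hv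
    have h1 : |v.re - (w.re + 1)| ≤ ε := by
      have := Complex.abs_re_le_norm (v - (w + 1))
      simp only [sub_re, add_re, one_re] at this
      linarith
    have h2 : |v.im - w.im| ≤ ε := by
      have := Complex.abs_im_le_norm (v - (w + 1))
      simp only [sub_im, add_im, one_im, add_zero] at this
      linarith
    rw [abs_le] at h1 h2 hw3
    refine ⟨by linarith, by linarith, ?_⟩
    rw [abs_le]
    constructor <;> linarith
  have hT := h ε N b Y R hε hN hb hR
  let s : Set ℂ := Metric.closedBall (w + 1) ε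
  let f : ℂ → ℂ := fun v => w + 1 + qq R v / N
  have hN0 : (N : ℂ) ≠ 0 := by exact_mod_cast hN.ne'
  have hmem : ∀ v : ℂ, v ∈ s ↔ ‖v - (w + 1)‖ ≤ ε := by
    intro v
    simp only [s, Metric.mem_closedBall, dist_eq_norm]
  have hmaps : Set.MapsTo f s s := by
    intro v hv
    rw [hmem] at hv ⊢
    obtain ⟨r1, r2, r3⟩ := reg v hv
    have hq := (hT v v r1 r2 r3 r1 r2 r3).1
    have : f v - (w + 1) = qq R v / N := by
      simp only [f]
      ring
    rw [this, norm_div, Complex.norm_real, Real.norm_of_nonneg hN.le, div_le_iff₀ hN]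
    exact hq
  have hcontr : ContractingWith (1 / 2) (hmaps.restrict f s s) := by
    refine ⟨by
      rw [← NNReal.coe_lt_coe]
      norm_num, ?_⟩
    refine LipschitzWith.of_dist_le_mul ?_
    rintro ⟨v, hv⟩ ⟨u, hu⟩
    rw [hmem] at hv hu
    obtain ⟨r1, r2, r3⟩ := reg v hv
    obtain ⟨t1, t2, t3⟩ := reg u hu
    have hq := (hT u v t1 t2 t3 r1 r2 r3).2.1
    rw [Subtype.dist_eq, Subtype.dist_eq, dist_eq_norm, dist_eq_norm]
    change ‖(w + 1 + qq R v / N) - (w + 1 + qq R u / N)‖ ≤ _ * ‖v - u‖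
    have e : (w + 1 + qq R v / N) - (w + 1 + qq R u / N) = (qq R v - qq R u) / N := by
      ring
    rw [e, norm_div, Complex.norm_real, Real.norm_of_nonneg hN.le, div_le_iff₀ hN]
    have h8 : 8 * ε ≤ 1 / 2 := by linarith
    calc ‖qq R v - qq R u‖ ≤ 8 * ε * N * ‖v - u‖ := hq
      _ = (8 * ε) * (‖v - u‖ * N) := by ring
      _ ≤ (1 / 2) * (‖v - u‖ * N) := by
          apply mul_le_mul_of_nonneg_right h8
          positivity
      _ = ((1 / 2 : NNReal) : ℝ) * ‖v - u‖ * N := by
          push_cast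
          ring
  obtain ⟨v, hv, hfix, -⟩ := hcontr.exists_fixedPoint' (Metric.isClosed_closedBall.isComplete) hmaps
    (x := w + 1) (Metric.mem_closedBall_self hε.le) (edist_ne_top _ _)
  refine ⟨v, (hmem v).1 hv, ?_⟩
  exact hfix.symm

end Pool.Agent.Lib.MP_cd509c_nt.DN
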