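import Pool.Agent.Lib.MP_cd509c_nt.DN.Defs3

/-!
Piece splitH2: the splitting of the Gaussian integral into the two halves at complex points. The first
part repeats the piece splitH (real points).
-/

set_option autoImplicit false

namespace Pool.Agent.Lib.MP_cd509c_nt.DN

open Complex ComplexConjugate MeasureTheory

/-- A Gaussian-bounded function times an exponential is dominated by a Gaussian. -/
theorem dn_splitH2_bd {N : ℝ} (hN : 0 < N) {g : ℝ → ℂ} {C : ℝ} (hC : 0 ≤ C)
    (hg : ∀ v : ℝ, 0 < v → ‖g v‖ ≤ C * Real.exp (-(N / 4) * v ^ 2)) {K : ℝ} {w : ℂ}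
    (hw : ‖w‖ ≤ K) {v : ℝ} (hv : 0 < v) :
    ‖g v * cexp ((N : ℂ) * v * w)‖ ≤
      C * Real.exp (2 * N * K ^ 2) * Real.exp (-(N / 8) * v ^ 2) := by
  rw [norm_mul, Complex.norm_exp]
  have h1 : ((N : ℂ) * v * w).re = N * v * w.re := by
    have : (N : ℂ) * v = ((N * v : ℝ) : ℂ) := by push_cast; ring
    rw [this, Complex.re_ofReal_mul]
  rw [h1]
  have h2 : N * v * w.re ≤ N * v * K :=
    mul_le_mul_of_nonneg_left ((Complex.re_le_norm w).trans hw) (by positivity)
  have h3 : N * v * K ≤ 2 * N * K ^ 2 + N / 8 * v ^ 2 := by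
    nlinarith [mul_nonneg hN.le (sq_nonneg (v - 4 * K))]
  calc ‖g v‖ * Real.exp (N * v * w.re)
      ≤ (C * Real.exp (-(N / 4) * v ^ 2)) * Real.exp (2 * N * K ^ 2 + N / 8 * v ^ 2) :=
        mul_le_mul (hg v hv) (Real.exp_le_exp.2 (h2.trans h3)) (Real.exp_pos _).le (by positivity)
    _ = C * (Real.exp (-(N / 4) * v ^ 2) * Real.exp (2 * N * K ^ 2 + N / 8 * v ^ 2)) := by ring
    _ = C * (Real.exp (2 * N * K ^ 2) * Real.exp (-(N / 8) * v ^ 2)) := by
        rw [← Real.exp_add, ← Real.exp_add]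
        congr 2
        ring
    _ = _ := by ring

/-- Laplace transforms of Gaussian-bounded functions are entire; integrability. -/
theorem dn_splitH2_lap {N : ℝ} (hN : 0 < N) {g : ℝ → ℂ} (hgc : Continuous g) {C : ℝ} (hC : 0 ≤ C)
    (hg : ∀ v : ℝ, 0 < v → ‖g v‖ ≤ C * Real.exp (-(N / 4) * v ^ 2)) :
    (∀ w : ℂ, IntegrableOn (fun v : ℝ => g v * cexp ((N : ℂ) * v * w)) (Set.Ioi 0)) ∧
    Differentiable ℂ (fun w : ℂ => ∫ v in Set.Ioi (0 : ℝ), g v * cexp ((N : ℂ) * v * w)) := by
  have hG : ∀ a : ℝ, 0 < a → IntegrableOn (fun v : ℝ => Real.exp (-a * v ^ 2)) (Set.Ioi 0) :=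
    fun a ha => (integrable_exp_neg_mul_sq ha).integrableOn
  have hcont : ∀ w : ℂ, Continuous (fun v : ℝ => g v * cexp ((N : ℂ) * v * w)) := by
    intro w
    fun_prop
  have hint : ∀ w : ℂ, IntegrableOn (fun v : ℝ => g v * cexp ((N : ℂ) * v * w)) (Set.Ioi 0) := by
    intro w
    refine Integrable.mono' ((hG (N / 8) (by positivity)).const_mul
      (C * Real.exp (2 * N * ‖w‖ ^ 2))) (hcont w).aestronglyMeasurable ?_
    refine (ae_restrict_iff' measurableSet_Ioi).2 (Filter.Eventually.of_forall fun v hv => ?_)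
    exact dn_splitH2_bd hN hC hg le_rfl hv
  refine ⟨hint, ?_⟩
  intro w₀
  have key := hasDerivAt_integral_of_dominated_loc_of_deriv_le
    (μ := volume.restrict (Set.Ioi (0 : ℝ))) (𝕜 := ℂ)
    (F := fun (w : ℂ) (v : ℝ) => g v * cexp ((N : ℂ) * v * w))
    (F' := fun (w : ℂ) (v : ℝ) => g v * (cexp ((N : ℂ) * v * w) * ((N : ℂ) * v)))
    (x₀ := w₀) (s := Metric.ball w₀ 1)
    (bound := fun v : ℝ => C * Real.exp (2 * N * (‖w₀‖ + 2) ^ 2) * Real.exp (-(N / 8) * v ^ 2))
    (Metric.ball_mem_nhds w₀ one_pos)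
    (Filter.Eventually.of_forall fun w => (hcont w).aestronglyMeasurable)
    (hint w₀)
    (by
      have : Continuous (fun v : ℝ => g v * (cexp ((N : ℂ) * v * w₀) * ((N : ℂ) * v))) := by
        fun_prop
      exact this.aestronglyMeasurable)
    (by
      refine (ae_restrict_iff' measurableSet_Ioi).2 (Filter.Eventually.of_forall fun v hv => ?_)
      intro w hw
      have hv' : 0 < v := hv
      have hw' : ‖w‖ ≤ ‖w₀‖ + 1 := by
        have h1 : ‖w - w₀‖ < 1 := by
          have := Metric.mem_ball.1 hw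
          rwa [dist_eq_norm] at this
        have h2 : ‖w‖ ≤ ‖w - w₀‖ + ‖w₀‖ := by
          have := norm_add_le (w - w₀) w₀
          rwa [sub_add_cancel] at this
        linarith
      have hw'' : ‖w + 1‖ ≤ ‖w₀‖ + 2 := by
        have := norm_add_le w 1
        rw [norm_one] at this
        linarith
      have h3 : ‖g v * (cexp ((N : ℂ) * v * w) * ((N : ℂ) * v))‖ ≤
          ‖g v * cexp ((N : ℂ) * v * (w + 1))‖ := by
        have h4 : cexp ((N : ℂ) * v * (w + 1)) = cexp ((N : ℂ) * v * w) * cexp ((N * v : ℝ) : ℂ) := by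
          rw [← Complex.exp_add]
          congr 1
          push_cast
          ring
        have h5 : ‖(N : ℂ) * (v : ℂ)‖ ≤ ‖cexp ((N * v : ℝ) : ℂ)‖ := by
          rw [Complex.norm_exp, Complex.ofReal_re, norm_mul, Complex.norm_real, Complex.norm_real,
            Real.norm_of_nonneg hN.le, Real.norm_of_nonneg hv'.le]
          have := Real.add_one_le_exp (N * v)
          linarith
        calc ‖g v * (cexp ((N : ℂ) * v * w) * ((N : ℂ) * v))‖
            = ‖g v * cexp ((N : ℂ) * v * w)‖ * ‖(N : ℂ) * (v : ℂ)‖ := by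
              rw [← norm_mul, mul_assoc (g v)]
          _ ≤ ‖g v * cexp ((N : ℂ) * v * w)‖ * ‖cexp ((N * v : ℝ) : ℂ)‖ :=
              mul_le_mul_of_nonneg_left h5 (norm_nonneg _)
          _ = ‖g v * cexp ((N : ℂ) * v * (w + 1))‖ := by
              rw [← norm_mul, mul_assoc (g v), ← h4]
      exact h3.trans (dn_splitH2_bd hN hC hg hw'' hv'))
    ((hG (N / 8) (by positivity)).const_mul _)
    (by
      refine Filter.Eventually.of_forall fun v w _ => ?_
      have h1 : HasDerivAt (fun w : ℂ => (N : ℂ) * v * w) ((N : ℂ) * v) w := by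
        simpa using (hasDerivAt_id w).const_mul ((N : ℂ) * v)
      exact h1.cexp.const_mul (g v))
  exact key.2.differentiableAt

/-- the Gaussian bound -/
theorem dn_splitH2_g {N ε b Y : ℝ} {R : ℂ → ℂ} (hN : 0 < N) (hε : 0 < ε) (hε1 : ε ≤ 1 / 100)
    (hb : 1 ≤ b) (hY : 40 * b ≤ Y) (hR : Reg ε N b Y R) :
    ∃ C : ℝ, 0 ≤ C ∧ ∀ v : ℝ, 0 < v →
      ‖la N R v * cexp (-((N : ℂ) * (v : ℂ) ^ 2 / 2))‖ ≤ C * Real.exp (-(N / 4) * v ^ 2) := by
  have hRc : Continuous (fun v : ℝ => ‖R (v : ℂ)‖) :=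
    (hR.diff.continuous.comp Complex.continuous_ofReal).norm
  obtain ⟨C', hC'⟩ := (isCompact_Icc (a := (0 : ℝ)) (b := Y)).bddAbove_image hRc.continuousOn
  have hC'2 : ∀ v ∈ Set.Icc (0 : ℝ) Y, ‖R (v : ℂ)‖ ≤ C' := fun v hv =>
    hC' ⟨v, hv, rfl⟩
  have hC'0 : 0 ≤ C' :=
    (norm_nonneg (R ((0 : ℝ) : ℂ))).trans (hC'2 0 ⟨le_rfl, by linarith⟩)
  refine ⟨(C' + ‖R (b : ℂ)‖) * Real.exp (5 * N / 2), by positivity, fun v hv => ?_⟩
  have hRv : ‖R (v : ℂ)‖ ≤ (C' + ‖R (b : ℂ)‖) * Real.exp (N / 100 * v ^ 2) := by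
    rcases le_total v Y with h | h
    · have h1 := hC'2 v ⟨hv.le, h⟩
      have h2 : 1 ≤ Real.exp (N / 100 * v ^ 2) := Real.one_le_exp (by positivity)
      calc ‖R (v : ℂ)‖ ≤ (C' + ‖R (b : ℂ)‖) * 1 := by linarith [norm_nonneg (R (b : ℂ))]
        _ ≤ _ := mul_le_mul_of_nonneg_left h2 (by positivity)
    · have h1 := hR.tail (b : ℂ) (v : ℂ) (by simp; linarith) (by simp; linarith)
        (by simp; linarith) (by simpa using h) (by simp; linarith)
      have h3 : ‖(v : ℂ) - (b : ℂ)‖ = v - b := by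
        rw [← Complex.ofReal_sub, Complex.norm_real, Real.norm_of_nonneg (by linarith)]
      rw [h3] at h1
      have h4 : (v - b) ^ 2 ≤ v ^ 2 := by
        apply pow_le_pow_left₀ (by linarith)
        linarith
      have h5 : ε * N * (v - b) ^ 2 ≤ N / 100 * v ^ 2 := by
        calc ε * N * (v - b) ^ 2 ≤ 1 / 100 * N * (v - b) ^ 2 :=
              mul_le_mul_of_nonneg_right (mul_le_mul_of_nonneg_right hε1 hN.le) (sq_nonneg _)
          _ ≤ 1 / 100 * N * v ^ 2 := mul_le_mul_of_nonneg_left h4 (by positivity)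
          _ = _ := by ring
      calc ‖R (v : ℂ)‖ ≤ Real.exp (ε * N * (v - b) ^ 2) * ‖R (b : ℂ)‖ := h1
        _ ≤ Real.exp (N / 100 * v ^ 2) * (C' + ‖R (b : ℂ)‖) :=
            mul_le_mul (Real.exp_le_exp.2 h5) (by linarith) (norm_nonneg _) (Real.exp_pos _).le
        _ = _ := by ring
  have hla : ‖la N R v * cexp (-((N : ℂ) * (v : ℂ) ^ 2 / 2))‖ =
      ‖R (v : ℂ)‖ * Real.exp (N * v - N * v ^ 2 / 2) := by
    unfold la
    have h1 : ((N : ℂ) * (v : ℂ)) = ((N * v : ℝ) : ℂ) := by push_cast; ring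
    have h2 : (-((N : ℂ) * (v : ℂ) ^ 2 / 2)) = ((-(N * v ^ 2 / 2) : ℝ) : ℂ) := by push_cast; ring
    rw [norm_mul, norm_mul, Complex.norm_exp, Complex.norm_exp, h1, h2, Complex.ofReal_re,
      Complex.ofReal_re, sub_eq_add_neg, Real.exp_add]
    ring
  rw [hla]
  calc ‖R (v : ℂ)‖ * Real.exp (N * v - N * v ^ 2 / 2)
      ≤ ((C' + ‖R (b : ℂ)‖) * Real.exp (N / 100 * v ^ 2)) * Real.exp (N * v - N * v ^ 2 / 2) :=
        mul_le_mul_of_nonneg_right hRv (Real.exp_pos _).le
    _ = (C' + ‖R (b : ℂ)‖) * Real.exp (N / 100 * v ^ 2 + (N * v - N * v ^ 2 / 2)) := by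
        rw [Real.exp_add]
        ring
    _ ≤ (C' + ‖R (b : ℂ)‖) * Real.exp (5 * N / 2 + (-(N / 4) * v ^ 2)) := by
        refine mul_le_mul_of_nonneg_left (Real.exp_le_exp.2 ?_) (by positivity)
        nlinarith [mul_nonneg hN.le (sq_nonneg (v - 5)), mul_nonneg hN.le (sq_nonneg v)]
    _ = _ := by
        rw [Real.exp_add]
        ring

theorem dn_splitH2_real : S_splitH := by
  intro N ε b Y R hN hε hε1 hb hY hR hS
  obtain ⟨C, hC, hg⟩ := dn_splitH2_g hN hε hε1 hb hY hR
  set g : ℝ → ℂ := fun v => la N R v * cexp (-((N : ℂ) * (v : ℂ) ^ 2 / 2)) with hgdef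
  have hlac : Continuous (la N R) := by
    unfold la
    have := hR.diff.continuous
    fun_prop
  have hgc : Continuous g := by
    rw [hgdef]
    have := hlac.comp Complex.continuous_ofReal
    simp only [Function.comp_def] at this
    fun_prop
  obtain ⟨hint, hdiff⟩ := dn_splitH2_lap hN hgc hC hg
  have hid : ∀ (w : ℂ) (v : ℝ), la N R v * cexp (-((N : ℂ) * ((v : ℂ) - w) ^ 2 / 2)) =
      cexp (-((N : ℂ) * w ^ 2 / 2)) * (g v * cexp ((N : ℂ) * v * w)) := by
    intro w v
    rw [hgdef]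
    simp only
    have : cexp (-((N : ℂ) * ((v : ℂ) - w) ^ 2 / 2)) = cexp (-((N : ℂ) * w ^ 2 / 2)) *
        (cexp (-((N : ℂ) * (v : ℂ) ^ 2 / 2)) * cexp ((N : ℂ) * v * w)) := by
      rw [← Complex.exp_add, ← Complex.exp_add]
      congr 1
      ring
    rw [this]
    ring
  have hBH : ∀ w : ℂ, BH N R w = cexp (-((N : ℂ) * w ^ 2 / 2)) *
      ∫ v in Set.Ioi (0 : ℝ), g v * cexp ((N : ℂ) * v * w) := by
    intro w
    unfold BH
    rw [← integral_const_mul]
    exact integral_congr_ae (Filter.Eventually.of_forall fun v => hid w v)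
  have hBint : ∀ w : ℂ, IntegrableOn
      (fun v : ℝ => la N R v * cexp (-((N : ℂ) * ((v : ℂ) - w) ^ 2 / 2))) (Set.Ioi 0) := by
    intro w
    have h1 : (fun v : ℝ => la N R v * cexp (-((N : ℂ) * ((v : ℂ) - w) ^ 2 / 2))) =
        fun v : ℝ => cexp (-((N : ℂ) * w ^ 2 / 2)) * (g v * cexp ((N : ℂ) * v * w)) :=
      funext fun v => hid w v
    rw [h1]
    exact (hint w).const_mul _
  refine ⟨?_, ?_⟩
  · obtain ⟨c, hc, hcs⟩ := hS
    refine ⟨c, hc, fun y => ?_⟩
    set f : ℝ → ℂ := fun u => la N R u * cexp (-((N : ℂ) * ((u : ℂ) - y) ^ 2 / 2)) with hf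
    have hfneg : ∀ v : ℝ, f (-v) = c * conj (la N R v *
        cexp (-((N : ℂ) * ((v : ℂ) - (-(y : ℂ))) ^ 2 / 2))) := by
      intro v
      rw [hf]
      simp only
      have h1 : la N R ((-v : ℝ) : ℂ) = c * conj (la N R v) := by
        rw [← hcs v]
        congr 1
        rw [Complex.conj_ofReal]
        push_cast
        ring
      have h2 : cexp (-((N : ℂ) * (((-v : ℝ) : ℂ) - y) ^ 2 / 2)) =
          conj (cexp (-((N : ℂ) * ((v : ℂ) - (-(y : ℂ))) ^ 2 / 2))) := by
        rw [← Complex.exp_conj]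
        congr 1
        simp only [map_neg, map_div₀, map_mul, map_pow, map_sub, Complex.conj_ofReal, map_ofNat]
        push_cast
        ring
      rw [h1, h2, map_mul]
      ring
    have hFH : FH N R y = ∫ u : ℝ, f u := by
      unfold FH
      rw [← integral_add_left_eq_self f y]
      refine integral_congr_ae (Filter.Eventually.of_forall fun v => ?_)
      rw [hf]
      simp only
      push_cast
      congr 3
      ring
    have hright : IntegrableOn f (Set.Ioi 0) := hBint y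
    have hneg : IntegrableOn (fun v : ℝ => f (-v)) (Set.Ioi 0) := by
      have h1 : (fun v : ℝ => f (-v)) = fun v : ℝ => c * conj (la N R v *
        cexp (-((N : ℂ) * ((v : ℂ) - (-(y : ℂ))) ^ 2 / 2))) := funext hfneg
      rw [h1]
      have h2 := hBint (-(y : ℂ))
      have h3 : IntegrableOn (fun v : ℝ => conj (la N R v *
        cexp (-((N : ℂ) * ((v : ℂ) - (-(y : ℂ))) ^ 2 / 2)))) (Set.Ioi 0) :=
        (LinearIsometryEquiv.integrable_comp_iff Complex.conjLIE).2 h2
      exact h3.const_mul c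
    have hleft : IntegrableOn f (Set.Iic 0) := by
      rw [integrableOn_Iic_iff_integrableOn_Iio]
      have h1 := ((Measure.measurePreserving_neg (volume : Measure ℝ)).integrableOn_comp_preimage
        (Homeomorph.neg ℝ).measurableEmbedding (f := f) (s := Set.Iio 0)).1
      apply h1
      have h2 : (fun x : ℝ => -x) ⁻¹' Set.Iio (0 : ℝ) = Set.Ioi 0 := by
        ext x
        simp
      rw [show (Neg.neg : ℝ → ℝ) = fun x : ℝ => -x from rfl, h2]
      exact hneg
    rw [hFH, ← intervalIntegral.integral_Iic_add_Ioi hleft hright]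
    have h1 : ∫ u in Set.Iic (0 : ℝ), f u = c * conj (BH N R (-(y : ℂ))) := by
      have h2 := integral_comp_neg_Ioi (0 : ℝ) f
      rw [neg_zero] at h2
      rw [← h2]
      unfold BH
      rw [← integral_conj, ← integral_const_mul]
      exact integral_congr_ae (Filter.Eventually.of_forall fun v => hfneg v)
    rw [h1, add_comm]
    rfl
  · have : BH N R = fun w : ℂ => cexp (-((N : ℂ) * w ^ 2 / 2)) *
      ∫ v in Set.Ioi (0 : ℝ), g v * cexp ((N : ℂ) * v * w) := funext hBH
    rw [this]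
    have h1 : Differentiable ℂ (fun w : ℂ => cexp (-((N : ℂ) * w ^ 2 / 2))) := by fun_prop
    exact h1.mul hdiff

/-- A Gaussian bound in the strip. -/
theorem dn_splitH2_strip {N ε b Y : ℝ} {R : ℂ → ℂ} (hN : 0 < N) (hε : 0 < ε) (hε1 : ε ≤ 1 / 100)
    (hb : 1 ≤ b) (hY : 40 * b ≤ Y) (hR : Reg ε N b Y R) (hS : Sym (la N R)) :
    ∃ C : ℝ, 0 ≤ C ∧ ∀ z : ℂ, |z.im| ≤ 20 * b →
      ‖la N R z‖ ≤ C * Real.exp (N / 8 * z.re ^ 2) := by
  have hRc : Continuous (fun z : ℂ => ‖R z‖) := hR.diff.continuous.norm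
  have hcomp : IsCompact (Set.Icc (0 : ℝ) Y ×ℂ Set.Icc (-(20 * b)) (20 * b)) :=
    isCompact_Icc.reProdIm isCompact_Icc
  obtain ⟨C', hC'⟩ := hcomp.bddAbove_image hRc.continuousOn
  have hC'2 : ∀ z : ℂ, 0 ≤ z.re → z.re ≤ Y → |z.im| ≤ 20 * b → ‖R z‖ ≤ C' := by
    intro z h0 h1 h2
    refine hC' ⟨z, ?_, rfl⟩
    rw [Complex.mem_reProdIm]
    exact ⟨⟨h0, h1⟩, abs_le.mp h2⟩
  have hC'0 : 0 ≤ C' :=
    (norm_nonneg (R 0)).trans (hC'2 0 (by simp) (by simp; linarith) (by simp; linarith))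
  set C'' : ℝ := C' + Real.exp (4 * N * b ^ 2) * ‖R (b : ℂ)‖ with hC''
  have hC''0 : 0 ≤ C'' := by positivity
  -- the bound for `R` in the right half
  have hRb : ∀ z : ℂ, 0 ≤ z.re → |z.im| ≤ 20 * b →
      ‖R z‖ ≤ C'' * Real.exp (N / 100 * z.re ^ 2) := by
    intro z h0 h2
    rcases le_total z.re Y with h | h
    · have h1 := hC'2 z h0 h h2
      have h3 : 1 ≤ Real.exp (N / 100 * z.re ^ 2) := Real.one_le_exp (by positivity)
      calc ‖R z‖ ≤ C'' * 1 := by
            rw [hC'', mul_one]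
            have : 0 ≤ Real.exp (4 * N * b ^ 2) * ‖R (b : ℂ)‖ := by positivity
            linarith
        _ ≤ _ := mul_le_mul_of_nonneg_left h3 hC''0
    · have h1 := hR.tail (b : ℂ) z (by simp; linarith) (by simp; linarith)
        (by simp; linarith) h h2
      have h3 : ‖z - (b : ℂ)‖ ^ 2 = (z.re - b) ^ 2 + z.im ^ 2 := by
        rw [Complex.sq_norm, Complex.normSq_apply]
        simp
        ring
      have h4 : (z.re - b) ^ 2 ≤ z.re ^ 2 := by
        apply pow_le_pow_left₀ (by linarith)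
        linarith
      have h5 : z.im ^ 2 ≤ 400 * b ^ 2 := by
        have h6 := abs_le.mp h2
        nlinarith [h6.1, h6.2]
      have h6 : ε * N * ‖z - (b : ℂ)‖ ^ 2 ≤ N / 100 * z.re ^ 2 + 4 * N * b ^ 2 := by
        rw [h3]
        calc ε * N * ((z.re - b) ^ 2 + z.im ^ 2) ≤ 1 / 100 * N * ((z.re - b) ^ 2 + z.im ^ 2) :=
              mul_le_mul_of_nonneg_right (mul_le_mul_of_nonneg_right hε1 hN.le) (by positivity)
          _ ≤ 1 / 100 * N * (z.re ^ 2 + 400 * b ^ 2) :=
              mul_le_mul_of_nonneg_left (by linarith) (by positivity)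
          _ = _ := by ring
      calc ‖R z‖ ≤ Real.exp (ε * N * ‖z - (b : ℂ)‖ ^ 2) * ‖R (b : ℂ)‖ := h1
        _ ≤ Real.exp (N / 100 * z.re ^ 2 + 4 * N * b ^ 2) * ‖R (b : ℂ)‖ :=
            mul_le_mul_of_nonneg_right (Real.exp_le_exp.2 h6) (norm_nonneg _)
        _ = (Real.exp (4 * N * b ^ 2) * ‖R (b : ℂ)‖) * Real.exp (N / 100 * z.re ^ 2) := by
            rw [Real.exp_add]
            ring
        _ ≤ C'' * Real.exp (N / 100 * z.re ^ 2) := by
            refine mul_le_mul_of_nonneg_right ?_ (Real.exp_pos _).le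
            rw [hC'']
            linarith
  -- the bound for `la` in the right half
  have hlb : ∀ z : ℂ, 0 ≤ z.re → |z.im| ≤ 20 * b →
      ‖la N R z‖ ≤ (C'' * Real.exp (4 * N)) * Real.exp (N / 8 * z.re ^ 2) := by
    intro z h0 h2
    have h1 := hRb z h0 h2
    unfold la
    rw [norm_mul, Complex.norm_exp, Complex.re_ofReal_mul]
    have h3 : N * z.re + N / 100 * z.re ^ 2 ≤ 4 * N + N / 8 * z.re ^ 2 := by
      nlinarith [mul_nonneg hN.le (sq_nonneg (z.re - 8)), mul_nonneg hN.le (sq_nonneg z.re)]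
    calc Real.exp (N * z.re) * ‖R z‖
        ≤ Real.exp (N * z.re) * (C'' * Real.exp (N / 100 * z.re ^ 2)) :=
          mul_le_mul_of_nonneg_left h1 (Real.exp_pos _).le
      _ = C'' * Real.exp (N * z.re + N / 100 * z.re ^ 2) := by
          rw [Real.exp_add]
          ring
      _ ≤ C'' * Real.exp (4 * N + N / 8 * z.re ^ 2) :=
          mul_le_mul_of_nonneg_left (Real.exp_le_exp.2 h3) hC''0
      _ = _ := by
          rw [Real.exp_add]
          ring
  refine ⟨C'' * Real.exp (4 * N), by positivity, fun z hz => ?_⟩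
  rcases le_total 0 z.re with h | h
  · exact hlb z h hz
  · obtain ⟨c, hc, hcs⟩ := hS
    have h1 : la N R z = c * conj (la N R (-conj z)) := by
      rw [← hcs (-conj z)]
      congr 1
      simp
    have h2 : ‖la N R z‖ = ‖la N R (-conj z)‖ := by
      rw [h1, norm_mul, hc, one_mul, Complex.norm_conj]
    have h3 := hlb (-conj z) (by simp; exact h) (by simpa using hz)
    rw [h2]
    simpa using h3

/-- The Gaussian integral is holomorphic in the strip. -/
theorem dn_splitH2_diff {N ε b Y : ℝ} {R : ℂ → ℂ} (hN : 0 < N) (hε : 0 < ε) (hε1 : ε ≤ 1 / 100)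
    (hb : 1 ≤ b) (hY : 40 * b ≤ Y) (hR : Reg ε N b Y R) (hS : Sym (la N R)) :
    DifferentiableOn ℂ (FH N R) {w : ℂ | |w.im| < 19} := by
  obtain ⟨C, hC, hst⟩ := dn_splitH2_strip hN hε hε1 hb hY hR hS
  have hlad : Differentiable ℂ (la N R) := by
    unfold la
    have := hR.diff
    fun_prop
  have hlac : Continuous (la N R) := hlad.continuous
  -- the domination
  have hdom : ∀ (K : ℝ) (w : ℂ) (v : ℝ), |w.re| ≤ K → |w.im| ≤ 20 →
      ‖la N R (w + v)‖ ≤ C * Real.exp (N / 4 * K ^ 2) * Real.exp (N / 4 * v ^ 2) := by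
    intro K w v h1 h2
    have h3 := hst (w + v) (by
      simp only [Complex.add_im, Complex.ofReal_im, add_zero]
      linarith)
    refine h3.trans ?_
    rw [mul_assoc, ← Real.exp_add]
    refine mul_le_mul_of_nonneg_left (Real.exp_le_exp.2 ?_) hC
    simp only [Complex.add_re, Complex.ofReal_re]
    have h4 : w.re ^ 2 ≤ K ^ 2 := by
      rw [← sq_abs w.re]
      exact pow_le_pow_left₀ (abs_nonneg _) h1 2
    have h5 : (w.re + v) ^ 2 ≤ 2 * K ^ 2 + 2 * v ^ 2 := by
      nlinarith [sq_nonneg (w.re - v)]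
    calc N / 8 * (w.re + v) ^ 2 ≤ N / 8 * (2 * K ^ 2 + 2 * v ^ 2) :=
          mul_le_mul_of_nonneg_left h5 (by positivity)
      _ = _ := by ring
  have hgauss : ∀ v : ℝ, ‖cexp (-((N : ℂ) * (v : ℂ) ^ 2 / 2))‖ = Real.exp (-(N / 2) * v ^ 2) := by
    intro v
    have h1 : (-((N : ℂ) * (v : ℂ) ^ 2 / 2)) = ((-(N / 2) * v ^ 2 : ℝ) : ℂ) := by
      push_cast
      ring
    rw [h1, Complex.norm_exp, Complex.ofReal_re]
  have hcomb : ∀ v : ℝ, Real.exp (N / 4 * v ^ 2) * Real.exp (-(N / 2) * v ^ 2) =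
      Real.exp (-(N / 4) * v ^ 2) := by
    intro v
    rw [← Real.exp_add]
    congr 1
    ring
  have hG : Integrable (fun v : ℝ => Real.exp (-(N / 4) * v ^ 2)) :=
    integrable_exp_neg_mul_sq (by positivity)
  have hcont : ∀ w : ℂ, Continuous
      (fun v : ℝ => la N R (w + v) * cexp (-((N : ℂ) * (v : ℂ) ^ 2 / 2))) := by
    intro w
    have h1 : Continuous (fun v : ℝ => la N R (w + v)) :=
      hlac.comp (continuous_const.add Complex.continuous_ofReal)
    fun_prop
  intro w₀ hw₀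
  have hw₀' : |w₀.im| < 19 := hw₀
  have key := hasDerivAt_integral_of_dominated_loc_of_deriv_le
    (μ := volume) (𝕜 := ℂ)
    (F := fun (w : ℂ) (v : ℝ) => la N R (w + v) * cexp (-((N : ℂ) * (v : ℂ) ^ 2 / 2)))
    (F' := fun (w : ℂ) (v : ℝ) => deriv (la N R) (w + v) * cexp (-((N : ℂ) * (v : ℂ) ^ 2 / 2)))
    (x₀ := w₀) (s := Metric.ball w₀ (1 / 2))
    (bound := fun v : ℝ => (C * Real.exp (N / 4 * (|w₀.re| + 1) ^ 2) / (1 / 2)) *
      Real.exp (-(N / 4) * v ^ 2))
    (Metric.ball_mem_nhds w₀ (by norm_num))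
    (Filter.Eventually.of_forall fun w => (hcont w).aestronglyMeasurable)
    (by
      refine Integrable.mono' (hG.const_mul (C * Real.exp (N / 4 * |w₀.re| ^ 2)))
        (hcont w₀).aestronglyMeasurable ?_
      refine Filter.Eventually.of_forall fun v => ?_
      rw [norm_mul, hgauss, ← hcomb, ← mul_assoc]
      exact mul_le_mul_of_nonneg_right (hdom _ w₀ v le_rfl (by linarith)) (Real.exp_pos _).le)
    (by
      have h1 : Continuous (deriv (la N R)) := (hlad.contDiff (n := 1)).continuous_deriv le_rfl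
      have h2 : Continuous (fun v : ℝ => deriv (la N R) (w₀ + v)) :=
        h1.comp (continuous_const.add Complex.continuous_ofReal)
      have h3 : Continuous (fun v : ℝ => deriv (la N R) (w₀ + v) *
          cexp (-((N : ℂ) * (v : ℂ) ^ 2 / 2))) := by
        fun_prop
      exact h3.aestronglyMeasurable)
    (by
      refine Filter.Eventually.of_forall fun v w hw => ?_
      rw [norm_mul, hgauss, ← hcomb, ← mul_assoc]
      refine mul_le_mul_of_nonneg_right ?_ (Real.exp_pos _).le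
      have h1 : ‖w - w₀‖ < 1 / 2 := by
        have := Metric.mem_ball.1 hw
        rwa [dist_eq_norm] at this
      have h2 := Complex.norm_deriv_le_of_forall_mem_sphere_norm_le (c := w + (v : ℂ))
        (R := 1 / 2) (C := C * Real.exp (N / 4 * (|w₀.re| + 1) ^ 2) * Real.exp (N / 4 * v ^ 2))
        (f := la N R) (by norm_num) (hlad.diffContOnCl) (by
          intro z hz
          have h3 : ‖z - (w + v)‖ = 1 / 2 := by
            have := Metric.mem_sphere.1 hz
            rwa [dist_eq_norm] at this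
          have h4 : z = (z - v) + v := by ring
          have h5 : ‖(z - v) - w₀‖ ≤ 1 := by
            have h6 : (z - v) - w₀ = (z - (w + v)) + (w - w₀) := by ring
            rw [h6]
            refine (norm_add_le _ _).trans ?_
            linarith
          have h7 : |(z - v).re| ≤ |w₀.re| + 1 := by
            have h8 : (z - v).re = ((z - v) - w₀).re + w₀.re := by simp
            rw [h8]
            refine (abs_add_le _ _).trans ?_
            have := (Complex.abs_re_le_norm ((z - v) - w₀)).trans h5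
            linarith
          have h9 : |(z - v).im| ≤ 20 := by
            have h8 : (z - v).im = ((z - v) - w₀).im + w₀.im := by simp
            rw [h8]
            refine (abs_add_le _ _).trans ?_
            have := (Complex.abs_im_le_norm ((z - v) - w₀)).trans h5
            linarith
          rw [h4]
          exact hdom _ (z - v) v h7 h9)
      refine h2.trans (le_of_eq ?_)
      ring)
    (hG.const_mul _)
    (by
      refine Filter.Eventually.of_forall fun v w _ => ?_
      have h1 : HasDerivAt (fun w : ℂ => la N R (w + v)) (deriv (la N R) (w + v)) w := by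
        have h2 : HasDerivAt (la N R) (deriv (la N R) (w + v)) (w + v) :=
          (hlad (w + v)).hasDerivAt
        exact h2.comp_add_const w v
      exact h1.mul_const _)
  exact key.2.differentiableAt.differentiableWithinAt

theorem p_splitH2 : S_splitH2 := by
  intro N ε b Y R hN hε hε1 hb hY hR hS
  obtain ⟨⟨c, hc, hreal⟩, hBd⟩ := dn_splitH2_real N ε b Y R hN hε hε1 hb hY hR hS
  refine ⟨c, hc, ?_⟩
  have hFd := dn_splitH2_diff hN hε hε1 hb hY hR hS
  set U : Set ℂ := {w : ℂ | |w.im| < 19} with hU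
  have hUo : IsOpen U := isOpen_lt (Complex.continuous_im.abs) continuous_const
  have hUc : Convex ℝ U := by
    have h1 : U = Complex.imLm ⁻¹' (Set.Ioo (-19 : ℝ) 19) := by
      ext z
      simp only [hU, Set.mem_setOf_eq, Set.mem_preimage, Set.mem_Ioo, Complex.imLm_coe, abs_lt]
    rw [h1]
    exact (convex_Ioo (-19 : ℝ) 19).linear_preimage Complex.imLm
  set g : ℂ → ℂ := fun w => BH N R w + c * conj (BH N R (-conj w)) with hg
  have hgd : Differentiable ℂ g := by
    have h1 : Differentiable ℂ (fun w : ℂ => BH N R (-w)) := hBd.comp (differentiable_id.neg)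
    have h2 : Differentiable ℂ (fun w : ℂ => conj (BH N R (-conj w))) := by
      intro w
      have h3 := (h1 (conj w)).conj_conj
      rw [Complex.conj_conj] at h3
      exact h3
    exact hBd.add (h2.const_mul c)
  have hFa : AnalyticOnNhd ℂ (FH N R) U := hFd.analyticOnNhd hUo
  have hga : AnalyticOnNhd ℂ g U := hgd.differentiableOn.analyticOnNhd hUo
  have h0 : (0 : ℂ) ∈ U := by simp [hU]
  have hfreq : ∃ᶠ z in nhdsWithin (0 : ℂ) {0}ᶜ, FH N R z = g z := by
    have ht : Filter.Tendsto (fun x : ℝ => (x : ℂ)) (nhdsWithin (0 : ℝ) {0}ᶜ)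
        (nhdsWithin (0 : ℂ) {0}ᶜ) := by
      refine tendsto_nhdsWithin_iff.2 ⟨?_, ?_⟩
      · have h1 : Filter.Tendsto (fun x : ℝ => (x : ℂ)) (nhds 0) (nhds ((0 : ℝ) : ℂ)) :=
          Complex.continuous_ofReal.tendsto 0
        rw [Complex.ofReal_zero] at h1
        exact h1.mono_left nhdsWithin_le_nhds
      · filter_upwards [self_mem_nhdsWithin] with x hx
        have hx' : x ≠ 0 := hx
        simpa using hx'
    refine ht.frequently (Filter.Eventually.frequently (Filter.Eventually.of_forall fun x => ?_))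
    rw [hreal x]
    simp only [hg, Complex.conj_ofReal]
  have heq := hFa.eqOn_of_preconnected_of_frequently_eq hga hUc.isPreconnected h0 hfreq
  intro w hw
  exact heq (show |w.im| < 19 by linarith)

end Pool.Agent.Lib.MP_cd509c_nt.DN
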