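import Mathlib
import Pool.Agent.Lib.MP_cd509c_nt.DN.Defs

/-!
# The zeros of the derivatives of the Xi-function lie in a strip
-/

set_option autoImplicit false

namespace Pool.Agent.Lib.MP_cd509c_nt.DN

open Complex ComplexConjugate MeasureTheory Polynomial

/-- the derivative of a real polynomial is real -/
lemma dn_stripD_sym {P : ℂ[X]} (hP : SymP P) : SymP (derivative P) := by
  have hmap : P.map (starRingEnd ℂ) = P := by
    apply Polynomial.funext
    intro z
    have h1 : (P.map (starRingEnd ℂ)).eval (conj (conj z)) = conj (P.eval (conj z)) := by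
      rw [Polynomial.eval_map, Polynomial.eval₂_at_apply]
    rw [Complex.conj_conj] at h1
    rw [h1, hP, Complex.conj_conj]
  have hmap' : (derivative P).map (starRingEnd ℂ) = derivative P := by
    rw [← Polynomial.derivative_map, hmap]
  intro z
  have h1 : ((derivative P).map (starRingEnd ℂ)).eval (conj z) = conj ((derivative P).eval z) := by
    rw [Polynomial.eval_map, Polynomial.eval₂_at_apply]
  rw [hmap'] at h1
  exact h1

/-- Gauss-Lucas in a strip -/
lemma dn_stripD_gl {D : ℝ} {P : ℂ[X]} (hP0 : P ≠ 0) (hD : InStrip D P)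
    (hd : derivative P ≠ 0) : InStrip D (derivative P) := by
  intro z hz
  have hdeg : 0 < P.degree := by
    by_contra hcon
    push Not at hcon
    apply hd
    rw [Polynomial.eq_C_of_degree_le_zero hcon, Polynomial.derivative_C]
  have hz1 : z ∈ (derivative P).rootSet ℂ := by
    rw [Polynomial.mem_rootSet]
    refine ⟨hd, ?_⟩
    simpa using hz
  have h2 := Polynomial.rootSet_derivative_subset_convexHull_rootSet hdeg hz1
  have hconv : Convex ℝ {z : ℂ | |z.im| ≤ Real.sqrt D} := by
    have e : {z : ℂ | |z.im| ≤ Real.sqrt D} = Complex.imCLM ⁻¹' (Set.Icc (-Real.sqrt D) (Real.sqrt D)) := by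
      ext z
      simp [abs_le]
    rw [e]
    exact (convex_Icc _ _).is_linear_preimage Complex.imCLM.isLinear
  have hsub : P.rootSet ℂ ⊆ {z : ℂ | |z.im| ≤ Real.sqrt D} := by
    intro w hw
    rw [Polynomial.mem_rootSet] at hw
    have h3 : P.eval w = 0 := by simpa using hw.2
    exact Real.abs_le_sqrt (hD w h3)
  have h4 : |z.im| ≤ Real.sqrt D := convexHull_min hsub hconv h2
  have hD0 : 0 ≤ D := by
    by_contra hneg
    push Not at hneg
    have : ∃ w, P.eval w = 0 := IsAlgClosed.exists_root P hdeg.ne'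
    obtain ⟨w, hw⟩ := this
    have := hD w hw
    nlinarith [sq_nonneg w.im]
  rw [← sq_abs]
  calc |z.im| ^ 2 ≤ Real.sqrt D ^ 2 := pow_le_pow_left₀ (abs_nonneg _) h4 2
    _ = D := Real.sq_sqrt hD0

lemma dn_stripD_deriv {D : ℝ} {F : ℂ → ℂ} (hF : Differentiable ℂ F) (h : AppS D F)
    (v0 : ℂ) (hv0 : deriv F v0 ≠ 0) : AppS D (deriv F) := by
  intro R ε hε
  have hn : 0 < ‖deriv F v0‖ := norm_pos_iff.mpr hv0
  set η : ℝ := min ε (‖deriv F v0‖ / 2) with hη
  have hη0 : 0 < η := lt_min hε (by positivity)
  obtain ⟨P, hP, hP0, hPD, hb⟩ := h (max R ‖v0‖ + 1) η hη0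
  have key : ∀ z : ℂ, ‖z‖ ≤ max R ‖v0‖ → ‖deriv F z - (derivative P).eval z‖ ≤ η := by
    intro z hz
    have hG : Differentiable ℂ (fun w => F w - P.eval w) := hF.sub P.differentiable
    have h1 := Complex.norm_deriv_le_of_forall_mem_sphere_norm_le (c := z) (R := 1) (C := η)
      (f := fun w => F w - P.eval w) one_pos hG.diffContOnCl (by
        intro w hw
        apply hb
        rw [mem_sphere_iff_norm] at hw
        have := norm_add_le (w - z) z
        rw [sub_add_cancel] at this
        linarith)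
    rw [div_one] at h1
    have h2 : deriv (fun w => F w - P.eval w) z = deriv F z - (derivative P).eval z := by
      rw [deriv_fun_sub (hF z) (P.differentiable z), Polynomial.deriv]
    rwa [h2] at h1
  have hd : derivative P ≠ 0 := by
    intro h0
    have h1 := key v0 (le_max_right _ _)
    rw [h0, Polynomial.eval_zero, sub_zero] at h1
    have h2 : η ≤ ‖deriv F v0‖ / 2 := min_le_right _ _
    linarith
  refine ⟨derivative P, dn_stripD_sym hP, hd, dn_stripD_gl hP0 hPD hd, ?_⟩
  intro z hz
  exact (key z (hz.trans (le_max_left _ _))).trans (min_le_left _ _)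

theorem p_stripD : S_stripD := by
  obtain ⟨B, hB, hstrip⟩ := Ht_strip_all
  have hXi : Xi = fun z : ℂ => Lam (6 + Complex.I * z) := rfl
  have hXF : Xi = FT (PhiT 0) := by
    funext z
    rw [FT_PhiT, Ht_zero, hXi]
  have hdiff : Differentiable ℂ Xi := by
    rw [hXi]
    exact Lam_differentiable.comp (by fun_prop)
  have hcd : ContDiff ℂ ⊤ Xi := hdiff.contDiff
  have hnd : ∀ n : ℕ, Differentiable ℂ (iteratedDeriv n Xi) := fun n =>
    hcd.differentiable_iteratedDeriv n (by exact_mod_cast WithTop.coe_lt_top _)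
  have hne : ∀ n : ℕ, iteratedDeriv n Xi I ≠ 0 := fun n =>
    iteratedDeriv_Xi_imag_ne n I (by simp) (by simp)
  have happ : ∀ n : ℕ, AppS (B ^ 2) (iteratedDeriv n Xi) := by
    intro n
    induction n with
    | zero =>
      rw [iteratedDeriv_zero, hXF]
      apply (Ker_PhiT 0).appS
      intro z hz
      rw [FT_PhiT] at hz
      have := hstrip 0 le_rfl z hz
      rw [← sq_abs]
      exact pow_le_pow_left₀ (abs_nonneg _) this 2
    | succ n ih =>
      have h1 : iteratedDeriv (n + 1) Xi = deriv (iteratedDeriv n Xi) := iteratedDeriv_succ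
      rw [h1]
      apply dn_stripD_deriv (hnd n) ih I
      rw [← h1]
      exact hne (n + 1)
  refine ⟨B, hB, fun n z hz => ?_⟩
  have h1 := (happ n).zeros (hnd n) I (hne n) z hz
  have := sq_le_sq.mp h1
  rwa [abs_of_pos hB] at this

end Pool.Agent.Lib.MP_cd509c_nt.DN
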