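import Pool.Agent.Lib.MP_cd509c_nt.DN.Defs

/-!
# Piece `sub`: the sub-mean value inequality over a square
-/

set_option autoImplicit false

namespace Pool.Agent.Lib.MP_cd509c_nt.DN

open Complex MeasureTheory Set

/-- mean value on circles -/
private lemma dn_sub_circ (f : ℂ → ℂ) (hf : Differentiable ℂ f) (w : ℂ) (r : ℝ) :
    2 * Real.pi * ‖f w‖ ≤
      ∫ θ in Set.Ioo (-Real.pi) Real.pi, ‖f (w + r * (Real.cos θ + Real.sin θ * I))‖ := by
  have h1 : Real.circleAverage f w r = f w := hf.diffContOnCl.circleAverage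
  have hc : ∀ θ : ℝ, circleMap w r θ = w + r * (Real.cos θ + Real.sin θ * I) := by
    intro θ
    rw [circleMap, Complex.exp_mul_I, ofReal_cos, ofReal_sin]
  have h2 : ‖f w‖ ≤ (2 * Real.pi)⁻¹ * ∫ θ in (0 : ℝ)..(2 * Real.pi), ‖f (circleMap w r θ)‖ := by
    rw [← h1, Real.circleAverage, norm_smul, Real.norm_of_nonneg (by positivity)]
    apply mul_le_mul_of_nonneg_left _ (by positivity)
    exact intervalIntegral.norm_integral_le_integral_norm (by positivity)
  have h3 : ∫ θ in (0 : ℝ)..(2 * Real.pi), ‖f (circleMap w r θ)‖ =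
      ∫ θ in Set.Ioo (-Real.pi) Real.pi, ‖f (w + r * (Real.cos θ + Real.sin θ * I))‖ := by
    have hp : Function.Periodic (fun θ : ℝ => ‖f (circleMap w r θ)‖) (2 * Real.pi) := by
      intro θ
      simp only
      rw [periodic_circleMap w r θ]
    have := hp.intervalIntegral_add_eq 0 (-Real.pi)
    rw [zero_add] at this
    rw [this, intervalIntegral.integral_of_le (by linarith [Real.pi_pos]),
      integral_Ioc_eq_integral_Ioo]
    have e : -Real.pi + 2 * Real.pi = Real.pi := by ring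
    rw [e]
    simp only [hc]
  rw [h3] at h2
  have hpi := Real.pi_pos
  calc 2 * Real.pi * ‖f w‖ ≤ 2 * Real.pi * ((2 * Real.pi)⁻¹ *
        ∫ θ in Set.Ioo (-Real.pi) Real.pi, ‖f (w + r * (Real.cos θ + Real.sin θ * I))‖) :=
        mul_le_mul_of_nonneg_left h2 (by positivity)
    _ = _ := by rw [← mul_assoc, mul_inv_cancel₀ (by positivity), one_mul]

/-- mean value on discs, polar form -/
private lemma dn_sub_pol (f : ℂ → ℂ) (hf : Differentiable ℂ f) (w : ℂ) (δ : ℝ) (hδ : 0 < δ) :
    Real.pi * δ ^ 2 * ‖f w‖ ≤ ∫ p in Set.Ioo (0 : ℝ) δ ×ˢ Set.Ioo (-Real.pi) Real.pi,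
      p.1 * ‖f (w + p.1 * (Real.cos p.2 + Real.sin p.2 * I))‖ := by
  set G : ℝ × ℝ → ℝ := fun p => p.1 * ‖f (w + p.1 * (Real.cos p.2 + Real.sin p.2 * I))‖ with hG
  have hGc : Continuous G := by
    have := hf.continuous
    rw [hG]
    fun_prop
  have hGi : IntegrableOn G (Set.Ioo (0 : ℝ) δ ×ˢ Set.Ioo (-Real.pi) Real.pi)
      ((volume : Measure ℝ).prod volume) := by
    rw [← Measure.volume_eq_prod]
    apply (hGc.continuousOn.integrableOn_compact
      ((isCompact_Icc (a := (0 : ℝ)) (b := δ)).prod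
        (isCompact_Icc (a := -Real.pi) (b := Real.pi)))).mono_set
    exact Set.prod_mono Set.Ioo_subset_Icc_self Set.Ioo_subset_Icc_self
  have h1 : ∫ p in Set.Ioo (0 : ℝ) δ ×ˢ Set.Ioo (-Real.pi) Real.pi, G p =
      ∫ x in Set.Ioo (0 : ℝ) δ, ∫ y in Set.Ioo (-Real.pi) Real.pi, G (x, y) := by
    rw [Measure.volume_eq_prod, setIntegral_prod _ hGi]
  rw [h1]
  have h2 : Real.pi * δ ^ 2 * ‖f w‖ = ∫ x in Set.Ioo (0 : ℝ) δ, x * (2 * Real.pi * ‖f w‖) := by
    rw [← integral_Ioc_eq_integral_Ioo, ← intervalIntegral.integral_of_le hδ.le,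
      intervalIntegral.integral_mul_const, integral_id]
    ring
  rw [h2]
  apply setIntegral_mono_on
  · exact ((continuous_id.mul continuous_const).continuousOn.integrableOn_compact
      (isCompact_Icc (a := (0 : ℝ)) (b := δ))).mono_set Set.Ioo_subset_Icc_self
  · have := hGi
    rw [IntegrableOn, ← Measure.prod_restrict] at this
    exact this.integral_prod_left
  · exact measurableSet_Ioo
  · intro x hx
    have : ∫ y in Set.Ioo (-Real.pi) Real.pi, G (x, y) =
        x * ∫ y in Set.Ioo (-Real.pi) Real.pi, ‖f (w + x * (Real.cos y + Real.sin y * I))‖ := by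
      rw [← integral_const_mul]
    rw [this]
    exact mul_le_mul_of_nonneg_left (dn_sub_circ f hf w x) hx.1.le

/-- mean value on discs -/
private lemma dn_sub_disc (f : ℂ → ℂ) (hf : Differentiable ℂ f) (w : ℂ) (δ : ℝ) (hδ : 0 < δ) :
    Real.pi * δ ^ 2 * ‖f w‖ ≤
      ∫ z : ℂ, (Metric.ball w δ).indicator (fun z => ‖f z‖) z := by
  refine le_trans (dn_sub_pol f hf w δ hδ) (le_of_eq ?_)
  rw [← integral_add_left_eq_self (fun z => (Metric.ball w δ).indicator (fun z => ‖f z‖) z) w,
    ← Complex.integral_comp_polarCoord_symm]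
  have htar : polarCoord.target = Set.Ioi (0 : ℝ) ×ˢ Set.Ioo (-Real.pi) Real.pi := rfl
  have hsub : Set.Ioo (0 : ℝ) δ ×ˢ Set.Ioo (-Real.pi) Real.pi ⊆ polarCoord.target := by
    rw [htar]
    exact Set.prod_mono (fun x hx => hx.1) le_rfl
  have hm : MeasurableSet (Set.Ioo (0 : ℝ) δ ×ˢ Set.Ioo (-Real.pi) Real.pi) :=
    measurableSet_Ioo.prod measurableSet_Ioo
  have e2 := setIntegral_indicator (μ := (volume : Measure (ℝ × ℝ))) (s := polarCoord.target) hm
    (f := fun p : ℝ × ℝ => p.1 * ‖f (w + p.1 * (Real.cos p.2 + Real.sin p.2 * I))‖)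
  rw [Set.inter_eq_self_of_subset_right hsub] at e2
  rw [← e2]
  apply setIntegral_congr_fun polarCoord.open_target.measurableSet
  intro p hp
  rw [htar] at hp
  have hp1 : 0 < p.1 := hp.1
  have hn : ‖Complex.polarCoord.symm p‖ = p.1 := by
    rw [Complex.norm_polarCoord_symm, abs_of_pos hp1]
  simp only
  by_cases h : p.1 < δ
  · rw [Set.indicator_of_mem (show p ∈ Set.Ioo (0 : ℝ) δ ×ˢ Set.Ioo (-Real.pi) Real.pi from
      ⟨⟨hp1, h⟩, hp.2⟩), Set.indicator_of_mem, Complex.polarCoord_symm_apply, smul_eq_mul]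
    rw [Metric.mem_ball, dist_eq_norm, add_sub_cancel_left, hn]
    exact h
  · rw [Set.indicator_of_notMem (fun hh => h hh.1.2), Set.indicator_of_notMem, smul_zero]
    rw [Metric.mem_ball, dist_eq_norm, add_sub_cancel_left, hn]
    exact h

/-- the integral over the square as an iterated integral -/
private lemma dn_sub_sq (f : ℂ → ℂ) (hf : Differentiable ℂ f) (w : ℂ) (δ : ℝ) (hδ : 0 < δ) :
    ∫ z : ℂ, (Metric.ball w δ).indicator (fun z => ‖f z‖) z ≤
      ∫ σ in (w.re - δ)..(w.re + δ), ∫ y in (w.im - δ)..(w.im + δ), ‖f (σ + y * I)‖ := by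
  have hfc := hf.continuous
  set Q : Set (ℝ × ℝ) := Set.Ioc (w.re - δ) (w.re + δ) ×ˢ Set.Ioc (w.im - δ) (w.im + δ) with hQ
  have hQm : MeasurableSet Q := measurableSet_Ioc.prod measurableSet_Ioc
  have hgc : Continuous (fun p : ℝ × ℝ => ‖f (p.1 + p.2 * I)‖) := by fun_prop
  have hQi : IntegrableOn (fun p : ℝ × ℝ => ‖f (p.1 + p.2 * I)‖) Q volume := by
    apply (hgc.continuousOn.integrableOn_compact
      ((isCompact_Icc (a := w.re - δ) (b := w.re + δ)).prod
        (isCompact_Icc (a := w.im - δ) (b := w.im + δ)))).mono_set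
    exact Set.prod_mono Set.Ioc_subset_Icc_self Set.Ioc_subset_Icc_self
  have e1 : ∫ z : ℂ, (Metric.ball w δ).indicator (fun z => ‖f z‖) z =
      ∫ p : ℝ × ℝ, (Metric.ball w δ).indicator (fun z => ‖f z‖)
        (measurableEquivRealProd.symm p) :=
    ((Complex.volume_preserving_equiv_real_prod.symm).integral_comp
      measurableEquivRealProd.symm.measurableEmbedding _).symm
  rw [e1]
  have hle : ∫ p : ℝ × ℝ, (Metric.ball w δ).indicator (fun z => ‖f z‖)
        (measurableEquivRealProd.symm p) ≤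
      ∫ p : ℝ × ℝ, Q.indicator (fun p : ℝ × ℝ => ‖f (p.1 + p.2 * I)‖) p := by
    apply integral_mono_of_nonneg
    · refine Filter.Eventually.of_forall fun p => ?_
      exact Set.indicator_nonneg (fun _ _ => norm_nonneg _) _
    · exact hQi.integrable_indicator hQm
    · refine Filter.Eventually.of_forall fun p => ?_
      simp only
      have hsym : measurableEquivRealProd.symm p = (p.1 : ℂ) + p.2 * I := by
        apply Complex.ext <;> simp [measurableEquivRealProd]
      rw [hsym]
      by_cases h : (p.1 : ℂ) + p.2 * I ∈ Metric.ball w δ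
      · rw [Set.indicator_of_mem h, Set.indicator_of_mem]
        rw [Metric.mem_ball, dist_eq_norm] at h
        have hre := lt_of_le_of_lt (Complex.abs_re_le_norm _) h
        have him := lt_of_le_of_lt (Complex.abs_im_le_norm _) h
        simp only [sub_re, add_re, ofReal_re, mul_re, I_re, mul_zero, ofReal_im, I_im, mul_one,
          sub_self, add_zero, sub_im, add_im, mul_im, zero_add] at hre him
        rw [abs_lt] at hre him
        exact ⟨⟨by linarith [hre.1], by linarith [hre.2]⟩,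
          ⟨by linarith [him.1], by linarith [him.2]⟩⟩
      · rw [Set.indicator_of_notMem h]
        exact Set.indicator_nonneg (fun _ _ => norm_nonneg _) _
  refine le_trans hle (le_of_eq ?_)
  rw [integral_indicator hQm, hQ, Measure.volume_eq_prod, setIntegral_prod _ (by
    rw [← Measure.volume_eq_prod]; exact hQi)]
  rw [intervalIntegral.integral_of_le (by linarith)]
  apply setIntegral_congr_fun measurableSet_Ioc
  intro x _
  simp only
  rw [intervalIntegral.integral_of_le (by linarith)]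

theorem p_sub : S_sub := by
  intro f w δ hf hδ
  have h := le_trans (dn_sub_disc f hf w δ hδ) (dn_sub_sq f hf w δ hδ)
  have hpi : (1 : ℝ) ≤ Real.pi := by linarith [Real.pi_gt_three]
  have h2 : δ ^ 2 * ‖f w‖ ≤ Real.pi * δ ^ 2 * ‖f w‖ := by
    have : 0 ≤ δ ^ 2 * ‖f w‖ := by positivity
    nlinarith
  rw [div_mul_eq_mul_div, one_mul, le_div_iff₀ (by positivity)]
  calc ‖f w‖ * δ ^ 2 = δ ^ 2 * ‖f w‖ := mul_comm _ _
    _ ≤ _ := le_trans h2 h

end Pool.Agent.Lib.MP_cd509c_nt.DN
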