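import Pool.Agent.Lib.MP_cd509c_nt.DN.Defs

/-!
# Piece symR: symmetry of the normalised function
-/

set_option autoImplicit false

namespace Pool.Agent.Lib.MP_cd509c_nt.DN

open Complex ComplexConjugate MeasureTheory

lemma dn_symR_la (x a l : ℝ) (z : ℂ) :
    la (a * l) (Rx x a l) z = Lam (s0 x + a * z) / m0 x := by
  unfold la Rx
  have h : cexp (((a * l : ℝ) : ℂ) * z) * cexp (-((a * l : ℝ) : ℂ) * z) = 1 := by
    rw [← Complex.exp_add]
    have : ((a * l : ℝ) : ℂ) * z + -((a * l : ℝ) : ℂ) * z = 0 := by ring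
    rw [this, Complex.exp_zero]
  calc cexp (((a * l : ℝ) : ℂ) * z) * (Lam (s0 x + a * z) / m0 x * cexp (-((a * l : ℝ) : ℂ) * z))
      = (cexp (((a * l : ℝ) : ℂ) * z) * cexp (-((a * l : ℝ) : ℂ) * z)) *
          (Lam (s0 x + a * z) / m0 x) := by ring
    _ = Lam (s0 x + a * z) / m0 x := by rw [h, one_mul]

lemma dn_symR_Lam (x a : ℝ) (z : ℂ) :
    Lam (s0 x + a * (-conj z)) = conj (Lam (s0 x + a * z)) := by
  rw [← Lam_conj, ← Lam_symm']
  congr 1
  unfold s0
  simp only [map_add, map_mul, Complex.conj_ofReal, Complex.conj_I]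
  have h6 : conj (6 : ℂ) = 6 := by
    have := Complex.conj_ofReal 6
    simpa using this
  rw [h6]
  ring

theorem p_symR : S_symR := by
  intro x a l
  by_cases h0 : m0 x = 0
  · refine ⟨1, norm_one, ?_⟩
    intro z
    rw [dn_symR_la, dn_symR_la, h0]
    simp
  · refine ⟨conj (m0 x) / m0 x, ?_, ?_⟩
    · rw [norm_div, RCLike.norm_conj]
      exact div_self (norm_ne_zero_iff.2 h0)
    · intro z
      rw [dn_symR_la, dn_symR_la, dn_symR_Lam, map_div₀]
      have h1 : conj (m0 x) ≠ 0 := by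
        intro h
        exact h0 (by simpa using h)
      field_simp

end Pool.Agent.Lib.MP_cd509c_nt.DN
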