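import Pool.Agent.Lib.MP_cd509c_nt.DN.Defs2
import Pool.Agent.Lib.MP_cd509c_nt.MeanSq

/-!
# Project DN, piece tauE: the exponential sum of `|tau|`

Cauchy-Schwarz with the mean square bound at `y / 2`.
-/

set_option autoImplicit false

namespace Pool.Agent.Lib.MP_cd509c_nt.DN

open Complex Filter Topology

/-- the geometric sum -/
lemma dn_tauE_geom {y : ℝ} (hy : 0 < y) (N : ℕ) :
    ∑ m ∈ Finset.Icc 1 N, Real.exp (-(2 * Real.pi * m * y)) ≤ 1 / (2 * Real.pi * y) := by
  have hx : 0 < 2 * Real.pi * y := by positivity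
  set r := Real.exp (-(2 * Real.pi * y)) with hr
  have hr0 : 0 < r := Real.exp_pos _
  have hr1 : r < 1 := by rw [hr, Real.exp_lt_one_iff]; linarith
  have h1 : ∀ m : ℕ, Real.exp (-(2 * Real.pi * m * y)) = r ^ m := by
    intro m
    rw [hr, ← Real.exp_nat_mul]
    congr 1
    ring
  simp_rw [h1]
  have h2 : ∑ m ∈ Finset.Icc 1 N, r ^ m ≤ r / (1 - r) := by
    have h3 : ∑ m ∈ Finset.Icc 1 N, r ^ m ≤ ∑ m ∈ Finset.range N, r * r ^ m := by
      rw [show Finset.Icc 1 N = (Finset.range N).image (fun m => m + 1) from by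
        ext m
        simp only [Finset.mem_Icc, Finset.mem_image, Finset.mem_range]
        constructor
        · rintro ⟨h1, h2⟩
          exact ⟨m - 1, by omega, by omega⟩
        · rintro ⟨a, ha, rfl⟩
          omega]
      rw [Finset.sum_image (fun a _ b _ h => by simpa using h)]
      exact le_of_eq (Finset.sum_congr rfl fun m _ => by rw [pow_succ, mul_comm])
    refine h3.trans ?_
    rw [← Finset.mul_sum]
    have h4 : ∑ m ∈ Finset.range N, r ^ m ≤ 1 / (1 - r) := by
      rw [le_div_iff₀ (by linarith)]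
      have h5 := geom_sum_mul_neg r N
      rw [h5]
      have : 0 ≤ r ^ N := by positivity
      linarith
    calc r * ∑ m ∈ Finset.range N, r ^ m ≤ r * (1 / (1 - r)) := mul_le_mul_of_nonneg_left h4 hr0.le
      _ = r / (1 - r) := by ring
  refine h2.trans ?_
  rw [div_le_div_iff₀ (by linarith) hx, one_mul]
  have h6 : 1 + 2 * Real.pi * y ≤ Real.exp (2 * Real.pi * y) := by
    have := Real.add_one_le_exp (2 * Real.pi * y)
    linarith
  have h7 : r * Real.exp (2 * Real.pi * y) = 1 := by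
    rw [hr, ← Real.exp_add]
    simp
  have h8 := mul_le_mul_of_nonneg_left h6 hr0.le
  rw [h7] at h8
  linarith

theorem p_tauE : S_tauE := by
  obtain ⟨C, hC, hb⟩ := Dc_bound
  refine ⟨64 * C, by positivity, fun y hy => ?_⟩
  have hy2 : 0 < y / 2 := by positivity
  set B : ℝ := 64 * C * y ^ (-6 : ℝ) * (1 + y ^ (-(1 / 2) : ℝ)) with hB
  have hB0 : 0 ≤ B := by positivity
  have hfin : ∀ N : ℕ, ∑ m ∈ Finset.Icc 1 N, ‖tau m‖ * Real.exp (-(2 * Real.pi * m * y)) ≤ B := by
    intro N
    have hCS := Finset.sum_mul_sq_le_sq_mul_sq (Finset.Icc 1 N)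
      (fun m => ‖tau m‖ * Real.exp (-2 * Real.pi * m * (y / 2)))
      (fun m => Real.exp (-2 * Real.pi * m * (y / 2)))
    have h1 : ∀ m : ℕ, (‖tau m‖ * Real.exp (-2 * Real.pi * m * (y / 2))) *
        Real.exp (-2 * Real.pi * m * (y / 2)) = ‖tau m‖ * Real.exp (-(2 * Real.pi * m * y)) := by
      intro m
      rw [mul_assoc, ← Real.exp_add]
      congr 2
      ring
    have h2 : ∀ m : ℕ, Real.exp (-2 * Real.pi * m * (y / 2)) ^ 2 =
        Real.exp (-(2 * Real.pi * m * y)) := by
      intro m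
      rw [sq, ← Real.exp_add]
      congr 1
      ring
    simp_rw [h1, h2] at hCS
    have h3 := sum_sq N hy2 hC hb
    have h4 := dn_tauE_geom hy N
    have h5 : (∑ m ∈ Finset.Icc 1 N, ‖tau m‖ * Real.exp (-(2 * Real.pi * m * y))) ^ 2 ≤
        (C / (y / 2) ^ 6) ^ 2 * (1 / (2 * Real.pi * y)) :=
      hCS.trans (mul_le_mul h3 h4 (Finset.sum_nonneg fun _ _ => (Real.exp_pos _).le) (by positivity))
    have h6 : (C / (y / 2) ^ 6) ^ 2 * (1 / (2 * Real.pi * y)) ≤ B ^ 2 := by
      have e1 : C / (y / 2) ^ 6 = 64 * C * y ^ (-6 : ℝ) := by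
        rw [Real.rpow_neg hy.le]
        have : y ^ (6 : ℝ) = y ^ 6 := by
          rw [show (6 : ℝ) = ((6 : ℕ) : ℝ) by norm_num, Real.rpow_natCast]
        rw [this]
        field_simp
        norm_num
      have e2 : 1 / (2 * Real.pi * y) ≤ (1 + y ^ (-(1 / 2) : ℝ)) ^ 2 := by
        have e3 : (y ^ (-(1 / 2) : ℝ)) ^ 2 = 1 / y := by
          rw [← Real.rpow_natCast, ← Real.rpow_mul hy.le]
          norm_num
          rw [Real.rpow_neg_one]
        have e4 : 0 ≤ y ^ (-(1 / 2) : ℝ) := by positivity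
        have e5 : 1 / (2 * Real.pi * y) ≤ 1 / y := by
          apply one_div_le_one_div_of_le hy
          have := Real.pi_gt_three
          nlinarith
        have e6 : (1 + y ^ (-(1 / 2) : ℝ)) ^ 2 = 1 + 2 * y ^ (-(1 / 2) : ℝ) +
            (y ^ (-(1 / 2) : ℝ)) ^ 2 := by ring
        rw [e6, e3]
        linarith
      rw [e1, hB, mul_pow (64 * C * y ^ (-6 : ℝ))]
      exact mul_le_mul_of_nonneg_left e2 (by positivity)
    exact le_of_sq_le_sq (h5.trans h6) hB0
  have hnn : ∀ m : ℕ, 0 ≤ ‖tau m‖ * Real.exp (-(2 * Real.pi * m * y)) := fun m => by positivity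
  have hrange : ∀ N : ℕ, ∑ m ∈ Finset.range N, ‖tau m‖ * Real.exp (-(2 * Real.pi * m * y)) ≤ B := by
    intro N
    refine le_trans ?_ (hfin N)
    have h1 : ∑ m ∈ Finset.range N, ‖tau m‖ * Real.exp (-(2 * Real.pi * m * y)) ≤
        ∑ m ∈ insert 0 (Finset.Icc 1 N), ‖tau m‖ * Real.exp (-(2 * Real.pi * m * y)) := by
      apply Finset.sum_le_sum_of_subset_of_nonneg
      · intro m hm
        have := Finset.mem_range.1 hm
        rcases Nat.eq_zero_or_pos m with h | h
        · simp [h]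
        · exact Finset.mem_insert_of_mem (Finset.mem_Icc.2 ⟨h, this.le⟩)
      · intro m _ _
        exact hnn m
    rw [Finset.sum_insert (by simp), tau_zero, norm_zero, zero_mul, zero_add] at h1
    exact h1
  exact ⟨summable_of_sum_range_le hnn hrange, Real.tsum_le_of_sum_range_le hnn hrange⟩

end Pool.Agent.Lib.MP_cd509c_nt.DN
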