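import Pool.Agent.Lib.MP_cd509c_nt.DN.Defs

set_option autoImplicit false

/-!
Project DN, section C: the three lines theorem in mean.
-/

namespace Pool.Agent.Lib.MP_cd509c_nt.DN

open Complex ComplexConjugate MeasureTheory
open Complex.HadamardThreeLines

/-- the unimodular weight -/
noncomputable def dn_thrL_k (f : ℂ → ℂ) (σ : ℝ) (y : ℝ) : ℂ :=
  conj (f (σ + y * I)) / (‖f (σ + y * I)‖ : ℂ)

lemma dn_thrL_k_norm (f : ℂ → ℂ) (σ y : ℝ) : ‖dn_thrL_k f σ y‖ ≤ 1 := by
  unfold dn_thrL_k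
  rw [norm_div, RCLike.norm_conj, Complex.norm_real, norm_norm]
  exact div_self_le_one _

lemma dn_thrL_k_mul (f : ℂ → ℂ) (σ y : ℝ) :
    f (σ + y * I) * dn_thrL_k f σ y = (‖f (σ + y * I)‖ : ℂ) := by
  unfold dn_thrL_k
  by_cases h : f (σ + y * I) = 0
  · rw [h]; simp
  · have h1 : (‖f (σ + y * I)‖ : ℂ) ≠ 0 := by
      exact_mod_cast norm_ne_zero_iff.2 h
    rw [← mul_div_assoc, Complex.mul_conj, div_eq_iff h1, Complex.normSq_eq_norm_sq]
    push_cast
    ring

lemma dn_thrL_line (w : ℂ) : Continuous (fun y : ℝ => w + (y : ℂ) * I) := by fun_prop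

lemma dn_thrL_k_meas {f : ℂ → ℂ} (hf : Continuous f) (σ : ℝ) : Measurable (dn_thrL_k f σ) := by
  have h1 : Continuous (fun y : ℝ => f (σ + y * I)) := hf.comp (dn_thrL_line σ)
  unfold dn_thrL_k
  have h2 : Measurable (fun y : ℝ => conj (f (σ + y * I))) :=
    (Complex.continuous_conj.comp h1).measurable
  have h3 : Measurable (fun y : ℝ => (‖f (σ + y * I)‖ : ℂ)) :=
    (Complex.continuous_ofReal.comp h1.norm).measurable
  exact h2.div h3

/-- the average -/
noncomputable def dn_thrL_P (f : ℂ → ℂ) (σ T : ℝ) (w : ℂ) : ℂ :=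
  ∫ y in (T / 2)..(4 * T), f (w + y * I) * dn_thrL_k f σ y

lemma dn_thrL_int {g : ℝ → ℂ} (hg : Continuous g) {k : ℝ → ℂ} (hk : Measurable k)
    (hk1 : ∀ y, ‖k y‖ ≤ 1) (a b : ℝ) : IntervalIntegrable (fun y => g y * k y) volume a b := by
  have h1 : IntervalIntegrable (fun y => ‖g y‖) volume a b := hg.norm.intervalIntegrable a b
  refine h1.mono_fun' ?_ ?_
  · exact (hg.measurable.mul hk).aestronglyMeasurable
  · filter_upwards with y
    rw [norm_mul]
    exact mul_le_of_le_one_right (norm_nonneg _) (hk1 y)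

lemma dn_thrL_P_diff {f : ℂ → ℂ} (hf : Differentiable ℂ f) (σ : ℝ) {T : ℝ} (hT : 2 ≤ T) :
    Differentiable ℂ (dn_thrL_P f σ T) := by
  have hd : Differentiable ℂ (deriv f) := by
    have := hf.contDiff (n := 2)
    exact ((contDiff_succ_iff_deriv (n := 1)).1 this).2.2.differentiable (by norm_num)
  intro w₀
  have hkm := dn_thrL_k_meas hf.continuous σ
  have hk1 := dn_thrL_k_norm f σ
  obtain ⟨M, hM⟩ := (isCompact_closedBall (0 : ℂ) (‖w₀‖ + 1 + 4 * T)).exists_bound_of_continuousOn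
    hd.continuous.continuousOn
  have hmain := intervalIntegral.hasDerivAt_integral_of_dominated_loc_of_deriv_le
    (𝕜 := ℂ) (μ := volume) (a := T / 2) (b := 4 * T)
    (F := fun w y => f (w + y * I) * dn_thrL_k f σ y)
    (F' := fun w y => deriv f (w + y * I) * dn_thrL_k f σ y) (x₀ := w₀)
    (s := Metric.ball w₀ 1) (bound := fun _ => M) (Metric.ball_mem_nhds _ one_pos)
    (Filter.Eventually.of_forall fun w =>
      ((hf.continuous.comp (dn_thrL_line w)).measurable.mul hkm).aestronglyMeasurable)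
    (dn_thrL_int (hf.continuous.comp (dn_thrL_line w₀)) hkm hk1 _ _)
    ((hd.continuous.comp (dn_thrL_line w₀)).measurable.mul hkm).aestronglyMeasurable
    (by
      filter_upwards with y hy w hw
      rw [norm_mul]
      have h1 : ‖deriv f (w + y * I)‖ ≤ M := by
        apply hM
        rw [Metric.mem_closedBall, dist_zero_right]
        rw [Set.uIoc_of_le (by linarith)] at hy
        have h2 : ‖w‖ ≤ ‖w₀‖ + 1 := by
          rw [Metric.mem_ball, dist_eq_norm] at hw
          have h3 : ‖w‖ ≤ ‖w - w₀‖ + ‖w₀‖ := by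
            calc ‖w‖ = ‖(w - w₀) + w₀‖ := by ring_nf
              _ ≤ _ := norm_add_le _ _
          linarith
        have h4 : ‖(y : ℂ) * I‖ = y := by
          rw [norm_mul, Complex.norm_I, mul_one, Complex.norm_real, Real.norm_of_nonneg]
          linarith [hy.1]
        calc ‖w + y * I‖ ≤ ‖w‖ + ‖(y : ℂ) * I‖ := norm_add_le _ _
          _ ≤ _ := by rw [h4]; linarith [hy.2]
      exact (mul_le_of_le_one_right (norm_nonneg _) (hk1 y)).trans h1)
    intervalIntegrable_const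
    (by
      filter_upwards with y hy w hw
      have h1 : HasDerivAt (fun w : ℂ => w + (y : ℂ) * I) 1 w :=
        (hasDerivAt_id w).add_const _
      have h2 : HasDerivAt (fun w : ℂ => f (w + y * I)) (deriv f (w + y * I) * 1) w :=
        (hf _).hasDerivAt.comp w h1
      rw [mul_one] at h2
      exact h2.mul_const _)
  exact hmain.2.differentiableAt

lemma dn_thrL_P_le {f : ℂ → ℂ} (hf : Continuous f) (σ : ℝ) {T : ℝ} (hT : 2 ≤ T) (w : ℂ) :
    ‖dn_thrL_P f σ T w‖ ≤ ∫ y in (T / 2)..(4 * T), ‖f (w + y * I)‖ := by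
  unfold dn_thrL_P
  have h1 : T / 2 ≤ 4 * T := by linarith
  refine (intervalIntegral.norm_integral_le_integral_norm h1).trans ?_
  have h2 : Continuous (fun y : ℝ => f (w + y * I)) := hf.comp (dn_thrL_line w)
  refine intervalIntegral.integral_mono_on h1
    (dn_thrL_int h2 (dn_thrL_k_meas hf σ) (dn_thrL_k_norm f σ) _ _).norm
    (h2.norm.intervalIntegrable _ _) ?_
  intro y _
  rw [norm_mul]
  exact mul_le_of_le_one_right (norm_nonneg _) (dn_thrL_k_norm f σ y)

lemma dn_thrL_pow (v : ℝ) : |v| ^ 9 ≤ 121 * Real.exp (v ^ 2) := by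
  have h1 := Real.pow_div_factorial_le_exp (v ^ 2) (sq_nonneg v) 5
  have h2 : (1 : ℝ) ≤ Real.exp (v ^ 2) := Real.one_le_exp (sq_nonneg v)
  have h3 : ((Nat.factorial 5 : ℕ) : ℝ) = 120 := by norm_num [Nat.factorial]
  rw [h3, div_le_iff₀ (by norm_num)] at h1
  have h4 : (v ^ 2) ^ 5 = |v| ^ 10 := by
    rw [← sq_abs]; ring
  rw [h4] at h1
  have h0 : 0 ≤ |v| := abs_nonneg v
  rcases le_total |v| 1 with h5 | h5
  · have h6 : |v| ^ 9 ≤ 1 := pow_le_one₀ h0 h5
    linarith
  · have h6 : |v| ^ 9 ≤ |v| ^ 10 := pow_le_pow_right₀ h5 (by norm_num)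
    linarith

lemma dn_thrL_pow8 (v : ℝ) : (1 + |v|) ^ 8 ≤ 16 * 24 * 3 * Real.exp (v ^ 2) := by
  have h1 := Real.pow_div_factorial_le_exp (1 + v ^ 2) (by positivity) 4
  have h3 : ((Nat.factorial 4 : ℕ) : ℝ) = 24 := by norm_num [Nat.factorial]
  rw [h3, div_le_iff₀ (by norm_num), Real.exp_add] at h1
  have h2 : Real.exp 1 ≤ 3 := by
    have := Real.exp_one_lt_d9
    linarith
  have h4 : (1 + |v|) ^ 2 ≤ 2 * (1 + v ^ 2) := by
    rw [← sq_abs v]
    nlinarith [sq_nonneg (1 - |v|)]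
  have h5 : (1 + |v|) ^ 8 ≤ (2 * (1 + v ^ 2)) ^ 4 := by
    calc (1 + |v|) ^ 8 = ((1 + |v|) ^ 2) ^ 4 := by ring
      _ ≤ _ := pow_le_pow_left₀ (sq_nonneg _) h4 4
  have h6 : (2 * (1 + v ^ 2)) ^ 4 = 16 * (1 + v ^ 2) ^ 4 := by ring
  have h7 : 0 < Real.exp (v ^ 2) := Real.exp_pos _
  nlinarith

theorem p_thrL : S_3L := by
  set C₁ : ℝ := 28 * 41 ^ 8 * 121 with hC₁
  have hC1 : 1 ≤ C₁ := by rw [hC₁]; norm_num
  refine ⟨11 * C₁, by positivity, ?_⟩
  intro f T G A₀ A₁ hT hG hA₀ hA₁ hf h1 h2 h3 σ hσ0 hσ1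
  have hT0 : 0 < T := by linarith
  have hTT : T / 2 ≤ 4 * T := by linarith
  set K : ℂ → ℂ := fun w => cexp (w ^ 2) * dn_thrL_P f σ T w with hK
  have hPd := dn_thrL_P_diff hf σ hT
  have hKd : Differentiable ℂ K := by
    intro w
    exact ((differentiable_id.pow 2).cexp w).mul (hPd w)
  have hnorm : ∀ w : ℂ, ‖cexp (w ^ 2)‖ = Real.exp (w.re ^ 2 - w.im ^ 2) := by
    intro w
    rw [Complex.norm_exp]
    congr 1
    rw [pow_two]
    simp only [mul_re]
    ring
  -- crude bound for the average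
  have hcr : ∀ w : ℂ, 0 ≤ w.re → w.re ≤ 1 →
      ‖dn_thrL_P f σ T w‖ ≤ G * (2 + |w.im| + 4 * T) ^ 8 * (4 * T - T / 2) := by
    intro w hw0 hw1
    refine (dn_thrL_P_le hf.continuous σ hT w).trans ?_
    have hc : Continuous (fun y : ℝ => f (w + y * I)) := hf.continuous.comp (dn_thrL_line w)
    have h4 : ∀ y ∈ Set.Icc (T / 2) (4 * T), ‖f (w + y * I)‖ ≤
        G * (2 + |w.im| + 4 * T) ^ 8 := by
      intro y hy
      have h5 := h1 (w + y * I) (by simpa using hw0) (by simpa using hw1)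
      refine h5.trans ?_
      apply mul_le_mul_of_nonneg_left _ hG.le
      apply pow_le_pow_left₀ (by positivity)
      have h6 : (w + y * I).im = w.im + y := by simp
      rw [h6]
      have h7 : |w.im + y| ≤ |w.im| + |y| := abs_add_le _ _
      have h8 : |y| ≤ 4 * T := by
        rw [abs_of_nonneg (by linarith [hy.1])]
        exact hy.2
      linarith
    calc ∫ y in (T / 2)..(4 * T), ‖f (w + y * I)‖
        ≤ ∫ _y in (T / 2)..(4 * T), G * (2 + |w.im| + 4 * T) ^ 8 :=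
          intervalIntegral.integral_mono_on hTT (hc.norm.intervalIntegrable _ _)
            intervalIntegrable_const h4
      _ = _ := by rw [intervalIntegral.integral_const, smul_eq_mul]; ring
  -- boundedness
  have hBdd : BddAbove ((norm ∘ K) '' verticalClosedStrip 0 1) := by
    refine ⟨3 * (G * ((2 + 4 * T) ^ 8 * (16 * 24 * 3)) * (4 * T - T / 2)), ?_⟩
    rintro _ ⟨w, hw, rfl⟩
    have hw' : w.re ∈ Set.Icc (0 : ℝ) 1 := hw
    simp only [Function.comp_apply, hK]
    rw [norm_mul, hnorm]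
    have h4 := hcr w hw'.1 hw'.2
    have h5 : Real.exp (w.re ^ 2 - w.im ^ 2) ≤ 3 * Real.exp (-w.im ^ 2) := by
      rw [sub_eq_add_neg, Real.exp_add]
      apply mul_le_mul_of_nonneg_right _ (Real.exp_pos _).le
      have h6 : w.re ^ 2 ≤ 1 := by nlinarith [hw'.1, hw'.2]
      have h7 : Real.exp (w.re ^ 2) ≤ Real.exp 1 := Real.exp_le_exp.2 h6
      have := Real.exp_one_lt_d9
      linarith
    have h8 : (2 + |w.im| + 4 * T) ^ 8 ≤
        (2 + 4 * T) ^ 8 * (16 * 24 * 3 * Real.exp (w.im ^ 2)) := by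
      calc (2 + |w.im| + 4 * T) ^ 8 ≤ ((2 + 4 * T) * (1 + |w.im|)) ^ 8 := by
            apply pow_le_pow_left₀ (by positivity)
            have := abs_nonneg w.im
            nlinarith
        _ = (2 + 4 * T) ^ 8 * (1 + |w.im|) ^ 8 := by ring
        _ ≤ _ := mul_le_mul_of_nonneg_left (dn_thrL_pow8 _) (by positivity)
    have h9 : Real.exp (-w.im ^ 2) * Real.exp (w.im ^ 2) = 1 := by
      rw [← Real.exp_add]; simp
    calc Real.exp (w.re ^ 2 - w.im ^ 2) * ‖dn_thrL_P f σ T w‖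
        ≤ (3 * Real.exp (-w.im ^ 2)) * (G * ((2 + 4 * T) ^ 8 *
          (16 * 24 * 3 * Real.exp (w.im ^ 2))) * (4 * T - T / 2)) := by
          apply mul_le_mul h5 (h4.trans _) (norm_nonneg _) (by positivity)
          apply mul_le_mul_of_nonneg_right _ (by linarith)
          exact mul_le_mul_of_nonneg_left h8 hG.le
      _ = 3 * (G * ((2 + 4 * T) ^ 8 * (16 * 24 * 3)) * (4 * T - T / 2)) *
          (Real.exp (-w.im ^ 2) * Real.exp (w.im ^ 2)) := by ring
      _ = _ := by rw [h9, mul_one]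
  -- left edge
  have hleft : ∀ w ∈ re ⁻¹' {(0 : ℝ)}, ‖K w‖ ≤ A₀ + C₁ * G := by
    intro w hw
    have hw0 : w.re = 0 := hw
    simp only [hK]
    rw [norm_mul, hnorm, hw0]
    have hwI : w = ((w.im : ℝ) : ℂ) * I := by
      apply Complex.ext <;> simp [hw0]
    have hexp : Real.exp ((0 : ℝ) ^ 2 - w.im ^ 2) = Real.exp (-(w.im ^ 2)) := by
      congr 1; ring
    rw [hexp]
    have hCG : 0 ≤ C₁ * G := by positivity
    rcases le_or_gt |w.im| (T / 8) with h4 | h4
    · have h5 := h2 w.im h4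
      have h6 : ‖dn_thrL_P f σ T w‖ ≤ A₀ := by
        refine (dn_thrL_P_le hf.continuous σ hT w).trans (le_trans (le_of_eq ?_) h5)
        apply intervalIntegral.integral_congr
        intro y _
        simp only
        congr 2
        conv_lhs => rw [hwI]
        push_cast
        ring
      have h7 : Real.exp (-(w.im ^ 2)) ≤ 1 := Real.exp_le_one_iff.2 (by nlinarith)
      calc Real.exp (-(w.im ^ 2)) * ‖dn_thrL_P f σ T w‖ ≤ 1 * A₀ :=
            mul_le_mul h7 h6 (norm_nonneg _) zero_le_one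
        _ ≤ _ := by linarith
    · have h5 := hcr w (by rw [hw0]) (by rw [hw0]; norm_num)
      have h6 : G * (2 + |w.im| + 4 * T) ^ 8 * (4 * T - T / 2) ≤
          G * (41 * |w.im|) ^ 8 * (28 * |w.im|) := by
        apply mul_le_mul _ (by linarith) (by linarith) (by positivity)
        apply mul_le_mul_of_nonneg_left _ hG.le
        apply pow_le_pow_left₀ (by positivity)
        linarith
      have h7 : G * (41 * |w.im|) ^ 8 * (28 * |w.im|) = 28 * 41 ^ 8 * G * |w.im| ^ 9 := by ring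
      have h8 := dn_thrL_pow w.im
      have h9 : Real.exp (-(w.im ^ 2)) * Real.exp (w.im ^ 2) = 1 := by
        rw [← Real.exp_add]; simp
      calc Real.exp (-(w.im ^ 2)) * ‖dn_thrL_P f σ T w‖
          ≤ Real.exp (-(w.im ^ 2)) * (28 * 41 ^ 8 * G * (121 * Real.exp (w.im ^ 2))) := by
            apply mul_le_mul_of_nonneg_left _ (Real.exp_pos _).le
            refine h5.trans (h6.trans (h7.le.trans ?_))
            exact mul_le_mul_of_nonneg_left h8 (by positivity)
        _ = C₁ * G * (Real.exp (-(w.im ^ 2)) * Real.exp (w.im ^ 2)) := by rw [hC₁]; ring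
        _ = C₁ * G := by rw [h9, mul_one]
        _ ≤ _ := by linarith
  -- right edge
  have hright : ∀ w ∈ re ⁻¹' {(1 : ℝ)}, ‖K w‖ ≤ 11 * (T * A₁) := by
    intro w hw
    have hw1 : w.re = 1 := hw
    simp only [hK]
    rw [norm_mul, hnorm, hw1]
    have h4 : Real.exp ((1 : ℝ) ^ 2 - w.im ^ 2) ≤ 3 := by
      have h5 : Real.exp ((1 : ℝ) ^ 2 - w.im ^ 2) ≤ Real.exp 1 :=
        Real.exp_le_exp.2 (by nlinarith [sq_nonneg w.im])
      have := Real.exp_one_lt_d9
      linarith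
    have hc : Continuous (fun y : ℝ => f (w + y * I)) := hf.continuous.comp (dn_thrL_line w)
    have h5 : ‖dn_thrL_P f σ T w‖ ≤ A₁ * (4 * T - T / 2) := by
      refine (dn_thrL_P_le hf.continuous σ hT w).trans ?_
      calc ∫ y in (T / 2)..(4 * T), ‖f (w + y * I)‖ ≤ ∫ _y in (T / 2)..(4 * T), A₁ :=
            intervalIntegral.integral_mono_on hTT (hc.norm.intervalIntegrable _ _)
              intervalIntegrable_const
              (fun y _ => h3 _ (by simp [hw1]))
        _ = _ := by rw [intervalIntegral.integral_const, smul_eq_mul]; ring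
    calc Real.exp ((1 : ℝ) ^ 2 - w.im ^ 2) * ‖dn_thrL_P f σ T w‖
        ≤ 3 * (A₁ * (4 * T - T / 2)) := mul_le_mul h4 h5 (norm_nonneg _) (by norm_num)
      _ ≤ _ := by nlinarith [mul_pos hT0 hA₁]
  have hmem : ((σ : ℝ) : ℂ) ∈ verticalClosedStrip 0 1 := by
    change ((σ : ℝ) : ℂ).re ∈ Set.Icc (0 : ℝ) 1
    rw [Complex.ofReal_re]
    exact ⟨hσ0, hσ1⟩
  have key := norm_le_interp_of_mem_verticalClosedStrip' (f := K) (z := (σ : ℂ)) zero_lt_one hmem
    hKd.diffContOnCl hBdd hleft hright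
  rw [Complex.ofReal_re, sub_zero, sub_zero, div_one] at key
  -- the value at `σ`
  have hval : dn_thrL_P f σ T σ = ((∫ y in (T / 2)..(4 * T), ‖f (σ + y * I)‖ : ℝ) : ℂ) := by
    unfold dn_thrL_P
    rw [← intervalIntegral.integral_ofReal]
    apply intervalIntegral.integral_congr
    intro y _
    exact dn_thrL_k_mul f σ y
  set J : ℝ := ∫ y in (T / 2)..(4 * T), ‖f (σ + y * I)‖ with hJ
  have hJ0 : 0 ≤ J := intervalIntegral.integral_nonneg hTT (fun y _ => norm_nonneg _)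
  have hJK : J ≤ ‖K σ‖ := by
    simp only [hK]
    rw [norm_mul, hnorm, hval, Complex.norm_real, Real.norm_of_nonneg hJ0]
    have h4 : 1 ≤ Real.exp (((σ : ℝ) : ℂ).re ^ 2 - ((σ : ℝ) : ℂ).im ^ 2) := by
      apply Real.one_le_exp
      simp only [Complex.ofReal_re, Complex.ofReal_im]
      nlinarith [sq_nonneg σ]
    exact le_mul_of_one_le_left hJ0 h4
  refine hJK.trans (key.trans ?_)
  have hAG : 0 < A₀ + G := by linarith
  have h4 : (A₀ + C₁ * G) ^ (1 - σ) ≤ C₁ * (A₀ + G) ^ (1 - σ) := by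
    calc (A₀ + C₁ * G) ^ (1 - σ) ≤ (C₁ * (A₀ + G)) ^ (1 - σ) := by
          apply Real.rpow_le_rpow (by positivity) _ (by linarith)
          nlinarith
      _ = C₁ ^ (1 - σ) * (A₀ + G) ^ (1 - σ) := Real.mul_rpow (by linarith) hAG.le
      _ ≤ C₁ * (A₀ + G) ^ (1 - σ) := by
          apply mul_le_mul_of_nonneg_right _ (by positivity)
          calc C₁ ^ (1 - σ) ≤ C₁ ^ (1 : ℝ) :=
                Real.rpow_le_rpow_of_exponent_le hC1 (by linarith)
            _ = C₁ := Real.rpow_one _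
  have h5 : (11 * (T * A₁)) ^ σ ≤ 11 * (T * A₁) ^ σ := by
    calc (11 * (T * A₁)) ^ σ = 11 ^ σ * (T * A₁) ^ σ := Real.mul_rpow (by norm_num) (by positivity)
      _ ≤ 11 * (T * A₁) ^ σ := by
          apply mul_le_mul_of_nonneg_right _ (by positivity)
          calc (11 : ℝ) ^ σ ≤ 11 ^ (1 : ℝ) :=
                Real.rpow_le_rpow_of_exponent_le (by norm_num) hσ1
            _ = 11 := Real.rpow_one _
  calc (A₀ + C₁ * G) ^ (1 - σ) * (11 * (T * A₁)) ^ σ
      ≤ (C₁ * (A₀ + G) ^ (1 - σ)) * (11 * (T * A₁) ^ σ) :=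
        mul_le_mul h4 h5 (by positivity) (by positivity)
    _ = 11 * C₁ * (A₀ + G) ^ (1 - σ) * (T * A₁) ^ σ := by ring

end Pool.Agent.Lib.MP_cd509c_nt.DN
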