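import Mathlib
import Pool.Agent.Lib.MP_cd509c_nt.DN.Defs2

/-!
# Multiplicativity, recursion and reality of `tau`
-/

set_option autoImplicit false

namespace Pool.Agent.Lib.MP_cd509c_nt.DN

open Complex ComplexConjugate MeasureTheory

theorem dn_tm_rec {p : ℕ} (hp : p.Prime) (j : ℕ) :
    tau (p ^ (j + 2)) = tau p * tau (p ^ (j + 1)) - (p : ℂ) ^ 11 * tau (p ^ j) := by
  have h := hecke' hp (p ^ (j + 1))
  have h1 : p ∣ p ^ (j + 1) := ⟨p ^ j, by rw [pow_succ]; ring⟩
  have h2 : p ^ (j + 1) / p = p ^ j := by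
    rw [pow_succ]; exact Nat.mul_div_cancel _ hp.pos
  rw [if_pos h1, h2, ← pow_succ'] at h
  rw [← h]
  ring

theorem dn_tm_pp {p : ℕ} (hp : p.Prime) {n : ℕ} (hn : ¬ p ∣ n) (j : ℕ) :
    tau (p ^ j * n) = tau (p ^ j) * tau n ∧ tau (p ^ (j + 1) * n) = tau (p ^ (j + 1)) * tau n := by
  induction j with
  | zero =>
    refine ⟨by rw [pow_zero, one_mul, tau_one, one_mul], ?_⟩
    have h := hecke' hp n
    rw [if_neg hn, add_zero] at h
    rw [zero_add, pow_one, h]
  | succ j ih =>
    refine ⟨ih.2, ?_⟩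
    have h := hecke' hp (p ^ (j + 1) * n)
    have h1 : p ∣ p ^ (j + 1) * n := ⟨p ^ j * n, by rw [pow_succ]; ring⟩
    have h2 : p ^ (j + 1) * n / p = p ^ j * n := by
      rw [pow_succ, mul_right_comm]; exact Nat.mul_div_cancel _ hp.pos
    rw [if_pos h1, h2, ih.1, ih.2, ← mul_assoc, ← pow_succ'] at h
    rw [dn_tm_rec hp j]
    linear_combination h

theorem dn_tm_mul (m : ℕ) : ∀ n : ℕ, m.Coprime n → tau (m * n) = tau m * tau n := by
  induction m using Nat.recOnPosPrimePosCoprime with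
  | prime_pow p k hp hk =>
    intro n hn
    have h1 : ¬ p ∣ n := by
      have := Nat.Coprime.coprime_dvd_left (dvd_pow_self p hk.ne') hn
      exact (Nat.Prime.coprime_iff_not_dvd hp).1 this
    exact (dn_tm_pp hp h1 k).1
  | zero =>
    intro n hn
    rw [Nat.coprime_zero_left] at hn
    rw [hn, mul_one, tau_one, mul_one]
  | one =>
    intro n _
    rw [one_mul, tau_one, one_mul]
  | coprime a b ha hb hab iha ihb =>
    intro n hn
    rw [Nat.coprime_mul_iff_left] at hn
    rw [mul_assoc, iha (b * n) (Nat.Coprime.mul_right hab hn.1), ihb n hn.2, iha b hab, mul_assoc]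

theorem dn_tm_qParam (h : ℝ) (w : ℂ) :
    conj (Function.Periodic.qParam h w) = Function.Periodic.qParam h (-conj w) := by
  rw [Function.Periodic.qParam, Function.Periodic.qParam, ← exp_conj]
  congr 1
  rw [map_div₀, map_mul, map_mul, map_mul, conj_I, conj_ofReal, conj_ofReal]
  have : conj (2 : ℂ) = 2 := by
    rw [show (2 : ℂ) = ((2 : ℝ) : ℂ) by norm_num, conj_ofReal]
  rw [this]
  ring

theorem dn_tm_eta (w : ℂ) : conj (ModularForm.eta w) = ModularForm.eta (-conj w) := by
  rw [ModularForm.eta, ModularForm.eta, map_mul, dn_tm_qParam]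
  congr 1
  rw [Function.LeftInverse.map_tprod (g := (starRingEnd ℂ)) _ continuous_conj
    (g' := (starRingEnd ℂ)) continuous_conj (fun z => Complex.conj_conj z)]
  apply tprod_congr
  intro n
  rw [map_sub, map_one, map_pow, dn_tm_qParam]

theorem dn_tm_Dc (w : ℂ) : conj (Dc w) = Dc (-conj w) := by
  rw [Dc, Dc, map_pow, dn_tm_eta]

theorem dn_tm_conj (n : ℕ) : conj (tau n) = tau n := by
  set F : ℝ → ℂ := fun u => cexp (-(2 * Real.pi * Complex.I * (n * (u + (1 : ℝ) * Complex.I)))) *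
      Dc (u + (1 : ℝ) * Complex.I) with hF
  have h1 : tau n = ∫ u in (0 : ℝ)..1, F u := tau_integral n (y := 1) one_pos
  have h2 : ∀ u : ℝ, conj (F u) = F (1 - u) := by
    intro u
    have e1 : ((1 - u : ℝ) : ℂ) + (1 : ℝ) * Complex.I = -conj ((u : ℂ) + (1 : ℝ) * Complex.I) +
        ((1 : ℤ) : ℂ) := by
      rw [map_add, map_mul, conj_I, conj_ofReal, conj_ofReal]
      push_cast
      ring
    have him : 0 < (-conj ((u : ℂ) + (1 : ℝ) * Complex.I)).im := by simp
    rw [hF]
    simp only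
    rw [map_mul, ← exp_conj, dn_tm_Dc, e1, Dc_add_int 1 him]
    congr 1
    rw [exp_eq_exp_iff_exists_int]
    refine ⟨n, ?_⟩
    have c2 : conj (2 : ℂ) = 2 := by
      rw [show (2 : ℂ) = ((2 : ℝ) : ℂ) by norm_num, conj_ofReal]
    rw [map_neg, map_mul, map_mul, map_mul, map_mul, map_add, map_mul, conj_I, conj_ofReal,
      conj_ofReal, conj_ofReal, map_natCast, c2]
    push_cast
    ring
  rw [h1, ← intervalIntegral.intervalIntegral_conj]
  simp only [h2]
  rw [intervalIntegral.integral_comp_sub_left (fun u => F u) 1]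
  simp

theorem p_tm : S_tm := by
  refine ⟨fun m n h => dn_tm_mul m n h, fun p hp j => dn_tm_rec hp j, fun n => ?_⟩
  exact Complex.conj_eq_iff_im.1 (dn_tm_conj n)

end Pool.Agent.Lib.MP_cd509c_nt.DN
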