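import Pool.Agent.Lib.MP_cd509c_nt.DN.Defs

set_option autoImplicit false

namespace Pool.Agent.Lib.MP_cd509c_nt.DN

open Complex

private lemma dn_top_pow (t : ℝ) (ht : 0 < t) : (2 : ℝ) ^ (-t) ≤ 2 / t := by
  have h1 : t / 2 ≤ (2 : ℝ) ^ t := by
    rw [Real.rpow_def_of_pos (by norm_num)]
    have h2 : (1 / 2 : ℝ) ≤ Real.log 2 := by
      have := Real.log_two_gt_d9
      linarith
    have h3 : t / 2 ≤ Real.log 2 * t := by nlinarith
    have h4 := Real.add_one_le_exp (Real.log 2 * t)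
    linarith
  rw [Real.rpow_neg (by norm_num)]
  have h5 : 0 < t / 2 := by positivity
  calc ((2 : ℝ) ^ t)⁻¹ ≤ (t / 2)⁻¹ := inv_anti₀ h5 h1
    _ = 2 / t := by rw [inv_div]

theorem p_top : S_top := by
  intro ε hε V₁
  obtain ⟨C, hC, hb⟩ := Lf_bound
  obtain ⟨C₁, hC₁, hb₁⟩ := Lf_sub_one
  set V : ℝ := max (max V₁ 1) (max (5 / ε) (32 * C₁ + 16)) with hV
  have hV1 : V₁ ≤ V := le_trans (le_max_left _ _) (le_max_left _ _)
  have hV2 : 1 ≤ V := le_trans (le_max_right _ _) (le_max_left _ _)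
  have hV3 : 5 / ε ≤ V := le_trans (le_max_left _ _) (le_max_right _ _)
  have hV4 : 32 * C₁ + 16 ≤ V := le_trans (le_max_right _ _) (le_max_right _ _)
  refine ⟨V, 9 + 800 * V + 512 * C, hV1, hV2, ?_⟩
  intro l hl x hx hxl b hb1 hb2 w w₀ hw1 hw2 hw3 hu1 hu2 hu3
  have hl0 : 0 ≤ l := by linarith
  have hel : l + 1 ≤ Real.exp l := Real.add_one_le_exp l
  have hel0 : 0 < Real.exp l := Real.exp_pos l
  -- lower bound
  have hlow : 1 / 2 ≤ ‖LL w₀‖ := by
    have h1 : (6 + w₀ : ℂ).re = 6 + w₀.re := by simp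
    have h2 : 8 ≤ (6 + w₀ : ℂ).re := by
      rw [h1]
      linarith
    have h3 := hb₁ (6 + w₀) h2
    have h4 : C₁ * (2 : ℝ) ^ (-(6 + w₀ : ℂ).re) ≤ 1 / 2 := by
      have h5 : 0 < (6 + w₀ : ℂ).re := by linarith
      have h6 := dn_top_pow _ h5
      have h7 : 4 * C₁ ≤ (6 + w₀ : ℂ).re := by
        rw [h1]
        linarith
      calc C₁ * (2 : ℝ) ^ (-(6 + w₀ : ℂ).re) ≤ C₁ * (2 / (6 + w₀ : ℂ).re) :=
            mul_le_mul_of_nonneg_left h6 hC₁.le
        _ = 2 * C₁ / (6 + w₀ : ℂ).re := by ring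
        _ ≤ 1 / 2 := by
            rw [div_le_iff₀ h5]
            linarith
    have h8 : ‖(1 : ℂ)‖ ≤ ‖LL w₀‖ + ‖Lf (6 + w₀) - 1‖ := by
      have : (1 : ℂ) = LL w₀ - (Lf (6 + w₀) - 1) := by
        unfold LL
        ring
      calc ‖(1 : ℂ)‖ = ‖LL w₀ - (Lf (6 + w₀) - 1)‖ := by rw [← this]
        _ ≤ _ := norm_sub_le _ _
    rw [norm_one] at h8
    linarith
  refine ⟨fun h => by rw [h, norm_zero] at hlow; linarith, ?_⟩
  -- upper bound
  have h1 : (6 + w : ℂ).re = 6 + w.re := by simp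
  have h2 : (6 + w : ℂ).im = w.im := by simp
  have h3 := hb (6 + w) (by rw [h1]; linarith)
  rw [h2] at h3
  have hx1 : x ≤ 3 * Real.exp l := by
    have h4 : Real.log x ≤ l + 1 := by
      have := (abs_le.1 hxl).2
      linarith
    have h5 : x ≤ Real.exp (l + 1) := (Real.log_le_iff_le_exp hx).1 h4
    have h6 : Real.exp (l + 1) = Real.exp l * Real.exp 1 := Real.exp_add l 1
    have h7 : Real.exp 1 < 3 := by
      have := Real.exp_one_lt_d9
      linarith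
    nlinarith
  have h4 : 9 + |w.im| ≤ 4 * Real.exp l := by
    have h5 : |w.im| ≤ |w.im - x| + |x| := by
      have := abs_add_le (w.im - x) x
      rwa [sub_add_cancel] at this
    rw [abs_of_pos hx] at h5
    linarith
  have h5 : (9 + |w.im|) ^ 4 ≤ (4 * Real.exp l) ^ 4 :=
    pow_le_pow_left₀ (by positivity) h4 4
  have h6 : C * (4 * Real.exp l) ^ 4 ≤ 1 / 2 * Real.exp l ^ 5 := by
    have h7 : 512 * C ≤ Real.exp l := by linarith
    have h8 : 0 < Real.exp l ^ 4 := by positivity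
    calc C * (4 * Real.exp l) ^ 4 = 1 / 2 * ((512 * C) * Real.exp l ^ 4) := by ring
      _ ≤ 1 / 2 * (Real.exp l * Real.exp l ^ 4) := by
          apply mul_le_mul_of_nonneg_left _ (by norm_num)
          exact mul_le_mul_of_nonneg_right h7 h8.le
      _ = 1 / 2 * Real.exp l ^ 5 := by ring
  have h7 : Real.exp l ^ 5 ≤ Real.exp (ε * b * l) := by
    rw [← Real.exp_nat_mul]
    apply Real.exp_le_exp.2
    apply mul_le_mul_of_nonneg_right _ hl0
    have h8 : 5 ≤ ε * V := by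
      rw [div_le_iff₀ hε] at hV3
      linarith
    have h9 : ε * V ≤ ε * b := mul_le_mul_of_nonneg_left hb1 hε.le
    push_cast
    linarith
  have h8 : 0 < Real.exp (ε * b * l) := Real.exp_pos _
  calc ‖LL w‖ ≤ C * (9 + |w.im|) ^ 4 := h3
    _ ≤ C * (4 * Real.exp l) ^ 4 := mul_le_mul_of_nonneg_left h5 hC.le
    _ ≤ 1 / 2 * Real.exp l ^ 5 := h6
    _ ≤ 1 / 2 * Real.exp (ε * b * l) := by linarith
    _ = Real.exp (ε * b * l) * (1 / 2) := by ring
    _ ≤ Real.exp (ε * b * l) * ‖LL w₀‖ := mul_le_mul_of_nonneg_left hlow h8.le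

end Pool.Agent.Lib.MP_cd509c_nt.DN
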