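import Mathlib
import Pool.Agent.Lib.MP_cd509c_nt.DN.Defs

/-!
# Second interface: local variation of the L-function against the mollifier, in mean
-/

set_option autoImplicit false

namespace Pool.Agent.Lib.MP_cd509c_nt.DN

open Complex ComplexConjugate MeasureTheory

lemma dn_I2_LLcont : Continuous LL := by
  have : LL = fun w : ℂ => Lf (6 + w) := rfl
  rw [this]
  exact Lf_differentiable.continuous.comp (by fun_prop)

lemma dn_I2_Molcont (X : ℝ) : Continuous (Mol X) := by
  have : Mol X = fun w : ℂ =>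
    ∑ b ∈ Finset.Icc 1 ⌊X⌋₊, muf b * Pw (Real.log b / Real.log X) * (b : ℂ) ^ (-(6 + w)) := rfl
  rw [this]
  refine continuous_finsetSum _ fun b hb => ?_
  have hb1 : (b : ℂ) ≠ 0 := by
    have := (Finset.mem_Icc.mp hb).1
    exact_mod_cast (by omega : b ≠ 0)
  refine Continuous.mul continuous_const ?_
  exact Continuous.const_cpow (by fun_prop) (Or.inl hb1)

lemma dn_I2_logpos {T : ℝ} (hT : 2 ≤ T) : 0.69 ≤ Real.log T := by
  have h1 : Real.log 2 ≤ Real.log T := Real.log_le_log (by norm_num) hT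
  have h2 := Real.log_two_gt_d9
  linarith

lemma dn_I2_mono {g : ℝ → ℝ} (hg : Continuous g) (h0 : ∀ y, 0 ≤ g y) {T : ℝ} (hT : 2 ≤ T) :
    ∫ y in (T / 2)..(4 * T), g y ≤ ∫ y in (T / 4)..(8 * T), g y := by
  apply intervalIntegral.integral_mono_interval (by linarith) (by linarith) (by linarith)
  · exact Filter.Eventually.of_forall h0
  · exact hg.intervalIntegrable _ _

/-- pointwise bound on the left -/
lemma dn_I2_pt {C3 : ℝ} (hC3 : 1 ≤ C3) (hN : ∀ w : ℂ, -1 ≤ w.re → w.re ≤ 0 → 1 ≤ |w.im| →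
    ‖LL w‖ ≤ C3 * |w.im| ^ (-2 * w.re) * ‖LL (-conj w)‖) {B T : ℝ} (hB : 1 ≤ B) (hT : 2 ≤ T)
    (hTB : 2 * (B + 1) ≤ T) (w : ℂ) (hw1 : -1 ≤ w.re) (hw0 : w.re ≤ 0) (hwi : |w.im| ≤ B)
    (y : ℝ) (hy1 : T / 2 ≤ y) (hy2 : y ≤ 4 * T) :
    ‖LL (w + y * I)‖ ^ 2 ≤ (36 * C3) ^ 2 * Real.exp (4 * Real.log T * (-w.re)) *
      ‖LL (-conj w + y * I)‖ ^ 2 := by
  have hi := abs_le.mp hwi
  have hre : (w + y * I).re = w.re := by simp
  have him : (w + y * I).im = w.im + y := by simp
  have hc : -conj (w + y * I) = -conj w + y * I := by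
    rw [map_add, map_mul, Complex.conj_I, Complex.conj_ofReal]
    ring
  have hpos : 1 ≤ w.im + y := by linarith [hi.1]
  have h1 := hN (w + y * I) (by rw [hre]; exact hw1) (by rw [hre]; exact hw0)
    (by rw [him, abs_of_pos (by linarith)]; exact hpos)
  rw [hre, him, hc, abs_of_pos (by linarith)] at h1
  have hT0 : 0 < T := by linarith
  have h6 : w.im + y ≤ 6 * T := by linarith [hi.2]
  have h2 : (w.im + y) ^ (-2 * w.re) ≤ 36 * Real.exp (2 * Real.log T * (-w.re)) := by
    calc (w.im + y) ^ (-2 * w.re) ≤ (6 * T) ^ (-2 * w.re) :=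
          Real.rpow_le_rpow (by linarith) h6 (by linarith)
      _ = 6 ^ (-2 * w.re) * T ^ (-2 * w.re) := Real.mul_rpow (by norm_num) hT0.le
      _ ≤ 6 ^ (2 : ℝ) * T ^ (-2 * w.re) := by
          apply mul_le_mul_of_nonneg_right _ (Real.rpow_nonneg hT0.le _)
          exact Real.rpow_le_rpow_of_exponent_le (by norm_num) (by linarith)
      _ = 36 * Real.exp (2 * Real.log T * (-w.re)) := by
          rw [Real.rpow_def_of_pos hT0, Real.rpow_two]
          congr 1
          · norm_num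
          · congr 1; ring
  have h3 : ‖LL (w + y * I)‖ ≤ 36 * C3 * Real.exp (2 * Real.log T * (-w.re)) *
      ‖LL (-conj w + y * I)‖ := by
    refine h1.trans ?_
    apply mul_le_mul_of_nonneg_right _ (norm_nonneg _)
    calc C3 * (w.im + y) ^ (-2 * w.re) ≤ C3 * (36 * Real.exp (2 * Real.log T * (-w.re))) :=
          mul_le_mul_of_nonneg_left h2 (by linarith)
      _ = _ := by ring
  calc ‖LL (w + y * I)‖ ^ 2 ≤ (36 * C3 * Real.exp (2 * Real.log T * (-w.re)) *
      ‖LL (-conj w + y * I)‖) ^ 2 := pow_le_pow_left₀ (norm_nonneg _) h3 2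
    _ = (36 * C3) ^ 2 * (Real.exp (2 * Real.log T * (-w.re))) ^ 2 *
      ‖LL (-conj w + y * I)‖ ^ 2 := by ring
    _ = _ := by
      congr 2
      rw [← Real.exp_nat_mul]
      congr 1
      push_cast
      ring

lemma dn_I2_LL (h2 : S_LLsq) (h3 : S_neg) (B : ℝ) (hB : 1 ≤ B) : ∃ C : ℝ, 0 < C ∧
    ∀ T : ℝ, 2 ≤ T → ∀ w : ℂ, -1 ≤ w.re → w.re ≤ B → |w.im| ≤ B →
    ∫ y in (T / 2)..(4 * T), ‖LL (w + y * I)‖ ^ 2 ≤
      C * T * Real.log T * Real.exp (4 * Real.log T * max 0 (-w.re)) := by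
  obtain ⟨C2, hC2, hL⟩ := h2 B
  obtain ⟨C3, hC3, hN⟩ := h3
  obtain ⟨K, hK⟩ : ∃ K : ℝ, ∀ z : ℂ, ‖z‖ ≤ 20 * (B + 1) → ‖LL z‖ ≤ K := by
    obtain ⟨K, hK⟩ := (isCompact_closedBall (0 : ℂ) (20 * (B + 1))).exists_bound_of_continuousOn
      dn_I2_LLcont.continuousOn
    exact ⟨K, fun z hz => hK z (by simpa using hz)⟩
  refine ⟨C2 + (36 * C3) ^ 2 * C2 + 8 * K ^ 2, by positivity, ?_⟩
  intro T hT w hw1 hwB hwi
  have hlog := dn_I2_logpos hT
  have hlog0 : 0 < Real.log T := by linarith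
  have hT0 : 0 < T := by linarith
  have hm0 : 0 ≤ max 0 (-w.re) := le_max_left _ _
  have hexp : 1 ≤ Real.exp (4 * Real.log T * max 0 (-w.re)) := Real.one_le_exp (by positivity)
  have hcont : ∀ u : ℂ, Continuous fun y : ℝ => ‖LL (u + y * I)‖ ^ 2 := fun u =>
    ((dn_I2_LLcont.comp (by fun_prop : Continuous fun y : ℝ => u + y * I)).norm).pow 2
  have hTl : 0 ≤ T * Real.log T := by positivity
  rcases le_or_gt (2 * (B + 1)) T with hTB | hTB
  · rcases le_or_gt 0 w.re with hre | hre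
    · calc ∫ y in (T / 2)..(4 * T), ‖LL (w + y * I)‖ ^ 2
          ≤ ∫ y in (T / 4)..(8 * T), ‖LL (w + y * I)‖ ^ 2 :=
            dn_I2_mono (hcont w) (fun y => by positivity) hT
        _ ≤ C2 * T * Real.log T := hL T hT w hre hwi
        _ ≤ (C2 + (36 * C3) ^ 2 * C2 + 8 * K ^ 2) * T * Real.log T := by
            have : 0 ≤ ((36 * C3) ^ 2 * C2 + 8 * K ^ 2) * (T * Real.log T) := by positivity
            nlinarith
        _ ≤ _ := le_mul_of_one_le_right (by positivity) hexp
    · have hmax : max 0 (-w.re) = -w.re := max_eq_right (by linarith)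
      have hcw : 0 ≤ (-conj w).re := by simp; linarith
      have hcwi : |(-conj w).im| ≤ B := by simpa using hwi
      have h4 := hL T hT (-conj w) hcw hcwi
      have h5 := dn_I2_mono (hcont (-conj w)) (fun y => by positivity) hT
      rw [hmax] at hexp ⊢
      calc ∫ y in (T / 2)..(4 * T), ‖LL (w + y * I)‖ ^ 2
          ≤ ∫ y in (T / 2)..(4 * T), (36 * C3) ^ 2 * Real.exp (4 * Real.log T * (-w.re)) *
              ‖LL (-conj w + y * I)‖ ^ 2 := by
            apply intervalIntegral.integral_mono_on (by linarith)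
              ((hcont w).intervalIntegrable _ _)
              (((hcont (-conj w)).const_mul _).intervalIntegrable _ _)
            intro y hy
            exact dn_I2_pt hC3 hN hB hT hTB w hw1 hre.le hwi y hy.1 hy.2
        _ = (36 * C3) ^ 2 * Real.exp (4 * Real.log T * (-w.re)) *
              ∫ y in (T / 2)..(4 * T), ‖LL (-conj w + y * I)‖ ^ 2 := by
            rw [intervalIntegral.integral_const_mul]
        _ ≤ (36 * C3) ^ 2 * Real.exp (4 * Real.log T * (-w.re)) * (C2 * T * Real.log T) := by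
            apply mul_le_mul_of_nonneg_left (h5.trans h4) (by positivity)
        _ ≤ _ := by
            have h6 : 0 ≤ (C2 + 8 * K ^ 2) * (T * Real.log T) *
              Real.exp (4 * Real.log T * (-w.re)) := by positivity
            nlinarith
  · calc ∫ y in (T / 2)..(4 * T), ‖LL (w + y * I)‖ ^ 2
        ≤ ∫ y in (T / 2)..(4 * T), K ^ 2 := by
          apply intervalIntegral.integral_mono_on (by linarith)
            ((hcont w).intervalIntegrable _ _) (continuous_const.intervalIntegrable _ _)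
          intro y hy
          apply pow_le_pow_left₀ (norm_nonneg _)
          apply hK
          have h7 : |w.re| ≤ B := abs_le.mpr ⟨by linarith, hwB⟩
          have h8 : ‖w‖ ≤ |w.re| + |w.im| := Complex.norm_le_abs_re_add_abs_im w
          have h9 : ‖(y : ℂ) * I‖ = y := by
            rw [norm_mul, Complex.norm_I, mul_one, Complex.norm_real, Real.norm_of_nonneg]
            have := hy.1
            linarith
          have h10 := norm_add_le w ((y : ℂ) * I)
          have := hy.2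
          linarith
      _ = (4 * T - T / 2) * K ^ 2 := by
          rw [intervalIntegral.integral_const, smul_eq_mul]
      _ ≤ (C2 + (36 * C3) ^ 2 * C2 + 8 * K ^ 2) * T * Real.log T := by
          have h11 : 0 ≤ (C2 + (36 * C3) ^ 2 * C2) * (T * Real.log T) := by positivity
          have h12 : 0 ≤ T * K ^ 2 := by positivity
          nlinarith
      _ ≤ _ := le_mul_of_one_le_right (by positivity) hexp

theorem p_I2 (h1 : S_molSq) (h2 : S_LLsq) (h3 : S_neg) : S_I2 Real.log := by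
  refine ⟨1 / 4, 2, by norm_num, by norm_num, ?_⟩
  intro θ B hθ hθ1 hB
  obtain ⟨CM, hCM, hM⟩ := h1 θ B hθ hθ1
  obtain ⟨CL, hCL, hL⟩ := dn_I2_LL h2 h3 B hB
  refine ⟨CL + CM, add_pos hCL hCM, ?_⟩
  intro T hT w v hw1 hwB hwi hv0 hvB hvi
  have hlog := dn_I2_logpos hT
  have hlog0 : 0 < Real.log T := by linarith
  have hT0 : 0 < T := by linarith
  set m : ℝ := max 0 (-w.re) with hm
  have hm0 : 0 ≤ m := le_max_left _ _
  have hcL : Continuous fun y : ℝ => ‖LL (w + y * I)‖ :=
    (dn_I2_LLcont.comp (by fun_prop : Continuous fun y : ℝ => w + y * I)).norm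
  have hcM : Continuous fun y : ℝ => ‖Mol (T ^ θ) (v + y * I)‖ :=
    ((dn_I2_Molcont _).comp (by fun_prop : Continuous fun y : ℝ => v + y * I)).norm
  have hcL2 : ∀ r : ℝ, Continuous fun y : ℝ => r * ‖LL (w + y * I)‖ ^ 2 := fun r =>
    (hcL.pow 2).const_mul r
  have hcM2 : ∀ r : ℝ, Continuous fun y : ℝ => r * ‖Mol (T ^ θ) (v + y * I)‖ ^ 2 := fun r =>
    (hcM.pow 2).const_mul r
  have hLb := hL T hT w hw1 hwB hwi
  have hMb : ∫ y in (T / 2)..(4 * T), ‖Mol (T ^ θ) (v + y * I)‖ ^ 2 ≤ CM * T * Real.log T :=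
    (dn_I2_mono (g := fun y : ℝ => ‖Mol (T ^ θ) (v + y * I)‖ ^ 2) (hcM.pow 2)
      (fun y => by positivity) hT).trans (hM T hT v hv0 hvi)
  -- weights
  set E : ℝ := Real.exp (2 * Real.log T * m) with hE
  have hE0 : 0 < E := Real.exp_pos _
  have hE2 : Real.exp (4 * Real.log T * m) = E ^ 2 := by
    rw [hE, ← Real.exp_nat_mul]
    congr 1
    push_cast
    ring
  rw [hE2] at hLb
  have hpt : ∀ y : ℝ, ‖LL (w + y * I)‖ * ‖Mol (T ^ θ) (v + y * I)‖ ≤
      E⁻¹ / 2 * ‖LL (w + y * I)‖ ^ 2 + E / 2 * ‖Mol (T ^ θ) (v + y * I)‖ ^ 2 := by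
    intro y
    set a := ‖LL (w + y * I)‖
    set b := ‖Mol (T ^ θ) (v + y * I)‖
    have h4 : E⁻¹ / 2 * a ^ 2 + E / 2 * b ^ 2 - a * b = (a - E * b) ^ 2 / (2 * E) := by
      field_simp
      ring
    have h5 : 0 ≤ (a - E * b) ^ 2 / (2 * E) := by positivity
    linarith
  calc ∫ y in (T / 2)..(4 * T), ‖LL (w + y * I)‖ * ‖Mol (T ^ θ) (v + y * I)‖
      ≤ ∫ y in (T / 2)..(4 * T), (E⁻¹ / 2 * ‖LL (w + y * I)‖ ^ 2 +
          E / 2 * ‖Mol (T ^ θ) (v + y * I)‖ ^ 2) := by
        apply intervalIntegral.integral_mono_on (by linarith)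
          ((hcL.mul hcM).intervalIntegrable _ _)
          (((hcL2 _).add (hcM2 _)).intervalIntegrable _ _)
        intro y _
        exact hpt y
    _ = E⁻¹ / 2 * (∫ y in (T / 2)..(4 * T), ‖LL (w + y * I)‖ ^ 2) +
          E / 2 * ∫ y in (T / 2)..(4 * T), ‖Mol (T ^ θ) (v + y * I)‖ ^ 2 := by
        rw [intervalIntegral.integral_add ((hcL2 _).intervalIntegrable _ _)
          ((hcM2 _).intervalIntegrable _ _),
          intervalIntegral.integral_const_mul, intervalIntegral.integral_const_mul]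
    _ ≤ E⁻¹ / 2 * (CL * T * Real.log T * E ^ 2) + E / 2 * (CM * T * Real.log T) := by
        apply add_le_add
        · exact mul_le_mul_of_nonneg_left hLb (by positivity)
        · exact mul_le_mul_of_nonneg_left hMb (by positivity)
    _ = (CL + CM) / 2 * T * Real.log T * E := by
        field_simp
    _ ≤ (CL + CM) * T * Real.log T * E := by
        have : 0 ≤ (CL + CM) / 2 * T * Real.log T * E := by positivity
        linarith
    _ ≤ _ := by
        apply mul_le_mul_of_nonneg_left _ (by positivity)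
        rw [hE]
        apply Real.exp_le_exp.mpr
        have : 0 ≤ 2 * θ * Real.log T * ‖w - v‖ := by positivity
        linarith

end Pool.Agent.Lib.MP_cd509c_nt.DN
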