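import Pool.Agent.Lib.MP_cd509c_nt.DN.Defs2

/-!
# Piece I2b: second interface without logarithmic loss
-/

set_option autoImplicit false

namespace Pool.Agent.Lib.MP_cd509c_nt.DN

open Complex ComplexConjugate MeasureTheory

theorem dn_I2b_LLdiff : Differentiable ℂ LL := by
  intro w
  have h : DifferentiableAt ℂ (fun w : ℂ => Lf (6 + w)) w :=
    (Lf_differentiable (6 + w)).comp w (by fun_prop)
  exact h

theorem dn_I2b_Moldiff (X : ℝ) : Differentiable ℂ (Mol X) := by
  intro w
  have h : DifferentiableAt ℂ (fun w : ℂ => ∑ b ∈ Finset.Icc 1 ⌊X⌋₊,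
      muf b * Pw (Real.log b / Real.log X) * (b : ℂ) ^ (-(6 + w))) w := by
    apply DifferentiableAt.fun_sum
    intro b hb
    rw [Finset.mem_Icc] at hb
    have hb0 : (b : ℂ) ≠ 0 := by
      have : 0 < b := hb.1
      exact_mod_cast this.ne'
    apply DifferentiableAt.const_mul
    exact DifferentiableAt.const_cpow (by fun_prop) (Or.inl hb0)
  exact h

/-- right of `3/4` the mollifier is bounded -/
theorem dn_I2b_Mol (hS : S_mufSum) : ∃ C : ℝ, 0 < C ∧ ∀ (X : ℝ) (w : ℂ), 3 / 4 ≤ w.re →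
    ‖Mol X w‖ ≤ C := by
  have hB := hS (27 / 4) (by norm_num)
  refine ⟨∑' n : ℕ, ‖muf n‖ / (n : ℝ) ^ (27 / 4 : ℝ) + 1, ?_, ?_⟩
  · have : 0 ≤ ∑' n : ℕ, ‖muf n‖ / (n : ℝ) ^ (27 / 4 : ℝ) := tsum_nonneg fun n => by positivity
    linarith
  · intro X w hw
    have h1 : ‖Mol X w‖ ≤ ∑ b ∈ Finset.Icc 1 ⌊X⌋₊, ‖muf b‖ / (b : ℝ) ^ (27 / 4 : ℝ) := by
      unfold Mol
      refine (norm_sum_le _ _).trans (Finset.sum_le_sum fun b hb => ?_)
      have hb1 : 1 ≤ b := (Finset.mem_Icc.mp hb).1
      have hb1' : (1 : ℝ) ≤ b := by exact_mod_cast hb1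
      have hb0 : (0 : ℝ) < b := by linarith
      have e1 : ‖(b : ℂ) ^ (-(6 + w))‖ = (b : ℝ) ^ (-(6 + w.re)) := by
        rw [Complex.norm_natCast_cpow_of_pos hb1]
        congr 1
      have e2 : ‖((Pw (Real.log b / Real.log X) : ℝ) : ℂ)‖ ≤ 1 := by
        rw [Complex.norm_real, Real.norm_of_nonneg (Pw_nonneg _)]
        exact Pw_le_one _
      have e4 : ‖muf b‖ / (b : ℝ) ^ (27 / 4 : ℝ) = ‖muf b‖ * (b : ℝ) ^ (-(27 / 4 : ℝ)) := by
        rw [Real.rpow_neg hb0.le, div_eq_mul_inv]
      rw [norm_mul, norm_mul, e1, e4]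
      have e3 : (b : ℝ) ^ (-(6 + w.re)) ≤ (b : ℝ) ^ (-(27 / 4 : ℝ)) :=
        Real.rpow_le_rpow_of_exponent_le hb1' (by linarith)
      calc ‖muf b‖ * ‖((Pw (Real.log b / Real.log X) : ℝ) : ℂ)‖ * (b : ℝ) ^ (-(6 + w.re))
          ≤ ‖muf b‖ * 1 * (b : ℝ) ^ (-(27 / 4 : ℝ)) := by gcongr
        _ = _ := by ring
    have h2 : ∑ b ∈ Finset.Icc 1 ⌊X⌋₊, ‖muf b‖ / (b : ℝ) ^ (27 / 4 : ℝ) ≤
        ∑' n : ℕ, ‖muf n‖ / (n : ℝ) ^ (27 / 4 : ℝ) :=
      hB.sum_le_tsum _ (fun n _ => by positivity)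
    linarith

/-- right of `1` the L-function is bounded -/
theorem dn_I2b_LL : ∃ C : ℝ, 0 < C ∧ ∀ w : ℂ, 1 ≤ w.re → ‖LL w‖ ≤ C := by
  have hA := tau_summable (σ := 7) (by norm_num)
  refine ⟨∑' n : ℕ, ‖tau n‖ / (n : ℝ) ^ (7 : ℝ) + 1, ?_, ?_⟩
  · have : 0 ≤ ∑' n : ℕ, ‖tau n‖ / (n : ℝ) ^ (7 : ℝ) := tsum_nonneg fun n => by positivity
    linarith
  · intro w hw
    have hs : 13 / 2 < (6 + w).re := by simp; linarith
    have h := Lam_hasSum' hs
    have hG : Gamma (6 + w) ≠ 0 := Gamma_ne_zero_of_re_pos (by linarith)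
    have h2 := h.mul_left ((2 * Real.pi : ℂ) ^ (6 + w) * (Gamma (6 + w))⁻¹)
    have hpi := two_pi_cpow_ne (6 + w)
    have e0 : LL w = (2 * Real.pi : ℂ) ^ (6 + w) * (Gamma (6 + w))⁻¹ * Lam (6 + w) := rfl
    have h3 : ‖LL w‖ ≤ ∑' n : ℕ, ‖tau n‖ / (n : ℝ) ^ (7 : ℝ) := by
      rw [e0, ← h2.tsum_eq]
      refine tsum_of_norm_bounded hA.hasSum ?_
      intro n
      rcases Nat.eq_zero_or_pos n with h0 | h0
      · rw [h0, tau_zero]; simp
      · have hn1 : (1 : ℝ) ≤ n := by exact_mod_cast h0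
        have e : ((2 * Real.pi * n : ℝ) : ℂ) ^ (6 + w) =
            (2 * Real.pi : ℂ) ^ (6 + w) * (n : ℂ) ^ (6 + w) := by
          have := mul_cpow_ofReal_nonneg (a := 2 * Real.pi) (b := (n : ℝ)) (by positivity)
            (Nat.cast_nonneg n) (6 + w)
          push_cast at this ⊢
          exact this
        have hn : (n : ℂ) ^ (6 + w) ≠ 0 := by
          rw [Complex.cpow_ne_zero_iff]
          left
          exact_mod_cast h0.ne'
        have e3 : (2 * Real.pi : ℂ) ^ (6 + w) * (Gamma (6 + w))⁻¹ *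
            (Gamma (6 + w) * tau n / ((2 * Real.pi * n : ℝ) : ℂ) ^ (6 + w)) =
            tau n / (n : ℂ) ^ (6 + w) := by
          rw [e]
          field_simp
        rw [e3, norm_div, Complex.norm_natCast_cpow_of_pos h0]
        have hre : (6 + w).re = 6 + w.re := by simp
        rw [hre]
        have hn0 : (0 : ℝ) < n := by linarith
        have h7 : (n : ℝ) ^ (7 : ℝ) ≤ (n : ℝ) ^ (6 + w.re) :=
          Real.rpow_le_rpow_of_exponent_le hn1 (by linarith)
        exact div_le_div_of_nonneg_left (norm_nonneg _) (by positivity) h7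
    linarith

/-- the integral over a moved window -/
theorem dn_I2b_window (g h : ℝ → ℝ) (T v D : ℝ) (hT : 2 ≤ T) (hv : |v| ≤ T / 4)
    (hg : Continuous g) (hh : Continuous h) (h0 : ∀ y, 0 ≤ g y) (hgh : ∀ y, g y ≤ h y)
    (hD : ∫ y in (T / 4)..(8 * T), h y ≤ D) :
    ∫ y in (T / 2)..(4 * T), g (y + v) ≤ D := by
  have hv' := abs_le.1 hv
  rw [intervalIntegral.integral_comp_add_right (fun y : ℝ => g y) v]
  calc ∫ y in (T / 2 + v)..(4 * T + v), g y
      ≤ ∫ y in (T / 4)..(8 * T), g y := by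
        apply intervalIntegral.integral_mono_interval (by linarith [hv'.1]) (by linarith)
          (by linarith [hv'.2])
        · exact Filter.Eventually.of_forall h0
        · exact hg.intervalIntegrable _ _
    _ ≤ ∫ y in (T / 4)..(8 * T), h y :=
        intervalIntegral.integral_mono_on (by linarith) (hg.intervalIntegrable _ _)
          (hh.intervalIntegrable _ _) (fun y _ => hgh y)
    _ ≤ D := hD

/-- the case `0 <= Re w` -/
theorem dn_I2b_right (h3 : S_3L) (hML : S_ML) (hS : S_mufSum) (hmc : S_molCrude) :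
    ∃ θ₀ C₁ : ℝ, 0 < θ₀ ∧ θ₀ ≤ 1 / 3 ∧ 2 ≤ C₁ ∧ ∀ θ B : ℝ, 0 < θ → θ ≤ θ₀ → 1 ≤ B →
    ∃ C : ℝ, 0 < C ∧ ∀ T : ℝ, 2 ≤ T → 8 * B ≤ T → ∀ w v : ℂ, 0 ≤ w.re → w.re ≤ B →
      |w.im| ≤ B → 0 ≤ v.re → v.re ≤ B → |v.im| ≤ B →
      ∫ y in (T / 2)..(4 * T), ‖LL (w + y * I)‖ * ‖Mol (T ^ θ) (v + y * I)‖ ≤
        C * T * Real.exp (C₁ * θ * Real.log T * ‖w - v‖) := by
  obtain ⟨C3, hC3, h3⟩ := h3
  obtain ⟨θ₁, C₁, hθ₁, hC₁, hML⟩ := hML
  obtain ⟨Cm, hCm, hmc⟩ := hmc
  obtain ⟨Cb, hCb, hb⟩ := Lf_bound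
  obtain ⟨Cn, hCn, hMol⟩ := dn_I2b_Mol hS
  obtain ⟨Cl, hCl, hLL⟩ := dn_I2b_LL
  refine ⟨min θ₁ (1 / 3), max C₁ 12, lt_min hθ₁ (by norm_num), min_le_right _ _,
    (by norm_num : (2 : ℝ) ≤ 12).trans (le_max_right _ _), ?_⟩
  intro θ B hθ hθ0 hB
  have hθ1 : θ ≤ θ₁ := hθ0.trans (min_le_left _ _)
  have hθ3 : θ ≤ 1 / 3 := hθ0.trans (min_le_right _ _)
  obtain ⟨CL, hCL, hML⟩ := hML θ (4 * B) hθ hθ1 (by linarith)
  set K : ℝ := (CL + 8) + Cb * (9 + B) ^ 4 * Cm + Cl * (Cn + Cm) with hK
  have hK0 : 0 < K := by positivity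
  refine ⟨(C3 + 4) * K, by positivity, ?_⟩
  intro T hT hTB w v hw0 hwB hwi hv0 hvB hvi
  have hT0 : 0 < T := by linarith
  have hlog0 : 0 < Real.log T := Real.log_pos (by linarith)
  set X : ℝ := T ^ θ with hX
  have hX1 : 1 ≤ X := Real.one_le_rpow (by linarith) hθ.le
  have hX3 : X ^ 3 = Real.exp (3 * θ * Real.log T) := by
    rw [hX, ← Real.rpow_natCast, ← Real.rpow_mul hT0.le, Real.rpow_def_of_pos hT0]
    congr 1
    push_cast
    ring
  have hX3T : X ^ 3 ≤ T := by
    rw [hX3]
    calc Real.exp (3 * θ * Real.log T) ≤ Real.exp (Real.log T) := by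
          apply Real.exp_le_exp.2
          nlinarith
      _ = T := Real.exp_log hT0
  set E : ℝ := Real.exp (max C₁ 12 * θ * Real.log T * ‖w - v‖) with hE
  have hE0 : 0 < E := Real.exp_pos _
  have hE1 : 1 ≤ E := Real.one_le_exp (by positivity)
  have hEML : Real.exp (C₁ * θ * Real.log T * ‖v - w‖) ≤ E := by
    rw [hE, norm_sub_rev v w]
    apply Real.exp_le_exp.2
    have h5 : C₁ ≤ max C₁ 12 := le_max_left _ _
    gcongr
  have hEX : 1 / 4 ≤ ‖w - v‖ → X ^ 3 ≤ E := by
    intro h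
    rw [hX3, hE]
    apply Real.exp_le_exp.2
    have h5 : 12 ≤ max C₁ 12 := le_max_right _ _
    calc 3 * θ * Real.log T = 12 * θ * Real.log T * (1 / 4) := by ring
      _ ≤ max C₁ 12 * θ * Real.log T * ‖w - v‖ := by gcongr
  -- the mollifier on the right
  have hMolr : ∀ u : ℂ, u.re ≥ 1 + (v.re - w.re) ∨ u.re ≥ 3 / 4 ∨ (1 / 4 ≤ ‖w - v‖) →
      -1 ≤ u.re → ‖Mol X u‖ ≤ (Cn + Cm) * E := by
    intro u hu hu1
    by_cases h : 3 / 4 ≤ u.re
    · calc ‖Mol X u‖ ≤ Cn := hMol X u h
        _ = Cn * 1 := by ring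
        _ ≤ (Cn + Cm) * E := by
          apply mul_le_mul (by linarith) hE1 (by norm_num) (by positivity)
    · have hn : 1 / 4 ≤ ‖w - v‖ := by
        rcases hu with h1 | h1 | h1
        · have h2 : |(w - v).re| ≤ ‖w - v‖ := Complex.abs_re_le_norm _
          have h4 : (w - v).re ≤ |(w - v).re| := le_abs_self _
          simp only [sub_re] at h2 h4
          linarith
        · exact absurd h1 h
        · exact h1
      calc ‖Mol X u‖ ≤ Cm * X ^ 3 := hmc X hX1 u hu1
        _ ≤ (Cn + Cm) * E := by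
          apply mul_le_mul (by linarith) (hEX hn) (by positivity) (by positivity)
  have hre : ∀ y : ℝ, (w + y * I).re = w.re := fun y => by simp
  have hrev : ∀ y : ℝ, (v + y * I).re = v.re := fun y => by simp
  have hcont : Continuous fun y : ℝ => ‖LL (w + y * I)‖ * ‖Mol X (v + y * I)‖ := by
    have h5 := dn_I2b_LLdiff.continuous
    have h6 := (dn_I2b_Moldiff X).continuous
    fun_prop
  rcases le_total w.re 1 with h1 | h1
  · -- inside the strip
    set f : ℂ → ℂ := fun u => LL (u + w.im * I) * Mol X (u + w.im * I + (v - w)) with hf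
    have hfd : Differentiable ℂ f := by
      have h5 := dn_I2b_LLdiff
      have h6 := dn_I2b_Moldiff X
      exact (h5.comp (by fun_prop)).mul (h6.comp (by fun_prop))
    have hfw : ∀ y : ℝ, ‖f (w.re + y * I)‖ = ‖LL (w + y * I)‖ * ‖Mol X (v + y * I)‖ := by
      intro y
      have e1 : (w.re : ℂ) + y * I + w.im * I = w + y * I := by
        conv_rhs => rw [← Complex.re_add_im w]
        ring
      have e2 : w + y * I + (v - w) = v + y * I := by ring
      simp only [hf]
      rw [e1, e2, norm_mul]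
    set A₀ : ℝ := (CL + 8) * T * E with hA₀
    set G : ℝ := Cb * (9 + B) ^ 4 * Cm * T with hG
    set A₁ : ℝ := Cl * ((Cn + Cm) * E) with hA₁
    have key := h3 f T G A₀ A₁ hT (by positivity) (by positivity) (by positivity) hfd ?_ ?_ ?_
      w.re hw0 h1
    · simp only [hfw] at key
      have hp1 : (A₀ + G) ^ (1 - w.re) ≤ (K * T * E) ^ (1 - w.re) := by
        apply Real.rpow_le_rpow (by positivity) _ (by linarith)
        have h5 : G ≤ Cb * (9 + B) ^ 4 * Cm * T * E := by
          rw [hG]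
          exact le_mul_of_one_le_right (by positivity) hE1
        have h6 : 0 ≤ Cl * (Cn + Cm) * T * E := by positivity
        calc A₀ + G ≤ A₀ + Cb * (9 + B) ^ 4 * Cm * T * E + Cl * (Cn + Cm) * T * E := by linarith
          _ = K * T * E := by rw [hA₀, hK]; ring
      have hp2 : (T * A₁) ^ w.re ≤ (K * T * E) ^ w.re := by
        apply Real.rpow_le_rpow (by positivity) _ hw0
        have h6 : 0 ≤ ((CL + 8) + Cb * (9 + B) ^ 4 * Cm) * T * E := by positivity
        calc T * A₁ ≤ T * A₁ + ((CL + 8) + Cb * (9 + B) ^ 4 * Cm) * T * E := by linarith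
          _ = K * T * E := by rw [hA₁, hK]; ring
      have hZ : 0 < K * T * E := by positivity
      have hp3 : (K * T * E) ^ (1 - w.re) * (K * T * E) ^ w.re = K * T * E := by
        rw [← Real.rpow_add hZ]
        simp
      calc ∫ y in (T / 2)..(4 * T), ‖LL (w + y * I)‖ * ‖Mol X (v + y * I)‖
          ≤ C3 * (A₀ + G) ^ (1 - w.re) * (T * A₁) ^ w.re := key
        _ ≤ C3 * (K * T * E) ^ (1 - w.re) * (K * T * E) ^ w.re := by gcongr
        _ = C3 * ((K * T * E) ^ (1 - w.re) * (K * T * E) ^ w.re) := by ring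
        _ = C3 * (K * T * E) := by rw [hp3]
        _ ≤ (C3 + 4) * (K * T * E) := by
          apply mul_le_mul_of_nonneg_right (by linarith) hZ.le
        _ = _ := by ring
    · -- crude bound
      intro u hu0 hu1
      have hLLu : ‖LL (u + w.im * I)‖ ≤ Cb * (9 + B) ^ 4 * (2 + |u.im|) ^ 4 := by
        have h5 := hb (6 + (u + w.im * I)) (by simp; linarith)
        have h6 : |(6 + (u + w.im * I)).im| ≤ |u.im| + B := by
          have : (6 + (u + w.im * I)).im = u.im + w.im := by simp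
          rw [this]
          exact (abs_add_le _ _).trans (by linarith)
        have h7 : (9 + |(6 + (u + w.im * I)).im|) ^ 4 ≤ ((9 + B) * (2 + |u.im|)) ^ 4 := by
          apply pow_le_pow_left₀ (by positivity)
          have := abs_nonneg u.im
          nlinarith
        calc ‖LL (u + w.im * I)‖ = ‖Lf (6 + (u + w.im * I))‖ := rfl
          _ ≤ Cb * (9 + |(6 + (u + w.im * I)).im|) ^ 4 := h5
          _ ≤ Cb * ((9 + B) * (2 + |u.im|)) ^ 4 := by gcongr
          _ = _ := by ring
      have hMu : ‖Mol X (u + w.im * I + (v - w))‖ ≤ Cm * T := by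
        have h5 := hmc X hX1 (u + w.im * I + (v - w)) (by simp; linarith)
        exact h5.trans (mul_le_mul_of_nonneg_left hX3T hCm.le)
      have h2u : 1 ≤ 2 + |u.im| := by
        have := abs_nonneg u.im
        linarith
      have hpow : (2 + |u.im|) ^ 4 ≤ (2 + |u.im|) ^ 8 := pow_le_pow_right₀ h2u (by norm_num)
      calc ‖f u‖ = ‖LL (u + w.im * I)‖ * ‖Mol X (u + w.im * I + (v - w))‖ := norm_mul _ _
        _ ≤ Cb * (9 + B) ^ 4 * (2 + |u.im|) ^ 4 * (Cm * T) := by gcongr
        _ ≤ Cb * (9 + B) ^ 4 * (2 + |u.im|) ^ 8 * (Cm * T) := by gcongr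
        _ = G * (2 + |u.im|) ^ 8 := by rw [hG]; ring
    · -- the critical line
      intro s hs
      have hd : ‖v - w‖ ≤ 4 * B := by
        have h5 : ‖v - w‖ ≤ |(v - w).re| + |(v - w).im| := Complex.norm_le_abs_re_add_abs_im _
        have h6 : |(v - w).re| ≤ B := by
          rw [sub_re, abs_le]
          constructor <;> linarith
        have h7 : |(v - w).im| ≤ 2 * B := by
          rw [sub_im]
          exact (abs_sub _ _).trans (by linarith)
        linarith
      have h5 := hML T (v - w) hT hd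
      have hw : ∀ y : ℝ, ‖f ((y + s : ℝ) * I)‖ =
          (fun y : ℝ => ‖LL (y * I)‖ * ‖Mol X (y * I + (v - w))‖) (y + (s + w.im)) := by
        intro y
        simp only [hf]
        rw [norm_mul]
        congr 3 <;> push_cast <;> ring
      simp only [hw]
      have hc1 : Continuous fun y : ℝ => ‖LL (y * I)‖ * ‖Mol X (y * I + (v - w))‖ := by
        have h5 := dn_I2b_LLdiff.continuous
        have h6 := (dn_I2b_Moldiff X).continuous
        fun_prop
      have hc2 : Continuous fun y : ℝ => ‖LL (y * I)‖ ^ 2 * ‖Mol X (y * I + (v - w))‖ ^ 2 := by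
        have h5 := dn_I2b_LLdiff.continuous
        have h6 := (dn_I2b_Moldiff X).continuous
        fun_prop
      have hsh : |s + w.im| ≤ T / 4 := (abs_add_le _ _).trans (by linarith)
      apply dn_I2b_window (fun y : ℝ => ‖LL (y * I)‖ * ‖Mol X (y * I + (v - w))‖)
        (fun y : ℝ => ‖LL (y * I)‖ ^ 2 * ‖Mol X (y * I + (v - w))‖ ^ 2 + 1) T (s + w.im) A₀ hT
        hsh hc1 (hc2.add continuous_const) (fun y => by positivity)
      · intro y
        set a := ‖LL (y * I)‖ * ‖Mol X (y * I + (v - w))‖ with ha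
        have h6 : ‖LL (y * I)‖ ^ 2 * ‖Mol X (y * I + (v - w))‖ ^ 2 = a ^ 2 := by rw [ha]; ring
        rw [h6]
        nlinarith [sq_nonneg (a - 1 / 2)]
      · rw [intervalIntegral.integral_add (hc2.intervalIntegrable _ _)
          (continuous_const.intervalIntegrable _ _), intervalIntegral.integral_const, smul_eq_mul]
        have h6 : CL * T * Real.exp (C₁ * θ * Real.log T * ‖v - w‖) ≤ CL * T * E := by gcongr
        have h7 : 8 * T ≤ 8 * T * E := le_mul_of_one_le_right (by positivity) hE1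
        rw [hA₀]
        linarith
    · -- the right edge
      intro u hu
      have h5 : ‖LL (u + w.im * I)‖ ≤ Cl := hLL _ (by simp [hu])
      have h6 : ‖Mol X (u + w.im * I + (v - w))‖ ≤ (Cn + Cm) * E := by
        apply hMolr
        · left
          simp [hu]
        · simp [hu]
          linarith
      calc ‖f u‖ = ‖LL (u + w.im * I)‖ * ‖Mol X (u + w.im * I + (v - w))‖ := norm_mul _ _
        _ ≤ Cl * ((Cn + Cm) * E) := by gcongr
  · -- to the right of the strip
    have hpt : ∀ y : ℝ, ‖LL (w + y * I)‖ * ‖Mol X (v + y * I)‖ ≤ Cl * ((Cn + Cm) * E) := by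
      intro y
      have h5 : ‖LL (w + y * I)‖ ≤ Cl := hLL _ (by rw [hre]; exact h1)
      have h6 : ‖Mol X (v + y * I)‖ ≤ (Cn + Cm) * E := by
        apply hMolr
        · by_cases h7 : 3 / 4 ≤ v.re
          · right; left
            rw [hrev]; exact h7
          · right; right
            have h2 : |(w - v).re| ≤ ‖w - v‖ := Complex.abs_re_le_norm _
            have h4 : (w - v).re ≤ |(w - v).re| := le_abs_self _
            simp only [sub_re] at h2 h4
            linarith
        · rw [hrev]; linarith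
      gcongr
    calc ∫ y in (T / 2)..(4 * T), ‖LL (w + y * I)‖ * ‖Mol X (v + y * I)‖
        ≤ ∫ _y in (T / 2)..(4 * T), Cl * ((Cn + Cm) * E) :=
          intervalIntegral.integral_mono_on (by linarith) (hcont.intervalIntegrable _ _)
            (continuous_const.intervalIntegrable _ _) (fun y _ => hpt y)
      _ = (4 * T - T / 2) * (Cl * ((Cn + Cm) * E)) := by
          rw [intervalIntegral.integral_const, smul_eq_mul]
      _ ≤ 4 * T * (Cl * ((Cn + Cm) * E)) := by
          apply mul_le_mul_of_nonneg_right (by linarith) (by positivity)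
      _ = 4 * (Cl * (Cn + Cm)) * T * E := by ring
      _ ≤ (C3 + 4) * K * T * E := by
          have h5 : Cl * (Cn + Cm) ≤ K := by
            have : 0 ≤ (CL + 8) + Cb * (9 + B) ^ 4 * Cm := by positivity
            rw [hK]; linarith
          have h6 : 4 * (Cl * (Cn + Cm)) ≤ (C3 + 4) * K := by
            apply mul_le_mul (by linarith) h5 (by positivity) (by positivity)
          gcongr

/-- reflection, pointwise -/
theorem dn_I2b_pt {C3 : ℝ} (hC3 : 1 ≤ C3) (hN : ∀ w : ℂ, -1 ≤ w.re → w.re ≤ 0 → 1 ≤ |w.im| →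
    ‖LL w‖ ≤ C3 * |w.im| ^ (-2 * w.re) * ‖LL (-conj w)‖) {B T : ℝ} (hB : 1 ≤ B)
    (hTB : 8 * B ≤ T) (w : ℂ) (hw1 : -1 ≤ w.re) (hw0 : w.re ≤ 0) (hwi : |w.im| ≤ B)
    (y : ℝ) (hy1 : T / 2 ≤ y) (hy2 : y ≤ 4 * T) :
    ‖LL (w + y * I)‖ ≤ 36 * C3 * Real.exp (2 * Real.log T * (-w.re)) *
      ‖LL (-conj w + y * I)‖ := by
  have hi := abs_le.mp hwi
  have hre : (w + y * I).re = w.re := by simp
  have him : (w + y * I).im = w.im + y := by simp
  have hc : -conj (w + y * I) = -conj w + y * I := by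
    rw [map_add, map_mul, Complex.conj_I, Complex.conj_ofReal]
    ring
  have hpos : 1 ≤ w.im + y := by linarith [hi.1]
  have h1 := hN (w + y * I) (by rw [hre]; exact hw1) (by rw [hre]; exact hw0)
    (by rw [him, abs_of_pos (by linarith)]; exact hpos)
  rw [hre, him, hc, abs_of_pos (by linarith)] at h1
  have hT0 : 0 < T := by linarith
  have h6 : w.im + y ≤ 6 * T := by linarith [hi.2]
  have h2 : (w.im + y) ^ (-2 * w.re) ≤ 36 * Real.exp (2 * Real.log T * (-w.re)) := by
    calc (w.im + y) ^ (-2 * w.re) ≤ (6 * T) ^ (-2 * w.re) :=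
          Real.rpow_le_rpow (by linarith) h6 (by linarith)
      _ = 6 ^ (-2 * w.re) * T ^ (-2 * w.re) := Real.mul_rpow (by norm_num) hT0.le
      _ ≤ 6 ^ (2 : ℝ) * T ^ (-2 * w.re) := by
          apply mul_le_mul_of_nonneg_right _ (Real.rpow_nonneg hT0.le _)
          exact Real.rpow_le_rpow_of_exponent_le (by norm_num) (by linarith)
      _ = 36 * Real.exp (2 * Real.log T * (-w.re)) := by
          rw [Real.rpow_def_of_pos hT0, Real.rpow_two]
          congr 1
          · norm_num
          · congr 1; ring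
  refine h1.trans ?_
  apply mul_le_mul_of_nonneg_right _ (norm_nonneg _)
  calc C3 * (w.im + y) ^ (-2 * w.re) ≤ C3 * (36 * Real.exp (2 * Real.log T * (-w.re))) :=
        mul_le_mul_of_nonneg_left h2 (by linarith)
    _ = _ := by ring

theorem p_I2b (h3 : S_3L) (hML : S_ML) (hneg : S_neg) (hS : S_mufSum) (hmc : S_molCrude) :
    S_I2 (fun _ => 1) := by
  obtain ⟨θ₀, C₁, hθ₀, hθ₀3, hC₁, hR⟩ := dn_I2b_right h3 hML hS hmc
  obtain ⟨CN, hCN, hN⟩ := hneg
  obtain ⟨Cm, hCm, hmc⟩ := hmc
  refine ⟨θ₀, C₁, hθ₀, by linarith, ?_⟩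
  intro θ B hθ hθ0 hB
  obtain ⟨C, hC, hR⟩ := hR θ B hθ hθ0 hB
  obtain ⟨K, hK⟩ : ∃ K : ℝ, ∀ z : ℂ, ‖z‖ ≤ 40 * B → ‖LL z‖ ≤ K := by
    obtain ⟨K, hK⟩ := (isCompact_closedBall (0 : ℂ) (40 * B)).exists_bound_of_continuousOn
      dn_I2b_LLdiff.continuous.continuousOn
    exact ⟨K, fun z hz => hK z (by simpa using hz)⟩
  have hK0 : 0 ≤ K := (norm_nonneg _).trans (hK 0 (by simp; linarith))
  refine ⟨C + 36 * CN * C + 32 * B * K * Cm, by positivity, ?_⟩
  intro T hT w v hw1 hwB hwi hv0 hvB hvi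
  have hT0 : 0 < T := by linarith
  have hlog0 : 0 < Real.log T := Real.log_pos (by linarith)
  have hm0 : 0 ≤ max 0 (-w.re) := le_max_left _ _
  set X : ℝ := T ^ θ with hX
  have hX1 : 1 ≤ X := Real.one_le_rpow (by linarith) hθ.le
  have hX3T : X ^ 3 ≤ T := by
    rw [hX, ← Real.rpow_natCast, ← Real.rpow_mul hT0.le]
    calc T ^ (θ * ((3 : ℕ) : ℝ)) ≤ T ^ (1 : ℝ) := by
          apply Real.rpow_le_rpow_of_exponent_le (by linarith)
          push_cast
          linarith
      _ = T := Real.rpow_one T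
  have hcont : ∀ u : ℂ, Continuous fun y : ℝ => ‖LL (u + y * I)‖ * ‖Mol X (v + y * I)‖ := by
    intro u
    have h5 := dn_I2b_LLdiff.continuous
    have h6 := (dn_I2b_Moldiff X).continuous
    fun_prop
  rw [mul_one]
  have hE1 : 1 ≤ Real.exp (C₁ * θ * Real.log T * ‖w - v‖ + C₁ * Real.log T * max 0 (-w.re)) :=
    Real.one_le_exp (by positivity)
  rcases le_or_gt (8 * B) T with hTB | hTB
  · rcases le_or_gt 0 w.re with hre | hre
    · refine (hR T hT hTB w v hre hwB hwi hv0 hvB hvi).trans ?_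
      have h5 : Real.exp (C₁ * θ * Real.log T * ‖w - v‖) ≤
          Real.exp (C₁ * θ * Real.log T * ‖w - v‖ + C₁ * Real.log T * max 0 (-w.re)) := by
        apply Real.exp_le_exp.2
        have : 0 ≤ C₁ * Real.log T * max 0 (-w.re) := by positivity
        linarith
      have h6 : C ≤ C + 36 * CN * C + 32 * B * K * Cm := by
        have : 0 ≤ 36 * CN * C + 32 * B * K * Cm := by positivity
        linarith
      gcongr
    · have hcw : 0 ≤ (-conj w).re := by simp; linarith
      have hcwB : (-conj w).re ≤ B := by simp; linarith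
      have hcwi : |(-conj w).im| ≤ B := by simpa using hwi
      have h4 := hR T hT hTB (-conj w) v hcw hcwB hcwi hv0 hvB hvi
      have hmax : max 0 (-w.re) = -w.re := max_eq_right (by linarith)
      have hn : ‖-conj w - v‖ ≤ ‖w - v‖ := by
        rw [Complex.norm_def, Complex.norm_def]
        apply Real.sqrt_le_sqrt
        rw [Complex.normSq_apply, Complex.normSq_apply]
        simp only [sub_re, neg_re, conj_re, sub_im, neg_im, conj_im, neg_neg]
        nlinarith
      calc ∫ y in (T / 2)..(4 * T), ‖LL (w + y * I)‖ * ‖Mol X (v + y * I)‖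
          ≤ ∫ y in (T / 2)..(4 * T), 36 * CN * Real.exp (2 * Real.log T * (-w.re)) *
              (‖LL (-conj w + y * I)‖ * ‖Mol X (v + y * I)‖) := by
            apply intervalIntegral.integral_mono_on (by linarith)
              ((hcont w).intervalIntegrable _ _)
              (((hcont (-conj w)).const_mul _).intervalIntegrable _ _)
            intro y hy
            have h5 := dn_I2b_pt hCN hN hB hTB w hw1 hre.le hwi y hy.1 hy.2
            calc ‖LL (w + y * I)‖ * ‖Mol X (v + y * I)‖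
                ≤ 36 * CN * Real.exp (2 * Real.log T * (-w.re)) *
                  ‖LL (-conj w + y * I)‖ * ‖Mol X (v + y * I)‖ := by gcongr
              _ = _ := by ring
        _ = 36 * CN * Real.exp (2 * Real.log T * (-w.re)) *
              ∫ y in (T / 2)..(4 * T), ‖LL (-conj w + y * I)‖ * ‖Mol X (v + y * I)‖ := by
            rw [intervalIntegral.integral_const_mul]
        _ ≤ 36 * CN * Real.exp (2 * Real.log T * (-w.re)) *
              (C * T * Real.exp (C₁ * θ * Real.log T * ‖-conj w - v‖)) := by gcongr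
        _ ≤ 36 * CN * Real.exp (C₁ * Real.log T * (-w.re)) *
              (C * T * Real.exp (C₁ * θ * Real.log T * ‖w - v‖)) := by
            have h7 : 0 ≤ -w.re := by linarith
            gcongr
        _ = 36 * CN * C * T * Real.exp (C₁ * θ * Real.log T * ‖w - v‖ +
              C₁ * Real.log T * max 0 (-w.re)) := by
            rw [hmax, Real.exp_add]
            ring
        _ ≤ _ := by
            have h6 : 36 * CN * C ≤ C + 36 * CN * C + 32 * B * K * Cm := by
              have : 0 ≤ C + 32 * B * K * Cm := by positivity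
              linarith
            gcongr
  · calc ∫ y in (T / 2)..(4 * T), ‖LL (w + y * I)‖ * ‖Mol X (v + y * I)‖
        ≤ ∫ _y in (T / 2)..(4 * T), K * (Cm * (8 * B)) := by
          apply intervalIntegral.integral_mono_on (by linarith)
            ((hcont w).intervalIntegrable _ _) (continuous_const.intervalIntegrable _ _)
          intro y hy
          have h5 : ‖LL (w + y * I)‖ ≤ K := by
            apply hK
            have h7 : |w.re| ≤ B := abs_le.mpr ⟨by linarith, hwB⟩
            have h8 : ‖w‖ ≤ |w.re| + |w.im| := Complex.norm_le_abs_re_add_abs_im w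
            have h9 : ‖(y : ℂ) * I‖ = y := by
              rw [norm_mul, Complex.norm_I, mul_one, Complex.norm_real, Real.norm_of_nonneg]
              have := hy.1
              linarith
            have h10 := norm_add_le w ((y : ℂ) * I)
            have := hy.2
            linarith
          have h6 : ‖Mol X (v + y * I)‖ ≤ Cm * (8 * B) := by
            have h7 := hmc X hX1 (v + y * I) (by simp; linarith)
            refine h7.trans (mul_le_mul_of_nonneg_left (hX3T.trans hTB.le) hCm.le)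
          gcongr
      _ = (4 * T - T / 2) * (K * (Cm * (8 * B))) := by
          rw [intervalIntegral.integral_const, smul_eq_mul]
      _ ≤ 4 * T * (K * (Cm * (8 * B))) := by
          apply mul_le_mul_of_nonneg_right (by linarith) (by positivity)
      _ = 32 * B * K * Cm * T * 1 := by ring
      _ ≤ _ := by
          have h6 : 32 * B * K * Cm ≤ C + 36 * CN * C + 32 * B * K * Cm := by
            have : 0 ≤ C + 36 * CN * C := by positivity
            linarith
          gcongr

end Pool.Agent.Lib.MP_cd509c_nt.DN
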