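import Mathlib
import Pool.Agent.Lib.MP_cd509c_nt.DN.Defs

/-!
# Piece LLsq: second moment of the L-function of Delta right of the critical line
-/

set_option autoImplicit false

namespace Pool.Agent.Lib.MP_cd509c_nt.DN

open Complex ComplexConjugate MeasureTheory

lemma dn_LLsq_Lam_ne (c : ℝ) : Lam (c : ℂ) ≠ 0 := by
  have hint : Integrable (fun u : ℝ => Phi u * Real.exp ((c - 6) * u)) := by
    have h := integrable_pow_exp 0 |c - 6| (abs_nonneg _)
    refine h.mono' ?_ (Filter.Eventually.of_forall fun u => ?_)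
    · exact (Phi_continuous.mul (by fun_prop)).aestronglyMeasurable
    · have hp := (Phi_pos u).le
      rw [Real.norm_of_nonneg (by positivity), pow_zero, mul_one]
      apply mul_le_mul_of_nonneg_left _ hp
      apply Real.exp_le_exp.mpr
      rw [← abs_mul]
      exact le_abs_self _
  have hpos : 0 < ∫ u : ℝ, Phi u * Real.exp ((c - 6) * u) := by
    rw [integral_pos_iff_support_of_nonneg _ hint]
    · have : Function.support (fun u : ℝ => Phi u * Real.exp ((c - 6) * u)) = Set.univ := by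
        ext u
        simp [(Phi_pos u).ne']
      rw [this]
      simp
    · intro u
      have := (Phi_pos u).le
      simp only [Pi.zero_apply]
      positivity
  have e : Lam (c : ℂ) = ((∫ u : ℝ, Phi u * Real.exp ((c - 6) * u) : ℝ) : ℂ) := by
    rw [Lam_eq, ← integral_complex_ofReal]
    congr 1
    funext u
    push_cast
    rfl
  rw [e]
  exact_mod_cast hpos.ne'

lemma dn_LLsq_conv (hray : S_ray) {δ : ℝ} (h0 : 0 < δ) (h1 : δ < Real.pi) (c : ℝ) :
    MellinConvergent (fun y : ℝ => Dc (y * cexp (δ * I))) (c : ℂ) := by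
  by_contra hc
  have h := hray δ h0 h1 (c : ℂ)
  have h2 : mellin (fun y : ℝ => Dc (y * cexp (δ * I))) (c : ℂ) = 0 := by
    unfold mellin
    exact integral_undef hc
  rw [h2] at h
  exact (mul_ne_zero (Complex.exp_ne_zero _) (dn_LLsq_Lam_ne c)) h.symm

lemma dn_LLsq_im (y δ : ℝ) : ((y : ℂ) * cexp (δ * I)).im = y * Real.sin δ := by
  rw [Complex.im_ofReal_mul, Complex.exp_ofReal_mul_I_im]

lemma dn_LLsq_cont {δ : ℝ} (h0 : 0 < δ) (h1 : δ < Real.pi) :
    ContinuousOn (fun y : ℝ => Dc (y * cexp (δ * I))) (Set.Ioi 0) := by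
  intro y hy
  have hy0 : 0 < y := hy
  have hs : 0 < Real.sin δ := Real.sin_pos_of_pos_of_lt_pi h0 h1
  have him : 0 < ((y : ℂ) * cexp (δ * I)).im := by
    rw [dn_LLsq_im]
    positivity
  have hd : ContinuousAt Dc (y * cexp (δ * I)) := (Dc_differentiableAt him).continuousAt
  exact (ContinuousAt.comp (g := Dc) (f := fun u : ℝ => (u : ℂ) * cexp (δ * I)) hd
    (by fun_prop)).continuousWithinAt

lemma dn_LLsq_int (hray : S_ray) {δ : ℝ} (h0 : 0 < δ) (h1 : δ < Real.pi) (c : ℝ) :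
    IntegrableOn (fun y : ℝ => ‖Dc (y * cexp (δ * I))‖ ^ 2 * y ^ (2 * c - 1)) (Set.Ioi 0) := by
  obtain ⟨K, hK, hb⟩ := Dc_bound
  have hs : 0 < Real.sin δ := Real.sin_pos_of_pos_of_lt_pi h0 h1
  have hm := dn_LLsq_conv hray h0 h1 (2 * c - 6)
  have hm1 : IntegrableOn (fun y : ℝ => ‖(y : ℂ) ^ (((2 * c - 6 : ℝ) : ℂ) - 1) •
      Dc (y * cexp (δ * I))‖) (Set.Ioi 0) := Integrable.norm hm
  have hm2 : IntegrableOn (fun y : ℝ => y ^ (2 * c - 7) * ‖Dc (y * cexp (δ * I))‖)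
      (Set.Ioi 0) := by
    refine hm1.congr_fun (fun y hy => ?_) measurableSet_Ioi
    have hy0 : 0 < y := hy
    simp only [smul_eq_mul, norm_mul]
    rw [Complex.norm_cpow_eq_rpow_re_of_pos hy0]
    congr 2
    simp
    ring
  refine Integrable.mono' (hm2.const_mul (K / Real.sin δ ^ 6)) ?_ ?_
  · apply ContinuousOn.aestronglyMeasurable _ measurableSet_Ioi
    exact ((dn_LLsq_cont h0 h1).norm.pow 2).mul
      (ContinuousOn.rpow_const continuousOn_id (fun y hy => Or.inl (ne_of_gt hy)))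
  · rw [ae_restrict_iff' measurableSet_Ioi]
    refine Filter.Eventually.of_forall fun y hy => ?_
    have hy0 : 0 < y := hy
    have h3 := hb (y * cexp (δ * I)) (by rw [dn_LLsq_im]; positivity)
    rw [dn_LLsq_im] at h3
    set g := ‖Dc (y * cexp (δ * I))‖ with hg
    have hg0 : 0 ≤ g := norm_nonneg _
    have h4 : g ≤ K / Real.sin δ ^ 6 * (y ^ 6)⁻¹ := by
      rw [← div_eq_mul_inv, div_div, le_div_iff₀ (by positivity)]
      calc g * (Real.sin δ ^ 6 * y ^ 6) = g * (y * Real.sin δ) ^ 6 := by ring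
        _ ≤ K := h3
    rw [Real.norm_of_nonneg (by positivity)]
    have e : y ^ (2 * c - 1) = y ^ (2 * c - 7) * y ^ 6 := by
      rw [← Real.rpow_natCast y 6, ← Real.rpow_add hy0]
      congr 1
      push_cast
      ring
    rw [e]
    have hy7 : 0 ≤ y ^ (2 * c - 7) := by positivity
    calc g ^ 2 * (y ^ (2 * c - 7) * y ^ 6) = g * (g * (y ^ (2 * c - 7) * y ^ 6)) := by ring
      _ ≤ (K / Real.sin δ ^ 6 * (y ^ 6)⁻¹) * (g * (y ^ (2 * c - 7) * y ^ 6)) := by
        apply mul_le_mul_of_nonneg_right h4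
        positivity
      _ = K / Real.sin δ ^ 6 * (y ^ (2 * c - 7) * g) := by
        field_simp

lemma dn_LLsq_pt (hray : S_ray) {c : ℝ} (hc : 0 < c)
    (hG : ∀ σ t : ℝ, 0 ≤ σ → σ ≤ 1 → 1 ≤ |t| →
      c * |t| ^ (11 / 2 + σ) * Real.exp (-(Real.pi * |t| / 2)) ≤ ‖Gamma (6 + σ + t * I)‖)
    {δ : ℝ} (h0 : 0 < δ) (h1 : δ < Real.pi) {σ t : ℝ} (hσ : 0 ≤ σ) (hσ1 : σ ≤ 1)
    (ht : 1 ≤ t) :
    ‖Lf (6 + σ + t * I)‖ ≤ (2 * Real.pi) ^ 7 / c * t ^ (-(11 / 2 + σ)) * Real.exp (δ * t) *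
      ‖mellin (fun y : ℝ => Dc (y * cexp (δ * I))) (((6 + σ : ℝ) : ℂ) + ((-t : ℝ) : ℂ) * I)‖ := by
  have ht0 : 0 < t := by linarith
  have hpi := Real.pi_pos
  set s : ℂ := 6 + σ + t * I with hs
  have hs' : ((6 + σ : ℝ) : ℂ) + ((-t : ℝ) : ℂ) * I = conj s := by
    rw [hs]
    apply Complex.ext <;> simp
  rw [hs', hray δ h0 h1 (conj s), norm_mul, Lam_conj, Complex.norm_conj]
  have hexp : ‖cexp (I * (Real.pi / 2 - δ) * conj s)‖ = Real.exp ((Real.pi / 2 - δ) * t) := by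
    rw [Complex.norm_exp]
    congr 1
    rw [hs]
    simp
  rw [hexp]
  unfold Lf
  rw [norm_mul, norm_mul, norm_inv]
  have h2 : ‖(2 * Real.pi : ℂ) ^ s‖ ≤ (2 * Real.pi) ^ 7 := by
    have e : (2 * Real.pi : ℂ) = ((2 * Real.pi : ℝ) : ℂ) := by push_cast; rfl
    rw [e, Complex.norm_cpow_eq_rpow_re_of_pos (by positivity)]
    rw [← Real.rpow_natCast (2 * Real.pi) 7]
    apply Real.rpow_le_rpow_of_exponent_le
    · have := Real.pi_gt_three
      linarith
    · rw [hs]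
      simp
      linarith
  have h3 := hG σ t hσ hσ1 (by rw [abs_of_pos ht0]; exact ht)
  rw [abs_of_pos ht0, ← hs] at h3
  have hpos : 0 < c * t ^ (11 / 2 + σ) * Real.exp (-(Real.pi * t / 2)) := by positivity
  have h4 : ‖Gamma s‖⁻¹ ≤ (c * t ^ (11 / 2 + σ) * Real.exp (-(Real.pi * t / 2)))⁻¹ :=
    inv_anti₀ hpos h3
  have h5 : ‖(2 * Real.pi : ℂ) ^ s‖ * ‖Gamma s‖⁻¹ ≤ (2 * Real.pi) ^ 7 *
      (c * t ^ (11 / 2 + σ) * Real.exp (-(Real.pi * t / 2)))⁻¹ :=
    mul_le_mul h2 h4 (by positivity) (by positivity)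
  refine (mul_le_mul_of_nonneg_right h5 (norm_nonneg _)).trans (le_of_eq ?_)
  rw [mul_inv, mul_inv, ← Real.exp_neg, ← Real.rpow_neg ht0.le]
  have e6 : Real.exp (-(-(Real.pi * t / 2))) = Real.exp (δ * t) *
      Real.exp ((Real.pi / 2 - δ) * t) := by
    rw [← Real.exp_add]
    congr 1
    ring
  rw [e6, div_eq_mul_inv]
  ring

lemma dn_LLsq_far : ∃ K : ℝ, 0 < K ∧ ∀ w : ℂ, 1 < w.re → ‖LL w‖ ≤ K := by
  have hs := tau_summable (σ := 7) (by norm_num)
  refine ⟨(∑' n : ℕ, ‖tau n‖ / (n : ℝ) ^ (7 : ℝ)) + 1, ?_, fun w hw => ?_⟩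
  · have : 0 ≤ ∑' n : ℕ, ‖tau n‖ / (n : ℝ) ^ (7 : ℝ) := tsum_nonneg fun n => by positivity
    linarith
  · unfold LL
    have h := Lf_hasSum (s := 6 + w) (by simp; linarith)
    rw [← h.tsum_eq]
    have hb : ∀ n : ℕ, ‖tau n / (n : ℂ) ^ (6 + w)‖ ≤ ‖tau n‖ / (n : ℝ) ^ (7 : ℝ) := by
      intro n
      rcases Nat.eq_zero_or_pos n with hn | hn
      · subst hn
        have : tau 0 = 0 := tau_zero
        rw [this]
        simp
      · rw [norm_div, Complex.norm_natCast_cpow_of_pos hn]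
        have hn1 : (1 : ℝ) ≤ n := by exact_mod_cast hn
        apply div_le_div_of_nonneg_left (norm_nonneg _)
        · positivity
        · apply Real.rpow_le_rpow_of_exponent_le hn1
          simp
          linarith
    have hsum : Summable fun n : ℕ => ‖tau n / (n : ℂ) ^ (6 + w)‖ :=
      Summable.of_nonneg_of_le (fun _ => norm_nonneg _) hb hs
    have := norm_tsum_le_tsum_norm hsum
    have h3 := hsum.tsum_le_tsum hb hs
    linarith

lemma dn_LLsq_cts : Continuous LL := by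
  have h := Lf_differentiable.continuous
  unfold LL
  exact h.comp (by fun_prop)

/-- bound of the integral by a bound of the function -/
lemma dn_LLsq_triv {w : ℂ} {K T : ℝ} (hT : 2 ≤ T)
    (hb : ∀ y : ℝ, T / 4 ≤ y → y ≤ 8 * T → ‖LL (w + y * I)‖ ≤ K) :
    ∫ y in (T / 4)..(8 * T), ‖LL (w + y * I)‖ ^ 2 ≤ 16 * K ^ 2 * (T * Real.log T) := by
  have hle : T / 4 ≤ 8 * T := by linarith
  have hlog : 1 / 2 ≤ Real.log T := by
    have h2 := Real.log_two_gt_d9
    have h3 := Real.log_le_log (by norm_num) hT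
    linarith
  have h1 : ∫ y in (T / 4)..(8 * T), ‖LL (w + y * I)‖ ^ 2 ≤ ∫ _y in (T / 4)..(8 * T), K ^ 2 := by
    apply intervalIntegral.integral_mono_on hle
    · apply Continuous.intervalIntegrable
      have := dn_LLsq_cts
      fun_prop
    · exact intervalIntegrable_const
    · intro y hy
      exact pow_le_pow_left₀ (norm_nonneg _) (hb y hy.1 hy.2) 2
  refine h1.trans ?_
  rw [intervalIntegral.integral_const, smul_eq_mul]
  have hK : 0 ≤ K ^ 2 := sq_nonneg K
  have h3 : (8 * T - T / 4) ≤ 16 * (T * Real.log T) := by nlinarith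
  calc (8 * T - T / 4) * K ^ 2 ≤ 16 * (T * Real.log T) * K ^ 2 :=
        mul_le_mul_of_nonneg_right h3 hK
    _ = _ := by ring

/-- the main case -/
lemma dn_LLsq_main (hray : S_ray) (hsq : S_raySq) (hpl : S_planch) (hgam : S_gamLo) :
    ∃ C : ℝ, 0 < C ∧ ∀ B T σ β : ℝ, 0 ≤ B → 8 * B + 8 ≤ T → 0 ≤ σ → σ ≤ 1 → |β| ≤ B →
      ∫ y in (T / 4)..(8 * T), ‖Lf (6 + σ + ((β + y : ℝ) : ℂ) * I)‖ ^ 2 ≤
        C * (T * Real.log T) := by
  obtain ⟨c, hc, hG⟩ := hgam
  obtain ⟨C₀, hC₀, hS⟩ := hsq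
  have hpi := Real.pi_pos
  refine ⟨((2 * Real.pi) ^ 7 / c) ^ 2 * 8 ^ 13 * Real.exp 18 * (2 * Real.pi * C₀), by positivity,
    fun B T σ β hB hT hσ hσ1 hβ => ?_⟩
  have hT8 : 8 ≤ T := by linarith
  have hT0 : 0 < T := by linarith
  obtain ⟨hβ1, hβ2⟩ := abs_le.mp hβ
  set δ : ℝ := 1 / T with hδ
  have hδ0 : 0 < δ := by positivity
  have hδ1 : δ ≤ 1 / 2 := by
    rw [hδ]
    apply one_div_le_one_div_of_le (by norm_num)
    linarith
  have hδpi : δ < Real.pi := by
    have := Real.pi_gt_three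
    linarith
  set g : ℝ → ℂ := fun y : ℝ => Dc (y * cexp (δ * I)) with hg
  have hsub : ∫ y in (T / 4)..(8 * T), ‖Lf (6 + σ + ((β + y : ℝ) : ℂ) * I)‖ ^ 2 =
      ∫ t in (-(β + 8 * T))..(-(β + T / 4)), ‖Lf (6 + σ + ((-t : ℝ) : ℂ) * I)‖ ^ 2 := by
    rw [intervalIntegral.integral_comp_neg (f := fun t : ℝ => ‖Lf (6 + σ + (t : ℂ) * I)‖ ^ 2)]
    rw [neg_neg, neg_neg]
    rw [intervalIntegral.integral_comp_add_left (f := fun t : ℝ => ‖Lf (6 + σ + (t : ℂ) * I)‖ ^ 2)]
  rw [hsub]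
  have hLfc : Continuous Lf := Lf_differentiable.continuous
  have hle : -(β + 8 * T) ≤ -(β + T / 4) := by linarith
  set D : ℝ := ((2 * Real.pi) ^ 7 / c) ^ 2 * (8 ^ 13 * T ^ (-(11 + 2 * σ))) * Real.exp 18 with hD
  have hD0 : 0 ≤ D := by positivity
  have hmel : ∀ t : ℝ, mellin g (((6 + σ : ℝ) : ℂ) + (t : ℂ) * I) =
      cexp (I * (Real.pi / 2 - δ) * (((6 + σ : ℝ) : ℂ) + (t : ℂ) * I)) *
        Lam (((6 + σ : ℝ) : ℂ) + (t : ℂ) * I) := fun t => hray δ hδ0 hδpi _
  have hLamc : Continuous Lam := Lam_differentiable.continuous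
  have hmc : Continuous fun t : ℝ => mellin g (((6 + σ : ℝ) : ℂ) + (t : ℂ) * I) := by
    simp_rw [hmel]
    fun_prop
  have h1 : ∫ t in (-(β + 8 * T))..(-(β + T / 4)), ‖Lf (6 + σ + ((-t : ℝ) : ℂ) * I)‖ ^ 2 ≤
      ∫ t in (-(β + 8 * T))..(-(β + T / 4)),
        D * ‖mellin g (((6 + σ : ℝ) : ℂ) + (t : ℂ) * I)‖ ^ 2 := by
    apply intervalIntegral.integral_mono_on hle
    · apply Continuous.intervalIntegrable
      fun_prop
    · apply Continuous.intervalIntegrable
      fun_prop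
    · intro t ht
      have ht1 : T / 8 ≤ -t := by
        have := ht.2
        linarith
      have ht2 : -t ≤ 9 * T := by
        have := ht.1
        linarith
      have hp := dn_LLsq_pt hray hc hG hδ0 hδpi hσ hσ1 (t := -t) (by linarith)
      rw [neg_neg] at hp
      have hn0 : 0 < -t := by linarith
      have hsq := pow_le_pow_left₀ (norm_nonneg _) hp 2
      refine hsq.trans ?_
      rw [mul_pow]
      apply mul_le_mul_of_nonneg_right _ (by positivity)
      rw [mul_pow, mul_pow, hD]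
      have e1 : ((-t) ^ (-(11 / 2 + σ))) ^ 2 ≤ 8 ^ 13 * T ^ (-(11 + 2 * σ)) := by
        rw [← Real.rpow_natCast ((-t) ^ (-(11 / 2 + σ))) 2, ← Real.rpow_mul hn0.le]
        have e2 : -(11 / 2 + σ) * ((2 : ℕ) : ℝ) = -(11 + 2 * σ) := by
          push_cast
          ring
        rw [e2]
        have e3 : (-t) ^ (-(11 + 2 * σ)) ≤ (T / 8) ^ (-(11 + 2 * σ)) :=
          Real.rpow_le_rpow_of_nonpos (by positivity) ht1 (by linarith)
        refine e3.trans ?_
        rw [Real.div_rpow hT0.le (by norm_num), Real.rpow_neg (by norm_num : (0 : ℝ) ≤ 8),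
          div_inv_eq_mul, mul_comm]
        apply mul_le_mul_of_nonneg_right _ (by positivity)
        rw [← Real.rpow_natCast 8 13]
        apply Real.rpow_le_rpow_of_exponent_le (by norm_num)
        push_cast
        linarith
      have e4 : Real.exp (δ * -t) ^ 2 ≤ Real.exp 18 := by
        rw [← Real.exp_nat_mul]
        apply Real.exp_le_exp.mpr
        have : δ * -t ≤ 9 := by
          rw [hδ, div_mul_eq_mul_div, one_mul, div_le_iff₀ hT0]
          exact ht2
        push_cast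
        linarith
      apply mul_le_mul _ e4 (by positivity) (by positivity)
      apply mul_le_mul_of_nonneg_left e1 (by positivity)
  refine h1.trans ?_
  rw [intervalIntegral.integral_const_mul]
  have hconv := dn_LLsq_conv hray hδ0 hδpi (6 + σ)
  have hint := dn_LLsq_int hray hδ0 hδpi (6 + σ)
  have hP := hpl g (6 + σ) (dn_LLsq_cont hδ0 hδpi) hconv hint _ _ hle
  have hR := hS δ hδ0 hδ1 σ hσ hσ1
  have hexp : (2 * (6 + σ) - 1 : ℝ) = 11 + 2 * σ := by ring
  rw [hexp] at hP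
  have h3 : ∫ t in (-(β + 8 * T))..(-(β + T / 4)),
      ‖mellin g (((6 + σ : ℝ) : ℂ) + (t : ℂ) * I)‖ ^ 2 ≤
      2 * Real.pi * (C₀ * δ ^ (-(12 + 2 * σ)) * Real.log (1 / δ)) :=
    hP.trans (mul_le_mul_of_nonneg_left hR (by positivity))
  refine (mul_le_mul_of_nonneg_left h3 hD0).trans (le_of_eq ?_)
  have e5 : δ ^ (-(12 + 2 * σ)) = T ^ (11 + 2 * σ) * T := by
    rw [hδ, one_div, Real.inv_rpow hT0.le, Real.rpow_neg hT0.le, inv_inv]
    nth_rewrite 3 [← Real.rpow_one T]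
    rw [← Real.rpow_add hT0]
    congr 1
    ring
  have e6 : Real.log (1 / δ) = Real.log T := by
    rw [hδ, one_div_one_div]
  have e7 : T ^ (-(11 + 2 * σ)) * T ^ (11 + 2 * σ) = 1 := by
    rw [← Real.rpow_add hT0]
    simp
  rw [e5, e6, hD]
  calc ((2 * Real.pi) ^ 7 / c) ^ 2 * (8 ^ 13 * T ^ (-(11 + 2 * σ))) * Real.exp 18 *
        (2 * Real.pi * (C₀ * (T ^ (11 + 2 * σ) * T) * Real.log T))
      = ((2 * Real.pi) ^ 7 / c) ^ 2 * 8 ^ 13 * Real.exp 18 * (2 * Real.pi * C₀) *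
        (T * Real.log T) * (T ^ (-(11 + 2 * σ)) * T ^ (11 + 2 * σ)) := by ring
    _ = _ := by rw [e7, mul_one]

theorem p_LLsq (hray : S_ray) (hsq : S_raySq) (hpl : S_planch) (hgam : S_gamLo) : S_LLsq := by
  intro B₀
  set B : ℝ := max B₀ 0 with hBdef
  have hB : 0 ≤ B := le_max_right _ _
  obtain ⟨C₁, hC₁, hmain⟩ := dn_LLsq_main hray hsq hpl hgam
  obtain ⟨K, hK, hfar⟩ := dn_LLsq_far
  obtain ⟨K₂, hK₂, hLf⟩ := Lf_bound
  set M : ℝ := K₂ * (9 + (B + 8 * (8 * B + 8))) ^ 4 with hM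
  have hM0 : 0 ≤ M := by positivity
  refine ⟨C₁ + 16 * K ^ 2 + 16 * M ^ 2, by positivity, fun T hT w hw hwB₀ => ?_⟩
  have hwB : |w.im| ≤ B := hwB₀.trans (le_max_left _ _)
  have hlog : 0 ≤ Real.log T := Real.log_nonneg (by linarith)
  have hTl : 0 ≤ T * Real.log T := mul_nonneg (by linarith) hlog
  rw [mul_assoc]
  rcases le_or_gt w.re 1 with h1 | h1
  · rcases le_or_gt (8 * B + 8) T with h2 | h2
    · have h3 := hmain B T w.re w.im hB h2 hw h1 hwB
      have e : ∀ y : ℝ, LL (w + y * I) = Lf (6 + w.re + ((w.im + y : ℝ) : ℂ) * I) := by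
        intro y
        unfold LL
        congr 1
        apply Complex.ext <;> simp
      simp_rw [e]
      refine h3.trans ?_
      apply mul_le_mul_of_nonneg_right _ hTl
      have : 0 ≤ 16 * K ^ 2 + 16 * M ^ 2 := by positivity
      linarith
    · have h3 := dn_LLsq_triv (w := w) (K := M) hT (fun y hy1 hy2 => by
        have h4 := hLf (6 + (w + y * I)) (by simp; linarith)
        refine h4.trans ?_
        rw [hM]
        apply mul_le_mul_of_nonneg_left _ hK₂.le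
        apply pow_le_pow_left₀ (by positivity)
        have h5 : |(6 + (w + y * I)).im| ≤ B + 8 * (8 * B + 8) := by
          have e : (6 + (w + y * I)).im = w.im + y := by simp
          rw [e]
          refine (abs_add_le _ _).trans ?_
          have : |y| = y := abs_of_nonneg (by linarith)
          rw [this]
          linarith
        linarith)
      refine h3.trans ?_
      apply mul_le_mul_of_nonneg_right _ hTl
      have : 0 ≤ 16 * K ^ 2 := by positivity
      linarith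
  · have h3 := dn_LLsq_triv (w := w) (K := K) hT (fun y hy1 hy2 => hfar _ (by simpa using h1))
    refine h3.trans ?_
    apply mul_le_mul_of_nonneg_right _ hTl
    have : 0 ≤ 16 * M ^ 2 := by positivity
    linarith

end Pool.Agent.Lib.MP_cd509c_nt.DN
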