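import Pool.Agent.Lib.MP_cd509c_nt.DN.Defs

/-!
# The non-real zeros of the derivatives in one block
-/

set_option autoImplicit false

namespace Pool.Agent.Lib.MP_cd509c_nt.DN

open Complex ComplexConjugate MeasureTheory

theorem dn_blockD_conj (n : ℕ) (z : ℂ) :
    iteratedDeriv n Xi (conj z) = conj (iteratedDeriv n Xi z) := by
  have h : ∀ n : ℕ, (conj ∘ iteratedDeriv n Xi ∘ conj : ℂ → ℂ) = iteratedDeriv n Xi := by
    intro n
    induction n with
    | zero =>
      funext w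
      simp only [iteratedDeriv_zero, Function.comp_apply]
      unfold Xi
      rw [Lam_symm (conj w), ← Lam_conj]
      congr 1
      have h6 : conj (6 : ℂ) = 6 := map_ofNat _ 6
      simp [h6]
    | succ n ih =>
      rw [iteratedDeriv_succ, ← deriv_conj_conj, ih]
  have h1 := congrFun (h n) (conj z)
  simp only [Function.comp_apply, conj_conj] at h1
  exact h1.symm

theorem dn_blockD_lev (hlink : S_linkD) {n : ℕ} {x a l : ℝ} (hx : 0 < x) (ha : 0 < a)
    (hn : (n : ℝ) = a * l) {z : ℂ} (hz : iteratedDeriv n Xi z = 0) (hre : z.re = x) :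
    iteratedDeriv n (la n (Rx x a l)) ((|z.im| / a : ℝ) : ℂ) = 0 := by
  have h0 : iteratedDeriv n Xi ((x : ℂ) - I * (a * ((|z.im| / a : ℝ) : ℂ))) = 0 := by
    have e1 : (a : ℂ) * ((|z.im| / a : ℝ) : ℂ) = ((|z.im| : ℝ) : ℂ) := by
      rw [← ofReal_mul]
      congr 1
      field_simp
    rw [e1]
    rcases le_total z.im 0 with h | h
    · have e2 : (x : ℂ) - I * ((|z.im| : ℝ) : ℂ) = z := by
        rw [abs_of_nonpos h]
        apply Complex.ext <;> simp [hre]
      rw [e2, hz]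
    · have e2 : (x : ℂ) - I * ((|z.im| : ℝ) : ℂ) = conj z := by
        rw [abs_of_nonneg h]
        apply Complex.ext <;> simp [hre]
      rw [e2, dn_blockD_conj, hz, map_zero]
  rw [hlink n x a l _ hx ha hn] at h0
  have h1 : I ^ n * m0 x / (a : ℂ) ^ n ≠ 0 := by
    apply div_ne_zero
    · exact mul_ne_zero (pow_ne_zero _ I_ne_zero) (m0_ne x)
    · exact pow_ne_zero _ (by exact_mod_cast ha.ne')
  exact (mul_eq_zero.mp h0).resolve_left h1

theorem dn_blockD_dif (N : ℝ) {R : ℂ → ℂ} (hR : Differentiable ℂ R) (n : ℕ) :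
    Differentiable ℂ (iteratedDeriv n (la N R)) := by
  have h : Differentiable ℂ (la N R) := by
    unfold la
    fun_prop
  exact (h.contDiff (n := ⊤)).differentiable_iteratedDeriv n
    (by exact_mod_cast WithTop.coe_lt_top _)

theorem dn_blockD_ord (hlink : S_linkD) {n : ℕ} {x a l : ℝ} (hx : 0 < x) (ha : 0 < a)
    (hn : (n : ℝ) = a * l) (hR : Differentiable ℂ (Rx x a l)) (w : ℂ) :
    analyticOrderNatAt (iteratedDeriv n Xi) ((x : ℂ) - I * (a * w)) =
      analyticOrderNatAt (iteratedDeriv n (la n (Rx x a l))) w := by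
  have hne : I ^ n * m0 x / (a : ℂ) ^ n ≠ 0 := by
    apply div_ne_zero
    · exact mul_ne_zero (pow_ne_zero _ I_ne_zero) (m0_ne x)
    · exact pow_ne_zero _ (by exact_mod_cast ha.ne')
  have ha' : (a : ℂ) ≠ 0 := by exact_mod_cast ha.ne'
  set g : ℂ → ℂ := fun w => (x : ℂ) - I * (a * w) with hg
  have hgd : ∀ w, HasDerivAt g (-(I * a)) w := by
    intro w
    have h1 : HasDerivAt (fun w : ℂ => I * ((a : ℂ) * w)) (I * (a * 1)) w :=
      ((hasDerivAt_id w).const_mul (a : ℂ)).const_mul I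
    have h2 := h1.const_sub (x : ℂ)
    rw [mul_one] at h2
    exact h2
  have hga : AnalyticAt ℂ g w := by
    have : Differentiable ℂ g := fun w => (hgd w).differentiableAt
    exact this.analyticAt w
  have h1 : analyticOrderAt (iteratedDeriv n Xi ∘ g) w =
      analyticOrderAt (iteratedDeriv n Xi) (g w) := by
    apply analyticOrderAt_comp_of_deriv_ne_zero hga
    rw [(hgd w).deriv]
    exact neg_ne_zero.mpr (mul_ne_zero I_ne_zero ha')
  have h2 : iteratedDeriv n Xi ∘ g = (fun _ => I ^ n * m0 x / (a : ℂ) ^ n) *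
      iteratedDeriv n (la n (Rx x a l)) := by
    funext w
    simp only [Function.comp_apply, Pi.mul_apply, hg]
    exact hlink n x a l w hx ha hn
  have h3 : analyticOrderAt (iteratedDeriv n Xi ∘ g) w =
      analyticOrderAt (iteratedDeriv n (la n (Rx x a l))) w := by
    rw [h2, analyticOrderAt_mul analyticAt_const ((dn_blockD_dif _ hR n).analyticAt w)]
    rw [(analyticAt_const (v := I ^ n * m0 x / (a : ℂ) ^ n) (x := w)).analyticOrderAt_eq_zero.mpr
      hne, zero_add]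
  unfold analyticOrderNatAt
  rw [← h3, h1]

theorem dn_blockD_sum (hlink : S_linkD) (hjen : S_jen) {n : ℕ} {x a l b C : ℝ} (hx : 0 < x)
    (ha : 0 < a) (hb : 0 < b)
    (hn : (n : ℝ) = a * l) (hR : Differentiable ℂ (Rx x a l))
    (h0 : iteratedDeriv n (la n (Rx x a l)) ((2 * b : ℝ) : ℂ) ≠ 0)
    (h1 : ∀ w : ℂ, ‖w - ((2 * b : ℝ) : ℂ)‖ ≤ 16 * b →
      ‖iteratedDeriv n (la n (Rx x a l)) w‖ ≤
        Real.exp (C * n * b) * ‖iteratedDeriv n (la n (Rx x a l)) ((2 * b : ℝ) : ℂ)‖)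
    (S : Finset ℂ) (hS : ∀ z ∈ S, |z.re - x| ≤ b * a ∧ |z.im| ≤ b * a) :
    ∑ z ∈ S, (analyticOrderNatAt (iteratedDeriv n Xi) z : ℝ) ≤ C / Real.log 3 * b * n := by
  classical
  have ha' : (a : ℂ) ≠ 0 := by exact_mod_cast ha.ne'
  set φ : ℂ → ℂ := fun z => (z - x) * I / a with hφ
  have hinv : ∀ z, (x : ℂ) - I * (a * φ z) = z := by
    intro z
    simp only [hφ]
    field_simp
    ring_nf
    rw [I_sq]
    ring
  have hinj : Function.Injective φ := by
    intro z z' h
    rw [← hinv z, h, hinv z']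
  have hJ := hjen (iteratedDeriv n (la n (Rx x a l))) ((2 * b : ℝ) : ℂ) (4 * b)
    (Real.exp (C * n * b) * ‖iteratedDeriv n (la n (Rx x a l)) ((2 * b : ℝ) : ℂ)‖)
    (dn_blockD_dif _ hR n) (by linarith) (by
      intro w hw
      apply h1 w
      linarith) h0 (S.image φ) (by
      intro w hw
      rw [Finset.mem_image] at hw
      obtain ⟨z, hz, rfl⟩ := hw
      obtain ⟨hz1, hz2⟩ := hS z hz
      have hre : (φ z).re = -z.im / a := by
        simp only [hφ]
        rw [div_ofReal_re]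
        simp
      have him : (φ z).im = (z.re - x) / a := by
        simp only [hφ]
        rw [div_ofReal_im]
        simp
      have hre' : |(φ z).re| ≤ b := by
        rw [hre, abs_div, abs_neg, abs_of_pos ha, div_le_iff₀ ha]
        exact hz2
      have him' : |(φ z).im| ≤ b := by
        rw [him, abs_div, abs_of_pos ha, div_le_iff₀ ha]
        exact hz1
      calc ‖φ z - ((2 * b : ℝ) : ℂ)‖ ≤ ‖φ z‖ + ‖((2 * b : ℝ) : ℂ)‖ := norm_sub_le _ _
        _ ≤ (|(φ z).re| + |(φ z).im|) + 2 * b := by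
          apply add_le_add (Complex.norm_le_abs_re_add_abs_im _)
          rw [norm_real, Real.norm_eq_abs, abs_of_pos (by linarith)]
        _ ≤ 4 * b := by linarith)
  rw [Finset.sum_image (fun z _ z' _ h => hinj h)] at hJ
  have e1 : ∀ z ∈ S, (analyticOrderNatAt (iteratedDeriv n (la n (Rx x a l))) (φ z) : ℝ) =
      (analyticOrderNatAt (iteratedDeriv n Xi) z : ℝ) := by
    intro z _
    rw [← dn_blockD_ord hlink hx ha hn hR, hinv]
  rw [Finset.sum_congr rfl e1] at hJ
  have h3 : (0 : ℝ) < Real.log 3 := Real.log_pos (by norm_num)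
  rw [mul_div_assoc, div_self (by simpa using h0), mul_one, Real.log_exp] at hJ
  rw [show C / Real.log 3 * b * n = C * n * b / Real.log 3 by ring, le_div_iff₀ h3]
  exact hJ

theorem dn_blockD_J {a V : ℝ} (ha : 0 < a) (hV : a ≤ 2 * V) :
    ∃ J : ℕ, V ≤ 2 ^ J * a ∧ 2 ^ J * a ≤ 2 * V ∧ ∀ j < J, 2 ^ j * a < V := by
  classical
  have hex : ∃ J : ℕ, V ≤ 2 ^ J * a := by
    obtain ⟨J, hJ⟩ := pow_unbounded_of_one_lt (V / a) (one_lt_two : (1 : ℝ) < 2)
    refine ⟨J, ?_⟩
    rw [div_lt_iff₀ ha] at hJ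
    exact hJ.le
  refine ⟨Nat.find hex, Nat.find_spec hex, ?_, ?_⟩
  · rcases Nat.eq_zero_or_pos (Nat.find hex) with h | h
    · rw [h]; simpa using hV
    · have h1 := Nat.find_min hex (Nat.sub_lt h one_pos)
      rw [not_le] at h1
      have h2 : (2 : ℝ) ^ Nat.find hex = 2 * 2 ^ (Nat.find hex - 1) := by
        rw [← pow_succ']
        congr 1
        omega
      rw [h2]
      nlinarith
  · intro j hj
    have := Nat.find_min hex hj
    rwa [not_le] at this

theorem dn_blockD_log {T x : ℝ} (hT : 0 < T) (h1 : T ≤ x) (h2 : x ≤ 2 * T) :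
    |Real.log x - Real.log T| ≤ 1 := by
  have hx : 0 < x := by linarith
  rw [← Real.log_div hx.ne' hT.ne', abs_of_nonneg]
  · have h3 : x / T ≤ 2 := by rw [div_le_iff₀ hT]; exact h2
    have h4 : Real.log (x / T) ≤ Real.log 2 := Real.log_le_log (by positivity) h3
    have := Real.log_two_lt_d9
    linarith
  · apply Real.log_nonneg
    rw [le_div_iff₀ hT]
    linarith

theorem p_blockD (hasm : S_asm) (htop : S_top) (hreg : S_reg) (hsym : S_symR) (hPD : S_PD)
    (hZD : S_ZD) (hjen : S_jen) (hstrip : S_stripD) (hlink : S_linkD) (F : ℝ → ℝ)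
    (hF : ∀ T : ℝ, 2 ≤ T → 0 ≤ F T) (hm : S_mb F) : S_blockD F := by
  intro A hA
  obtain ⟨ε₁, N₁, hε₁, hN₁, hPD'⟩ := hPD
  obtain ⟨ε₂, N₂, C₂, hε₂, hN₂, hC₂, hZD'⟩ := hZD
  obtain ⟨B, hB, hstrip'⟩ := hstrip
  obtain ⟨V₀, hV₀, hreg'⟩ := hreg
  set ε : ℝ := min ε₁ ε₂ with hε
  have hε0 : 0 < ε := lt_min hε₁ hε₂
  have hεa : ε ≤ ε₁ := min_le_left _ _
  have hεb : ε ≤ ε₂ := min_le_right _ _
  obtain ⟨V, l₁, hV1, hV2, htop'⟩ := htop (ε / 100) (by positivity) (max V₀ (max A B))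
  have hVV₀ : V₀ ≤ V := (le_max_left _ _).trans hV1
  have hVA : A ≤ V := ((le_max_left _ _).trans (le_max_right _ _)).trans hV1
  have hVB : B ≤ V := ((le_max_right _ _).trans (le_max_right _ _)).trans hV1
  obtain ⟨l₂, hl₂, hreg''⟩ := hreg' ε A V hε0 hA hVV₀
  obtain ⟨C₃, c, T₁, hC₃, hc, hT₁, hm'⟩ := hm (ε / 100) V (by positivity) hV2
  have h3 : (0 : ℝ) < Real.log 3 := Real.log_pos (by norm_num)
  obtain ⟨C₄, hC₄, hasm'⟩ := hasm (C₂ / Real.log 3) C₃ c (by positivity) hC₃ hc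
  refine ⟨max C₄ (max 1 (max N₁ N₂)), c, max T₁ (max (Real.exp l₁) (Real.exp l₂)),
    lt_of_lt_of_le hC₄ (le_max_left _ _), hc, hT₁.trans (le_max_left _ _), ?_⟩
  intro n T hT hn hnA S hS
  have hT1 : T₁ ≤ T := (le_max_left _ _).trans hT
  have hT2 : (2 : ℝ) ≤ T := hT₁.trans hT1
  have hT0 : 0 < T := by linarith
  have hTl₁ : l₁ ≤ Real.log T := by
    rw [Real.le_log_iff_exp_le hT0]
    exact ((le_max_left _ _).trans (le_max_right _ _)).trans hT
  have hTl₂ : l₂ ≤ Real.log T := by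
    rw [Real.le_log_iff_exp_le hT0]
    exact ((le_max_right _ _).trans (le_max_right _ _)).trans hT
  have hnC : C₄ ≤ n := (le_max_left _ _).trans hn
  have hn1 : (1 : ℝ) ≤ n := ((le_max_left _ _).trans (le_max_right _ _)).trans hn
  have hnN₁ : N₁ ≤ n :=
    (((le_max_left _ _).trans (le_max_right _ _)).trans (le_max_right _ _)).trans hn
  have hnN₂ : N₂ ≤ n :=
    (((le_max_right _ _).trans (le_max_right _ _)).trans (le_max_right _ _)).trans hn
  set l : ℝ := Real.log T with hl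
  have hl0 : 0 < l := lt_of_lt_of_le (by linarith) hTl₂
  set a : ℝ := n / l with ha
  have ha0 : 0 < a := by positivity
  have haA : a ≤ A := by rw [ha, div_le_iff₀ hl0]; exact hnA
  have hnal : (n : ℝ) = a * l := by rw [ha]; field_simp
  obtain ⟨J, hJ1, hJ2, hJ3⟩ := dn_blockD_J ha0 (show a ≤ 2 * V by linarith)
  have hFT : 0 ≤ F T := hF T hT2
  have hY : ∀ j : ℕ, j ≤ J → 40 * (2 : ℝ) ^ j ≤ 100 * V / a := by
    intro j hj
    rw [le_div_iff₀ ha0]
    have h1 : (2 : ℝ) ^ j ≤ 2 ^ J := pow_le_pow_right₀ (by norm_num) hj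
    nlinarith [mul_le_mul_of_nonneg_right h1 ha0.le]
  have hYs : ∀ z : ℂ, iteratedDeriv n Xi z = 0 → |z.im| / a ≤ 100 * V / a / 2 - 2 := by
    intro z hz
    have h1 := hstrip' n z hz
    rw [show 100 * V / a / 2 - 2 = (50 * V - 2 * a) / a by field_simp; ring]
    apply div_le_div_of_nonneg_right _ ha0.le
    linarith
  have hRg : ∀ x : ℝ, T ≤ x → x ≤ 2 * T → ∀ j ≤ J,
      (∀ i, j ≤ i → i ≤ J → Good (ε / 100) x (2 ^ i * a) l) →
      Reg ε n (2 ^ j) (100 * V / a) (Rx x a l) := by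
    intro x hx1 hx2 j hj hg
    have := hreg'' l hTl₂ x (by linarith) (dn_blockD_log hT0 hx1 hx2) a ha0 haA
      (by rw [← hnal]; exact hn1) j J hj hJ1 hJ2 hg
    rwa [← hnal] at this
  have hSy : ∀ x : ℝ, Sym (la n (Rx x a l)) := by
    intro x
    rw [hnal]
    exact hsym x a l
  have hpow : ∀ j : ℕ, 1 ≤ (2 : ℝ) ^ j := fun j => one_le_pow₀ (by norm_num)
  have key := hasm' (iteratedDeriv n Xi) T l a n (F T) J
    (fun x j => Good (ε / 100) x (2 ^ j * a) l) hn1 ha0 hl0 hnal hFT (by linarith)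
    (by
      intro x hx1 hx2 hg z hz hre
      by_contra him
      have hR := hRg x hx1 hx2 0 (Nat.zero_le _) (fun i _ hi => hg i hi)
      rw [pow_zero] at hR
      have h1 := (hPD' n ε 1 (100 * V / a) (Rx x a l) hε0 hεa hnN₁ le_rfl
        (by simpa using hY 0 (Nat.zero_le _)) hR (hSy x)).1 rfl (|z.im| / a)
        (div_pos (abs_pos.mpr him) ha0) (hYs z hz)
      exact h1 (dn_blockD_lev hlink (by linarith) ha0 hnal hz hre))
    (by
      intro x hx1 hx2 j hj hj1 hg z hz hre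
      by_contra him
      rw [not_le] at him
      have hR := hRg x hx1 hx2 j hj hg
      have hb2 : (2 : ℝ) ≤ 2 ^ j := by
        calc (2 : ℝ) = 2 ^ 1 := by norm_num
          _ ≤ 2 ^ j := pow_le_pow_right₀ (by norm_num) hj1
      have h1 := (hPD' n ε (2 ^ j) (100 * V / a) (Rx x a l) hε0 hεa hnN₁ (hpow j)
        (hY j hj) hR (hSy x)).2 hb2 (|z.im| / a)
        (by rw [le_div_iff₀ ha0]; exact him.le) (hYs z hz)
      exact h1 (dn_blockD_lev hlink (by linarith) ha0 hnal hz hre))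
    (by
      intro x hx1 hx2 j hj hj1 hg S' hS'
      have hR := hRg x hx1 hx2 j hj hg
      obtain ⟨h1, h2⟩ := hZD' n ε (2 ^ j) (100 * V / a) (Rx x a l) hε0 hεb hnN₂ (hpow j)
        (hY j hj) hR (hSy x)
      exact dn_blockD_sum hlink hjen (by linarith) ha0 (by positivity) hnal hR.diff h1 h2 S' hS')
    (by
      intro x hx1 hx2
      exact htop' l hTl₁ x (by linarith) (dn_blockD_log hT0 hx1 hx2) _ hJ1 hJ2)
    (by
      intro j hj S' hS'
      have h1 := hm' T hT1 (2 ^ j * a) (by positivity) (hJ3 j hj).le S' hS'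
      rw [show c * (2 ^ j * a) * Real.log T = c * 2 ^ j * n by rw [hnal]; ring] at h1
      exact h1)
    S hS
  refine key.trans ?_
  apply mul_le_mul_of_nonneg_right _ (Real.exp_pos _).le
  apply mul_le_mul_of_nonneg_right _ hFT
  apply mul_le_mul_of_nonneg_right _ hl0.le
  apply mul_le_mul_of_nonneg_right (le_max_left _ _) hT0.le

end Pool.Agent.Lib.MP_cd509c_nt.DN
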