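import Pool.Agent.Lib.MP_cd509c_nt.DN.Defs4

/-!
# Heat flow, one block: zeros which are not real or not simple
-/

set_option autoImplicit false

namespace Pool.Agent.Lib.MP_cd509c_nt.DN

open Complex ComplexConjugate MeasureTheory

/-- a power of two in the window -/
private theorem dn_blockHs_pow (V a : ℝ) (ha : 0 < a) (haV : a ≤ V) :
    ∃ J : ℕ, V ≤ 2 ^ J * a ∧ 2 ^ J * a ≤ 2 * V := by
  have hex : ∃ n : ℕ, V ≤ 2 ^ n * a := by
    obtain ⟨n, hn⟩ := pow_unbounded_of_one_lt (V / a) (by norm_num : (1 : ℝ) < 2)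
    refine ⟨n, ?_⟩
    rw [div_lt_iff₀ ha] at hn
    exact hn.le
  classical
  refine ⟨Nat.find hex, Nat.find_spec hex, ?_⟩
  rcases Nat.eq_zero_or_pos (Nat.find hex) with h | h
  · rw [h, pow_zero, one_mul]
    linarith
  · have h1 := Nat.find_min hex (Nat.sub_lt h one_pos)
    push Not at h1
    have h2 : (2 : ℝ) ^ (Nat.find hex) = 2 * 2 ^ (Nat.find hex - 1) := by
      rw [← pow_succ']
      congr 1
      omega
    rw [h2]
    linarith

/-- reflection of a zero to the lower half plane -/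
private theorem dn_blockHs_low (t : ℝ) (z : ℂ) (hz : Ht t z = 0) :
    Ht t ((z.re : ℂ) - I * ((|z.im| : ℝ) : ℂ)) = 0 := by
  rcases le_total 0 z.im with h | h
  · have h1 : (z.re : ℂ) - I * ((|z.im| : ℝ) : ℂ) = conj z := by
      rw [abs_of_nonneg h]
      apply Complex.ext
      · simp
      · simp
    rw [h1, Ht_conj', hz, map_zero]
  · have h1 : (z.re : ℂ) - I * ((|z.im| : ℝ) : ℂ) = z := by
      rw [abs_of_nonpos h]
      apply Complex.ext
      · simp
      · simp
    rw [h1, hz]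

/-- the heat flow is entire -/
private theorem dn_blockHs_diff (t : ℝ) : Differentiable ℂ (Ht t) := by
  have h := (Ker_PhiT t).FT_differentiable
  have e : FT (PhiT t) = Ht t := funext (FT_PhiT t)
  rwa [e] at h

theorem p_blockHs (hasm : S_asms) (htop : S_top) (hreg : S_reg) (hsym : S_symR) (hPH : S_PH)
    (hZH : S_ZH) (hPHs : S_PHs) (hjen : S_jen) (hlink : S_linkH) (hm : S_mb (fun _ => 1)) :
    S_blockHs := by
  intro A hA
  obtain ⟨ε₁, N₁, hε₁, hN₁, hPH⟩ := hPH
  obtain ⟨ε₂, N₂, C₁, hε₂, hN₂, hC₁, hZH⟩ := hZH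
  obtain ⟨ε₃, N₃, hε₃, hN₃, hPHs⟩ := hPHs
  obtain ⟨V₀, hV₀, hreg⟩ := hreg
  obtain ⟨B, hB, hstrip⟩ := Ht_strip_all
  obtain ⟨ε, hεd⟩ : ∃ ε : ℝ, ε = min ε₁ (min ε₂ ε₃) := ⟨_, rfl⟩
  have hε : 0 < ε := by rw [hεd]; exact lt_min hε₁ (lt_min hε₂ hε₃)
  have hεε₁ : ε ≤ ε₁ := by rw [hεd]; exact min_le_left _ _
  have hεε₂ : ε ≤ ε₂ := by rw [hεd]; exact (min_le_right _ _).trans (min_le_left _ _)
  have hεε₃ : ε ≤ ε₃ := by rw [hεd]; exact (min_le_right _ _).trans (min_le_right _ _)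
  obtain ⟨V, l₁, hV1, hV1', htop⟩ := htop (ε / 100) (by positivity) (V₀ + B + 8 * A)
  obtain ⟨l₀, hl₀, hreg⟩ := hreg ε (2 * A) V hε (by linarith) (by linarith)
  obtain ⟨Cm, cm, Tm, hCm, hcm, hTm, hm⟩ := hm (ε / 100) (2 * V) (by positivity) (by linarith)
  obtain ⟨C₃, hC₃, hasm⟩ := hasm C₁ Cm cm hC₁ hCm hcm
  refine ⟨N₁ + N₂ + N₃ + C₃, 2 * cm, max (max 2 Tm) (max (Real.exp l₀) (Real.exp (max l₁ 1))),
    by linarith, by linarith, (le_max_left _ _).trans (le_max_left _ _), ?_⟩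
  intro t T hT ht hCt htA S hS
  have hT2 : 2 ≤ T := ((le_max_left _ _).trans (le_max_left _ _)).trans hT
  have hTm' : Tm ≤ T := ((le_max_right _ _).trans (le_max_left _ _)).trans hT
  have hT0 : 0 < T := by linarith
  have hTl0 : Real.exp l₀ ≤ T := ((le_max_left _ _).trans (le_max_right _ _)).trans hT
  have hTl1 : Real.exp (max l₁ 1) ≤ T := ((le_max_right _ _).trans (le_max_right _ _)).trans hT
  obtain ⟨l, hl⟩ : ∃ l : ℝ, l = Real.log T := ⟨_, rfl⟩
  have hl0 : l₀ ≤ l := by rw [hl]; exact (Real.le_log_iff_exp_le hT0).mpr hTl0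
  have hl1 : max l₁ 1 ≤ l := by rw [hl]; exact (Real.le_log_iff_exp_le hT0).mpr hTl1
  have hll1 : l₁ ≤ l := (le_max_left _ _).trans hl1
  have hl1' : 1 ≤ l := (le_max_right _ _).trans hl1
  have hlpos : 0 < l := by linarith
  obtain ⟨a, ha⟩ : ∃ a : ℝ, a = 2 * t * l := ⟨_, rfl⟩
  have ha0 : 0 < a := by rw [ha]; positivity
  rw [← hl] at hCt htA
  have haA : a ≤ 2 * A := by rw [ha]; nlinarith
  have haN : a * l = 2 * (t * l ^ 2) := by rw [ha]; ring
  have hN0 : N₁ + N₂ + N₃ + C₃ ≤ a * l := by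
    rw [haN]
    have : 0 < t * l ^ 2 := by positivity
    linarith
  have hN1 : 1 ≤ a * l := by linarith
  have hNN₁ : N₁ ≤ a * l := by linarith
  have hNN₂ : N₂ ≤ a * l := by linarith
  have hNN₃ : N₃ ≤ a * l := by linarith
  obtain ⟨J, hJ1, hJ2⟩ := dn_blockHs_pow V a ha0 (by linarith)
  have hlink' : ∀ (x : ℝ) (w : ℂ), 0 < x → Ht t ((x : ℂ) - I * ((a : ℂ) * w)) =
      ((Nt t : ℂ) * (a : ℂ) * m0 x) * FH (a * l) (Rx x a l) w := by
    intro x w hx
    have h := hlink t x l w hx ht hlpos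
    rw [← ha] at h
    rw [h, ha]
    push_cast
    ring
  have hKne : ∀ x : ℝ, ((Nt t : ℂ) * (a : ℂ) * m0 x) ≠ 0 := by
    intro x
    refine mul_ne_zero (mul_ne_zero ?_ ?_) (m0_ne x)
    · exact_mod_cast (Nt_pos ht).ne'
    · exact_mod_cast ha0.ne'
  have hlog : ∀ x : ℝ, T ≤ x → x ≤ 2 * T → |Real.log x - l| ≤ 1 := by
    intro x h1 h2
    have hx : 0 < x := by linarith
    have h3 : Real.log T ≤ Real.log x := Real.log_le_log hT0 h1
    have h4 : Real.log x ≤ Real.log (2 * T) := Real.log_le_log hx h2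
    rw [Real.log_mul (by norm_num) hT0.ne'] at h4
    have h5 : Real.log 2 ≤ 1 := by
      have := Real.log_two_lt_d9
      linarith
    rw [hl, abs_le]
    constructor <;> linarith
  have hpow : ∀ i : ℕ, i ≤ J → 2 ^ i * a ≤ 2 * V := by
    intro i hi
    refine le_trans (mul_le_mul_of_nonneg_right (pow_le_pow_right₀ (by norm_num) hi) ha0.le) hJ2
  have hY : ∀ i : ℕ, i ≤ J → 40 * (2 : ℝ) ^ i ≤ 100 * V / a := by
    intro i hi
    rw [le_div_iff₀ ha0]
    have := hpow i hi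
    linarith
  have hReg : ∀ x : ℝ, T ≤ x → x ≤ 2 * T → ∀ i : ℕ, i ≤ J →
      (∀ j : ℕ, i ≤ j → j ≤ J → Good (ε / 100) x (2 ^ j * a) l) →
      Reg ε (a * l) (2 ^ i) (100 * V / a) (Rx x a l) := fun x h1 h2 i hi hG =>
    hreg l hl0 x (by linarith) (hlog x h1 h2) a ha0 haA hN1 i J hi hJ1 hJ2 hG
  -- zeros with positive imaginary part distance
  have hzero : ∀ z : ℂ, Ht t z = 0 → T ≤ z.re →
      FH (a * l) (Rx z.re a l) ((|z.im| / a : ℝ) : ℂ) = 0 := by
    intro z hz hzr
    have h1 := dn_blockHs_low t z hz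
    have h2 : ((|z.im| : ℝ) : ℂ) = (a : ℂ) * ((|z.im| / a : ℝ) : ℂ) := by
      rw [← Complex.ofReal_mul, mul_div_cancel₀ _ ha0.ne']
    rw [h2, hlink' z.re _ (by linarith)] at h1
    exact (mul_eq_zero.mp h1).resolve_left (hKne z.re)
  have hYim : ∀ z : ℂ, Ht t z = 0 → |z.im| / a ≤ 100 * V / a / 2 - 2 := by
    intro z hz
    have h1 := hstrip t ht.le z hz
    have h2 : 100 * V / a / 2 - 2 = (50 * V - 2 * a) / a := by
      field_simp
      ring
    rw [h2]
    refine div_le_div_of_nonneg_right ?_ ha0.le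
    linarith
  have key := hasm (Ht t) (fun z => z.im ≠ 0 ∨ deriv (Ht t) z = 0) T l a (a * l) 1 J
    (fun x j => Good (ε / 100) x (2 ^ j * a) l)
    hN1 ha0 hlpos rfl zero_le_one (by linarith) ?_ ?_ ?_ ?_ ?_ S hS
  · have h1 : Real.exp (-(cm * (a * l))) = Real.exp (-(2 * cm * t * Real.log T ^ 2)) := by
      congr 1
      rw [haN, hl]
      ring
    rw [h1, hl] at key
    refine key.trans ?_
    have hlogT : 0 < Real.log T := by rw [← hl]; exact hlpos
    have h2 : 0 ≤ T * Real.log T * Real.exp (-(2 * cm * t * Real.log T ^ 2)) := by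
      positivity
    have h3 : C₃ * T * Real.log T * 1 * Real.exp (-(2 * cm * t * Real.log T ^ 2)) =
        C₃ * (T * Real.log T * Real.exp (-(2 * cm * t * Real.log T ^ 2))) := by ring
    have h4 : (N₁ + N₂ + N₃ + C₃) * T * Real.log T *
        Real.exp (-(2 * cm * t * Real.log T ^ 2)) =
        (N₁ + N₂ + N₃ + C₃) * (T * Real.log T * Real.exp (-(2 * cm * t * Real.log T ^ 2))) := by
      ring
    rw [h3, h4]
    exact mul_le_mul_of_nonneg_right (by linarith) h2
  · -- all scales good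
    intro x hx1 hx2 hG z hz hzx
    have hR := hReg x hx1 hx2 0 (Nat.zero_le _) (fun j _ hj => hG j hj)
    rw [pow_zero] at hR
    have h40 := hY 0 (Nat.zero_le _)
    rw [pow_zero] at h40
    rintro (him | hder)
    · have h1 := (hPH (a * l) ε 1 (100 * V / a) (Rx x a l) hε hεε₁ hNN₁ le_rfl h40 hR
        (hsym x a l)).1 rfl (|z.im| / a) (div_pos (abs_pos.mpr him) ha0) (hYim z hz)
      have h2 := hzero z hz (by rw [hzx]; exact hx1)
      rw [hzx] at h2
      exact h1 h2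
    · by_cases him : z.im = 0
      · have hzx' : z = (x : ℂ) := Complex.ext (by simpa using hzx) (by simpa using him)
        rw [hzx'] at hz hder
        have hx0 : 0 < x := by linarith
        have hK := hKne x
        have h0 : FH (a * l) (Rx x a l) 0 = 0 := by
          have h1 := hlink' x 0 hx0
          rw [mul_zero, mul_zero, sub_zero, hz] at h1
          exact (mul_eq_zero.mp h1.symm).resolve_left hK
        have h1 := hPHs (a * l) ε (100 * V / a) (Rx x a l) hε hεε₃ hNN₃ (by linarith) hR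
          (hsym x a l) h0
        apply h1
        have h2 : HasDerivAt (fun w : ℂ => (x : ℂ) - I * ((a : ℂ) * w)) (-(I * (a : ℂ))) 0 := by
          have h3 := (((hasDerivAt_id (0 : ℂ)).const_mul (a : ℂ)).const_mul I).const_sub (x : ℂ)
          simpa using h3
        have h4 : HasDerivAt (Ht t) 0 ((fun w : ℂ => (x : ℂ) - I * ((a : ℂ) * w)) 0) := by
          have h5 := (dn_blockHs_diff t (x : ℂ)).hasDerivAt
          rw [hder] at h5
          simpa using h5
        have h6 := h4.comp (0 : ℂ) h2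
        rw [zero_mul] at h6
        have h7 : (Ht t ∘ fun w : ℂ => (x : ℂ) - I * ((a : ℂ) * w)) =
            fun w : ℂ => ((Nt t : ℂ) * (a : ℂ) * m0 x) * FH (a * l) (Rx x a l) w := by
          funext w
          exact hlink' x w hx0
        rw [h7] at h6
        have h8 := h6.deriv
        rw [deriv_const_mul_field] at h8
        exact (mul_eq_zero.mp h8).resolve_left hK
      · have h1 := (hPH (a * l) ε 1 (100 * V / a) (Rx x a l) hε hεε₁ hNN₁ le_rfl h40 hR
          (hsym x a l)).1 rfl (|z.im| / a) (div_pos (abs_pos.mpr him) ha0) (hYim z hz)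
        have h2 := hzero z hz (by rw [hzx]; exact hx1)
        rw [hzx] at h2
        exact h1 h2
  · -- upper scales good: no zeros far away
    intro x hx1 hx2 j hj hj1 hG z hz hzx
    by_contra him
    push Not at him
    have hR := hReg x hx1 hx2 j hj hG
    have hb2 : (2 : ℝ) ≤ 2 ^ j := by
      calc (2 : ℝ) = 2 ^ 1 := (pow_one _).symm
        _ ≤ 2 ^ j := pow_le_pow_right₀ (by norm_num) hj1
    have h1 := (hPH (a * l) ε (2 ^ j) (100 * V / a) (Rx x a l) hε hεε₁ hNN₁ (by linarith)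
      (hY j hj) hR (hsym x a l)).2 hb2 (|z.im| / a)
      (by rw [le_div_iff₀ ha0]; exact him.le) (hYim z hz)
    have h2 := hzero z hz (by rw [hzx]; exact hx1)
    rw [hzx] at h2
    exact h1 h2
  · -- local count
    intro x hx1 hx2 j hj hj1 hG S' hS'
    have hx0 : 0 < x := by linarith
    have hR := hReg x hx1 hx2 j hj hG
    have hb2 : (2 : ℝ) ≤ 2 ^ j := by
      calc (2 : ℝ) = 2 ^ 1 := (pow_one _).symm
        _ ≤ 2 ^ j := pow_le_pow_right₀ (by norm_num) hj1
    obtain ⟨b, hb⟩ : ∃ b : ℝ, b = 2 ^ j := ⟨_, rfl⟩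
    rw [← hb] at hR hb2 hS' ⊢
    have h40 := hY j hj
    rw [← hb] at h40
    obtain ⟨hne, hgrow⟩ := hZH (a * l) ε b (100 * V / a) (Rx x a l) hε hεε₂ hNN₂ (by linarith)
      h40 hR (hsym x a l)
    have hbpos : 0 < b := by linarith
    obtain ⟨c, hc⟩ : ∃ c : ℂ, c = (x : ℂ) - I * ((a : ℂ) * ((2 * b : ℝ) : ℂ)) := ⟨_, rfl⟩
    have hfc : Ht t c = ((Nt t : ℂ) * (a : ℂ) * m0 x) * FH (a * l) (Rx x a l) ((2 * b : ℝ) : ℂ) := by
      rw [hc]; exact hlink' x _ hx0
    have hfcne : Ht t c ≠ 0 := by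
      rw [hfc]; exact mul_ne_zero (hKne x) hne
    have haC : (a : ℂ) ≠ 0 := by exact_mod_cast ha0.ne'
    have hbound : ∀ z : ℂ, ‖z - c‖ ≤ 4 * (4 * b * a) →
        ‖Ht t z‖ ≤ Real.exp (C₁ * (a * l) * b) * ‖Ht t c‖ := by
      intro z hz
      obtain ⟨w, hw⟩ : ∃ w : ℂ, w = I * (z - x) / a := ⟨_, rfl⟩
      have hzw : z = (x : ℂ) - I * ((a : ℂ) * w) := by
        rw [hw]
        field_simp
        linear_combination (z - x) * I_sq
      have hwn : ‖w - ((2 * b : ℝ) : ℂ)‖ ≤ 16 * b := by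
        have h1 : w - ((2 * b : ℝ) : ℂ) = I * (z - c) / a := by
          rw [hw, hc]
          field_simp
          linear_combination (-(((2 * b : ℝ) : ℂ) * a)) * I_sq
        rw [h1, norm_div, norm_mul, Complex.norm_I, one_mul, Complex.norm_real,
          Real.norm_of_nonneg ha0.le, div_le_iff₀ ha0]
        linarith
      have h2 := hgrow w hwn
      have h3 : Ht t z = ((Nt t : ℂ) * (a : ℂ) * m0 x) * FH (a * l) (Rx x a l) w := by
        rw [hzw]; exact hlink' x w hx0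
      rw [h3, hfc, norm_mul, norm_mul _ (FH (a * l) (Rx x a l) ((2 * b : ℝ) : ℂ))]
      calc ‖(Nt t : ℂ) * (a : ℂ) * m0 x‖ * ‖FH (a * l) (Rx x a l) w‖
          ≤ ‖(Nt t : ℂ) * (a : ℂ) * m0 x‖ * (Real.exp (C₁ * (a * l) * b) *
            ‖FH (a * l) (Rx x a l) ((2 * b : ℝ) : ℂ)‖) :=
            mul_le_mul_of_nonneg_left h2 (norm_nonneg _)
        _ = _ := by ring
    have hj3 := hjen (Ht t) c (4 * b * a) (Real.exp (C₁ * (a * l) * b) * ‖Ht t c‖)
      (dn_blockHs_diff t) (by positivity) hbound hfcne S' (by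
        intro z hz
        obtain ⟨h1, h2⟩ := hS' z hz
        have h3 : ‖z - c‖ ≤ |(z - c).re| + |(z - c).im| := Complex.norm_le_abs_re_add_abs_im _
        have h4 : (z - c).re = z.re - x := by rw [hc]; simp
        have h5 : (z - c).im = z.im + a * (2 * b) := by rw [hc]; simp
        rw [h4, h5] at h3
        have h6 : |z.im + a * (2 * b)| ≤ |z.im| + a * (2 * b) := by
          refine (abs_add_le _ _).trans ?_
          rw [abs_of_nonneg (by positivity : (0 : ℝ) ≤ a * (2 * b))]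
        linarith)
    have hn : 0 < ‖Ht t c‖ := norm_pos_iff.mpr hfcne
    rw [mul_div_assoc, div_self hn.ne', mul_one, Real.log_exp] at hj3
    have hnn : 0 ≤ ∑ z ∈ S', (analyticOrderNatAt (Ht t) z : ℝ) :=
      Finset.sum_nonneg fun z _ => Nat.cast_nonneg _
    have hlog3 : 1 ≤ Real.log 3 := by
      rw [Real.le_log_iff_exp_le (by norm_num)]
      have := Real.exp_one_lt_d9
      linarith
    have h7 : C₁ * b * (a * l) = C₁ * (a * l) * b := by ring
    rw [h7]
    nlinarith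
  · -- the top scale is good
    intro x hx1 hx2
    exact htop l hll1 x (by linarith) (hlog x hx1 hx2) (2 ^ J * a) hJ1 hJ2
  · -- number of bad intervals
    intro j hj S' hS'
    have hb0 : 0 < 2 ^ j * a := by positivity
    have h1 := hm T hTm' (2 ^ j * a) hb0 (hpow j hj.le) S' (by
      intro k hk
      rw [← hl]
      exact hS' k hk)
    rw [← hl] at h1
    have h2 : cm * (2 ^ j * a) * l = cm * 2 ^ j * (a * l) := by ring
    rw [h2] at h1
    exact h1

end Pool.Agent.Lib.MP_cd509c_nt.DN
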