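import Pool.Agent.Lib.MP_cd509c_nt.DN.Defs

/-!
# Mean square of the mollifier
-/

set_option autoImplicit false

namespace Pool.Agent.Lib.MP_cd509c_nt.DN

open Complex ComplexConjugate MeasureTheory

/-- one entry of the mean value matrix -/
theorem dn_molSq_entry {N m n : ℕ} {A B : ℝ} (hAB : A ≤ B) (hm : m ∈ Finset.Icc 1 N)
    (hn : n ∈ Finset.Icc 1 N) :
    ‖∫ y in A..B, cexp (((-(Real.log m - Real.log n) : ℝ) * I : ℂ) * (y : ℂ))‖ ≤
      (if m = n then (B - A) else 0) + 2 * N := by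
  rw [Finset.mem_Icc] at hm hn
  have hN : (0 : ℝ) ≤ N := Nat.cast_nonneg N
  by_cases h : m = n
  · subst h
    simp only [sub_self, neg_zero, Complex.ofReal_zero, zero_mul, Complex.exp_zero,
      intervalIntegral.integral_const, if_true]
    rw [norm_smul, Real.norm_eq_abs, abs_of_nonneg (by linarith), norm_one, mul_one]
    linarith
  · have hlow : ∀ m n : ℕ, 1 ≤ n → n < m → m ≤ N → 1 / (N : ℝ) ≤ Real.log m - Real.log n := by
      intro m n h1 h2 h3
      have hn0 : (0 : ℝ) < n := by exact_mod_cast h1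
      have hm0 : (0 : ℝ) < m := by exact_mod_cast (lt_of_lt_of_le h1 h2.le)
      have hmN : (m : ℝ) ≤ N := by exact_mod_cast h3
      have hnm : (n : ℝ) + 1 ≤ m := by exact_mod_cast h2
      rw [← Real.log_div hm0.ne' hn0.ne']
      have := Real.one_sub_inv_le_log_of_pos (div_pos hm0 hn0)
      rw [inv_div] at this
      refine le_trans ?_ this
      have h4 : 1 - (n : ℝ) / m = ((m : ℝ) - n) / m := by field_simp
      rw [h4]
      have h5 : 1 / (N : ℝ) ≤ 1 / m := one_div_le_one_div_of_le hm0 hmN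
      refine h5.trans ?_
      exact div_le_div_of_nonneg_right (by linarith) hm0.le
    have habs : 1 / (N : ℝ) ≤ |Real.log m - Real.log n| := by
      rcases lt_or_gt_of_ne h with h' | h'
      · have := hlow n m hm.1 h' hn.2
        rw [abs_sub_comm]
        exact this.trans (le_abs_self _)
      · exact (hlow m n hn.1 h' hm.2).trans (le_abs_self _)
    have hNpos : (0 : ℝ) < N := by exact_mod_cast (lt_of_lt_of_le hm.1 hm.2)
    have hpos : 0 < |Real.log m - Real.log n| := lt_of_lt_of_le (by positivity) habs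
    have hc : ((-(Real.log m - Real.log n) : ℝ) * I : ℂ) ≠ 0 := by
      refine mul_ne_zero ?_ I_ne_zero
      rw [Complex.ofReal_ne_zero, neg_ne_zero]
      exact abs_pos.mp hpos
    rw [integral_exp_mul_complex hc, norm_div]
    have hnum : ∀ t : ℝ, ‖cexp (((-(Real.log m - Real.log n) : ℝ) * I : ℂ) * (t : ℂ))‖ = 1 := by
      intro t
      have : ((-(Real.log m - Real.log n) : ℝ) * I : ℂ) * (t : ℂ)
          = ((-(Real.log m - Real.log n) * t : ℝ) : ℂ) * I := by push_cast; ring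
      rw [this, Complex.norm_exp_ofReal_mul_I]
    have h1 := norm_sub_le (cexp (((-(Real.log m - Real.log n) : ℝ) * I : ℂ) * (B : ℂ)))
      (cexp (((-(Real.log m - Real.log n) : ℝ) * I : ℂ) * (A : ℂ)))
    rw [hnum, hnum] at h1
    have h2 : ‖((-(Real.log m - Real.log n) : ℝ) * I : ℂ)‖ = |Real.log m - Real.log n| := by
      rw [norm_mul, Complex.norm_I, mul_one, Complex.norm_real, Real.norm_eq_abs, abs_neg]
    rw [h2, if_neg h, zero_add, div_le_iff₀ hpos]
    have h3 : (1 : ℝ) ≤ N * |Real.log m - Real.log n| := by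
      rw [div_le_iff₀ hNpos] at habs
      linarith
    linarith

/-- mean value estimate for Dirichlet polynomials -/
theorem dn_molSq_mv (N : ℕ) (a : ℕ → ℂ) {A B : ℝ} (hAB : A ≤ B) :
    ∫ y in A..B, ‖∑ n ∈ Finset.Icc 1 N, a n * cexp ((Real.log n : ℂ) * (-(y * I)))‖ ^ 2 ≤
      ((B - A) + 2 * (N : ℝ) ^ 2) * ∑ n ∈ Finset.Icc 1 N, ‖a n‖ ^ 2 := by
  set S := Finset.Icc 1 N with hS
  have key : ((∫ y in A..B, ‖∑ n ∈ S, a n * cexp ((Real.log n : ℂ) * (-(y * I)))‖ ^ 2 : ℝ) : ℂ)
      = ∑ m ∈ S, ∑ n ∈ S, a m * conj (a n) *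
        ∫ y in A..B, cexp (((-(Real.log m - Real.log n) : ℝ) * I : ℂ) * (y : ℂ)) := by
    rw [← intervalIntegral.integral_ofReal]
    have hint : ∀ m ∈ S, ∀ n ∈ S, IntervalIntegrable
        (fun y : ℝ => a m * conj (a n) *
          cexp (((-(Real.log m - Real.log n) : ℝ) * I : ℂ) * (y : ℂ))) volume A B := by
      intro m _ n _
      apply Continuous.intervalIntegrable
      fun_prop
    have : ∀ y : ℝ, ((‖∑ n ∈ S, a n * cexp ((Real.log n : ℂ) * (-(y * I)))‖ ^ 2 : ℝ) : ℂ)
        = ∑ m ∈ S, ∑ n ∈ S, a m * conj (a n) *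
          cexp (((-(Real.log m - Real.log n) : ℝ) * I : ℂ) * (y : ℂ)) := by
      intro y
      rw [Complex.ofReal_pow, ← Complex.mul_conj', map_sum, Finset.sum_mul_sum]
      refine Finset.sum_congr rfl fun m _ => Finset.sum_congr rfl fun n _ => ?_
      rw [map_mul, ← Complex.exp_conj, map_mul, map_neg, map_mul, Complex.conj_ofReal,
        Complex.conj_ofReal, Complex.conj_I]
      have : a m * cexp ((Real.log m : ℂ) * (-(y * I))) *
          (conj (a n) * cexp ((Real.log n : ℂ) * (-(y * -I))))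
          = a m * conj (a n) * (cexp ((Real.log m : ℂ) * (-(y * I))) *
            cexp ((Real.log n : ℂ) * (-(y * -I)))) := by ring
      rw [this, ← Complex.exp_add]
      congr 2
      push_cast
      ring
    simp_rw [this]
    rw [intervalIntegral.integral_finsetSum (fun m _ => by
      apply Continuous.intervalIntegrable
      fun_prop)]
    refine Finset.sum_congr rfl fun m hm => ?_
    rw [intervalIntegral.integral_finsetSum (fun n hn => hint m hm n hn)]
    refine Finset.sum_congr rfl fun n hn => ?_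
    rw [intervalIntegral.integral_const_mul]
  have h0 : 0 ≤ ∫ y in A..B, ‖∑ n ∈ S, a n * cexp ((Real.log n : ℂ) * (-(y * I)))‖ ^ 2 :=
    intervalIntegral.integral_nonneg hAB (fun _ _ => by positivity)
  have h1 : ∫ y in A..B, ‖∑ n ∈ S, a n * cexp ((Real.log n : ℂ) * (-(y * I)))‖ ^ 2
      = ‖∑ m ∈ S, ∑ n ∈ S, a m * conj (a n) *
        ∫ y in A..B, cexp (((-(Real.log m - Real.log n) : ℝ) * I : ℂ) * (y : ℂ))‖ := by
    rw [← key, Complex.norm_real, Real.norm_eq_abs, abs_of_nonneg h0]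
  rw [h1]
  calc ‖∑ m ∈ S, ∑ n ∈ S, a m * conj (a n) *
        ∫ y in A..B, cexp (((-(Real.log m - Real.log n) : ℝ) * I : ℂ) * (y : ℂ))‖
      ≤ ∑ m ∈ S, ∑ n ∈ S, ‖a m‖ * ‖a n‖ * ((if m = n then (B - A) else 0) + 2 * N) := by
        refine (norm_sum_le _ _).trans (Finset.sum_le_sum fun m hm => ?_)
        refine (norm_sum_le _ _).trans (Finset.sum_le_sum fun n hn => ?_)
        rw [norm_mul, norm_mul, RCLike.norm_conj]
        exact mul_le_mul_of_nonneg_left (dn_molSq_entry hAB hm hn) (by positivity)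
    _ = (B - A) * ∑ n ∈ S, ‖a n‖ ^ 2 + 2 * N * (∑ n ∈ S, ‖a n‖) ^ 2 := by
        rw [pow_two (∑ n ∈ S, ‖a n‖), Finset.sum_mul_sum, Finset.mul_sum, Finset.mul_sum,
          ← Finset.sum_add_distrib]
        refine Finset.sum_congr rfl fun m hm => ?_
        have : ∀ n ∈ S, ‖a m‖ * ‖a n‖ * ((if m = n then (B - A) else 0) + 2 * N)
            = (if m = n then (B - A) * (‖a m‖ * ‖a n‖) else 0) +
              2 * N * (‖a m‖ * ‖a n‖) := by
          intro n _
          split_ifs <;> ring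
        rw [Finset.sum_congr rfl this, Finset.sum_add_distrib, Finset.sum_ite_eq, if_pos hm,
          ← Finset.mul_sum]
        ring
    _ ≤ ((B - A) + 2 * (N : ℝ) ^ 2) * ∑ n ∈ S, ‖a n‖ ^ 2 := by
        have hcs : (∑ n ∈ S, ‖a n‖) ^ 2 ≤ (N : ℝ) * ∑ n ∈ S, ‖a n‖ ^ 2 := by
          have := sq_sum_le_card_mul_sum_sq (s := S) (f := fun n => ‖a n‖)
          have hc : (S.card : ℝ) = N := by rw [hS, Nat.card_Icc]; simp
          rw [hc] at this
          exact this
        have hN : (0 : ℝ) ≤ N := Nat.cast_nonneg N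
        nlinarith [mul_le_mul_of_nonneg_left hcs (by positivity : (0 : ℝ) ≤ 2 * N)]

theorem p_molSq (h : S_mufSq) : S_molSq := by
  obtain ⟨C₀, hC₀, h₀⟩ := h
  intro θ B hθ hθ4
  have hl2 : 0 < Real.log 2 := Real.log_pos (by norm_num)
  set C₁ : ℝ := C₀ + 1 / Real.log 2 with hC₁
  have hC₁pos : 0 < C₁ := by positivity
  refine ⟨10 * C₁, by positivity, ?_⟩
  intro T hT w hw _
  have hT0 : 0 < T := by linarith
  have hlT : Real.log 2 ≤ Real.log T := Real.log_le_log (by norm_num) hT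
  have hlT0 : 0 < Real.log T := lt_of_lt_of_le hl2 hlT
  set X : ℝ := T ^ θ with hX
  have hX1 : 1 ≤ X := Real.one_le_rpow (by linarith) hθ.le
  set N : ℕ := ⌊X⌋₊ with hN
  have hNX : (N : ℝ) ≤ X := Nat.floor_le (by linarith)
  -- the square sum
  have hsum : ∑ b ∈ Finset.Icc 1 N, ‖muf b‖ ^ 2 / (b : ℝ) ^ 12 ≤ C₁ * Real.log T := by
    by_cases h2 : 2 ≤ X
    · refine (h₀ X h2).trans ?_
      have h3 : Real.log X ≤ Real.log T := by
        rw [hX, Real.log_rpow hT0]
        nlinarith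
      have h4 : C₀ * Real.log X ≤ C₀ * Real.log T := mul_le_mul_of_nonneg_left h3 hC₀.le
      have h5 : C₀ * Real.log T ≤ C₁ * Real.log T := by
        refine mul_le_mul_of_nonneg_right ?_ hlT0.le
        rw [hC₁]
        have : 0 < 1 / Real.log 2 := by positivity
        linarith
      linarith
    · have hN1 : N = 1 := by
        rw [hN, Nat.floor_eq_iff (by linarith)]
        push Not at h2
        constructor
        · simpa using hX1
        · norm_num
          linarith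
      rw [hN1, Finset.Icc_self, Finset.sum_singleton]
      have hm : muf 1 = 1 := by
        unfold muf
        simp
      rw [hm]
      norm_num
      have h6 : 1 / Real.log 2 * Real.log T ≤ C₁ * Real.log T := by
        refine mul_le_mul_of_nonneg_right ?_ hlT0.le
        rw [hC₁]
        linarith
      have h7 : 1 ≤ 1 / Real.log 2 * Real.log T := by
        rw [one_div, inv_mul_eq_div, le_div_iff₀ hl2]
        linarith
      linarith
  set a : ℕ → ℂ := fun b => muf b * Pw (Real.log b / Real.log X) * (b : ℂ) ^ (-(6 + w)) with ha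
  have hmol : ∀ y : ℝ, Mol X (w + y * I) =
      ∑ n ∈ Finset.Icc 1 N, a n * cexp ((Real.log n : ℂ) * (-(y * I))) := by
    intro y
    unfold Mol
    refine Finset.sum_congr rfl fun b hb => ?_
    rw [Finset.mem_Icc] at hb
    have hb0 : (b : ℂ) ≠ 0 := by
      have : b ≠ 0 := by omega
      exact_mod_cast this
    have h1 : -(6 + (w + y * I)) = -(6 + w) + -(y * I) := by ring
    rw [h1, Complex.cpow_add _ _ hb0, ha]
    have h2 : (b : ℂ) ^ (-((y : ℂ) * I)) = cexp ((Real.log b : ℂ) * (-(y * I))) := by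
      rw [Complex.cpow_def_of_ne_zero hb0, Complex.natCast_log]
    rw [h2]
    ring
  have hcoef : ∑ n ∈ Finset.Icc 1 N, ‖a n‖ ^ 2 ≤ C₁ * Real.log T := by
    refine le_trans (Finset.sum_le_sum fun b hb => ?_) hsum
    rw [Finset.mem_Icc] at hb
    have hbp : 0 < b := by omega
    have hb1 : (1 : ℝ) ≤ b := by exact_mod_cast hb.1
    rw [ha]
    simp only
    rw [norm_mul, norm_mul, Complex.norm_natCast_cpow_of_pos hbp, Complex.norm_real,
      Real.norm_eq_abs, abs_of_nonneg (Pw_nonneg _)]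
    have hP : Pw (Real.log b / Real.log X) ≤ 1 := Pw_le_one _
    have hP0 : 0 ≤ Pw (Real.log b / Real.log X) := Pw_nonneg _
    have hre : (-(6 + w)).re = -(6 + w.re) := by simp
    rw [hre]
    have hb6 : (b : ℝ) ^ (-(6 + w.re)) ≤ ((b : ℝ) ^ 6)⁻¹ := by
      have : ((b : ℝ) ^ 6)⁻¹ = (b : ℝ) ^ (-(6 : ℝ)) := by
        rw [Real.rpow_neg (by linarith)]
        norm_cast
      rw [this]
      exact Real.rpow_le_rpow_of_exponent_le hb1 (by linarith)
    have hb60 : 0 ≤ (b : ℝ) ^ (-(6 + w.re)) := by positivity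
    have hstep : ‖muf b‖ * Pw (Real.log b / Real.log X) * (b : ℝ) ^ (-(6 + w.re)) ≤
        ‖muf b‖ * ((b : ℝ) ^ 6)⁻¹ := by
      refine mul_le_mul ?_ hb6 hb60 (norm_nonneg _)
      exact mul_le_of_le_one_right (norm_nonneg _) hP
    calc (‖muf b‖ * Pw (Real.log b / Real.log X) * (b : ℝ) ^ (-(6 + w.re))) ^ 2
        ≤ (‖muf b‖ * ((b : ℝ) ^ 6)⁻¹) ^ 2 := by
          refine pow_le_pow_left₀ (by positivity) hstep 2
      _ = ‖muf b‖ ^ 2 / (b : ℝ) ^ 12 := by
          field_simp
  have hmv := dn_molSq_mv N a (A := T / 4) (B := 8 * T) (by linarith)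
  have hcongr : ∫ y in (T / 4)..(8 * T), ‖Mol X (w + y * I)‖ ^ 2 =
      ∫ y in (T / 4)..(8 * T), ‖∑ n ∈ Finset.Icc 1 N, a n *
        cexp ((Real.log n : ℂ) * (-(y * I)))‖ ^ 2 := by
    simp_rw [hmol]
  rw [hcongr]
  refine hmv.trans ?_
  have hN2 : (N : ℝ) ^ 2 ≤ T := by
    have h1 : (N : ℝ) ^ 2 ≤ X ^ 2 := pow_le_pow_left₀ (Nat.cast_nonneg _) hNX 2
    refine h1.trans ?_
    rw [hX, ← Real.rpow_natCast (T ^ θ) 2, ← Real.rpow_mul hT0.le]
    calc T ^ (θ * (2 : ℕ)) ≤ T ^ (1 : ℝ) :=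
          Real.rpow_le_rpow_of_exponent_le (by linarith) (by push_cast; linarith)
      _ = T := Real.rpow_one T
  have hS0 : 0 ≤ ∑ n ∈ Finset.Icc 1 N, ‖a n‖ ^ 2 := Finset.sum_nonneg fun _ _ => by positivity
  calc ((8 * T - T / 4) + 2 * (N : ℝ) ^ 2) * ∑ n ∈ Finset.Icc 1 N, ‖a n‖ ^ 2
      ≤ (10 * T) * ∑ n ∈ Finset.Icc 1 N, ‖a n‖ ^ 2 := by
        refine mul_le_mul_of_nonneg_right ?_ hS0
        linarith
    _ ≤ (10 * T) * (C₁ * Real.log T) := mul_le_mul_of_nonneg_left hcoef (by positivity)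
    _ = 10 * C₁ * T * Real.log T := by ring

end Pool.Agent.Lib.MP_cd509c_nt.DN
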