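import Pool.Agent.Lib.MP_cd509c_nt.DN.Defs

/-!
# Project DN, piece mufSq: mean square of the Dirichlet inverse of `tau`
-/

set_option autoImplicit false

namespace Pool.Agent.Lib.MP_cd509c_nt.DN

open Complex ComplexConjugate MeasureTheory

/-- `tau` is multiplicative on products of distinct primes. -/
lemma dn_mufSq_tau_prod (S : Finset ℕ) (hS : ∀ p ∈ S, p.Prime) :
    tau (∏ p ∈ S, p) = ∏ p ∈ S, tau p := by
  classical
  induction S using Finset.induction_on with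
  | empty => simp [tau_one]
  | insert p S hp ih =>
    have hpp : p.Prime := hS p (Finset.mem_insert_self _ _)
    have hS' : ∀ q ∈ S, q.Prime := fun q hq => hS q (Finset.mem_insert_of_mem hq)
    rw [Finset.prod_insert hp, Finset.prod_insert hp, ← ih hS']
    have hnd : ¬ p ∣ ∏ q ∈ S, q := by
      intro hd
      obtain ⟨q, hq, hpq⟩ := (Prime.dvd_finsetProd_iff hpp.prime _).1 hd
      have : p = q := (Nat.prime_dvd_prime_iff_eq hpp (hS' q hq)).1 hpq
      exact hp (this ▸ hq)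
    have h := hecke' hpp (∏ q ∈ S, q)
    rw [if_neg hnd, add_zero] at h
    exact h

/-- the part of exponent one -/
noncomputable def dn_mufSq_b1 (b : ℕ) : ℕ :=
  ∏ p ∈ b.primeFactors, if b.factorization p = 1 then p else 1

/-- the part of exponent two -/
noncomputable def dn_mufSq_b2 (b : ℕ) : ℕ :=
  ∏ p ∈ b.primeFactors, if b.factorization p = 2 then p else 1

lemma dn_mufSq_exp (b : ℕ) (h : muf b ≠ 0) (p : ℕ) (hp : p ∈ b.primeFactors) :
    b.factorization p = 1 ∨ b.factorization p = 2 := by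
  have hb : b ≠ 0 := by
    rintro rfl
    simp at hp
  rw [muf, if_neg hb, Finset.prod_ne_zero_iff] at h
  have h1 := h p hp
  have h2 : b.factorization p ≠ 0 := by
    rw [← Finsupp.mem_support_iff, Nat.support_factorization]
    exact hp
  rw [cf, if_neg h2] at h1
  by_contra hcon
  push Not at hcon
  rw [if_neg hcon.1, if_neg hcon.2] at h1
  exact h1 rfl

lemma dn_mufSq_eq (b : ℕ) (h : muf b ≠ 0) :
    b = dn_mufSq_b1 b * dn_mufSq_b2 b ^ 2 := by
  have hb : b ≠ 0 := by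
    rintro rfl
    simp [muf] at h
  conv_lhs => rw [← Nat.prod_factorization_pow_eq_self hb]
  rw [dn_mufSq_b1, dn_mufSq_b2, ← Finset.prod_pow, ← Finset.prod_mul_distrib, Finsupp.prod,
    Nat.support_factorization]
  apply Finset.prod_congr rfl
  intro p hp
  rcases dn_mufSq_exp b h p hp with h1 | h1 <;> simp [h1]

lemma dn_mufSq_norm (b : ℕ) (h : muf b ≠ 0) :
    ‖muf b‖ = ‖tau (dn_mufSq_b1 b)‖ * (dn_mufSq_b2 b : ℝ) ^ 11 := by
  have hb : b ≠ 0 := by
    rintro rfl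
    simp [muf] at h
  have e1 : tau (dn_mufSq_b1 b) = ∏ p ∈ b.primeFactors,
      if b.factorization p = 1 then tau p else 1 := by
    rw [dn_mufSq_b1, ← Finset.prod_filter, ← Finset.prod_filter]
    apply dn_mufSq_tau_prod
    intro p hp
    exact Nat.prime_of_mem_primeFactors (Finset.mem_filter.1 hp).1
  rw [e1, muf, if_neg hb, dn_mufSq_b2, norm_prod, norm_prod]
  push_cast
  rw [← Finset.prod_pow, ← Finset.prod_mul_distrib]
  apply Finset.prod_congr rfl
  intro p hp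
  rcases dn_mufSq_exp b h p hp with h1 | h1
  · simp [cf, h1]
  · simp [cf, h1]

lemma dn_mufSq_term (b : ℕ) (h : muf b ≠ 0) :
    ‖muf b‖ ^ 2 / (b : ℝ) ^ 12 =
      ‖tau (dn_mufSq_b1 b)‖ ^ 2 / (dn_mufSq_b1 b : ℝ) ^ 12 * (1 / (dn_mufSq_b2 b : ℝ) ^ 2) := by
  have hb : b ≠ 0 := by
    rintro rfl
    simp [muf] at h
  have e := dn_mufSq_eq b h
  have h2 : (dn_mufSq_b2 b : ℝ) ≠ 0 := by
    intro h0
    have : dn_mufSq_b2 b = 0 := by exact_mod_cast h0
    rw [this] at e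
    simp at e
    exact hb e
  have h1 : (dn_mufSq_b1 b : ℝ) ≠ 0 := by
    intro h0
    have : dn_mufSq_b1 b = 0 := by exact_mod_cast h0
    rw [this] at e
    simp at e
    exact hb e
  have e' : (b : ℝ) = (dn_mufSq_b1 b : ℝ) * (dn_mufSq_b2 b : ℝ) ^ 2 := by
    exact_mod_cast e
  rw [dn_mufSq_norm b h, e']
  field_simp

lemma dn_mufSq_tauSum : ∃ C : ℝ, 0 < C ∧ ∀ N : ℕ, 1 ≤ N →
    ∑ n ∈ Finset.Icc 1 N, ‖tau n‖ ^ 2 ≤ C * (N : ℝ) ^ 12 := by
  obtain ⟨C, hC, hb⟩ := Dc_bound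
  refine ⟨Real.exp (2 * Real.pi) ^ 2 * C ^ 2, by positivity, fun N hN => ?_⟩
  have hN0 : (0 : ℝ) < N := by exact_mod_cast hN
  have h1 := sum_sq N (y := 1 / N) (by positivity) hC hb
  have h3 : ∀ n ∈ Finset.Icc 1 N, ‖tau n‖ ^ 2 ≤ Real.exp (2 * Real.pi) ^ 2 *
      (‖tau n‖ * Real.exp (-2 * Real.pi * n * (1 / N))) ^ 2 := by
    intro n hn
    have hn' : (n : ℝ) ≤ N := by exact_mod_cast (Finset.mem_Icc.mp hn).2
    have h4 : 1 ≤ Real.exp (2 * Real.pi) * Real.exp (-2 * Real.pi * n * (1 / N)) := by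
      rw [← Real.exp_add]
      apply Real.one_le_exp
      have h5 : (n : ℝ) * (1 / N) ≤ 1 := by
        rw [mul_one_div, div_le_one hN0]; exact hn'
      have hpi := Real.pi_pos
      nlinarith
    have h5 : ‖tau n‖ ≤ Real.exp (2 * Real.pi) *
        (‖tau n‖ * Real.exp (-2 * Real.pi * n * (1 / N))) := by
      have := mul_le_mul_of_nonneg_left h4 (norm_nonneg (tau n))
      linarith
    rw [← mul_pow]
    exact pow_le_pow_left₀ (norm_nonneg _) h5 2
  calc ∑ n ∈ Finset.Icc 1 N, ‖tau n‖ ^ 2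
      ≤ ∑ n ∈ Finset.Icc 1 N, Real.exp (2 * Real.pi) ^ 2 *
        (‖tau n‖ * Real.exp (-2 * Real.pi * n * (1 / N))) ^ 2 := Finset.sum_le_sum h3
    _ ≤ Real.exp (2 * Real.pi) ^ 2 * (C / (1 / N) ^ 6) ^ 2 := by
        rw [← Finset.mul_sum]
        exact mul_le_mul_of_nonneg_left h1 (by positivity)
    _ = _ := by
        field_simp

lemma dn_mufSq_tauLog : ∃ C : ℝ, 0 < C ∧ ∀ N : ℕ,
    ∑ n ∈ Finset.Icc 1 N, ‖tau n‖ ^ 2 / (n : ℝ) ^ 12 ≤ C * ((Nat.log 2 N : ℕ) + 1) := by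
  obtain ⟨C, hC, hb⟩ := dn_mufSq_tauSum
  refine ⟨C * 2 ^ 12, by positivity, fun N => ?_⟩
  induction N using Nat.strong_induction_on with
  | _ N ih =>
    rcases Nat.lt_or_ge N 2 with hN | hN
    · rcases Nat.eq_zero_or_pos N with h0 | h0
      · subst h0
        simp
        positivity
      · have : N = 1 := by omega
        subst this
        have h1 := hb 1 le_rfl
        simp at h1 ⊢
        nlinarith
    · have hhalf := ih (N / 2) (Nat.div_lt_self (by omega) (by norm_num))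
      have hlog : Nat.log 2 N = Nat.log 2 (N / 2) + 1 := by
        rw [Nat.log_of_one_lt_of_le (by norm_num) hN]
      have hN0 : (0 : ℝ) < N := by
        have : 0 < N := by omega
        exact_mod_cast this
      have hsplit : Finset.Icc 1 N = Finset.Icc 1 (N / 2) ∪ Finset.Ioc (N / 2) N := by
        ext x
        simp only [Finset.mem_union, Finset.mem_Icc, Finset.mem_Ioc]
        omega
      have hdisj : Disjoint (Finset.Icc 1 (N / 2)) (Finset.Ioc (N / 2) N) := by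
        rw [Finset.disjoint_left]
        intro x hx hx'
        rw [Finset.mem_Icc] at hx
        rw [Finset.mem_Ioc] at hx'
        omega
      rw [hsplit, Finset.sum_union hdisj, hlog]
      have h2 : ∑ n ∈ Finset.Ioc (N / 2) N, ‖tau n‖ ^ 2 / (n : ℝ) ^ 12 ≤ C * 2 ^ 12 := by
        have h3 : ∀ n ∈ Finset.Ioc (N / 2) N, ‖tau n‖ ^ 2 / (n : ℝ) ^ 12 ≤
            ‖tau n‖ ^ 2 * (2 ^ 12 / (N : ℝ) ^ 12) := by
          intro n hn
          rw [Finset.mem_Ioc] at hn
          have h4 : (N : ℝ) ≤ 2 * n := by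
            have : N ≤ 2 * n := by omega
            exact_mod_cast this
          have hn0 : (0 : ℝ) < n := by linarith
          rw [div_eq_mul_inv]
          apply mul_le_mul_of_nonneg_left _ (by positivity)
          rw [inv_eq_one_div, div_le_div_iff₀ (by positivity) (by positivity), one_mul, ← mul_pow]
          exact pow_le_pow_left₀ hN0.le h4 12
        calc ∑ n ∈ Finset.Ioc (N / 2) N, ‖tau n‖ ^ 2 / (n : ℝ) ^ 12
            ≤ ∑ n ∈ Finset.Ioc (N / 2) N, ‖tau n‖ ^ 2 * (2 ^ 12 / (N : ℝ) ^ 12) :=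
              Finset.sum_le_sum h3
          _ = (∑ n ∈ Finset.Ioc (N / 2) N, ‖tau n‖ ^ 2) * (2 ^ 12 / (N : ℝ) ^ 12) := by
              rw [Finset.sum_mul]
          _ ≤ (C * (N : ℝ) ^ 12) * (2 ^ 12 / (N : ℝ) ^ 12) := by
              apply mul_le_mul_of_nonneg_right _ (by positivity)
              refine le_trans (Finset.sum_le_sum_of_subset_of_nonneg ?_ ?_) (hb N (by omega))
              · intro x hx
                rw [Finset.mem_Ioc] at hx
                rw [Finset.mem_Icc]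
                omega
              · intro i _ _
                positivity
          _ = C * 2 ^ 12 := by
              field_simp
      push_cast
      nlinarith

lemma dn_mufSq_b1_mem (b N : ℕ) (h : muf b ≠ 0) (hb : b ∈ Finset.Icc 1 N) :
    dn_mufSq_b1 b ∈ Finset.Icc 1 N ∧ dn_mufSq_b2 b ∈ Finset.Icc 1 N := by
  rw [Finset.mem_Icc] at hb
  have e := dn_mufSq_eq b h
  have h1 : dn_mufSq_b1 b ≠ 0 := by
    intro h0
    rw [h0] at e
    simp at e
    omega
  have h2 : dn_mufSq_b2 b ≠ 0 := by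
    intro h0
    rw [h0] at e
    simp at e
    omega
  have h1' : 1 ≤ dn_mufSq_b1 b := Nat.one_le_iff_ne_zero.2 h1
  have h2' : 1 ≤ dn_mufSq_b2 b := Nat.one_le_iff_ne_zero.2 h2
  rw [Finset.mem_Icc, Finset.mem_Icc]
  refine ⟨⟨h1', ?_⟩, ⟨h2', ?_⟩⟩
  · have : dn_mufSq_b1 b * 1 ≤ dn_mufSq_b1 b * dn_mufSq_b2 b ^ 2 :=
      Nat.mul_le_mul_left _ (Nat.one_le_pow _ _ h2')
    omega
  · have : 1 * dn_mufSq_b2 b ≤ dn_mufSq_b1 b * dn_mufSq_b2 b ^ 2 :=
      Nat.mul_le_mul h1' (by nlinarith)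
    omega

lemma dn_mufSq_main (N : ℕ) :
    ∑ b ∈ Finset.Icc 1 N, ‖muf b‖ ^ 2 / (b : ℝ) ^ 12 ≤
      (∑ n ∈ Finset.Icc 1 N, ‖tau n‖ ^ 2 / (n : ℝ) ^ 12) *
        ∑ n ∈ Finset.Icc 1 N, 1 / (n : ℝ) ^ 2 := by
  classical
  have h1 : ∑ b ∈ Finset.Icc 1 N, ‖muf b‖ ^ 2 / (b : ℝ) ^ 12 =
      ∑ b ∈ (Finset.Icc 1 N).filter (fun b => muf b ≠ 0), ‖muf b‖ ^ 2 / (b : ℝ) ^ 12 := by
    rw [Finset.sum_filter]
    apply Finset.sum_congr rfl
    intro b _
    split_ifs with h
    · rfl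
    · push Not at h
      rw [h]
      simp
  rw [h1, Finset.sum_mul_sum, ← Finset.sum_product']
  have h2 : ∑ b ∈ (Finset.Icc 1 N).filter (fun b => muf b ≠ 0), ‖muf b‖ ^ 2 / (b : ℝ) ^ 12 =
      ∑ x ∈ ((Finset.Icc 1 N).filter (fun b => muf b ≠ 0)).image
        (fun b => (dn_mufSq_b1 b, dn_mufSq_b2 b)),
        ‖tau x.1‖ ^ 2 / (x.1 : ℝ) ^ 12 * (1 / (x.2 : ℝ) ^ 2) := by
    rw [Finset.sum_image]
    · apply Finset.sum_congr rfl
      intro b hb
      exact dn_mufSq_term b (Finset.mem_filter.1 hb).2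
    · intro b hb c hc hbc
      have hb' := dn_mufSq_eq b (Finset.mem_filter.1 hb).2
      have hc' := dn_mufSq_eq c (Finset.mem_filter.1 hc).2
      simp only [Prod.mk.injEq] at hbc
      rw [hb', hc', hbc.1, hbc.2]
  rw [h2]
  apply Finset.sum_le_sum_of_subset_of_nonneg
  · intro x hx
    rw [Finset.mem_image] at hx
    obtain ⟨b, hb, rfl⟩ := hx
    have := dn_mufSq_b1_mem b N (Finset.mem_filter.1 hb).2 (Finset.mem_filter.1 hb).1
    rw [Finset.mem_product]
    exact this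
  · intro i _ _
    positivity

theorem p_mufSq : S_mufSq := by
  obtain ⟨C, hC, hb⟩ := dn_mufSq_tauLog
  have hs : Summable fun n : ℕ => 1 / (n : ℝ) ^ 2 := Real.summable_one_div_nat_pow.2 (by norm_num)
  set K : ℝ := ∑' n : ℕ, 1 / (n : ℝ) ^ 2 with hK
  have hK0 : 0 ≤ K := tsum_nonneg fun n => by positivity
  have hlog2 : 0 < Real.log 2 := Real.log_pos (by norm_num)
  refine ⟨C * (2 / Real.log 2) * (K + 1), by positivity, fun X hX => ?_⟩
  have hX0 : (0 : ℝ) < X := by linarith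
  have h1 := dn_mufSq_main ⌊X⌋₊
  have h2 : ∑ n ∈ Finset.Icc 1 ⌊X⌋₊, 1 / (n : ℝ) ^ 2 ≤ K + 1 := by
    have := hs.sum_le_tsum (Finset.Icc 1 ⌊X⌋₊) (fun n _ => by positivity)
    linarith
  have h3 := hb ⌊X⌋₊
  have hfl : 1 ≤ ⌊X⌋₊ := by
    rw [Nat.one_le_floor_iff]
    linarith
  have h4 : ((Nat.log 2 ⌊X⌋₊ : ℕ) : ℝ) ≤ Real.log X / Real.log 2 := by
    rw [le_div_iff₀ hlog2, ← Real.log_pow]
    apply Real.log_le_log (by positivity)
    have h5 : 2 ^ Nat.log 2 ⌊X⌋₊ ≤ ⌊X⌋₊ := Nat.pow_log_le_self 2 (by omega)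
    have h6 : ((2 ^ Nat.log 2 ⌊X⌋₊ : ℕ) : ℝ) ≤ (⌊X⌋₊ : ℝ) := by exact_mod_cast h5
    push_cast at h6
    exact h6.trans (Nat.floor_le hX0.le)
  have h5 : 1 ≤ Real.log X / Real.log 2 := by
    rw [le_div_iff₀ hlog2, one_mul]
    exact Real.log_le_log (by norm_num) hX
  have h6 : ∑ n ∈ Finset.Icc 1 ⌊X⌋₊, ‖tau n‖ ^ 2 / (n : ℝ) ^ 12 ≤
      C * (2 / Real.log 2) * Real.log X := by
    refine h3.trans ?_
    have e : C * (2 / Real.log 2) * Real.log X = C * (Real.log X / Real.log 2 +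
      Real.log X / Real.log 2) := by
      field_simp
      ring
    rw [e]
    apply mul_le_mul_of_nonneg_left _ hC.le
    linarith
  calc ∑ b ∈ Finset.Icc 1 ⌊X⌋₊, ‖muf b‖ ^ 2 / (b : ℝ) ^ 12
      ≤ _ := h1
    _ ≤ (C * (2 / Real.log 2) * Real.log X) * (K + 1) := by
        apply mul_le_mul h6 h2
        · exact Finset.sum_nonneg fun i _ => by positivity
        · have : 0 ≤ Real.log X := Real.log_nonneg (by linarith)
          positivity
    _ = _ := by ring

end Pool.Agent.Lib.MP_cd509c_nt.DN
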