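import Mathlib
import Pool.Agent.Lib.MP_cd509c_nt.DN.Defs

/-!
# Reflection (functional equation) for `LL`
-/

set_option autoImplicit false

namespace Pool.Agent.Lib.MP_cd509c_nt.DN

open Complex ComplexConjugate MeasureTheory

theorem dn_neg_norm_two_pi_cpow (s : ℂ) : ‖(2 * Real.pi : ℂ) ^ s‖ = (2 * Real.pi) ^ s.re := by
  have h : (2 * Real.pi : ℂ) = ((2 * Real.pi : ℝ) : ℂ) := by push_cast; rfl
  rw [h, norm_cpow_eq_rpow_re_of_pos (by have := Real.pi_pos; positivity)]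

theorem dn_neg_norm_exp_log {s : ℂ} (hs : s ≠ 0) (v : ℝ) : ‖exp ((v : ℂ) * log s)‖ = ‖s‖ ^ v := by
  rw [norm_exp, re_ofReal_mul, log_re, Real.rpow_def_of_pos (norm_pos_iff.2 hs), mul_comm]

theorem p_neg : S_neg := by
  refine ⟨49 * Real.exp 100, ?_, fun w h1 h2 h3 => ?_⟩
  · have : 1 ≤ Real.exp 100 := Real.one_le_exp (by norm_num)
    linarith
  set v : ℝ := -2 * w.re with hv
  have hv0 : 0 ≤ v := by rw [hv]; linarith
  have hv2 : v ≤ 2 := by rw [hv]; linarith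
  set s : ℂ := 6 + w with hs
  have hsre : s.re = 6 + w.re := by rw [hs]; simp
  have hsim : s.im = w.im := by rw [hs]; simp
  have hsv : s + v = 6 + (-conj w) := by
    apply Complex.ext
    · rw [hs, hv]; simp; ring
    · rw [hs]; simp
  have hs0 : s ≠ 0 := by
    intro h
    rw [h, zero_re] at hsre
    linarith
  have h5 : 5 ≤ ‖s‖ := by
    refine le_trans ?_ (re_le_norm s)
    rw [hsre]; linarith
  have h7 : ‖s‖ ≤ 7 * |w.im| := by
    refine (norm_le_abs_re_add_abs_im s).trans ?_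
    rw [hsre, hsim, abs_of_nonneg (by linarith)]
    linarith
  have hnv : ‖(v : ℂ)‖ = v := by rw [norm_real, Real.norm_of_nonneg hv0]
  have h4 : ‖s‖ ≤ 4 * ‖s + v‖ := by
    have e1 : ‖s‖ ≤ ‖s + v‖ + v := by
      calc ‖s‖ = ‖(s + v) - v‖ := by congr 1; ring
        _ ≤ ‖s + v‖ + ‖(v : ℂ)‖ := norm_sub_le _ _
        _ = _ := by rw [hnv]
    linarith
  obtain ⟨g, hg, hG⟩ := Gamma_quot' (s := s) (v := v) (by rw [hsre]; linarith)
    (by rw [add_re, hsre, ofReal_re]; linarith) h4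
  have hgn : ‖g‖ ≤ 100 := by
    refine hg.trans ?_
    rw [div_le_iff₀ (by linarith), hnv]
    nlinarith
  have hsre0 : 0 < s.re := by rw [hsre]; linarith
  have hsvre0 : 0 < (s + v).re := by rw [add_re, hsre, ofReal_re]; linarith
  -- the functional equation
  have hLam : ‖Lam s‖ = ‖Lam (s + v)‖ := by
    have e1 : s + v = conj (12 - s) := by
      rw [hsv, hs]
      simp only [map_sub, map_add]
      have e12 : conj (12 : ℂ) = 12 := by
        rw [show (12 : ℂ) = ((12 : ℝ) : ℂ) by norm_num, conj_ofReal]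
      have e6 : conj (6 : ℂ) = 6 := by
        rw [show (6 : ℂ) = ((6 : ℝ) : ℂ) by norm_num, conj_ofReal]
      rw [e12, e6]; ring
    rw [e1, Lam_conj, RCLike.norm_conj, Lam_symm']
  have hΓ : 0 < ‖Gamma s‖ := norm_pos_iff.2 (Gamma_ne_zero_of_re_pos hsre0)
  have hpi : (1 : ℝ) ≤ 2 * Real.pi := by have := Real.pi_gt_three; linarith
  have hpp : 0 < 2 * Real.pi := by linarith
  have hLw : ‖LL w‖ = (2 * Real.pi) ^ (-v) * (‖s‖ ^ v * ‖exp g‖) * ‖LL (-conj w)‖ := by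
    have e1 : ‖LL w‖ = (2 * Real.pi) ^ s.re * ‖Gamma s‖⁻¹ * ‖Lam s‖ := by
      rw [LL, ← hs, Lf, norm_mul, norm_mul, norm_inv, dn_neg_norm_two_pi_cpow]
    have e2 : ‖Lam (s + v)‖ = (2 * Real.pi) ^ (-(s + v).re) * (‖Gamma s‖ * ‖s‖ ^ v * ‖exp g‖) *
        ‖LL (-conj w)‖ := by
      rw [Lam_eq_Lf hsvre0, norm_mul, norm_mul, dn_neg_norm_two_pi_cpow, neg_re, hG, norm_mul,
        norm_mul, dn_neg_norm_exp_log hs0, LL, ← hsv]
    rw [e1, hLam, e2]
    have e3 : (2 * Real.pi) ^ (-(s + v).re) = (2 * Real.pi) ^ (-s.re) * (2 * Real.pi) ^ (-v) := by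
      rw [← Real.rpow_add hpp]
      congr 1
      rw [add_re, ofReal_re]; ring
    have e4 : (2 * Real.pi) ^ s.re * (2 * Real.pi) ^ (-s.re) = 1 := by
      rw [← Real.rpow_add hpp, add_neg_cancel, Real.rpow_zero]
    rw [e3]
    calc (2 * Real.pi) ^ s.re * ‖Gamma s‖⁻¹ * ((2 * Real.pi) ^ (-s.re) * (2 * Real.pi) ^ (-v) *
          (‖Gamma s‖ * ‖s‖ ^ v * ‖exp g‖) * ‖LL (-conj w)‖)
        = ((2 * Real.pi) ^ s.re * (2 * Real.pi) ^ (-s.re)) * (‖Gamma s‖⁻¹ * ‖Gamma s‖) *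
          ((2 * Real.pi) ^ (-v) * (‖s‖ ^ v * ‖exp g‖) * ‖LL (-conj w)‖) := by ring
      _ = _ := by rw [e4, inv_mul_cancel₀ hΓ.ne']; ring
  rw [hLw]
  refine mul_le_mul_of_nonneg_right ?_ (norm_nonneg _)
  have k1 : (2 * Real.pi) ^ (-v) ≤ 1 := by
    rw [Real.rpow_neg hpp.le]
    exact inv_le_one_of_one_le₀ (Real.one_le_rpow hpi hv0)
  have k2 : ‖s‖ ^ v ≤ 49 * |w.im| ^ v := by
    calc ‖s‖ ^ v ≤ (7 * |w.im|) ^ v := Real.rpow_le_rpow (norm_nonneg _) h7 hv0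
      _ = 7 ^ v * |w.im| ^ v := Real.mul_rpow (by norm_num) (abs_nonneg _)
      _ ≤ 49 * |w.im| ^ v := by
          refine mul_le_mul_of_nonneg_right ?_ (Real.rpow_nonneg (abs_nonneg _) _)
          calc (7 : ℝ) ^ v ≤ 7 ^ (2 : ℝ) := Real.rpow_le_rpow_of_exponent_le (by norm_num) hv2
            _ = 49 := by norm_num
  have k3 : ‖exp g‖ ≤ Real.exp 100 := by
    rw [norm_exp]
    exact Real.exp_le_exp.2 ((re_le_norm g).trans hgn)
  have k4 : 0 ≤ |w.im| ^ v := Real.rpow_nonneg (abs_nonneg _) _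
  calc (2 * Real.pi) ^ (-v) * (‖s‖ ^ v * ‖exp g‖) ≤ 1 * (49 * |w.im| ^ v * Real.exp 100) := by
        refine mul_le_mul k1 (mul_le_mul k2 k3 (norm_nonneg _) (by positivity)) (by positivity)
          zero_le_one
    _ = 49 * Real.exp 100 * |w.im| ^ v := by ring

end Pool.Agent.Lib.MP_cd509c_nt.DN
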