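import Pool.Agent.Lib.MP_cd509c_nt.DN.Defs2

/-!
# Periodisation of the bump
-/

set_option autoImplicit false

namespace Pool.Agent.Lib.MP_cd509c_nt.DN

open Complex ComplexConjugate MeasureTheory Filter Topology FourierTransform
open scoped SchwartzMap ContDiff

/-- the bump as a complex valued function -/
noncomputable def dn_per_g (x : ℝ) : ℂ := (bmp x : ℂ)

lemma dn_per_bmp_smooth : ContDiff ℝ ∞ bmp := by
  unfold bmp
  apply ContDiff.mul
  · exact Real.smoothTransition.contDiff.comp (by fun_prop)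
  · exact Real.smoothTransition.contDiff.comp (by fun_prop)

lemma dn_per_g_smooth : ContDiff ℝ ∞ dn_per_g :=
  Complex.ofRealCLM.contDiff.comp dn_per_bmp_smooth

lemma dn_per_bmp_zero (x : ℝ) (hx : x ≤ 1 / 4 ∨ 4 ≤ x) : bmp x = 0 := by
  unfold bmp
  rcases hx with hx | hx
  · rw [Real.smoothTransition.zero_of_nonpos (by linarith), zero_mul]
  · rw [Real.smoothTransition.zero_of_nonpos (x := 4 - x) (by linarith), mul_zero]

lemma dn_per_g_zero (x : ℝ) (hx : x ≤ 1 / 4 ∨ 4 ≤ x) : dn_per_g x = 0 := by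
  rw [dn_per_g, dn_per_bmp_zero x hx]
  simp

lemma dn_per_g_supp : HasCompactSupport dn_per_g := by
  apply HasCompactSupport.of_support_subset_isCompact (isCompact_Icc (a := (1 / 4 : ℝ)) (b := 4))
  intro x hx
  rw [Function.mem_support] at hx
  by_contra h
  rw [Set.mem_Icc, not_and_or, not_le, not_le] at h
  exact hx (dn_per_g_zero x (h.imp le_of_lt le_of_lt))

/-- the scaled bump -/
noncomputable def dn_per_f (U x : ℝ) : ℂ := dn_per_g (U⁻¹ * x)

lemma dn_per_f_smooth (U : ℝ) : ContDiff ℝ ∞ (dn_per_f U) :=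
  dn_per_g_smooth.comp (by fun_prop)

lemma dn_per_f_zero (U : ℝ) (hU : 0 < U) (x : ℝ) (hx : x ≤ U / 4 ∨ 4 * U ≤ x) :
    dn_per_f U x = 0 := by
  apply dn_per_g_zero
  rcases hx with hx | hx
  · left
    rw [inv_mul_le_iff₀ hU]
    linarith
  · right
    rw [le_inv_mul_iff₀ hU]
    linarith

lemma dn_per_f_supp (U : ℝ) (hU : 0 < U) : HasCompactSupport (dn_per_f U) := by
  apply HasCompactSupport.of_support_subset_isCompact (isCompact_Icc (a := U / 4) (b := 4 * U))
  intro x hx
  rw [Function.mem_support] at hx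
  by_contra h
  rw [Set.mem_Icc, not_and_or, not_le, not_le] at h
  exact hx (dn_per_f_zero U hU x (h.imp le_of_lt le_of_lt))

lemma dn_per_iter_int (f : ℝ → ℂ) (hf : ContDiff ℝ ∞ f) (hs : HasCompactSupport f) (n : ℕ) :
    Integrable (iteratedDeriv n f) := by
  apply Continuous.integrable_of_hasCompactSupport
  · exact hf.continuous_iteratedDeriv n (mod_cast le_top)
  · induction n with
    | zero => simpa using hs
    | succ n ih =>
      rw [iteratedDeriv_succ]
      exact ih.deriv

/-- the bound of the Fourier coefficients -/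
lemma dn_per_bound (U : ℝ) (hU : 0 < U) (j : ℤ) (hj : j ≠ 0) :
    ‖𝓕 (dn_per_f U) (j : ℝ)‖ ≤
      (∫ x : ℝ, ‖iteratedDeriv 3 dn_per_g x‖) * U⁻¹ ^ 2 / (1 + |(j : ℝ)|) ^ 3 := by
  have h1 := Real.fourier_iteratedDeriv (f := dn_per_f U) (N := 3) (n := 3)
    ((dn_per_f_smooth U).of_le (mod_cast le_top))
    (fun n _ => dn_per_iter_int _ (dn_per_f_smooth U) (dn_per_f_supp U hU) n) le_rfl
  have h2 := congrFun h1 (j : ℝ)
  have h3 : ‖𝓕 (iteratedDeriv 3 (dn_per_f U)) (j : ℝ)‖ ≤
      ∫ x : ℝ, ‖iteratedDeriv 3 (dn_per_f U) x‖ :=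
    VectorFourier.norm_fourierIntegral_le_integral_norm _ _ _ _ _
  have h4 : iteratedDeriv 3 (dn_per_f U) = fun x => U⁻¹ ^ 3 • iteratedDeriv 3 dn_per_g (U⁻¹ * x) :=
    iteratedDeriv_comp_const_smul (contDiff_infty.mp dn_per_g_smooth 3) U⁻¹
  have h5 : ∫ x : ℝ, ‖iteratedDeriv 3 (dn_per_f U) x‖ =
      (∫ x : ℝ, ‖iteratedDeriv 3 dn_per_g x‖) * U⁻¹ ^ 2 := by
    rw [h4]
    simp only [norm_smul]
    rw [integral_const_mul]
    have := Measure.integral_comp_mul_left (fun x : ℝ => ‖iteratedDeriv 3 dn_per_g x‖) U⁻¹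
    rw [this, inv_inv, abs_of_pos hU, norm_pow, Real.norm_eq_abs, abs_of_pos (inv_pos.mpr hU),
      smul_eq_mul]
    field_simp
  rw [h2, norm_smul, h5] at h3
  have h6 : (1 + |(j : ℝ)|) ^ 3 ≤ ‖(2 * Real.pi * I * ((j : ℝ) : ℂ)) ^ 3‖ := by
    rw [norm_pow]
    apply pow_le_pow_left₀ (by positivity)
    rw [norm_mul, norm_mul, norm_mul, Complex.norm_I, Complex.norm_real, Complex.norm_real,
      Real.norm_eq_abs, Real.norm_eq_abs, abs_of_pos Real.pi_pos]
    have h7 : (1 : ℝ) ≤ |(j : ℝ)| := by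
      have := Int.one_le_abs hj
      exact_mod_cast this
    have h8 := Real.pi_gt_three
    simp only [Complex.norm_ofNat, mul_one]
    nlinarith
  rw [le_div_iff₀ (by positivity), mul_comm]
  exact (mul_le_mul_of_nonneg_right h6 (norm_nonneg _)).trans h3

theorem p_per : S_per := by
  set D : ℝ := ∫ x : ℝ, ‖iteratedDeriv 3 dn_per_g x‖ with hD
  have hD0 : 0 ≤ D := integral_nonneg fun _ => norm_nonneg _
  refine ⟨D + 1, by positivity, ?_⟩
  intro X U hX hXU hUX
  have hX0 : 0 < X := by linarith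
  have hU : 0 < U := lt_of_lt_of_le (Real.rpow_pos_of_pos hX0 _) hXU
  have hU2 : U⁻¹ ^ 2 ≤ X ^ 4 := by
    have h1 : X ^ (-2 : ℝ) = (X ^ 2)⁻¹ := by
      rw [Real.rpow_neg hX0.le]
      norm_num
    rw [h1] at hXU
    have h2 : U⁻¹ ≤ X ^ 2 := by
      rw [inv_le_comm₀ hU (by positivity)]
      exact hXU
    calc U⁻¹ ^ 2 ≤ (X ^ 2) ^ 2 := pow_le_pow_left₀ (by positivity) h2 2
      _ = X ^ 4 := by ring
  set c : ℤ → ℂ := fun j => if j = 0 then 0 else 𝓕 (dn_per_f U) (j : ℝ) with hc
  refine ⟨c, by simp [hc], ?_, ?_⟩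
  · intro j
    by_cases hj : j = 0
    · simp only [hc, hj, if_true, norm_zero]
      positivity
    · simp only [hc, hj, if_false]
      refine (dn_per_bound U hU j hj).trans ?_
      apply div_le_div_of_nonneg_right _ (by positivity)
      calc D * U⁻¹ ^ 2 ≤ D * X ^ 4 := mul_le_mul_of_nonneg_left hU2 hD0
        _ ≤ (D + 1) * X ^ 4 := mul_le_mul_of_nonneg_right (by linarith) (by positivity)
  · intro G hG hGp
    -- the Schwartz function
    set f : 𝓢(ℝ, ℂ) := (dn_per_f_supp U hU).toSchwartzMap (dn_per_f_smooth U) with hf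
    have hfx : ∀ x, f x = dn_per_f U x := fun x => rfl
    have hfc : (f : ℝ → ℂ) = dn_per_f U := rfl
    have hF : ∀ j : ℤ, (𝓕 f) (j : ℝ) = 𝓕 (dn_per_f U) (j : ℝ) := by
      intro j
      rw [SchwartzMap.fourier_coe]
      rfl
    have hsum : Summable fun j : ℤ => 𝓕 (dn_per_f U) (j : ℝ) := by
      have := summable_of_isBigO (Real.summable_abs_int_rpow one_lt_two)
        (((𝓕 f).isBigO_cocompact_rpow (-2)).comp_tendsto Int.tendsto_coe_cofinite)
      refine this.congr fun j => ?_
      exact hF j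
    have hpoisson : ∀ x : ℝ, ∑' n : ℤ, dn_per_f U (x + n) =
        ∑' j : ℤ, 𝓕 (dn_per_f U) (j : ℝ) * ee (j * x) := by
      intro x
      have := f.tsum_eq_tsum_fourier x
      simp only [hF, hfx] at this
      rw [this]
      congr 1
      ext j
      congr 1
      rw [fourier_coe_apply, ee]
      congr 1
      push_cast
      ring
    have hee : ∀ x : ℝ, ‖ee x‖ = 1 := by
      intro x
      rw [ee, show (2 * Real.pi * x * I : ℂ) = ((2 * Real.pi * x : ℝ) : ℂ) * I by push_cast; ring]
      exact Complex.norm_exp_ofReal_mul_I _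
    have hsplit : ∀ x : ℝ, ∑' j : ℤ, c j * ee (j * x) =
        ∑' n : ℤ, dn_per_f U (x + n) - 𝓕 (dn_per_f U) (0 : ℝ) := by
      intro x
      rw [hpoisson x]
      have hs2 : Summable fun j : ℤ => 𝓕 (dn_per_f U) (j : ℝ) * ee (j * x) := by
        apply Summable.of_norm
        refine hsum.norm.congr fun j => ?_
        rw [norm_mul, hee, mul_one]
      rw [hs2.tsum_eq_add_tsum_ite 0]
      have e0 : ee (((0 : ℤ) : ℝ) * x) = 1 := by simp [ee]
      rw [e0]
      have e1 : ∑' j : ℤ, c j * ee (j * x) =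
          ∑' j : ℤ, if j = 0 then 0 else 𝓕 (dn_per_f U) (j : ℝ) * ee (j * x) := by
        congr 1
        ext j
        by_cases hj : j = 0
        · simp [hc, hj]
        · simp [hc, hj]
      rw [e1]
      simp
    have hf0 : 𝓕 (dn_per_f U) (0 : ℝ) = U * ∫ x : ℝ, (bmp x : ℂ) := by
      rw [Real.fourier_real_eq_integral_exp_smul]
      simp only [mul_zero, Complex.ofReal_zero, zero_mul, Complex.exp_zero, one_smul]
      have := Measure.integral_comp_mul_left dn_per_g U⁻¹
      rw [inv_inv, abs_of_pos hU] at this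
      unfold dn_per_f
      rw [this, Complex.real_smul]
      rfl
    -- finite support
    set S : Finset ℤ := Finset.Icc 0 ⌊4 * U⌋ with hS
    have hz : ∀ n : ℤ, n ∉ S → ∀ x ∈ Set.Icc (0 : ℝ) 1, dn_per_f U (x + n) = 0 := by
      intro n hn x hx
      apply dn_per_f_zero U hU
      rw [hS, Finset.mem_Icc, not_and_or, not_le, not_le] at hn
      rcases hn with hn | hn
      · left
        have : (n : ℝ) ≤ -1 := by exact_mod_cast (by omega : n ≤ -1)
        linarith [hx.2]
      · right
        have : 4 * U < (n : ℝ) := Int.floor_lt.mp hn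
        linarith [hx.1]
    have hfin : ∀ x ∈ Set.Icc (0 : ℝ) 1, ∑' n : ℤ, dn_per_f U (x + n) =
        ∑ n ∈ S, dn_per_f U (x + n) := by
      intro x hx
      exact tsum_eq_sum fun n hn => hz n hn x hx
    have hcf : Continuous (dn_per_f U) := (dn_per_f_smooth U).continuous
    have hint : Integrable fun x : ℝ => dn_per_f U x * G x := by
      apply Continuous.integrable_of_hasCompactSupport (hcf.mul hG)
      exact (dn_per_f_supp U hU).mul_right
    have hL : ∫ x : ℝ, dn_per_f U x * G x =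
        ∑ n ∈ S, ∫ x in (0 : ℝ)..1, dn_per_f U (x + n) * G x := by
      have h1 := hint.hasSum_intervalIntegral_comp_add_int
      have h2 : HasSum (fun n : ℤ => ∫ x in (0 : ℝ)..1, dn_per_f U (x + n) * G (x + n))
          (∑ n ∈ S, ∫ x in (0 : ℝ)..1, dn_per_f U (x + n) * G (x + n)) := by
        apply hasSum_sum_of_ne_finset_zero
        intro n hn
        rw [intervalIntegral.integral_congr (g := fun _ => (0 : ℂ))]
        · simp
        · intro x hx
          rw [Set.uIcc_of_le (by norm_num)] at hx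
          simp only [hz n hn x hx, zero_mul]
      rw [h1.unique h2]
      apply Finset.sum_congr rfl
      intro n _
      apply intervalIntegral.integral_congr
      intro x _
      simp only
      congr 1
      exact (hGp.int_mul n x).symm ▸ by simp
    have hR : ∫ x in (0 : ℝ)..1, (∑' j : ℤ, c j * ee (j * x)) * G x =
        ∫ x in (0 : ℝ)..1, ((∑ n ∈ S, dn_per_f U (x + n) * G x) -
          U * (∫ x : ℝ, (bmp x : ℂ)) * G x) := by
      apply intervalIntegral.integral_congr
      intro x hx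
      rw [Set.uIcc_of_le (by norm_num)] at hx
      simp only
      rw [hsplit x, hfin x hx, hf0, sub_mul, Finset.sum_mul]
    rw [hR, intervalIntegral.integral_sub, intervalIntegral.integral_finsetSum,
      intervalIntegral.integral_const_mul, ← hL]
    · congr 1
      apply integral_congr_ae
      refine Eventually.of_forall fun x => ?_
      simp only [dn_per_f, dn_per_g]
      rw [div_eq_inv_mul]
    · intro n _
      apply Continuous.intervalIntegrable
      fun_prop
    · apply Continuous.intervalIntegrable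
      fun_prop
    · apply Continuous.intervalIntegrable
      fun_prop

end Pool.Agent.Lib.MP_cd509c_nt.DN
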