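import Pool.Agent.Lib.MP_cd509c_nt.DN.Defs

/-!
Piece reg: regularity of the normalised function.
-/

set_option autoImplicit false

namespace Pool.Agent.Lib.MP_cd509c_nt.DN

open Complex ComplexConjugate MeasureTheory

theorem dn_reg_LL (x a : ℝ) (w : ℂ) : LL (a * w + x * I) = Lf (s0 x + a * w) := by
  rw [LL, s0]
  congr 1
  ring

theorem dn_reg_key (x a l : ℝ) (w v : ℂ) (K : ℝ) (hs : 1 ≤ (s0 x + a * w).re)
    (hsv : 0 < (s0 x + a * v).re) (h4 : ‖s0 x + a * w‖ ≤ 4 * ‖s0 x + a * v‖)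
    (hrc : ‖rc (s0 x + a * w) - l‖ ≤ 8)
    (hL : ‖LL (a * v + x * I)‖ ≤ K * ‖LL (a * w + x * I)‖) :
    ‖Rx x a l v‖ ≤ Real.exp (8 * ‖(a : ℂ) * (v - w)‖ +
      4 * (‖(a : ℂ) * (v - w)‖ + 30 * ‖(a : ℂ) * (v - w)‖ ^ 2) / ‖s0 x + a * w‖) * K *
      ‖Rx x a l w‖ := by
  set s := s0 x + a * w with hsd
  set t : ℂ := (a : ℂ) * (v - w) with ht
  have hst : s + t = s0 x + a * v := by rw [hsd, ht]; ring
  obtain ⟨g, hg, hq⟩ := Lam_quot (s := s) (v := t) hs (by rw [hst]; exact hsv)
    (by rw [hst]; exact h4)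
  rw [dn_reg_LL, dn_reg_LL, ← hsd, ← hst] at hL
  have e1 : Rx x a l v = (G0 s / m0 x * cexp (-((a * l : ℝ) : ℂ) * w)) *
      (cexp ((rc s - l) * t + g) * Lf (s + t)) := by
    have h1 : cexp (-((a * l : ℝ) : ℂ) * v) =
        cexp (-((a * l : ℝ) : ℂ) * w) * cexp (-(l : ℂ) * t) := by
      rw [← Complex.exp_add]
      congr 1
      rw [ht]; push_cast; ring
    have h2 : cexp ((rc s - l) * t + g) = cexp (rc s * t + g) * cexp (-(l : ℂ) * t) := by
      rw [← Complex.exp_add]
      congr 1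
      ring
    rw [Rx, ← hst, hq, h1, h2]
    ring
  have e2 : Rx x a l w = (G0 s / m0 x * cexp (-((a * l : ℝ) : ℂ) * w)) * Lf s := by
    rw [Rx, ← hsd, Lam_eq_Lf (by linarith : 0 < s.re), G0]
    ring
  change ‖Rx x a l v‖ ≤ Real.exp (8 * ‖t‖ + 4 * (‖t‖ + 30 * ‖t‖ ^ 2) / ‖s‖) * K * ‖Rx x a l w‖
  generalize G0 s / m0 x * cexp (-((a * l : ℝ) : ℂ) * w) = c at e1 e2
  rw [e1, e2, norm_mul c, norm_mul (cexp _), norm_mul c]
  have h3 : ‖cexp ((rc s - l) * t + g)‖ ≤ Real.exp (8 * ‖t‖ +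
      4 * (‖t‖ + 30 * ‖t‖ ^ 2) / ‖s‖) := by
    rw [Complex.norm_exp]
    apply Real.exp_le_exp.2
    calc ((rc s - l) * t + g).re ≤ ‖(rc s - l) * t + g‖ := Complex.re_le_norm _
      _ ≤ ‖(rc s - l) * t‖ + ‖g‖ := norm_add_le _ _
      _ ≤ 8 * ‖t‖ + 4 * (‖t‖ + 30 * ‖t‖ ^ 2) / ‖s‖ := by
        rw [norm_mul]
        exact add_le_add (mul_le_mul_of_nonneg_right hrc (norm_nonneg _)) hg
  calc ‖c‖ * (‖cexp ((rc s - l) * t + g)‖ * ‖Lf (s + t)‖)
      ≤ ‖c‖ * (Real.exp (8 * ‖t‖ + 4 * (‖t‖ + 30 * ‖t‖ ^ 2) / ‖s‖) * (K * ‖Lf s‖)) := by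
        apply mul_le_mul_of_nonneg_left _ (norm_nonneg _)
        exact mul_le_mul h3 hL (norm_nonneg _) (Real.exp_pos _).le
    _ = _ := by ring

theorem dn_reg_rc {x l V : ℝ} {s : ℂ} (hx : 0 < x) (hV : 1 ≤ V) (hxV : 30000 * V ≤ x)
    (hl : |Real.log x - l| ≤ 1) (h1 : x - 40 * V ≤ ‖s‖) (h2 : ‖s‖ ≤ 6 + 140 * V + x) :
    ‖rc s - l‖ ≤ 8 := by
  have hs : 0 < ‖s‖ := by linarith
  have e1 : Real.log ‖s‖ ≤ Real.log x + Real.log 2 := by
    rw [← Real.log_mul hx.ne' (by norm_num)]
    exact Real.log_le_log hs (by linarith)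
  have e2 : Real.log x - Real.log 2 ≤ Real.log ‖s‖ := by
    rw [← Real.log_div hx.ne' (by norm_num)]
    exact Real.log_le_log (by positivity) (by linarith)
  have hlog2 : Real.log 2 ≤ 0.7 := by
    have := Real.log_two_lt_d9; linarith
  have hpi1 := Real.pi_gt_three
  have hpi2 := Real.pi_lt_d2
  have e3 : 0 ≤ Real.log (2 * Real.pi) := Real.log_nonneg (by linarith)
  have e4 : Real.log (2 * Real.pi) ≤ 2 := by
    rw [Real.log_le_iff_le_exp (by positivity)]
    have h := Real.sum_le_exp_of_nonneg (by norm_num : (0 : ℝ) ≤ 2) 6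
    simp only [Finset.sum_range_succ, Finset.sum_range_zero, Nat.factorial] at h
    norm_num at h
    linarith
  have hre : (rc s - l).re = Real.log ‖s‖ - Real.log (2 * Real.pi) - l := by
    rw [rc, Complex.sub_re, Complex.sub_re, Complex.log_re, Complex.ofReal_re, Complex.ofReal_re]
  have him : (rc s - l).im = arg s := by
    rw [rc, Complex.sub_im, Complex.sub_im, Complex.log_im, Complex.ofReal_im, Complex.ofReal_im]
    ring
  have hl' := abs_le.1 hl
  have harg := Complex.abs_arg_le_pi s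
  calc ‖rc s - l‖ ≤ |(rc s - l).re| + |(rc s - l).im| := Complex.norm_le_abs_re_add_abs_im _
    _ ≤ (2 + 1 + 0.7) + Real.pi := by
      rw [hre, him]
      apply add_le_add _ harg
      rw [abs_le]
      constructor <;> linarith [hl'.1, hl'.2]
    _ ≤ 8 := by linarith

theorem p_reg (h2 : S_reg2) : S_reg := by
  obtain ⟨C, hC, hLf⟩ := Lf_sub_one
  obtain ⟨V₁, hV₁⟩ : ∃ V₁ : ℝ, ∀ V : ℝ, V₁ ≤ V → C * (2 : ℝ) ^ (-(100 * V)) ≤ 1 / 2 := by
    refine ⟨C, fun V hV => ?_⟩
    have hV0 : 0 < V := lt_of_lt_of_le hC hV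
    have h1 : (2 : ℝ) ^ (-(100 * V)) ≤ (2 * V)⁻¹ := by
      rw [Real.rpow_neg (by norm_num)]
      apply inv_anti₀ (by positivity)
      rw [Real.rpow_def_of_pos (by norm_num)]
      have h3 := Real.add_one_le_exp (Real.log 2 * (100 * V))
      have h4 := Real.log_two_gt_d9
      nlinarith
    calc C * (2 : ℝ) ^ (-(100 * V)) ≤ V * (2 * V)⁻¹ := by
          apply mul_le_mul hV h1 (by positivity) hV0.le
      _ = 1 / 2 := by field_simp
  refine ⟨max 1 V₁, le_max_left _ _, ?_⟩
  intro ε A V hε hA hV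
  have hV1 : 1 ≤ V := (le_max_left _ _).trans hV
  have hVC := hV₁ V ((le_max_right _ _).trans hV)
  have hε20 : 0 < 20 / ε := by positivity
  refine ⟨1 + 20 / ε + 30000 * V + 200 * A, by linarith, ?_⟩
  intro l hl x hx hlog a ha haA hal i J hiJ hVJ hJV hgood
  have hl0 : 0 < l := by linarith
  have hεl : 20 ≤ ε * l := by
    have h3 : 20 / ε ≤ l := by linarith
    rw [div_le_iff₀ hε] at h3
    linarith
  have hxl : l ≤ x := by
    have h3 : l - 1 ≤ Real.log x := by linarith [(abs_le.1 hlog).1]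
    have h4 := Real.add_one_le_exp (l - 1)
    have h5 := Real.exp_le_exp.2 h3
    rw [Real.exp_log hx] at h5
    linarith
  have hxV : 30000 * V ≤ x := by linarith
  have hxA : 40 * V + 200 * A ≤ x := by linarith
  have hb0 : (0 : ℝ) < 2 ^ i := by positivity
  have hB0 : 0 < (2 : ℝ) ^ i * a := by positivity
  have hBV : (2 : ℝ) ^ i * a ≤ 2 * V := by
    have h3 : (2 : ℝ) ^ i ≤ 2 ^ J := pow_le_pow_right₀ (by norm_num) hiJ
    nlinarith
  have haV : a ≤ 2 * V := by
    have h3 : (1 : ℝ) ≤ 2 ^ J := one_le_pow₀ (by norm_num)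
    nlinarith
  have hR := h2 (ε / 100) a l x i J (by positivity) ha hl0 hiJ hgood
  have hYa : a * (100 * V / a) = 100 * V := by field_simp
  -- the points of the region
  have hre : ∀ w : ℂ, ((a : ℂ) * w + x * I).re = a * w.re := by intro w; simp
  have him : ∀ w : ℂ, ((a : ℂ) * w + x * I).im - x = a * w.im := by intro w; simp
  have hire : ∀ w : ℂ, |w.im| ≤ 20 * 2 ^ i → |a * w.im| ≤ 20 * (2 ^ i * a) := by
    intro w hw
    rw [abs_mul, abs_of_pos ha]
    nlinarith
  have hrlo : ∀ w : ℂ, (2 : ℝ) ^ i / 4 ≤ w.re → 2 ^ i * a / 4 ≤ a * w.re := by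
    intro w hw
    nlinarith [mul_le_mul_of_nonneg_left hw ha.le]
  have hrhi : ∀ w : ℂ, w.re ≤ 100 * V / a → a * w.re ≤ 100 * V := by
    intro w hw
    rw [← hYa]
    exact mul_le_mul_of_nonneg_left hw ha.le
  -- sizes of the arguments
  have hsre : ∀ w : ℂ, (s0 x + a * w).re = 6 + a * w.re := by
    intro w; simp [s0_re]
  have hsim : ∀ w : ℂ, (s0 x + a * w).im = x + a * w.im := by
    intro w; simp [s0_im]
  have hslo : ∀ w : ℂ, |w.im| ≤ 20 * 2 ^ i → x - 40 * V ≤ ‖s0 x + a * w‖ := by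
    intro w hw
    have h3 := abs_le.1 (hire w hw)
    have h4 := Complex.abs_im_le_norm (s0 x + a * w)
    rw [hsim] at h4
    have h5 := le_abs_self (x + a * w.im)
    linarith [h3.1]
  have hshi : ∀ w : ℂ, 0 ≤ w.re → w.re ≤ 100 * V / a → |w.im| ≤ 20 * 2 ^ i →
      ‖s0 x + a * w‖ ≤ 6 + 140 * V + x := by
    intro w h0 h1 hw
    have h3 := abs_le.1 (hire w hw)
    have h4 := Complex.norm_le_abs_re_add_abs_im (s0 x + a * w)
    rw [hsre, hsim] at h4
    have h5 := hrhi w h1
    have h6 : 0 ≤ a * w.re := mul_nonneg ha.le h0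
    rw [abs_of_nonneg (by linarith : 0 ≤ 6 + a * w.re), abs_of_nonneg (by linarith [h3.1])] at h4
    linarith [h3.2]
  have hnorm : ∀ w v : ℂ, ‖(a : ℂ) * (v - w)‖ = a * ‖v - w‖ := by
    intro w v
    rw [norm_mul, Complex.norm_real, Real.norm_of_nonneg ha.le]
  have hdiff : ∀ w v : ℂ, ((a : ℂ) * v + x * I) - ((a : ℂ) * w + x * I) = (a : ℂ) * (v - w) := by
    intro w v; ring
  refine ⟨?_, ?_, ?_, ?_⟩
  · -- differentiable
    have h3 : Differentiable ℂ fun z : ℂ => Lam (s0 x + a * z) :=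
      Lam_differentiable.comp (by fun_prop)
    have h4 : Differentiable ℂ fun z : ℂ => cexp (-((a * l : ℝ) : ℂ) * z) := by fun_prop
    exact (h3.div_const _).mul h4
  · -- no zeros
    intro w hw1 hw2 hw3
    have h3 := (hR (a * w + x * I) (a * w + x * I) (by rw [hre]; exact hrlo w hw1)
      (by rw [hre]; linarith [hrhi w hw2]) (by rw [him]; exact hire w hw3)
      (by rw [hre]; linarith [hrlo w hw1]) (by rw [hre]; linarith [hrhi w hw2])
      (by rw [him]; exact hire w hw3)).1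
    rw [dn_reg_LL] at h3
    have h4 : 0 < (s0 x + a * w).re := by rw [hsre]; linarith [hrlo w hw1]
    rw [Rx, Lam_eq_Lf h4]
    exact mul_ne_zero (div_ne_zero (mul_ne_zero (mul_ne_zero (two_pi_cpow_ne _)
      (Gamma_ne_zero_of_re_pos h4)) h3) (m0_ne x)) (Complex.exp_ne_zero _)
  · -- the Lipschitz bound
    intro w v hw1 hw2 hw3 hv1 hv2 hv3
    have hw0 : 0 ≤ w.re := by linarith
    have h3 := (hR (a * w + x * I) (a * v + x * I) (by rw [hre]; exact hrlo w hw1)
      (by rw [hre]; linarith [hrhi w hw2]) (by rw [him]; exact hire w hw3)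
      (by rw [hre]; exact mul_nonneg ha.le hv1) (by rw [hre]; linarith [hrhi v hv2])
      (by rw [him]; exact hire v hv3)).2
    rw [hdiff, hnorm] at h3
    have h4 := dn_reg_key x a l w v _ (by rw [hsre]; linarith [hrlo w hw1])
      (by rw [hsre]; linarith [mul_nonneg ha.le hv1])
      (by linarith [hshi w hw0 hw2 hw3, hslo v hv3])
      (dn_reg_rc hx hV1 hxV hlog (hslo w hw3) (hshi w hw0 hw2 hw3)) h3
    rw [hnorm] at h4
    refine h4.trans (mul_le_mul_of_nonneg_right ?_ (norm_nonneg _))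
    rw [← Real.exp_add]
    apply Real.exp_le_exp.2
    set τ := a * ‖v - w‖ with hτ
    have hτ0 : 0 ≤ τ := mul_nonneg ha.le (norm_nonneg _)
    have hτV : τ ≤ 180 * V := by
      have h5 := Complex.norm_le_abs_re_add_abs_im (a * (v - w) : ℂ)
      rw [hnorm] at h5
      have e1 : ((a : ℂ) * (v - w)).re = a * v.re - a * w.re := by simp; ring
      have e2 : ((a : ℂ) * (v - w)).im = a * v.im - a * w.im := by simp; ring
      rw [e1, e2] at h5
      have h6 : |a * v.re - a * w.re| ≤ 100 * V := by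
        rw [abs_le]
        constructor <;> linarith [hrhi w hw2, hrhi v hv2, mul_nonneg ha.le hv1, mul_nonneg ha.le hw0]
      have h7 : |a * v.im - a * w.im| ≤ 80 * V := by
        have h8 := abs_le.1 (hire w hw3)
        have h9 := abs_le.1 (hire v hv3)
        rw [abs_le]
        constructor <;> linarith [h8.1, h8.2, h9.1, h9.2]
      linarith
    have hs1 := hslo w hw3
    have hs0 : 0 < ‖s0 x + a * w‖ := by linarith
    have h5 : 4 * (τ + 30 * τ ^ 2) / ‖s0 x + a * w‖ ≤ τ := by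
      rw [div_le_iff₀ hs0]
      have h6 : 4 * (1 + 30 * τ) ≤ ‖s0 x + a * w‖ := by linarith
      calc 4 * (τ + 30 * τ ^ 2) = τ * (4 * (1 + 30 * τ)) := by ring
        _ ≤ _ := mul_le_mul_of_nonneg_left h6 hτ0
    have h6 : ε * (a * l) * ‖v - w‖ = ε * l * τ := by rw [hτ]; ring
    rw [h6]
    have h7 : 20 * τ ≤ ε * l * τ := mul_le_mul_of_nonneg_right hεl hτ0
    have h8 : 32 * (ε / 100) * l * τ = 8 / 25 * (ε * l * τ) := by ring
    rw [h8]
    linarith
  · -- the tail
    intro w v hw1 hw2 hw3 hv1 hv3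
    have hw0 : 0 ≤ w.re := by linarith
    have hYpos : 0 < 100 * V / a := by positivity
    have hw2' : w.re ≤ 100 * V / a := by linarith
    have hv0 : 0 ≤ v.re := by linarith
    have hav : 100 * V ≤ a * v.re := by
      rw [← hYa]
      exact mul_le_mul_of_nonneg_left hv1 ha.le
    set p : ℂ := ((100 * V : ℝ) : ℂ) + x * I with hp
    have hpre : p.re = 100 * V := by simp [hp]
    have hpim : p.im - x = 0 := by simp [hp]
    have h3 := (hR (a * w + x * I) p (by rw [hre]; exact hrlo w hw1)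
      (by rw [hre]; linarith [hrhi w hw2']) (by rw [him]; exact hire w hw3)
      (by rw [hpre]; linarith) (by rw [hpre]; linarith)
      (by rw [hpim, abs_zero]; positivity)).2
    have hone : ∀ z : ℂ, 100 * V ≤ z.re → ‖LL z - 1‖ ≤ 1 / 2 := by
      intro z hz
      have e1 : (6 + z : ℂ).re = 6 + z.re := by simp
      have h4 := hLf (6 + z) (by rw [e1]; linarith)
      refine h4.trans (le_trans ?_ hVC)
      apply mul_le_mul_of_nonneg_left _ hC.le
      apply Real.rpow_le_rpow_of_exponent_le (by norm_num)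
      rw [e1]; linarith
    have h5 : 1 / 2 ≤ ‖LL p‖ := by
      have h6 := hone p (by rw [hpre])
      have h7 := norm_sub_norm_le (1 : ℂ) (LL p)
      rw [norm_one, norm_sub_rev] at h7
      linarith
    have h6 : ‖LL (a * v + x * I)‖ ≤ 3 / 2 := by
      have h7 := hone (a * v + x * I) (by rw [hre]; exact hav)
      have h8 := norm_sub_norm_le (LL (a * v + x * I)) 1
      rw [norm_one] at h8
      linarith
    have hpw : ‖p - (a * w + x * I)‖ ≤ 140 * V := by
      have h7 := Complex.norm_le_abs_re_add_abs_im (p - (a * w + x * I))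
      have e1 : (p - (a * w + x * I)).re = 100 * V - a * w.re := by
        rw [Complex.sub_re, hpre, hre]
      have e2 : (p - (a * w + x * I)).im = -(a * w.im) := by
        rw [Complex.sub_im]
        have := him w
        linarith
      rw [e1, e2, abs_neg] at h7
      have h8 : |100 * V - a * w.re| ≤ 100 * V := by
        rw [abs_le]
        constructor <;> linarith [hrhi w hw2', mul_nonneg ha.le hw0]
      have h9 := hire w hw3
      linarith
    have hK : ‖LL (a * v + x * I)‖ ≤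
        (3 * Real.exp (32 * (ε / 100) * l * (140 * V))) * ‖LL (a * w + x * I)‖ := by
      have h7 : Real.exp (32 * (ε / 100) * l * ‖p - (a * w + x * I)‖) ≤
          Real.exp (32 * (ε / 100) * l * (140 * V)) :=
        Real.exp_le_exp.2 (mul_le_mul_of_nonneg_left hpw (by positivity))
      have h8 := h3.trans (mul_le_mul_of_nonneg_right h7 (norm_nonneg _))
      linarith
    have h4 := dn_reg_key x a l w v _ (by rw [hsre]; linarith [hrlo w hw1])
      (by rw [hsre]; linarith [mul_nonneg ha.le hv0])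
      (by linarith [hshi w hw0 hw2' hw3, hslo v hv3])
      (dn_reg_rc hx hV1 hxV hlog (hslo w hw3) (hshi w hw0 hw2' hw3)) hK
    rw [hnorm] at h4
    refine h4.trans (mul_le_mul_of_nonneg_right ?_ (norm_nonneg _))
    have hD : 100 * V / a / 2 ≤ ‖v - w‖ := by
      have h7 := Complex.abs_re_le_norm (v - w)
      rw [Complex.sub_re] at h7
      have h8 := le_abs_self (v.re - w.re)
      linarith
    have hD25 : 25 ≤ ‖v - w‖ := by
      refine le_trans ?_ hD
      rw [div_div, le_div_iff₀ (by positivity)]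
      linarith
    set D := ‖v - w‖ with hDd
    have hτ50 : 50 * V ≤ a * D := by
      have h7 := mul_le_mul_of_nonneg_left hD ha.le
      have h8 : a * (100 * V / a / 2) = 50 * V := by field_simp; ring
      linarith
    set τ := a * D with hτ
    have hτ0 : 0 ≤ τ := by linarith
    have hs1 := hslo w hw3
    have hs0 : 0 < ‖s0 x + a * w‖ := by linarith
    have hτD : 25 * τ ≤ τ * D := by nlinarith
    have h7 : 4 * (τ + 30 * τ ^ 2) / ‖s0 x + a * w‖ ≤ τ * D := by
      rw [div_le_iff₀ hs0]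
      have h8 : τ ≤ τ ^ 2 := by nlinarith
      have h9 : 4 * (τ + 30 * τ ^ 2) ≤ 124 * τ ^ 2 := by linarith
      have h10 : 124 * τ ^ 2 = τ * D * (124 * a) := by rw [hτ]; ring
      rw [h10] at h9
      refine h9.trans (mul_le_mul_of_nonneg_left ?_ (mul_nonneg hτ0 (norm_nonneg _)))
      linarith
    have h8 : ε * (a * l) * D ^ 2 = ε * l * (τ * D) := by rw [hτ]; ring
    have h9 : (3 : ℝ) ≤ Real.exp 2 := by
      have := Real.add_one_le_exp (2 : ℝ)
      linarith
    calc Real.exp (8 * τ + 4 * (τ + 30 * τ ^ 2) / ‖s0 x + a * w‖) *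
          (3 * Real.exp (32 * (ε / 100) * l * (140 * V)))
        ≤ Real.exp (8 * τ + 4 * (τ + 30 * τ ^ 2) / ‖s0 x + a * w‖) *
          (Real.exp 2 * Real.exp (32 * (ε / 100) * l * (140 * V))) := by
          apply mul_le_mul_of_nonneg_left _ (Real.exp_pos _).le
          exact mul_le_mul_of_nonneg_right h9 (Real.exp_pos _).le
      _ = Real.exp (8 * τ + 4 * (τ + 30 * τ ^ 2) / ‖s0 x + a * w‖ +
          (2 + 32 * (ε / 100) * l * (140 * V))) := by
          rw [← Real.exp_add, ← Real.exp_add]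
      _ ≤ Real.exp (ε * (a * l) * D ^ 2) := by
          apply Real.exp_le_exp.2
          rw [h8]
          have hX0 : 0 ≤ τ * D := by linarith
          have h10 : 20 * (τ * D) ≤ ε * l * (τ * D) := mul_le_mul_of_nonneg_right hεl hX0
          have h11 : 32 * (ε / 100) * l * (140 * V) = 112 / 125 * (ε * l * (50 * V)) := by ring
          have h12 : ε * l * (50 * V) ≤ ε * l * τ :=
            mul_le_mul_of_nonneg_left hτ50 (by positivity)
          have h13 : ε * l * τ * 25 ≤ ε * l * (τ * D) := by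
            have := mul_le_mul_of_nonneg_left hτD (by positivity : 0 ≤ ε * l)
            linarith
          rw [h11]
          linarith

end Pool.Agent.Lib.MP_cd509c_nt.DN
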