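import Mathlib
import Pool.Agent.Lib.MP_cd509c_nt.DN.Defs

/-!
# Taylor expansion of the logarithm of a regular function
-/

set_option autoImplicit false

namespace Pool.Agent.Lib.MP_cd509c_nt.DN

open Complex ComplexConjugate MeasureTheory

/-- a one-sided derivative test -/
lemma dn_tay_slope {f : ℝ → ℝ} {a δ : ℝ} (hf : HasDerivAt f a 0) (hδ : 0 < δ)
    (h : ∀ t, 0 < t → t < δ → f t ≤ f 0) : a ≤ 0 := by
  have h1 := hf.tendsto_slope_zero_right
  refine le_of_tendsto h1 ?_
  have h2 : Set.Ioo (0 : ℝ) δ ∈ nhdsWithin (0 : ℝ) (Set.Ioi 0) := Ioo_mem_nhdsGT hδ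
  filter_upwards [h2] with t ht
  rw [zero_add, smul_eq_mul]
  exact mul_nonpos_of_nonneg_of_nonpos (inv_nonneg.mpr ht.1.le) (by linarith [h t ht.1 ht.2])

/-- bound of the logarithmic derivative at a point with a local Lipschitz bound -/
lemma dn_tay_q {R : ℂ → ℂ} {w : ℂ} {K δ : ℝ} (hR : Differentiable ℂ R) (h0 : R w ≠ 0)
    (hδ : 0 < δ) (hK : 0 ≤ K)
    (h : ∀ v, ‖v - w‖ < δ → ‖R v‖ ≤ Real.exp (K * ‖v - w‖) * ‖R w‖) : ‖qq R w‖ ≤ K := by
  by_cases hq : qq R w = 0
  · rw [hq, norm_zero]; exact hK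
  set q := qq R w with hqd
  have hqn : 0 < ‖q‖ := norm_pos_iff.mpr hq
  -- direction
  set u : ℂ := conj q / ‖q‖ with hu
  have hun : ‖u‖ = 1 := by
    rw [hu, norm_div, Complex.norm_conj, Complex.norm_real, norm_norm, div_self hqn.ne']
  have hqu : q * u = (‖q‖ : ℂ) := by
    have hne : (‖q‖ : ℂ) ≠ 0 := by exact_mod_cast hqn.ne'
    rw [hu, mul_div_assoc', Complex.mul_conj, div_eq_iff hne, Complex.normSq_eq_norm_sq]
    push_cast; ring
  -- the complex curve
  have hγ : HasDerivAt (fun t : ℂ => R (w + t * u) / R w) (q * u) ((0 : ℝ) : ℂ) := by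
    have h1 : HasDerivAt (fun t : ℂ => w + t * u) u ((0 : ℝ) : ℂ) := by
      simpa using ((hasDerivAt_id ((0 : ℝ) : ℂ)).mul_const u).const_add w
    have h2 : HasDerivAt R (deriv R w) (w + ((0 : ℝ) : ℂ) * u) := by
      simpa using (hR w).hasDerivAt
    have h3 := (h2.comp ((0 : ℝ) : ℂ) h1).div_const (R w)
    have h4 : deriv R w * u / R w = q * u := by
      rw [hqd, qq]; ring
    rw [h4] at h3
    exact h3
  have hre : HasDerivAt (fun t : ℝ => (R (w + t * u) / R w).re - Real.exp (K * t)) (‖q‖ - K) 0 := by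
    have h1 : HasDerivAt (fun t : ℝ => (R (w + t * u) / R w).re) (q * u).re 0 :=
      hγ.real_of_complex
    have h2 : HasDerivAt (fun t : ℝ => Real.exp (K * t)) K 0 := by
      have := ((hasDerivAt_id (0 : ℝ)).const_mul K).exp
      simpa using this
    rw [hqu, Complex.ofReal_re] at h1
    exact h1.sub h2
  have hfin := dn_tay_slope hre hδ (fun t ht htδ => by
    have hn : ‖(w + (t : ℂ) * u) - w‖ = t := by
      rw [add_sub_cancel_left, norm_mul, hun, mul_one, Complex.norm_real, Real.norm_eq_abs,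
        abs_of_pos ht]
    have h1 := h (w + t * u) (by rw [hn]; exact htδ)
    rw [hn] at h1
    have h2 : (R (w + t * u) / R w).re ≤ Real.exp (K * t) := by
      refine (Complex.re_le_norm _).trans ?_
      rw [norm_div, div_le_iff₀ (norm_pos_iff.mpr h0)]
      exact h1
    have h3 : (R (w + ((0 : ℝ) : ℂ) * u) / R w).re = 1 := by
      rw [Complex.ofReal_zero, zero_mul, add_zero, div_self h0, Complex.one_re]
    rw [h3, mul_zero, Real.exp_zero]
    linarith)
  linarith

/-- the box -/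
def dn_tay_box (b Y : ℝ) : Set ℂ :=
  {z : ℂ | b / 4 + 1 / 8 ≤ z.re ∧ z.re ≤ Y - 1 / 8 ∧ |z.im| ≤ 20 * b - 1 / 8}

lemma dn_tay_convex (b Y : ℝ) : Convex ℝ (dn_tay_box b Y) := by
  have h1 : Convex ℝ {z : ℂ | b / 4 + 1 / 8 ≤ z.re} := convex_halfSpace_re_ge _
  have h2 : Convex ℝ {z : ℂ | z.re ≤ Y - 1 / 8} := convex_halfSpace_re_le _
  have h3 : Convex ℝ {z : ℂ | z.im ≤ 20 * b - 1 / 8} := convex_halfSpace_im_le _
  have h4 : Convex ℝ {z : ℂ | -(20 * b - 1 / 8) ≤ z.im} := convex_halfSpace_im_ge _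
  have h5 : dn_tay_box b Y = ({z : ℂ | b / 4 + 1 / 8 ≤ z.re} ∩ {z : ℂ | z.re ≤ Y - 1 / 8}) ∩
      ({z : ℂ | z.im ≤ 20 * b - 1 / 8} ∩ {z : ℂ | -(20 * b - 1 / 8) ≤ z.im}) := by
    ext z
    constructor
    · rintro ⟨h1, h2, h3⟩
      exact ⟨⟨h1, h2⟩, ⟨(abs_le.mp h3).2, (abs_le.mp h3).1⟩⟩
    · rintro ⟨⟨h1, h2⟩, ⟨h3, h4⟩⟩
      exact ⟨h1, h2, abs_le.mpr ⟨h4, h3⟩⟩
  rw [h5]
  exact (h1.inter h2).inter (h3.inter h4)

variable {ε N b Y : ℝ} {R : ℂ → ℂ}

/-- points near the box -/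
lemma dn_tay_near {w z : ℂ} {r : ℝ} (hw : w ∈ dn_tay_box b Y) (hz : ‖z - w‖ ≤ r) :
    b / 4 + (1 / 8 - r) ≤ z.re ∧ z.re ≤ Y - (1 / 8 - r) ∧ |z.im| ≤ 20 * b - (1 / 8 - r) := by
  have h1 := (Complex.abs_re_le_norm (z - w)).trans hz
  have h2 := (Complex.abs_im_le_norm (z - w)).trans hz
  rw [Complex.sub_re, abs_le] at h1
  rw [Complex.sub_im, abs_le] at h2
  obtain ⟨h3, h4, h5⟩ := hw
  rw [abs_le] at h5 ⊢
  refine ⟨by linarith [h1.1], by linarith [h1.2], by linarith [h2.1, h5.1], by linarith [h2.2, h5.2]⟩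

/-- bound of q in the interior -/
lemma dn_tay_qle (hε : 0 < ε) (hN : 0 < N) (hb : 1 ≤ b) (h : Reg ε N b Y R) {w z : ℂ}
    (hw : w ∈ dn_tay_box b Y) (hz : ‖z - w‖ < 1 / 8) : R z ≠ 0 ∧ ‖qq R z‖ ≤ ε * N := by
  set r := ‖z - w‖ with hr
  have h1 := dn_tay_near hw (le_refl ‖z - w‖)
  rw [← hr] at h1
  have h0 : R z ≠ 0 := h.ne z (by linarith [h1.1]) (by linarith [h1.2.1]) (by linarith [h1.2.2])
  refine ⟨h0, dn_tay_q h.diff h0 (sub_pos.mpr hz) (by positivity) (fun v hv => ?_)⟩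
  have h2 : ‖v - w‖ ≤ 1 / 8 := by
    calc ‖v - w‖ = ‖(v - z) + (z - w)‖ := by rw [sub_add_sub_cancel]
      _ ≤ ‖v - z‖ + ‖z - w‖ := norm_add_le _ _
      _ ≤ 1 / 8 := by rw [← hr]; linarith
  have h3 := dn_tay_near hw h2
  exact h.lin z v (by linarith [h1.1]) (by linarith [h1.2.1]) (by linarith [h1.2.2])
    (by linarith [h3.1]) (by linarith [h3.2.1]) (by linarith [h3.2.2])

lemma dn_tay_diff (hR : Differentiable ℂ R) {z : ℂ} (h0 : R z ≠ 0) :
    DifferentiableAt ℂ (qq R) z := by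
  have h1 : Differentiable ℂ (deriv R) := by
    have := hR.contDiff (n := 2)
    exact (this.differentiable_deriv_two)
  exact (h1 z).div (hR z) h0

/-- bound of the derivative of q -/
lemma dn_tay_dq (hε : 0 < ε) (hN : 0 < N) (hb : 1 ≤ b) (h : Reg ε N b Y R) {w : ℂ}
    (hw : w ∈ dn_tay_box b Y) : ‖deriv (qq R) w‖ ≤ 8 * ε * N := by
  by_contra hcon
  rw [not_le] at hcon
  set M := ‖deriv (qq R) w‖ with hM
  have hK : 0 < ε * N := by positivity
  have hMpos : 0 < M := by nlinarith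
  set r := (ε * N / M + 1 / 8) / 2 with hr
  have h1 : ε * N / M < 1 / 8 := by
    rw [div_lt_iff₀ hMpos]; linarith
  have h2 : 0 < ε * N / M := by positivity
  have hr0 : 0 < r := by rw [hr]; linarith
  have hr1 : r < 1 / 8 := by rw [hr]; linarith
  have hr2 : ε * N / M < r := by rw [hr]; linarith
  have h3 : DiffContOnCl ℂ (qq R) (Metric.ball w r) := by
    refine DifferentiableOn.diffContOnCl (fun z hz => ?_)
    rw [closure_ball w hr0.ne', Metric.mem_closedBall, dist_eq_norm] at hz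
    exact (dn_tay_diff h.diff (dn_tay_qle hε hN hb h hw (lt_of_le_of_lt hz hr1)).1).differentiableWithinAt
  have h4 := Complex.norm_deriv_le_of_forall_mem_sphere_norm_le hr0 h3 (C := ε * N) (fun z hz => by
    rw [Metric.mem_sphere, dist_eq_norm] at hz
    exact (dn_tay_qle hε hN hb h hw (hz ▸ hr1)).2)
  rw [← hM, le_div_iff₀ hr0] at h4
  rw [div_lt_iff₀ hMpos] at hr2
  linarith

lemma dn_tay_lip (hε : 0 < ε) (hN : 0 < N) (hb : 1 ≤ b) (h : Reg ε N b Y R) {w v : ℂ}
    (hw : w ∈ dn_tay_box b Y) (hv : v ∈ dn_tay_box b Y) :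
    ‖qq R v - qq R w‖ ≤ 8 * ε * N * ‖v - w‖ := by
  refine (dn_tay_convex b Y).norm_image_sub_le_of_norm_deriv_le (fun z hz => ?_) (fun z hz => ?_) hw hv
  · exact dn_tay_diff h.diff (dn_tay_qle hε hN hb h hz (by simp)).1
  · exact dn_tay_dq hε hN hb h hz

lemma dn_tay_exp (hε : 0 < ε) (hN : 0 < N) (hb : 1 ≤ b) (h : Reg ε N b Y R) {w v : ℂ}
    (hw : w ∈ dn_tay_box b Y) (hv : v ∈ dn_tay_box b Y) :
    ∃ E : ℂ, ‖E‖ ≤ 4 * ε * N * ‖v - w‖ ^ 2 ∧ R v = R w * cexp (qq R w * (v - w) + E) := by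
  -- the segment, clamped
  set c : ℝ → ℝ := fun s => max 0 (min 1 s) with hc
  have hcc : Continuous c := continuous_const.max (continuous_const.min continuous_id)
  have hc01 : ∀ s, 0 ≤ c s ∧ c s ≤ 1 := fun s =>
    ⟨le_max_left _ _, max_le zero_le_one (min_le_left _ _)⟩
  have hcid : ∀ s, 0 ≤ s → s ≤ 1 → c s = s := fun s h0 h1 => by
    simp only [hc]; rw [min_eq_right h1, max_eq_right h0]
  set γ : ℝ → ℂ := fun s => w + (c s : ℂ) * (v - w) with hγ
  have hγm : ∀ s, γ s ∈ dn_tay_box b Y := fun s => by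
    have := (dn_tay_convex b Y).add_smul_sub_mem hw hv (t := c s) ⟨(hc01 s).1, (hc01 s).2⟩
    simpa only [hγ, Complex.real_smul] using this
  have hγc : Continuous γ := by
    simp only [hγ]
    exact continuous_const.add ((Complex.continuous_ofReal.comp hcc).mul continuous_const)
  set p : ℝ → ℂ := fun s => qq R (γ s) * (v - w) with hp
  have hpc : Continuous p := by
    refine Continuous.mul ?_ continuous_const
    rw [continuous_iff_continuousAt]
    intro s
    exact ContinuousAt.comp (f := γ) (g := qq R)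
      (dn_tay_diff h.diff (dn_tay_qle hε hN hb h (hγm s) (by simp)).1).continuousAt hγc.continuousAt
  set G : ℝ → ℂ := fun t => ∫ s in (0 : ℝ)..t, p s with hG
  have hGd : ∀ t, HasDerivAt G (p t) t := fun t =>
    intervalIntegral.integral_hasDerivAt_right (hpc.intervalIntegrable _ _)
      hpc.stronglyMeasurable.stronglyMeasurableAtFilter hpc.continuousAt
  -- the constant function
  have hconst : R v * cexp (-G 1) = R w * cexp (-G 0) := by
    have hcont : ContinuousOn (fun t : ℝ => R (w + (t : ℂ) * (v - w)) * cexp (-G t)) (Set.Icc 0 1) := by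
      refine Continuous.continuousOn ?_
      refine Continuous.mul ?_ ?_
      · exact h.diff.continuous.comp
          (continuous_const.add (Complex.continuous_ofReal.mul continuous_const))
      · refine Complex.continuous_exp.comp (Continuous.neg ?_)
        exact continuous_iff_continuousAt.mpr fun t => (hGd t).continuousAt
    have hder : ∀ t ∈ Set.Ico (0 : ℝ) 1,
        HasDerivWithinAt (fun t : ℝ => R (w + (t : ℂ) * (v - w)) * cexp (-G t)) 0 (Set.Ici t) t := by
      intro t ht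
      have ht' : c t = t := hcid t ht.1 ht.2.le
      have hγt : γ t = w + (t : ℂ) * (v - w) := by simp only [hγ]; rw [ht']
      have hR0 : R (w + (t : ℂ) * (v - w)) ≠ 0 := by
        rw [← hγt]; exact (dn_tay_qle hε hN hb h (hγm t) (by simp)).1
      have h1 : HasDerivAt (fun t : ℂ => w + t * (v - w)) (v - w) (t : ℂ) := by
        simpa using ((hasDerivAt_id (t : ℂ)).mul_const (v - w)).const_add w
      have h2 : HasDerivAt R (deriv R (w + (t : ℂ) * (v - w))) (w + (t : ℂ) * (v - w)) :=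
        (h.diff _).hasDerivAt
      have h3 : HasDerivAt (fun t : ℝ => R (w + (t : ℂ) * (v - w)))
          (deriv R (w + (t : ℂ) * (v - w)) * (v - w)) t := (h2.comp (t : ℂ) h1).comp_ofReal
      have h4 : HasDerivAt (fun t : ℝ => cexp (-G t)) (cexp (-G t) * -p t) t := (hGd t).neg.cexp
      have h5 := h3.mul h4
      have h6 : deriv R (w + (t : ℂ) * (v - w)) * (v - w) * cexp (-G t) +
          R (w + (t : ℂ) * (v - w)) * (cexp (-G t) * -p t) = 0 := by
        have h7 : p t = deriv R (w + (t : ℂ) * (v - w)) / R (w + (t : ℂ) * (v - w)) * (v - w) := by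
          simp only [hp, qq]; rw [hγt]
        rw [h7]
        field_simp
        ring
      rw [h6] at h5
      exact h5.hasDerivWithinAt
    have h8 := constant_of_has_deriv_right_zero hcont hder 1 ⟨zero_le_one, le_rfl⟩
    simpa using h8
  have hG0 : G 0 = 0 := by simp only [hG]; rw [intervalIntegral.integral_same]
  refine ⟨G 1 - qq R w * (v - w), ?_, ?_⟩
  · have h1 : G 1 - qq R w * (v - w) = ∫ s in (0 : ℝ)..1, (p s - qq R w * (v - w)) := by
      rw [intervalIntegral.integral_sub (hpc.intervalIntegrable _ _)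
        (intervalIntegrable_const), intervalIntegral.integral_const]
      simp [hG]
    rw [h1]
    have h2 : ‖∫ s in (0 : ℝ)..1, (p s - qq R w * (v - w))‖ ≤
        ∫ s in (0 : ℝ)..1, (8 * ε * N * ‖v - w‖ ^ 2) * s := by
      refine intervalIntegral.norm_integral_le_of_norm_le zero_le_one ?_ ?_
      · refine Filter.Eventually.of_forall fun s hs => ?_
        have hcs : c s = s := hcid s hs.1.le hs.2
        have h3 : p s - qq R w * (v - w) = (qq R (γ s) - qq R w) * (v - w) := by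
          simp only [hp]; ring
        rw [h3, norm_mul]
        have h4 := dn_tay_lip hε hN hb h hw (hγm s)
        have h5 : ‖γ s - w‖ = s * ‖v - w‖ := by
          simp only [hγ]
          rw [hcs, add_sub_cancel_left, norm_mul, Complex.norm_real, Real.norm_eq_abs,
            abs_of_pos hs.1]
        rw [h5] at h4
        calc ‖qq R (γ s) - qq R w‖ * ‖v - w‖ ≤ (8 * ε * N * (s * ‖v - w‖)) * ‖v - w‖ :=
              mul_le_mul_of_nonneg_right h4 (norm_nonneg _)
          _ = (8 * ε * N * ‖v - w‖ ^ 2) * s := by ring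
      · exact (continuous_const.mul continuous_id).intervalIntegrable _ _
    refine h2.trans (le_of_eq ?_)
    rw [intervalIntegral.integral_const_mul, integral_id]
    ring
  · have h1 : R v = R w * cexp (G 1) := by
      have h2 : R v * cexp (-G 1) * cexp (G 1) = R w * cexp (G 1) := by
        rw [hconst, hG0, neg_zero, Complex.exp_zero, mul_one]
      rwa [mul_assoc, ← Complex.exp_add, neg_add_cancel, Complex.exp_zero, mul_one] at h2
    rw [h1]
    congr 2
    ring

/-- piece tay -/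
theorem p_tay : S_tay := by
  intro ε N b Y R hε hN hb h w v h1 h2 h3 h4 h5 h6
  have hw : w ∈ dn_tay_box b Y := ⟨h1, h2, h3⟩
  have hv : v ∈ dn_tay_box b Y := ⟨h4, h5, h6⟩
  exact ⟨(dn_tay_qle hε hN hb h hw (by simp)).2, dn_tay_lip hε hN hb h hw hv,
    dn_tay_exp hε hN hb h hw hv⟩

end Pool.Agent.Lib.MP_cd509c_nt.DN
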