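import Pool.Agent.Lib.MP_cd509c_nt.DN.Defs2

/-!
# The frozen weights are admissible
-/

set_option autoImplicit false

namespace Pool.Agent.Lib.MP_cd509c_nt.DN

open Complex ComplexConjugate MeasureTheory Set Filter Topology
open scoped FourierTransform

private abbrev dn_wt_N : WithTop ℕ∞ := ((⊤ : ℕ∞) : WithTop ℕ∞)

private lemma dn_wt_le (n : ℕ) : (n : WithTop ℕ∞) ≤ dn_wt_N := by
  unfold dn_wt_N
  exact_mod_cast (le_top : (n : ℕ∞) ≤ ⊤)

/-- all derivatives of the smooth transition are bounded -/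
private lemma dn_wt_st : ∀ k : ℕ, ∃ M : ℝ, ∀ x, ‖iteratedDeriv k Real.smoothTransition x‖ ≤ M := by
  intro k
  have hc : Continuous (iteratedDeriv k Real.smoothTransition) :=
    (Real.smoothTransition.contDiff (n := (⊤ : ℕ∞))).continuous_iteratedDeriv k (dn_wt_le k)
  obtain ⟨M, hM⟩ := (isCompact_Icc (a := (0 : ℝ)) (b := 1)).exists_bound_of_continuousOn
    hc.continuousOn
  refine ⟨max M 1, ?_⟩
  intro x
  rcases lt_or_ge x 0 with h | h
  · have h1 : Real.smoothTransition =ᶠ[𝓝 x] fun _ => (0 : ℝ) := by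
      filter_upwards [Iio_mem_nhds h] with y hy
      exact Real.smoothTransition.zero_of_nonpos (le_of_lt hy)
    rw [h1.iteratedDeriv_eq, iteratedDeriv_const]
    split_ifs <;> simp
  · rcases lt_or_ge 1 x with h' | h'
    · have h1 : Real.smoothTransition =ᶠ[𝓝 x] fun _ => (1 : ℝ) := by
        filter_upwards [Ioi_mem_nhds h'] with y hy
        exact Real.smoothTransition.one_of_one_le (le_of_lt hy)
      rw [h1.iteratedDeriv_eq, iteratedDeriv_const]
      split_ifs <;> simp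
    · exact (hM x ⟨h, h'⟩).trans (le_max_left _ _)

/-- affine substitution -/
private lemma dn_wt_aff (a b : ℝ) (k : ℕ) (x : ℝ) :
    iteratedDeriv k (fun t => Real.smoothTransition (a * t + b)) x =
      a ^ k * iteratedDeriv k Real.smoothTransition (a * x + b) := by
  have h1 : ContDiff ℝ k (fun y => Real.smoothTransition (y + b)) :=
    (Real.smoothTransition.contDiff (n := (k : ℕ∞))).comp (contDiff_id.add contDiff_const)
  have h2 := congrFun (iteratedDeriv_comp_const_mul h1 a) x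
  rw [h2, iteratedDeriv_comp_add_const]

private lemma dn_wt_affC (a b : ℝ) :
    ContDiff ℝ dn_wt_N (fun t => Real.smoothTransition (a * t + b)) :=
  (Real.smoothTransition.contDiff (n := (⊤ : ℕ∞))).comp
    ((contDiff_const.mul contDiff_id).add contDiff_const)

/-- smooth with bounded derivatives -/
private def dn_wt_BD (f : ℝ → ℝ) (M : ℕ → ℝ) : Prop :=
  ContDiff ℝ dn_wt_N f ∧ ∀ k x, ‖iteratedFDeriv ℝ k f x‖ ≤ M k

private def dn_wt_cv (M M' : ℕ → ℝ) (n : ℕ) : ℝ :=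
  ∑ i ∈ Finset.range (n + 1), (n.choose i : ℝ) * M i * M' (n - i)

private lemma dn_wt_mul {f g : ℝ → ℝ} {M M' : ℕ → ℝ} (hf : dn_wt_BD f M) (hg : dn_wt_BD g M') :
    dn_wt_BD (fun x => f x * g x) (dn_wt_cv M M') := by
  refine ⟨hf.1.mul hg.1, ?_⟩
  intro k x
  refine (norm_iteratedFDeriv_mul_le hf.1 hg.1 x (dn_wt_le k)).trans ?_
  apply Finset.sum_le_sum
  intro i _
  have h0 : 0 ≤ M i := (norm_nonneg _).trans (hf.2 i x)
  exact mul_le_mul (mul_le_mul_of_nonneg_left (hf.2 i x) (Nat.cast_nonneg _)) (hg.2 _ x)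
    (norm_nonneg _) (by positivity)

/-- derivatives of the exponential -/
private lemma dn_wt_exp (a : ℂ) (k : ℕ) :
    iteratedDeriv k (fun t : ℝ => cexp (a * t)) = fun t : ℝ => a ^ k * cexp (a * t) := by
  induction k with
  | zero => simp
  | succ k ih =>
    rw [iteratedDeriv_succ, ih]
    funext t
    have h : HasDerivAt (fun t : ℝ => a ^ k * cexp (a * t)) (a ^ k * (cexp (a * t) * (a * 1))) t :=
      (((hasDerivAt_id t).ofReal_comp.const_mul a).cexp).const_mul (a ^ k)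
    rw [h.deriv]
    ring

private lemma dn_wt_expC (a : ℂ) : ContDiff ℝ dn_wt_N (fun t : ℝ => cexp (a * t)) :=
  (contDiff_const.mul Complex.ofRealCLM.contDiff).cexp

/-- the cut off weight -/
private noncomputable def dn_wt_G (i : ℕ) (v : ℝ) (t : ℝ) : ℝ :=
  Real.smoothTransition (1 * t + 1) * (Real.smoothTransition (-2 * t + 2) *
    iteratedDeriv i Vs (t + v))

private lemma dn_wt_GB : ∃ M : ℕ → ℝ, ∀ (i : ℕ) (v : ℝ), i ≤ 1 → dn_wt_BD (dn_wt_G i v) M := by
  choose M0 hM0 using dn_wt_st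
  have hM00 : ∀ k, 0 ≤ M0 k := fun k => (norm_nonneg _).trans (hM0 k 0)
  have hVs : Vs = fun t => Real.smoothTransition (1 / 2 * t + 1 / 2) := by
    funext t; unfold Vs; congr 1; ring
  have hVsC : ContDiff ℝ dn_wt_N Vs := by rw [hVs]; exact dn_wt_affC _ _
  have hA : ∀ a b : ℝ, dn_wt_BD (fun t => Real.smoothTransition (a * t + b))
      (fun k => |a| ^ k * M0 k) := by
    intro a b
    refine ⟨dn_wt_affC a b, ?_⟩
    intro k x
    rw [norm_iteratedFDeriv_eq_norm_iteratedDeriv, dn_wt_aff, norm_mul, norm_pow,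
      Real.norm_eq_abs a]
    exact mul_le_mul_of_nonneg_left (hM0 k _) (by positivity)
  have hV : ∀ (i : ℕ) (v : ℝ), i ≤ 1 → dn_wt_BD (fun t => iteratedDeriv i Vs (t + v))
      (fun k => M0 k + M0 (k + 1)) := by
    intro i v hi
    have hb : ∀ j x, ‖iteratedDeriv j Vs x‖ ≤ M0 j := by
      intro j x
      rw [hVs, dn_wt_aff, norm_mul, norm_pow]
      have h1 : ‖(1 / 2 : ℝ)‖ ^ j ≤ 1 := by
        apply pow_le_one₀ (norm_nonneg _)
        rw [Real.norm_eq_abs, abs_of_pos (by norm_num)]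
        norm_num
      calc ‖(1 / 2 : ℝ)‖ ^ j * ‖iteratedDeriv j Real.smoothTransition (1 / 2 * x + 1 / 2)‖
          ≤ 1 * M0 j := mul_le_mul h1 (hM0 j _) (norm_nonneg _) (by norm_num)
        _ = M0 j := one_mul _
    have hC : ContDiff ℝ dn_wt_N (iteratedDeriv i Vs) := by
      rw [iteratedDeriv_eq_iterate]
      exact ContDiff.iterate_deriv i hVsC
    refine ⟨hC.comp (contDiff_id.add contDiff_const), ?_⟩
    intro k x
    rw [norm_iteratedFDeriv_eq_norm_iteratedDeriv, iteratedDeriv_comp_add_const]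
    simp only
    have h2 : iteratedDeriv k (iteratedDeriv i Vs) = iteratedDeriv (k + i) Vs := by
      rw [iteratedDeriv_eq_iterate, iteratedDeriv_eq_iterate, iteratedDeriv_eq_iterate,
        Function.iterate_add_apply]
    rw [h2]
    refine (hb _ _).trans ?_
    interval_cases i
    · have := hM00 (k + 1); simp only [add_zero]; linarith
    · have := hM00 k; linarith
  refine ⟨dn_wt_cv (fun k => |(1 : ℝ)| ^ k * M0 k) (dn_wt_cv (fun k => |(-2 : ℝ)| ^ k * M0 k)
    (fun k => M0 k + M0 (k + 1))), ?_⟩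
  intro i v hi
  exact dn_wt_mul (hA 1 1) (dn_wt_mul (hA (-2) 2) (hV i v hi))

/-- the function whose Fourier transform is taken -/
private noncomputable def dn_wt_f (i : ℕ) (v : ℝ) (c : ℂ) (t : ℝ) : ℂ :=
  dn_wt_G i v t • cexp ((1 - c) * t)

private lemma dn_wt_zero (i : ℕ) (v : ℝ) (c : ℂ) {t : ℝ} (ht : t ≤ -1 ∨ 1 ≤ t) :
    dn_wt_f i v c t = 0 := by
  unfold dn_wt_f dn_wt_G
  rcases ht with h | h
  · rw [Real.smoothTransition.zero_of_nonpos (x := 1 * t + 1) (by linarith)]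
    simp
  · rw [Real.smoothTransition.zero_of_nonpos (x := -2 * t + 2) (by linarith)]
    simp

private lemma dn_wt_izero (i : ℕ) (v : ℝ) (c : ℂ) (m : ℕ) {t : ℝ} (ht : t ∉ Icc (-1 : ℝ) 1) :
    iteratedDeriv m (dn_wt_f i v c) t = 0 := by
  have h1 : dn_wt_f i v c =ᶠ[𝓝 t] fun _ => (0 : ℂ) := by
    rw [mem_Icc, not_and_or, not_le, not_le] at ht
    rcases ht with h | h
    · filter_upwards [Iio_mem_nhds h] with y hy
      exact dn_wt_zero i v c (Or.inl (le_of_lt hy))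
    · filter_upwards [Ioi_mem_nhds h] with y hy
      exact dn_wt_zero i v c (Or.inr (le_of_lt hy))
  rw [h1.iteratedDeriv_eq, iteratedDeriv_const]
  split_ifs <;> rfl

private lemma dn_wt_bound : ∃ S : ℕ → ℝ, (∀ m, 0 < S m) ∧ ∀ (i : ℕ) (v : ℝ) (c : ℂ), i ≤ 1 →
    ContDiff ℝ dn_wt_N (dn_wt_f i v c) ∧
    ∀ m t, ‖iteratedDeriv m (dn_wt_f i v c) t‖ ≤ S m * Real.exp (2 * ‖c‖) := by
  obtain ⟨M, hM⟩ := dn_wt_GB
  have hM0 : ∀ k, 0 ≤ M k := fun k => (norm_nonneg _).trans ((hM 0 0 (by norm_num)).2 k 0)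
  refine ⟨fun m => (∑ j ∈ Finset.range (m + 1), (m.choose j : ℝ) * M j) * m.factorial *
    Real.exp 2 + 1, ?_, ?_⟩
  · intro m
    have : 0 ≤ (∑ j ∈ Finset.range (m + 1), (m.choose j : ℝ) * M j) * m.factorial *
        Real.exp 2 := by
      have h1 : 0 ≤ ∑ j ∈ Finset.range (m + 1), (m.choose j : ℝ) * M j :=
        Finset.sum_nonneg fun j _ => mul_nonneg (Nat.cast_nonneg _) (hM0 j)
      positivity
    simp only
    linarith
  intro i v c hi
  have hG := hM i v hi
  refine ⟨hG.1.smul (dn_wt_expC (1 - c)), ?_⟩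
  intro m t
  have hS0 : 0 ≤ ∑ j ∈ Finset.range (m + 1), (m.choose j : ℝ) * M j :=
    Finset.sum_nonneg fun j _ => mul_nonneg (Nat.cast_nonneg _) (hM0 j)
  by_cases ht : t ∈ Icc (-1 : ℝ) 1
  · rw [← norm_iteratedFDeriv_eq_norm_iteratedDeriv]
    refine (norm_iteratedFDeriv_smul_le hG.1 (dn_wt_expC (1 - c)) t (dn_wt_le m)).trans ?_
    set x : ℝ := 1 + ‖c‖ with hx
    have hx1 : 1 ≤ x := by rw [hx]; linarith [norm_nonneg c]
    have h1c : ‖1 - c‖ ≤ x := by
      refine (norm_sub_le _ _).trans ?_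
      rw [norm_one]
    have hE : ∀ j, j ≤ m → ‖iteratedFDeriv ℝ j (fun t : ℝ => cexp ((1 - c) * t)) t‖ ≤
        x ^ m * Real.exp x := by
      intro j hj
      rw [norm_iteratedFDeriv_eq_norm_iteratedDeriv, dn_wt_exp, norm_mul, norm_pow,
        Complex.norm_exp]
      have h2 : ((1 - c) * (t : ℂ)).re ≤ x := by
        refine (Complex.re_le_norm _).trans ?_
        rw [norm_mul, Complex.norm_real, Real.norm_eq_abs]
        calc ‖1 - c‖ * |t| ≤ x * 1 :=
              mul_le_mul h1c (abs_le.2 ht) (abs_nonneg _) (by linarith)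
          _ = x := mul_one _
      apply mul_le_mul _ (Real.exp_le_exp.2 h2) (Real.exp_pos _).le (by positivity)
      calc ‖1 - c‖ ^ j ≤ x ^ j := pow_le_pow_left₀ (norm_nonneg _) h1c j
        _ ≤ x ^ m := pow_le_pow_right₀ hx1 hj
    have h3 : ∑ j ∈ Finset.range (m + 1), (m.choose j : ℝ) * ‖iteratedFDeriv ℝ j (dn_wt_G i v) t‖ *
        ‖iteratedFDeriv ℝ (m - j) (fun t : ℝ => cexp ((1 - c) * t)) t‖ ≤
        ∑ j ∈ Finset.range (m + 1), (m.choose j : ℝ) * M j * (x ^ m * Real.exp x) := by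
      apply Finset.sum_le_sum
      intro j _
      exact mul_le_mul (mul_le_mul_of_nonneg_left (hG.2 j t) (Nat.cast_nonneg _))
        (hE _ (Nat.sub_le _ _)) (norm_nonneg _) (mul_nonneg (Nat.cast_nonneg _) (hM0 j))
    refine h3.trans ?_
    rw [← Finset.sum_mul]
    have h4 : x ^ m ≤ m.factorial * Real.exp x := by
      have := Real.pow_div_factorial_le_exp x (by linarith) m
      rw [div_le_iff₀ (by positivity)] at this
      linarith
    have h5 : x ^ m * Real.exp x ≤ m.factorial * (Real.exp 2 * Real.exp (2 * ‖c‖)) := by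
      calc x ^ m * Real.exp x ≤ (m.factorial * Real.exp x) * Real.exp x :=
            mul_le_mul_of_nonneg_right h4 (Real.exp_pos _).le
        _ = m.factorial * (Real.exp 2 * Real.exp (2 * ‖c‖)) := by
            rw [mul_assoc, ← Real.exp_add, ← Real.exp_add, hx]
            congr 2
            ring
    calc (∑ j ∈ Finset.range (m + 1), (m.choose j : ℝ) * M j) * (x ^ m * Real.exp x)
        ≤ (∑ j ∈ Finset.range (m + 1), (m.choose j : ℝ) * M j) *
          (m.factorial * (Real.exp 2 * Real.exp (2 * ‖c‖))) := mul_le_mul_of_nonneg_left h5 hS0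
      _ ≤ _ := by
          have h6 : 0 < Real.exp (2 * ‖c‖) := Real.exp_pos _
          simp only
          nlinarith
  · rw [dn_wt_izero i v c m ht, norm_zero]
    have : 0 ≤ (∑ j ∈ Finset.range (m + 1), (m.choose j : ℝ) * M j) * m.factorial *
        Real.exp 2 := by positivity
    have h6 : 0 < Real.exp (2 * ‖c‖) := Real.exp_pos _
    simp only
    nlinarith

private lemma dn_wt_int (i : ℕ) (v : ℝ) (c : ℂ) (m : ℕ)
    (h : ContDiff ℝ dn_wt_N (dn_wt_f i v c)) :
    Integrable (iteratedDeriv m (dn_wt_f i v c)) := by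
  apply (h.continuous_iteratedDeriv m (dn_wt_le m)).integrable_of_hasCompactSupport
  exact HasCompactSupport.intro (isCompact_Icc (a := (-1 : ℝ)) (b := 1))
    fun t ht => dn_wt_izero i v c m ht

private lemma dn_wt_intb (i : ℕ) (v : ℝ) (c : ℂ) (m : ℕ) (B : ℝ)
    (hB : ∀ t, ‖iteratedDeriv m (dn_wt_f i v c) t‖ ≤ B) :
    ∫ t, ‖iteratedDeriv m (dn_wt_f i v c) t‖ ≤ 2 * B := by
  have h1 : ∫ t, ‖iteratedDeriv m (dn_wt_f i v c) t‖ =
      ∫ t in Icc (-1 : ℝ) 1, ‖iteratedDeriv m (dn_wt_f i v c) t‖ := by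
    symm
    apply setIntegral_eq_integral_of_forall_compl_eq_zero
    intro t ht
    rw [dn_wt_izero i v c m ht, norm_zero]
  rw [h1]
  have h2 : ‖∫ t in Icc (-1 : ℝ) 1, ‖iteratedDeriv m (dn_wt_f i v c) t‖‖ ≤
      B * (volume : Measure ℝ).real (Icc (-1 : ℝ) 1) := by
    apply norm_setIntegral_le_of_norm_le_const
    · rw [Real.volume_Icc]
      exact ENNReal.ofReal_lt_top
    · intro t _
      rw [norm_norm]
      exact hB t
  have h3 : (volume : Measure ℝ).real (Icc (-1 : ℝ) 1) = 2 := by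
    rw [Real.volume_real_Icc]
    norm_num
  rw [h3] at h2
  have h4 := (le_abs_self _).trans h2
  linarith

private lemma dn_wt_four (i : ℕ) (v : ℝ) (c : ℂ) (m : ℕ) (B : ℝ)
    (h : ContDiff ℝ dn_wt_N (dn_wt_f i v c))
    (hB : ∀ t, ‖iteratedDeriv m (dn_wt_f i v c) t‖ ≤ B) (x : ℝ) :
    |2 * Real.pi * x| ^ m * ‖𝓕 (dn_wt_f i v c) x‖ ≤ 2 * B := by
  have h1 := Real.fourier_iteratedDeriv (N := ⊤) (n := m) h
    (fun n _ => dn_wt_int i v c n h) le_top
  have h2 := congrFun h1 x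
  have h3 : ‖𝓕 (iteratedDeriv m (dn_wt_f i v c)) x‖ ≤ 2 * B := by
    refine le_trans ?_ (dn_wt_intb i v c m B hB)
    exact VectorFourier.norm_fourierIntegral_le_integral_norm _ _ _ _ _
  rw [h2] at h3
  refine le_trans (le_of_eq ?_) h3
  rw [norm_smul, norm_pow]
  congr 2
  rw [norm_mul, norm_mul, norm_mul, Complex.norm_I]
  simp only [Complex.norm_real, Complex.norm_ofNat, Real.norm_eq_abs, mul_one, abs_mul,
    Nat.abs_ofNat]

private lemma dn_wt_cont (i : ℕ) (v : ℝ) (c : ℂ) (h : ContDiff ℝ dn_wt_N (dn_wt_f i v c)) :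
    Continuous (𝓕 (dn_wt_f i v c)) := by
  have h0 := dn_wt_int i v c 0 h
  rw [iteratedDeriv_zero] at h0
  exact VectorFourier.fourierIntegral_continuous Real.continuous_fourierChar
    (by exact continuous_inner) h0

private lemma dn_wt_pow {x : ℝ} (hx : 0 ≤ x) (m : ℕ) : (2 + x) ^ m ≤ 4 ^ m * (1 + x ^ m) := by
  have h1 := add_pow_le (by norm_num : (0 : ℝ) ≤ 2) hx m
  have h2 : (2 : ℝ) ^ (m - 1) ≤ 2 ^ m := pow_le_pow_right₀ (by norm_num) (Nat.sub_le _ _)
  have h3 : (1 : ℝ) ≤ 2 ^ m := one_le_pow₀ (by norm_num)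
  have h4 : 0 ≤ x ^ m := pow_nonneg hx m
  calc (2 + x) ^ m ≤ 2 ^ (m - 1) * (2 ^ m + x ^ m) := h1
    _ ≤ 2 ^ m * (2 ^ m + x ^ m) := mul_le_mul_of_nonneg_right h2 (by positivity)
    _ ≤ 2 ^ m * (2 ^ m + 2 ^ m * x ^ m) := by
        apply mul_le_mul_of_nonneg_left _ (by positivity)
        nlinarith
    _ = 4 ^ m * (1 + x ^ m) := by
        rw [show (4 : ℝ) = 2 * 2 by norm_num, mul_pow]
        ring

private lemma dn_wt_inv (i : ℕ) (v : ℝ) (c : ℂ) (h : ContDiff ℝ dn_wt_N (dn_wt_f i v c))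
    (hi : Integrable (𝓕 (dn_wt_f i v c))) (u : ℝ) :
    dn_wt_f i v c u = ∫ x : ℝ, 𝓕 (dn_wt_f i v c) x * cexp (2 * Real.pi * x * u * I) := by
  have h0 := dn_wt_int i v c 0 h
  rw [iteratedDeriv_zero] at h0
  have h1 := congrFun (Continuous.fourierInv_fourier_eq h.continuous h0 hi) u
  rw [Real.fourierInv_eq'] at h1
  rw [← h1]
  apply integral_congr_ae
  filter_upwards with x
  simp only [RCLike.inner_apply, conj_trivial, smul_eq_mul]
  rw [mul_comm]
  congr 2
  push_cast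
  ring

theorem p_wt : S_wt := by
  obtain ⟨S, hS0, hS⟩ := dn_wt_bound
  intro A hA
  set m : ℕ := ⌈A⌉₊ with hm
  have hmA : A ≤ m := Nat.le_ceil A
  refine ⟨4 ^ m * (S 0 + S m), by have := hS0 0; have := hS0 m; positivity, ?_⟩
  intro i v c hi
  obtain ⟨hC, hB⟩ := hS i v c hi
  set E : ℝ := Real.exp (2 * ‖c‖) with hE
  have hE0 : 0 < E := Real.exp_pos _
  have hpi : 0 < Real.pi := Real.pi_pos
  have hpi1 : 1 ≤ Real.pi := by linarith [Real.pi_gt_three]
  have hF0 : ∀ x, ‖𝓕 (dn_wt_f i v c) x‖ ≤ 2 * (S 0 * E) := by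
    intro x
    have := dn_wt_four i v c 0 _ hC (hB 0) x
    simpa using this
  have hFi : Integrable (𝓕 (dn_wt_f i v c)) := by
    refine Integrable.mono' (integrable_inv_one_add_sq.const_mul (2 * (S 0 * E) + 2 * (S 2 * E)))
      (dn_wt_cont i v c hC).aestronglyMeasurable ?_
    filter_upwards with x
    have h1 := hF0 x
    have h2 := dn_wt_four i v c 2 _ hC (hB 2) x
    rw [sq_abs] at h2
    rw [← div_eq_mul_inv, le_div_iff₀ (by positivity)]
    have h3 : x ^ 2 ≤ (2 * Real.pi * x) ^ 2 := by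
      have : (2 * Real.pi * x) ^ 2 = (2 * Real.pi) ^ 2 * x ^ 2 := by ring
      rw [this]
      have h4 : 1 ≤ (2 * Real.pi) ^ 2 := by nlinarith
      nlinarith [sq_nonneg x]
    have h5 : x ^ 2 * ‖𝓕 (dn_wt_f i v c) x‖ ≤ (2 * Real.pi * x) ^ 2 * ‖𝓕 (dn_wt_f i v c) x‖ :=
      mul_le_mul_of_nonneg_right h3 (norm_nonneg _)
    linarith
  set a : ℝ := -(1 / (2 * Real.pi)) with ha
  have ha0 : 2 * Real.pi * a = -1 := by rw [ha]; field_simp
  refine ⟨fun ξ => ((1 / (2 * Real.pi) : ℝ) : ℂ) * 𝓕 (dn_wt_f i v c) (a * ξ), ?_, ?_, ?_⟩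
  · exact continuous_const.mul ((dn_wt_cont i v c hC).comp (continuous_const.mul continuous_id))
  · intro ξ
    rw [norm_mul, Complex.norm_real, Real.norm_eq_abs, abs_of_pos (by positivity)]
    have h1 := hF0 (a * ξ)
    have h2 := dn_wt_four i v c m _ hC (hB m) (a * ξ)
    have h3 : |2 * Real.pi * (a * ξ)| = |ξ| := by
      rw [← mul_assoc, ha0, neg_one_mul, abs_neg]
    rw [h3] at h2
    set F : ℝ := ‖𝓕 (dn_wt_f i v c) (a * ξ)‖ with hF
    have hFn : 0 ≤ F := norm_nonneg _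
    have h4 : (1 + |ξ| ^ m) * F ≤ 2 * ((S 0 + S m) * E) := by linarith
    have h5 := dn_wt_pow (abs_nonneg ξ) m
    have h6 : (2 + |ξ|) ^ m * F ≤ 4 ^ m * (2 * ((S 0 + S m) * E)) := by
      calc (2 + |ξ|) ^ m * F ≤ 4 ^ m * (1 + |ξ| ^ m) * F := mul_le_mul_of_nonneg_right h5 hFn
        _ = 4 ^ m * ((1 + |ξ| ^ m) * F) := by ring
        _ ≤ _ := mul_le_mul_of_nonneg_left h4 (by positivity)
    have h2x : 0 < 2 + |ξ| := by positivity
    have h7 : (2 + |ξ|) ^ A ≤ (2 + |ξ|) ^ m := by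
      rw [← Real.rpow_natCast]
      exact Real.rpow_le_rpow_of_exponent_le (by linarith [abs_nonneg ξ]) hmA
    have h8 : (2 + |ξ|) ^ A * F ≤ 4 ^ m * (2 * ((S 0 + S m) * E)) :=
      (mul_le_mul_of_nonneg_right h7 hFn).trans h6
    rw [Real.rpow_neg h2x.le, ← div_eq_mul_inv, le_div_iff₀ (by positivity)]
    have h9 : 1 / (2 * Real.pi) ≤ 1 / 2 := by
      apply one_div_le_one_div_of_le (by norm_num)
      linarith
    have h10 : 0 ≤ (2 + |ξ|) ^ A * F := by positivity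
    calc 1 / (2 * Real.pi) * F * (2 + |ξ|) ^ A = 1 / (2 * Real.pi) * ((2 + |ξ|) ^ A * F) := by ring
      _ ≤ 1 / 2 * ((2 + |ξ|) ^ A * F) := mul_le_mul_of_nonneg_right h9 h10
      _ ≤ 1 / 2 * (4 ^ m * (2 * ((S 0 + S m) * E))) := by linarith
      _ = 4 ^ m * (S 0 + S m) * E := by ring
  · intro u hu
    have hW : WV i v c u = dn_wt_f i v c u * cexp (-(u : ℂ)) := by
      unfold WV dn_wt_f dn_wt_G Pw
      rw [Real.smoothTransition.one_of_one_le (x := 1 * u + 1) (by linarith),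
        show (2 * (1 - u) : ℝ) = -2 * u + 2 by ring, one_mul, Complex.real_smul, mul_assoc,
        mul_assoc, ← Complex.exp_add]
      push_cast
      rw [mul_assoc]
      congr 3
      ring
    rw [hW, dn_wt_inv i v c hC hFi u]
    have h1 := Measure.integral_comp_mul_left
      (fun x : ℝ => 𝓕 (dn_wt_f i v c) x * cexp (2 * Real.pi * x * u * I)) a
    have h2 : |a⁻¹| = 2 * Real.pi := by
      rw [ha, inv_neg, abs_neg, one_div, inv_inv, abs_of_pos (by positivity)]
    rw [h2] at h1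
    have h3 : ∫ x : ℝ, 𝓕 (dn_wt_f i v c) x * cexp (2 * Real.pi * x * u * I) =
        ((1 / (2 * Real.pi) : ℝ) : ℂ) * ∫ x : ℝ, 𝓕 (dn_wt_f i v c) (a * x) *
          cexp (2 * Real.pi * ((a * x : ℝ) : ℂ) * u * I) := by
      rw [h1, Complex.real_smul, ← mul_assoc, ← Complex.ofReal_mul,
        one_div_mul_cancel (by positivity), Complex.ofReal_one, one_mul]
    rw [h3, mul_comm _ (cexp _), ← mul_assoc, ← integral_const_mul]
    apply integral_congr_ae
    filter_upwards with x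
    have h4 : 2 * Real.pi * ((a * x : ℝ) : ℂ) * u * I = -(x * I * u) := by
      have : (2 * Real.pi * ((a * x : ℝ) : ℂ) : ℂ) = -x := by
        rw [← Complex.ofReal_ofNat, ← Complex.ofReal_mul, ← Complex.ofReal_mul, ← mul_assoc, ha0]
        push_cast
        ring
      rw [this]
      ring
    rw [h4]
    have h5 : cexp (-((1 + x * I) * u)) = cexp (-(u : ℂ)) * cexp (-(x * I * u)) := by
      rw [← Complex.exp_add]
      congr 1
      ring
    rw [h5]
    ring

end Pool.Agent.Lib.MP_cd509c_nt.DN
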